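import Pool.Agent.MP_ed9623_an.R1.Defs
import Pool.Agent.MP_ed9623_an.R46.Defs

/-! The input of the calculus along the arc, and its output. -/

open Filter Topology Set

namespace Pool.Agent.MP_ed9623_an.R10

open H77 (P Q)
open R77 R46 R1

/-- Classical jets at the time `t` in the chart `(s, e) ↦ (s, Y (s, e))`; the arc is `e = 0`, the
zone lies below, and the tangent of the arc is a null direction at all times. -/
structure In (n : ℝ) (O Z : Set P) (ps al pr : ℝ → ℕ → J2) (t a r : ℝ) (ps' al' pr' : ℕ → J2)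
    (c ε : ℝ) (l m s Y nn : P → ℝ) : Prop where
  lx : Lx n O Z ps al pr
  sub : Q a ⊆ O
  cj : CJ a ps' al' pr'
  sa : Same a (pk ps' al' pr') (pk (ps t) (al t) (pr t))
  nu : Nu a c ε (ps' 0) l m s
  out : Out a r ps' al' pr' l s Y nn
  low : ∀ p ∈ Q r, p.2 < 0 → ((p.1, Y p) : P) ∈ Z
  ch : ∀ x, |x| < r → hz n ps (1, l (x, Y (x, 0))) (1, l (x, Y (x, 0))) (x, Y (x, 0)) = 0

/-- The alternatives along the arc. -/
def AtS : Prop := ∀ n O Z ps al pr t a r ps' al' pr' c ε l m s Y nn,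
  In n O Z ps al pr t a r ps' al' pr' c ε l m s Y nn → ∀ x, |x| < r →
    (deriv (deriv fun x' => Y (x', 0)) x ≠ 0 → ∃ᶠ x' in 𝓝 x, Smo ps al (x', Y (x', 0))) ∧
    ((∀ᶠ x' in 𝓝 x, Y (x', 0) = 0) → ∃ᶠ x' in 𝓝 x, Smo ps al (x', 0) ∨ Tz n ps 0 x')

/-- The input exists at a nondegenerate touching point. -/
def InS : Prop := ∀ (n : ℝ) (O Z : Set P) (ps al pr : ℝ → ℕ → J2) (Φ : P → ℝ),
  Lx n O Z ps al pr → 0 ∈ O → Tc Z 0 Φ → H64.pd (H77.ee 0) Φ 0 = 0 → H64.pd (H77.ee 1) Φ 0 < 0 →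
  cz n ps 2 0 0 = 0 → cz n ps 1 1 0 ≠ 0 →
  ∃ t a r ps' al' pr' c ε l m s Y nn, In n O Z ps al pr t a r ps' al' pr' c ε l m s Y nn ∧
    ∃ γ : H64.SA ℝ, (∀ᶠ x in 𝓝 (0 : ℝ), γ.1 x = Y (x, 0)) ∧ deriv γ.1 0 = 0 ∧ S64.Crv Z 0 γ

theorem at_of (h₁ : InS) (h₂ : AtS) : ATS := by
  intro n O Z ps al pr Φ lx o tc a b c d
  obtain ⟨t, a', r, ps', al', pr', c', ε, l, m, s, Y, nn, hi, γ, e, g0, cr⟩ :=
    h₁ n O Z ps al pr Φ lx o tc a b c d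
  refine ⟨γ, g0, cr, ?_⟩
  have hr : ∀ᶠ x in 𝓝 (0 : ℝ), |x| < r :=
    continuous_abs.continuousAt.eventually_lt continuousAt_const (by simpa using hi.out.r0)
  filter_upwards [e.eventually_nhds, hr] with x ex hx
  obtain ⟨k₁, k₂⟩ := h₂ _ _ _ _ _ _ _ _ _ _ _ _ _ _ _ _ _ _ _ hi x hx
  have ee : γ.1 =ᶠ[𝓝 x] fun x' => Y (x', 0) := ex
  refine ⟨fun h => ?_, fun h => k₂ ((h.and ex).mono fun _ k => k.2 ▸ k.1)⟩
  rw [ee.deriv.deriv_eq] at h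
  exact ((k₁ h).and_eventually ex).mono fun _ k => k.2 ▸ k.1

end Pool.Agent.MP_ed9623_an.R10
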