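import Pool.Agent.MP_ed9623_an.R10.Base4

/-! The first harmonic: leading order and next order. -/

namespace Pool.Agent.MP_ed9623_an.R10

open FA Mdl

namespace XB12

variable {M : Mdl} {m n : ℝ}

/-- The real solution of a complex relation. -/
theorem solve (u : IsUnit (M.wd M.l M.q)) {x x' f r : M.R} (hx : M.cj x = x) (hx' : M.cj x' = x')
    (hf : M.cj f = f) (h : M.l * x - 2 * M.q * x' - r * f ∈ M.O n) :
    x - M.sx r * f ∈ M.O n ∧ x' - M.sx' r * f ∈ M.O n := by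
  have h' := O_cj h
  simp only [map_sub, map_mul, map_ofNat, hx, hx', hf] at h'
  have e := Ring.mul_inverse_cancel _ u
  have w : ∀ a b, M.wd a b = a * M.cj b - M.cj a * b := fun _ _ => rfl
  constructor
  · refine O_unit u ?_
    convert sub_mem (Ideal.mul_mem_left _ (M.cj M.q) h) (Ideal.mul_mem_left _ M.q h') using 1
    rw [sx]
    linear_combination -(M.wd r M.q * f) * e + x * w M.l M.q - f * w r M.q
  · refine O_unit u (O_of_smul two_ne_zero ?_)
    convert sub_mem (Ideal.mul_mem_left _ (M.cj M.l) h) (Ideal.mul_mem_left _ M.l h') using 1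
    rw [sx', mul_sub, smul_sub, smul_mul_assoc, mul_smul_comm, smul_smul, mul_inv_cancel₀ two_ne_zero,
      one_smul, ← two_smul']
    linear_combination -(M.wd r M.l * f) * e + 2 * x' * w M.l M.q - f * w r M.l

theorem I_y (F : FA) : F.I F.y = (2⁻¹ : ℂ) • F.y ^ 2 := by
  simpa [one_add_one_eq_two] using I_ypow (F := F) 1

theorem T_y (F : FA) : F.T F.y = 0 := by simpa using T_ypow (F := F) 1

theorem O_y2 (F : FA) : F.y ^ 2 ∈ F.O 2 := by simpa using O_ypow (F := F) 2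

theorem Uq_exp (hT : TayS) (M : Mdl) : M.Uq - (M.q + M.X M.e * M.y) ∈ M.O 2 := by
  have h := add_mem (O_T' (hT M) (show 2 ≤ _ by norm_num))
    (Ideal.mul_mem_left _ (M.X M.f3) (O_I' (n := 2) O_y (by norm_num)))
  rw [map_sub, map_add, T_of_S M.Se.1, M.Sf3.T, T_y] at h
  convert h using 1
  rw [Uq]; ring

theorem Ua_exp (hT : TayS) (M : Mdl) :
    M.Ua - (M.l * M.y + M.m2 * ((2⁻¹ : ℂ) • M.y ^ 2)) ∈ M.O (5 / 2) := by
  have h := sub_mem (add_mem (O_T' (O_T (hT M)) (show 5 / 2 ≤ _ by norm_num))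
    (O_T' (Ideal.mul_mem_left _ (M.X M.f3) (O_I O_y)) (show 5 / 2 ≤ _ by norm_num)))
    (Ideal.mul_mem_left _ M.k (O_I' (hT M) (show 5 / 2 ≤ _ by norm_num)))
  rw [map_sub, map_add, T_of_S M.Se.1, M.Sf3.T, T_y, mul_zero, add_zero, map_sub, map_add,
    M.Se.X.T, T_y, map_sub, map_add, I_of_S M.Se.1, M.Sf3.I] at h
  convert h using 1
  rw [Ua, l, m2, I_y]; ring

theorem Ua_one (M : Mdl) : M.Ua ∈ M.O 1 :=
  sub_mem (add_mem (Ideal.mul_mem_right _ _ O_y) (O_T1 _)) (Ideal.mul_mem_left _ _ (O_I1 _))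

theorem LU_O {a : M.R} (h : a ∈ M.O n) : M.LU a ∈ M.O (n + 1) :=
  add_mem (sub_mem (Ideal.mul_mem_left _ _ (sub_mem (O_T' (O_T h) (by linarith))
    (Ideal.mul_mem_left _ _ (O_I h)))) (Ideal.mul_mem_left _ _ (O_T h)))
    (O_mul' (Ua_one M) h (by linarith))

theorem LU_A0 (hH : HarS) (hm : 3 / 2 ≤ m) (h : M.A0 ∈ M.O (m - 1)) :
    M.LU M.A0 ∈ M.O (m + 3 / 2) := by
  obtain ⟨a, h0, -, -, h1⟩ := hH M 1 m (Or.inl rfl) (O_np (by norm_num) _) hm h
  have := sub_mem (O_le (h1 0 (by norm_num)).2.1 (show m + 3 / 2 ≤ _ by simp))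
    (O_le (LU_O h0) (by linarith))
  convert this using 1
  simp only [LU, map_sub]; ring

/-- The first harmonic up to the second order. -/
theorem main (hT : TayS) (hH : HarS) (hm : 3 / 2 ≤ m) (h : M.A0 ∈ M.O (m - 1)) :
    M.l * (M.y * M.A0) - 2 * M.q * M.T M.A0 - M.k * M.e * M.f + (M.e * M.T (M.T M.A0)
      - M.k * M.f3 * (M.y * M.f) - 2 * M.X M.e * (M.y * M.T M.A0)
      + M.m2 * ((2⁻¹ : ℂ) • M.y ^ 2) * M.A0) ∈ M.O (m + 3 / 2) := by
  have t1 : M.T M.A0 ∈ M.O m := O_T' h (by linarith)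
  have t2 : M.T (M.T M.A0) - M.k * M.I M.A0 ∈ M.O m :=
    sub_mem (O_T' t1 (by linarith)) (Ideal.mul_mem_left _ _ (M.f_of h))
  have := sub_mem (sub_mem (add_mem (sub_mem (LU_A0 hH hm h) (O_mul' (hT M) t2 (by linarith)))
    (Ideal.mul_mem_left _ 2 (O_mul' (Uq_exp hT M) t1 (by linarith))))
    (O_mul' (Ua_exp hT M) h (by linarith)))
    (Ideal.mul_mem_left _ M.f3 (O_le (O_ymul (O_T t1)) (by linarith)))
  convert this using 1
  rw [LU, f]; ring

theorem cj_yA (M : Mdl) : M.cj (M.y * M.A0) = M.y * M.A0 := by rw [map_mul, cj_y, cj_A0]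

theorem cj_TA (M : Mdl) : M.cj (M.T M.A0) = M.T M.A0 := by rw [cj_T, cj_A0]

theorem b1 (hT : TayS) (hH : HarS) : B1S := by
  intro M u m hm h
  have t1 : M.T M.A0 ∈ M.O m := O_T' h (by linarith)
  have k := sub_mem (O_le (main hT hH hm h) (show m + 1 ≤ _ by linarith))
    (add_mem (sub_mem (sub_mem (Ideal.mul_mem_left _ M.e (O_T t1))
      (Ideal.mul_mem_left _ (M.k * M.f3) (O_ymul (M.f_of h))))
      (Ideal.mul_mem_left _ (2 * M.X M.e) (O_ymul t1)))
      (O_mul' (Ideal.mul_mem_left _ M.m2 (O_smul (2⁻¹ : ℂ) (O_y2 _))) h (by linarith)))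
  rw [add_sub_cancel_right] at k
  simpa only [zero_mul, add_zero, mu, ga] using solve u (cj_yA M) (cj_TA M) M.cj_f k

theorem b2 (hT : TayS) (hH : HarS) : B2S := by
  intro M N u hN e m hm h
  obtain ⟨x1, x2⟩ := b1 hT hH M u m hm h
  rw [zero_mul, add_zero] at x1 x2
  have n1 : (N + 1 : ℂ) ≠ 0 := by exact_mod_cast (show N + 1 ≠ 0 by linarith)
  have i1 : M.I M.f - (N + 1 : ℂ)⁻¹ • (M.y * M.f) ∈ M.O (m + 2) := by
    refine O_of_smul n1 ?_
    have := neg_mem (O_I' x1 (show m + 2 ≤ _ by linarith))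
    rw [map_sub, I_ymul, M.Smu.I, e, ← Algebra.smul_def, ← f] at this
    convert this using 1
    rw [smul_sub, smul_smul, mul_inv_cancel₀ n1]
    module
  have i2 : M.T (M.T M.A0) - (M.X M.ga + M.ga ^ 2) * M.I M.f ∈ M.O (m + 2) := by
    have := add_mem (O_T' x2 (show m + 2 ≤ _ by linarith))
      (Ideal.mul_mem_left _ M.ga (O_I' x2 (show m + 2 ≤ _ by linarith)))
    rw [map_sub, map_sub, M.Sga.T, M.Sga.I, f, T_I] at this
    convert this using 1
    rw [f]; ring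
  have k := sub_mem (main hT hH hm h) (O_le (add_mem (sub_mem (add_mem
    (Ideal.mul_mem_left _ M.e i2) (Ideal.mul_mem_left _ (M.e * (M.X M.ga + M.ga ^ 2)) i1))
    (Ideal.mul_mem_left _ (2 * M.X M.e) (O_le (O_ymul x2) (by linarith))))
    (Ideal.mul_mem_left _ M.m2 (O_smul (2⁻¹ : ℂ) (O_le (O_ymul x1) (by linarith)))))
    (show m + 3 / 2 ≤ m + 2 by linarith))
  have k' : M.l * (M.y * M.A0) - 2 * M.q * M.T M.A0 - (M.k * M.e + M.rr N * M.y) * M.f
      ∈ M.O (m + 3 / 2) := by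
    convert k using 1
    rw [rr, e]
    simp only [Algebra.smul_def, div_eq_mul_inv, map_mul]
    ring
  have s := solve u (cj_yA M) (cj_TA M) M.cj_f k'
  have s1 : M.sx (M.k * M.e + M.rr N * M.y) = M.mu + M.sx (M.rr N) * M.y := by
    simp only [mu, sx, wd, map_add, map_mul, cj_y]; ring
  have s2 : M.sx' (M.k * M.e + M.rr N * M.y) = M.ga + M.sx' (M.rr N) * M.y := by
    simp only [ga, sx', wd, map_add, map_mul, cj_y, Algebra.smul_def]; ring
  rwa [s1, s2] at s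

end XB12

theorem rowB12 : OfB12 := fun hT hH => ⟨XB12.b1 hT hH, XB12.b2 hT hH⟩

end Pool.Agent.MP_ed9623_an.R10
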