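import Pool.Agent.MP_ed9623_an.R10.Base4

/-! The first harmonic on a straight arc: the real part and the first imaginary part. -/

namespace Pool.Agent.MP_ed9623_an.R10

open FA

namespace XB3a

variable {M : Mdl} {m : ℝ}

theorem T_y (F : FA) : F.T F.y = 0 := by simpa using T_ypow (F := F) 1

theorem Ua_O (M : Mdl) : M.Ua ∈ M.O 1 :=
  sub_mem (add_mem (Ideal.mul_mem_right _ _ O_y) (O_T1 _)) (Ideal.mul_mem_left _ _ (O_I1 _))

theorem LU_O {a : M.R} (k : M.k = 0) (h : a ∈ M.O m) : M.LU a ∈ M.O (m + 1) := by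
  rw [Mdl.LU, k, zero_mul, sub_zero]
  exact add_mem (sub_mem (Ideal.mul_mem_left _ _ (O_T' (O_T h) (by linarith)))
    (Ideal.mul_mem_left _ _ (O_T h))) (O_mul' (Ua_O M) h (by linarith))

theorem LU_sub (M : Mdl) (a b : M.R) : M.LU (a - b) = M.LU a - M.LU b := by
  simp only [Mdl.LU, map_sub]; ring

theorem V1 (ht : TayS) (M : Mdl) : M.V - M.e ∈ M.O 1 := by
  have := add_mem (O_le (ht M) (show (1 : ℝ) ≤ _ by norm_num)) (Ideal.mul_mem_left _ M.f3 O_y)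
  rwa [show M.V - (M.e + M.f3 * M.y) + M.f3 * M.y = M.V - M.e by ring] at this

theorem TV (ht : TayS) (M : Mdl) : M.T M.V - M.X M.e * M.y ∈ M.O 2 := by
  have := O_T' (V1 ht M) (show (2 : ℝ) ≤ _ by norm_num)
  rwa [map_sub, T_of_S M.Se.1] at this

theorem TTV (ht : TayS) (s : M.St) : M.T (M.T M.V) ∈ M.O 3 := by
  have := O_T' (TV ht M) (show (3 : ℝ) ≤ _ by norm_num)
  have e : M.X (M.X M.e) = 0 := by rw [s.e, map_smul, map_smul, ← Mdl.u1, s.X_u1, smul_zero]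
  rwa [map_sub, M.Se.X.T, e, T_y, zero_mul, mul_zero, add_zero, sub_zero] at this

theorem LU_A0 (hh : HarS) (s : M.St) (hm : 3 / 2 ≤ m) (h : M.A0 ∈ M.O (m - 1)) :
    M.LU M.A0 ∈ M.O (m + 3 / 2) := by
  obtain ⟨a, a0, -, -, aj⟩ := hh M 1 m (Or.inl rfl) (O_np (by norm_num) _) hm h
  have := sub_mem (O_le (aj 0 (by norm_num)).2.1 (show m + 3 / 2 ≤ _ by norm_num))
    (O_le (LU_O s.k a0) (show m + 3 / 2 ≤ _ by linarith))
  rwa [LU_sub, sub_sub_cancel] at this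

theorem main (ht : TayS) (hh : HarS) (s : M.St) (hm : 3 / 2 ≤ m) (h : M.A0 ∈ M.O (m - 1)) :
    M.e * M.T (M.T M.A0) - 2 * M.q * M.T M.A0 - 2 * M.X M.e * M.y * M.T M.A0
      + M.r0 * M.q * M.y * M.A0 ∈ M.O (m + 3 / 2) := by
  have a := O_mul' (V1 ht M) (O_T (O_T h)) (show m + 3 / 2 ≤ _ by linarith)
  have b := O_mul' (TV ht M) (O_T h) (show m + 3 / 2 ≤ _ by linarith)
  have c := O_mul' (TTV ht s) h (show m + 3 / 2 ≤ _ by linarith)
  have d := sub_mem (add_mem (sub_mem (LU_A0 hh s hm h) a) (Ideal.mul_mem_left _ 2 b)) c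
  have e : M.e * M.T (M.T M.A0) - 2 * M.q * M.T M.A0 - 2 * M.X M.e * M.y * M.T M.A0
      + M.r0 * M.q * M.y * M.A0 = M.LU M.A0 - (M.V - M.e) * M.T (M.T M.A0)
        + 2 * ((M.T M.V - M.X M.e * M.y) * M.T M.A0) - M.T (M.T M.V) * M.A0 := by
    rw [Mdl.LU, Mdl.Uq, Mdl.Ua, s.k, s.X_q]; ring
  rwa [e]

end XB3a

theorem rowB3a : OfB3a := by
  intro ht hh M s m hm h
  have E := XB3a.main ht hh s hm h
  constructor
  · refine O_unit s.2.1 ?_
    have a := sub_mem (sub_mem (Ideal.mul_mem_left _ M.e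
      (O_T' (O_T h) (show m + 1 ≤ _ by linarith)))
      (Ideal.mul_mem_left _ (2 * M.X M.e) (O_le (O_ymul (O_T h)) (show m + 1 ≤ _ by linarith))))
      (O_le E (show m + 1 ≤ _ by linarith))
    have e : M.q * (2 * M.T M.A0 - M.r0 * M.y * M.A0) = M.e * M.T (M.T M.A0)
        - 2 * M.X M.e * (M.y * M.T M.A0) - (M.e * M.T (M.T M.A0) - 2 * M.q * M.T M.A0
          - 2 * M.X M.e * M.y * M.T M.A0 + M.r0 * M.q * M.y * M.A0) := by ring
    rwa [e]
  · have a := sub_mem (Ideal.mul_mem_left _ (M.cj M.q) E) (Ideal.mul_mem_left _ M.q (O_cj E))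
    simp only [map_add, map_sub, map_mul, cj_T, M.cj_A0, cj_y, s.cj_r0, map_ofNat] at a
    have e : M.wd M.e M.q * M.T (M.T M.A0) + -2 * M.wd (M.X M.e) M.q * M.y * M.T M.A0
        + 0 * M.y ^ 2 * M.A0 = M.cj M.q * (M.e * M.T (M.T M.A0) - 2 * M.q * M.T M.A0
          - 2 * M.X M.e * M.y * M.T M.A0 + M.r0 * M.q * M.y * M.A0)
        - M.q * (M.cj M.e * M.T (M.T M.A0) - 2 * M.cj M.q * M.T M.A0
          - 2 * M.cj (M.X M.e) * M.y * M.T M.A0 + M.r0 * M.cj M.q * M.y * M.A0) := by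
      rw [wd, wd]; ring
    rwa [e]

end Pool.Agent.MP_ed9623_an.R10
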