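import Pool.Agent.MP_ed9623_an.R10.Base3

/-! Elementary facts on models and on restrictions. -/

namespace Pool.Agent.MP_ed9623_an.R10

open FA

namespace Mdl

variable (M : Mdl)

theorem Sg : M.S M.g := M.sys.sg
theorem Su : M.S M.u := M.sys.su
theorem Sh : M.S M.h := M.sys.sh
theorem Sk : M.S M.k := M.Sg.X
theorem Sw : M.S M.w := S.one.add (M.Sg.pow 2)
theorem Swi : M.S M.wi := M.Sw.inv
theorem Su1 : M.S M.u1 := M.Su.X
theorem Sq : M.S M.q := M.Sh.X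
theorem Se : M.S M.e := M.Swi.mul ((M.Su.smul _).add ((S.two.mul M.Sg).mul M.Sq))
theorem Sl : M.S M.l := M.Sq.X.sub (M.Sk.mul M.Se)
theorem Sf3 : M.S M.f3 :=
  M.Swi.mul (((M.Sh.smul _).add ((S.two.mul M.Sg).mul M.Se.X)).sub M.Sl)
theorem Sm2 : M.S M.m2 := M.Se.X.X.sub (M.Sk.mul M.Sf3)
theorem Sr0 : M.S M.r0 := M.Sq.X.mul M.Sq.inv
theorem Ssx {r : M.R} (h : M.S r) : M.S (M.sx r) := (h.wd M.Sq).mul (M.Sl.wd M.Sq).inv
theorem Ssx' {r : M.R} (h : M.S r) : M.S (M.sx' r) :=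
  ((h.wd M.Sl).mul (M.Sl.wd M.Sq).inv).smul _
theorem Smu : M.S M.mu := M.Ssx (M.Sk.mul M.Se)
theorem Sga : M.S M.ga := M.Ssx' (M.Sk.mul M.Se)
theorem Srr (N : ℝ) : M.S (M.rr N) :=
  (((M.Sk.mul M.Sf3).add ((S.two.mul M.Se.X).mul M.Sga)).sub (M.Sm2.smul _)).sub
    ((M.Se.mul (M.Sga.X.add (M.Sga.pow 2))).smul _)
theorem Sct : M.S M.ct := (M.Sr0.X.smul _).sub ((M.Sr0.pow 2).smul _)
theorem Srh {a b c : M.R} (h₁ : M.S a) (h₂ : M.S b) (h₃ : M.S c) : M.S (M.rh a b c) :=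
  (((h₁.mul (M.Sr0.pow 2)).smul _).add ((h₂.mul M.Sr0).smul _)).add h₃
theorem w_unit : IsUnit M.w := by simpa [w, M.Sg.1] using M.sys.ul.map M.bv
theorem w_wi : M.w * M.wi = 1 := Ring.mul_inverse_cancel _ M.w_unit
theorem cj_g : M.cj M.g = M.g := M.sys.rg
theorem cj_k : M.cj M.k = M.k := by rw [k, M.cj_X, cj_g]
theorem cj_w : M.cj M.w = M.w := by simp [w, cj_g]
theorem cj_wi : M.cj M.wi = M.wi := by rw [wi, cj_inv, cj_w]
theorem X_u1 : M.X M.u1 = M.k * M.h := M.sys.ch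
theorem X_w : M.X M.w = 2 * M.g * M.k := by simp [w, X_sq, k]
theorem w_e : M.w * M.e = M.c • M.u + 2 * M.g * M.q := by rw [e, ← mul_assoc, w_wi, one_mul]
theorem w_f3 : M.w * M.f3 = M.c • M.h + 2 * M.g * M.X M.e - M.l := by
  rw [f3, ← mul_assoc, w_wi, one_mul]
theorem re_q_unit : IsUnit (M.re M.q) := by
  have := M.sys.uq.map M.bv
  rw [← M.ev_bv, pq] at this
  simp only [map_add, map_mul, bv_T, bv_el, zero_mul, add_zero, map_zero, bv_rez M.Sh.X.1,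
    ev_rez M.Sh.X.2] at this
  exact this
theorem q_ne : M.q ≠ 0 := fun e => unit_ne M.re_q_unit (by rw [e, re_zero])

theorem δ_A0 : M.δ M.A0 = 0 := M.δ_ev _
theorem δ_f : M.δ M.f = 0 := by rw [f, M.δ_I, δ_A0, map_zero]
theorem cj_A0 : M.cj M.A0 = M.A0 := by rw [A0, M.cj_ev, M.sys.rA]
theorem cj_f : M.cj M.f = M.f := by rw [f, M.cj_I, cj_A0]
theorem A0_U : M.A0 ∈ M.U := M.U_ev _ M.sys.uA
theorem f_U : M.f ∈ M.U := M.U_I _ M.A0_U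
theorem A0_O : M.A0 ∈ M.O (1 / 2) := O_ev M.sys.oA
theorem f_O : M.f ∈ M.O (3 / 2) := O_I' M.A0_O (by norm_num)
theorem f_of {m : ℝ} (h : M.A0 ∈ M.O (m - 1)) : M.f ∈ M.O m := O_I' h (by linarith)
theorem ev_IA : M.ev (M.I M.A) = M.f := M.ev_I _
theorem δ_V : M.δ M.V = 0 := δ_am _
theorem δ_Uy : M.δ M.Uy = 0 := by simp [Uy, M.Sh.2, M.δ_I, δ_V]
theorem δ_Uq : M.δ M.Uq = 0 := by simp [Uq, M.Sq.2, δ_T, δ_V]
theorem δ_Ut : M.δ M.Ut = 0 := by simp [Ut, M.Su1.2, M.Sq.2, M.δ_mul, M.δ_I, δ_T, δ_V]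
theorem δ_Ua : M.δ M.Ua = 0 := by simp [Ua, M.Sq.X.2, M.Sk.2, M.δ_mul, M.δ_I, δ_T, δ_V]
theorem cj_Ph : M.cj M.Ph = M.Ph := by rw [Ph, map_sub, M.sys.rW, cj_re]
theorem am_Ph : M.am M.Ph = 0 := by rw [Ph, am_sub, am_rez M.δ_V, V, sub_self]
theorem W_eq : M.W = M.re (M.z * M.V) + M.Ph := by rw [Ph]; ring
theorem py_eq : M.py M.h M.W = M.re (M.z * M.Uy) + M.I M.Ph := by
  rw [py, Ph, Uy, map_sub, I_rez, mul_add, re_add]; ring
theorem pq_eq : M.pq M.h M.W = M.re (M.z * M.Uq) + M.T M.Ph := by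
  rw [pq, Ph, Uq, map_sub, T_rez, mul_add, re_add, q]; ring
theorem pt_eq : M.pt M.u M.h M.W = M.re (M.z * M.Ut) + M.I (M.T M.Ph) := by
  rw [pt, Ph, Ut, map_sub, map_sub, T_rez, I_rez, mul_add, mul_add, re_add, re_add,
    mul_left_comm, re_mul cj_y, q, u1]; ring
theorem pa_eq : M.pa M.g M.h M.W = M.re (M.z * M.Ua) + (M.T (M.T M.Ph) - M.k * M.I M.Ph) := by
  rw [pa, Ph, Ua, map_sub, map_sub, map_sub, T_rez, T_rez, I_rez, mul_sub M.z, mul_add, re_sub,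
    re_add, mul_left_comm, re_mul cj_y, mul_left_comm M.z M.k, re_mul M.cj_k, q, k]; ring
/-- The first equation. -/
theorem eP : M.lap M.g M.W - M.δ (M.I (M.I M.W)) = M.re (M.z * (2 * M.g * M.q + M.c • M.u
    + M.y * (M.c • M.h - M.X M.q))) + M.rp M.u M.h M.A M.W := by
  have r2 : M.cj (2 * M.g) = 2 * M.g := by rw [map_mul, map_ofNat, cj_g]
  rw [← M.sys.eP, lap, pq, pa, p0, map_add, map_add, M.δ_mul, δ_y, δ_rez M.Su.2, δ_rez M.Sh.2,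
    mul_add M.z, mul_add M.z, re_add, re_add, mul_left_comm M.z M.y, re_mul cj_y, mul_sub M.z,
    re_sub, mul_left_comm M.z, re_mul r2, q]
  ring
theorem δ_r1 : M.δ M.r1 = 0 := M.δ_ev _

variable {M}

theorem St.k (h : M.St) : M.k = 0 := by rw [Mdl.k, h.1, map_zero]
theorem St.w (h : M.St) : M.w = 1 := by simp [Mdl.w, h.1]
theorem St.wi (h : M.St) : M.wi = 1 := by rw [Mdl.wi, h.w, Ring.inverse_one]
theorem St.e (h : M.St) : M.e = M.c • M.u := by simp [Mdl.e, h.wi, h.1]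
theorem St.l (h : M.St) : M.l = M.X M.q := by simp [Mdl.l, h.k]
theorem St.f3 (h : M.St) : M.f3 = M.c • M.h - M.X M.q := by simp [Mdl.f3, h.wi, h.1, h.l]
theorem St.X_u1 (h : M.St) : M.X M.u1 = 0 := by rw [M.X_u1, h.k, zero_mul]
theorem St.m2 (h : M.St) : M.m2 = 0 := by
  rw [Mdl.m2, h.k, h.e, map_smul, map_smul, ← Mdl.u1, h.X_u1]; simp
theorem X_q (u : IsUnit M.q) : M.X M.q = M.r0 * M.q := by
  rw [r0, mul_assoc, Ring.inverse_mul_cancel _ u, mul_one]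
theorem St.X_q (h : M.St) : M.X M.q = M.r0 * M.q := Mdl.X_q h.2.1
theorem St.r0_unit (h : M.St) : IsUnit M.r0 := isUnit_of_mul_isUnit_left (h.X_q ▸ h.2.2.1)
theorem St.n_unit (h : M.St) : IsUnit (M.q * M.cj M.q) := h.2.1.mul (h.2.1.map M.cj)
theorem St.cj_r0 (h : M.St) : M.cj M.r0 = M.r0 := by
  have e := h.2.2.2
  rw [h.X_q, wd, map_mul] at e
  exact h.n_unit.mul_right_cancel (by linear_combination -e)
theorem St.lap (h : M.St) (a : M.R) : M.lap M.g a = a + M.T (M.T a) := by simp [FA.lap, h.1]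

/-! ### Restrictions -/

namespace Hom

variable {M' : Mdl} {φ : M.R →ₐ[ℂ] M'.R} (H : Hom M M' φ)
include H

theorem y : φ M.y = M'.y := by rw [FA.y, H.I, map_one]; rfl
theorem el : φ M.el = M'.el := by rw [FA.el, H.I, H.la]; rfl
theorem T (a : M.R) : φ (M.T a) = M'.T (φ a) := by simp [T_apply, H.X, H.I, H.el]
theorem O {m : ℝ} {a : M.R} (h : a ∈ M.O m) : φ a ∈ M'.O m := fun k => by
  rw [← (Function.Semiconj.iterate_right H.X k).eq]; exact H.Z _ _ (h k)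
theorem Fl {a : M.R} (h : M.Fl a) : M'.Fl (φ a) := fun m => H.O (h m)
theorem S {a : M.R} (h : M.S a) : M'.S (φ a) :=
  ⟨by rw [← H.bv, h.1], by rw [← H.δ, h.2, map_zero]⟩
theorem Dy {a a' : M.R} (h : M.Dy a a') : M'.Dy (φ a) (φ a') := by
  unfold FA.Dy at *; rw [← H.bv, ← H.I, ← map_add, ← h]
omit H in
theorem inv {a : M.R} (u : IsUnit a) : φ (Ring.inverse a) = Ring.inverse (φ a) :=
  (Ring.eq_mul_inverse_iff_mul_eq _ 1 _ (u.map φ)).2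
    (by rw [← map_mul, Ring.inverse_mul_cancel a u, map_one]) |>.trans (one_mul _)
theorem wd (a b : M.R) : φ (M.wd a b) = M'.wd (φ a) (φ b) := by simp [FA.wd, H.cj]
theorem sy (a b : M.R) : φ (M.sy a b) = M'.sy (φ a) (φ b) := by simp [FA.sy, H.cj]
theorem re (a : M.R) : φ (M.re a) = M'.re (φ a) := by simp [FA.re, H.cj]
theorem am (a : M.R) : φ (M.am a) = M'.am (φ a) := by simp [am_eq, H.ev, H.δ, H.c]
theorem k : φ M.k = M'.k := by rw [Mdl.k, H.X, H.g]; rfl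
theorem w : φ M.w = M'.w := by simp [Mdl.w, H.g]
theorem wi : φ M.wi = M'.wi := by rw [Mdl.wi, inv M.w_unit, H.w]; rfl
theorem u1 : φ M.u1 = M'.u1 := by rw [Mdl.u1, H.X, H.u]; rfl
theorem q : φ M.q = M'.q := by rw [Mdl.q, H.X, H.h]; rfl
theorem e : φ M.e = M'.e := by simp [Mdl.e, H.wi, H.u, H.g, H.q, H.c, map_ofNat]
theorem l : φ M.l = M'.l := by simp [Mdl.l, H.X, H.q, H.k, H.e]
theorem f3 : φ M.f3 = M'.f3 := by simp [Mdl.f3, H.wi, H.h, H.g, H.X, H.e, H.l, H.c, map_ofNat]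
theorem m2 : φ M.m2 = M'.m2 := by simp [Mdl.m2, H.X, H.e, H.k, H.f3]
theorem A0 : φ M.A0 = M'.A0 := by rw [Mdl.A0, H.ev, H.A]; rfl
theorem f : φ M.f = M'.f := by rw [Mdl.f, H.I, H.A0]; rfl
theorem V : φ M.V = M'.V := by rw [Mdl.V, H.am, H.W]; rfl
theorem Ph : φ M.Ph = M'.Ph := by simp [Mdl.Ph, H.W, H.re, H.z, H.V]
theorem Uq : φ M.Uq = M'.Uq := by simp [Mdl.Uq, H.q, H.T, H.V]
theorem Ua : φ M.Ua = M'.Ua := by simp [Mdl.Ua, H.q, H.T, H.V, H.y, H.X, H.k, H.I]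
theorem rs : φ M.rs = M'.rs := by simp [Mdl.rs, res, H.Ua, H.Uq, H.V, H.cj, map_ofNat]
theorem r1 : φ M.r1 = M'.r1 := by
  simp [Mdl.r1, rho, pa, pq, H.ev, H.δ, H.y, H.re, H.z, H.X, H.h, H.T, H.W, H.g, H.I, H.el, map_ofNat]
theorem r0 (u : IsUnit M.q) : φ M.r0 = M'.r0 := by simp [Mdl.r0, inv u, H.X, H.q]
theorem sx (u : IsUnit (M.wd M.l M.q)) (r : M.R) : φ (M.sx r) = M'.sx (φ r) := by
  simp [Mdl.sx, inv u, H.wd, H.l, H.q]
theorem sx' (u : IsUnit (M.wd M.l M.q)) (r : M.R) : φ (M.sx' r) = M'.sx' (φ r) := by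
  simp [Mdl.sx', inv u, H.wd, H.l, H.q]
theorem mu (u : IsUnit (M.wd M.l M.q)) : φ M.mu = M'.mu := by simp [Mdl.mu, H.sx u, H.k, H.e]
theorem ga (u : IsUnit (M.wd M.l M.q)) : φ M.ga = M'.ga := by simp [Mdl.ga, H.sx' u, H.k, H.e]
theorem rr (u : IsUnit (M.wd M.l M.q)) (N : ℝ) : φ (M.rr N) = M'.rr N := by
  simp [Mdl.rr, H.ga u, H.k, H.e, H.f3, H.m2, H.X, map_ofNat]
theorem ct (u : IsUnit M.q) : φ M.ct = M'.ct := by simp [Mdl.ct, H.X, H.r0 u]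
theorem rh2 (u : IsUnit M.q) : φ M.rh2 = M'.rh2 := by
  simp [Mdl.rh2, rh, H.r0 u, H.wd, H.e, H.q, H.X, map_ofNat]
theorem rh3 (u : IsUnit M.q) : φ M.rh3 = M'.rh3 := by
  simp [Mdl.rh3, rh, H.r0 u, H.sy, H.h, H.q, H.cj, map_ofNat]
theorem n2 (u : IsUnit M.q) (v : IsUnit M.rh2) : φ M.n2 = M'.n2 := by
  simp [Mdl.n2, inv v, H.rh2 u, H.ct u, H.wd, H.e, H.q]
theorem n3 (u : IsUnit M.q) (v : IsUnit M.rh3) : φ M.n3 = M'.n3 := by
  simp [Mdl.n3, inv v, H.rh3 u, H.ct u, H.sy, H.h, H.q]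
theorem St (h : M.St) : M'.St :=
  ⟨by rw [← H.g, h.1, map_zero], H.q ▸ h.2.1.map φ, by simpa [H.X, H.q] using h.2.2.1.map φ,
    by simpa [H.wd, H.X, H.q] using congrArg φ h.2.2.2⟩

end Hom

variable {P Q : Mdl → Prop}

/-- Adding a property which is stable under restriction. -/
theorem Site.and (h : Site P) (hQ : ∀ M M' φ, P M → P M' → Hom M M' φ → Q M → Q M') :
    Site fun M => P M ∧ Q M := fun M p a d b =>
  let ⟨M', φ, H, p', u⟩ := h M p.1 a d b; ⟨M', φ, H, ⟨p', hQ M M' φ p.1 p' H p.2⟩, u⟩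

/-- A function on the arc vanishes, or is invertible on a smaller box. -/
theorem Site.dich (h : Site P) (p : P M) {a : M.R} (s : M.S a) :
    a = 0 ∨ ∃ (M' : Mdl) (φ : M.R →ₐ[ℂ] M'.R), Hom M M' φ ∧ P M' ∧ IsUnit (φ a) :=
  (em (a = 0)).imp_right fun e => h M p a s.2 (by rwa [s.1])

end Mdl

/-- Symbols are natural. -/
theorem DJ.map_st {S S' : Type} [CommRing S] [Algebra ℂ S] [CommRing S'] [Algebra ℂ S']
    (φ : S →ₐ[ℂ] S') {J : DJ S} {J' : DJ S'} (hD : ∀ a, φ (J.D a) = J'.D (φ a)) (hg : φ J.g = J'.g)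
    (hk : φ J.k = J'.k) (hw : φ J.w = J'.w) (hi : φ J.wi = J'.wi) (hu : φ J.u1 = J'.u1)
    (hh : φ J.h = J'.h) (hq : φ J.q = J'.q) (he : φ J.e = J'.e) (hl : φ J.l = J'.l)
    (hf : φ J.f3 = J'.f3) (hm : φ J.m2 = J'.m2) (hγ : φ J.γ = J'.γ) (N : ℂ) (p : S × S) :
    φ (J.E0 N p) = J'.E0 N (φ p.1, φ p.2) ∧ φ (J.E1 N p) = J'.E1 N (φ p.1, φ p.2) ∧
      (φ (J.st N p).1, φ (J.st N p).2) = J'.st N (φ p.1, φ p.2) := by
  simp [DJ.E0, DJ.E1, DJ.st, DJ.x0, DJ.x1, DJ.n0, DJ.n1, DJ.o0, DJ.o1, DJ.La, DJ.d, map_ofNat, *]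

end Pool.Agent.MP_ed9623_an.R10
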