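import Pool.Agent.MP_ed9623_an.R10.Spec
import Pool.Agent.MP_ed9623_an.R10.Base4

/-! The first harmonic on a straight arc: the second imaginary part. -/

namespace Pool.Agent.MP_ed9623_an.R10

open FA Mdl

namespace XB3b

variable {M : Mdl} {n : ℝ} {b : M.R}

theorem lead (h : M.St) (o : b ∈ M.O n) :
    M.LU b - M.q * (M.r0 * M.y * b - 2 * M.T b) ∈ M.O (n + 2) := by
  have a1 : M.V * M.T (M.T b) ∈ M.O (n + 2) :=
    Ideal.mul_mem_left _ _ (O_T' (O_T o) (by linarith))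
  have a2 : M.T M.V * M.T b ∈ M.O (n + 2) := O_mul' (O_T1 _) (O_T o) (by linarith)
  have a3 : M.T (M.T M.V) * b ∈ M.O (n + 2) := O_mul' (O_T (O_T1 _)) o (by linarith)
  have := add_mem (sub_mem a1 (Ideal.mul_mem_left _ 2 a2)) a3
  rw [LU, Uq, Ua, h.k, h.X_q]
  convert this using 1
  ring

/-- The conjugate harmonic is negligible. -/
theorem cjLU (h : M.St) (o : b ∈ M.O n) (l : M.LU b ∈ M.O (n + 2)) :
    M.LU (M.cj b) ∈ M.O (n + 2) := by
  have a : M.r0 * M.y * b - 2 * M.T b ∈ M.O (n + 2) :=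
    O_unit h.2.1 (by simpa using sub_mem l (lead h o))
  have a' := O_cj a
  rw [map_sub, map_mul, map_mul, map_mul, h.cj_r0, cj_y, cj_T, map_ofNat] at a'
  simpa using add_mem (lead h (O_cj o)) (Ideal.mul_mem_left _ M.q a')

theorem wdq (h : M.St) (hs : M.sy M.u M.q = 0) {R C : M.R} (hC : C = algebraMap ℂ _ M.c)
    (hV : M.V = M.e + M.f3 * M.y + R) :
    M.wd M.V M.q = C * M.sy M.h M.q * M.y + M.wd R M.q ∧
    M.wd M.Uq M.q = C * (M.q * M.cj M.q) * M.y ^ 2 + M.wd (M.T R) M.q ∧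
    3 * M.wd M.Ua M.q = C * M.r0 * (M.q * M.cj M.q) * M.y ^ 3 + 3 * M.wd (M.T (M.T R)) M.q := by
  have hq := h.X_q
  have hr := h.cj_r0
  have cC : M.cj C = -C := by rw [hC, cj_alg, M.c_im, map_neg]
  have xC : M.X C = 0 := by rw [hC, X_alg]
  have he : M.e = C * M.u := by rw [h.e, hC, Algebra.smul_def]
  have hf : M.f3 = C * M.h - M.r0 * M.q := by rw [h.f3, hC, Algebra.smul_def, hq]
  have xh : M.X M.h = M.q := rfl
  have xe : M.X M.e = C * M.u1 := by rw [he, M.X_mul, xC, u1]; ring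
  have xxe : M.X (M.X M.e) = 0 := by rw [xe, M.X_mul, xC, h.X_u1]; ring
  obtain ⟨p, hp, xf⟩ : ∃ p, M.cj p = p ∧ M.X M.f3 = C * M.q - p * M.q :=
    ⟨M.X M.r0 + M.r0 * M.r0, by rw [map_add, map_mul, M.cj_X, hr], by
      rw [hf, map_sub, M.X_mul, M.X_mul, xC, xh, hq]; ring⟩
  obtain ⟨p', hp', xxf⟩ : ∃ p', M.cj p' = p' ∧
      M.X (M.X M.f3) = C * (M.r0 * M.q) - p' * M.q :=
    ⟨M.X p + p * M.r0, by rw [map_add, map_mul, M.cj_X, hr, hp], by
      rw [xf, map_sub, M.X_mul, M.X_mul, xC, hq]; ring⟩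
  have s1 : M.sy M.u1 M.q = 0 := by
    have := congrArg M.X hs
    rw [X_sy, hq, map_zero] at this
    simp only [sy, map_mul, hr] at this hs ⊢
    rw [u1]
    linear_combination this - M.r0 * hs
  have ty : M.T M.y = 0 := by simpa using T_ypow (F := M.toFA) 1
  have y2 : 2 * M.I M.y = M.y ^ 2 := by
    have := M.I_mul 1 1
    rw [one_mul, ← two_mul, two_smul', map_smul, ← two_smul'] at this
    rw [sq]
    exact this.symm
  have y3 : 6 * M.I (M.I M.y) = M.y ^ 3 := by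
    have a := I_ymul (F := M.toFA) M.y
    have e : M.I (M.y * M.y) = 2 * M.I (M.I M.y) := by
      rw [← sq, ← y2, two_smul', map_smul, ← two_smul']
    linear_combination 2 * a - 2 * e + M.y * y2
  have t1 : M.T M.V = C * M.u1 * M.y + (C * M.q - p * M.q) * M.I M.y + M.T R := by
    rw [hV, map_add, map_add, T_of_S M.Se.1, M.Sf3.T, ty, xe, xf]; ring
  have t2 : M.T (M.T M.V) = (C * (M.r0 * M.q) - p' * M.q) * M.I (M.I M.y) + M.T (M.T R) := by
    rw [t1, ← xe, ← xf, map_add, map_add, M.Se.X.T, M.Sf3.X.T, T_I, ty, xxe, xxf, map_zero]; ring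
  have c1 : M.cj (M.I M.y) = M.I M.y := by rw [M.cj_I, cj_y]
  have c2 : M.cj (M.I (M.I M.y)) = M.I (M.I M.y) := by rw [M.cj_I, c1]
  refine ⟨?_, ?_, ?_⟩
  · rw [hV, he, hf]
    simp only [wd, sy, map_add, map_sub, map_mul, cC, hr, cj_y] at hs ⊢
    linear_combination C * hs
  · rw [Uq, t1, ← y2]
    simp only [wd, sy, map_add, map_sub, map_mul, cC, hp, cj_y, c1] at s1 ⊢
    linear_combination C * M.y * s1
  · rw [Ua, t2, h.k, hq, ← y3]
    simp only [wd, map_add, map_sub, map_mul, cC, hp', hr, cj_y, c2, map_zero]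
    ring

theorem O_wd (o : b ∈ M.O n) (a : M.R) : M.wd b a ∈ M.O n :=
  sub_mem (Ideal.mul_mem_right _ _ o) (Ideal.mul_mem_right _ _ (O_cj o))

end XB3b

open XB3b in
theorem rowB3b : OfB3b := by
  intro hT hH h3 M h hs m hm hA
  refine ⟨(h3 M h m hm hA).1, ?_⟩
  obtain ⟨a, a0, ar, ak, aj⟩ := hH M 1 m (Or.inl rfl) (O_np (by norm_num) _) hm hA
  have o2 : a 2 ∈ M.O (m + 1) := O_le (aj 2 (by norm_num)).1 (by push_cast; linarith)
  have o0 : a 0 ∈ M.O (m - 1) := O_le (aj 0 (by norm_num)).1 (by push_cast; linarith)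
  have l2 := cjLU h o2 (O_le (aj 2 (by norm_num)).2.1 (by push_cast; linarith))
  have l0 : M.LU (a 0) ∈ M.O (m + 5 / 2) := by
    simpa using sub_mem (ak h.k) (O_le (O_cj l2) (by linarith))
  have oR := hT M
  obtain ⟨w1, w2, w3⟩ := wdq h hs (R := M.V - (M.e + M.f3 * M.y)) rfl (by ring)
  set R := M.V - (M.e + M.f3 * M.y)
  set C : M.R := algebraMap ℂ _ M.c with hC
  have e : M.wd (M.LU (a 0)) M.q = M.wd M.V M.q * M.T (M.T (a 0))
      - 2 * M.wd M.Uq M.q * M.T (a 0) + M.wd M.Ua M.q * a 0 := by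
    simp only [LU, h.k, wd, map_add, map_sub, map_mul, cj_T, ar, map_ofNat, map_zero]
    ring
  have r1 : M.wd R M.q * M.T (M.T (a 0)) ∈ M.O (m + 5 / 2) :=
    O_mul' (O_wd oR _) (O_T (O_T o0)) (by linarith)
  have r2 : M.wd (M.T R) M.q * M.T (a 0) ∈ M.O (m + 5 / 2) :=
    O_mul' (O_wd (O_T oR) _) (O_T o0) (by linarith)
  have r3 : M.wd (M.T (M.T R)) M.q * a 0 ∈ M.O (m + 5 / 2) :=
    O_mul' (O_wd (O_T (O_T oR)) _) o0 (by linarith)
  have k : M.y * (C * (3 * M.sy M.h M.q * M.T (M.T (a 0)) - 6 * (M.q * M.cj M.q) * M.y * M.T (a 0)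
      + M.r0 * (M.q * M.cj M.q) * M.y ^ 2 * a 0)) ∈ M.O (m + 5 / 2) := by
    have := Ideal.mul_mem_left _ 3 (sub_mem (add_mem (sub_mem (O_wd l0 M.q) r1)
      (Ideal.mul_mem_left _ 2 r2)) r3)
    convert this using 1
    rw [e, w1, w2]
    linear_combination -(a 0) * w3
  have uC : IsUnit C := (isUnit_iff_ne_zero.2 M.c_ne).map _
  have k' := O_unit uC (O_div' (m := m + 3 / 2) k (by linarith))
  have d1 : M.T (M.T (a 0 - M.A0)) ∈ M.O (m + 3 / 2) := O_T' (O_T a0) (by linarith)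
  have d2 : M.y * M.T (a 0 - M.A0) ∈ M.O (m + 3 / 2) := O_mul' O_y (O_T a0) (by linarith)
  have d3 : M.y ^ 2 * (a 0 - M.A0) ∈ M.O (m + 3 / 2) :=
    O_mul' (O_ypow 2) a0 (by push_cast; linarith)
  refine O_of_smul (s := 3) (by norm_num) ?_
  have := sub_mem k' (add_mem (sub_mem (Ideal.mul_mem_left _ (3 * M.sy M.h M.q) d1)
    (Ideal.mul_mem_left _ (6 * (M.q * M.cj M.q)) d2))
    (Ideal.mul_mem_left _ (M.r0 * (M.q * M.cj M.q)) d3))
  convert this using 1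
  have t : (algebraMap ℂ M.R 3) * algebraMap ℂ M.R 3⁻¹ = 1 := by
    rw [← map_mul]; simp
  simp only [map_sub, Algebra.smul_def, map_ofNat] at t ⊢
  linear_combination (M.r0 * (M.q * M.cj M.q) * M.y ^ 2 * M.A0) * t

end Pool.Agent.MP_ed9623_an.R10
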