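import Pool.Agent.MP_ed9623_an.R10.CDefs
import Pool.Agent.MP_ed9623_an.R10.Base4

/-! The alternatives along the arc from the tree of the abstract calculus. -/

open Filter Topology Set

namespace Pool.Agent.MP_ed9623_an.R10

open H77 (P Q)
open R77 (J2)
open R1 (Smo Tz)
open Mdl

namespace XCAt

theorem box_in {s : ℝ} {N : Set P} (h : N ∈ 𝓝 ((s, 0) : P)) :
    ∃ b : Box, b.e₀ < 0 ∧ 0 < b.e₁ ∧ s ∈ Ioo b.s₀ b.s₁ ∧ b.B ⊆ N := by
  obtain ⟨ε, e0, he⟩ := Metric.mem_nhds_iff.1 h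
  refine ⟨⟨s - ε, s + ε, -(ε / 2), ε / 2, by linarith, by linarith, by linarith, by linarith⟩,
    by show -(ε / 2) < 0; linarith, by show 0 < ε / 2; linarith,
    ⟨by show s - ε < s; linarith, by show s < s + ε; linarith⟩, fun p hp => he ?_⟩
  obtain ⟨⟨a1, a2⟩, a3, a4⟩ := hp
  simp only at a1 a2 a3 a4
  rw [Metric.mem_ball, Prod.dist_eq, max_lt_iff, Real.dist_eq, Real.dist_eq, abs_lt, abs_lt]
  refine ⟨⟨?_, ?_⟩, ?_, ?_⟩ <;> simp only <;> linarith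

theorem mem0 (b : Box) {s : ℝ} (h : s ∈ Ioo b.s₀ b.s₁) : ((s, 0) : P) ∈ b.B := ⟨h, b.h0, b.h1⟩

/-- The class of two sided boxes over a set. -/
def Cl (U : Set ℝ) (b : Box) : Prop := b.e₀ < 0 ∧ 0 < b.e₁ ∧ Ioo b.s₀ b.s₁ ⊆ U

theorem shr (U : Set ℝ) : Shr (Cl U) := by
  intro b hb s hs N hN
  have h1 : b.B ∈ 𝓝 ((s, 0) : P) :=
    prod_mem_nhds (isOpen_Ioo.mem_nhds hs) (Icc_mem_nhds hb.1 hb.2.1)
  obtain ⟨b', a1, a2, _, a4⟩ := box_in (inter_mem h1 hN)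
  exact ⟨b', ⟨a1, a2, fun t ht => hb.2.2 (a4 (mem0 b' ht)).1.1⟩, a4⟩

theorem start (D : Dat) {x : ℝ} (hx : |x| < D.r) {U : Set ℝ} (hU : U ∈ 𝓝 x) :
    ∃ b : Box, Cl U b ∧ x ∈ Ioo b.s₀ b.s₁ ∧ b.B ⊆ Q D.r := by
  have h1 : Q D.r ∈ 𝓝 ((x, 0) : P) :=
    (H77.isOpen_Q _).mem_nhds (H77.mem_Q.2 ⟨hx, by simpa using D.h.out.r0⟩)
  have h2 : U ×ˢ (univ : Set ℝ) ∈ 𝓝 ((x, 0) : P) := prod_mem_nhds hU univ_mem
  obtain ⟨b, a1, a2, a3, a4⟩ := box_in (inter_mem h1 h2)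
  exact ⟨b, ⟨a1, a2, fun t ht => (a4 (mem0 b ht)).2.1⟩, a3, fun p hp => (a4 hp).1⟩

variable {D : Dat} {b : Box} {M : Mdl} {v : M.R → P → ℂ} {ps aa : ℕ → ℕ → M.R}

theorem v0 (h : Cm D b M v ps aa) {p : P} (hp : p ∈ b.B) : v 0 p = 0 := by
  have := h.rep.add 0 0 p hp
  rw [add_zero] at this
  exact left_eq_add.1 this

theorem d1 (h : Cm D b M v ps aa) {s : ℝ} (hs : s ∈ Ioo b.s₀ b.s₁) :
    HasDerivAt (fun x' => D.Y (x', 0)) (D.l (D.Ψ (s, 0))) s :=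
  D.h.out.cY.d1 (s, 0) (h.sub (mem0 b hs))

theorem d2 (val : ValS) (h : Cm D b M v ps aa) {s : ℝ} (hs : s ∈ Ioo b.s₀ b.s₁) :
    deriv (deriv fun x' => D.Y (x', 0)) s = (v M.k (s, 0)).re := by
  have h1 : HasDerivAt (fun t => v M.g (t, 0)) (v M.k (s, 0)) s := h.rep.X M.g (s, 0) (mem0 b hs)
  have h2 := Complex.reCLM.hasFDerivAt.comp_hasDerivAt s h1
  refine (h2.congr_of_eventuallyEq ?_).deriv
  filter_upwards [isOpen_Ioo.mem_nhds hs] with t ht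
  rw [(d1 h ht).deriv]
  show _ = (v M.g (t, 0)).re
  rw [((val D b M v ps aa h).1 (t, 0) (mem0 b ht)).1, Complex.ofReal_re]

theorem ev2 (val : ValS) (h : Cm D b M v ps aa) {s : ℝ} (hs : s ∈ Ioo b.s₀ b.s₁)
    (hn : deriv (deriv fun x' => D.Y (x', 0)) s ≠ 0) :
    ∀ᶠ t in 𝓝 s, deriv (deriv fun x' => D.Y (x', 0)) t ≠ 0 := by
  obtain ⟨S, a1, a2⟩ := h.rep.gd M.k
  have c1 : ContinuousOn (fun t : ℝ => v M.k (t, 0)) (Ioo b.s₀ b.s₁) :=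
    (a2 _ a1).1.1.comp (Continuous.prodMk_left 0).continuousOn fun t ht => mem0 b ht
  have c2 : ContinuousAt (fun t : ℝ => (v M.k (t, 0)).re) s :=
    Complex.continuous_re.continuousAt.comp (c1.continuousAt (isOpen_Ioo.mem_nhds hs))
  rw [d2 val h hs] at hn
  filter_upwards [c2.eventually_ne hn, isOpen_Ioo.mem_nhds hs] with t a ht
  rwa [d2 val h ht]

theorem k_ne (val : ValS) (h : Cm D b M v ps aa) {s : ℝ} (hs : s ∈ Ioo b.s₀ b.s₁)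
    (hn : deriv (deriv fun x' => D.Y (x', 0)) s ≠ 0) : M.k ≠ 0 := fun e =>
  hn (by rw [d2 val h hs, e, v0 h (mem0 b hs), Complex.zero_re])

theorem g_zero (val : ValS) (h : Cm D b M v ps aa) (hz : ∀ s ∈ Ioo b.s₀ b.s₁, D.Y (s, 0) = 0) :
    M.g = 0 := by
  refine h.rep.ext _ fun j p hp => ?_
  rcases j with _ | j
  · have e : (fun x' => D.Y (x', 0)) =ᶠ[𝓝 p.1] fun _ => 0 :=
      mem_of_superset (isOpen_Ioo.mem_nhds hp.1) fun t ht => hz t ht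
    have := (d1 h hp.1).unique ((hasDerivAt_const p.1 (0 : ℝ)).congr_of_eventuallyEq e)
    rw [Function.iterate_zero_apply, ((val D b M v ps aa h).1 p hp).1, this, Complex.ofReal_zero]
  · rw [Function.iterate_succ_apply, M.Sg.2, Function.iterate_fixed (map_zero _), v0 h hp]

theorem mid (b : Box) : (b.s₀ + b.s₁) / 2 ∈ Ioo b.s₀ b.s₁ := by
  constructor <;> linarith [b.hs]

theorem g_of (h : M.OutQ ∨ M.OutR ∨ M.OutA ∨ M.OutB) : M.g = 0 := by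
  rcases h with h | h | h | h
  exacts [h.1, h.1.1, h.1.1, h.1.1]

end XCAt
open XCAt

theorem rowAt : OfAt := by
  intro mk site val tree smo tz rc n O Z ps al pr t a r ps' al' pr' c ε l m s Y nn hi x hx
  let D : Dat := ⟨n, O, Z, ps, al, pr, t, a, r, ps', al', pr', c, ε, l, m, s, Y, nn, hi⟩
  have key : ∀ U : Set ℝ, U ∈ 𝓝 x → (∀ b M v q aa, Cl U b → x ∈ Ioo b.s₀ b.s₁ →
      Cm D b M v q aa → M.k = 0 → M.g = 0) → ∃ b M v q aa, Cl U b ∧ Cm D b M v q aa ∧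
        (M.Sm ∨ M.OutQ ∨ M.OutR ∨ M.OutA ∨ M.OutB) := by
    intro U hU hk
    obtain ⟨b, b1, b2, b3⟩ := start D hx hU
    obtain ⟨M, v, q, aa, hM⟩ := mk D b b3
    obtain ⟨M', ⟨b', v', q', aa', c1, c2⟩, h⟩ := tree _ (site D _ (shr U)) M ⟨b, v, q, aa, b1, hM⟩
      (hk b M v q aa b1 b2 hM)
    refine ⟨b', M', v', q', aa', c1, c2, ?_⟩
    have := rc D b' M' v' q' aa' c2 c1.1
    tauto
  refine ⟨fun hn h => ?_, fun hz h => ?_⟩
  · obtain ⟨b, _, b2, b3⟩ := start D hx univ_mem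
    obtain ⟨M, v, q, aa, hM⟩ := mk D b b3
    obtain ⟨b', M', v', q', aa', c1, c2, h'⟩ := key _ (h.and (ev2 val hM b2 hn))
      fun b M v q aa _ b2 hM e => (k_ne val hM b2 hn e).elim
    have hs := c1.2.2 (mid b')
    rcases h' with h' | h'
    · exact hs.1 (smo D b' M' v' q' aa' c2 c1.1 c1.2.1 h' _ (mid b'))
    · exact k_ne val c2 (mid b') hs.2 (by rw [Mdl.k, g_of h', map_zero])
  · obtain ⟨b', M', v', q', aa', c1, c2, h'⟩ := key _ (h.and hz)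
      fun b M v q aa b1 _ hM _ => g_zero val hM fun s hs => (b1.2.2 hs).2
    have hs := c1.2.2 (mid b')
    rcases h' with h' | h'
    · have := smo D b' M' v' q' aa' c2 c1.1 c1.2.1 h' _ (mid b')
      have e : D.Y ((b'.s₀ + b'.s₁) / 2, 0) = 0 := hs.2
      rw [e] at this
      exact hs.1 (Or.inl this)
    · exact hs.1 (Or.inr (tz D b' M' v' q' aa' c2 (fun s hs => (c1.2.2 hs).2) h' _ (mid b')))

end Pool.Agent.MP_ed9623_an.R10
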