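import Pool.Agent.MP_ed9623_an.R10.CDefs

/-! The coercive equation: a maximum principle with a shifted weight. -/

open Filter Topology Set
open scoped ComplexConjugate RealInnerProductSpace

namespace Pool.Agent.MP_ed9623_an.R10

open H77 (P Q)

namespace XCCo

/-- The one dimensional estimate, with the shifted weight. -/
lemma shift {a m c K L δ : ℝ} {g F : ℝ → ℂ} (ha : 0 < a) (hm : 0 ≤ m) (hc : 0 < c) (hδ : 0 < δ)
    (hL : 0 ≤ L) (hKL : K ≤ c * L) (hF : ContinuousOn F (Icc 0 a)) (h0 : F 0 = 0)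
    (hd : ∀ t ∈ Ioo 0 a, HasDerivAt F (g t) t)
    (hode : ∀ t ∈ Ioo 0 a, ∃ r β : ℝ, ‖r • g t - β • F t‖ ≤ K * t ^ m ∧ c * t + m * |r| ≤ |β| * t)
    (hend : ‖F a‖ ≤ L * a ^ m) : ∀ t ∈ Icc 0 a, ‖F t‖ ≤ L * (t + δ) ^ m := by
  set v : ℝ → ℝ := fun t => ‖F t‖ ^ 2 * (t + δ) ^ (-(2 * m)) with hv
  have hvc : ContinuousOn v (Icc 0 a) := by
    refine (hF.norm.pow 2).mul ?_
    refine ContinuousOn.rpow_const (by fun_prop) fun t ht => Or.inl ?_
    have := ht.1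
    positivity
  have key : ∀ t, 0 ≤ t → (v t ≤ L ^ 2 ↔ ‖F t‖ ≤ L * (t + δ) ^ m) := by
    intro t ht
    have hp : 0 < t + δ := by linarith
    have hq : 0 < (t + δ) ^ m := Real.rpow_pos_of_pos hp m
    have e : (t + δ) ^ (-(2 * m)) = (((t + δ) ^ m) ^ 2)⁻¹ := by
      rw [Real.rpow_neg hp.le, mul_comm 2 m, Real.rpow_mul hp.le]
      norm_cast
    simp only [hv, e]
    rw [← div_eq_mul_inv, div_le_iff₀ (by positivity), ← mul_pow]
    exact pow_le_pow_iff_left₀ (norm_nonneg _) (by positivity) two_ne_zero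
  obtain ⟨x, hx, hmax⟩ := isCompact_Icc.exists_isMaxOn (nonempty_Icc.2 ha.le) hvc
  suffices hb : v x ≤ L ^ 2 by
    intro t ht
    exact (key t ht.1).1 ((hmax ht).trans hb)
  rw [key x hx.1]
  have hxp : 0 < x + δ := by linarith [hx.1]
  have hq : 0 < (x + δ) ^ m := Real.rpow_pos_of_pos hxp m
  rcases hx.1.eq_or_lt with h | h
  · rw [← h, h0, norm_zero]
    positivity
  have hmono : x ^ m ≤ (x + δ) ^ m := Real.rpow_le_rpow h.le (by linarith) hm
  rcases hx.2.eq_or_lt with h' | h'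
  · rw [h'] at hmono ⊢
    exact hend.trans (mul_le_mul_of_nonneg_left hmono hL)
  have hxo : x ∈ Ioo 0 a := ⟨h, h'⟩
  have hloc : IsLocalMax v x := hmax.isLocalMax (Icc_mem_nhds h h')
  have d1 := (hd x hxo).norm_sq
  have d2 : HasDerivAt (fun t : ℝ => (t + δ) ^ (-(2 * m)))
      (1 * (-(2 * m)) * (x + δ) ^ (-(2 * m) - 1)) x :=
    ((hasDerivAt_id x).add_const δ).rpow_const (Or.inl hxp.ne')
  have d3 := hloc.hasDerivAt_eq_zero (d1.mul d2)
  have hw : 0 < (x + δ) ^ (-(2 * m) - 1) := Real.rpow_pos_of_pos hxp _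
  have e1 : (x + δ) ^ (-(2 * m)) = (x + δ) ^ (-(2 * m) - 1) * (x + δ) := by
    rw [Real.rpow_sub_one hxp.ne']
    field_simp
  rw [e1] at d3
  have e2 : ⟪F x, g x⟫ * (x + δ) = m * ‖F x‖ ^ 2 := by
    have : (x + δ) ^ (-(2 * m) - 1) * (2 * (⟪F x, g x⟫ * (x + δ) - m * ‖F x‖ ^ 2)) = 0 := by
      linear_combination d3
    rcases mul_eq_zero.1 this with h1 | h1
    · exact absurd h1 hw.ne'
    · linarith
  obtain ⟨r, β, h1, h2⟩ := hode x hxo
  have e3 : ⟪F x, r • g x - β • F x⟫ = r * ⟪F x, g x⟫ - β * ‖F x‖ ^ 2 := by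
    rw [inner_sub_right, real_inner_smul_right, real_inner_smul_right, real_inner_self_eq_norm_sq]
  have h3 : |⟪F x, r • g x - β • F x⟫| ≤ ‖F x‖ * (K * x ^ m) :=
    (abs_real_inner_le_norm _ _).trans (mul_le_mul_of_nonneg_left h1 (norm_nonneg _))
  have hi : |⟪F x, g x⟫| * x ≤ m * ‖F x‖ ^ 2 := by
    have : |⟪F x, g x⟫| * (x + δ) = m * ‖F x‖ ^ 2 := by
      rw [← abs_of_pos hxp, ← abs_mul, e2, abs_of_nonneg (by positivity)]
    nlinarith [abs_nonneg ⟪F x, g x⟫]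
  have h4 : |β| * ‖F x‖ ^ 2 ≤ |r| * |⟪F x, g x⟫| + ‖F x‖ * (K * x ^ m) := by
    have : β * ‖F x‖ ^ 2 = r * ⟪F x, g x⟫ - ⟪F x, r • g x - β • F x⟫ := by rw [e3]; ring
    have h5 : |β * ‖F x‖ ^ 2| ≤ |r * ⟪F x, g x⟫| + |⟪F x, r • g x - β • F x⟫| := by
      rw [this]; exact abs_sub _ _
    rw [abs_mul, abs_mul, abs_of_nonneg (sq_nonneg ‖F x‖)] at h5
    linarith
  have h6 : c * ‖F x‖ ^ 2 ≤ ‖F x‖ * (K * x ^ m) := by
    have h7 : (c * ‖F x‖ ^ 2) * x ≤ (‖F x‖ * (K * x ^ m)) * x := by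
      have a1 := mul_le_mul_of_nonneg_right h2 (sq_nonneg ‖F x‖)
      have a2 := mul_le_mul_of_nonneg_right h4 h.le
      have a3 := mul_le_mul_of_nonneg_left hi (abs_nonneg r)
      nlinarith
    exact le_of_mul_le_mul_right h7 h
  rcases (norm_nonneg (F x)).eq_or_lt with hz | hz
  · rw [← hz]
    positivity
  have h8 : c * ‖F x‖ ≤ K * x ^ m := by
    have : ‖F x‖ * (c * ‖F x‖) ≤ ‖F x‖ * (K * x ^ m) := by nlinarith
    exact le_of_mul_le_mul_left this hz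
  have hxm : 0 ≤ x ^ m := Real.rpow_nonneg h.le m
  have h9 : c * ‖F x‖ ≤ c * (L * (x + δ) ^ m) := by
    calc c * ‖F x‖ ≤ K * x ^ m := h8
      _ ≤ (c * L) * x ^ m := mul_le_mul_of_nonneg_right hKL hxm
      _ ≤ (c * L) * (x + δ) ^ m := mul_le_mul_of_nonneg_left hmono (by positivity)
      _ = c * (L * (x + δ) ^ m) := by ring
  exact le_of_mul_le_mul_left h9 hc

/-- The one dimensional estimate. -/
lemma one {a m c K L : ℝ} {g F : ℝ → ℂ} (ha : 0 < a) (hm : 0 ≤ m) (hc : 0 < c)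
    (hL : 0 ≤ L) (hKL : K ≤ c * L) (hF : ContinuousOn F (Icc 0 a)) (h0 : F 0 = 0)
    (hd : ∀ t ∈ Ioo 0 a, HasDerivAt F (g t) t)
    (hode : ∀ t ∈ Ioo 0 a, ∃ r β : ℝ, ‖r • g t - β • F t‖ ≤ K * t ^ m ∧ c * t + m * |r| ≤ |β| * t)
    (hend : ‖F a‖ ≤ L * a ^ m) : ∀ t ∈ Icc 0 a, ‖F t‖ ≤ L * t ^ m := by
  intro t ht
  have hcont : ContinuousAt (fun δ : ℝ => L * (t + δ) ^ m) 0 := by
    refine continuousAt_const.mul ?_
    exact ContinuousAt.rpow_const (by fun_prop) (Or.inr hm)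
  have hlim : Tendsto (fun δ : ℝ => L * (t + δ) ^ m) (𝓝[>] 0) (𝓝 (L * t ^ m)) := by
    have := hcont.tendsto.mono_left (nhdsWithin_le_nhds (s := Ioi (0 : ℝ)))
    simpa using this
  refine ge_of_tendsto hlim ?_
  filter_upwards [self_mem_nhdsWithin] with δ hδ
  exact shift ha hm hc hδ hL hKL hF h0 hd hode hend t ht

/-- A small height. -/
lemma small {θ A ε e : ℝ} (hθ : 0 < θ) (hε : 0 < ε) (he : 0 < e) :
    ∃ a, 0 < a ∧ a ≤ e ∧ ∀ t ∈ Ioo 0 a, A * t ^ θ ≤ ε := by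
  have hcont : ContinuousAt (fun t : ℝ => A * t ^ θ) 0 :=
    continuousAt_const.mul (ContinuousAt.rpow_const continuousAt_id (Or.inr hθ.le))
  have h1 : ∀ᶠ t in 𝓝 (0 : ℝ), A * t ^ θ < ε := by
    refine hcont.eventually_lt continuousAt_const ?_
    simpa [Real.zero_rpow hθ.ne'] using hε
  obtain ⟨η, hη, h2⟩ := Metric.eventually_nhds_iff.1 h1
  refine ⟨min η e, lt_min hη he, min_le_right _ _, fun t ht => (h2 ?_).le⟩
  rw [Real.dist_eq, sub_zero, abs_of_pos ht.1]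
  exact ht.2.trans_le (min_le_left _ _)

lemma Gd.cc {B : Set P} {f : P → ℂ} (h : Gd B f) : Cc B f := by
  obtain ⟨S, hf, hS⟩ := h
  exact (hS f hf).1

end XCCo

open XCCo in
theorem rowCo : OfCo := by
  intro b nn la θ M c f ρ β β₀ hch hf hρ hβ hθ hc hρr hβr hβ₀ hZρ hZβ hU hZ
  obtain ⟨c₀, hc₀, hn0⟩ := hch.n0
  obtain ⟨hnc, Mn, hMn⟩ := Gd.cc hch.gn
  obtain ⟨hfc, Mf, hMf⟩ := hf
  obtain ⟨Cρ, hCρ⟩ := hZρ
  obtain ⟨Cβ, hCβ⟩ := hZβ
  obtain ⟨K, hK⟩ := hZ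
  have hm : 0 ≤ max M 0 := le_max_right _ _
  set m := max M 0 with hmdef
  rw [max_eq_left (by linarith : (0 : ℝ) ≤ 1 + θ)] at hCρ
  rw [max_eq_left hθ.le] at hCβ
  rcases b.h1.eq_or_lt with he | he
  · refine ⟨0, fun p hp => ?_⟩
    rw [hU p hp (by rw [he]; exact hp.2.2)]
    simp
  obtain ⟨a, ha, hae, hsm⟩ := small (A := |Cβ| + m * |Cρ| / c₀) hθ (half_pos hc) he
  -- the uniform bound
  set T : ℝ := |Mf| * |Mn| * b.e₁ with hT
  have hT0 : 0 ≤ T := by positivity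
  have ham : 0 < a ^ m := Real.rpow_pos_of_pos ha m
  set L : ℝ := T / a ^ m + |K| / (c / 2) with hL
  have hL0 : 0 ≤ L := by positivity
  refine ⟨L, fun p hp => ?_⟩
  rcases le_or_gt p.2 0 with h0 | h0
  · rw [hU p hp h0, norm_zero]
    positivity
  rw [abs_of_pos h0]
  obtain ⟨s, e⟩ := p
  have hs : s ∈ Ioo b.s₀ b.s₁ := hp.1
  have he1 : e ≤ b.e₁ := hp.2.2
  have hmem : ∀ t ∈ Icc 0 b.e₁, ((s, t) : P) ∈ b.B := fun t ht => ⟨hs, b.h0.trans ht.1, ht.2⟩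
  set g : ℝ → ℂ := fun t => f (s, t) * nn (s, t) with hg
  have hline : ContinuousOn (fun t : ℝ => ((s, t) : P)) (Icc 0 b.e₁) := by fun_prop
  have hgc : ContinuousOn g (Icc 0 b.e₁) :=
    (hfc.comp hline hmem).mul (hnc.comp hline hmem)
  set F : ℝ → ℂ := fun t => ∫ x in (0 : ℝ)..t, g x with hFdef
  have hIv : ∀ t, Iv nn f (s, t) = F t := fun t => rfl
  have hint : ∀ t ∈ Icc 0 b.e₁, IntervalIntegrable g MeasureTheory.volume 0 t := fun t ht =>
    (hgc.mono (by rw [uIcc_of_le ht.1]; exact Icc_subset_Icc le_rfl ht.2)).intervalIntegrable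
  have hFc : ContinuousOn F (Icc 0 b.e₁) := by
    have := intervalIntegral.continuousOn_primitive_interval' (hint b.e₁ ⟨he.le, le_rfl⟩)
      (a := 0) left_mem_uIcc
    rwa [uIcc_of_le he.le] at this
  have hFd : ∀ t ∈ Ioo 0 b.e₁, HasDerivAt F (g t) t := fun t ht => by
    have hn : Icc 0 b.e₁ ∈ 𝓝 t := Icc_mem_nhds ht.1 ht.2
    refine intervalIntegral.integral_hasDerivAt_right (hint t (Ioo_subset_Icc_self ht)) ?_
      (hgc.continuousAt hn)
    exact (hgc.mono Ioo_subset_Icc_self).stronglyMeasurableAtFilter isOpen_Ioo t ht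
  have hFb : ∀ t ∈ Icc 0 b.e₁, ‖F t‖ ≤ T := fun t ht => by
    have h1 : ‖F t‖ ≤ |Mf| * |Mn| * |t - 0| := by
      refine intervalIntegral.norm_integral_le_of_norm_le_const fun x hx => ?_
      rw [uIoc_of_le ht.1] at hx
      have hx' := hmem x ⟨hx.1.le, hx.2.trans ht.2⟩
      rw [hg, norm_mul]
      exact mul_le_mul ((hMf _ hx').trans (le_abs_self _)) ((hMn _ hx').trans (le_abs_self _))
        (norm_nonneg _) (abs_nonneg _)
    rw [sub_zero, abs_of_nonneg ht.1] at h1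
    exact h1.trans (mul_le_mul_of_nonneg_left ht.2 (by positivity))
  have hTL : T ≤ L * a ^ m := by
    rw [hL, add_mul, div_mul_cancel₀ _ ham.ne']
    have : 0 ≤ |K| / (c / 2) * a ^ m := by positivity
    linarith
  rw [hIv]
  change ‖F e‖ ≤ L * e ^ m
  rcases le_or_gt a e with hae' | hae'
  · exact (hFb e ⟨h0.le, he1⟩).trans (hTL.trans
      (mul_le_mul_of_nonneg_left (Real.rpow_le_rpow ha.le hae' hm) hL0))
  refine one (g := g) (c := c / 2) (K := |K|) ha hm (half_pos hc) hL0 ?_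
    (hFc.mono (Icc_subset_Icc le_rfl hae)) (by simp [hFdef])
    (fun t ht => hFd t ⟨ht.1, ht.2.trans_le hae⟩) ?_ ((hFb a ⟨ha.le, hae⟩).trans hTL) e
    ⟨h0.le, hae'.le⟩
  · rw [hL, mul_add, mul_div_cancel₀ _ (half_pos hc).ne']
    have : 0 ≤ c / 2 * (T / a ^ m) := by positivity
    linarith
  intro t ht
  have htB := hmem t ⟨ht.1.le, ht.2.le.trans hae⟩
  have hn := hn0 _ htB
  have hnp : 0 < nn (s, t) := hc₀.trans_le hn
  obtain ⟨ρ', hρ'⟩ := Complex.conj_eq_iff_real.1 (hρr _ htB)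
  obtain ⟨β', hβ'⟩ := Complex.conj_eq_iff_real.1 (hβr _ htB)
  have htθ : 0 < t ^ θ := Real.rpow_pos_of_pos ht.1 θ
  refine ⟨ρ' / nn (s, t), β', ?_, ?_⟩
  · have h1 := hK _ htB
    simp only [hIv, hρ', hβ', abs_of_pos ht.1] at h1
    have e1 : (ρ' / nn (s, t)) • g t - β' • F t = ρ' * f (s, t) - β' * F t := by
      have : ((nn (s, t) : ℝ) : ℂ) ≠ 0 := by exact_mod_cast hnp.ne'
      simp only [hg, Complex.real_smul]
      push_cast
      field_simp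
    rw [e1]
    exact h1.trans (mul_le_mul_of_nonneg_right (le_abs_self K) (Real.rpow_nonneg ht.1.le m))
  · have h1 := hCρ _ htB
    have h2 := hCβ _ htB
    have h3 := hβ₀ _ htB
    have h4 := hsm t ht
    simp only [hρ', abs_of_pos ht.1, Complex.norm_real, Real.norm_eq_abs] at h1
    simp only [abs_of_pos ht.1] at h2
    rw [Real.rpow_add ht.1, Real.rpow_one] at h1
    have h5 : c - |Cβ| * t ^ θ ≤ |β'| := by
      have a1 : ‖β₀ (s, t)‖ ≤ ‖β (s, t)‖ + ‖β (s, t) - β₀ (s, t)‖ := by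
        have := norm_sub_le (β (s, t)) (β (s, t) - β₀ (s, t))
        rwa [sub_sub_cancel] at this
      have a2 : ‖β (s, t)‖ = |β'| := by rw [hβ', Complex.norm_real, Real.norm_eq_abs]
      have a3 := mul_le_mul_of_nonneg_right (le_abs_self Cβ) htθ.le
      linarith
    have h6 : |ρ' / nn (s, t)| ≤ |Cρ| / c₀ * t ^ θ * t := by
      rw [abs_div, abs_of_pos hnp]
      have a1 : |ρ'| ≤ |Cρ| * (t * t ^ θ) :=
        h1.trans (mul_le_mul_of_nonneg_right (le_abs_self _) (by have := ht.1; positivity))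
      calc |ρ'| / nn (s, t) ≤ |Cρ| * (t * t ^ θ) / c₀ :=
            div_le_div₀ (by have := ht.1; positivity) a1 hc₀ hn
        _ = |Cρ| / c₀ * t ^ θ * t := by ring
    have h7 := mul_le_mul_of_nonneg_left h6 hm
    have h8 := mul_le_mul_of_nonneg_right h5 ht.1.le
    have h9 := mul_le_mul_of_nonneg_right h4 ht.1.le
    have e2 : (|Cβ| + m * |Cρ| / c₀) * t ^ θ * t
        = |Cβ| * t ^ θ * t + m * (|Cρ| / c₀ * t ^ θ * t) := by ring
    rw [e2] at h9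
    nlinarith

end Pool.Agent.MP_ed9623_an.R10
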