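import Pool.Agent.MP_ed9623_an.R10.CDefs

/-! The regular singular equation. -/

open Filter Topology Set

namespace Pool.Agent.MP_ed9623_an.R10

open H77 (P Q)

namespace XCFu

theorem one {y n : ℝ → ℝ} {F φ : ℝ → ℂ} {c N C C₁ μ a A e : ℝ} (hc : 0 < c) (he : 0 < e)
    (ha : μ < a) (ha0 : 0 ≤ a) (hA : μ < A) (hA0 : 0 ≤ A) (hC : 0 ≤ C) (hC₁ : 0 ≤ C₁)
    (hy : ∀ t, HasDerivAt y (n t) t) (hF : ∀ t, HasDerivAt F (φ t * n t) t) (hn : ∀ t, 0 ≤ n t)
    (h1 : ∀ t ∈ Ioc 0 e, c * t ≤ y t ∧ y t ≤ N * t) (h2 : ∀ t ∈ Ioc 0 e, ‖F t‖ ≤ C₁ * t ^ a)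
    (h3 : ∀ t ∈ Ioc 0 e, ‖y t * φ t - μ * F t‖ ≤ C * t ^ A) :
    ‖F e‖ ≤ C / c ^ A / (A - μ) * N ^ A * e ^ A := by
  have yp : ∀ t ∈ Ioc 0 e, 0 < y t := fun t ht => (mul_pos hc ht.1).trans_le (h1 t ht).1
  have pw : ∀ t ∈ Ioc 0 e, ∀ x : ℝ, 0 ≤ x → t ^ x ≤ y t ^ x / c ^ x := fun t ht x hx => by
    rw [← Real.div_rpow (yp t ht).le hc.le]
    exact Real.rpow_le_rpow ht.1.le (by rw [le_div_iff₀ hc, mul_comm]; exact (h1 t ht).1) hx
  have ye := yp e ⟨he, le_rfl⟩
  have N0 : 0 < N := (mul_pos_iff_of_pos_right he).1 (ye.trans_le (h1 e ⟨he, le_rfl⟩).2)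
  set K := C / c ^ A / (A - μ) with hK
  have K0 : 0 ≤ K := div_nonneg (by positivity) (by linarith)
  have key : ∀ δ ∈ Ioc 0 e, ‖y e ^ (-μ) • F e‖ ≤
      C₁ / c ^ a * N ^ (a - μ) * δ ^ (a - μ) + K * y e ^ (A - μ) := fun δ hδ => by
    have sub : ∀ t ∈ Icc δ e, t ∈ Ioc 0 e := fun t ht => ⟨hδ.1.trans_le ht.1, ht.2⟩
    have dH : ∀ t ∈ Icc δ e, HasDerivAt (fun t => y t ^ (-μ) • F t)
        ((n t * y t ^ (-μ - 1)) • (y t * φ t - μ * F t)) t := fun t ht => by
      have p := yp t (sub t ht)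
      refine (((hy t).rpow_const (p := -μ) (Or.inl p.ne')).smul (hF t)).congr_deriv ?_
      have e1 : y t ^ (-μ) = y t ^ (-μ - 1) * y t := by
        rw [← Real.rpow_add_one p.ne']; congr 1; ring
      rw [e1]
      simp only [Complex.real_smul]
      push_cast
      ring
    have dB : ∀ t ∈ Icc δ e, HasDerivAt
        (fun t => C₁ / c ^ a * N ^ (a - μ) * δ ^ (a - μ) + K * y t ^ (A - μ))
        (K * (n t * (A - μ) * y t ^ (A - μ - 1))) t := fun t ht =>
      (((hy t).rpow_const (p := A - μ) (Or.inl (yp t (sub t ht)).ne')).const_mul K).const_add _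
    refine image_norm_le_of_norm_deriv_right_le_deriv_boundary'
      (fun t ht => (dH t ht).continuousAt.continuousWithinAt)
      (fun t ht => (dH t (Ico_subset_Icc_self ht)).hasDerivWithinAt) ?_
      (fun t ht => (dB t ht).continuousAt.continuousWithinAt)
      (fun t ht => (dB t (Ico_subset_Icc_self ht)).hasDerivWithinAt) (fun t ht => ?_)
      (right_mem_Icc.2 hδ.2)
    · have p := yp δ hδ
      have b1 : y δ ^ (a - μ) ≤ N ^ (a - μ) * δ ^ (a - μ) := by
        rw [← Real.mul_rpow N0.le hδ.1.le]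
        exact Real.rpow_le_rpow p.le (h1 δ hδ).2 (by linarith)
      have b2 : ‖y δ ^ (-μ) • F δ‖ ≤ C₁ / c ^ a * y δ ^ (a - μ) := by
        rw [norm_smul, Real.norm_eq_abs, abs_of_pos (Real.rpow_pos_of_pos p _)]
        refine (mul_le_mul_of_nonneg_left ((h2 δ hδ).trans (mul_le_mul_of_nonneg_left
          (pw δ hδ a ha0) hC₁)) (Real.rpow_pos_of_pos p _).le).trans (le_of_eq ?_)
        rw [sub_eq_add_neg, Real.rpow_add p]; ring
      have b3 : 0 ≤ K * y δ ^ (A - μ) := by positivity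
      have b4 := mul_le_mul_of_nonneg_left b1 (show 0 ≤ C₁ / c ^ a by positivity)
      linarith
    · have m := sub t (Ico_subset_Icc_self ht)
      have p := yp t m
      have n0 : 0 ≤ n t * y t ^ (-μ - 1) := mul_nonneg (hn t) (Real.rpow_pos_of_pos p _).le
      rw [norm_smul, Real.norm_eq_abs, abs_of_nonneg n0]
      refine (mul_le_mul_of_nonneg_left ((h3 t m).trans (mul_le_mul_of_nonneg_left
        (pw t m A hA0) hC)) n0).trans (le_of_eq ?_)
      have : A - μ ≠ 0 := by linarith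
      rw [show A - μ - 1 = A + (-μ - 1) by ring, Real.rpow_add p, hK]
      field_simp
  have lim : Tendsto (fun δ : ℝ => C₁ / c ^ a * N ^ (a - μ) * δ ^ (a - μ) + K * y e ^ (A - μ))
      (𝓝[>] 0) (𝓝 (C₁ / c ^ a * N ^ (a - μ) * (0 : ℝ) ^ (a - μ) + K * y e ^ (A - μ))) :=
    ((((Real.continuousAt_rpow_const 0 (a - μ) (Or.inr (by linarith))).tendsto.mono_left
      nhdsWithin_le_nhds).const_mul _).add_const _)
  rw [Real.zero_rpow (by linarith), mul_zero, zero_add] at lim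
  have k2 := ge_of_tendsto lim (mem_of_superset (Ioc_mem_nhdsGT he) key)
  rw [norm_smul, Real.norm_eq_abs, abs_of_pos (Real.rpow_pos_of_pos ye _), sub_eq_add_neg,
    Real.rpow_add ye, ← mul_assoc, mul_comm] at k2
  refine (le_of_mul_le_mul_right k2 (Real.rpow_pos_of_pos ye _)).trans ?_
  rw [mul_assoc, ← Real.mul_rpow N0.le he.le]
  exact mul_le_mul_of_nonneg_left (Real.rpow_le_rpow ye.le (h1 e ⟨he, le_rfl⟩).2 hA0) K0

theorem Gd.cc {B : Set P} {f : P → ℂ} (h : Gd B f) : Cc B f := let ⟨_, a, b⟩ := h; (b f a).1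

end XCFu

open XCFu in
theorem rowFu : OfFu := by
  intro b nn la μ m M f hch hf hμ hU ⟨C₁, h₁⟩ ⟨C, h₂⟩
  have low : ∀ (p : P) (K : ℝ), 0 ≤ K → p ∈ b.B → p.2 ≤ 0 → ‖Iv nn f p‖ ≤ K * |p.2| ^ max M 0 :=
    fun p K hK hp h0 => by rw [hU p hp h0, norm_zero]; positivity
  rcases le_or_gt (max M 0) (max m 0) with hM | hM
  · refine ⟨|C₁| * b.e₁ ^ (max m 0 - max M 0), fun p hp => ?_⟩
    have e1 := b.h1
    rcases le_or_gt p.2 0 with h0 | h0
    · exact low p _ (by positivity) hp h0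
    refine (h₁ p hp).trans ?_
    rw [abs_of_pos h0, show max m 0 = max m 0 - max M 0 + max M 0 by ring, Real.rpow_add h0,
      ← mul_assoc, add_sub_cancel_right]
    refine mul_le_mul_of_nonneg_right ?_ (by positivity)
    exact mul_le_mul (le_abs_self _) (Real.rpow_le_rpow h0.le hp.2.2 (by linarith)) (by positivity)
      (abs_nonneg _)
  obtain ⟨c, hc, hcn⟩ := hch.n0
  obtain ⟨cn, N, hN⟩ := Gd.cc hch.gn
  have m1 : μ < max m 0 := hμ.trans_le (le_max_left _ _)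
  have : 0 < max M 0 - μ := by linarith
  refine ⟨|C| / c ^ max M 0 / (max M 0 - μ) * |N| ^ max M 0, fun p hp => ?_⟩
  rcases le_or_gt p.2 0 with h0 | h0
  · exact low p _ (by positivity) hp h0
  let κ : ℝ → P := fun t => (p.1, max 0 (min t p.2))
  have cκ : Continuous κ := by fun_prop
  have mκ : ∀ t, κ t ∈ b.B := fun t =>
    ⟨hp.1, b.h0.trans (le_max_left _ _), max_le b.h1 ((min_le_right _ _).trans hp.2.2)⟩
  have eκ : ∀ t ∈ Icc 0 p.2, κ t = (p.1, t) := fun t ht => by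
    simp only [κ, min_eq_left ht.2, max_eq_right ht.1]
  have c1 : Continuous fun t => ((nn (κ t) : ℝ) : ℂ) := cn.comp_continuous cκ mκ
  have c2 : Continuous fun t => nn (κ t) := Complex.continuous_re.comp c1
  have c3 : Continuous fun t => f (κ t) := hf.1.comp_continuous cκ mκ
  have eI : ∀ (g : P → ℂ), ∀ t ∈ Ioc 0 p.2,
      ∫ u in (0 : ℝ)..t, g (κ u) * nn (κ u) = Iv nn g (p.1, t) := fun g t ht =>
    intervalIntegral.integral_congr fun u hu => by
      rw [uIcc_of_le ht.1.le] at hu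
      simp only [eκ u ⟨hu.1, hu.2.trans ht.2⟩]
  have mB : ∀ t ∈ Ioc 0 p.2, ((p.1, t) : P) ∈ b.B := fun t ht => eκ t ⟨ht.1.le, ht.2⟩ ▸ mκ t
  have nN : ∀ t, nn (κ t) ≤ |N| := fun t => by
    have := hN _ (mκ t)
    rw [Complex.norm_real] at this
    exact (le_abs_self _).trans (this.trans (le_abs_self N))
  have H := one (y := fun t => ∫ u in (0 : ℝ)..t, nn (κ u)) (n := fun t => nn (κ t))
    (F := fun t => ∫ u in (0 : ℝ)..t, f (κ u) * nn (κ u)) (φ := fun t => f (κ t)) (N := |N|)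
    hc h0 m1 (le_max_right _ _) (m1.trans hM) (le_max_right _ _) (abs_nonneg C) (abs_nonneg C₁)
    (fun t => (c2.integral_hasStrictDerivAt 0 t).hasDerivAt)
    (fun t => ((c3.mul c1).integral_hasStrictDerivAt 0 t).hasDerivAt)
    (fun t => hc.le.trans (hcn _ (mκ t))) (fun t ht => ?_) (fun t ht => ?_) (fun t ht => ?_)
  · rw [eI f _ ⟨h0, le_rfl⟩] at H
    rwa [abs_of_pos h0]
  · have a1 := intervalIntegral.integral_mono_on (μ := MeasureTheory.volume) ht.1.le
      (intervalIntegrable_const (c := c)) (c2.intervalIntegrable 0 t) fun u _ => hcn _ (mκ u)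
    have a2 := intervalIntegral.integral_mono_on (μ := MeasureTheory.volume) ht.1.le
      (c2.intervalIntegrable 0 t) (intervalIntegrable_const (c := |N|)) fun u _ => nN u
    simp only [intervalIntegral.integral_const, sub_zero, smul_eq_mul] at a1 a2
    constructor <;> linarith
  · rw [eI f t ht]
    refine (h₁ _ (mB t ht)).trans ?_
    rw [abs_of_pos ht.1]
    exact mul_le_mul_of_nonneg_right (le_abs_self _) (Real.rpow_nonneg ht.1.le _)
  · have e1 := eI 1 t ht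
    simp only [Pi.one_apply, one_mul, intervalIntegral.integral_ofReal] at e1
    rw [eI f t ht, e1, eκ t ⟨ht.1.le, ht.2⟩]
    refine (h₂ _ (mB t ht)).trans ?_
    rw [abs_of_pos ht.1]
    exact mul_le_mul_of_nonneg_right (le_abs_self _) (Real.rpow_nonneg ht.1.le _)

end Pool.Agent.MP_ed9623_an.R10
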