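import Pool.Agent.MP_ed9623_an.R10.CDefs
import Pool.Agent.MP_ed9623_an.R10.Base4

/-! Restriction of the concrete models to smaller boxes, and localisation. -/

open Filter Topology Set
open scoped ComplexConjugate

namespace Pool.Agent.MP_ed9623_an.R10

open H77 (P Q)
open Mdl

namespace XCHom

theorem gd_mono {B B' : Set P} (h : B' ⊆ B) {f : P → ℂ} (hf : Gd B f) : Gd B' f := by
  obtain ⟨S, h1, h2⟩ := hf
  refine ⟨S, h1, fun g hg => ?_⟩
  obtain ⟨⟨c1, M, c2⟩, g', hg', d⟩ := h2 g hg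
  exact ⟨⟨c1.mono h, M, fun p hp => c2 p (h hp)⟩, g', hg', fun p hp => d p (h hp)⟩

theorem cc_add {B : Set P} {f g : P → ℂ} (hf : Cc B f) (hg : Cc B g) : Cc B (f + g) := by
  obtain ⟨c1, M, c2⟩ := hf
  obtain ⟨d1, N, d2⟩ := hg
  exact ⟨c1.add d1, M + N, fun p hp => (norm_add_le _ _).trans (add_le_add (c2 p hp) (d2 p hp))⟩

theorem cc_mul {B : Set P} {f g : P → ℂ} (hf : Cc B f) (hg : Cc B g) : Cc B (f * g) := by
  obtain ⟨c1, M, c2⟩ := hf
  obtain ⟨d1, N, d2⟩ := hg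
  refine ⟨c1.mul d1, M * N, fun p hp => ?_⟩
  rw [Pi.mul_apply, norm_mul]
  exact mul_le_mul (c2 p hp) (d2 p hp) (norm_nonneg _) ((norm_nonneg _).trans (c2 p hp))

theorem cc_const (B : Set P) (s : ℂ) : Cc B fun _ => s :=
  ⟨continuousOn_const, ‖s‖, fun _ _ => le_rfl⟩

theorem gd_zero (B : Set P) : Gd B fun _ => 0 := by
  refine ⟨{fun _ => 0}, rfl, fun g hg => ?_⟩
  obtain rfl : g = fun _ => 0 := hg
  exact ⟨cc_const B 0, _, rfl, fun p _ => hasDerivAt_const _ _⟩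

theorem gd_inv {B : Set P} {f : P → ℂ} (hf : Gd B f) {c : ℝ} (hc : 0 < c)
    (h : ∀ p ∈ B, c ≤ ‖f p‖) : Gd B fun p => (f p)⁻¹ := by
  obtain ⟨S, h1, h2⟩ := hf
  have h0 : ∀ p ∈ B, f p ≠ 0 := fun p hp => norm_pos_iff.1 (hc.trans_le (h p hp))
  set u : P → ℂ := fun p => (f p)⁻¹ with hu
  set T := Subring.closure (insert u S) with hT
  have uT : u ∈ T := Subring.subset_closure (mem_insert _ _)
  have sT : ∀ g ∈ S, g ∈ T := fun g hg => Subring.subset_closure (mem_insert_of_mem _ hg)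
  refine ⟨T, uT, fun g hg => ?_⟩
  induction hg using Subring.closure_induction with
  | mem g hg =>
    rcases hg with rfl | hg
    · obtain ⟨⟨c1, -⟩, f', hf', d⟩ := h2 f h1
      refine ⟨⟨c1.inv₀ h0, c⁻¹, fun p hp => ?_⟩, -(f' * u * u),
        T.neg_mem (T.mul_mem (T.mul_mem (sT _ hf') uT) uT), fun p hp => ?_⟩
      · rw [hu, norm_inv]
        exact inv_anti₀ hc (h p hp)
      · have e : (-(f' * u * u)) p = -f' p / f p ^ 2 := by
          have := h0 p hp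
          simp only [hu, Pi.neg_apply, Pi.mul_apply]
          field_simp
        rw [e]
        exact (d p hp).inv (h0 p hp)
    · obtain ⟨c1, g', hg', d⟩ := h2 g hg
      exact ⟨c1, g', sT _ hg', d⟩
  | zero => exact ⟨cc_const B 0, 0, T.zero_mem, fun p _ => hasDerivAt_const _ _⟩
  | one => exact ⟨cc_const B 1, 0, T.zero_mem, fun p _ => hasDerivAt_const _ _⟩
  | add x y _ _ hx hy =>
    obtain ⟨c1, x', hx', d1⟩ := hx
    obtain ⟨c2, y', hy', d2⟩ := hy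
    exact ⟨cc_add c1 c2, x' + y', T.add_mem hx' hy', fun p hp => (d1 p hp).add (d2 p hp)⟩
  | neg x _ hx =>
    obtain ⟨⟨c1, M, c2⟩, x', hx', d1⟩ := hx
    exact ⟨⟨c1.neg, M, fun p hp => by simpa using c2 p hp⟩, -x', T.neg_mem hx',
      fun p hp => (d1 p hp).neg⟩
  | mul x y mx my hx hy =>
    obtain ⟨c1, x', hx', d1⟩ := hx
    obtain ⟨c2, y', hy', d2⟩ := hy
    exact ⟨cc_mul c1 c2, x' * y + x * y', T.add_mem (T.mul_mem hx' my) (T.mul_mem mx hy'),
      fun p hp => (d1 p hp).mul (d2 p hp)⟩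

theorem it_lin {F : FA} (j : ℕ) (a : F.R) : F.δ^[j] a = (F.δ ^ j) a :=
  (Module.End.pow_apply _ _ _).symm

theorem it_add {F : FA} (j : ℕ) (a a' : F.R) : F.δ^[j] (a + a') = F.δ^[j] a + F.δ^[j] a' := by
  simp only [it_lin, map_add]

theorem it_zero {F : FA} (j : ℕ) : F.δ^[j] 0 = 0 := by simp only [it_lin, map_zero]

theorem it_comm {F : FA} {ψ : F.R → F.R} (h : ∀ a, F.δ (ψ a) = ψ (F.δ a)) (j : ℕ) (a : F.R) :
    F.δ^[j] (ψ a) = ψ (F.δ^[j] a) := by
  induction j generalizing a with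
  | zero => rfl
  | succ j ih => rw [Function.iterate_succ_apply, Function.iterate_succ_apply, h, ih]

theorem mem_seg {b : Box} {p : P} (hp : p ∈ b.B) {t : ℝ} (ht : t ∈ uIcc 0 p.2) :
    (p.1, t) ∈ b.B := by
  have h0 := b.h0
  have h1 := b.h1
  obtain ⟨a1, a2, a3⟩ := hp
  refine ⟨a1, ?_⟩
  rcases mem_uIcc.1 ht with h | h
  · exact ⟨h0.trans h.1, h.2.trans a3⟩
  · exact ⟨a2.trans h.1, h.2.trans h1⟩

section
variable {F F' : FA} {b b' : Box} {nn la : P → ℝ} {v : F.R → P → ℂ} {v' : F'.R → P → ℂ}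

theorem v_zero (h : Rep F b nn la v) {p : P} (hp : p ∈ b.B) : v 0 p = 0 := by
  simpa using h.alg 0 p hp

theorem v_one (h : Rep F b nn la v) {p : P} (hp : p ∈ b.B) : v 1 p = 1 := by
  simpa using h.alg 1 p hp

theorem v_ext (h : Rep F b nn la v) {a a' : F.R}
    (e : ∀ j, ∀ p ∈ b.B, v (F.δ^[j] a) p = v (F.δ^[j] a') p) : a = a' := by
  refine sub_eq_zero.1 (h.ext _ fun j p hp => ?_)
  have h1 := h.add (F.δ^[j] (a - a')) (F.δ^[j] a') p hp
  rw [← it_add, sub_add_cancel, e j p hp] at h1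
  exact (left_eq_add.1 (h1.trans (add_comm _ _)))

/-- `a'` is the restriction of `a`. -/
def Rl (b' : Box) (v : F.R → P → ℂ) (v' : F'.R → P → ℂ) (a : F.R) (a' : F'.R) : Prop :=
  ∀ j, ∀ p ∈ b'.B, v' (F'.δ^[j] a') p = v (F.δ^[j] a) p

theorem Rl.δ {a : F.R} {a' : F'.R} (r : Rl b' v v' a a') : Rl b' v v' (F.δ a) (F'.δ a') :=
  fun j => r (j + 1)

variable (h : Rep F b nn la v) (h' : Rep F' b' nn la v') (hb : b'.B ⊆ b.B)
include h h' hb

theorem rl_ex (a : F.R) : ∃ a', Rl b' v v' a a' :=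
  h'.sur (fun j => v (F.δ^[j] a)) fun _ => gd_mono hb (h.gd _)

theorem rl_st {a : F.R} {a' : F'.R} (e : F.δ a = 0) (e' : F'.δ a' = 0)
    (h0 : ∀ p ∈ b'.B, v' a' p = v a p) : Rl b' v v' a a' := by
  intro j p hp
  cases j with
  | zero => exact h0 p hp
  | succ j =>
    rw [Function.iterate_succ_apply, Function.iterate_succ_apply, e, e', it_zero, it_zero,
      v_zero h (hb hp), v_zero h' hp]

theorem rl_add {a c : F.R} {a' c' : F'.R} (r : Rl b' v v' a a') (r' : Rl b' v v' c c') :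
    Rl b' v v' (a + c) (a' + c') := fun j p hp => by
  rw [it_add, it_add, h.add _ _ p (hb hp), h'.add _ _ p hp, r j p hp, r' j p hp]

theorem rl_mul {a c : F.R} {a' c' : F'.R} (r : Rl b' v v' a a') (r' : Rl b' v v' c c') :
    Rl b' v v' (a * c) (a' * c') := by
  intro j p hp
  induction j generalizing a c a' c' with
  | zero =>
    have e1 := r 0 p hp
    have e2 := r' 0 p hp
    simp only [Function.iterate_zero, id] at e1 e2 ⊢
    rw [h.mul _ _ p (hb hp), h'.mul _ _ p hp, e1, e2]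
  | succ j ih =>
    rw [Function.iterate_succ_apply, Function.iterate_succ_apply, F.δ_mul, F'.δ_mul, it_add,
      it_add, h.add _ _ p (hb hp), h'.add _ _ p hp, ih r.δ r', ih r r'.δ]

theorem rl_alg (s : ℂ) : Rl b' v v' (algebraMap ℂ F.R s) (algebraMap ℂ F'.R s) :=
  rl_st h h' hb (FA.δ_alg s) (FA.δ_alg s) fun p hp => by rw [h.alg s p (hb hp), h'.alg s p hp]

theorem rl_I {a : F.R} {a' : F'.R} (r : Rl b' v v' a a') : Rl b' v v' (F.I a) (F'.I a') :=
  fun j p hp => by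
  rw [it_comm F.δ_I, it_comm F'.δ_I, h.I _ p (hb hp), h'.I _ p hp]
  exact intervalIntegral.integral_congr fun t ht => by
    simp only [r j _ (mem_seg hp ht)]

theorem rl_X {a : F.R} {a' : F'.R} (r : Rl b' v v' a a') : Rl b' v v' (F.X a) (F'.X a') :=
  fun j p hp => by
  rw [it_comm F.δ_X, it_comm F'.δ_X]
  refine (h'.X _ p hp).unique ((h.X _ p (hb hp)).congr_of_eventuallyEq ?_)
  filter_upwards [Ioo_mem_nhds hp.1.1 hp.1.2] with s hs
  exact r j (s, p.2) ⟨hs, hp.2⟩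

theorem rl_ev {a : F.R} {a' : F'.R} (r : Rl b' v v' a a') : Rl b' v v' (F.ev a) (F'.ev a') :=
  rl_st h h' hb (F.δ_ev a) (F'.δ_ev a') fun p hp => by
    rw [h.ev _ p (hb hp), h'.ev _ p hp]; exact r 0 p hp

theorem rl_bv {a : F.R} {a' : F'.R} (r : Rl b' v v' a a') : Rl b' v v' (F.bv a) (F'.bv a') :=
  fun j p hp => by
  rw [it_comm (ψ := F.bv) F.δ_bv, it_comm (ψ := F'.bv) F'.δ_bv, h.bv _ p (hb hp), h'.bv _ p hp]
  exact r j _ (mem_seg hp left_mem_uIcc)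

theorem rl_cj {a : F.R} {a' : F'.R} (r : Rl b' v v' a a') : Rl b' v v' (F.cj a) (F'.cj a') :=
  fun j p hp => by
  rw [it_comm (ψ := F.cj) fun a => (F.cj_δ a).symm, it_comm (ψ := F'.cj) fun a => (F'.cj_δ a).symm,
    h.cj _ p (hb hp), h'.cj _ p hp, r j p hp]

theorem rl_z (hc : F'.c = F.c) : Rl b' v v' F.z F'.z := by
  have key : ∀ (G : FA) (j : ℕ), G.δ^[j] G.z = algebraMap ℂ G.R (G.c ^ j) * G.z := fun G j => by
    induction j with
    | zero => simp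
    | succ j ih =>
      rw [Function.iterate_succ_apply', ih, G.δ_mul, FA.δ_alg, G.δ_z, Algebra.smul_def, pow_succ,
        map_mul]
      ring
  intro j p hp
  rw [key, key, h.mul _ _ p (hb hp), h'.mul _ _ p hp, h.alg _ p (hb hp), h'.alg _ p hp, hc,
    ← h.ev F.z p (hb hp), ← h'.ev F'.z p hp, F.ev_z, F'.ev_z, v_one h (hb hp), v_one h' hp]

/-- The restriction map. -/
theorem res_ex : ∃ φ : F.R →ₐ[ℂ] F'.R, ∀ a a', Rl b' v v' a a' ↔ φ a = a' := by
  choose φ hφ using rl_ex h h' hb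
  have u : ∀ a a', Rl b' v v' a a' → φ a = a' := fun a a' r =>
    v_ext h' fun j p hp => by rw [hφ a j p hp, r j p hp]
  refine ⟨⟨⟨⟨⟨φ, ?_⟩, fun a c => u _ _ (rl_mul h h' hb (hφ a) (hφ c))⟩, ?_,
    fun a c => u _ _ (rl_add h h' hb (hφ a) (hφ c))⟩, fun s => u _ _ (rl_alg h h' hb s)⟩,
    fun a a' => ⟨u a a', fun e => e ▸ hφ a⟩⟩
  · simpa using u _ _ (rl_alg h h' hb 1)
  · simpa using u _ _ (rl_alg h h' hb 0)

end

theorem hom : HomS := by
  intro D b b' M M' v v' ps aa ps' aa' m m' hb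
  have h := m.rep
  have h' := m'.rep
  obtain ⟨φ, hφ⟩ := res_ex h h' hb
  have r : ∀ a, Rl b' v v' a (φ a) := fun a => (hφ a _).2 rfl
  have hc : M'.c = M.c := by rw [m.c, m'.c]
  have eI : ∀ a, φ (M.I a) = M'.I (φ a) := fun a => (hφ _ _).1 (rl_I h h' hb (r a))
  have eδ : ∀ a, φ (M.δ a) = M'.δ (φ a) := fun a => (hφ _ _).1 (r a).δ
  have ee : ∀ a, φ (M.ev a) = M'.ev (φ a) := fun a => (hφ _ _).1 (rl_ev h h' hb (r a))
  have eb : ∀ a, φ (M.bv a) = M'.bv (φ a) := fun a => (hφ _ _).1 (rl_bv h h' hb (r a))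
  have ec : ∀ a, φ (M.cj a) = M'.cj (φ a) := fun a => (hφ _ _).1 (rl_cj h h' hb (r a))
  have ez : φ M.z = M'.z := (hφ _ _).1 (rl_z h h' hb hc)
  have ezi : φ M.zi = M'.zi := by rw [← M.cj_z, ec, ez, M'.cj_z]
  have el : φ M.la = M'.la := (hφ _ _).1 (rl_st h h' hb M.δ_la M'.δ_la fun p hp => by
    rw [h.la p (hb hp), h'.la p hp])
  have eg : φ (M.g + M.el) = M'.g + M'.el := (hφ _ _).1 (rl_st h h' hb
    (by rw [map_add, M.sys.sg.2, FA.δ_el, add_zero]) (by rw [map_add, M'.sys.sg.2, FA.δ_el, add_zero])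
    fun p hp => by rw [m.lam p (hb hp), m'.lam p hp])
  have ep : ∀ x y, x + y ≤ 3 → φ (ps x y) = ps' x y := fun x y e => (hφ _ _).1 fun j p hp => by
    rw [m.vp j x y e p (hb hp), m'.vp j x y e p hp]
  have ea : φ (aa 0 2) = aa' 0 2 := (hφ _ _).1 fun j p hp => by
    rw [m.va j 0 2 le_rfl p (hb hp), m'.va j 0 2 le_rfl p hp]
  have em : ∀ a, φ (M.am a) = M'.am (φ a) := fun a => by
    rw [FA.am, FA.am, ee, map_mul, map_add, map_smul, ezi, eδ, hc]
  refine ⟨φ, ⟨eI, fun a => (hφ _ _).1 (rl_X h h' hb (r a)), eδ, ee, eb, ec, fun k a ha => ?_, hc, el,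
    ez, ezi, ?_, ?_, ?_, ?_, ?_⟩, fun a p hp => r a 0 p hp⟩
  · refine (h'.Z k _).2 fun j => ?_
    obtain ⟨C, hC⟩ := (h.Z k a).1 ha j
    exact ⟨C, fun p hp => by rw [r a j p hp]; exact hC p (hb hp)⟩
  · rw [map_add, FA.el, eI, el] at eg
    exact add_right_cancel eg
  · rw [m.hu, m'.hu, map_smul, em, eb, map_add, ep 2 0 (by norm_num), ep 0 2 (by norm_num), hc]
  · rw [m.hh, m'.hh, em, eb, ep 0 1 (by norm_num)]
  · rw [m.hA, m'.hA, ea]
  · rw [m.hW, m'.hW, ep 0 2 (by norm_num)]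

theorem site (mk : MkS) : SiteS := by
  rintro D R hR M ⟨b, v, ps, aa, hb, m⟩ a ha hne
  have h := m.rep
  obtain ⟨p, hp, h0⟩ : ∃ p ∈ b.B, v a (p.1, 0) ≠ 0 := by
    by_contra hc
    push Not at hc
    refine hne (h.ext _ fun j p hp => ?_)
    cases j with
    | zero => exact (h.bv a p hp).trans (hc p hp)
    | succ j => rw [Function.iterate_succ_apply, M.δ_bv, ha, map_zero, it_zero, v_zero h hp]
  have hp0 : (p.1, (0 : ℝ)) ∈ b.B := mem_seg hp left_mem_uIcc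
  obtain ⟨S, s1, s2⟩ := h.gd a
  have ct := ((s2 _ s1).1.1 _ hp0).norm
  have hpos : 0 < ‖v a (p.1, 0)‖ := norm_pos_iff.2 h0
  have ev := ct.eventually (lt_mem_nhds (half_lt_self hpos))
  rw [eventually_nhdsWithin_iff] at ev
  obtain ⟨b', hb', sub⟩ := hR b hb p.1 hp.1 _ ev
  have sb : b'.B ⊆ b.B := fun q hq => (sub hq).1
  obtain ⟨M', v', ps', aa', m'⟩ := mk D b' (sb.trans m.sub)
  obtain ⟨φ, hφ, e⟩ := hom D b b' M M' v v' ps aa ps' aa' m m' sb
  refine ⟨M', φ, hφ, ⟨b', v', ps', aa', hb', m'⟩, ?_⟩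
  have h' := m'.rep
  have low : ∀ q ∈ b'.B, ‖v a (p.1, 0)‖ / 2 ≤ ‖v a q‖ := fun q hq => ((sub hq).2 (sb hq)).le
  obtain ⟨a', ha'⟩ := h'.sur (fun j => Nat.casesOn j (fun q => (v a q)⁻¹) fun _ _ => 0) fun j => by
    cases j with
    | zero => exact gd_inv (gd_mono sb (h.gd a)) (half_pos hpos) low
    | succ j => exact gd_zero _
  have d1 : M'.δ a' = 0 := h'.ext _ fun j q hq => ha' (j + 1) q hq
  have d2 : M'.δ (φ a) = 0 := by rw [← hφ.δ, ha, map_zero]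
  refine IsUnit.of_mul_eq_one a' (v_ext h' fun j q hq => ?_)
  cases j with
  | zero =>
    have e1 := ha' 0 q hq
    simp only [Function.iterate_zero, id] at e1 ⊢
    rw [h'.mul _ _ q hq, e a q hq, e1, v_one h' hq]
    exact mul_inv_cancel₀ (norm_pos_iff.1 ((half_pos hpos).trans_le (low q hq)))
  | succ j =>
    rw [Function.iterate_succ_apply, Function.iterate_succ_apply, M'.δ_mul, d1, d2, FA.δ_one]
    simp

end XCHom

theorem rowHom : OfHom := ⟨XCHom.hom, XCHom.site⟩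

end Pool.Agent.MP_ed9623_an.R10
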