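import Pool.Agent.MP_ed9623_an.R10.Spec
import Pool.Agent.MP_ed9623_an.R10.Base4

/-! From Cartesian jets to the system. -/

namespace Pool.Agent.MP_ed9623_an.R10

namespace XJet

open FA

variable {F : FA} {g a a₁ a₂ b b₁ b₂ : F.R}

/-- The Cartesian gradient of `a` is `(a₁, a₂)`. -/
def Gr (g a a₁ a₂ : F.R) : Prop := F.Dy a a₂ ∧ F.X a = a₁ + (g + F.el) * a₂

theorem Gr.add (h : Gr g a a₁ a₂) (h' : Gr g b b₁ b₂) : Gr g (a + b) (a₁ + b₁) (a₂ + b₂) :=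
  ⟨h.1.add h'.1, by rw [map_add, h.2, h'.2]; ring⟩

theorem Gr.sub (h : Gr g a a₁ a₂) (h' : Gr g b b₁ b₂) : Gr g (a - b) (a₁ - b₁) (a₂ - b₂) :=
  ⟨h.1.sub h'.1, by rw [map_sub, h.2, h'.2]; ring⟩

theorem Gr.mul (h : Gr g a a₁ a₂) (h' : Gr g b b₁ b₂) :
    Gr g (a * b) (a₁ * b + a * b₁) (a₂ * b + a * b₂) :=
  ⟨h.1.mul h'.1, by rw [F.X_mul, h.2, h'.2]; ring⟩

theorem Gr.δ (hg : F.S g) (h : Gr g a a₁ a₂) : Gr g (F.δ a) (F.δ a₁) (F.δ a₂) :=
  ⟨h.1.δ, by rw [← F.δ_X, h.2]; simp [F.δ_mul, hg.2]⟩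

theorem Gr.cst (h : F.bv a = a) : Gr g a (F.X a) 0 := ⟨Dy.of_bv h, by simp⟩

theorem Gr.I (a : F.R) : Gr g (F.I a) (F.T a - g * a) a := ⟨Dy.I a, by rw [T_apply]; ring⟩

theorem Gr.congr (h : Gr g a a₁ a₂) (e₁ : a₁ = b₁) (e₂ : a₂ = b₂) : Gr g a b₁ b₂ := e₁ ▸ e₂ ▸ h

theorem Gr.X_bv (hg : F.S g) (h : Gr g a a₁ a₂) : F.X (F.bv a) = F.bv a₁ + g * F.bv a₂ := by
  rw [F.X_bv, h.2]; simp [hg.1]

theorem Gr.T_eq (h : Gr g a a₁ a₂) : F.T a₂ = a₁ + g * a₂ - F.X (F.bv a) := by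
  rw [h.1.T_eq, F.X_bv]; linear_combination h.2

theorem Gr.dT (h : Gr g a a₁ a₂) : F.Dy (F.T a) (a₁ + g * a₂) :=
  h.1.T.congr (by rw [h.2]; ring)

theorem dy_ext (h : F.Dy a a₂) (e : F.bv a = 0) : a = F.I a₂ := by rw [h.I_eq, e, sub_zero]

theorem cj {k : ℕ} {f : ℕ → ℕ → F.R} (h : F.Cj g k f) (i j : ℕ) (e : i + j < k) :
    Gr g (f i j) (f (i + 1) j) (f i (j + 1)) := h i j e

/-- the tangential derivative -/
theorem tan {f10 f01 f20 f11 f02 : F.R} (hg : F.S g) (h₁ : Gr g f10 f20 f11)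
    (h₂ : Gr g f01 f11 f02) :
    Gr g (f10 + g * f01) (f20 + g * f11 + F.X g * f01) (f11 + g * f02) :=
  (h₁.add ((Gr.cst hg.1).mul h₂)).congr (by ring) (by ring)

/-- jets which vanish on the arc -/
theorem van {f10 f01 f20 f11 f02 : F.R} (hg : F.S g) (h₁ : Gr g f10 f20 f11)
    (h₂ : Gr g f01 f11 f02) (z₁ : F.bv f10 = 0) (z₂ : F.bv f01 = 0) :
    F.I f02 = f01 ∧ F.T f02 = f11 + g * f02 ∧ F.T f01 = f10 + g * f01 ∧
      F.T (F.T f02) = f20 + 2 * g * f11 + g ^ 2 * f02 + F.X g * f01 ∧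
      F.lap g f02 = f20 + f02 := by
  have t := tan hg h₁ h₂
  have z : F.bv (f10 + g * f01) = 0 := by simp [z₁, z₂]
  have e₁ : F.I f02 = f01 := (dy_ext h₂.1 z₂).symm
  have e₂ : F.T f02 = f11 + g * f02 := by rw [h₂.T_eq, z₂]; simp
  have e₄ : F.T (F.T f02) = f20 + 2 * g * f11 + g ^ 2 * f02 + F.X g * f01 := by
    rw [e₂, t.T_eq, z, map_zero]; ring
  refine ⟨e₁, e₂, ?_, e₄, ?_⟩
  · rw [← e₁, T_I, e₂, ← dy_ext t.1 z, e₁]
  · rw [lap, e₄, e₂, e₁]; ring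

/-- the Laplacian of the second primitive of a function which vanishes on the arc -/
theorem lap_eq (hg : F.S g) (h : Gr g a a₁ a₂) (z : F.bv a = 0) :
    F.lap g a = F.I (a₂ - g * a₁ + F.T a₁) := by
  have e₁ : F.T a = F.I (a₁ + g * a₂) := dy_ext h.dT (bv_T a)
  have e₂ : F.T a₂ = a₁ + g * a₂ := by rw [h.T_eq, z]; simp
  have e₃ : F.I a₂ = a := (dy_ext h.1 z).symm
  have d₁ : F.Dy ((1 + g ^ 2) * a) ((1 + g ^ 2) * a₂) :=
    ((Dy.of_bv (S.one.add (hg.pow 2)).1).mul h.1).congr (by ring)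
  have d₂ : F.Dy (2 * g * F.T a) (2 * g * (a₁ + g * a₂)) :=
    ((Dy.of_bv (S.two.mul hg).1).mul h.dT).congr (by ring)
  have d₃ : F.Dy (F.X g * F.I a) (F.X g * a) := ((Dy.of_bv hg.X.1).mul (Dy.I a)).congr (by ring)
  have d₄ : F.Dy (F.T (F.T a)) (F.T (a₁ + g * a₂)) := by rw [e₁, T_I]; exact Dy.I _
  refine dy_ext ((((d₁.sub d₂).sub d₃).add d₄).congr ?_) ?_
  · rw [map_add, hg.T, e₂, e₃]; ring
  · simp [lap, z, F.bv_I]

/-- the quadratic term of the vorticity equation -/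
theorem quad {f10 f01 f20 f11 f02 : F.R} (hg : F.S g) (h₁ : Gr g f10 f20 f11)
    (h₂ : Gr g f01 f11 f02) :
    f10 * f02 - f01 * f11 - g * (f10 * f11 - f01 * f20) + F.T (f10 * f11 - f01 * f20)
      - F.bv (f10 * f02 - f01 * f11 - g * (f10 * f11 - f01 * f20))
      = (f20 + f02) * (f10 + g * f01) - F.T ((f20 + f02) * f01)
        - F.bv (f20 + f02) * F.bv (f10 + g * f01) := by
  have h := (h₁.mul h₁).add (h₂.mul h₂)
  have e := h.T_eq
  rw [h.X_bv hg] at e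
  have e' : F.T (f11 * f10 + f10 * f11 + (f02 * f01 + f01 * f02))
      = 2 * (F.T (f10 * f11 - f01 * f20) + F.T ((f20 + f02) * f01)) := by
    rw [← map_add, two_smul', ← map_smul, ← two_smul']; congr 1; ring
  rw [e'] at e
  simp only [map_add, map_sub, map_mul, hg.1] at e ⊢
  refine sub_eq_zero.1 (of_smul (s := 2) two_ne_zero ?_)
  rw [← two_smul']
  linear_combination e

end XJet

open FA XJet in
theorem rowJet : OfJet := by
  intro F g ps aa be pr J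
  have hg := J.sg
  have p00 := cj J.jp 0 0 (by norm_num)
  have p10 := cj J.jp 1 0 (by norm_num)
  have p01 := cj J.jp 0 1 (by norm_num)
  have p20 := cj J.jp 2 0 (by norm_num)
  have p02 := cj J.jp 0 2 (by norm_num)
  have a10 := cj J.ja 1 0 (by norm_num)
  have a01 := cj J.ja 0 1 (by norm_num)
  have b10 := cj J.jb 1 0 (by norm_num)
  have b01 := cj J.jb 0 1 (by norm_num)
  have b20 := cj J.jb 2 0 (by norm_num)
  have b02 := cj J.jb 0 2 (by norm_num)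
  have r00 := cj J.jr 0 0 (by norm_num)
  have z10 := J.za 1 0 (by norm_num) (by norm_num)
  have z01 := J.za 0 1 (by norm_num) (by norm_num)
  have z20 := J.za 2 0 (by norm_num) (by norm_num)
  have z11 := J.za 1 1 (by norm_num) (by norm_num)
  have z02 := J.za 0 2 (by norm_num) (by norm_num)
  have zb : ∀ i j, 1 ≤ i + j → i + j ≤ 2 → F.bv (be i j) = 0 := fun i j h h' => by
    rw [← J.ab i j h h', ← F.δ_bv, J.za i j h h', map_zero]
  have e10 := J.e1 1 0 rfl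
  have e01 := J.e1 0 1 rfl
  have e2 := J.e2
  have e3 := J.e3
  have ch := J.ch
  simp only [br, Nat.reduceAdd] at p00 p10 p01 p20 p02 a10 a01 b10 b01 b20 b02 r00 e10 e01 e2 e3
  have sn : ∀ i j, 1 ≤ i + j → i + j ≤ 2 →
      F.δ (F.δ (F.bv (ps i j))) = F.c ^ 2 • F.bv (ps i j) := fun i j h h' => by
    rw [F.δ_bv, F.δ_bv, J.sn i j h h']
  have rb : ∀ i j, i + j ≤ 2 → F.cj (F.bv (ps i j)) = F.bv (ps i j) := fun i j h => by
    rw [F.cj_bv, J.rp i j h]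
  obtain ⟨A1, A2, A3, A4, A5⟩ := van hg a10 a01 z10 z01
  obtain ⟨B1, -, B3, -, B5⟩ := van hg b10 b01 (zb 1 0 (by norm_num) (by norm_num))
    (zb 0 1 (by norm_num) (by norm_num))
  have pt := tan hg p10 p01
  have pL := p20.add p02
  set h := F.am (F.bv (ps 0 1)) with hh
  set u := F.c⁻¹ • F.am (F.bv (ps 2 0 + ps 0 2)) with hu
  set t := ps 1 0 + g * ps 0 1 with ht
  have su : F.S u := ⟨by rw [hu, map_smul, ← am_bv, F.bv_bv], by rw [hu, map_smul, δ_am, smul_zero]⟩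
  have sh : F.S h := ⟨by rw [hh, ← am_bv, F.bv_bv], δ_am _⟩
  have k01 : F.re (F.z * h) = F.bv (ps 0 1) :=
    (sin_eq (rb 0 1 (by norm_num)) (sn 0 1 (by norm_num) (by norm_num))).symm
  have snt : F.δ (F.δ (F.bv t)) = F.c ^ 2 • F.bv t := by
    simp only [ht, map_add, map_mul, hg.1, F.δ_mul, hg.2, zero_mul, zero_add,
      sn 1 0 (by norm_num) (by norm_num), sn 0 1 (by norm_num) (by norm_num), smul_add,
      mul_smul_comm]
  have kt : F.re (F.z * F.am (F.bv t)) = F.bv t :=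
    (sin_eq (by simp only [ht, map_add, map_mul, hg.1, J.rg, rb 1 0 (by norm_num),
      rb 0 1 (by norm_num)]) snt).symm
  have kL : F.re (F.z * F.am (F.bv (ps 2 0 + ps 0 2))) = F.bv (ps 2 0 + ps 0 2) :=
    (sin_eq (by simp only [map_add, rb 2 0 (by norm_num), rb 0 2 (by norm_num)]) (by
      simp only [map_add, sn 2 0 (by norm_num) (by norm_num), sn 0 2 (by norm_num) (by norm_num),
        smul_add])).symm
  have XL : F.X (F.bv (ps 2 0 + ps 0 2)) = F.δ (F.bv t) := by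
    rw [pL.X_bv hg, e10, e01]
    simp [ht, z10, z01, z20, z11, z02, F.δ_mul, hg.1, hg.2, F.δ_bv]
  have Xu : F.X u = F.am (F.bv t) := by
    rw [hu, map_smul, ← am_X, XL, am_δ, snt, sub_self, map_zero, smul_zero, add_zero, smul_smul,
      inv_mul_cancel₀ F.c_ne, one_smul]
  have Xt : F.X (F.bv t) = F.X g * F.bv (ps 0 1) := by
    rw [pt.X_bv hg]
    simp only [map_add, map_mul, map_pow, map_ofNat, hg.1, hg.X.1] at ch ⊢
    linear_combination ch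
  have kX : F.re (F.z * F.X h) = F.X (F.bv (ps 0 1)) := by rw [← X_rez, k01]
  have bX : F.bv (F.X (F.bv (ps 0 1))) = F.X (F.bv (ps 0 1)) := by rw [← F.X_bv, F.bv_bv]
  have IW : F.I (ps 0 2) = ps 0 1 - F.bv (ps 0 1) := p01.1.I_eq
  have TW : F.T (ps 0 2) = ps 1 1 + g * ps 0 2 - F.X (F.bv (ps 0 1)) := p01.T_eq
  have Py : F.py h (ps 0 2) = ps 0 1 := by rw [py, k01, IW]; ring
  have Pq : F.pq h (ps 0 2) = ps 1 1 + g * ps 0 2 := by rw [pq, kX, TW]; ring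
  have Pt : F.pt u h (ps 0 2) = t := by
    rw [FA.pt, Xu, kt, kX, TW, map_sub, pt.1.I_eq, I_of_S bX]; ring
  have Pa : F.pa g h (ps 0 2) = ps 2 0 + 2 * g * ps 1 1 + g ^ 2 * ps 0 2 := by
    rw [pa, ← X_rez, kX, TW, map_sub, pt.T_eq, Xt, T_of_S bX, IW]; ring
  have P0 : F.δ (F.p0 u h (ps 0 2)) = F.bv (ps 2 0 + ps 0 2) + F.I (F.δ (ps 0 1)) := by
    have e : F.I (ps 0 1) = F.y * F.bv (ps 0 1) + F.I (F.I (ps 0 2)) := by
      rw [IW, map_sub, I_of_S (F.bv_bv _)]; ring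
    rw [p0, add_assoc, k01, ← e, map_add, δ_rez su.2, hu, smul_smul, mul_inv_cancel₀ F.c_ne,
      one_smul, kL, F.δ_I]
  have Rp : F.rp u h (aa 0 2) (ps 0 2)
      = ps 2 0 + ps 0 2 - (F.bv (ps 2 0 + ps 0 2) + F.I (F.δ (ps 0 1))) := by
    have e₁ := dy_ext (pt.mul a01).1 (by simp [z01])
    have e₂ := dy_ext (p01.mul a01).dT (bv_T _)
    have e₃ := pL.1.I_eq
    rw [e01] at e₃
    rw [rp, Pt, Pq, Py, A1, A3, e₁, e₂]
    have e₄ : ps 2 0 + ps 0 2 - (F.bv (ps 2 0 + ps 0 2) + F.I (F.δ (ps 0 1)))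
        = F.I (aa 1 0 * ps 0 2 - aa 0 1 * ps 1 1 + (ps 1 0 * aa 0 2 - ps 0 1 * aa 1 1)) := by
      rw [add_assoc, map_add] at e₃
      linear_combination -e₃
    rw [e₄, ← map_sub, ← map_sub, ← map_add, ht]
    congr 1
    ring
  have Xi : F.xi g u h (aa 0 2) (ps 0 2) =
      aa 1 0 * aa 0 2 - aa 0 1 * aa 1 1 + (ps 1 0 * ps 0 2 - ps 0 1 * ps 1 1)
      - g * (aa 1 0 * aa 1 1 - aa 0 1 * aa 2 0 + (ps 1 0 * ps 1 1 - ps 0 1 * ps 2 0))
      + F.T (aa 1 0 * aa 1 1 - aa 0 1 * aa 2 0 + (ps 1 0 * ps 1 1 - ps 0 1 * ps 2 0))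
      - F.bv (ps 1 0 * ps 0 2 - ps 0 1 * ps 1 1 - g * (ps 1 0 * ps 1 1 - ps 0 1 * ps 2 0)) := by
    have qa := quad hg a10 a01
    have qp := quad hg p10 p01
    have T01 : F.T (ps 0 1) = t - F.bv t := by
      rw [p00.T_eq, p00.X_bv hg, ht]; simp [hg.1]
    have gk : Gr g (F.bv (ps 2 0 + ps 0 2) + F.I (F.δ (ps 0 1))) (F.δ t - g * F.δ (ps 0 1))
        (F.δ (ps 0 1)) :=
      ((Gr.cst (F.bv_bv _)).add (Gr.I _)).congr (by rw [XL, ← δ_T, T01, map_sub]; ring) (by ring)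
    have e₁ := dy_ext (((gk.mul pt).1.sub (gk.mul p01).dT).sub
      (Dy.of_bv (a := F.bv (ps 2 0 + ps 0 2) * F.bv t) (by rw [map_mul, F.bv_bv, F.bv_bv])))
      (by simp [F.bv_I, F.bv_bv])
    have e₂ : F.I (t * F.δ (ps 0 1) - ps 0 1 * F.δ t) = _ :=
      (congrArg F.I (by ring)).trans e₁.symm
    have za : F.bv (aa 1 0 * aa 0 2 - aa 0 1 * aa 1 1 - g * (aa 1 0 * aa 1 1 - aa 0 1 * aa 2 0))
        = 0 := by simp [z10, z01]
    have zb' : F.bv (aa 1 0 + g * aa 0 1) = 0 := by simp [z10, z01]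
    rw [za, zb'] at qa
    rw [xi, Rp, Pt, Py, A5, A1, A3, e₂, sub_mul (ps 2 0 + ps 0 2) _ (ps 0 1), map_sub F.T,
      map_add F.T]
    rw [← ht] at qp
    linear_combination -qa - qp
  refine ⟨hg, su, sh, J.rg, J.ra, J.rp 0 2 le_rfl, ?_, J.uA, J.oA, ?_, ?_, ?_, ?_, ?_, J.ul⟩
  · rw [Xu, ← am_X, Xt, am_mul hg.X.2]
  · rw [Pq, Pa, P0, Rp]; ring
  · refine eq_of_δ ?_ ?_
    · have w : Gr g (be 2 0 + be 0 2 - F.I (F.δ (be 0 1))) (be 3 0 + be 1 2 - F.δ (be 1 0))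
          (be 2 1 + be 0 3 - F.δ (be 0 1)) :=
        ((b20.add b02).sub (Gr.I _)).congr (by
          rw [← δ_T, B3]; simp [F.δ_mul, hg.2]) rfl
      have zw : F.bv (be 2 0 + be 0 2 - F.I (F.δ (be 0 1))) = 0 := by
        simp [zb 2 0 (by norm_num) (by norm_num), zb 0 2 (by norm_num) (by norm_num), F.bv_I]
      have l₁ : F.δ (F.lap g (aa 0 2 - F.ev (aa 0 2))
          - F.I (F.I (F.δ (aa 0 2) - F.ev (F.δ (aa 0 2)))))
          = be 2 0 + be 0 2 - F.I (F.δ (be 0 1)) := by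
        rw [map_sub, δ_lap hg, F.δ_I, F.δ_I, map_sub, map_sub, F.δ_ev, F.δ_ev, sub_zero, sub_zero,
          J.ab 0 2 (by norm_num) le_rfl, B5, ← F.δ_I, B1]
      have c2 := congrArg F.bv e2
      have c3 := congrArg F.bv e3
      rw [δ_lap hg, l₁, lap_eq hg w zw, map_sub F.δ, F.δ_ev, sub_zero, F.δ_I, Xi]
      congr 1
      have Tr := r00.T_eq
      rw [r00.X_bv hg] at Tr
      have e2' : be 3 0 + be 1 2 - F.δ (be 1 0) = F.δ (aa 1 0 * aa 1 1 - aa 0 1 * aa 2 0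
          + (ps 1 0 * ps 1 1 - ps 0 1 * ps 2 0)) + pr 0 1 := by linear_combination e2
      have d₁ : F.δ (F.bv (ps 1 0 * ps 0 2 - ps 0 1 * ps 1 1
          - g * (ps 1 0 * ps 1 1 - ps 0 1 * ps 2 0))) = F.bv (pr 1 0) + g * F.bv (pr 0 1) := by
        simp only [map_add, map_sub, ← F.δ_bv, map_mul, z10, z01, zero_mul, map_zero, hg.1,
          J.zb 3 0 rfl, J.zb 1 2 rfl, J.zb 2 1 rfl, J.zb 0 3 rfl,
          zb 1 0 (by norm_num) (by norm_num), zb 0 1 (by norm_num) (by norm_num)] at c2 c3 ⊢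
        rw [F.δ_mul g, hg.2, map_sub]
        linear_combination g * c2 - c3
      rw [e2', e3, map_add F.T, Tr, map_sub F.δ, d₁, map_add F.δ _ (F.T _), δ_T,
        map_sub F.δ _ (g * _), F.δ_mul g, hg.2]
      ring
    · have l0 : F.lap g 0 = 0 := by simp [lap]
      simp only [ev_lap hg, map_sub, F.ev_I, ev_ev, sub_self, map_zero, l0]
  · rw [Pq, Pa, A4, A2, A1]; linear_combination J.eL
  · rw [rho, Pq, Pa, ← J.nul]; congr 1; ring
  · rw [Pq]; convert J.uq using 2; ring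

end Pool.Agent.MP_ed9623_an.R10
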