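import Pool.Agent.MP_ed9623_an.R10.CDefs
import Pool.Agent.MP_ed9623_an.R10.Jet

/-! The Hessian in the frame of the arc, and the tangential derivative on the arc. -/

namespace Pool.Agent.MP_ed9623_an.R10

open FA XJet in
theorem rowJet2 : OfJet2 := by
  intro F g h ps aa be pr J hh
  have hg := J.sg
  have p10 := cj J.jp 1 0 (by norm_num)
  have p01 := cj J.jp 0 1 (by norm_num)
  have p20 := cj J.jp 2 0 (by norm_num)
  have p02 := cj J.jp 0 2 (by norm_num)
  have z10 := J.za 1 0 (by norm_num) (by norm_num)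
  have z01 := J.za 0 1 (by norm_num) (by norm_num)
  have z20 := J.za 2 0 (by norm_num) (by norm_num)
  have z11 := J.za 1 1 (by norm_num) (by norm_num)
  have z02 := J.za 0 2 (by norm_num) (by norm_num)
  have e10 := J.e1 1 0 rfl
  have e01 := J.e1 0 1 rfl
  have ch := J.ch
  simp only [br, Nat.reduceAdd] at p10 p01 p20 p02 e10 e01
  have sn : ∀ i j, 1 ≤ i + j → i + j ≤ 2 →
      F.δ (F.δ (F.bv (ps i j))) = F.c ^ 2 • F.bv (ps i j) := fun i j h h' => by
    rw [F.δ_bv, F.δ_bv, J.sn i j h h']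
  have pt := tan hg p10 p01
  have pL := p20.add p02
  set t := ps 1 0 + g * ps 0 1 with ht
  have k01 : F.re (F.z * h) = F.bv (ps 0 1) := by
    rw [hh]
    exact (sin_eq (by rw [F.cj_bv, J.rp 0 1 (by norm_num)])
      (sn 0 1 (by norm_num) (by norm_num))).symm
  have snt : F.δ (F.δ (F.bv t)) = F.c ^ 2 • F.bv t := by
    simp only [ht, map_add, map_mul, hg.1, F.δ_mul, hg.2, zero_mul, zero_add,
      sn 1 0 (by norm_num) (by norm_num), sn 0 1 (by norm_num) (by norm_num), smul_add,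
      mul_smul_comm]
  have XL : F.X (F.bv (ps 2 0 + ps 0 2)) = F.δ (F.bv t) := by
    rw [pL.X_bv hg, e10, e01]
    simp [ht, z10, z01, z20, z11, z02, F.δ_mul, hg.1, hg.2, F.δ_bv]
  have Xt : F.X (F.bv t) = F.X g * F.bv (ps 0 1) := by
    rw [pt.X_bv hg]
    simp only [map_add, map_mul, map_pow, map_ofNat, hg.1, hg.X.1] at ch ⊢
    linear_combination ch
  have kX : F.re (F.z * F.X h) = F.X (F.bv (ps 0 1)) := by rw [← X_rez, k01]
  have bX : F.bv (F.X (F.bv (ps 0 1))) = F.X (F.bv (ps 0 1)) := by rw [← F.X_bv, F.bv_bv]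
  have IW : F.I (ps 0 2) = ps 0 1 - F.bv (ps 0 1) := p01.1.I_eq
  have TW : F.T (ps 0 2) = ps 1 1 + g * ps 0 2 - F.X (F.bv (ps 0 1)) := p01.T_eq
  refine ⟨by rw [pq, kX, TW]; ring, ?_, ?_⟩
  · rw [pa, ← X_rez, kX, TW, map_sub, pt.T_eq, Xt, T_of_S bX, IW]; ring
  · rw [map_smul, ← am_X, XL, am_δ, snt, sub_self, map_zero, smul_zero, add_zero, smul_smul,
      inv_mul_cancel₀ F.c_ne, one_smul]

end Pool.Agent.MP_ed9623_an.R10
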