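import Pool.Agent.MP_ed9623_an.R10.CDefs
import Pool.Agent.MP_ed9623_an.R10.Base4

/-! The resultant is not flat in a concrete model which reaches below the arc. -/

open Filter Topology Set

namespace Pool.Agent.MP_ed9623_an.R10

open H77 (P Q)
open Mdl

namespace XCRc

theorem outF {M M' : Mdl} {φ : M.R →ₐ[ℂ] M'.R} (H : Hom M M' φ) (h : M.OutF) : M'.OutF := by
  obtain ⟨h1, h2, h3, h4, h5⟩ := h
  refine ⟨H.q ▸ h1.map φ, ?_, ?_, h4.imp (fun u => H.k ▸ u.map φ) fun u => ?_, H.rs ▸ H.Fl h5⟩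
  · rw [← H.l, ← H.q, ← H.wd, h2, map_zero]
  · rw [← H.e, ← H.q, ← H.wd]; exact h3.map φ
  · simpa only [map_sub, map_mul, map_ofNat, H.wd, H.X, H.e, H.q, H.l] using u.map φ

/-- The half boxes below the arc shrink to every point of the arc. -/
theorem shr : Shr fun b => b.e₁ = 0 := by
  intro b hb s hs N hN
  obtain ⟨ε, ε0, hε⟩ := Metric.mem_nhds_iff.1 hN
  have he : b.e₀ < 0 := hb ▸ b.he
  refine ⟨⟨max b.s₀ (s - ε), min b.s₁ (s + ε), max b.e₀ (-(ε / 2)), 0, ?_, ?_, le_rfl, ?_⟩, rfl, ?_⟩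
  · exact (max_lt hs.1 (by linarith)).trans (lt_min hs.2 (by linarith))
  · exact max_le he.le (by linarith)
  · exact max_lt he (by linarith)
  · rintro ⟨x, y⟩ ⟨⟨a1, a2⟩, a3, a4⟩
    simp only [max_lt_iff, lt_min_iff, max_le_iff] at a1 a2 a3 a4
    refine ⟨⟨⟨a1.1, a2.1⟩, a3.1, hb ▸ a4⟩, hε ?_⟩
    rw [Metric.mem_ball, Prod.dist_eq, max_lt_iff, Real.dist_eq, Real.dist_eq, abs_lt, abs_lt]
    exact ⟨⟨by linarith [a1.2], by linarith [a2.2]⟩, by linarith [a3.2], by linarith⟩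

theorem span0 {F : FA} {b : Box} {nn la : P → ℝ} {v : F.R → P → ℂ} (h : Rep F b nn la v)
    {S : Set F.R} {p : P} (hp : p ∈ b.B) (hS : ∀ a ∈ S, v a p = 0) {a : F.R}
    (ha : a ∈ Ideal.span S) : v a p = 0 := by
  induction ha using Submodule.span_induction with
  | mem a ha => exact hS a ha
  | zero => simpa using h.alg 0 p hp
  | add a a' _ _ i i' => rw [h.add _ _ p hp, i, i', add_zero]
  | smul a a' _ i => rw [smul_eq_mul, h.mul _ _ p hp, i, mul_zero]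

end XCRc

theorem rowRc : OfRc := by
  intro mk hom site val rca rs0 rcu D b M v ps aa cm he hF
  let b' : Box := ⟨b.s₀, b.s₁, b.e₀, 0, b.hs, b.h0, le_rfl, he⟩
  have sub : b'.B ⊆ b.B := fun p hp => ⟨hp.1, hp.2.1, hp.2.2.trans b.h1⟩
  obtain ⟨M', v', ps', aa', cm'⟩ := mk D b' (sub.trans cm.sub)
  obtain ⟨φ, H, -⟩ := hom D b b' M M' v v' ps aa ps' aa' cm cm' sub
  obtain ⟨M₂, ⟨b₂, v₂, ps₂, aa₂, e₂, cm₂⟩, n, f, f₁, f₂, f₁₁, f₁₂, f₂₂, c2, hrs, cl⟩ :=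
    rca (Pc D fun b => b.e₁ = 0) (site D _ XCRc.shr)
      (fun M ⟨b, v, ps, aa, e, cm⟩ => let k := (val D b M v ps aa cm).2 e; ⟨k.1, k.2.1⟩)
      M' ⟨b', v', ps', aa', rfl, cm'⟩ (XCRc.outF H hF)
  obtain ⟨p, hp, hp2, hv⟩ := rcu D b₂ M₂ v₂ ps₂ aa₂ cm₂ e₂ n f f₁ f₂ f₁₁ f₁₂ f₂₂ c2 cl
  refine rs0 D b₂ M₂ v₂ ps₂ aa₂ cm₂ e₂ p hp hp2 ?_
  have hB : b₂.B ∈ 𝓝 p := by
    refine mem_of_superset ((isOpen_Ioo.prod isOpen_Ioo).mem_nhds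
      (show p ∈ Ioo b₂.s₀ b₂.s₁ ×ˢ Ioo b₂.e₀ 0 from ⟨hp.1, hp2⟩)) fun q hq => ⟨hq.1, hq.2.1.le, ?_⟩
    rw [e₂]; exact hq.2.2.le
  filter_upwards [hv, hB] with q hq hqB
  exact XCRc.span0 cm₂.rep hqB (by rintro _ ⟨i, rfl⟩; exact hq i) hrs

end Pool.Agent.MP_ed9623_an.R10
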