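import Pool.Agent.MP_ed9623_an.H64.Carl3

/-! Unique continuation for a finite system of differential inequalities. -/

open Filter Topology MeasureTheory Set

namespace Pool.Agent.MP_ed9623_an.R10.XUcN

open H64

variable {ι : Type} [Fintype ι]

theorem absorb (c : ℝ × ℝ) {s β t K C a : ℝ} (hs : 0 < s) (hC : 0 ≤ C) {f : ι → ST → ℝ}
    (hf : ∀ i, ContDiff ℝ (2 : ℕ) (f i)) (hc : ∀ i, HasCompactSupport (f i))
    (sf : ∀ i, ∀ z ∈ tsupport (f i), s ≤ qq c z ∧ qq c z ≤ 13 / 10 * s ∧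
      (6 * s - 2 * β * (z.1 - t)) ^ 2 ≤ K)
    (hb : ∀ z, wt c s β t z ≤ a ∨ ∑ i, Lh (f i) z ^ 2 ≤ C * ∑ i, (f i z ^ 2 + gr (f i) z))
    {z₀ : ST} (hz₀ : a < wt c s β t z₀) (i : ι) : f i z₀ = 0 := by
  have := haar3
  have cf := fun i => (hf i).continuous
  have cL := fun i => ct_Lh (hf i)
  have cg := fun i => ct_gr (hf i)
  let ψ : ι → ST → ℝ := fun i z => min 1 (max 0 (wt c s β t z - a)) * f i z ^ 2
  have cψ : ∀ i, Continuous (ψ i) := fun i => by have := cf i; simp only [ψ]; fun_prop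
  have ψ0 : ∀ i z, 0 ≤ ψ i z := fun i z =>
    mul_nonneg (le_min zero_le_one (le_max_left _ _)) (by positivity)
  have iψ : ∀ i, Integrable (ψ i) volume := fun i =>
    integrable_of_supp (hc i) (cψ i) fun z hz => by simp only [ψ, (zero_off_supp hz).1]; ring
  have iL : ∀ i, Integrable (fun z => Lh (f i) z ^ 2) volume := fun i =>
    integrable_of_supp (hc i) ((cL i).pow 2) fun z hz => by rw [Lh_zero hz]; ring
  have main : ∀ τ : ℝ, 0 ≤ τ → 2 * C ≤ τ * s / 4 →
      2 * C + τ ≤ 4 * τ ^ 3 * s ^ 4 - 64 * τ - 2 * τ ^ 2 * K →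
      τ * ∑ i, ∫ z, ψ i z ≤ 2 * ∑ i, ∫ z, Lh (f i) z ^ 2 := by
    intro τ hτ t1 t2
    have m := fun i => carleman_f c (β := β) (t := t) hs hτ (hf i) (hc i) (sf i)
    generalize 4 * τ ^ 3 * s ^ 4 - 64 * τ - 2 * τ ^ 2 * K = P at *
    have i1 : ∀ i, Integrable (fun z => Real.exp (τ * wt c s β t z) ^ 2 * (τ * s / 4 * gr (f i) z
        + P * f i z ^ 2)) volume := fun i =>
      integrable_of_supp (hc i) (by have := cf i; have := cg i; fun_prop) fun z hz => by
        rw [gr_zero hz, (zero_off_supp hz).1]; ring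
    have i3 : ∀ i, Integrable (fun z => Real.exp (τ * wt c s β t z) ^ 2 * (2 * Lh (f i) z ^ 2))
        volume := fun i => integrable_of_supp (hc i) (by have := cL i; fun_prop) fun z hz => by
      rw [Lh_zero hz]; ring
    have i5 := fun i => (iψ i).const_mul (Real.exp (τ * a) ^ 2 * τ)
    have i6 := fun i => (iL i).const_mul (Real.exp (τ * a) ^ 2 * 2)
    have key : ∀ z, ∑ i, (Real.exp (τ * a) ^ 2 * τ * ψ i z
          + Real.exp (τ * wt c s β t z) ^ 2 * (2 * Lh (f i) z ^ 2))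
        ≤ ∑ i, (Real.exp (τ * wt c s β t z) ^ 2 * (τ * s / 4 * gr (f i) z + P * f i z ^ 2)
          + Real.exp (τ * a) ^ 2 * 2 * Lh (f i) z ^ 2) := by
      intro z
      have h' := hb z
      simp only [ψ, Finset.sum_add_distrib, ← Finset.mul_sum] at h' ⊢
      have hG : 0 ≤ ∑ i, gr (f i) z := Finset.sum_nonneg fun i _ => gr_nonneg _ _
      have hN : 0 ≤ ∑ i, f i z ^ 2 := by positivity
      have hL : 0 ≤ ∑ i, Lh (f i) z ^ 2 := by positivity
      generalize ∑ i, gr (f i) z = G at *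
      generalize ∑ i, f i z ^ 2 = N at *
      generalize ∑ i, Lh (f i) z ^ 2 = L at *
      have hE : 0 ≤ Real.exp (τ * wt c s β t z) ^ 2 := by positivity
      have hA : 0 ≤ Real.exp (τ * a) ^ 2 := by positivity
      by_cases h : wt c s β t z ≤ a
      · have hle : Real.exp (τ * wt c s β t z) ^ 2 ≤ Real.exp (τ * a) ^ 2 :=
          pow_le_pow_left₀ (Real.exp_pos _).le
            (Real.exp_le_exp.2 (mul_le_mul_of_nonneg_left h hτ)) 2
        rw [max_eq_left (by linarith), min_eq_right zero_le_one, zero_mul]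
        have u1 := mul_le_mul_of_nonneg_right hle hL
        have u2 : 0 ≤ Real.exp (τ * wt c s β t z) ^ 2 * (τ * s / 4 * G + P * N) :=
          mul_nonneg hE (add_nonneg (mul_nonneg (by linarith) hG) (mul_nonneg (by linarith) hN))
        linarith
      · have hle : Real.exp (τ * a) ^ 2 ≤ Real.exp (τ * wt c s β t z) ^ 2 :=
          pow_le_pow_left₀ (Real.exp_pos _).le
            (Real.exp_le_exp.2 (mul_le_mul_of_nonneg_left (not_le.1 h).le hτ)) 2
        have hψ : min 1 (max 0 (wt c s β t z - a)) * N ≤ N :=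
          mul_le_of_le_one_left hN (min_le_left _ _)
        have u1 := mul_le_mul_of_nonneg_left (mul_le_mul hle hψ
          (mul_nonneg (le_min zero_le_one (le_max_left _ _)) hN) hE) hτ
        have u2 := mul_le_mul_of_nonneg_left (h'.resolve_left h) hE
        have u3 := mul_nonneg hA hL
        have u4 := mul_nonneg hE (mul_nonneg (sub_nonneg.2 t1) hG)
        have u5 := mul_nonneg hE (mul_nonneg (sub_nonneg.2 t2) hN)
        linarith
    have j1 := fun i => (i5 i).add (i3 i)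
    have j2 := fun i => (i1 i).add (i6 i)
    have := integral_mono (integrable_finsetSum _ fun i _ => j1 i)
      (integrable_finsetSum _ fun i _ => j2 i) key
    rw [integral_finsetSum _ fun i _ => j1 i, integral_finsetSum _ fun i _ => j2 i] at this
    simp only [integral_add' (i5 _) (i3 _), integral_add' (i1 _) (i6 _), integral_const_mul,
      Finset.sum_add_distrib, ← Finset.mul_sum] at this
    have m' := Finset.sum_le_sum fun i (_ : i ∈ Finset.univ) => m i
    refine le_of_mul_le_mul_left ?_ (show 0 < Real.exp (τ * a) ^ 2 by positivity)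
    linarith
  have p0 : ∀ i, 0 ≤ ∫ z, ψ i z := fun i => integral_nonneg (ψ0 i)
  have hz : ∑ i, ∫ z, ψ i z ≤ 0 := by
    by_contra hne
    push Not at hne
    have hs4 : 0 < s ^ 4 := by positivity
    have ev : ∀ᶠ τ : ℝ in atTop, (1 ≤ τ ∧ 8 * C / s ≤ τ) ∧ ((2 * C + 65 + 2 * |K|) / s ^ 4 ≤ τ ∧
        (2 * ∑ i, ∫ z, Lh (f i) z ^ 2) / (∑ i, ∫ z, ψ i z) < τ) :=
      ((eventually_ge_atTop _).and (eventually_ge_atTop _)).and
        ((eventually_ge_atTop _).and (eventually_gt_atTop _))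
    obtain ⟨τ, ⟨h1, h2⟩, h3, h4⟩ := ev.exists
    rw [div_le_iff₀ hs] at h2
    rw [div_le_iff₀ hs4] at h3
    rw [div_lt_iff₀ hne] at h4
    have := main τ (by linarith) (by linarith) (by
      have hK := le_abs_self K
      have hK0 := abs_nonneg K
      have t2 : τ ≤ τ ^ 2 := by nlinarith
      have t3 : 1 ≤ τ ^ 2 := by nlinarith
      have u1 := mul_le_mul_of_nonneg_left h3 (sq_nonneg τ)
      have u2 := mul_le_mul_of_nonneg_left hK (sq_nonneg τ)
      have u3 := mul_le_mul_of_nonneg_left t3 hC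
      have u4 : 0 ≤ τ ^ 3 * s ^ 4 := by positivity
      nlinarith)
    linarith
  have h1 : ∫ z, ψ i z = 0 := le_antisymm
    ((Finset.single_le_sum (fun i _ => p0 i) (Finset.mem_univ i)).trans hz) (p0 i)
  have h0 : ψ i z₀ = 0 := congrFun (((cψ i).ae_eq_iff_eq volume continuous_zero).1
    ((integral_eq_zero_iff_of_nonneg (ψ0 i) (iψ i)).1 h1)) z₀
  have hp : 0 < min 1 (max 0 (wt c s β t z₀ - a)) :=
    lt_min one_pos (lt_max_of_lt_right (by linarith))
  exact pow_eq_zero_iff two_ne_zero |>.1 ((mul_eq_zero.1 h0).resolve_left hp.ne')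

theorem uc_ball (c : ℝ × ℝ) {s C : ℝ} (hs : 0 < s) (hC : 0 ≤ C) {W : ι → ST → ℝ}
    (hW : ∀ z : ST, qq c z < 3 / 2 * s → (∀ i, ContDiffAt ℝ (2 : ℕ) (W i) z) ∧
      ∑ i, Lh (W i) z ^ 2 ≤ C * ∑ i, (W i z ^ 2 + gr (W i) z))
    (h0 : ∀ z : ST, qq c z < s → ∀ i, W i z = 0)
    (z₀ : ST) (hq₀ : qq c z₀ < 11 / 10 * s) (i : ι) : W i z₀ = 0 := by
  set t := z₀.1 with ht
  let T : ST → ℝ := fun z => (z.1 - t) * (z.1 - t)
  have cT : Continuous T := by simp only [T]; fun_prop
  let χ : ST → ℝ := fun z => Real.smoothTransition ((13 / 10 * s - qq c z) / (s / 10))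
    * Real.smoothTransition ((4 - T z) / 3)
  have hχ : ContDiff ℝ (2 : ℕ) χ := by
    simp only [χ, T]
    refine ContDiff.mul (Real.smoothTransition.contDiff.comp ?_)
      (Real.smoothTransition.contDiff.comp ?_) <;> fun_prop
  let K : Set ST := {z | qq c z ≤ 13 / 10 * s ∧ T z ≤ 4}
  have hKc : IsClosed K :=
    (isClosed_le (ct_qq c) continuous_const).inter (isClosed_le cT continuous_const)
  have hTI : ∀ z : ST, T z ≤ 4 → |z.1 - t| ≤ 2 := fun z hz =>
    abs_le_of_sq_le_sq' (by simp only [T] at hz; nlinarith) (by positivity) |> abs_le.2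
  have χ0 : ∀ z, z ∉ K → χ z = 0 := by
    intro z hz
    simp only [K, mem_ofPred_eq, not_and_or, not_le] at hz
    rcases hz with h | h
    · simp only [χ]
      rw [Real.smoothTransition.zero_of_nonpos
        (div_nonpos_of_nonpos_of_nonneg (by linarith) (by positivity)), zero_mul]
    · simp only [χ]
      rw [Real.smoothTransition.zero_of_nonpos (x := (4 - T z) / 3) (by linarith), mul_zero]
  have hK : IsCompact K := by
    refine Metric.isCompact_of_isClosed_isBounded hKc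
      ((Metric.isBounded_closedBall (x := ((t, c) : ST)) (r := 2 * s + 2)).subset fun z hz => ?_)
    have := dist_lt_of_qq (c := c) (z := z) (r := 2 * s + 2) (by positivity) (by nlinarith [hz.1])
    rw [Metric.mem_closedBall, Prod.dist_eq, Real.dist_eq]
    exact max_le (by linarith [hTI z hz.2]) this.le
  have χ1 : ∀ z, qq c z < 12 / 10 * s → T z < 1 → χ z = 1 := by
    intro z h1 h2
    simp only [χ]
    rw [Real.smoothTransition.one_of_one_le, Real.smoothTransition.one_of_one_le, one_mul]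
    · linarith
    · rw [le_div_iff₀ (by positivity)]; linarith
  have off : ∀ i z, z ∉ K → (fun z => χ z * W i z) =ᶠ[𝓝 z] fun _ => 0 := fun i z hz => by
    filter_upwards [hKc.isOpen_compl.mem_nhds hz] with y hy
    rw [χ0 y hy, zero_mul]
  have s1 : ∀ i, ∀ z ∈ tsupport (fun z => χ z * W i z), z ∈ K ∧ s ≤ qq c z := fun i z hz => by
    refine ⟨by_contra fun h => notMem_tsupport_iff_eventuallyEq.2 (off i z h) hz,
      by_contra fun h => notMem_tsupport_iff_eventuallyEq.2 ?_ hz⟩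
    filter_upwards [(isOpen_lt (ct_qq c) continuous_const).mem_nhds (not_le.1 h)] with y hy
    rw [h0 y hy]; simp
  have hT₀ : T z₀ = 0 := by simp only [T, ht]; ring
  have res := absorb c (β := s ^ 2) (t := t) (K := (6 * s + 4 * s ^ 2) ^ 2) (a := 9 / 100 * s ^ 2)
    hs hC (f := fun i z => χ z * W i z) (fun i => contDiff_iff_contDiffAt.2 fun z => ?_)
    (fun i => HasCompactSupport.intro hK fun z hz => (off i z hz).eq_of_nhds)
    (fun i z hz => ⟨(s1 i z hz).2, (s1 i z hz).1.1, ?_⟩) (fun z => ?_) (z₀ := z₀) ?_ i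
  · simpa [χ1 z₀ (by linarith) (by rw [hT₀]; positivity)] using res
  · by_cases hz : z ∈ K
    · exact hχ.contDiffAt.mul ((hW z (by linarith [hz.1])).1 i)
    · exact contDiffAt_const.congr_of_eventuallyEq (off i z hz)
  · obtain ⟨a, b⟩ := abs_le.1 (hTI z (s1 i z hz).1.2)
    have := sq_nonneg s
    exact sq_le_sq' (by nlinarith) (by nlinarith)
  · by_cases hz : z ∈ K ∧ s ≤ qq c z
    swap
    · refine Or.inr ((Finset.sum_eq_zero fun i _ => ?_).trans_le (mul_nonneg hC
        (Finset.sum_nonneg fun i _ => add_nonneg (sq_nonneg _) (gr_nonneg _ _))))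
      rw [Lh_zero fun h => hz (s1 i z h)]; ring
    obtain ⟨hzK, hzs⟩ := hz
    by_cases hin : qq c z < 12 / 10 * s ∧ T z < 1
    · right
      have e1 : ∀ i, (fun z => χ z * W i z) =ᶠ[𝓝 z] W i := fun i => by
        filter_upwards [(isOpen_lt (ct_qq c) continuous_const).mem_nhds hin.1,
          (isOpen_lt cT continuous_const).mem_nhds hin.2] with y hy1 hy2
        rw [χ1 y hy1 hy2, one_mul]
      simp only [Lh_congr (e1 _), gr_congr (e1 _), χ1 z hin.1 hin.2, one_mul]
      exact (hW z (by linarith [hzK.1])).2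
    · left
      have hq := hzK.1
      have hT0 : 0 ≤ T z := mul_self_nonneg _
      change mm c s z * mm c s z - s ^ 2 * T z ≤ _
      unfold mm
      rcases not_and_or.1 hin with h | h
      · have := mul_nonneg (sq_nonneg s) hT0
        nlinarith [not_lt.1 h]
      · have := mul_le_mul_of_nonneg_left (not_lt.1 h) (sq_nonneg s)
        nlinarith
  · unfold wt mm
    rw [← ht, sub_self]
    nlinarith

/-- One step of continuation into the set `L`. -/
theorem step {U L : Set (ℝ × ℝ)} {C : ℝ} (hC : 0 ≤ C) {W : ι → ST → ℝ} {x₀ : ℝ × ℝ}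
    (hU : U ∈ 𝓝 x₀) (hW : ∀ z : ST, z.2 ∈ U → (∀ i, ContDiffAt ℝ (2 : ℕ) (W i) z) ∧
      ∑ i, Lh (W i) z ^ 2 ≤ C * ∑ i, (W i z ^ 2 + gr (W i) z))
    (h0 : ∀ z : ST, z.2 ∈ U → z.2 ∉ L → ∀ i, W i z = 0) (h1 : x₀ ∈ closure L)
    (h2 : x₀ ∈ closure (interior Lᶜ)) : ∃ x ∈ L, ∀ᶠ y in 𝓝 x, ∀ i, W i (0, y) = 0 := by
  obtain ⟨ε, hε, hεU⟩ := Metric.mem_nhds_iff.1 hU
  obtain ⟨c, hc, c1⟩ := Metric.mem_closure_iff.1 h2 (ε / 8) (by positivity)
  obtain ⟨x, hx, c2⟩ := Metric.mem_closure_iff.1 h1 (ε / 8) (by positivity)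
  obtain ⟨r, hr, hrL⟩ := Metric.mem_nhds_iff.1 (mem_interior_iff_mem_nhds.1 hc)
  have lb : ∀ a ∈ (fun y => qq c (0, y)) '' L, r ^ 2 ≤ a := by
    rintro _ ⟨y, hy, rfl⟩
    exact not_lt.1 fun h => hrL (dist_lt_of_qq hr.le h) hy
  have ne : ((fun y => qq c (0, y)) '' L).Nonempty := ⟨_, x, hx, rfl⟩
  have le : ∀ y ∈ L, sInf ((fun y => qq c (0, y)) '' L) ≤ qq c (0, y) := fun y hy =>
    csInf_le ⟨_, lb⟩ ⟨y, hy, rfl⟩
  have s0 := (pow_pos hr 2).trans_le (le_csInf ne lb)
  obtain ⟨_, ⟨y, hy, rfl⟩, lt⟩ := exists_lt_of_csInf_lt ne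
    (show _ < 11 / 10 * sInf ((fun y => qq c (0, y)) '' L) by linarith)
  generalize sInf ((fun y => qq c (0, y)) '' L) = s at *
  have s1 := (le x hx).trans_lt (qq_lt_of_dist (r := ε / 4) 0
    (by linarith [dist_triangle_left x c x₀]))
  have m : ∀ z : ST, qq c z < 3 / 2 * s → z.2 ∈ U := fun z hz => hεU (by
    have := dist_lt_of_qq (c := c) (z := z) (r := ε / 2) (by positivity) (by nlinarith)
    rw [Metric.mem_ball]
    linarith [dist_triangle_right z.2 x₀ c])
  refine ⟨y, hy, ?_⟩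
  filter_upwards [((ct_qq c).comp (Continuous.prodMk_right 0)).continuousAt.eventually
    (eventually_lt_nhds lt)] with w hw
  exact uc_ball c s0 hC (fun z hz => hW z (m z hz))
    (fun z hz => h0 z (m z (by linarith)) fun a => (le _ a).not_gt hz) _ hw

end Pool.Agent.MP_ed9623_an.R10.XUcN
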