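import Pool.Agent.MP_ed9623_an.R10.CDefs
import Pool.Agent.MP_ed9623_an.R10.UcN

/-! Unique continuation for the closed system below the arc. -/

open Filter Topology Set

namespace Pool.Agent.MP_ed9623_an.R10

open H77 (P Q mem_Q)
open H64 (ST pd Lh gr e0 e1 e2 pd_congr_pt)
open R1 (lc)

namespace XCRcU

/-- Extension by zero above the arc. -/
noncomputable def xt (g : P → ℂ) (p : P) : ℂ := if p.2 ≤ 0 then g p else 0

/-- The doubled open box. -/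
def NN (b : Box) (r : ℝ) : Set P := Ioo b.s₀ b.s₁ ×ˢ Ioo b.e₀ r

variable {b : Box} {r : ℝ} {g : P → ℂ} {p : P}

theorem NN_open : IsOpen (NN b r) := isOpen_Ioo.prod isOpen_Ioo

theorem memB (e : b.e₁ = 0) (h : p ∈ NN b r) (l : p.2 ≤ 0) : p ∈ b.B := ⟨h.1, h.2.1.le, e ▸ l⟩

theorem xt_ct (e : b.e₁ = 0) (h : ContinuousOn g b.B) (z : ∀ p ∈ b.B, p.2 = 0 → g p = 0) :
    ContinuousOn (xt g) (NN b r) := by
  refine ContinuousOn.if (fun p hp => ?_) (h.mono fun p hp => memB e hp.1 ?_) continuousOn_const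
  · have k := frontier_le_subset_eq continuous_snd continuous_const hp.2
    exact z p (memB e hp.1 (le_of_eq k)) k
  · exact (isClosed_le continuous_snd continuous_const).closure_subset hp.2

theorem xt_e (e : b.e₁ = 0) (r0 : 0 < r) {g' : P → ℂ} {nn : P → ℝ} (h : ContinuousOn g' b.B)
    (hn : ContinuousOn (fun p => (nn p : ℂ)) b.B) (z : ∀ p ∈ b.B, p.2 = 0 → g' p = 0)
    (i : ∀ p ∈ b.B, g p = Iv nn g' p) (hp : p ∈ NN b r) :
    HasDerivAt (fun t => xt g (p.1, t)) (xt g' p * nn p) p.2 := by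
  have e0 : b.e₀ < 0 := e ▸ b.he
  have c : ContinuousOn (fun t => xt (fun q => g' q * nn q) (p.1, t)) (Ioo b.e₀ r) :=
    (xt_ct (r := r) e (h.mul hn) fun q a l => by simp [z q a l]).comp
      (Continuous.prodMk_right p.1).continuousOn fun t a => ⟨hp.1, a⟩
  have d := intervalIntegral.integral_hasDerivAt_right (a := 0)
    (c.mono (ordConnected_Ioo.uIcc_subset ⟨e0, r0⟩ hp.2)).intervalIntegrable
    (c.stronglyMeasurableAtFilter isOpen_Ioo _ hp.2) (c.continuousAt (isOpen_Ioo.mem_nhds hp.2))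
  refine (d.congr_of_eventuallyEq ?_).congr_deriv (by unfold xt; split_ifs <;> simp)
  filter_upwards [isOpen_Ioo.mem_nhds hp.2] with t ht
  by_cases l : t ≤ 0
  · rw [xt, if_pos l, i _ (memB e (p := (p.1, t)) ⟨hp.1, ht⟩ l), Iv]
    refine intervalIntegral.integral_congr fun u hu => ?_
    rw [uIcc_of_ge l] at hu
    exact (if_pos hu.2).symm
  · rw [xt, if_neg l, intervalIntegral.integral_congr_ae (g := fun _ => 0)
      (Eventually.of_forall fun u hu => ?_), intervalIntegral.integral_zero]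
    rw [uIoc_of_le (not_le.1 l).le] at hu
    exact if_neg (not_le.2 hu.1)

theorem cd_succ {n : ℕ} {U : Set P} (o : IsOpen U) {F F₁ F₂ : P → ℂ}
    (h : ∀ x ∈ U, HasFDerivAt F (lc (F₁ x) (F₂ x)) x) (h₁ : ContDiffOn ℝ n F₁ U)
    (h₂ : ContDiffOn ℝ n F₂ U) : ContDiffOn ℝ (n + 1 : ℕ) F U := fun x hx => by
  refine (contDiffAt_succ_iff_hasFDerivAt.2 ⟨_, ⟨U, o.mem_nhds hx, h⟩, ?_⟩).contDiffWithinAt
  exact (((ContinuousLinearMap.smulRightL ℝ P ℂ _).contDiff.comp_contDiffOn h₁).add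
    ((ContinuousLinearMap.smulRightL ℝ P ℂ _).contDiff.comp_contDiffOn h₂)).contDiffAt
      (o.mem_nhds hx)

theorem pd_lift (L : ℂ →L[ℝ] ℝ) {F : P → ℂ} {u v : ℂ} {z : ST} (h : HasFDerivAt F (lc u v) z.2)
    (e : ST) : pd e (fun y : ST => L (F y.2)) z = e.2.1 * L u + e.2.2 * L v := by
  refine (congrArg (· e) (L.hasFDerivAt.comp z (h.comp z hasFDerivAt_snd)).fderiv).trans ?_
  simp [← Complex.real_smul]

theorem lift (L : ℂ →L[ℝ] ℝ) {U : Set P} (o : IsOpen U) {F F₁ F₂ : P → ℂ} {u v u' v' : ℂ} {z : ST}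
    (hz : z.2 ∈ U) (h : ∀ x ∈ U, HasFDerivAt F (lc (F₁ x) (F₂ x)) x)
    (h₁ : HasFDerivAt F₁ (lc u v) z.2) (h₂ : HasFDerivAt F₂ (lc u' v') z.2) :
    Lh (fun y : ST => L (F y.2)) z = L (u + v') ∧
      gr (fun y : ST => L (F y.2)) z = L (F₁ z.2) ^ 2 + L (F₂ z.2) ^ 2 := by
  have m : ∀ᶠ y : ST in 𝓝 z, y.2 ∈ U := continuous_snd.continuousAt.eventually (o.mem_nhds hz)
  have a : pd e1 (fun y : ST => L (F y.2)) =ᶠ[𝓝 z] fun y => L (F₁ y.2) :=
    m.mono fun y hy => by simp [pd_lift L (h _ hy)]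
  have c : pd e2 (fun y : ST => L (F y.2)) =ᶠ[𝓝 z] fun y => L (F₂ y.2) :=
    m.mono fun y hy => by simp [pd_lift L (h _ hy)]
  rw [Lh, gr, pd_congr_pt e1 a, pd_congr_pt e2 c, pd_lift L h₁, pd_lift L h₂, a.eq_of_nhds,
    c.eq_of_nhds, pd_lift L (h _ hz)]
  simp

/-- The real and the imaginary part. -/
noncomputable def LL : Bool → ℂ →L[ℝ] ℝ := fun b => cond b Complex.reCLM Complex.imCLM

theorem LL_sq (u : ℂ) : ∑ b, LL b u ^ 2 = ‖u‖ ^ 2 := by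
  simp [LL, Complex.sq_norm, Complex.normSq_apply, ← sq]

theorem bnd {F : FA} {nn la : P → ℝ} {v : F.R → P → ℂ} (h : Rep F b nn la v) {S : Set F.R}
    {H : P → ℝ} (H0 : ∀ p, 0 ≤ H p) (hS : ∀ a ∈ S, ∀ p ∈ b.B, ‖v a p‖ ^ 2 ≤ H p) {a : F.R}
    (ha : a ∈ Ideal.span S) : ∃ C, 0 ≤ C ∧ ∀ p ∈ b.B, ‖v a p‖ ^ 2 ≤ C * H p := by
  induction ha using Submodule.span_induction with
  | mem a k => exact ⟨1, zero_le_one, fun p m => by simpa using hS a k p m⟩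
  | zero => exact ⟨0, le_rfl, fun p m => by simpa using h.alg 0 p m⟩
  | add a a' _ _ u w =>
    obtain ⟨C, c, u⟩ := u
    obtain ⟨C', c', w⟩ := w
    refine ⟨2 * C + 2 * C', by positivity, fun p m => ?_⟩
    have := pow_le_pow_left₀ (norm_nonneg _) (norm_add_le (v a p) (v a' p)) 2
    rw [h.add _ _ p m]
    nlinarith [u p m, w p m, sq_nonneg (‖v a p‖ - ‖v a' p‖)]
  | smul s a _ u =>
    obtain ⟨C, c, u⟩ := u
    obtain ⟨T, k, k'⟩ := h.gd s
    obtain ⟨M, hM⟩ := (k' _ k).1.2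
    refine ⟨M ^ 2 * C, by positivity, fun p m => ?_⟩
    rw [smul_eq_mul, h.mul _ _ p m, norm_mul, mul_pow, mul_assoc]
    exact mul_le_mul (pow_le_pow_left₀ (norm_nonneg _) (hM p m) 2) (u p m) (sq_nonneg _)
      (sq_nonneg _)

end XCRcU

open XCRcU in
theorem rowRcU : OfRcU := by
  intro hC D b M v ps aa cm e n f f₁ f₂ f₁₁ f₁₂ f₂₂ h1 h2
  obtain ⟨c1, c2, c3⟩ := hC D
  have R := cm.rep
  have e0 : b.e₀ < 0 := e ▸ b.he
  obtain ⟨s, hs⟩ := nonempty_Ioo.2 b.hs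
  have r0 : 0 < D.r := by simpa using (mem_Q.1 (cm.sub (a := (s, 0)) ⟨hs, b.h0, b.h1⟩)).2
  have sub : NN b D.r ⊆ Q D.r := fun p hp => by
    have := mem_Q.1 (cm.sub (a := (p.1, b.e₀)) ⟨hp.1, le_rfl, b.he.le⟩)
    exact mem_Q.2 ⟨this.1, abs_lt.2 ⟨(abs_lt.1 this.2).1.trans hp.2.1, hp.2.2⟩⟩
  have gc : ∀ {g : P → ℂ}, Gd b.B g → ContinuousOn g b.B := fun ⟨_, k, k'⟩ => (k' _ k).1.1
  have v0 : ∀ p ∈ b.B, v 0 p = 0 := fun p m => by simpa using R.alg 0 p m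
  have z0 : ∀ a, M.bv a = 0 → ∀ p ∈ b.B, p.2 = 0 → v a p = 0 := fun a k p m l => by
    rw [← v0 p m, ← k, R.bv a p m, ← l]
  have op : ∀ N, IsOpen N → N ⊆ Q D.r → IsOpen (D.Ψ '' N) := fun N o k => by
    refine isOpen_iff_mem_nhds.2 ?_
    rintro _ ⟨p, m, rfl⟩
    exact (c2 p (k m)).1 ▸ image_mem_map (o.mem_nhds m)
  have oU := op _ NN_open sub
  let w : M.R → P → ℂ := fun a x => xt (v a) (D.Ξ x)
  have wv : ∀ a, ∀ p ∈ NN b D.r, w a (D.Ψ p) = xt (v a) p := fun a p m => by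
    simp only [w, c1 p (sub m)]
  have ct : ∀ a, M.bv a = 0 → ContinuousOn (xt (v a)) (NN b D.r) := fun a k =>
    xt_ct e (gc (R.gd a)) (z0 a k)
  have wc : ∀ a, M.bv a = 0 → ContDiffOn ℝ (0 : ℕ) (w a) (D.Ψ '' NN b D.r) := fun a k => by
    refine contDiffOn_zero.2 ?_
    rintro _ ⟨p, m, rfl⟩
    exact (ContinuousAt.comp (by
      rw [c1 p (sub m)]; exact (ct a k).continuousAt (NN_open.mem_nhds m))
      (c2 p (sub m)).2).continuousWithinAt
  have wd : ∀ a a₁ a₂, M.Dy a a₂ → M.X a = a₁ + (M.g + M.el) * a₂ → M.bv a = 0 → M.bv a₁ = 0 →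
      M.bv a₂ = 0 → ∀ x ∈ D.Ψ '' NN b D.r, HasFDerivAt (w a) (lc (w a₁ x) (w a₂ x)) x := by
    rintro a a₁ a₂ d x k k₁ k₂ _ ⟨p, m, rfl⟩
    rw [wv _ p m, wv _ p m]
    refine c3 _ _ _ _ NN_open sub (ct _ k₁) (ct _ k₂) (fun q hq => ?_)
      (fun q hq => xt_e e r0 (gc (R.gd _)) (gc R.ch.gn) (z0 _ k₂) (fun q' m' => ?_) hq) p m
    · by_cases l : q.2 ≤ 0
      · have mq := memB e hq l
        simp only [xt, if_pos l]
        refine (R.X a q mq).congr_deriv ?_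
        rw [x, R.add _ _ q mq, R.mul _ _ q mq, cm.lam q mq]
      · simpa [xt, if_neg l] using hasDerivAt_const q.1 (0 : ℂ)
    · rw [← R.I _ q' m']
      exact congrFun (congrArg v (d.trans (by rw [k, zero_add]))) q'
  simp only [List.forall_mem_cons] at h1
  have d0 := fun i => wd _ _ _ (h1 i).1.1 (h1 i).1.2.2.2.1 (h1 i).2.1.2 (h1 i).2.2.1.2
    (h1 i).2.2.2.1.2
  have d1 := fun i => wd _ _ _ (h1 i).1.2.2.1 (h1 i).1.2.2.2.2.2 (h1 i).2.2.1.2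
    (h1 i).2.2.2.2.1.2 (h1 i).2.2.2.2.2.1.2
  have d2 := fun i => wd _ _ _ (h1 i).1.2.1 (h1 i).1.2.2.2.2.1 (h1 i).2.2.2.1.2
    (h1 i).2.2.2.2.2.1.2 (h1 i).2.2.2.2.2.2.1.2
  have cd := fun i => cd_succ oU (d0 i)
    (cd_succ oU (d1 i) (wc _ (h1 i).2.2.2.2.1.2) (wc _ (h1 i).2.2.2.2.2.1.2))
    (cd_succ oU (d2 i) (wc _ (h1 i).2.2.2.2.2.1.2) (wc _ (h1 i).2.2.2.2.2.2.1.2))
  let H : P → ℝ := fun p => ∑ i, (‖v (f i) p‖ ^ 2 + (‖v (f₁ i) p‖ ^ 2 + ‖v (f₂ i) p‖ ^ 2))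
  choose C C0 hC using fun i => bnd R (H := H) (fun p => by positivity) (fun a k p _ => by
    have := fun i => Finset.single_le_sum (f := fun i => ‖v (f i) p‖ ^ 2 + (‖v (f₁ i) p‖ ^ 2
      + ‖v (f₂ i) p‖ ^ 2)) (fun i _ => by positivity) (Finset.mem_univ i)
    rcases k with (⟨i, rfl⟩ | ⟨i, rfl⟩) | ⟨i, rfl⟩ <;> refine le_trans ?_ (this i) <;>
      nlinarith [sq_nonneg ‖v (f i) p‖, sq_nonneg ‖v (f₁ i) p‖, sq_nonneg ‖v (f₂ i) p‖]) (h2 i)
  have m0 : ((s, 0) : P) ∈ NN b D.r := ⟨hs, e0, r0⟩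
  have tn : Tendsto (fun t => D.Ψ (s, t)) (𝓝 0) (𝓝 (D.Ψ (s, 0))) :=
    Tendsto.comp (c2 _ (sub m0)).1.le (Continuous.prodMk_right s).continuousAt
  have ev : ∀ᶠ t in 𝓝 (0 : ℝ), (s, t) ∈ NN b D.r :=
    (Continuous.prodMk_right s).continuousAt.eventually (NN_open.mem_nhds m0)
  obtain ⟨_, ⟨p, m, rfl⟩, k⟩ := XUcN.step (ι := Fin n × Bool) (C := ∑ i, C i)
    (L := D.Ψ '' (NN b D.r ∩ {p | p.2 < 0})) (W := fun j z => LL j.2 (w (f j.1) z.2))
    (Finset.sum_nonneg fun i _ => C0 i) (oU.mem_nhds ⟨_, m0, rfl⟩) (fun z hz => ⟨fun j =>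
      (LL j.2).contDiff.contDiffAt.comp z (((cd j.1).contDiffAt (oU.mem_nhds hz)).comp z
        contDiffAt_snd), by
      have l := fun j : Fin n × Bool => lift (LL j.2) oU hz (d0 j.1) (d1 j.1 _ hz) (d2 j.1 _ hz)
      simp only [(l _).1, (l _).2, Fintype.sum_prod_type, Finset.sum_add_distrib, LL_sq]
      obtain ⟨p, m, e'⟩ := hz
      simp only [← e', wv _ p m, xt]
      split_ifs with l
      · rw [Finset.sum_mul]
        refine Finset.sum_le_sum fun i _ => ?_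
        rw [← R.add _ _ p (memB e m l)]
        simpa only [H, Finset.sum_add_distrib] using hC i p (memB e m l)
      · simp⟩)
    (fun z ⟨p, m, e'⟩ hn j => by
      have l : 0 ≤ p.2 := not_lt.1 fun l => hn ⟨p, ⟨m, l⟩, e'⟩
      simp only [← e', wv _ p m, xt]
      split_ifs with l'
      · rw [z0 _ (h1 _).2.1.2 p (memB e m l') (le_antisymm l' l), map_zero]
      · exact map_zero _)
    (mem_closure_of_frequently_of_tendsto (((frequently_lt_nhds 0).and_eventually ev).mono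
      fun t a => ⟨_, ⟨a.2, a.1⟩, rfl⟩) tn)
    (mem_closure_of_frequently_of_tendsto (((frequently_gt_nhds 0).and_eventually ev).mono
      fun t a => interior_maximal (t := D.Ψ '' (NN b D.r ∩ {p | 0 < p.2})) (by
        rintro _ ⟨p, m, rfl⟩ ⟨q, m', e'⟩
        have := congrArg D.Ξ e'
        rw [c1 p (sub m.1), c1 q (sub m'.1)] at this
        subst this
        exact lt_asymm (show 0 < q.2 from m.2) m'.2) (op _ (NN_open.inter
          (isOpen_lt continuous_const continuous_snd)) fun _ a => sub a.1) ⟨_, ⟨a.2, a.1⟩, rfl⟩) tn)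
  refine ⟨p, memB e m.1 (le_of_lt m.2), ⟨m.1.2.1, m.2⟩, ?_⟩
  rw [← (c2 p (sub m.1)).1, eventually_map] at k
  filter_upwards [k, (NN_open.inter (isOpen_lt continuous_snd continuous_const)).mem_nhds m]
    with q hq mq i
  have a := hq (i, true)
  have a' := hq (i, false)
  simp only [wv _ q mq.1, xt, if_pos (show q.2 ≤ 0 from le_of_lt mq.2)] at a a'
  exact Complex.ext a a'

end Pool.Agent.MP_ed9623_an.R10
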