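import Pool.Agent.MP_ed9623_an.R10.Defs

/-! The algebra of time series over an algebra of functions. -/

open PowerSeries

namespace Pool.Agent.MP_ed9623_an.R10

namespace XCRep

/-- The time independent part of the calculus. -/
structure F0 where
  A : Type
  [cr : CommRing A]
  [al : Algebra ℂ A]
  Z : ℝ → Ideal A
  U : Ideal A
  I : A →ₗ[ℂ] A
  X : A →ₗ[ℂ] A
  bv : A →ₐ[ℂ] A
  cj : A →+* A
  la : A
  nt : (1 : A) ≠ 0
  red : ∀ a : A, a * a = 0 → a = 0
  Z_anti : ∀ m n : ℝ, m ≤ n → Z n ≤ Z m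
  Z_zero : Z 0 = ⊤
  Z_mul : ∀ (m n : ℝ) a b, a ∈ Z m → b ∈ Z n → a * b ∈ Z (m + n)
  Z_I : ∀ (m : ℝ) a, a ∈ Z m → I a ∈ Z (m + 1)
  Z_cj : ∀ (m : ℝ) a, a ∈ Z m → cj a ∈ Z m
  Z_bv : ∀ (m : ℝ) a, 0 < m → a ∈ Z m → bv a = 0
  Z_div : ∀ (m : ℝ) a, I 1 * a ∈ Z (m + 1) → a ∈ Z m
  y_reg : ∀ a, I 1 * a = 0 → a = 0
  I_mul : ∀ a b, I a * I b = I (a * I b + I a * b)
  I_bv : ∀ a b, I (bv a * b) = bv a * I b
  I_inj : ∀ a, I a = 0 → a = 0
  bv_I : ∀ a, bv (I a) = 0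
  bv_bv : ∀ a, bv (bv a) = bv a
  X_mul : ∀ a b, X (a * b) = X a * b + a * X b
  X_I : ∀ a, X (I a) = I (X a + la * a)
  X_bv : ∀ a, X (bv a) = bv (X a)
  cj_cj : ∀ a, cj (cj a) = a
  cj_smul : ∀ (s : ℂ) a, cj (s • a) = (starRingEnd ℂ) s • cj a
  cj_I : ∀ a, cj (I a) = I (cj a)
  cj_X : ∀ a, cj (X a) = X (cj a)
  cj_bv : ∀ a, cj (bv a) = bv (cj a)
  cj_la : cj la = la
  U_I : ∀ a, a ∈ U → I a ∈ U
  U_X : ∀ a, a ∈ U → X a ∈ U
  cst : ∀ a, bv a = a → X a = 0 → ∃ s : ℂ, a = algebraMap ℂ A s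
  dv : ∀ (m : ℝ) a, 0 < m → (∀ k, X^[k] a ∈ Z (m + 1)) → ∃ b, I 1 * b = a
  vq : ∀ (j : ℕ) σ ρ ρ' d, σ * ρ = I 1 ^ j →
    ρ = bv ρ + I ρ' → ρ * d = I (ρ' * d) → bv d = 0 → d = 0
  fu : ∀ (μ m M : ℝ) a, μ < m → I a ∈ U → I a ∈ Z m → I 1 * a - (μ : ℂ) • I a ∈ Z M → I a ∈ Z M
  co : ∀ (θ M : ℝ) a ρ b b₀, 0 < θ → cj ρ = ρ → cj b = b →
    IsUnit b₀ → ρ ∈ Z (1 + θ) → b - b₀ ∈ Z θ → I a ∈ U → ρ * a - b * I a ∈ Z M → I a ∈ Z M

attribute [instance] F0.cr F0.al

section series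

variable {A : Type} [CommRing A] [Algebra ℂ A]

/-- A linear map acts on the coefficients. -/
noncomputable def cm (φ : A →ₗ[ℂ] A) : A⟦X⟧ →ₗ[ℂ] A⟦X⟧ where
  toFun a := PowerSeries.mk fun j => φ (coeff j a)
  map_add' a b := by ext; simp
  map_smul' s a := by ext; simp

@[simp] theorem coeff_cm (φ : A →ₗ[ℂ] A) (a : A⟦X⟧) (j : ℕ) : coeff j (cm φ a) = φ (coeff j a) :=
  coeff_mk j fun j => φ (coeff j a)

@[simp] theorem coeff_ma (φ : A →ₐ[ℂ] A) (a : A⟦X⟧) (j : ℕ) :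
    coeff j (mapAlgHom φ a) = φ (coeff j a) := by rw [mapAlgHom_apply, coeff_map]; rfl

theorem ma_C (φ : A →ₐ[ℂ] A) (a : A) : mapAlgHom φ (C a) = C (φ a) := by
  rw [mapAlgHom_apply, map_C]; rfl

theorem cm_C (φ : A →ₗ[ℂ] A) (a : A) : cm φ (C a) = C (φ a) := by
  ext j; rw [coeff_cm, coeff_C, coeff_C]; split_ifs <;> simp

theorem cm_one (φ : A →ₗ[ℂ] A) : cm φ 1 = C (φ 1) := cm_C φ 1

theorem coeff_it (φ : A →ₗ[ℂ] A) (k : ℕ) (a : A⟦X⟧) (j : ℕ) :
    coeff j ((cm φ)^[k] a) = φ^[k] (coeff j a) := by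
  induction k with
  | zero => rfl
  | succ k ih => rw [Function.iterate_succ_apply', Function.iterate_succ_apply', coeff_cm, ih]

/-- The derivative. -/
noncomputable def dl : A⟦X⟧ →ₗ[ℂ] A⟦X⟧ := (derivative A).toLinearMap.restrictScalars ℂ

@[simp] theorem coeff_dl (a : A⟦X⟧) (j : ℕ) :
    coeff j (dl a) = ((j : ℂ) + 1) • coeff (j + 1) a := by
  rw [Algebra.smul_def, mul_comm, map_add, map_natCast, map_one]
  exact coeff_derivative a j

theorem dl_mul (a b : A⟦X⟧) : dl (a * b) = dl a * b + a * dl b := by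
  have := (derivative A).leibniz a b
  rw [smul_eq_mul, smul_eq_mul, add_comm, mul_comm b] at this
  exact this

theorem dl_C (a : A) : dl (C a) = 0 := derivative_C

theorem succ_ne (j : ℕ) : (j : ℂ) + 1 ≠ 0 := Nat.cast_add_one_ne_zero j

theorem coeff_succ (a : A⟦X⟧) (j : ℕ) : coeff (j + 1) a = ((j : ℂ) + 1)⁻¹ • coeff j (dl a) := by
  rw [coeff_dl, smul_smul, inv_mul_cancel₀ (succ_ne j), one_smul]

theorem cc_it (j : ℕ) (a : A⟦X⟧) : coeff 0 (dl^[j] a) = (j.factorial : ℂ) • coeff j a := by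
  have : ∀ i, coeff i (dl^[j] a) = ((i + j).descFactorial j : ℂ) • coeff (i + j) a := by
    induction j with
    | zero => simp
    | succ j ih =>
      intro i
      rw [Function.iterate_succ_apply', coeff_dl, ih, smul_smul, Nat.descFactorial_succ,
        show i + 1 + j = i + (j + 1) by ring, show i + (j + 1) - j = i + 1 by omega]
      push_cast; rfl
  simpa [Nat.descFactorial_self] using this 0

/-- The value at the base time. -/
noncomputable def evS : A⟦X⟧ →ₐ[ℂ] A⟦X⟧ :=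
  { (C (R := A)).comp constantCoeff with
    commutes' := fun s => by simp [PowerSeries.algebraMap_apply] }

theorem evS_eq (a : A⟦X⟧) : evS a = C (coeff 0 a) := by
  rw [coeff_zero_eq_constantCoeff_apply]; rfl

theorem of_dl {a : A⟦X⟧} (h : dl a = 0) : C (coeff 0 a) = a := by
  ext j
  cases j with
  | zero => simp
  | succ j => rw [coeff_succ a, h, coeff_succ_C]; simp

theorem ex_C {a : A⟦X⟧} (h : dl a = 0) : ∃ b, a = C b := ⟨_, (of_dl h).symm⟩

/-- Series with coefficients in an ideal. -/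
def ci (J : Ideal A) : Ideal A⟦X⟧ where
  carrier := {a | ∀ j, coeff j a ∈ J}
  add_mem' a b j := by rw [map_add]; exact add_mem (a j) (b j)
  zero_mem' j := by simp
  smul_mem' b a h j := by
    rw [smul_eq_mul, coeff_mul]
    exact sum_mem fun p _ => Ideal.mul_mem_left _ _ (h _)

omit [Algebra ℂ A] in
theorem C_mem {J : Ideal A} {a : A} : C a ∈ ci J ↔ a ∈ J :=
  ⟨fun h => by simpa using h 0, fun h j => by rw [coeff_C]; split_ifs; exacts [h, zero_mem _]⟩

theorem smul_mem {J : Ideal A} (s : ℂ) {a : A} (h : a ∈ J) : s • a ∈ J := by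
  rw [Algebra.smul_def]; exact Ideal.mul_mem_left _ _ h

omit [Algebra ℂ A] in
theorem redS (h : ∀ a : A, a * a = 0 → a = 0) (a : A⟦X⟧) (e : a * a = 0) : a = 0 := by
  ext j
  induction j generalizing a with
  | zero => exact h _ (by simpa using congrArg constantCoeff e)
  | succ j ih =>
    obtain ⟨b, rfl⟩ := X_dvd_iff.2 (h _ (by simpa using congrArg constantCoeff e))
    rw [coeff_succ_X_mul]
    refine ih b (X_mul_cancel (X_mul_cancel ?_))
    linear_combination e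

/-- The oscillation. -/
noncomputable def zz (A : Type) [CommRing A] [Algebra ℂ A] (c : ℂ) : A⟦X⟧ :=
  PowerSeries.mk fun j => algebraMap ℂ A (c ^ j / j.factorial)

theorem coeff_zz (c : ℂ) (j : ℕ) : coeff j (zz A c) = (c ^ j / j.factorial) • (1 : A) := by
  rw [zz, coeff_mk, Algebra.algebraMap_eq_smul_one]

theorem dl_zz (c : ℂ) : dl (zz A c) = c • zz A c := by
  ext j
  rw [coeff_dl, coeff_smul, coeff_zz, coeff_zz, smul_smul, smul_smul, Nat.factorial_succ]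
  congr 1
  have := succ_ne j
  have : (j.factorial : ℂ) ≠ 0 := Nat.cast_ne_zero.2 j.factorial_ne_zero
  push_cast
  field_simp
  ring

theorem zz_mul (c : ℂ) : zz A c * zz A (-c) = 1 := by
  rw [← of_dl (a := zz A c * zz A (-c)) (by rw [dl_mul, dl_zz, dl_zz]; simp)]
  simp [zz]

end series

namespace F0

variable (F : F0)

theorem X_one : F.X 1 = 0 := by simpa using F.X_mul 1 1

/-- The algebra of series. -/
noncomputable def ser (c : ℂ) (c0 : c ≠ 0) (cim : (starRingEnd ℂ) c = -c) : FA where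
  R := F.A⟦X⟧
  Z m := ci (F.Z m)
  U := ci F.U
  I := cm F.I
  X := cm F.X
  δ := dl
  ev := evS
  bv := mapAlgHom F.bv
  cj := PowerSeries.map F.cj
  la := C F.la
  z := zz F.A c
  zi := zz F.A (-c)
  c := c
  nt h := F.nt (by simpa using congrArg constantCoeff h)
  red := redS F.red
  Z_anti m n e _ h j := F.Z_anti m n e (h j)
  Z_zero := eq_top_iff.2 fun _ _ _ => F.Z_zero ▸ Submodule.mem_top
  Z_mul m n a b h h' j := by
    rw [coeff_mul]; exact sum_mem fun p _ => F.Z_mul _ _ _ _ (h _) (h' _)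
  Z_I m a h j := by rw [coeff_cm]; exact F.Z_I _ _ (h j)
  Z_δ m a h j := by rw [coeff_dl]; exact smul_mem _ (h _)
  Z_ev m a h := by rw [evS_eq]; exact C_mem.2 (h 0)
  Z_cj m a h j := by rw [coeff_map]; exact F.Z_cj _ _ (h j)
  Z_bv m a e h := by ext j; simpa using F.Z_bv _ _ e (h j)
  Z_div m a h j := F.Z_div _ _ (by simpa [cm_one] using h j)
  y_reg a h := by
    ext j; exact F.y_reg _ (by simpa [cm_one] using congrArg (coeff j) h)
  Z_int m a h j := by
    rw [evS_eq, map_sub]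
    cases j with
    | zero => simp
    | succ j => rw [coeff_succ_C, sub_zero, coeff_succ]; exact smul_mem _ (h j)
  I_mul a b := by
    ext j
    simp only [mul_comm b, coeff_mul, coeff_cm, map_add, map_sum, F.I_mul, Finset.sum_add_distrib]
  I_bv a b := by ext j; simp [coeff_mul, F.I_bv]
  I_inj a h := by ext j; exact F.I_inj _ (by simpa using congrArg (coeff j) h)
  bv_I a := by ext j; simp [F.bv_I]
  bv_bv a := by ext j; simp [F.bv_bv]
  X_mul a b := by ext j; simp [coeff_mul, F.X_mul, Finset.sum_add_distrib]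
  X_I a := by ext j; simp [F.X_I]
  X_bv a := by ext j; simp [F.X_bv]
  δ_mul := dl_mul
  δ_I a := by ext j; simp
  δ_X a := by ext j; simp
  δ_bv a := by ext j; simp
  δ_la := dl_C _
  δ_ev a := by rw [evS_eq, dl_C]
  ev_of a h := by rw [evS_eq, of_dl h]
  ev_I a := by rw [evS_eq, evS_eq, cm_C, coeff_cm]
  ev_X a := by rw [evS_eq, evS_eq, cm_C, coeff_cm]
  ev_bv a := by rw [evS_eq, evS_eq, ma_C, coeff_ma]
  cj_cj a := by ext j; simp [F.cj_cj]
  cj_smul s a := by ext j; simp [F.cj_smul]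
  cj_I a := by ext j; simp [F.cj_I]
  cj_X a := by ext j; simp [F.cj_X]
  cj_δ a := by ext j; simp [F.cj_smul]
  cj_ev a := by simp [evS_eq]
  cj_bv a := by ext j; simp [F.cj_bv]
  cj_la := by simp [F.cj_la]
  z_zi := zz_mul c
  δ_z := dl_zz c
  X_z := by ext j; simp [coeff_zz, F.X_one]
  bv_z := by ext j; simp [coeff_zz]
  ev_z := by simp [evS_eq, zz]
  cj_z := by ext j; simp [coeff_zz, F.cj_smul, cim]
  c_ne := c0
  c_im := cim
  U_I a h j := by rw [coeff_cm]; exact F.U_I _ (h j)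
  U_X a h j := by rw [coeff_cm]; exact F.U_X _ (h j)
  U_ev a h := by rw [evS_eq]; exact C_mem.2 (h 0)
  cst a h d x := by
    obtain ⟨a, rfl⟩ := ex_C d
    rw [ma_C] at h
    rw [cm_C, ← map_zero C] at x
    obtain ⟨s, rfl⟩ := F.cst a (C_injective h) (C_injective x)
    exact ⟨s, PowerSeries.algebraMap_apply.symm⟩
  dv m a e h := by
    choose b hb using fun j => F.dv m (coeff j a) e fun k => coeff_it F.X k a j ▸ h k j
    exact ⟨PowerSeries.mk b, by ext j; simp [cm_one, hb]⟩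
  vq j σ ρ ρ' d h1 h2 h3 h4 e1 e2 e3 e4 := by
    obtain ⟨σ, rfl⟩ := ex_C h1
    obtain ⟨ρ, rfl⟩ := ex_C h2
    obtain ⟨ρ', rfl⟩ := ex_C h3
    obtain ⟨d, rfl⟩ := ex_C h4
    rw [cm_one, ← map_mul, ← map_pow] at e1
    rw [ma_C, cm_C, ← map_add] at e2
    rw [← map_mul, ← map_mul, cm_C] at e3
    rw [ma_C, ← map_zero C] at e4
    rw [F.vq j σ ρ ρ' d (C_injective e1) (C_injective e2) (C_injective e3) (C_injective e4),
      map_zero]
  fu μ m M a e h1 h2 h3 j := by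
    rw [coeff_cm]
    exact F.fu μ m M _ e (by simpa using h1 j) (by simpa using h2 j) (by simpa [cm_one] using h3 j)
  co θ M a ρ b b₀ e h1 h2 h3 r1 r2 u z1 z2 z3 z4 := by
    obtain ⟨a, rfl⟩ := ex_C h1
    obtain ⟨ρ, rfl⟩ := ex_C h2
    obtain ⟨b, rfl⟩ := ex_C h3
    rw [cm_C] at z3 z4 ⊢
    exact C_mem.2 (F.co θ M a ρ b (constantCoeff b₀) e (by simpa using congrArg (coeff 0) r1)
      (by simpa using congrArg (coeff 0) r2) (u.map _) (C_mem.1 z1) (by simpa using z2 0)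
      (C_mem.1 z3) (by simpa using z4 0))

end F0

end XCRep

end Pool.Agent.MP_ed9623_an.R10
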