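import Pool.Agent.MP_ed9623_an.R10.CBase
import Pool.Agent.MP_ed9623_an.R10.CRepA

/-! The algebra of good functions on a box. -/

open Filter Topology Set PowerSeries
open scoped ComplexConjugate

namespace Pool.Agent.MP_ed9623_an.R10

open H77 (P Q)

namespace XCRep

variable {b : Box} {nn la : P → ℝ} {p : P}

open Classical in
/-- Extension by zero. -/
noncomputable def ex (f : b.B → ℂ) (p : P) : ℂ := if h : p ∈ b.B then f ⟨p, h⟩ else 0

theorem ex_of (f : b.B → ℂ) (hp : p ∈ b.B) : ex f p = f ⟨p, hp⟩ := dif_pos hp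

/-- Good functions on the box. -/
def K (b : Box) : Subalgebra ℂ (b.B → ℂ) where
  carrier := {f | Gd b.B (ex f)}
  mul_mem' h h' := (Gd.mul h h').congr fun _ hp => by simp only [ex_of _ hp, Pi.mul_apply]
  add_mem' h h' := (Gd.add h h').congr fun _ hp => by simp only [ex_of _ hp, Pi.add_apply]
  algebraMap_mem' s := (Gd.const s).congr fun _ hp => ex_of _ hp

/-- The value of a good function, and the good function with given values. -/
noncomputable def w (a : K b) : P → ℂ := ex a.1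
def mk (f : P → ℂ) (h : Gd b.B f) : K b := ⟨fun p => f p, h.congr fun _ hp => ex_of _ hp⟩

theorem w_mk {f : P → ℂ} (h : Gd b.B f) (hp : p ∈ b.B) : w (mk f h) p = f p := ex_of _ hp
theorem w_gd (a : K b) : Gd b.B (w a) := a.2
theorem w_cc (a : K b) : Cc b.B (w a) := (w_gd a).cc
theorem w_ext {a a' : K b} (h : ∀ p ∈ b.B, w a p = w a' p) : a = a' :=
  Subtype.ext (funext fun p => by simpa only [w, ex_of _ p.2] using h p p.2)
theorem w_add (a a' : K b) (hp : p ∈ b.B) : w (a + a') p = w a p + w a' p := by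
  simp only [w, ex_of _ hp]; rfl
theorem w_sub (a a' : K b) (hp : p ∈ b.B) : w (a - a') p = w a p - w a' p := by
  simp only [w, ex_of _ hp]; rfl
theorem w_mul (a a' : K b) (hp : p ∈ b.B) : w (a * a') p = w a p * w a' p := by
  simp only [w, ex_of _ hp]; rfl
theorem w_pow (a : K b) (j : ℕ) (hp : p ∈ b.B) : w (a ^ j) p = w a p ^ j := by
  simp only [w, ex_of _ hp]; rfl
theorem w_smul (s : ℂ) (a : K b) (hp : p ∈ b.B) : w (s • a) p = s * w a p := by
  simp only [w, ex_of _ hp]; rfl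
theorem w_alg (s : ℂ) (hp : p ∈ b.B) : w (algebraMap ℂ (K b) s) p = s := ex_of _ hp
theorem w_one (hp : p ∈ b.B) : w (1 : K b) p = 1 := ex_of _ hp
theorem w_zero (hp : p ∈ b.B) : w (0 : K b) p = 0 := ex_of _ hp

noncomputable def xk (a : K b) : K b := mk _ (w_gd a).der.choose_spec.1
theorem xk_dx (a : K b) : Dx b.B (w a) (w (xk a)) :=
  (w_gd a).der.choose_spec.2.congr (fun _ _ => rfl) fun _ => w_mk _
theorem xk_eq {a a' : K b} {f f' : P → ℂ} (d : Dx b.B f f') (e : ∀ p ∈ b.B, w a p = f p)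
    (e' : ∀ p ∈ b.B, w a' p = f' p) : xk a = a' :=
  w_ext fun _ => (xk_dx a).unique (d.congr e e')

/-- The operators. -/
noncomputable def XK (b : Box) : K b →ₗ[ℂ] K b where
  toFun := xk
  map_add' a a' := xk_eq ((xk_dx a).add (xk_dx a')) (fun _ => w_add _ _) fun _ => w_add _ _
  map_smul' s a := xk_eq ((Dx.const s).mul (xk_dx a)) (fun _ => w_smul _ _) fun _ hp => by
    simp [w_smul _ _ hp]

noncomputable def IK (c : Ch b.B nn la) : K b →ₗ[ℂ] K b where
  toFun a := mk _ ((w_gd a).Iv c)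
  map_add' a a' := w_ext fun _ hp => by
    rw [w_add _ _ hp, w_mk _ hp, w_mk _ hp, w_mk _ hp, ← Iv_add c (w_cc a) (w_cc a') hp]
    exact Iv_congr (fun _ => w_add _ _) hp
  map_smul' s a := w_ext fun _ hp => by
    rw [RingHom.id_apply, w_smul _ _ hp, w_mk _ hp, w_mk _ hp, ← Iv_cmul]
    exact Iv_congr (fun _ => w_smul _ _) hp
theorem w_I (c : Ch b.B nn la) (a : K b) (hp : p ∈ b.B) : w (IK c a) p = Iv nn (w a) p :=
  w_mk ((w_gd a).Iv c) hp
theorem w_I' (c : Ch b.B nn la) {a : K b} {f : P → ℂ} (e : ∀ p ∈ b.B, w a p = f p) (hp : p ∈ b.B) :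
    w (IK c a) p = Iv nn f p := (w_I c a hp).trans (Iv_congr e hp)
theorem w_y (c : Ch b.B nn la) (hp : p ∈ b.B) : w (IK c 1) p = Iv nn 1 p := w_I' c (fun _ => w_one) hp

noncomputable def bvK (b : Box) : K b →ₐ[ℂ] K b where
  toFun a := mk _ (w_gd a).bv
  map_one' := w_ext fun _ hp => by rw [w_mk _ hp, w_one hp, w_one (Box.mem0 hp)]
  map_zero' := w_ext fun _ hp => by rw [w_mk _ hp, w_zero hp, w_zero (Box.mem0 hp)]
  map_mul' _ _ := w_ext fun _ hp => by simp only [w_mk _ hp, w_mul _ _ hp, w_mul _ _ (Box.mem0 hp)]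
  map_add' _ _ := w_ext fun _ hp => by simp only [w_mk _ hp, w_add _ _ hp, w_add _ _ (Box.mem0 hp)]
  commutes' _ := w_ext fun _ hp => by rw [w_mk _ hp, w_alg _ hp, w_alg _ (Box.mem0 hp)]
theorem w_bv (a : K b) (hp : p ∈ b.B) : w (bvK b a) p = w a (p.1, 0) := w_mk _ hp

noncomputable def cjK (b : Box) : K b →+* K b where
  toFun a := mk _ (w_gd a).conj
  map_one' := w_ext fun _ hp => by simp only [w_mk _ hp, w_one hp, map_one]
  map_zero' := w_ext fun _ hp => by simp only [w_mk _ hp, w_zero hp, map_zero]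
  map_mul' _ _ := w_ext fun _ hp => by simp only [w_mk _ hp, w_mul _ _ hp, map_mul]
  map_add' _ _ := w_ext fun _ hp => by simp only [w_mk _ hp, w_add _ _ hp, map_add]
theorem w_cj (a : K b) (hp : p ∈ b.B) : w (cjK b a) p = conj (w a p) := w_mk _ hp

def ZK (b : Box) (m : ℝ) : Ideal (K b) where
  carrier := {a | Zc b.B m (w a)}
  add_mem' h h' := (Zc.add h h').congr fun _ => w_add _ _
  zero_mem' := Zc.zero.congr fun _ => w_zero
  smul_mem' a _ h := (Zc.bmul (w_cc a) h).congr fun _ => w_mul _ _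

def UK (b : Box) : Ideal (K b) where
  carrier := {a | Uc b.B (w a)}
  add_mem' h h' p hp e := by rw [w_add _ _ hp, h p hp e, h' p hp e, add_zero]
  zero_mem' _ hp _ := w_zero hp
  smul_mem' a _ h p hp e := by rw [smul_eq_mul, w_mul _ _ hp, h p hp e, mul_zero]

theorem y_ne (c : Ch b.B nn la) (hp : p ∈ b.B) (e : p.2 ≠ 0) : Iv nn 1 p ≠ 0 := by
  obtain ⟨c₀, C, c0, y, hy⟩ := Iv_one c
  rw [(hy p hp).1]
  exact Complex.ofReal_ne_zero.2 (abs_pos.1 ((mul_pos c0 (abs_pos.2 e)).trans_le (hy p hp).2.1))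

theorem lbK {a : K b} (u : IsUnit a) : ∃ c > 0, ∀ p ∈ b.B, c ≤ ‖w a p‖ := by
  obtain ⟨a', e⟩ := u.exists_right_inv
  obtain ⟨M, m0, hM⟩ := (w_cc a').bd
  refine ⟨(M + 1)⁻¹, by positivity, fun p hp => ?_⟩
  have k : ‖w a p‖ * ‖w a' p‖ = 1 := by rw [← norm_mul, ← w_mul _ _ hp, e, w_one hp, norm_one]
  rw [inv_le_iff_one_le_mul₀ (by positivity)]
  nlinarith [hM p hp, norm_nonneg (w a p)]

/-- The calculus of the box. -/
noncomputable def f0 (c : Ch b.B nn la) (fu : FuC) (co : CoC) (vq : VqC) (dv : DvC) : F0 where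
  A := K b
  Z := ZK b
  U := UK b
  I := IK c
  X := XK b
  bv := bvK b
  cj := cjK b
  la := mk _ c.gl
  nt e := by
    obtain ⟨p, hp⟩ := b.ne
    have := w_one hp
    rw [e, w_zero hp] at this
    exact zero_ne_one this
  red a e := w_ext fun p hp => by
    rw [w_zero hp, ← mul_self_eq_zero, ← w_mul _ _ hp, e, w_zero hp]
  Z_anti _ _ e _ h := Zc.le h e
  Z_zero := eq_top_iff.2 fun a _ => (w_cc a).zc le_rfl
  Z_mul _ _ _ _ h h' := (Zc.mul h h').congr fun _ => w_mul _ _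
  Z_I _ a h := (Zc.Iv c h).congr fun _ => w_I c a
  Z_cj _ a h := (Zc.conj h).congr fun _ => w_cj a
  Z_bv _ a e h := w_ext fun _ hp => by rw [w_bv _ hp, w_zero hp, Zc.bv h e hp]
  Z_div _ a h := Zc.div c (w_cc a) (Zc.congr h fun _ hp => by rw [w_mul _ _ hp, w_y c hp])
  y_reg a e := w_ext fun p hp => (w_zero hp).symm ▸ (w_cc a).zero (fun p hp _ z =>
    (mul_eq_zero.1 (by rw [← w_y c hp, ← w_mul _ _ hp, e, w_zero hp])).resolve_left (y_ne c hp z)) p hp
  I_mul a a' := w_ext fun _ hp => by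
    rw [w_mul _ _ hp, w_I c _ hp, w_I c _ hp, Iv_mul c (w_cc a) (w_cc a') hp]
    exact (w_I' c (fun _ hp => by simp only [w_add _ _ hp, w_mul _ _ hp, w_I c _ hp, mul_comm]) hp).symm
  I_bv a a' := w_ext fun _ hp => by
    rw [w_mul _ _ hp, w_I c a' hp, w_bv _ hp, ← Iv_bv fun s => w a (s, 0)]
    exact w_I' c (fun _ hp => by rw [w_mul _ _ hp, w_bv _ hp]) hp
  I_inj a e := w_ext fun p hp => (w_zero hp).symm ▸ Iv_inj c (w_cc a)
    (fun _ hp => by rw [← w_I c a hp, e, w_zero hp]) p hp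
  bv_I a := w_ext fun _ hp => by rw [w_bv _ hp, w_I c _ (Box.mem0 hp), Iv_zero, w_zero hp]
  bv_bv a := w_ext fun _ hp => by rw [w_bv _ hp, w_bv _ (Box.mem0 hp), w_bv _ hp]
  X_mul a a' := xk_eq ((xk_dx a).mul (xk_dx a')) (fun _ => w_mul _ _) fun _ hp => by
    rw [w_add _ _ hp, w_mul _ _ hp, w_mul _ _ hp]; rfl
  X_I a := xk_eq ((xk_dx a).Iv c (w_cc _) (w_cc _)) (fun _ => w_I c a) fun _ =>
    w_I' c fun _ hp => by rw [w_add _ _ hp, w_mul _ _ hp, w_mk _ hp]; rfl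
  X_bv a := xk_eq (xk_dx a).bv (fun _ => w_bv a) fun _ => w_bv _
  cj_cj a := w_ext fun _ hp => by rw [w_cj _ hp, w_cj _ hp, Complex.conj_conj]
  cj_smul s a := w_ext fun _ hp => by rw [w_cj _ hp, w_smul _ _ hp, w_smul _ _ hp, w_cj _ hp, map_mul]
  cj_I a := w_ext fun _ hp => by
    rw [w_cj _ hp, w_I c _ hp, ← Iv_conj]; exact (w_I' c (fun _ => w_cj a) hp).symm
  cj_X a := (xk_eq (xk_dx a).conj (fun _ => w_cj a) fun _ => w_cj _).symm
  cj_bv a := w_ext fun _ hp => by rw [w_cj _ hp, w_bv _ hp, w_bv _ hp, w_cj _ (Box.mem0 hp)]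
  cj_la := w_ext fun _ hp => by rw [w_cj _ hp, w_mk _ hp, Complex.conj_ofReal]
  U_I a h p hp e := by
    rw [w_I c a hp, Iv, intervalIntegral.integral_congr (g := fun _ => 0) fun t ht => ?_,
      intervalIntegral.integral_zero]
    rw [uIcc_of_ge e] at ht
    simp only [h _ (Box.seg hp (Icc_subset_uIcc' ht)) ht.2, zero_mul]
  U_X a h p hp e := (xk_dx a p hp).unique ((hasDerivAt_const p.1 (0 : ℂ)).congr_of_eventuallyEq
    ((Box.ev1 hp).mono fun _ hs => h _ hs e))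
  cst a h x := by
    obtain ⟨q, hq⟩ := b.ne
    refine ⟨w a (q.1, 0), w_ext fun p hp => ?_⟩
    have d : ∀ s ∈ Ioo b.s₀ b.s₁, HasDerivAt (fun s => w a (s, 0)) 0 s := fun s hs => by
      have k : ((s, 0) : P) ∈ b.B := ⟨hs, b.h0, b.h1⟩
      have := xk_dx a _ k
      rwa [show xk a = 0 from x, w_zero k] at this
    rw [w_alg _ hp, ← h, w_bv _ hp, h]
    exact isOpen_Ioo.is_const_of_deriv_eq_zero isPreconnected_Ioo
      (fun s hs => (d s hs).differentiableAt.differentiableWithinAt) (fun s hs => (d s hs).deriv)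
      hp.1 hq.1
  dv m a e h := by
    refine ⟨mk _ (dv b nn la m (fun k => w ((XK b)^[k] a)) c e fun k => ⟨w_cc _, ?_, h k⟩),
      w_ext fun p hp => ?_⟩
    · rw [Function.iterate_succ_apply']; exact xk_dx _
    · rw [w_mul _ _ hp, w_mk _ hp, w_y c hp]
      by_cases z : p.2 = 0
      · have := Zc.bv (h 0) (by linarith) hp
        rw [← z] at this
        simp only [Function.iterate_zero, id] at this ⊢
        rw [this, zero_div, mul_zero]
      · exact mul_div_cancel₀ _ (y_ne c hp z)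
  vq j σ ρ ρ' d e1 e2 e3 e4 := w_ext fun p hp => (w_zero hp).symm ▸
    vq b nn la (w ρ) (w ρ') (w d) c (w_cc _) (w_cc _) (fun p hp z e => pow_ne_zero j (y_ne c hp z)
      (by rw [← w_y c hp, ← w_pow _ _ hp, ← e1, w_mul _ _ hp, e, mul_zero]))
      (fun p hp => by rw [← w_bv _ hp, ← w_I c _ hp, ← w_add _ _ hp, ← e2])
      (fun p hp => by rw [← w_mul _ _ hp, e3]; exact w_I' c (fun _ => w_mul _ _) hp)
      (fun p hp => by rw [← w_bv _ hp, e4, w_zero hp]) p hp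
  fu μ m M a e h1 h2 h3 := (fu b nn la μ m M (w a) c (w_cc a) e
    (fun p hp z => w_I c a hp ▸ h1 p hp z) (Zc.congr h2 fun _ hp => (w_I c a hp).symm)
    (Zc.congr h3 fun _ hp => by
      rw [w_sub _ _ hp, w_mul _ _ hp, w_smul _ _ hp, w_y c hp, w_I c a hp])).congr fun _ => w_I c a
  co θ M a ρ β β₀ e r1 r2 u z1 z2 z3 z4 :=
    let ⟨c₀, c0, l⟩ := lbK u
    (co b nn la θ M c₀ (w a) (w ρ) (w β) (w β₀) c (w_cc _) (w_cc _) (w_cc _) e c0
      (fun _ hp => by rw [← w_cj _ hp, r1]) (fun _ hp => by rw [← w_cj _ hp, r2]) l z1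
      (Zc.congr z2 fun _ hp => (w_sub _ _ hp).symm) (fun p hp z => w_I c a hp ▸ z3 p hp z)
      (Zc.congr z4 fun _ hp => by
        rw [w_sub _ _ hp, w_mul _ _ hp, w_mul _ _ hp, w_I c a hp])).congr fun _ => w_I c a

theorem fac_mem {J : Ideal (K b)} {a : (K b)⟦X⟧} :
    a ∈ ci J ↔ ∀ j, coeff 0 (dl^[j] a) ∈ J := by
  refine forall_congr' fun j => ⟨fun h => cc_it j a ▸ smul_mem _ h, fun h => ?_⟩
  have := smul_mem (j.factorial : ℂ)⁻¹ h
  rwa [cc_it, smul_smul, inv_mul_cancel₀ (Nat.cast_ne_zero.2 j.factorial_ne_zero), one_smul] at this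

end XCRep

open XCRep in
theorem rowRep : OfRep := by
  intro fu co vq dv b nn la c hc c0 cim
  have f : ∀ j : ℕ, (j.factorial : ℂ) ≠ 0 := fun j => Nat.cast_ne_zero.2 j.factorial_ne_zero
  refine ⟨(f0 hc fu co vq dv).ser c c0 cim, fun a : (K b)⟦X⟧ => w (coeff 0 a), ⟨hc, fun _ => w_gd _,
    fun a : (K b)⟦X⟧ => fun h => ?_, fun G h => ?_, fun a a' : (K b)⟦X⟧ => fun p hp => ?_,
    fun a a' : (K b)⟦X⟧ => fun p hp => ?_, fun s p hp => ?_, fun a : (K b)⟦X⟧ => fun p hp => ?_,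
    fun a : (K b)⟦X⟧ => ?_, fun a : (K b)⟦X⟧ => fun p hp => ?_, fun a : (K b)⟦X⟧ => fun p hp => ?_,
    fun a : (K b)⟦X⟧ => fun p hp => ?_, fun p hp => ?_, fun m _ => fac_mem, fun _ => fac_mem⟩, rfl⟩
  · exact PowerSeries.ext fun j =>
      (fac_mem (J := ⊥)).2 (fun j => w_ext fun p hp => (h j p hp).trans (w_zero hp).symm) j
  · refine ⟨PowerSeries.mk fun j => (j.factorial : ℂ)⁻¹ • mk _ (h j), fun j p hp => ?_⟩
    change w (coeff 0 ((dl (A := K b))^[j]
      (PowerSeries.mk fun j => (j.factorial : ℂ)⁻¹ • mk _ (h j)))) p = _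
    rw [cc_it, coeff_mk, smul_smul, mul_inv_cancel₀ (f j), one_smul, w_mk _ hp]
  · change w (coeff 0 (a + a')) p = _
    rw [map_add, w_add _ _ hp]
  · change w (coeff 0 (a * a')) p = _
    simp only [coeff_zero_eq_constantCoeff, map_mul, w_mul _ _ hp]
  · change w (coeff 0 (algebraMap ℂ (K b)⟦X⟧ s)) p = _
    rw [PowerSeries.algebraMap_apply, coeff_zero_C, w_alg _ hp]
  · change w (coeff 0 (cm (IK hc) a)) p = _
    rw [coeff_cm, w_I hc _ hp]
  · change Dx _ _ (w (coeff 0 (cm (XK b) a)))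
    rw [coeff_cm]; exact xk_dx _
  · change w (coeff 0 (evS a)) p = _
    rw [evS_eq, coeff_zero_C]
  · change w (coeff 0 (mapAlgHom (bvK b) a)) p = _
    rw [coeff_ma, w_bv _ hp]
  · change w (coeff 0 (PowerSeries.map (cjK b) a)) p = _
    rw [coeff_map, w_cj _ hp]
  · change w (coeff 0 (C (mk _ hc.gl))) p = _
    rw [coeff_zero_C, w_mk _ hp]

end Pool.Agent.MP_ed9623_an.R10
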