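import Pool.Agent.MP_ed9623_an.R10.CDefs

/-! The resultant does not vanish identically below the arc. -/

open Filter Topology Set
open scoped ComplexConjugate

namespace Pool.Agent.MP_ed9623_an.R10

open H77 (P Q)
open R1 (cz ex hz CzS)

namespace XCRs0

/-- The value at a point of the box, as a ring homomorphism. -/
noncomputable def vh {F : FA} {b : Box} {nn la : P → ℝ} {v : F.R → P → ℂ} (h : Rep F b nn la v)
    {p : P} (hp : p ∈ b.B) : F.R →+* ℂ where
  toFun a := v a p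
  map_one' := by simpa using h.alg 1 p hp
  map_zero' := by simpa using h.alg 0 p hp
  map_mul' a a' := h.mul a a' p hp
  map_add' a a' := h.add a a' p hp

theorem res_val {F : FA} {b : Box} {nn la : P → ℝ} {v : F.R → P → ℂ} (h : Rep F b nn la v)
    {p : P} (hp : p ∈ b.B) (a c e a' c' e' : F.R) : v (F.res a c e a' c' e') p
      = (v a p * v e' p - v a' p * v e p) ^ 2
        - 4 * (v a p * v c' p - v a' p * v c p) * (v c p * v e' p - v c' p * v e p) := by
  have k : vh h hp (F.res a c e a' c' e') = (vh h hp a * vh h hp e' - vh h hp a' * vh h hp e) ^ 2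
      - 4 * (vh h hp a * vh h hp c' - vh h hp a' * vh h hp c)
        * (vh h hp c * vh h hp e' - vh h hp c' * vh h hp e) := by
    simp only [FA.res, map_sub, map_mul, map_pow, map_ofNat]
  exact k

/-- A common root of a complex form and of its conjugate is real if the real part has real
roots. -/
theorem alg {A B C : ℂ} {g l m w : ℝ} (hw : w ≠ 0) (a1 : A.re = -l * w) (a2 : C.re = -m * w)
    (a3 : 2 * B.re = (1 + l * m) * w)
    (h : ((A + 2 * g * B + g ^ 2 * C) * conj C - conj (A + 2 * g * B + g ^ 2 * C) * C) ^ 2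
      - 4 * ((A + 2 * g * B + g ^ 2 * C) * conj (B + g * C)
        - conj (A + 2 * g * B + g ^ 2 * C) * (B + g * C))
        * ((B + g * C) * conj C - conj (B + g * C) * C) = 0) :
    A + 2 * l * B + l ^ 2 * C = 0 ∨ m ^ 2 * A + 2 * m * B + C = 0 := by
  have k : (A * conj C - conj A * C) ^ 2 - 4 * (A * conj B - conj A * B) * (B * conj C - conj B * C)
      = 0 := by
    simp only [map_add, map_mul, map_pow, Complex.conj_ofReal, map_ofNat] at h
    linear_combination h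
  have d : ∀ X Y : ℂ, X * conj Y - conj X * Y = ((2 * (X.im * Y.re - X.re * Y.im) : ℝ) : ℂ)
      * Complex.I := fun X Y => by
    apply Complex.ext <;> simp <;> ring
  rw [d, d, d] at k
  have k' : (A.im * C.re - A.re * C.im) ^ 2
      - 4 * (A.im * B.re - A.re * B.im) * (B.im * C.re - B.re * C.im) = 0 := by
    have e : (((A.im * C.re - A.re * C.im) ^ 2
        - 4 * (A.im * B.re - A.re * B.im) * (B.im * C.re - B.re * C.im) : ℝ) : ℂ) = 0 := by
      push_cast at k ⊢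
      linear_combination (-1 / 4 : ℂ) * k + ((A.im * C.re - A.re * C.im : ℂ) ^ 2
        - 4 * (A.im * B.re - A.re * B.im) * (B.im * C.re - B.re * C.im)) * Complex.I_sq
    exact_mod_cast e
  have b : B.re = (1 + l * m) * w / 2 := by linarith
  rw [a1, a2, b] at k'
  have f : w ^ 2 * ((A.im + 2 * l * B.im + l ^ 2 * C.im) * (m ^ 2 * A.im + 2 * m * B.im + C.im))
      = 0 := by linear_combination k'
  rcases mul_eq_zero.1 ((mul_eq_zero.1 f).resolve_left (pow_ne_zero 2 hw)) with f | f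
  · left
    apply Complex.ext
    · simp [← Complex.ofReal_pow, a1, a2, b]; ring
    · simpa [← Complex.ofReal_pow] using f
  · right
    apply Complex.ext
    · simp [← Complex.ofReal_pow, a1, a2, b]; ring
    · simpa [← Complex.ofReal_pow] using f

end XCRs0

open XCRs0 in
theorem rowRs0 : OfRs0 := by
  intro hcz hcart hval D b M v ps aa cm e1 p hp hp2 hev
  have l0 := D.h.lx.l0
  have zz : ∀ q ∈ b.B, q.2 < 0 → D.Ψ q ∈ D.O ∩ D.Z := fun q hq h0 =>
    ⟨D.h.sub (D.h.out.mp q (cm.sub hq)), D.h.low q (cm.sub hq) h0⟩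
  refine D.h.lx.res _ (zz p hp hp2.2) ?_
  rw [← ((hcart D).2.1 p (cm.sub hp)).1, eventually_map]
  have nb : ∀ᶠ q in 𝓝 p, q ∈ Ioo b.s₀ b.s₁ ×ˢ Ioo b.e₀ 0 :=
    (isOpen_Ioo.prod isOpen_Ioo).mem_nhds ⟨hp.1, hp2⟩
  filter_upwards [hev, nb] with q h0 hq
  have qB : q ∈ b.B := ⟨hq.1, hq.2.1.le, hq.2.2.le.trans b.h1⟩
  have qa : D.Ψ q ∈ Q D.a := D.h.out.mp q (cm.sub qB)
  have qc : D.Ψ q ∈ D.O ∩ closure D.Z := ⟨(zz q qB hq.2.2).1, subset_closure (zz q qB hq.2.2).2⟩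
  obtain ⟨hv, hv'⟩ := hval D b M v ps aa cm
  obtain ⟨-, -, hv''⟩ := hv' e1
  obtain ⟨v1, v2, v3⟩ := hv'' q qB
  have vg := (hv q qB).1
  rw [Mdl.rs, res_val cm.rep qB, cm.rep.cj _ q qB, cm.rep.cj _ q qB, cm.rep.cj _ q qB, v1, v2, v3,
    vg] at h0
  have re : ∀ x y, x + y = 2 → (D.E * cz D.n D.ps x y (D.Ψ q)).re = D.ps' 0 x y (D.Ψ q) :=
    fun x y e => by
      have s : D.ps' 0 x y = D.ps D.t 0 x y := (D.h.sa (.ps 0) x y).1 (by simp [R46.Ix.ord, e])
      rw [s, hcz _ _ _ _ _ _ l0 D.t 0 x y (Or.inr e) _ qc]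
      rfl
  obtain ⟨w, -, sq, -, -, s1, -, -⟩ := D.h.nu.alg qa
  have a1 : D.ps' 0 2 0 (D.Ψ q) = -D.l (D.Ψ q) * (D.ps' 0 1 1 (D.Ψ q) + D.s (D.Ψ q)) := by
    rw [D.h.nu.hl _ qa]; field_simp
  have a2 : D.ps' 0 0 2 (D.Ψ q) = -D.m (D.Ψ q) * (D.ps' 0 1 1 (D.Ψ q) + D.s (D.Ψ q)) := by
    rw [D.h.nu.hm _ qa]; field_simp
  have a3 : 2 * D.ps' 0 1 1 (D.Ψ q) = (1 + D.l (D.Ψ q) * D.m (D.Ψ q))
      * (D.ps' 0 1 1 (D.Ψ q) + D.s (D.Ψ q)) := by linear_combination s1 - D.l (D.Ψ q) * a2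
  have key := alg (A := D.E * cz D.n D.ps 2 0 (D.Ψ q)) (B := D.E * cz D.n D.ps 1 1 (D.Ψ q))
    (C := D.E * cz D.n D.ps 0 2 (D.Ψ q)) (g := D.l (D.Ψ (q.1, 0))) w
    ((re 2 0 rfl).trans a1) ((re 0 2 rfl).trans a2) (by rw [re 1 1 rfl]; exact a3) (by
      rw [← h0]
      simp only [map_add, map_mul, map_pow, Complex.conj_ofReal, map_ofNat]
      ring)
  have fin : ∀ e : P, D.E * hz D.n D.ps e e (D.Ψ q) = 0 →
      ∀ t, R77.hs (D.ps t 0) e e (D.Ψ q) = 0 := fun e he t => by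
    rw [R1.hs_eq hcz l0 qc, (mul_eq_zero.1 he).resolve_left (R1.ex_ne _ _)]
    simp
  rcases key with k | k
  · refine ⟨(1, D.l (D.Ψ q)), by simp, fin _ ?_⟩
    simp only [hz]
    push_cast
    linear_combination k
  · refine ⟨(D.m (D.Ψ q), 1), by simp, fin _ ?_⟩
    simp only [hz]
    push_cast
    linear_combination k

end Pool.Agent.MP_ed9623_an.R10
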