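import Pool.Agent.MP_ed9623_an.R10.CDefs
import Pool.Agent.MP_ed9623_an.R10.Base4

/-! The values of the Cauchy data, and the half box below the arc. -/

open Filter Topology Set
open scoped ComplexConjugate

namespace Pool.Agent.MP_ed9623_an.R10

open H77 (P Q)
open R46 (Ix)
open R1 (cz ex CzS ex_succ)
open FA

namespace XCVal

theorem base {b : Box} {p : P} (h : p ∈ b.B) : ((p.1, 0) : P) ∈ b.B := ⟨h.1, b.h0, b.h1⟩

/-- Below the arc the chart takes its values in the closure of the zone. -/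
theorem clo (D : Dat) {p : P} (h : p ∈ Q D.r) (e : p.2 ≤ 0) : D.Ψ p ∈ D.O ∩ closure D.Z := by
  refine ⟨D.h.sub (D.h.out.mp p h), ?_⟩
  rcases e.lt_or_eq with e | e
  · exact subset_closure (D.h.low p h e)
  · have c : ContinuousAt D.Ψ p :=
      continuousAt_fst.prodMk (D.h.out.cY.fd p h).continuousAt
    have t : Tendsto (fun s : ℝ => ((p.1, s) : P)) (𝓝[<] 0) (𝓝 p) := by
      have : Tendsto (fun s : ℝ => ((p.1, s) : P)) (𝓝 0) (𝓝 (p.1, 0)) :=
        (Continuous.prodMk_right p.1).tendsto 0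
      rw [← e] at this
      rw [← e]
      exact this.mono_left nhdsWithin_le_nhds
    refine mem_closure_of_tendsto (c.tendsto.comp t) ?_
    have o : IsOpen (Q D.r) := isOpen_Ioo.prod isOpen_Ioo
    filter_upwards [t.eventually (o.mem_nhds h), self_mem_nhdsWithin] with s a b
    exact D.h.low (p.1, s) a b

section rep

variable {F : FA} {b : Box} {nn la : P → ℝ} {v : F.R → P → ℂ} {p : P}

theorem v_smul (R : Rep F b nn la v) (s : ℂ) (a : F.R) (h : p ∈ b.B) :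
    v (s • a) p = s * v a p := by rw [Algebra.smul_def, R.mul _ _ p h, R.alg _ p h]

theorem v_sub (R : Rep F b nn la v) (a a' : F.R) (h : p ∈ b.B) :
    v (a - a') p = v a p - v a' p := by
  have := R.add (a - a') a' p h
  rw [sub_add_cancel] at this
  rw [this]; ring

theorem v_am (R : Rep F b nn la v) (a : F.R) (h : p ∈ b.B) :
    v (F.am a) p = v a p + F.c⁻¹ * v (F.δ a) p := by
  rw [am_eq, R.add _ _ p h, v_smul R _ _ h, R.ev _ p h, R.ev _ p h]

theorem v_amb (R : Rep F b nn la v) (a : F.R) (h : p ∈ b.B) :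
    v (F.am (F.bv a)) p = v (F.am a) (p.1, 0) := by rw [am_bv, R.bv _ p h]

theorem it_lin (j : ℕ) (s : ℂ) (a a' : F.R) :
    F.δ^[j] (a - s • a') = F.δ^[j] a - s • F.δ^[j] a' := by
  simp only [← Module.End.pow_apply, map_sub, map_smul]

end rep

theorem re_am {n : ℝ} (h : 0 < n) (w : ℂ) :
    (w.re : ℂ) + (Complex.I * √n)⁻¹ * ((Complex.I * √n * w).re : ℝ) = w := by
  have k : ((√n : ℝ) : ℂ) ≠ 0 := by exact_mod_cast (Real.sqrt_pos.2 h).ne'
  have e : (Complex.I * √n * w).re = -(√n * w.im) := by simp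
  rw [e, mul_inv, Complex.inv_I]
  push_cast
  field_simp
  linear_combination Complex.re_add_im w

theorem re_sq (n : ℝ) (w : ℂ) :
    (((Complex.I * √n * (Complex.I * √n * w)).re : ℝ) : ℂ) = (Complex.I * √n) ^ 2 * w.re := by
  have e : Complex.I * √n * (Complex.I * √n * w) = ((-(√n * √n) : ℝ) : ℂ) * w := by
    push_cast; linear_combination (√n : ℂ) ^ 2 * w * Complex.I_mul_I
  rw [e, Complex.re_ofReal_mul]
  push_cast; linear_combination -(√n : ℂ) ^ 2 * w.re * Complex.I_mul_I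

section cm

variable {D : Dat} {b : Box} {M : Mdl} {v : M.R → P → ℂ} {ps aa : ℕ → ℕ → M.R} {p : P}

theorem v_ps (hz : CzS) (C : Cm D b M v ps aa) (j : ℕ) {x y : ℕ} (e : x + y = 1 ∨ x + y = 2)
    (h : p ∈ b.B) (l : p.2 ≤ 0) :
    v (M.δ^[j] (ps x y)) p = ((ex D.n D.t j * cz D.n D.ps x y (D.Ψ p)).re : ℝ) := by
  have s : D.ps' j x y = D.ps D.t j x y :=
    (D.h.sa (Ix.ps j) x y).1 (by simp only [Ix.ord]; omega)
  rw [C.vp j x y (by omega) p h, s,
    hz _ _ _ _ _ _ D.h.lx.l0 D.t j x y e _ (clo D (C.sub h) l)]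

theorem v_am_ps (hz : CzS) (C : Cm D b M v ps aa) {x y : ℕ} (e : x + y = 1 ∨ x + y = 2)
    (h : p ∈ b.B) (l : p.2 ≤ 0) : v (M.am (ps x y)) p = D.E * cz D.n D.ps x y (D.Ψ p) := by
  have a := v_ps hz C 0 e h l
  have a' := v_ps hz C 1 e h l
  rw [Function.iterate_zero_apply] at a
  rw [Function.iterate_one, ex_succ, mul_assoc] at a'
  rw [v_am C.rep _ h, a, a', C.c]
  exact re_am D.h.lx.n0 _

theorem v_g (C : Cm D b M v ps aa) (h : p ∈ b.B) : v M.g p = D.l (D.Ψ (p.1, 0)) := by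
  have e : M.g = M.bv (M.g + M.el) := by rw [map_add, bv_el, M.Sg.1, add_zero]
  rw [e, C.rep.bv _ p h, C.lam _ (base h)]

end cm

end XCVal

open XCVal in
theorem rowVal : OfVal := by
  intro hz j2 van D b M v ps aa C
  obtain ⟨be, pr, J⟩ := C.jt
  obtain ⟨e₁, e₂, e₃⟩ := j2 M.toFA M.g M.h ps aa be pr J C.hh
  have R := C.rep
  have dg := M.Sg.2
  refine ⟨fun p h => ⟨v_g C h, ?_, ?_, ?_⟩, fun e0 => ?_⟩
  · rw [C.hh, v_amb R _ h, v_am_ps hz C (Or.inl rfl) (base h) le_rfl]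
  · rw [C.hu, v_smul R _ _ h, v_amb R _ h, am_add, R.add _ _ _ (base h),
      v_am_ps hz C (Or.inr rfl) (base h) le_rfl, v_am_ps hz C (Or.inr rfl) (base h) le_rfl,
      mul_inv_cancel_left₀ M.c_ne]
    ring
  · rw [Mdl.u1, C.hu, e₃, v_amb R _ h, am_add, am_mul dg, R.add _ _ _ (base h),
      R.mul _ _ _ (base h), v_g C (base h), v_am_ps hz C (Or.inl rfl) (base h) le_rfl,
      v_am_ps hz C (Or.inl rfl) (base h) le_rfl]
    ring
  have lo : ∀ p ∈ b.B, p.2 ≤ 0 := fun p h => e0 ▸ h.2.2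
  have uq : M.Uq = M.am (ps 1 1) + M.g * M.am (ps 0 2) := by
    rw [← am_mul dg, ← am_add, ← e₁, ← C.hW, M.pq_eq, am_add, am_T, M.am_Ph, map_zero, add_zero,
      am_rez M.δ_Uq]
  have ua : M.Ua = M.am (ps 2 0) + (M.g * M.am (ps 1 1) + M.g * M.am (ps 1 1))
      + M.g * (M.g * M.am (ps 0 2)) := by
    have e : M.pa M.g M.h M.W
        = ps 2 0 + (M.g * ps 1 1 + M.g * ps 1 1) + M.g * (M.g * ps 0 2) := by
      rw [C.hW, e₂]; ring
    simp only [← am_mul dg, ← am_add]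
    rw [← e, M.pa_eq, am_add, am_sub, am_mul M.Sk.2, am_I, am_T, am_T, M.am_Ph, am_rez M.δ_Ua]
    simp
  refine ⟨?_, ?_, fun p h => ⟨?_, ?_, ?_⟩⟩
  · refine R.ext _ fun j p h => ?_
    rw [C.hA, C.va j 0 2 le_rfl p h, (van D).1 j 0 2 (by norm_num) (by cases j <;> simp [Ix.ord]) p
      (C.sub h) (lo p h), Complex.ofReal_zero]
  · refine sub_eq_zero.2 (sin_eq M.sys.rW (sub_eq_zero.1 (R.ext _ fun j p h => ?_)))
    have a := v_ps hz C (j + 2) (x := 0) (y := 2) (Or.inr rfl) h (lo p h)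
    rw [Function.iterate_succ_apply, Function.iterate_succ_apply, ex_succ, ex_succ, mul_assoc,
      mul_assoc _ (ex _ _ _), re_sq] at a
    rw [it_lin, v_sub R _ _ h, v_smul R _ _ h, C.hW, a, v_ps hz C j (Or.inr rfl) h (lo p h), C.c,
      sub_self]
  · rw [Mdl.V, C.hW, v_am_ps hz C (Or.inr rfl) h (lo p h)]
  · rw [uq, R.add _ _ p h, R.mul _ _ p h, v_am_ps hz C (Or.inr rfl) h (lo p h),
      v_am_ps hz C (Or.inr rfl) h (lo p h)]
    ring
  · rw [ua, R.add _ _ p h, R.add _ _ p h, R.add _ _ p h, R.mul _ _ p h, R.mul _ _ p h,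
      R.mul _ _ p h, v_am_ps hz C (Or.inr rfl) h (lo p h), v_am_ps hz C (Or.inr rfl) h (lo p h),
      v_am_ps hz C (Or.inr rfl) h (lo p h)]
    ring

end Pool.Agent.MP_ed9623_an.R10
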