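import Pool.Agent.MP_ed9623_an.R10.CBase

/-! The quotient rule and the division by the height. -/

open Filter Topology Set

namespace Pool.Agent.MP_ed9623_an.R10

open H77 (P Q)

namespace XCVq

variable {b : Box} {nn la : P → ℝ} {f g : P → ℂ} {m n : ℝ}

theorem vq : VqC := by
  intro b nn la ρ ρ' d c h₁ h₂ ne e₁ e₂ z p hp
  have d₁ := De.of_eq c h₁ e₁
  have d₂ : De b (fun p => ρ p * d p) fun p => ρ' p * d p * nn p :=
    (Iv_de c (h₁.mul h₂)).congr e₂ fun _ _ => rfl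
  have := intervalIntegral.integral_eq_sub_of_hasDeriv_right (f := fun t => d (p.1, t))
    (f' := fun _ => 0) ((h₂.sl hp).mono (Box.usub hp)) (fun t ht => ?_) intervalIntegrable_const
  · simpa [z p hp] using this.symm
  have e : t ∈ Ioo b.e₀ b.e₁ := ⟨(le_min b.h0 hp.2.1).trans_lt ht.1,
    ht.2.trans_le (max_le b.h1 hp.2.2)⟩
  have t0 : t ≠ 0 := by
    rintro rfl
    have a := ht.1
    have a' := ht.2
    simp only [min_lt_iff, lt_max_iff, lt_irrefl, false_or] at a a'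
    exact lt_asymm a a'
  have k := Box.mem2 hp (Ioo_subset_Icc_self e)
  refine HasDerivAt.hasDerivWithinAt (HasDerivAt.congr_deriv
    (((d₂ _ k e).div (d₁ _ k e) (ne _ k t0)).congr_of_eventuallyEq ?_) (by ring))
  filter_upwards [Icc_mem_nhds e.1 e.2, isOpen_ne.mem_nhds t0] with u hu u0
  exact (mul_div_cancel_left₀ _ (ne _ (Box.mem2 hp hu) u0)).symm

/-- All derivatives in the first variable have order `n`. -/
def T (B : Set P) (n : ℝ) (g : P → ℂ) : Prop :=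
  ∃ S : Set (P → ℂ), g ∈ S ∧ ∀ h ∈ S, Cc B h ∧ Zc B n h ∧ ∃ h' ∈ S, Dx B h h'

theorem T.der {B : Set P} (h : T B n g) : Cc B g ∧ Zc B n g ∧ ∃ g', T B n g' ∧ Dx B g g' :=
  let ⟨S, a, k⟩ := h
  let ⟨u, v, g', a', d⟩ := k g a
  ⟨u, v, g', ⟨S, a', k⟩, d⟩

theorem T.sum (h : f ∈ AddSubmonoid.closure {x | ∃ g g', T b.B m g ∧ T b.B n g' ∧ x = g * g'}) :
    T b.B (m + n) f := by
  refine ⟨_, h, fun g hg => ?_⟩
  induction hg using AddSubmonoid.closure_induction with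
  | mem x hx =>
    obtain ⟨g, g', a, a', rfl⟩ := hx
    obtain ⟨u, v, k, w, d⟩ := a.der
    obtain ⟨u', v', k', w', d'⟩ := a'.der
    exact ⟨u.mul u', v.mul v', _, add_mem (AddSubmonoid.subset_closure ⟨k, g', w, a', rfl⟩)
      (AddSubmonoid.subset_closure ⟨g, k', a, w', rfl⟩), d.mul d'⟩
  | zero => exact ⟨Cc.const 0, Zc.zero, _, zero_mem _, Dx.const 0⟩
  | add x y _ _ a c =>
    obtain ⟨u, v, x', a', d⟩ := a
    obtain ⟨u', v', y', c', d'⟩ := c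
    exact ⟨u.add u', v.add v', _, add_mem a' c', d.add d'⟩

theorem T.iv (c : Ch b.B nn la) (h : Gd b.B g) : T b.B 1 (Iv nn g) :=
  ⟨{g | ∃ f, Gd b.B f ∧ g = Iv nn f}, ⟨g, h, rfl⟩, fun _ ⟨_, a, e⟩ =>
    let ⟨_, a', d⟩ := a.der
    e ▸ ⟨a.cc.Iv c, by simpa using (a.cc.zc le_rfl).Iv c, _, ⟨_, a'.add (c.gl.mul a), rfl⟩,
      d.Iv c a.cc a'.cc⟩⟩

theorem quo (c : Ch b.B nn la) (hm : 0 < m) (j : ℕ) (h : Cc b.B g) (z : Zc b.B (m + (j + 1 : ℕ)) g) :
    Cc b.B fun p => g p / Iv nn 1 p ^ (j + 1) := by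
  obtain ⟨c₀, C₁, c0, y, hy⟩ := Iv_one c
  obtain ⟨C, C0, k⟩ := z.pos
  obtain ⟨K, -, hK⟩ := b.bd
  have z0 : ∀ p : P, p.2 = 0 → g p / Iv nn 1 p ^ (j + 1) = 0 := fun p e => by
    rw [show p = (p.1, 0) from Prod.ext rfl e, Iv_zero]
    simp
  have a : ∀ p ∈ b.B, ‖g p / Iv nn 1 p ^ (j + 1)‖ ≤ C / c₀ ^ (j + 1) * |p.2| ^ m := fun p hp => by
    rcases eq_or_ne p.2 0 with e | e
    · rw [z0 p e, norm_zero]
      positivity
    have e' := abs_pos.2 e
    have u := k p hp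
    rw [max_eq_left (by positivity), Real.rpow_add e', Real.rpow_natCast] at u
    rw [norm_div, norm_pow, (hy p hp).1, Complex.norm_real, Real.norm_eq_abs]
    refine (div_le_div₀ (by positivity) u (by positivity)
      (pow_le_pow_left₀ (by positivity) (hy p hp).2.1 _)).trans_eq ?_
    rw [mul_pow]
    field_simp
  refine ⟨fun q hq => ?_, C / c₀ ^ (j + 1) * K ^ m, fun p hp => (a p hp).trans
    (mul_le_mul_of_nonneg_left (Real.rpow_le_rpow (abs_nonneg _) (hK p hp) hm.le) (by positivity))⟩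
  rcases eq_or_ne q.2 0 with e | e
  · rw [ContinuousWithinAt, z0 q e]
    refine squeeze_zero_norm' (mem_of_superset self_mem_nhdsWithin a) ?_
    have t : Continuous fun p : P => C / c₀ ^ (j + 1) * |p.2| ^ m :=
      continuous_const.mul (continuous_snd.abs.rpow_const fun _ => Or.inr hm.le)
    simpa [e, hm.ne'] using (t.tendsto q).mono_left nhdsWithin_le_nhds
  · refine (h.1 q hq).div ((((Cc.const 1).Iv c).1 q hq).pow _) (pow_ne_zero _ ?_)
    rw [(hy q hq).1]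
    exact Complex.ofReal_ne_zero.2 (abs_pos.1 ((mul_pos c0 (abs_pos.2 e)).trans_le (hy q hq).2.1))

theorem dv : DvC := by
  intro b nn la m f c hm hf
  obtain ⟨c₀, C₁, c0, y, hy⟩ := Iv_one c
  refine ⟨{x | ∃ (j : ℕ) (G : P → ℂ), T b.B (m + (j + 1 : ℕ)) G ∧
    x = fun p => G p / Iv nn 1 p ^ (j + 1)}, ⟨0, f 0, ⟨range f, ⟨0, rfl⟩, ?_⟩, by simp⟩, ?_⟩
  · rintro _ ⟨k, rfl⟩
    exact ⟨(hf k).1, by simpa using (hf k).2.2, _, ⟨k + 1, rfl⟩, (hf k).2.1⟩
  rintro _ ⟨j, G, t, rfl⟩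
  obtain ⟨u, v, G', t', d⟩ := t.der
  have dy := (Dx.const 1).Iv c (Cc.const 1) (Cc.const 0)
  refine ⟨quo c hm j u v, _, ⟨j + 1, G' * Iv nn (fun _ => 1)
    + G * Iv nn fun p => -(j + 1 : ℕ) * (0 + la p * 1), ?_, rfl⟩, fun p hp => ?_⟩
  · rw [Nat.cast_succ (j + 1), ← add_assoc]
    exact T.sum (add_mem (AddSubmonoid.subset_closure ⟨_, _, t', T.iv c (Gd.const 1), rfl⟩)
      (AddSubmonoid.subset_closure ⟨_, _, t, T.iv c ((Gd.const _).mul
        ((Gd.const 0).add (c.gl.mul (Gd.const 1)))), rfl⟩))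
  rcases eq_or_ne p.2 0 with e | e
  · rw [show p = (p.1, 0) from Prod.ext rfl e]
    simpa [Iv_zero] using hasDerivAt_const p.1 (0 : ℂ)
  have y0 : Iv nn (fun _ => 1) p ≠ 0 := by
    rw [show Iv nn (fun _ => 1) p = y p from (hy p hp).1]
    exact Complex.ofReal_ne_zero.2 (abs_pos.1 ((mul_pos c0 (abs_pos.2 e)).trans_le (hy p hp).2.1))
  refine ((d p hp).div ((dy p hp).pow (j + 1)) (pow_ne_zero _ y0)).congr_deriv ?_
  simp only [Pi.add_apply, Pi.mul_apply, Pi.pow_apply, Iv_cmul, Nat.add_sub_cancel]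
  change _ = _ / Iv nn (fun _ => 1) p ^ _
  field_simp
  ring

end XCVq

theorem rowVq : OfVq := ⟨XCVq.vq, XCVq.dv⟩

end Pool.Agent.MP_ed9623_an.R10
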