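import Pool.Agent.MP_ed9623_an.R10.Spec
import Pool.Agent.MP_ed9623_an.R10.Base4

/-! The third and the fifth harmonic on two-term symbols. -/

namespace Pool.Agent.MP_ed9623_an.R10

open FA

namespace XCh

section

variable {F : FA} {φ γ a a' b p q p' q' c c₀ c₁ : F.R} {N n : ℂ} {m r s : ℝ} {j : ℕ}

theorem O_eq (h : a ∈ F.O s) (e : b = a) : b ∈ F.O s := e ▸ h
theorem O_l (c : F.R) (h : a ∈ F.O s) : c * a ∈ F.O s := Ideal.mul_mem_left _ _ h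

/-- The leading object `φ`, of exponent `N`. -/
structure Cx (F : FA) (φ γ : F.R) (N : ℂ) (m r : ℝ) : Prop where
  o : φ ∈ F.O m
  r0 : 0 ≤ r
  r1 : r ≤ 3 / 2
  sγ : F.S γ
  hI : ∀ j : ℕ, F.I (F.y ^ j * φ) - (N + j + 1)⁻¹ • (F.y ^ (j + 1) * φ) ∈ F.O (m + r + j + 1)
  hT : ∀ j : ℕ,
    F.T (F.y ^ j * φ) - (N + j + 1)⁻¹ • (γ * (F.y ^ (j + 1) * φ)) ∈ F.O (m + r + j + 1)

theorem Cx.of (o : F.I a ∈ F.O m) (r0 : 0 ≤ r) (r1 : r ≤ 3 / 2) (sγ : F.S γ)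
    (nz : ∀ j : ℕ, N + j + 1 ≠ 0) (h : F.y * a - N • F.I a ∈ F.O (m + r))
    (h' : F.T a - γ * F.I a ∈ F.O (m + r)) : Cx F (F.I a) γ N m r := by
  have e : ∀ j : ℕ, F.I (((j : ℂ) + 1) • F.y ^ j) = F.y ^ (j + 1) := fun j => by
    rw [map_smul, I_ypow, smul_smul, mul_inv_cancel₀ (Nat.cast_add_one_ne_zero j), one_smul]
  have k : ∀ j : ℕ, (N + j + 1) • (F.y ^ j * F.I a) =
      (((j : ℂ) + 1) • F.y ^ j * F.I a + a * F.I (((j : ℂ) + 1) • F.y ^ j))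
        - F.y ^ j * (F.y * a - N • F.I a) := fun j => by
    rw [e]; simp only [Algebra.smul_def, map_add, map_one]; ring
  have o' : ∀ j : ℕ, F.y ^ j * (F.y * a - N • F.I a) ∈ F.O (m + r + j) := fun j =>
    O_mul' (O_ypow j) h (by linarith)
  refine ⟨o, r0, r1, sγ, fun j => O_of_smul (nz j) ?_, fun j => O_of_smul (nz j) ?_⟩
  · refine O_eq (neg_mem (O_I (o' j))) ?_
    rw [smul_sub, smul_smul, mul_inv_cancel₀ (nz j), one_smul, ← map_smul, k, map_sub,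
      ← F.I_mul, e]
    ring
  · refine O_eq (add_mem (neg_mem (O_T (o' j))) (O_mul' (O_ypow (j + 1)) h'
      (by push_cast; linarith))) ?_
    rw [smul_sub, smul_smul, mul_inv_cancel₀ (nz j), one_smul, ← map_smul, k, map_sub,
      T_rb, e, map_smul, T_ypow, smul_zero]
    ring

theorem Cx.oy (C : Cx F φ γ N m r) (j : ℕ) : F.y ^ j * φ ∈ F.O (m + j) :=
  O_mul' (O_ypow j) C.o (by linarith)

/-- `a` has the symbol `(p, q)` at the level `j`. -/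
def Sy (F : FA) (φ : F.R) (s : ℝ) (j : ℕ) (a p q : F.R) : Prop :=
  F.S p ∧ F.S q ∧ a - (p * (F.y ^ j * φ) + q * (F.y ^ (j + 1) * φ)) ∈ F.O (s + j)

theorem Sy.self (hp : F.S p) (hq : F.S q) :
    Sy F φ s j (p * (F.y ^ j * φ) + q * (F.y ^ (j + 1) * φ)) p q := ⟨hp, hq, by simp⟩
theorem Sy.eq (h : Sy F φ s j a p q) (e : p' = p) (e' : q' = q) : Sy F φ s j a p' q' :=
  e ▸ e' ▸ h
theorem Sy.err (h : Sy F φ s j a p q) (e : b - a ∈ F.O (s + j)) : Sy F φ s j b p q :=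
  ⟨h.1, h.2.1, O_eq (add_mem e h.2.2) (by ring)⟩
theorem Sy.uniq (h : Sy F φ s j a p q) (h' : Sy F φ s j b p q) : a - b ∈ F.O (s + j) :=
  O_eq (sub_mem h.2.2 h'.2.2) (by ring)
theorem Sy.add (h : Sy F φ s j a p q) (h' : Sy F φ s j a' p' q') :
    Sy F φ s j (a + a') (p + p') (q + q') :=
  ⟨h.1.add h'.1, h.2.1.add h'.2.1, O_eq (add_mem h.2.2 h'.2.2) (by ring)⟩
theorem Sy.sub (h : Sy F φ s j a p q) (h' : Sy F φ s j a' p' q') :
    Sy F φ s j (a - a') (p - p') (q - q') :=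
  ⟨h.1.sub h'.1, h.2.1.sub h'.2.1, O_eq (sub_mem h.2.2 h'.2.2) (by ring)⟩
theorem Sy.S (hc : F.S c) (h : Sy F φ s j a p q) : Sy F φ s j (c * a) (c * p) (c * q) :=
  ⟨hc.mul h.1, hc.mul h.2.1, O_eq (O_l c h.2.2) (by ring)⟩
theorem Sy.y (h : Sy F φ s j a p q) : Sy F φ s (j + 1) (F.y * a) p q :=
  ⟨h.1, h.2.1, O_eq (O_le (O_ymul h.2.2) (by push_cast; linarith)) (by ring)⟩

variable (C : Cx F φ γ N m r)
include C

theorem Sy.O (h : Sy F φ (m + r) j a p q) : a ∈ F.O (m + j) :=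
  O_eq (add_mem (O_le h.2.2 (by linarith [C.r0])) (add_mem (O_l p (C.oy j))
    (O_l q (O_le (C.oy (j + 1)) (by push_cast; linarith))))) (by ring)
theorem Sy.zero (h : a ∈ F.O (m + j + 3 / 2)) : Sy F φ (m + r) j a 0 0 :=
  ⟨S.zero, S.zero, O_eq (O_le h (by linarith [C.r1])) (by ring)⟩
theorem Sy.down (h : Sy F φ (m + r) (j + 1) a p q) : Sy F φ (m + r) j a 0 p :=
  ⟨S.zero, h.1, O_eq (add_mem (O_le h.2.2 (by push_cast; linarith))
    (O_l q (O_le (C.oy (j + 1 + 1)) (by push_cast; linarith [C.r1])))) (by ring)⟩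
theorem Sy.mul (h₀ : F.S c₀) (h₁ : F.S c₁) (e : c - (c₀ + c₁ * F.y) ∈ F.O (3 / 2))
    (h : Sy F φ (m + r) j a p q) : Sy F φ (m + r) j (c * a) (c₀ * p) (c₀ * q + c₁ * p) :=
  (((h.S h₀).add ((h.y.S h₁).down C)).err
    (O_eq (O_mul' e (h.O C) (by linarith [C.r1])) (by ring))).eq (by ring) rfl
theorem Sy.I (hn : n = N + j) (h : Sy F φ (m + r) j a p q) :
    Sy F φ (m + r) (j + 1) (F.I a) ((n + 1)⁻¹ • p) ((n + 2)⁻¹ • q) := by
  have e₁ := C.hI j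
  have e₂ := C.hI (j + 1)
  rw [← hn] at e₁
  rw [show N + (j + 1 : ℕ) + 1 = n + 2 by rw [hn]; push_cast; ring] at e₂
  refine ⟨h.1.smul _, h.2.1.smul _, O_eq (add_mem (O_I' h.2.2 (by push_cast; linarith))
    (add_mem (O_l p (O_le e₁ (by push_cast; linarith))) (O_l q (O_le e₂ (by linarith))))) ?_⟩
  rw [map_sub, map_add, h.1.I, h.2.1.I]
  simp only [Algebra.smul_def]; ring
theorem Sy.T (hn : n = N + j) (h : Sy F φ (m + r) j a p q) :
    Sy F φ (m + r) (j + 1) (F.T a) ((n + 1)⁻¹ • (F.X p + γ * p)) ((n + 2)⁻¹ • (F.X q + γ * q)) := by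
  have e₁ := C.hI j
  have e₂ := C.hI (j + 1)
  have e₃ := C.hT j
  have e₄ := C.hT (j + 1)
  rw [← hn] at e₁ e₃
  rw [show N + (j + 1 : ℕ) + 1 = n + 2 by rw [hn]; push_cast; ring] at e₂ e₄
  refine ⟨(h.1.X.add (C.sγ.mul h.1)).smul _, (h.2.1.X.add (C.sγ.mul h.2.1)).smul _,
    O_eq (add_mem (O_T' h.2.2 (by push_cast; linarith)) (add_mem
    (add_mem (O_l (F.X p) (O_le e₁ (by push_cast; linarith))) (O_l (F.X q) (O_le e₂ (by linarith))))
    (add_mem (O_l p (O_le e₃ (by push_cast; linarith))) (O_l q (O_le e₄ (by linarith)))))) ?_⟩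
  rw [map_sub, map_add, h.1.T, h.2.1.T]
  simp only [Algebra.smul_def]; ring
theorem Sy.lap {g : F.R} (hg : F.S g) (hn : n = N + j) (h : Sy F φ (m + r) j a p q) :
    Sy F φ (m + r) j (F.lap g a) ((1 + g ^ 2) * p)
      ((1 + g ^ 2) * q - (n + 1)⁻¹ • (2 * g * (F.X p + γ * p) + F.X g * p)) :=
  ((((h.S (S.one.add (hg.pow 2))).sub (((h.T C hn).down C).S (S.two.mul hg))).sub
    (((h.I C hn).down C).S hg.X)).add (Sy.zero C (O_T' (O_T (h.O C)) (by linarith)))).eq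
    (by ring) (by simp only [Algebra.smul_def]; ring)

end

variable {M : Mdl} {φ γ a b p q : M.R} {N n : ℂ} {m r : ℝ} {j : ℕ}

theorem IV (hV : M.V - (M.e + M.f3 * M.y) ∈ M.O (3 / 2)) :
    M.I M.V - (M.e * M.y + (2⁻¹ : ℂ) • M.f3 * M.y ^ 2) ∈ M.O (5 / 2) := by
  have e := I_ypow (F := M.toFA) 1
  rw [pow_one] at e
  refine O_eq (O_I' hV (by norm_num)) ?_
  rw [map_sub, map_add, I_of_S M.Se.1, M.Sf3.I, e]
  norm_num
theorem TV (hV : M.V - (M.e + M.f3 * M.y) ∈ M.O (3 / 2)) :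
    M.T M.V - M.X M.e * M.y ∈ M.O 2 := by
  have e := T_ypow (F := M.toFA) 1
  rw [pow_one] at e
  refine O_eq (add_mem (O_T' hV (by norm_num)) (O_l (M.X M.f3) (O_I' O_y (by norm_num)))) ?_
  rw [map_sub, map_add, T_of_S M.Se.1, M.Sf3.T, e]
  ring
theorem TTV (hV : M.V - (M.e + M.f3 * M.y) ∈ M.O (3 / 2)) :
    M.T (M.T M.V) - (2⁻¹ : ℂ) • M.X (M.X M.e) * M.y ^ 2 ∈ M.O 3 := by
  have e := T_ypow (F := M.toFA) 1
  have e' := I_ypow (F := M.toFA) 1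
  rw [pow_one] at e e'
  refine O_eq (O_T' (TV hV) (by norm_num)) ?_
  rw [map_sub, M.Se.X.T, e, e']
  norm_num

variable (C : Cx M.toFA φ γ N m r) (hV : M.V - (M.e + M.f3 * M.y) ∈ M.O (3 / 2))
include C hV

omit hV in
theorem sUt (h : Sy M.toFA φ (m + r) j a p q) :
    Sy M.toFA φ (m + r) j (M.Ut * a) (M.u1 * p) (M.u1 * q + M.q * p) :=
  h.mul C M.Su1 M.Sq (O_eq (O_I' (O_T1 M.V) (by norm_num)) (by rw [Mdl.Ut]; ring))
theorem sUy (h : Sy M.toFA φ (m + r) j a p q) :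
    Sy M.toFA φ (m + r) j (M.Uy * a) (M.h * p) (M.h * q + M.e * p) :=
  h.mul C M.Sh M.Se (O_eq (add_mem (O_le (IV hV) (by norm_num))
    (O_l ((2⁻¹ : ℂ) • M.f3) (O_le (O_ypow 2) (by norm_num)))) (by rw [Mdl.Uy]; ring))
theorem sUq (h : Sy M.toFA φ (m + r) j a p q) :
    Sy M.toFA φ (m + r) j (M.Uq * a) (M.q * p) (M.q * q + M.X M.e * p) :=
  h.mul C M.Sq M.Se.X (O_eq (O_le (TV hV) (by norm_num)) (by rw [Mdl.Uq]; ring))
theorem sUa (h : Sy M.toFA φ (m + r) j a p q) :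
    Sy M.toFA φ (m + r) (j + 1) (M.Ua * a) (M.l * p) (M.l * q + (2⁻¹ : ℂ) • M.m2 * p) := by
  refine (h.mul C M.Sl (M.Sm2.smul 2⁻¹) (c := M.l + (2⁻¹ : ℂ) • M.m2 * M.y) (by simp)).y.err ?_
  refine O_eq (O_mul' (sub_mem (O_le (TTV hV) (show (5 / 2 : ℝ) ≤ 3 by norm_num))
    (O_l M.k (IV hV))) (h.O C) (by push_cast; linarith [C.r1])) ?_
  simp only [Mdl.Ua, Mdl.l, Mdl.m2, Algebra.smul_def]; ring

theorem sPU (hn : n = N + j) {P : M.R × M.R} (h : Sy M.toFA φ (m + r) j a P.1 P.2) :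
    Sy M.toFA φ (m + r) j (M.PU a) ((M.dj γ).o0 P) ((M.dj γ).o1 n P) :=
  ((((sUt C h).sub (((sUq C hV h).I C hn).down C)).sub (((sUy C hV h).T C hn).down C)).add
    (Sy.zero C (O_I' (O_l M.V (O_T (h.O C))) (by linarith)))).eq
    (by simp [DJ.o0, Mdl.dj]) (by simp only [DJ.o1, DJ.d, Mdl.dj, Algebra.smul_def]; ring)

/-- One step of the chain. -/
theorem step (hn : n = N + j) {P : M.R × M.R} (h : Sy M.toFA φ (m + r) j a P.1 P.2)
    (e : M.lap M.g (M.lap M.g b) - M.NU (M.PU a) ∈ M.O (m + j + 1 + 3 / 2)) :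
    Sy M.toFA φ (m + r) (j + 1) b ((M.dj γ).x0 n P) ((M.dj γ).x1 n P) := by
  have h₁ := sPU C hV hn h
  have h₂ := ((sUt C h₁).sub (((sUy C hV h₁).T C hn).down C)).I C hn
  have h₃ : Sy M.toFA φ (m + r) (j + 1) (M.lap M.g (M.lap M.g b))
      ((n + 1)⁻¹ • (M.dj γ).n0 P) ((n + 2)⁻¹ • (M.dj γ).n1 n P) :=
    (h₂.err (O_le e (by push_cast; linarith [C.r1]))).eq (by simp [DJ.n0, Mdl.dj])
      (by simp only [DJ.n1, DJ.d, Mdl.dj])
  have La : ∀ x, M.S x → M.S ((M.dj γ).La x) := fun x hx =>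
    ((S.two.mul M.Sg).mul (hx.X.add (C.sγ.mul hx))).add (M.Sk.mul hx)
  have s0 : M.S ((M.dj γ).x0 n P) := ((M.Swi.pow 2).mul (M.Su1.mul h₁.1)).smul _
  have s1 : M.S ((M.dj γ).x1 n P) := ((M.Swi.pow 2).mul ((((M.Su1.mul h₁.2.1).add
    (M.Sq.mul h₁.1)).sub (((M.Sh.mul h₁.1).X.add (C.sγ.mul (M.Sh.mul h₁.1))).smul _)).add
    (M.Sw.mul (La _ s0)) |>.add (La _ (M.Sw.mul s0)))).smul _
  have hn' : n + 1 = N + (j + 1 : ℕ) := by rw [hn]; push_cast; ring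
  have h₄ := ((Sy.self (φ := φ) (s := m + r) (j := j + 1) s0 s1).lap C M.Sg hn').lap C M.Sg hn'
  have w : (1 + M.g ^ 2) * M.wi = 1 := M.w_wi
  have h₅ := h₃.uniq (h₄.eq (by
      simp only [DJ.x0, Algebra.smul_def]
      generalize (M.dj γ).n0 P = v
      simp only [Mdl.dj]
      linear_combination (-(algebraMap ℂ M.R (n + 1)⁻¹ * v * ((1 + M.g ^ 2) * M.wi + 1))) * w) (by
      rw [add_assoc n, one_add_one_eq_two]
      simp only [DJ.x1, DJ.La, DJ.d, Algebra.smul_def]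
      generalize (M.dj γ).x0 n P = x
      generalize (M.dj γ).n1 n P = v
      simp only [Mdl.dj, Mdl.w, Mdl.k]
      linear_combination (-(algebraMap ℂ M.R (n + 2)⁻¹ * (v + (1 + M.g ^ 2) * (2 * M.g *
        (M.X x + γ * x) + M.X M.g * x) + (2 * M.g * (M.X ((1 + M.g ^ 2) * x) + γ * ((1 + M.g ^ 2) * x))
        + M.X M.g * ((1 + M.g ^ 2) * x))) * ((1 + M.g ^ 2) * M.wi + 1))) * w))
  rw [← lap_sub, ← lap_sub] at h₅
  exact (Sy.self s0 s1).err (O_of_lap M.w_unit (O_of_lap M.w_unit h₅))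

/-- The third equation on symbols. -/
theorem sLU (hn : n = N + j) (h₁ : n + 1 ≠ 0) (h₂ : n + 2 ≠ 0)
    (h : Sy M.toFA φ (m + r) j a p q) : Sy M.toFA φ (m + r) (j + 1) (M.LU a)
      ((M.dj γ).E0 (n + 1) ((n + 1)⁻¹ • p, (n + 2)⁻¹ • q))
      ((M.dj γ).E1 (n + 1) ((n + 1)⁻¹ • p, (n + 2)⁻¹ • q)) := by
  have hn' : n + 1 = N + (j + 1 : ℕ) := by rw [hn]; push_cast; ring
  have t := h.T C hn
  have k := (((((t.T C hn').down C).sub ((h.I C hn).S M.Sk)).mul C M.Se M.Sf3 hV).sub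
    ((sUq C hV t).S S.two)).add (sUa C hV h)
  rw [← mul_assoc] at k
  refine k.eq ?_ ?_
  · simp only [DJ.E0, DJ.d, Mdl.dj, map_smul, mul_smul_comm, smul_smul, mul_inv_cancel₀ h₁, one_smul]
    simp only [Algebra.smul_def]; ring
  · rw [DJ.E1, add_assoc n, one_add_one_eq_two]
    simp only [DJ.d, Mdl.dj, map_smul, map_add, mul_smul_comm, smul_mul_assoc, smul_smul,
      mul_inv_cancel₀ h₂, one_smul, show (n + 1) / 2 * (n + 1)⁻¹ = 2⁻¹ by field_simp]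
    simp only [Algebra.smul_def]; ring

end XCh

open XCh in
theorem rowCh : OfCh := by
  intro tay har M r N μ₁ γ r0 r1 hN sμ sγ fu m hm hA n p hp
  obtain ⟨f₁, f₂⟩ := fu m hm hA
  obtain ⟨a, a0, -, -, H⟩ := har M 1 m (Or.inl rfl) (O_np (by norm_num) _) hm hA
  have hV := tay M
  have fo := M.f_of hA
  have nz : ∀ j : ℕ, (N : ℂ) + j + 1 ≠ 0 := fun j e => by
    have : N + j + 1 = 0 := by exact_mod_cast e
    linarith [Nat.cast_nonneg (α := ℝ) j]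
  have y2 : M.y ^ 2 * M.f ∈ M.O (m + r) := O_mul' (O_ypow 2) fo (by push_cast; linarith)
  have eI : M.I (M.A0 - μ₁ * (M.f + M.y * M.A0)) = (1 - μ₁ * M.y) * M.f := by
    rw [map_sub, sμ.I, map_add, I_ymul, ← Mdl.f]; ring
  have eT : M.T (M.A0 - μ₁ * (M.f + M.y * M.A0))
      = (1 - μ₁ * M.y) * M.T M.A0 - M.X μ₁ * M.y * M.f := by
    rw [map_sub, sμ.T, map_add, map_add, I_ymul, T_ymul, ← Mdl.f, ← T_I, ← Mdl.f]; ring
  have C : Cx M.toFA ((1 - μ₁ * M.y) * M.f) γ N m r := by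
    rw [← eI]
    refine Cx.of (eI ▸ O_l _ fo) r0.le r1 sγ nz ?_ ?_
    · refine O_eq (sub_mem (O_l (1 - μ₁ * M.y) f₁) (O_l (μ₁ ^ 2) y2)) ?_
      rw [eI, Algebra.smul_def]; ring
    · refine O_eq (sub_mem (O_l (1 - μ₁ * M.y) f₂) (O_l (μ₁ * M.X μ₁) y2)) ?_
      rw [eI, eT]; ring
  have fin : ∀ (j : ℕ) (x E₀ E₁ : M.R), x ∈ M.O (m + j + 3 / 2) →
      Sy M.toFA ((1 - μ₁ * M.y) * M.f) (m + r) j x E₀ E₁ →
      (E₀ + (E₁ - μ₁ * E₀) * M.y) * M.f ∈ M.O (m + r) := fun j x E₀ E₁ hx s => by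
    have := O_divp j (a := (E₀ + E₁ * M.y) * ((1 - μ₁ * M.y) * M.f))
      (O_eq (sub_mem (O_le hx (by linarith)) s.2.2) (by ring))
    exact O_eq (add_mem this (O_l (E₁ * μ₁) y2)) (by ring)
  have s0 : Sy M.toFA ((1 - μ₁ * M.y) * M.f) (m + r) 0 (M.I (a 0)) (1, μ₁).1 (1, μ₁).2 :=
    (Sy.self S.one sμ).err (O_eq (add_mem (O_I' a0 (by push_cast; linarith))
      (O_l (μ₁ ^ 2) (O_le y2 (by simp)))) (by rw [map_sub, ← Mdl.f]; ring))
  have lin : ∀ x, M.LU (4 * x) = 4 * M.LU x ∧ M.NU (M.PU (M.I (4 * x))) = 4 * M.NU (M.PU (M.I x))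
      ∧ M.lap M.g (M.lap M.g (4 * x)) = 4 * M.lap M.g (M.lap M.g x) := fun x => by
    have e : ∀ x : M.R, 4 * x = (4 : ℂ) • x := fun x => by rw [Algebra.smul_def, map_ofNat]
    simp only [e, Mdl.LU, Mdl.NU, Mdl.PU, map_smul, map_add, map_sub, lap_smul, mul_smul_comm,
      smul_add, smul_sub, mul_add, mul_sub, and_self]
  have n1 : (N : ℂ) + 1 + 1 = N + 2 := by ring
  have n2 : (N : ℂ) + 1 + 2 = N + 3 := by ring
  have s2 := step C hV (n := N) (by simp) s0 (O_le ((H 0 (by norm_num)).2.2 (by norm_num))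
    (by push_cast; linarith))
  have i2 := s2.I C (n := N + 1) (by simp)
  rw [n1, n2] at i2
  rcases hp with ⟨rfl, rfl⟩ | ⟨rfl, rfl⟩
  · have l := sLU C hV (n := N + 1) (by simp) (by simpa using nz 1)
      (by rw [n2]; exact fun e => nz 2 (by push_cast; linear_combination e)) s2
    rw [n1, n2] at l
    exact fin _ _ _ _ (by
      rw [(lin _).1]; exact O_l _ (O_le (H 2 (by norm_num)).2.1 (by push_cast; linarith))) l
  · have s4 := step C hV (n := N + 2) (P := (M.dj γ).st N (1, μ₁)) (b := 4 * (4 * a 4))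
      (by push_cast; ring) i2 (by
        rw [(lin _).2.1, (lin _).2.2, ← mul_sub]
        exact O_l _ (O_le ((H 2 (by norm_num)).2.2 le_rfl) (by push_cast; linarith)))
    have l := sLU C hV (n := N + 3) (by push_cast; ring)
      (fun e => nz 3 (by push_cast; linear_combination e))
      (fun e => nz 4 (by push_cast; linear_combination e)) s4
    rw [show (N : ℂ) + 3 + 1 = N + 4 by ring] at l
    refine fin _ _ _ _ (by
      rw [(lin _).1, (lin _).1]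
      exact O_l _ (O_l _ (O_le (H 4 le_rfl).2.1 (by push_cast; linarith)))) (l.eq ?_ ?_) <;>
    rw [DJ.st, show (N : ℂ) + 2 + 2 = N + 4 by ring, show (N : ℂ) + 2 + 3 = N + 3 + 2 by ring]

end Pool.Agent.MP_ed9623_an.R10
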