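import Pool.Agent.MP_ed9623_an.R10.Base4

/-! The third harmonic on a straight arc with constant amplitude. -/

namespace Pool.Agent.MP_ed9623_an.R10

open FA Mdl

namespace XCh2

section

variable {F : FA} {μ γ x b : F.R} {n : ℝ}

/-- A symbol of exponent `μ - 1` and order `n`. -/
structure Sy (F : FA) (μ γ : F.R) (n : ℝ) (x : F.R) : Prop where
  i : μ * F.I x - F.y * x ∈ F.O (n + 3 / 2)
  t : μ * F.T x - γ * (F.y * x) ∈ F.O (n + 3 / 2)

theorem Sy.step (h : Sy F μ γ n x) (s : F.S μ) (s' : F.S γ) (u : IsUnit μ) :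
    Sy F (μ + 1) γ (n + 1) (F.y * x) := by
  have a : (μ + 1) * F.I (F.y * x) - F.y * (F.y * x) ∈ F.O (n + 1 + 3 / 2) := by
    convert O_le (sub_mem (O_ymul h.i) (O_I h.i)) (show n + 1 + 3 / 2 ≤ _ by linarith) using 1
    rw [map_sub, s.I, I_ymul]
    ring
  refine ⟨a, O_unit u ?_⟩
  convert sub_mem (Ideal.mul_mem_left _ (μ + 1) (O_le (sub_mem (O_ymul h.t) (O_I h.t))
    (show n + 1 + 3 / 2 ≤ _ by linarith))) (Ideal.mul_mem_left _ γ a) using 1
  rw [map_sub, s.I, s'.I, T_ymul]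
  ring

theorem Sy.I (h : Sy F μ γ n x) (s : F.S b) :
    μ * F.I (b * x) - b * (F.y * x) ∈ F.O (n + 3 / 2) := by
  convert Ideal.mul_mem_left _ b h.i using 1
  rw [s.I]
  ring

theorem Sy.T (h : Sy F μ γ n x) (s : F.S b) :
    μ * F.T (b * x) - (F.X b + γ * b) * (F.y * x) ∈ F.O (n + 3 / 2) := by
  convert add_mem (Ideal.mul_mem_left _ (F.X b) h.i) (Ideal.mul_mem_left _ b h.t) using 1
  rw [s.T]
  ring

end

variable {M : Mdl} {x : M.R} {n : ℝ}

theorem inner (u : M.u1 = 0) (h : x ∈ M.O n) : M.Ut * x - M.T (M.Uy * x)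
    - (M.q * (M.y * x) - M.T (M.h * x)) ∈ M.O (n + 2) := by
  convert sub_mem (O_mul' (O_I (O_T1 M.V)) h (show n + 2 ≤ _ by linarith))
    (O_T' (O_mul (O_I1 M.V) h) (show n + 2 ≤ _ by linarith)) using 1
  rw [Ut, Uy, u, add_mul M.h, map_add]
  ring

theorem lead (h : x ∈ M.O n) : M.q * (M.y * x) - M.T (M.h * x) ∈ M.O (n + 1) :=
  sub_mem (Ideal.mul_mem_left _ _ (O_ymul h)) (O_T (Ideal.mul_mem_left _ _ h))

theorem pu (u : M.u1 = 0) (h : x ∈ M.O n) : M.PU x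
    - (M.q * (M.y * x) - M.T (M.h * x) - M.I (M.q * x)) ∈ M.O (n + 2) := by
  convert add_mem (sub_mem (inner u h) (O_I' (O_mul (O_T1 M.V) h) (show n + 2 ≤ _ by linarith)))
    (O_I' (Ideal.mul_mem_left _ M.V (O_T h)) (show n + 2 ≤ _ by linarith)) using 1
  rw [PU, Uq, add_mul M.q, map_add]
  ring

theorem lu (k : M.k = 0) (h : x ∈ M.O n) : M.LU x
    - (M.X M.q * (M.y * x) - 2 * M.q * M.T x) ∈ M.O (n + 2) := by
  convert add_mem (sub_mem (Ideal.mul_mem_left _ M.V (O_T' (O_T h) (show n + 2 ≤ _ by linarith)))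
    (Ideal.mul_mem_left _ 2 (O_mul' (O_T1 M.V) (O_T h) (by linarith))))
    (O_mul' (O_T (O_T1 M.V)) h (by linarith)) using 1
  rw [LU, Uq, Ua, k]
  ring

end XCh2

open XCh2

theorem rowCh2 : OfCh2 := by
  intro _ har M N γ P st u hN hγ fu hP m hm hA
  have ut : M.Ut ∈ M.O (2 - 1) := by
    rw [Ut, u, zero_add]
    exact add_mem (O_le (Ideal.mul_mem_right _ _ O_y) (by norm_num)) (O_I' (O_0 _) (by norm_num))
  obtain ⟨a, a₀, -, -, ha⟩ := har M 2 m (Or.inr rfl) ut hm hA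
  obtain ⟨f₁, f₂⟩ := fu m hm hA
  obtain ⟨ν, hν⟩ : ∃ ν : M.R, ν = algebraMap ℂ M.R N := ⟨_, rfl⟩
  have sν : M.S ν := hν ▸ S.alg _
  have xν : M.X ν = 0 := hν ▸ X_alg _
  have sγ : M.S γ := hγ ▸ M.Sr0.smul _
  have un : ∀ k : ℕ, IsUnit (ν + k) := fun k => by
    rw [hν, ← map_natCast (algebraMap ℂ M.R), ← map_add]
    refine IsUnit.map _ (isUnit_iff_ne_zero.2 ?_)
    exact_mod_cast (show (0 : ℝ) < N + k by positivity).ne'
  have u₁ : IsUnit (ν + 1) := by simpa using un 1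
  have u₂ : IsUnit (ν + 1 + 1) := by convert un 2 using 1; push_cast; ring
  have u₃ : IsUnit (ν + 1 + 1 + 1) := by convert un 3 using 1; push_cast; ring
  have s₁ := sν.add S.one
  have s₂ := s₁.add S.one
  have s₃ := s₂.add S.one
  rw [← hν, zero_mul, add_zero] at f₁
  rw [zero_mul, add_zero] at f₂
  have y₀ : Sy M.toFA (ν + 1) γ m M.f := by
    have i : (ν + 1) * M.I M.f - M.y * M.f ∈ M.O (m + 3 / 2) := by
      convert neg_mem (O_I' f₁ (show m + 3 / 2 ≤ _ by linarith)) using 1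
      rw [map_sub, sν.I, I_ymul, ← f]
      ring
    refine ⟨i, ?_⟩
    convert add_mem (Ideal.mul_mem_left _ (ν + 1) (O_I' f₂ (show m + 3 / 2 ≤ _ by linarith)))
      (Ideal.mul_mem_left _ γ i) using 1
    rw [map_sub, sγ.I, ← T_I, ← f]
    ring
  have y₁ := y₀.step s₁ sγ u₁
  have y₂ := y₁.step s₂ sγ u₂
  have y₃ := y₂.step s₃ sγ u₃
  have fO := M.f_of hA
  obtain ⟨b, hb⟩ : ∃ b, b = (ν + 1) * M.q - (M.q + γ * M.h) - M.q := ⟨_, rfl⟩
  have sb : M.S b := hb ▸ ((s₁.mul M.Sq).sub (M.Sq.add (sγ.mul M.Sh))).sub M.Sq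
  have g₂ : 2 * γ = ν * M.r0 := by
    rw [hγ, hν, two_smul', smul_smul, ← Algebra.smul_def]; congr 1; ring
  have eP : P = (ν + 1 + 1) * (M.q * b) - (M.X (M.h * b) + γ * (M.h * b)) := by
    have : ((2 * N ^ 2 + N - 2) / 2 : ℂ) • (M.r0 * M.h * M.q)
        = ((2 * ν - 1) * γ + (ν - 1) * M.r0) * M.h * M.q := by
      rw [hγ, hν, ← map_ofNat (algebraMap ℂ M.R), ← map_one (algebraMap ℂ M.R)]
      simp only [Algebra.smul_def, ← map_mul, ← map_sub, ← mul_assoc, ← add_mul, ← map_add]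
      congr 4
      ring
    rw [hP, this, hb, Algebra.smul_def, map_sub (algebraMap ℂ M.R), map_pow, map_one, ← hν]
    simp only [M.X_mul, map_sub, map_add, xν, X_one, ← q.eq_1, st.X_q]
    ring
  have sP : M.S P := eP ▸ (s₂.mul (M.Sq.mul sb)).sub
    ((M.Sh.mul sb).X.add (sγ.mul (M.Sh.mul sb)))
  have pf : M.I (a 0) - M.f ∈ M.O (m + 2) := by
    rw [f, ← map_sub]; exact O_I' a₀ (by linarith)
  obtain ⟨r, hr⟩ : ∃ r, r = M.PU (M.I (a 0)) := ⟨_, rfl⟩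
  have h₁ : (ν + 1) * r - b * (M.y * M.f) ∈ M.O (m + 3 / 2) := by
    have e : r = M.PU (M.I (a 0) - M.f) + M.PU M.f := by
      simp only [hr, PU, mul_sub, map_sub]; ring
    have k := add_mem (O_le (pu u pf) (show m + 3 / 2 ≤ _ by linarith)) (O_le (sub_mem (lead pf)
      (O_I (Ideal.mul_mem_left _ M.q pf))) (by linarith))
    rw [sub_add_cancel] at k
    convert sub_mem (sub_mem (Ideal.mul_mem_left _ (ν + 1) (add_mem k (O_le (pu u fO)
      (by linarith)))) (y₀.T M.Sh)) (y₀.I M.Sq) using 1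
    rw [e, hb, ← q]
    ring
  have rO : r ∈ M.O (m + 1) := by
    have aO : M.I (a 0) ∈ M.O m := O_I' (ha 0 (by omega)).1 (by simp)
    simpa [hr] using add_mem (O_le (pu u aO) (show m + 1 ≤ _ by linarith)) (sub_mem (lead aO)
      (O_I (Ideal.mul_mem_left _ M.q aO)))
  have h₂ : (ν + 1 + 1) * ((ν + 1) * (M.Ut * r - M.T (M.Uy * r))) - P * (M.y * (M.y * M.f))
      ∈ M.O (m + 1 + 3 / 2) := by
    convert sub_mem (Ideal.mul_mem_left _ (ν + 1 + 1) (add_mem (Ideal.mul_mem_left _ (ν + 1)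
      (O_le (inner u rO) (show m + 1 + 3 / 2 ≤ _ by linarith))) (O_le (lead h₁) (by linarith))))
      (y₁.T (M.Sh.mul sb)) using 1
    rw [mul_sub M.h, map_sub M.T (M.h * _), mul_left_comm M.h, s₁.T, map_add M.X, xν, X_one, eP,
      mul_assoc M.h b]
    ring
  have h₃ : (ν + 1 + 1 + 1) * ((ν + 1 + 1) * ((ν + 1) * (4 * a 2)))
      - P * (M.y * (M.y * (M.y * M.f))) ∈ M.O (m + 1 + 1 + 3 / 2) := by
    have k := (ha 0 (by omega)).2.2 (by omega)
    have o : 4 * a 2 ∈ M.O (m + 3) :=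
      Ideal.mul_mem_left _ _ (O_le (ha 2 (by omega)).1 (by push_cast; linarith))
    rw [st.lap, st.lap, ← hr, zero_add] at k
    have t₁ := O_T' (O_T o) (show m + 1 + 1 + 3 / 2 ≤ _ by linarith)
    have t₂ := O_T' (O_T (add_mem o (O_T' (O_T o) (by linarith))))
      (show m + 1 + 1 + 3 / 2 ≤ _ by linarith)
    convert add_mem (add_mem (Ideal.mul_mem_left _ ((ν + 1 + 1 + 1) * (ν + 1 + 1) * (ν + 1))
      (sub_mem (sub_mem (O_le k (by push_cast; linarith)) t₁) t₂)) (Ideal.mul_mem_left _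
      (ν + 1 + 1 + 1) (O_I' h₂ (by linarith)))) (y₂.I sP) using 1
    rw [map_sub M.I (_ * _), s₂.I, s₁.I, NU]
    ring
  have l₀ : M.X M.q * (M.y * a 2) - 2 * M.q * M.T (a 2) ∈ M.O (m + 1 + 1 + 1 + 3 / 2) := by
    simpa using sub_mem (O_le (ha 2 (by omega)).2.1 (show m + 1 + 1 + 1 + 3 / 2 ≤ _ by
      push_cast; linarith)) (O_le (lu st.k (ha 2 (by omega)).1) (by push_cast; linarith))
  refine O_divp 4 (O_of_smul two_ne_zero (O_unit st.2.1 (O_le (n := m + 1 + 1 + 1 + 3 / 2) ?_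
    (by push_cast; linarith))))
  have l₁ := sub_mem (Ideal.mul_mem_left _ (M.X M.q) (O_ymul h₃))
    (Ideal.mul_mem_left _ (2 * M.q) (O_T h₃))
  convert neg_mem (add_mem (Ideal.mul_mem_left _ (ν + 1 + 1 + 1 + 1) (sub_mem (Ideal.mul_mem_left _
    ((ν + 1 + 1 + 1) * (ν + 1 + 1) * (ν + 1) * 4) l₀) (O_le l₁ (by linarith))))
    (Ideal.mul_mem_left _ (2 * M.q) (y₃.T sP))) using 1
  rw [map_sub M.T (_ * _), s₃.T, s₂.T, s₁.T, S.T (b := 4) (S.nat 4) (a 2), ← two_smul', st.X_q]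
  simp only [map_add, xν, X_one, X_ofNat]
  linear_combination -(M.q * P * M.y ^ 4 * M.f) * g₂

end Pool.Agent.MP_ed9623_an.R10
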