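import Pool.Agent.MP_ed9623_an.R10.Spec
import Pool.Agent.MP_ed9623_an.R10.Base4

/-! Expansion in harmonics. -/

namespace Pool.Agent.MP_ed9623_an.R10

open FA Mdl

namespace XExp

section
variable {F : FA} {d a a' N N' t T s : ℝ} {x x' b g : F.R}

theorem gm (hd : 0 ≤ d) (h : x ∈ F.G d a N) (h' : x' ∈ F.G d a' N') (e₀ : t ≤ a + a')
    (e₁ : T ≤ N + a') (e₂ : T ≤ N + N') (e₃ : T ≤ N' + a) : x * x' ∈ F.G d t T :=
  G_le (G_mul hd h h' (by rw [add_min]; exact le_min e₁ e₂) e₃) e₀ le_rfl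

theorem gr (hd : 0 ≤ d) (hb : F.δ b = 0) (o : b ∈ F.O s) (h : x ∈ F.G d a N)
    (e₀ : t ≤ a + s - d) (e₁ : T ≤ N + s) : F.re (F.z * b) * x ∈ F.G d t T :=
  G_le (G_rez hd hb o h) e₀ e₁

theorem gI (h : x ∈ F.G d a N) (e₀ : t ≤ a + 1) (e₁ : T ≤ N + 1) : F.I x ∈ F.G d t T :=
  G_le (G_I h) e₀ e₁

theorem gT (h : x ∈ F.G d a N) (e₀ : t ≤ a + 1) (e₁ : T ≤ N + 1) : F.T x ∈ F.G d t T :=
  G_le (G_T h) e₀ e₁

theorem glap (hg : F.S g) (h : x ∈ F.G d a N) : F.lap g x ∈ F.G d a N := by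
  have h1 : F.lap g x - (1 + g ^ 2) * x ∈ F.G d a N := G_le (G_lap hg h) le_rfl (by linarith)
  have h2 := G_K0 (S.one.add (hg.pow 2)).2 h
  simpa using add_mem h1 h2

end

variable {M : Mdl} {d μ n : ℝ}

theorem of_lap {x : M.R} (h : x ∈ M.G d μ n) (h' : M.lap M.g x ∈ M.G d μ (n + 1)) :
    x ∈ M.G d μ (n + 1) := by
  have h1 := G_K0 M.Swi.2 (sub_mem h' (G_lap M.Sg h))
  have e : M.wi * (M.lap M.g x - (M.lap M.g x - (1 + M.g ^ 2) * x)) = x := by
    have := M.w_wi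
    rw [Mdl.w] at this
    linear_combination x * this
  rwa [e] at h1

theorem rp_G (d1 : 1 ≤ d) (d2 : d ≤ 2) (hU : M.Ut ∈ M.O (d - 1)) (μ0 : 0 ≤ μ) (n0 : 0 ≤ n)
    (hA : M.A ∈ M.G d μ n) (hP : M.Ph ∈ M.G d μ n) :
    M.rp M.u M.h M.A M.W ∈ M.G d μ (n + 1) := by
  have hd : 0 ≤ d := by linarith
  have a1 := G_I hA
  have a2 := G_T a1
  have p1 := G_I hP
  have p2 := G_T hP
  have p3 := G_I p2
  have t1 : M.pt M.u M.h M.W * M.I M.A ∈ M.G d μ (n + 1) := by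
    rw [M.pt_eq, add_mul]
    exact add_mem (gr hd M.δ_Ut hU a1 (by linarith) (by linarith))
      (gm hd p3 a1 (by linarith) (by linarith) (by linarith) (by linarith))
  have t2 : M.pq M.h M.W * M.I M.A ∈ M.G d (μ - 1) n := by
    rw [M.pq_eq, add_mul]
    exact add_mem (gr hd M.δ_Uq (O_0 _) a1 (by linarith) (by linarith))
      (gm hd p2 a1 (by linarith) (by linarith) (by linarith) (by linarith))
  have t3 : M.py M.h M.W * M.I M.A ∈ M.G d (μ - 1) n := by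
    rw [M.py_eq, add_mul]
    exact add_mem (gr hd M.δ_Uy (O_0 _) a1 (by linarith) (by linarith))
      (gm hd p1 a1 (by linarith) (by linarith) (by linarith) (by linarith))
  have t4 : M.W * M.T (M.I M.A) ∈ M.G d (μ - 1) n := by
    rw [M.W_eq, add_mul]
    exact add_mem (gr hd M.δ_V (O_0 _) a2 (by linarith) (by linarith))
      (gm hd hP a2 (by linarith) (by linarith) (by linarith) (by linarith))
  exact add_mem (sub_mem (sub_mem t1 (gI t2 (by linarith) le_rfl)) (gT t3 (by linarith) le_rfl))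
    (gI t4 (by linarith) le_rfl)

/-- The defect of the equation of the amplitude. -/
noncomputable def E (M : Mdl) : M.R := M.lap M.g M.V - M.c • M.I (M.I M.V)
  - (2 * M.g * M.q + M.c • M.u + M.y * (M.c • M.h - M.X M.q))

theorem δ_E : M.δ (E M) = 0 := by
  have h : M.δ (M.lap M.g M.V) = 0 := by rw [δ_lap M.Sg, M.δ_V]; simp [FA.lap]
  simp [E, h, M.δ_I, M.δ_V, M.δ_mul, M.Sg.2, M.Sq.2, M.Su.2, M.Sh.2, M.Sq.X.2]

theorem eq_Ph : M.lap M.g M.Ph =
    M.δ (M.I (M.I M.Ph)) + M.rp M.u M.h M.A M.W - M.re (M.z * E M) := by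
  have h := M.eP
  have h1 : M.lap M.g M.W = M.re (M.z * M.lap M.g M.V) + M.lap M.g M.Ph := by
    conv_lhs => rw [M.W_eq]
    rw [lap_add, lap_rez M.cj_g]
  have h2 : M.δ (M.I (M.I M.W)) =
      M.re (M.z * (M.c • M.I (M.I M.V))) + M.δ (M.I (M.I M.Ph)) := by
    conv_lhs => rw [M.W_eq]
    rw [map_add, map_add, map_add, I_rez, I_rez, δ_rez (by simp [M.δ_I, M.δ_V])]
  rw [E, mul_sub, mul_sub, re_sub, re_sub]
  linear_combination h - h1 + h2

theorem E_O {m s : ℝ} (hP : M.Ph ∈ M.O m) (hr : M.rp M.u M.h M.A M.W ∈ M.O s) (e : s ≤ m + 2) :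
    E M ∈ M.O s := by
  have h := congrArg M.am (eq_Ph (M := M))
  rw [am_lap M.Sg, M.am_Ph, am_sub, am_add, am_rez δ_E] at h
  have h0 : M.lap M.g 0 = 0 := by simp [FA.lap]
  have h1 : E M = M.am (M.δ (M.I (M.I M.Ph))) + M.am (M.rp M.u M.h M.A M.W) := by
    linear_combination h - h0
  rw [h1]
  exact add_mem (O_am (O_δ (O_I' (O_I hP) (by linarith)))) (O_am hr)

theorem xi_G (d1 : 1 ≤ d) (d2 : d ≤ 2) (hU : M.Ut ∈ M.O (d - 1)) (μ0 : 0 ≤ μ) (n0 : 0 ≤ n)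
    (hA : M.A ∈ M.G d μ n) (hP : M.Ph ∈ M.G d μ n) : ∃ K : M.R, M.δ K = 0 ∧
    M.xi M.g M.u M.h M.A M.W - K ∈ M.G d (μ - 1) n := by
  have hd : 0 ≤ d := by linarith
  have a1 := G_I hA
  have a2 := G_T a1
  have p1 := G_I hP
  have p3 := G_I (G_T hP)
  have r := rp_G d1 d2 hU μ0 n0 hA hP
  have l := glap M.Sg hA
  have c1 : M.δ (M.c • M.Ut) = 0 := by simp [M.δ_Ut]
  have c2 : M.δ (M.c • M.Uy) = 0 := by simp [M.δ_Uy]
  refine ⟨M.I (M.re (M.z * M.Ut) * M.δ (M.re (M.z * M.Uy))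
    - M.re (M.z * M.Uy) * M.δ (M.re (M.z * M.Ut))), ?_, ?_⟩
  · rw [M.δ_I, map_sub, M.δ_mul, M.δ_mul, δδ_rez M.δ_Ut, δδ_rez M.δ_Uy]
    simp only [mul_smul_comm]
    rw [mul_comm (M.re (M.z * M.Uy)) (M.re (M.z * M.Ut)),
      mul_comm (M.δ (M.re (M.z * M.Uy))) (M.δ (M.re (M.z * M.Ut))), sub_self, map_zero]
  have t1 : M.lap M.g M.A * M.T (M.I M.A) ∈ M.G d (μ - 1) n :=
    gm hd l a2 (by linarith) (by linarith) (by linarith) (by linarith)
  have t2 : M.lap M.g M.A * M.I M.A ∈ M.G d (μ - 1) n :=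
    gm hd l a1 (by linarith) (by linarith) (by linarith) (by linarith)
  have t3 : M.rp M.u M.h M.A M.W * M.pt M.u M.h M.W ∈ M.G d (μ - 1) n := by
    rw [mul_comm, M.pt_eq, add_mul]
    exact add_mem (gr hd M.δ_Ut hU r (by linarith) (by linarith))
      (gm hd p3 r (by linarith) (by linarith) (by linarith) (by linarith))
  have t4 : M.rp M.u M.h M.A M.W * M.py M.h M.W ∈ M.G d (μ - 2) n := by
    rw [mul_comm, M.py_eq, add_mul]
    exact add_mem (gr hd M.δ_Uy (O_0 _) r (by linarith) (by linarith))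
      (gm hd p1 r (by linarith) (by linarith) (by linarith) (by linarith))
  have t5 : M.re (M.z * M.Ut) * M.δ (M.I M.Ph) + M.re (M.z * (M.c • M.Uy)) * M.I (M.T M.Ph)
      + M.I (M.T M.Ph) * M.δ (M.I M.Ph) - M.re (M.z * M.Uy) * M.δ (M.I (M.T M.Ph))
      - M.re (M.z * (M.c • M.Ut)) * M.I M.Ph - M.I M.Ph * M.δ (M.I (M.T M.Ph))
      ∈ M.G d (μ - 2) n :=
    sub_mem (sub_mem (sub_mem (add_mem (add_mem
      (gr hd M.δ_Ut hU (G_δ p1) (by linarith) (by linarith))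
      (gr hd c2 (O_0 _) p3 (by linarith) (by linarith)))
      (gm hd p3 (G_δ p1) (by linarith) (by linarith) (by linarith) (by linarith)))
      (gr hd M.δ_Uy (O_0 _) (G_δ p3) (by linarith) (by linarith)))
      (gr hd c1 (O_0 _) p1 (by linarith) (by linarith)))
      (gm hd p1 (G_δ p3) (by linarith) (by linarith) (by linarith) (by linarith))
  have := add_mem (sub_mem (add_mem (sub_mem t1 (gT (t := μ - 1) (T := n) t2 (by linarith)
    (by linarith))) t3) (gT (t := μ - 1) (T := n) t4 (by linarith) (by linarith)))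
    (gI (t := μ - 1) (T := n) t5 (by linarith) (by linarith))
  convert this using 1
  rw [FA.xi, add_sub_assoc, ← map_sub]
  congr 2
  rw [M.pt_eq, M.py_eq, map_add, map_add, ← δ_rez M.δ_Ut, ← δ_rez M.δ_Uy]
  ring

theorem step (d1 : 1 ≤ d) (d2 : d ≤ 2) (hU : M.Ut ∈ M.O (d - 1)) (μ0 : 0 ≤ μ) (n0 : μ ≤ n)
    (h0 : M.A0 ∈ M.O μ) (hE : E M ∈ M.O (μ + d)) (hA : M.A ∈ M.G d μ n)
    (hP : M.Ph ∈ M.G d μ n) : M.A ∈ M.G d μ (n + 1) ∧ M.Ph ∈ M.G d μ (n + 1) := by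
  have hd : 0 ≤ d := by linarith
  have n1 : 0 ≤ n := by linarith
  constructor
  · obtain ⟨K, k0, k1⟩ := xi_G d1 d2 hU μ0 n1 hA hP
    have i1 : M.I (M.xi M.g M.u M.h M.A M.W - K) ∈ M.G d μ (n + 1) := gI k1 (by linarith) le_rfl
    have i2 : M.ev (M.I (M.xi M.g M.u M.h M.A M.W - K)) ∈ M.G d μ (n + 1) :=
      G_K (M.δ_ev _) (O_ev (G_toO hd i1 le_rfl (by linarith)))
    have i3 : M.ev (M.I K) = M.I K := M.ev_of _ (by rw [M.δ_I, k0, map_zero])
    have a0 : ∀ N, M.ev M.A ∈ M.G d μ N := fun N => G_K M.δ_A0 h0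
    have b1 : M.A - M.ev M.A ∈ M.G d μ n := sub_mem hA (a0 n)
    have b2 : M.δ M.A - M.ev (M.δ M.A) ∈ M.G d μ n :=
      sub_mem (G_δ hA) (G_K (M.δ_ev _) (O_ev (G_toO hd (G_δ hA) le_rfl n0)))
    have b3 : M.I (M.I (M.δ M.A - M.ev (M.δ M.A))) ∈ M.G d μ (n + 1) :=
      gI (G_I b2) (by linarith) (by linarith)
    have b4 := sub_mem (glap M.Sg b1) (G_le b3 le_rfl (by linarith : n ≤ n + 1))
    have b5 := of_lap b4 (by
      rw [M.sys.eB]
      convert sub_mem i1 i2 using 1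
      rw [map_sub, map_sub, i3]
      ring)
    have b6 := of_lap b1 (by simpa using add_mem b5 b3)
    simpa using add_mem b6 (a0 (n + 1))
  · refine of_lap hP ?_
    rw [eq_Ph]
    exact sub_mem (add_mem (G_δ (gI (G_I hP) (by linarith) (by linarith)))
      (rp_G d1 d2 hU μ0 n1 hA hP)) (G_le (G_rez1 hd δ_E hE) (by linarith) le_rfl)

end XExp

open XExp

theorem rowExp : OfExp := by
  intro hE M d m hd hU hm h0 n
  have d1 : 1 ≤ d := by rcases hd with rfl | rfl <;> norm_num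
  have d2 : d ≤ 2 := by rcases hd with rfl | rfl <;> norm_num
  obtain ⟨e1, e2, e3, -⟩ := hE M m (by linarith) (M.f_of h0)
  have r : M.rp M.u M.h M.A M.W ∈ M.O (m - 1 + d) := by
    have o : M.pt M.u M.h M.W ∈ M.O (d - 1) := by
      rw [M.pt_eq]
      exact add_mem (O_rez hU) (O_I' (O_T e2) (by linarith))
    exact add_mem (sub_mem (sub_mem (O_mul' o e1 (by linarith))
      (O_I' (Ideal.mul_mem_left _ _ e1) (by linarith)))
      (O_T' (Ideal.mul_mem_left _ _ e1) (by linarith)))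
      (O_I' (Ideal.mul_mem_left _ _ (O_T e1)) (by linarith))
  have e := E_O e2 r (by linarith)
  have key : ∀ k : ℕ, M.A ∈ M.G d (m - 1) (m + k) ∧ M.Ph ∈ M.G d (m - 1) (m + k) := by
    intro k
    induction k with
    | zero =>
      refine ⟨?_, G_O (by simpa using e2)⟩
      have : M.A - M.A0 ∈ M.G d (m - 1) (m + (0 : ℕ)) := G_O (O_le e3 (by simp))
      simpa using add_mem this (G_K M.δ_A0 h0)
    | succ k ih =>
      have k0 : (0 : ℝ) ≤ k := Nat.cast_nonneg k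
      have := step d1 d2 hU (by linarith) (by linarith) h0 e ih.1 ih.2
      rw [Nat.cast_succ, ← add_assoc]
      exact this
  obtain ⟨k, hk⟩ := exists_nat_ge (n - m)
  exact ⟨G_le (key k).1 le_rfl (by linarith), G_le (key k).2 le_rfl (by linarith)⟩

end Pool.Agent.MP_ed9623_an.R10
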