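import Pool.Agent.MP_ed9623_an.R10.Spec
import Pool.Agent.MP_ed9623_an.R10.Base4

/-! Fuchsian relations and a gain give flatness. -/

namespace Pool.Agent.MP_ed9623_an.R10

open FA Mdl

namespace XGain

theorem gn : GainS := by
  intro M r θ μ μ₁ γ γ₁ h0 hr hF hg
  have st : ∀ m : ℝ, 3 / 2 ≤ m → M.A0 ∈ M.O (m - 1) → M.A0 ∈ M.O (m + θ - 1) := fun m hm h => by
    have a := add_mem (O_le (hF m hm h).1 (show m + θ ≤ m + r by linarith))
      (Ideal.mul_mem_left _ (μ + μ₁ * M.y) (hg m hm h))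
    rw [sub_add_cancel] at a
    exact O_div' a (by linarith)
  have k : ∀ j : ℕ, M.A0 ∈ M.O (3 / 2 + j * θ - 1) := fun j => by
    induction j with
    | zero => exact O_le M.A0_O (by norm_num)
    | succ j ih =>
      have : (0 : ℝ) ≤ j * θ := by positivity
      exact O_le (st _ (by linarith) ih) (by push_cast; linarith)
  intro n
  obtain ⟨j, hj⟩ := exists_nat_gt (n / θ)
  rw [div_lt_iff₀ h0] at hj
  exact O_le (M.f_of (k j)) (by linarith)

theorem mu0 : Mu0S := by
  intro M r μ γ h0 _ sμ sγ hF hc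
  refine gn M r r μ 0 γ 0 h0 le_rfl hF fun m hm h => ?_
  obtain ⟨e1, e2⟩ := hF m hm h
  rw [zero_mul, add_zero] at e1 e2
  rcases hc with u | ⟨N, hN, rfl⟩
  · have a1 := O_I e1
    have a2 := O_T e1
    have a3 := O_I e2
    have a4 := O_ymul e2
    rw [map_sub, I_ymul, sμ.I] at a1
    rw [map_sub, T_ymul, sμ.T, Mdl.f, T_I] at a2
    rw [map_sub, sγ.I] at a3
    have b : M.X μ * M.I M.f ∈ M.O (m + r + 1) := by
      have c := sub_mem (sub_mem (add_mem a4 (Ideal.mul_mem_left _ γ a1))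
        (Ideal.mul_mem_left _ (1 + μ) a3)) a2
      refine (congrArg (· ∈ M.O (m + r + 1)) ?_).mp c
      simp only [Mdl.f]; ring
    have d := add_mem a1 (Ideal.mul_mem_left _ (1 + μ) (O_unit u b))
    refine O_div (a := M.f) ((congrArg (· ∈ M.O (m + r + 1)) ?_).mp d)
    simp only [Mdl.f]; ring
  · rw [← Algebra.smul_def] at e1
    exact fuO (show N < m by linarith) M.f_U (M.f_of h) e1

end XGain

theorem rowGain : OfGain := ⟨XGain.gn, XGain.mu0⟩

end Pool.Agent.MP_ed9623_an.R10
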