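import Pool.Agent.MP_ed9623_an.R10.Spec
import Pool.Agent.MP_ed9623_an.R10.Base4
import Pool.Agent.MP_ed9623_an.R10.Exp

/-! The chain of the leading harmonics. -/

namespace Pool.Agent.MP_ed9623_an.R10

open FA Mdl XExp

namespace XHar

section
variable {F : FA} {d s s' N t : ℝ} {x a a' b : F.R} {j : ℕ} {k : ℤ}

theorem md (h : F.Co k N x a) (e : t ≤ N) (hb : F.δ b = 0) (o : a - b ∈ F.O t) : F.Co k t x b :=
  ⟨hb, by
    have := add_mem (h.le e).2 (Sk_O (k := k) (Ideal.mul_mem_left _ (F.zp k) o))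
    convert this using 1; ring⟩

theorem g0 (j : ℕ) (h : x ∈ F.G d s N) (e : t ≤ N) (e' : t ≤ s + d * j) : F.Co j t x 0 :=
  G_co0 j h e (by simpa using e')

theorem gc (j : ℕ) (h : x ∈ F.G d s N) : ∃ a ∈ F.O (s + d * j), F.Co j N x a := by
  simpa using G_co (j : ℤ) h

theorem rz (hb : F.δ b = 0) (h : F.Co j N x a) (h' : F.Co (j + 2 : ℕ) N x a') :
    F.Co (j + 1 : ℕ) N (F.re (F.z * b) * x) ((2⁻¹ : ℂ) • (b * a + F.cj b * a')) :=
  Co.rez hb (by convert h using 1; push_cast; ring) (by convert h' using 1; push_cast; ring)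

theorem rz' (hb : F.δ b = 0) (o : b ∈ F.O s) (h : F.Co j N x a) (h' : F.Co (j + 2 : ℕ) N x a')
    (o' : a' ∈ F.O s') (e : t ≤ N) (e' : t ≤ s + s') :
    F.Co (j + 1 : ℕ) t (F.re (F.z * b) * x) ((2⁻¹ : ℂ) • (b * a)) :=
  md (rz hb h h') e (by rw [map_smul, F.δ_mul, hb, h.1]; simp) (by
    rw [← smul_sub, add_sub_cancel_left]; exact O_smul _ (O_mul' (O_cj o) o' e'))

/-- Coefficients of a real element. -/
theorem coef (r : F.cj x = x) (h : x ∈ F.G d s N) : ∃ a : ℕ → F.R, F.cj (a 0) = a 0 ∧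
    ∀ j : ℕ, a j ∈ F.O (s + d * j) ∧ F.Co j N x (a j) := by
  choose b o c using fun j => gc j h
  refine ⟨fun j => if j = 0 then F.re (b 0) else b j, by simp [cj_re], fun j => ?_⟩
  by_cases e : j = 0
  · subst e
    have := ((c 0).add (by simpa using (c 0).cj)).smul 2⁻¹
    rw [r, ← two_mul, half_two] at this
    exact ⟨O_re (o 0), this⟩
  · simp only [if_neg e]
    exact ⟨o j, c j⟩

end

variable {M : Mdl} {d μ N t : ℝ} {a a' : M.R} {j : ℕ}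

theorem Ua_O : M.Ua ∈ M.O 1 :=
  sub_mem (add_mem (Ideal.mul_mem_right _ _ O_y) (O_T1 _)) (Ideal.mul_mem_left _ _ (O_I1 _))

theorem LU_O (h : a ∈ M.O t) : M.LU a ∈ M.O (t + 1) :=
  add_mem (sub_mem (Ideal.mul_mem_left _ _ (sub_mem (O_T' (O_T h) (by linarith))
    (Ideal.mul_mem_left _ _ (O_I h)))) (Ideal.mul_mem_left _ _ (O_T h)))
    (O_mul' Ua_O h (by linarith))

/-- The quadratic rest of the third equation. -/
noncomputable def RL (M : Mdl) : M.R := M.Ph * (M.T (M.T M.A) - M.k * M.I M.A)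
  - 2 * (M.T M.Ph * M.T M.A) + (M.T (M.T M.Ph) - M.k * M.I M.Ph) * M.A

theorem eqL (h : M.Co j N M.A a) (h' : M.Co (j + 2 : ℕ) N M.A a') (e : t ≤ N)
    (r : M.Co (j + 1 : ℕ) t (RL M) 0) : M.LU a + M.cj (M.LU (M.cj a')) ∈ M.O t := by
  have D : ∀ {i : ℤ} {b : M.R}, M.Co i N M.A b → M.Co i N (M.T (M.T M.A) - M.k * M.I M.A)
      (M.T (M.T b) - M.k * M.I b) := fun h =>
    (h.T.T.le (by linarith)).sub ((h.I.le (by linarith)).Kmul M.Sk.2)
  have c := ((((rz M.δ_V (D h) (D h')).sub ((rz M.δ_Uq (h.T.le (by linarith : N ≤ N + 1))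
    (h'.T.le (by linarith))).Kmul S.two.2)).add (rz M.δ_Ua h h')).le e).add r
  have z := M.sys.eL
  rw [M.pq_eq, M.pa_eq] at z
  have o := O_smul 2 (c.O (by
    convert zero_mem (M.O t) using 1
    rw [RL, ← z, Mdl.k, Mdl.Ph]; ring))
  have k : ∀ P Q R : M.R, (2 : ℂ) • ((2⁻¹ : ℂ) • P - 2 * (2⁻¹ : ℂ) • Q + (2⁻¹ : ℂ) • R + 0)
      = P - 2 * Q + R := fun P Q R => by rw [two_smul', two_smul']; module
  rw [k] at o
  convert o using 1
  simp only [LU, map_add, map_sub, map_mul, map_ofNat, cj_T, M.cj_I, M.cj_cj, M.cj_k]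
  ring

variable (d1 : 1 ≤ d) (d2 : d ≤ 2) (hU : M.Ut ∈ M.O (d - 1)) (μ0 : 1 / 2 ≤ μ)
  (hA : ∀ n, M.A ∈ M.G d μ n) (hP : ∀ n, M.Ph ∈ M.G d μ n)

theorem mulG {x x' : M.R} {s s' r : ℝ} (hd : 0 ≤ d) (h : ∀ n, x ∈ M.G d s n)
    (h' : ∀ n, x' ∈ M.G d s' n) (e : r ≤ s + s') (n : ℝ) : x * x' ∈ M.G d r n :=
  gm hd (h (|n| + |s| + |s'|)) (h' (|n| + |s| + |s'|)) e
    (by linarith [le_abs_self n, neg_abs_le s', abs_nonneg s])
    (by linarith [le_abs_self n, abs_nonneg s', abs_nonneg s, abs_nonneg n])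
    (by linarith [le_abs_self n, neg_abs_le s, abs_nonneg s'])
theorem IG {x : M.R} {s : ℝ} (h : ∀ n, x ∈ M.G d s n) (n : ℝ) : M.I x ∈ M.G d (s + 1) n :=
  gI (h n) le_rfl (by linarith)
theorem TG {x : M.R} {s : ℝ} (h : ∀ n, x ∈ M.G d s n) (n : ℝ) : M.T x ∈ M.G d (s + 1) n :=
  gT (h n) le_rfl (by linarith)
theorem δG {x : M.R} {s : ℝ} (h : ∀ n, x ∈ M.G d s n) (n : ℝ) : M.δ x ∈ M.G d s n := G_δ (h n)

include d1 hA hP in
theorem RL_G (n : ℝ) : RL M ∈ M.G d (2 * μ + 1) n ∧ (M.k = 0 → RL M ∈ M.G d (2 * μ + 2) n) := by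
  have hd : 0 ≤ d := by linarith
  have c : M.Ph * M.T (M.T M.A) - 2 * (M.T M.Ph * M.T M.A) + M.T (M.T M.Ph) * M.A
      ∈ M.G d (2 * μ + 2) n :=
    add_mem (sub_mem (mulG hd hP (TG (TG hA)) (by linarith) n)
      (G_K0 S.two.2 (mulG hd (TG hP) (TG hA) (by linarith) n)))
      (mulG hd (TG (TG hP)) hA (by linarith) n)
  refine ⟨?_, fun e => by simpa [RL, e] using c⟩
  have := sub_mem (G_le c (by linarith : 2 * μ + 1 ≤ _) le_rfl) (G_K0 M.Sk.2 (add_mem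
    (mulG hd hP (IG hA) (by linarith : 2 * μ + 1 ≤ _) n) (mulG hd (IG hP) hA (by linarith) n)))
  convert this using 1
  rw [RL]; ring

include d1 hU μ0 hA hP in
theorem rp_co (h : M.Co j N M.A a) (h' : M.Co (j + 2 : ℕ) N M.A a')
    (o : a' ∈ M.O (μ + d * (j + 2 : ℕ))) (e : t ≤ N) (e' : t ≤ μ + d * (j + 1) + 3 / 2) :
    M.Co (j + 1 : ℕ) t (M.rp M.u M.h M.A M.W) ((2⁻¹ : ℂ) • M.PU (M.I a)) := by
  have hd : 0 ≤ d := by linarith
  push_cast at o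
  have o1 := O_I o
  have q : ∀ {x : M.R}, (∀ n, x ∈ M.G d (2 * μ + 2) n) → M.Co (j + 1 : ℕ) t x 0 := fun h =>
    g0 (j + 1) (h t) le_rfl (by push_cast; linarith)
  have q' : ∀ {x : M.R}, (∀ n, x ∈ M.G d (2 * μ + 1) n) → M.Co (j + 1 : ℕ) (t - 1) x 0 := fun h =>
    g0 (j + 1) (h t) (by linarith) (by push_cast; linarith)
  have t1 := (rz' (t := t) M.δ_Ut hU h.I h'.I o1 (by linarith) (by linarith)).add
    (q (mulG hd (IG (TG hP)) (IG hA) (by linarith)))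
  have t2 := ((rz' (t := t - 1) M.δ_Uq (O_0 _) h.I h'.I o1 (by linarith) (by linarith)).add
    (q' (mulG hd (TG hP) (IG hA) (by linarith)))).I
  have t3 := ((rz' (t := t - 1) M.δ_Uy (O_0 _) h.I h'.I o1 (by linarith) (by linarith)).add
    (q' (mulG hd (IG hP) (IG hA) (by linarith)))).T
  have t4 := ((rz' (t := t - 1) M.δ_V (O_0 _) h.I.T h'.I.T (O_T o1) (by linarith)
    (by linarith)).add (q' (mulG hd hP (TG (IG hA)) (by linarith)))).I
  rw [sub_add_cancel, ← add_mul] at t2 t3 t4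
  rw [← add_mul, ← M.pt_eq] at t1
  rw [← M.pq_eq] at t2
  rw [← M.py_eq] at t3
  rw [← M.W_eq] at t4
  convert ((t1.sub t2).sub t3).add t4 using 1
  · rfl
  · simp only [PU, add_zero, map_smul, smul_add, smul_sub]

include d1 d2 hU μ0 hA hP in
theorem xi_co (h : M.Co j N M.A a) (h' : M.Co (j + 2 : ℕ) N M.A a')
    (o : a' ∈ M.O (μ + d * (j + 2 : ℕ))) (e : μ + d * (j + 1) + 3 / 2 ≤ N)
    (e' : t = μ + d * (j + 2) + 1 / 2) : M.Co (j + 2 : ℕ) t (M.xi M.g M.u M.h M.A M.W)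
      ((4⁻¹ : ℂ) • (M.Ut * M.PU (M.I a) - M.T (M.Uy * M.PU (M.I a)))) := by
  have hd : 0 ≤ d := by linarith
  have j0 : (0 : ℝ) ≤ j := Nat.cast_nonneg j
  have r : ∀ n, M.rp M.u M.h M.A M.W ∈ M.G d μ n := fun n =>
    G_le (rp_G d1 d2 hU (by linarith) (abs_nonneg n) (hA _) (hP _)) le_rfl
      (by linarith [le_abs_self n])
  obtain ⟨ρ, -, c⟩ := gc (j + 1) (r (t + 2))
  obtain ⟨ρ', o', c'⟩ := gc (j + 1 + 2) (r (t + 2))
  push_cast at o'
  have u := (c.le (by linarith : μ + d * (j + 1) + 3 / 2 ≤ t + 2)).unique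
    (rp_co d1 hU μ0 hA hP h h' o e le_rfl)
  have p := (rp_co d1 hU μ0 hA hP h h' o e le_rfl).1
  have q : ∀ {x : M.R}, (∀ n, x ∈ M.G d (μ + 1 / 2) n) → M.Co (j + 2 : ℕ) t x 0 := fun h =>
    g0 (j + 2) (h t) le_rfl (by push_cast; linarith)
  have q' : ∀ {x : M.R}, (∀ n, x ∈ M.G d (μ - 1 / 2) n) → M.Co (j + 2 : ℕ) (t - 1) x 0 := fun h =>
    g0 (j + 2) (h t) (by linarith) (by push_cast; linarith)
  have w : ∀ {b : M.R} {s v : ℝ}, M.δ b = 0 → b ∈ M.O s → v ≤ t → v ≤ s + (μ + d * (j + 1) + 3 / 2) →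
      M.Co (j + 2 : ℕ) v (M.re (M.z * b) * M.rp M.u M.h M.A M.W)
        ((2⁻¹ : ℂ) • (b * (2⁻¹ : ℂ) • M.PU (M.I a))) := fun hb ob e₁ e₂ =>
    md (rz' hb ob c c' o' (by linarith) (by linarith)) le_rfl
      (by rw [map_smul, M.δ_mul, hb, p]; simp)
      (by rw [← smul_sub, ← mul_sub]; exact O_smul _ (O_mul' ob u e₂))
  have l : ∀ n, M.lap M.g M.A ∈ M.G d μ n := fun n => glap M.Sg (hA n)
  have t1 := q (mulG hd l (TG (IG hA)) (by linarith))
  have t2 := (q' (mulG hd l (IG hA) (by linarith))).T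
  have t3 := (w M.δ_Ut hU le_rfl (by linarith)).add (q (mulG hd (IG (TG hP)) r (by linarith)))
  have t4 := ((w (v := t - 1) M.δ_Uy (O_0 _) (by linarith) (by linarith)).add
    (q' (mulG hd (IG hP) r (by linarith)))).T
  have c1 : M.δ (M.c • M.Ut) = 0 := by simp [M.δ_Ut]
  have c2 : M.δ (M.c • M.Uy) = 0 := by simp [M.δ_Uy]
  have k0 : M.δ (M.re (M.z * M.Ut) * M.δ (M.re (M.z * M.Uy))
      - M.re (M.z * M.Uy) * M.δ (M.re (M.z * M.Ut))) = 0 := by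
    rw [map_sub, M.δ_mul, M.δ_mul, δδ_rez M.δ_Ut, δδ_rez M.δ_Uy]
    simp only [mul_smul_comm]
    rw [mul_comm (M.re (M.z * M.Uy)) (M.re (M.z * M.Ut)),
      mul_comm (M.δ (M.re (M.z * M.Uy))) (M.δ (M.re (M.z * M.Ut))), sub_self]
  have p1 := IG hP
  have p3 := IG (TG hP)
  have t5 := ((Co.of_K (k := (j + 2 : ℕ)) (n := t - 1) (by omega) k0).add (q' (x :=
      M.re (M.z * M.Ut) * M.δ (M.I M.Ph) + M.re (M.z * (M.c • M.Uy)) * M.I (M.T M.Ph)
      + M.I (M.T M.Ph) * M.δ (M.I M.Ph) - M.re (M.z * M.Uy) * M.δ (M.I (M.T M.Ph))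
      - M.re (M.z * (M.c • M.Ut)) * M.I M.Ph - M.I M.Ph * M.δ (M.I (M.T M.Ph))) fun n =>
    sub_mem (sub_mem (sub_mem (add_mem (add_mem
      (gr hd M.δ_Ut hU (δG p1 n) (by linarith) (by linarith))
      (gr hd c2 (O_0 _) (p3 n) (by linarith) (by linarith)))
      (mulG hd p3 (δG p1) (by linarith) n))
      (gr hd M.δ_Uy (O_0 _) (δG p3 n) (by linarith) (by linarith)))
      (gr hd c1 (O_smul _ hU) (p1 n) (by linarith) (by linarith)))
      (mulG hd p1 (δG p3) (by linarith) n))).I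
  rw [sub_add_cancel] at t2 t4 t5
  rw [← add_mul, ← M.pt_eq, mul_comm] at t3
  rw [← add_mul, ← M.py_eq, mul_comm] at t4
  convert (((t1.sub t2).add t3).sub t4).add t5 using 1
  · rw [FA.xi]
    congr 2
    rw [M.pt_eq, M.py_eq, map_add, map_add, ← δ_rez M.δ_Ut, ← δ_rez M.δ_Uy]
    ring
  · simp only [add_zero, map_zero, sub_zero, zero_add, map_smul, mul_smul_comm]
    module

include d1 d2 hU μ0 hA hP in
theorem eqB (h : M.Co j N M.A a) (h' : M.Co (j + 2 : ℕ) N M.A a')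
    (o : a' ∈ M.O (μ + d * (j + 2 : ℕ))) (e : μ + d * (j + 2) + 3 / 2 ≤ N) :
    M.lap M.g (M.lap M.g (4 * a')) - M.NU (M.PU (M.I a)) ∈ M.O (μ + d * (j + 2) + 3 / 2) := by
  have n0 : ((j + 2 : ℕ) : ℤ) ≠ 0 := by omega
  have x := (xi_co d1 d2 hU μ0 hA hP h h' o (by linarith) rfl).I
  have c := ((h'.sub (Co.of_K n0 (M.δ_ev M.A))).lap M.Sg).sub
    ((h'.δ.sub (Co.of_K n0 (M.δ_ev (M.δ M.A)))).I.I.le (by linarith : N ≤ N + 1 + 1))
  have c' := (c.lap M.Sg).le e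
  rw [M.sys.eB] at c'
  have u := c'.unique ((x.le (by linarith)).sub (Co.of_K n0 (M.δ_ev _)))
  push_cast at o
  have v := O_lap M.g (O_I' (O_I (O_smul (((j + 2 : ℕ) : ℤ) * M.c) o))
    (by linarith : μ + d * (j + 2) + 3 / 2 ≤ _))
  have f4 : (4 : M.R) * a' = (4 : ℂ) • a' := by
    rw [Algebra.smul_def, map_ofNat]
  convert O_smul 4 (add_mem u v) using 1
  simp only [f4, NU, sub_zero, lap_sub, lap_smul, map_smul]
  module

end XHar

open XHar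

theorem rowHar : OfHar := by
  intro hE hX M d m hd hU hm h0
  have d1 : 1 ≤ d := by rcases hd with rfl | rfl <;> norm_num
  have d2 : d ≤ 2 := by rcases hd with rfl | rfl <;> norm_num
  have hA := fun n => (hX M d m hd hU hm h0 n).1
  have hP := fun n => (hX M d m hd hU hm h0 n).2
  obtain ⟨-, -, e3, -⟩ := hE M m (by linarith) (M.f_of h0)
  obtain ⟨a, r, c⟩ := coef M.sys.rA (hA (m + 20))
  refine ⟨a, ?_, r, fun k => ?_, fun j hj => ⟨(c j).1, ?_, fun h2 => ?_⟩⟩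
  · exact (((c 0).2.sub (Co.self M.δ_A0)).le (by linarith)).O e3
  · exact eqL (c 0).2 (c 2).2 (by linarith) (g0 (0 + 1) ((RL_G d1 hA hP (m + 20)).2 k)
      (by linarith) (by push_cast; linarith))
  · have j4 : (j : ℝ) ≤ 4 := by exact_mod_cast hj
    have b : d * j ≤ 8 := by nlinarith [Nat.cast_nonneg (α := ℝ) j]
    have u := eqL (t := m + d * j + 3 / 2) (c j).2 (c (j + 2)).2 (by linarith)
      (g0 (j + 1) (RL_G d1 hA hP (m + 20)).1 (by linarith) (by push_cast; linarith))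
    have v := O_le (O_cj (LU_O (O_cj (c (j + 2)).1)))
      (show m + d * j + 3 / 2 ≤ _ by push_cast; linarith)
    simpa using sub_mem u v
  · have j4 : (j : ℝ) ≤ 2 := by exact_mod_cast h2
    have b : d * j ≤ 4 := by nlinarith [Nat.cast_nonneg (α := ℝ) j]
    exact eqB d1 d2 hU (by linarith) hA hP (c j).2 (c (j + 2)).2 (c (j + 2)).1 (by linarith)

end Pool.Agent.MP_ed9623_an.R10
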