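import Pool.Agent.MP_ed9623_an.R10.Spec

/-! A finite closed system of flat functions, by the Hilbert basis theorem. -/

namespace Pool.Agent.MP_ed9623_an.R10

namespace XHb

variable {C : Type} [CommRing C] [Algebra ℂ C] {p q : C →ₗ[ℂ] C} {U V : C} {m n : ℕ}
  {B : Subalgebra ℂ C}

/-- The product rule. -/
def Dr (p : C →ₗ[ℂ] C) : Prop := ∀ a b, p (a * b) = p a * b + a * p b

theorem Dr.one (h : Dr p) : p 1 = 0 := by simpa using h 1 1

theorem Dr.nat (h : Dr p) (k : ℕ) [k.AtLeastTwo] : p (OfNat.ofNat k : C) = 0 := by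
  rw [← map_ofNat (algebraMap ℂ C), Algebra.algebraMap_eq_smul_one, map_smul, h.one, smul_zero]

theorem Dr.adj (h : Dr p) {S : Set C} (h₁ : ∀ s ∈ S, s ∈ B ∧ p s ∈ B) {x : C}
    (hx : x ∈ Algebra.adjoin ℂ S) : x ∈ B ∧ p x ∈ B := by
  induction hx using Algebra.adjoin_induction with
  | mem x hx => exact h₁ x hx
  | algebraMap r =>
    refine ⟨B.algebraMap_mem r, ?_⟩
    rw [Algebra.algebraMap_eq_smul_one, map_smul, h.one, smul_zero]
    exact zero_mem _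
  | add x y _ _ u v => exact ⟨add_mem u.1 v.1, map_add p x y ▸ add_mem u.2 v.2⟩
  | mul x y _ _ u v => exact ⟨mul_mem u.1 v.1, h x y ▸ add_mem (mul_mem u.2 v.1) (mul_mem u.1 v.2)⟩

/-- The jets. -/
def Js (p q : C →ₗ[ℂ] C) (U V : C) (m n : ℕ) : Set C :=
  {x | ∃ W, (W = U ∨ W = V) ∧ ((∃ i ≤ m, x = p^[i] W) ∨ ∃ i ≤ n, x = q^[i] W)}

theorem Js_symm : Js q p V U n m = Js p q U V m n := by
  ext x; simp only [Js, Set.mem_ofPred_eq, or_comm]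

theorem Js_fin : (Js p q U V m n).Finite := by
  refine (((Set.finite_Iic m).image2 (fun i W => p^[i] W) (Set.toFinite {U, V})).union
    ((Set.finite_Iic n).image2 (fun i W => q^[i] W) (Set.toFinite {U, V}))).subset ?_
  rintro _ ⟨W, hW, ⟨i, h, rfl⟩ | ⟨i, h, rfl⟩⟩
  exacts [Or.inl ⟨i, h, W, hW, rfl⟩, Or.inr ⟨i, h, W, hW, rfl⟩]

theorem Js_mono {m' n' : ℕ} (e : m ≤ m') (e' : n ≤ n') : Js p q U V m n ⊆ Js p q U V m' n' :=
  fun _ ⟨W, hW, h⟩ => ⟨W, hW, h.imp (fun ⟨i, a, b⟩ => ⟨i, a.trans e, b⟩)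
    fun ⟨i, a, b⟩ => ⟨i, a.trans e', b⟩⟩

/-- The hypotheses on the two derivations. -/
structure Hy (p q : C →ₗ[ℂ] C) (U V : C) (c c' : ℂ) : Prop where
  dp : Dr p
  dq : Dr q
  cm : ∀ a, p (q a) = q (p a)
  hU : p (q U) = c • U
  hV : p (q V) = c' • V

variable {c c' : ℂ}

theorem Hy.symm (h : Hy p q U V c c') : Hy q p V U c' c :=
  ⟨h.dq, h.dp, fun a => (h.cm a).symm, h.cm V ▸ h.hV, h.cm U ▸ h.hU⟩

theorem Hy.js (h : Hy p q U V c c') (hB : Js p q U V (m + 1) n ⊆ B) :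
    ∀ s ∈ Js p q U V m n, s ∈ B ∧ p s ∈ B := by
  refine fun s hs => ⟨hB (Js_mono (by omega) le_rfl hs), ?_⟩
  obtain ⟨W, hW, ⟨i, e, rfl⟩ | ⟨i, e, rfl⟩⟩ := hs
  · exact hB ⟨W, hW, Or.inl ⟨i + 1, by omega, (Function.iterate_succ_apply' p i W).symm⟩⟩
  · cases i with
    | zero => exact hB ⟨W, hW, Or.inl ⟨1, by omega, rfl⟩⟩
    | succ i =>
      obtain ⟨k, hk⟩ : ∃ k : ℂ, p (q W) = k • W := by
        rcases hW with rfl | rfl
        exacts [⟨_, h.hU⟩, ⟨_, h.hV⟩]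
      rw [Function.iterate_succ_apply, (Function.Commute.iterate_right h.cm i).eq, hk,
        ← Module.End.pow_apply, map_smul, Module.End.pow_apply]
      exact B.smul_mem (hB ⟨W, hW, Or.inr ⟨i, by omega, rfl⟩⟩) k

/-- The algebra generated by the jets. -/
abbrev K (p q : C →ₗ[ℂ] C) (U V : C) (m n : ℕ) : Subalgebra ℂ C :=
  Algebra.adjoin ℂ (Js p q U V m n)

theorem Hy.kp (h : Hy p q U V c c') {x : C} (hx : x ∈ K p q U V m n) :
    x ∈ K p q U V (m + 1) n ∧ p x ∈ K p q U V (m + 1) n :=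
  h.dp.adj (h.js Algebra.subset_adjoin) hx

theorem Hy.kq (h : Hy p q U V c c') {x : C} (hx : x ∈ K p q U V m n) :
    x ∈ K p q U V m (n + 1) ∧ q x ∈ K p q U V m (n + 1) := by
  rw [K, ← Js_symm] at hx ⊢
  exact h.symm.kp hx

/-- The resultant. -/
def Rs (a t b a' t' b' : C) : C := (a * a' - b * b') ^ 2 - 4 * (a * t' - b' * t) * (t * a' - t' * b)

theorem Dr.rs (h : Dr p) (a t b a' t' b' : C) : p (Rs a t b a' t' b')
    = ra a t b a' t' b' * p a + rb a t b a' t' b' * p b'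
      + (2 * (a * a' - b * b') * (a * p a' - p b * b') - 4 * (a * p t' - b' * p t) * (t * a' - t' * b)
        - 4 * (a * t' - b' * t) * (p t * a' + t * p a' - p t' * b - t' * p b)) := by
  simp only [Rs, ra, rb, sq, map_sub, h _ _, h.nat]
  ring

theorem Hy.mem (h : Hy p q U V c c') : (p (p U) ∈ K p q U V 2 2 ∧ c • U ∈ K p q U V 2 2 ∧
    q (q U) ∈ K p q U V 2 2 ∧ q (q V) ∈ K p q U V 2 2 ∧ c' • V ∈ K p q U V 2 2 ∧
    p (p V) ∈ K p q U V 2 2) ∧ p (c • U) ∈ K p q U V 2 2 ∧ p (q (q U)) ∈ K p q U V 2 2 ∧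
    p (q (q V)) ∈ K p q U V 2 2 ∧ p (c' • V) ∈ K p q U V 2 2 := by
  have a : ∀ W, W = U ∨ W = V → ∀ i ≤ 2, p^[i] W ∈ K p q U V 2 2 := fun W hW i e =>
    Algebra.subset_adjoin ⟨W, hW, Or.inl ⟨i, e, rfl⟩⟩
  have b : ∀ W, W = U ∨ W = V → ∀ i ≤ 2, q^[i] W ∈ K p q U V 1 2 := fun W hW i e =>
    Algebra.subset_adjoin ⟨W, hW, Or.inr ⟨i, e, rfl⟩⟩
  have u : U = U ∨ U = V := Or.inl rfl
  have v : V = U ∨ V = V := Or.inr rfl
  have u0 := h.kp ((K p q U V 1 2).smul_mem (b U u 0 (by omega)) c)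
  have v0 := h.kp ((K p q U V 1 2).smul_mem (b V v 0 (by omega)) c')
  have u2 := h.kp (b U u 2 le_rfl)
  have v2 := h.kp (b V v 2 le_rfl)
  exact ⟨⟨a U u 2 le_rfl, u0.1, u2.1, v2.1, v0.1, a V v 2 le_rfl⟩, u0.2, u2.2, v2.2, v0.2⟩

theorem ra_mem {a t b a' t' b' : C} (h : a ∈ B ∧ t ∈ B ∧ b ∈ B ∧ a' ∈ B ∧ t' ∈ B ∧ b' ∈ B) :
    ra a t b a' t' b' ∈ B ∧ rb a t b a' t' b' ∈ B ∧ Rs a t b a' t' b' ∈ B := by
  obtain ⟨h₁, h₂, h₃, h₄, h₅, h₆⟩ := h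
  unfold ra rb Rs
  refine ⟨?_, ?_, ?_⟩ <;>
    apply_rules [sub_mem, add_mem, mul_mem, neg_mem, pow_mem, ofNat_mem]

/-- The jets of order four, modulo the ideal. -/
theorem Hy.side (h : Hy p q U V c c') (J : Ideal C) (hp : ∀ a ∈ J, p a ∈ J) (hq : ∀ a ∈ J, q a ∈ J)
    {α β d : C} (hα : α = ra (p (p U)) (c • U) (q (q U)) (q (q V)) (c' • V) (p (p V)))
    (hβ : β = rb (p (p U)) (c • U) (q (q U)) (q (q V)) (c' • V) (p (p V)))
    (hR : Rs (p (p U)) (c • U) (q (q U)) (q (q V)) (c' • V) (p (p V)) ∈ J)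
    (hB : Js p q U V 3 3 ⊆ B) (hd : d ∈ B) (e : d * (α * q β - β * q α) = 1) :
    ∀ W, W = U ∨ W = V → ∃ φ ∈ B, p^[4] W - φ ∈ J := by
  obtain ⟨m₀, m₁, m₂, m₃, m₄⟩ := h.mem
  obtain ⟨a₀, b₀, -⟩ := ra_mem m₀
  rw [← hα] at a₀
  rw [← hβ] at b₀
  obtain ⟨L, l₀, e₁⟩ : ∃ L ∈ K p q U V 2 2, α * p^[3] U + β * p^[3] V + L ∈ J := by
    have := hp _ hR
    rw [h.dp.rs, ← hα, ← hβ] at this
    refine ⟨_, ?_, this⟩
    obtain ⟨h₁, h₂, h₃, h₄, h₅, h₆⟩ := m₀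
    exact sub_mem (sub_mem (mul_mem (mul_mem (ofNat_mem _ 2) (sub_mem (mul_mem h₁ h₄)
      (mul_mem h₃ h₆))) (sub_mem (mul_mem h₁ m₃) (mul_mem m₂ h₆))) (mul_mem (mul_mem
      (ofNat_mem _ 4) (sub_mem (mul_mem h₁ m₄) (mul_mem h₆ m₁))) (sub_mem (mul_mem h₂ h₄)
      (mul_mem h₅ h₃)))) (mul_mem (mul_mem (ofNat_mem _ 4) (sub_mem (mul_mem h₁ h₅)
      (mul_mem h₆ h₂))) (sub_mem (sub_mem (add_mem (mul_mem m₁ h₄) (mul_mem h₂ m₃))
      (mul_mem m₄ h₃)) (mul_mem h₅ m₂)))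
  have j : ∀ W, W = U ∨ W = V → p^[3] W ∈ K p q U V 3 2 := fun W hW =>
    Algebra.subset_adjoin ⟨W, hW, Or.inl ⟨3, le_rfl, rfl⟩⟩
  have u : U = U ∨ U = V := Or.inl rfl
  have v : V = U ∨ V = V := Or.inr rfl
  obtain ⟨L₂, l₂, e₂⟩ : ∃ L ∈ K p q U V 3 2, α * p^[4] U + β * p^[4] V + L ∈ J := by
    refine ⟨p α * p^[3] U + p β * p^[3] V + p L, add_mem (add_mem (mul_mem (h.kp a₀).2 (j U u))
      (mul_mem (h.kp b₀).2 (j V v))) (h.kp l₀).2, ?_⟩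
    have := hp _ e₁
    rw [map_add, map_add, h.dp, h.dp] at this
    convert this using 1
    simp only [Function.iterate_succ_apply' p 3]
    ring
  have k : ∀ (W : C) (k : ℂ), p (q W) = k • W → q (p^[4] W) = k • p^[3] W := fun W k a => by
    rw [Function.iterate_succ_apply p 3, (Function.Commute.iterate_right h.symm.cm 3).eq, ← h.cm,
      a, ← Module.End.pow_apply, map_smul, Module.End.pow_apply]
  have s : K p q U V 3 3 ≤ B := Algebra.adjoin_le hB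
  obtain ⟨L₃, l₃, e₃⟩ : ∃ L ∈ B, q α * p^[4] U + q β * p^[4] V + L ∈ J := by
    refine ⟨α * c • p^[3] U + β * c' • p^[3] V + q L₂, s (add_mem (h.kq (add_mem
      (mul_mem (h.kp a₀).1 (Subalgebra.smul_mem _ (j U u) c))
      (mul_mem (h.kp b₀).1 (Subalgebra.smul_mem _ (j V v) c')))).1 (h.kq l₂).2), ?_⟩
    have := hq _ e₂
    rw [map_add, map_add, h.dq, h.dq, k U c h.hU, k V c' h.hV] at this
    convert this using 1
    ring
  have a₁ := h.kq (h.kp a₀).1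
  have b₁ := h.kq (h.kp b₀).1
  have l₂' := s (h.kq l₂).1
  rintro W (rfl | rfl)
  · refine ⟨d * (β * L₃ - q β * L₂), mul_mem hd (sub_mem (mul_mem (s b₁.1) l₃)
      (mul_mem (s b₁.2) l₂')), ?_⟩
    convert J.mul_mem_left d (sub_mem (J.mul_mem_left (q β) e₂) (J.mul_mem_left β e₃)) using 1
    linear_combination -p^[4] W * e
  · refine ⟨d * (q α * L₂ - α * L₃), mul_mem hd (sub_mem (mul_mem (s a₁.2) l₂')
      (mul_mem (s a₁.1) l₃)), ?_⟩
    convert J.mul_mem_left d (sub_mem (J.mul_mem_left α e₃) (J.mul_mem_left (q α) e₂)) using 1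
    linear_combination -p^[4] W * e

/-- A subalgebra plus an ideal. -/
def pl (A : Subalgebra ℂ C) (I : Ideal C) : Subalgebra ℂ C :=
  (A.map (Ideal.Quotient.mkₐ ℂ I)).comap (Ideal.Quotient.mkₐ ℂ I)

theorem mem_pl {A : Subalgebra ℂ C} {I : Ideal C} {x : C} : x ∈ pl A I ↔ ∃ a ∈ A, x - a ∈ I := by
  simp only [pl, Subalgebra.mem_comap, Subalgebra.mem_map, Ideal.Quotient.mkₐ_eq_mk,
    eq_comm (b := Ideal.Quotient.mk I x), Ideal.Quotient.eq]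

/-- The Hilbert basis theorem. -/
theorem basis {S : Set C} (hS : S.Finite) (J : Ideal C) : ∃ G : Set C, G.Finite ∧
    (∀ x ∈ G, x ∈ J ∧ x ∈ Algebra.adjoin ℂ S) ∧
    ∀ x ∈ J, x ∈ Algebra.adjoin ℂ S → x ∈ Ideal.span G := by
  have := isNoetherianRing_of_fg (Subalgebra.fg_def.2 ⟨S, hS, rfl⟩ : (Algebra.adjoin ℂ S).FG)
  obtain ⟨T, hT, e⟩ := Submodule.fg_def.1 (IsNoetherian.noetherian
    (J.comap (Algebra.adjoin ℂ S).val.toRingHom))
  refine ⟨Subtype.val '' T, hT.image _, ?_, fun x a b => ?_⟩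
  · rintro _ ⟨x, hx, rfl⟩
    exact ⟨(e ▸ Submodule.subset_span hx : x ∈ J.comap (Algebra.adjoin ℂ S).val.toRingHom), x.2⟩
  · have k : (⟨x, b⟩ : Algebra.adjoin ℂ S) ∈ Ideal.span T := by
      rw [Ideal.span, e]; exact a
    have := Ideal.mem_map_of_mem (Algebra.adjoin ℂ S).val.toRingHom k
    rwa [Ideal.map_span] at this

theorem Dr.span (h : Dr p) {T : Set C} {I : Ideal C} (h₁ : ∀ s ∈ T, s ∈ I ∧ p s ∈ I) {x : C}
    (hx : x ∈ Ideal.span T) : x ∈ I ∧ p x ∈ I := by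
  induction hx using Submodule.span_induction with
  | mem x hx => exact h₁ x hx
  | zero => simp
  | add x y _ _ u v => exact ⟨add_mem u.1 v.1, map_add p x y ▸ add_mem u.2 v.2⟩
  | smul a x _ u =>
    rw [smul_eq_mul, h]
    exact ⟨I.mul_mem_left _ u.1, add_mem (I.mul_mem_left _ u.1) (I.mul_mem_left _ u.2)⟩

/-- The closed system of the first order. -/
theorem Hy.main (h : Hy p q U V c c') (J : Ideal C) (hp : ∀ a ∈ J, p a ∈ J) (hq : ∀ a ∈ J, q a ∈ J)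
    {α β α' β' : C} (hα : α = ra (p (p U)) (c • U) (q (q U)) (q (q V)) (c' • V) (p (p V)))
    (hβ : β = rb (p (p U)) (c • U) (q (q U)) (q (q V)) (c' • V) (p (p V)))
    (hα' : α' = ra (q (q V)) (c' • V) (p (p V)) (p (p U)) (c • U) (q (q U)))
    (hβ' : β' = rb (q (q V)) (c' • V) (p (p V)) (p (p U)) (c • U) (q (q U)))
    (hR : Rs (p (p U)) (c • U) (q (q U)) (q (q V)) (c' • V) (p (p V)) ∈ J)
    (u : IsUnit (α * q β - β * q α)) (u' : IsUnit (α' * p β' - β' * p α')) :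
    ∃ T : Set C, T.Finite ∧ (∀ x ∈ T, x ∈ J) ∧
      Rs (p (p U)) (c • U) (q (q U)) (q (q V)) (c' • V) (p (p V)) ∈ Ideal.span T ∧
      ∀ x ∈ T, p x ∈ Ideal.span T ∨ q x ∈ Ideal.span T := by
  obtain ⟨d, e⟩ := u.exists_left_inv
  obtain ⟨d', e'⟩ := u'.exists_left_inv
  obtain ⟨G, fG, hG, sG⟩ := basis (S := Js p q U V 3 3 ∪ {d, d'}) (Js_fin.union (Set.toFinite _)) J
  set A := Algebra.adjoin ℂ (Js p q U V 3 3 ∪ {d, d'})
  have sA : Js p q U V 3 3 ⊆ A := fun x a => Algebra.subset_adjoin (Or.inl a)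
  have kA : K p q U V 3 3 ≤ A := Algebra.adjoin_le sA
  have s₁ := h.side J hp hq hα hβ hR sA (Algebra.subset_adjoin (Or.inr (Or.inl rfl))) e
  have s₂ := h.symm.side J hq hp hα' hβ' (by convert hR using 1; unfold Rs; ring)
    (Js_symm.subset.trans sA) (Algebra.subset_adjoin (Or.inr (Or.inr rfl))) e'
  choose! φ φA φJ using s₁
  choose! ψ ψA ψJ using s₂
  set E : Set C := (fun W => p^[4] W - φ W) '' {U, V} ∪ (fun W => q^[4] W - ψ W) '' {V, U}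
  have EJ : ∀ x ∈ E, x ∈ J := by
    rintro _ (⟨W, a, rfl⟩ | ⟨W, a, rfl⟩)
    exacts [φJ W a, ψJ W a]
  have AB : ∀ x ∈ A, x ∈ pl A (Ideal.span E) := fun x a => mem_pl.2 ⟨x, a, by simp⟩
  have j₁ : Js p q U V 4 4 ⊆ pl A (Ideal.span E) := by
    rintro _ ⟨W, a, ⟨i, b, rfl⟩ | ⟨i, b, rfl⟩⟩ <;> rcases b.lt_or_eq with b | rfl
    · exact AB _ (sA ⟨W, a, Or.inl ⟨i, by omega, rfl⟩⟩)
    · exact mem_pl.2 ⟨φ W, φA W a, Ideal.subset_span (Or.inl ⟨W, a, rfl⟩)⟩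
    · exact AB _ (sA ⟨W, a, Or.inr ⟨i, by omega, rfl⟩⟩)
    · exact mem_pl.2 ⟨ψ W, ψA W a.symm, Ideal.subset_span (Or.inr ⟨W, a.symm, rfl⟩)⟩
  have k₁ := h.js ((Js_mono (m := 3 + 1) (n := 3) le_rfl (by omega)).trans j₁)
  have k₂ := h.symm.js (Js_symm.subset.trans ((Js_mono (m := 3) (n := 3 + 1) (by omega) le_rfl).trans j₁))
  rw [Js_symm] at k₂
  obtain ⟨a₀, b₀, r₀⟩ := ra_mem h.mem.1
  obtain ⟨a₁, b₁, -⟩ := ra_mem h.symm.mem.1
  rw [← hα] at a₀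
  rw [← hβ] at b₀
  rw [← hα', K, Js_symm] at a₁
  rw [← hβ', K, Js_symm] at b₁
  have n₀ : α * q β - β * q α ∈ K p q U V 3 3 :=
    (h.kp (sub_mem (mul_mem (h.kq a₀).1 (h.kq b₀).2) (mul_mem (h.kq b₀).1 (h.kq a₀).2))).1
  have n₁ : α' * p β' - β' * p α' ∈ K p q U V 3 3 :=
    (h.kq (sub_mem (mul_mem (h.kp a₁).1 (h.kp b₁).2) (mul_mem (h.kp b₁).1 (h.kp a₁).2))).1
  have key : ∀ r : C →ₗ[ℂ] C, Dr r →
      (∀ s ∈ Js p q U V 3 3, s ∈ pl A (Ideal.span E) ∧ r s ∈ pl A (Ideal.span E)) →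
      ∀ x ∈ A, r x ∈ pl A (Ideal.span E) := fun r dr k x a => by
    have i : ∀ d w : C, d ∈ A → w ∈ K p q U V 3 3 → d * w = 1 →
        d ∈ pl A (Ideal.span E) ∧ r d ∈ pl A (Ideal.span E) := fun d w a b e => by
      refine ⟨AB d a, ?_⟩
      have z := dr d w
      rw [e, dr.one] at z
      rw [show r d = -(d * d * r w) by linear_combination -d * z - r d * e]
      exact neg_mem (mul_mem (AB _ (mul_mem a a)) (dr.adj k b).2)
    refine (dr.adj ?_ a).2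
    rintro s (b | rfl | rfl)
    · exact k s b
    · exact i _ _ (Algebra.subset_adjoin (Or.inr (Or.inl rfl))) n₀ e
    · exact i _ _ (Algebra.subset_adjoin (Or.inr (Or.inr rfl))) n₁ e'
  have fin : ∀ x ∈ J, x ∈ pl A (Ideal.span E) → x ∈ Ideal.span (G ∪ E) := fun x a b => by
    obtain ⟨y, yA, z⟩ := mem_pl.1 b
    have : y ∈ J := by simpa using sub_mem a (Ideal.span_le.2 EJ z)
    simpa using add_mem (Ideal.span_mono Set.subset_union_left (sG y this yA))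
      (Ideal.span_mono Set.subset_union_right z)
  refine ⟨G ∪ E, fG.union (Set.toFinite _), fun x a => a.elim (fun a => (hG x a).1) (EJ x),
    fin _ hR (AB _ (kA (h.kq (h.kp r₀).1).1)), ?_⟩
  rintro x (a | a)
  · exact Or.inl (fin _ (hp x (hG x a).1) (key p h.dp k₁ x (hG x a).2))
  · have xJ := EJ x a
    obtain ⟨W, b, rfl⟩ | ⟨W, b, rfl⟩ := a
    · refine Or.inr (fin _ (hq _ xJ) ?_)
      rw [map_sub]
      exact sub_mem (h.symm.js (m := 3) (n := 4) (Js_symm.subset.trans j₁) _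
        ⟨W, Or.symm b, Or.inr ⟨4, le_rfl, rfl⟩⟩).2 (key q h.dq k₂ _ (φA W b))
    · refine Or.inl (fin _ (hp _ xJ) ?_)
      rw [map_sub]
      exact sub_mem (h.js (m := 3) (n := 4) j₁ _
        ⟨W, Or.symm b, Or.inr ⟨4, le_rfl, rfl⟩⟩).2 (key p h.dp k₁ _ (ψA W b))

end XHb

open XHb

theorem rowHb : OfHb := by
  intro C _ _ D₁ D₂ U V c J d₁ d₂ cm hU hV hJ hR u u'
  have jj : algebraMap ℂ C Complex.I * algebraMap ℂ C Complex.I = -1 := by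
    rw [← map_mul, Complex.I_mul_I, map_neg, map_one]
  have pq : ∀ a, (D₁ - Complex.I • D₂) ((D₁ + Complex.I • D₂) a) = lq D₁ D₂ a := fun a => by
    simp only [LinearMap.sub_apply, LinearMap.add_apply, LinearMap.smul_apply, map_add, map_smul,
      cm, lq]
    simp only [Algebra.smul_def]
    linear_combination -D₂ (D₂ a) * jj
  have qp : ∀ a, (D₁ + Complex.I • D₂) ((D₁ - Complex.I • D₂) a) = lq D₁ D₂ a := fun a => by
    simp only [LinearMap.sub_apply, LinearMap.add_apply, LinearMap.smul_apply, map_sub, map_smul,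
      cm, lq]
    simp only [Algebra.smul_def]
    linear_combination -D₂ (D₂ a) * jj
  have h : Hy (D₁ - Complex.I • D₂) (D₁ + Complex.I • D₂) U V c (-c) := by
    refine ⟨fun a b => ?_, fun a b => ?_, fun a => (pq a).trans (qp a).symm, (pq U).trans hU,
      (pq V).trans hV⟩ <;>
    · simp only [LinearMap.sub_apply, LinearMap.add_apply, LinearMap.smul_apply, d₁, d₂]
      simp only [Algebra.smul_def]
      ring
  have r : Rs ((D₁ - Complex.I • D₂) ((D₁ - Complex.I • D₂) U)) (c • U)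
      ((D₁ + Complex.I • D₂) ((D₁ + Complex.I • D₂) U))
      ((D₁ + Complex.I • D₂) ((D₁ + Complex.I • D₂) V)) (-c • V)
      ((D₁ - Complex.I • D₂) ((D₁ - Complex.I • D₂) V)) = 16 * rC D₁ D₂ U V := by
    have k : ∀ W, (D₁ - Complex.I • D₂) ((D₁ - Complex.I • D₂) W) = D₁ (D₁ W) - D₂ (D₂ W)
        - 2 * algebraMap ℂ C Complex.I * D₁ (D₂ W) ∧ (D₁ + Complex.I • D₂) ((D₁ + Complex.I • D₂) W)
        = D₁ (D₁ W) - D₂ (D₂ W) + 2 * algebraMap ℂ C Complex.I * D₁ (D₂ W) := fun W => by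
      simp only [LinearMap.sub_apply, LinearMap.add_apply, LinearMap.smul_apply, map_sub, map_add,
        map_smul, cm]
      simp only [Algebra.smul_def]
      constructor <;> linear_combination D₂ (D₂ W) * jj
    rw [(k U).1, (k U).2, (k V).1, (k V).2, ← hU, ← hV, Rs, rC, lq, lq]
    linear_combination (16 * ((D₁ (D₁ U) - D₂ (D₂ U)) * D₁ (D₂ V)
      - D₁ (D₂ U) * (D₁ (D₁ V) - D₂ (D₂ V))) ^ 2 - 16 * (D₁ (D₂ U) * (D₁ (D₁ V) + D₂ (D₂ V))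
      - D₁ (D₂ V) * (D₁ (D₁ U) + D₂ (D₂ U))) ^ 2) * jj
  have sm : ∀ (I : Ideal C) (s : ℂ) a, a ∈ I → s • a ∈ I := fun I s a k => by
    rw [Algebra.smul_def]; exact I.mul_mem_left _ k
  rw [dd, hU, hV] at u u'
  obtain ⟨T, fT, TJ, RT, cl⟩ := h.main J
    (fun a k => sub_mem (hJ a k).1 (sm J _ _ (hJ a k).2))
    (fun a k => add_mem (hJ a k).1 (sm J _ _ (hJ a k).2)) rfl rfl rfl rfl
    (r ▸ J.mul_mem_left _ hR) u u'
  obtain ⟨n, f, -, rfl⟩ := fT.fin_param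
  refine ⟨n, f, fun i => TJ _ ⟨i, rfl⟩, ?_, fun i => ?_⟩
  · have := sm _ (16 : ℂ)⁻¹ _ RT
    rwa [r, ← map_ofNat (algebraMap ℂ C), ← Algebra.smul_def, smul_smul,
      inv_mul_cancel₀ (by norm_num), one_smul] at this
  · have k : ∀ s ∈ Set.range f, s ∈ Ideal.span (Set.range f ∪ Set.range (fun j => D₁ (f j))
        ∪ Set.range fun j => D₂ (f j)) ∧ D₁ s ∈ Ideal.span (Set.range f
        ∪ Set.range (fun j => D₁ (f j)) ∪ Set.range fun j => D₂ (f j)) ∧ D₂ s ∈ Ideal.span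
        (Set.range f ∪ Set.range (fun j => D₁ (f j)) ∪ Set.range fun j => D₂ (f j)) := by
      rintro _ ⟨j, rfl⟩
      exact ⟨Ideal.subset_span (Or.inl (Or.inl ⟨j, rfl⟩)), Ideal.subset_span
        (Or.inl (Or.inr ⟨j, rfl⟩)), Ideal.subset_span (Or.inr ⟨j, rfl⟩)⟩
    rcases cl _ ⟨i, rfl⟩ with a | a
    · rw [← qp]
      exact (h.dq.span (fun s b => ⟨(k s b).1, add_mem (k s b).2.1 (sm _ _ _ (k s b).2.2)⟩) a).2
    · rw [← pq]
      exact (h.dp.span (fun s b => ⟨(k s b).1, sub_mem (k s b).2.1 (sm _ _ _ (k s b).2.2)⟩) a).2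

end Pool.Agent.MP_ed9623_an.R10
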