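import Pool.Agent.MP_ed9623_an.R10.Base4

/-! Inversion of the Laplacian, integration in time and division, on flat levels. -/

namespace Pool.Agent.MP_ed9623_an.R10

open FA

namespace XLapF

theorem lapF (hx : LvXS) : LapFS := by
  intro F g n sg u le j hj a ha hl
  have lj : F.Lv (j + 1) F.el := le.le (by omega)
  have P := (hx F n le j (by omega) a).2.2 hj ha
  have TP := ((hx F n le (j + 1) (by omega) _).2.1 P).2
  have Q := (hx F n le j (by omega) (F.el * a)).2.2 hj (FL.mul lj.pred ha)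
  have lg : F.Lv (j + 1) g := Lv.of_bv sg.1 _
  have k := (((hl.add (FL.mul ((Lv.two _).mul lg) P)).add
    (FL.mul (Lv.of_bv sg.X.1 _) ha.I)).sub TP).add Q
  have e : (1 + (g + F.el) ^ 2) * a = F.lap g a + 2 * g * (F.T a + F.el * a) + F.X g * F.I a
      - F.T (F.T a + F.el * a) + (F.T (F.el * a) + F.el * (F.el * a)) := by
    rw [lap, map_add]; ring
  obtain ⟨b, hb⟩ := u.exists_right_inv
  have lb := Lv.inv ((Lv.one (j + 1)).add (lg.add lj).sq) hb (by simp [δ_sq, sg.2])
  have := FL.mul lb (e ▸ k)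
  rwa [← mul_assoc, mul_comm b, hb, one_mul] at this

theorem intL : IntLS := by
  intro F n
  induction n with
  | zero => exact fun a _ h => FL.zero.2 fun M => O_int (FL.zero.1 h M)
  | succ n ih =>
    rintro a ⟨a', d, l⟩ h
    obtain ⟨b, e, hb⟩ := FL.succ.1 h
    have e' : F.δ a' = b := d.δ.unique (e ▸ Dy.I b)
    have z : F.ev (F.bv a) = F.bv a := F.ev_of _ (by rw [F.δ_bv, e, F.bv_I])
    refine FL.succ.2 ⟨a' - F.ev a', ?_, ih a' l (e' ▸ hb)⟩
    rw [map_sub, ← F.ev_I, d.I_eq, map_sub, z]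
    ring

theorem divF : DivFS := by
  intro F n j σ ρ a hσ hρ ha e
  induction n generalizing a with
  | zero => exact fun _ h _ => FL.zero.2 h
  | succ n ih =>
    intro l fa h
    obtain ⟨ρ', d, l'⟩ := id l
    obtain ⟨b, eb, hb⟩ := FL.succ.1 h
    have hρ' := d.δ0 hρ
    have δb : F.δ b = 0 := F.I_inj _ (by rw [← F.δ_I, ← eb, F.δ_mul, hρ, ha]; simp)
    have r : FL F n (b - ρ' * a) := hb.sub (FL.mul l' (ih a ha l.pred fa h.pred))
    obtain ⟨c, -, hc⟩ := O_dvp (m := 1) j one_pos (Ideal.mul_mem_left _ σ (r.fl _))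
    have fc : F.Fl c := fun M => O_divp j (hc ▸ Ideal.mul_mem_left _ σ (r.fl _))
    have δc : F.δ c = 0 := ypow_reg (k := j) (by
      have := congrArg F.δ hc
      simpa [F.δ_mul, δ_pow0 δ_y, hσ, δb, hρ', ha] using this)
    have rc : ρ * c = b - ρ' * a := sub_eq_zero.1 (ypow_reg (k := j) (by
      linear_combination ρ * hc + (b - ρ' * a) * e))
    have z := F.vq j σ ρ ρ' (a - F.I c) hσ hρ hρ' (by rw [map_sub, F.δ_I, ha, δc]; simp) e d
      (by
        have := (d.mul (Dy.I c)).I_eq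
        rw [map_mul, F.bv_I, mul_zero, sub_zero, rc] at this
        rw [mul_sub, eb, ← this, ← map_sub]
        congr 1
        ring)
      (by rw [map_sub, F.bv_I, O_bv (fa 1) one_pos, sub_zero])
    exact FL.succ.2 ⟨c, sub_eq_zero.1 z, ih c δc l.pred fc (rc ▸ r)⟩

end XLapF

theorem rowLapF : OfLapF := fun hx => ⟨XLapF.lapF hx, XLapF.intL, XLapF.divF⟩

end Pool.Agent.MP_ed9623_an.R10
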