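import Pool.Agent.MP_ed9623_an.R10.Base4

/-! A leading term of the pencil gives the division property on a smaller box. -/

namespace Pool.Agent.MP_ed9623_an.R10

open FA Mdl

theorem rowLoc : OfLoc := by
  intro hS P hP M p j r sr r0 ⟨σ, dσ, o⟩ fl
  obtain ⟨b, ob, e⟩ := O_dvp (m := 1 / 2) j (by norm_num) (O_le o (by linarith))
  have db : M.δ b = 0 := ypow_reg (k := j) (by
    have := congrArg M.δ e
    simpa [M.δ_mul, δ_pow0 δ_y j, dσ, M.δ_r1, sr.2] using this)
  have d : M.δ (r + b) = 0 := by rw [map_add, sr.2, db, add_zero]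
  obtain ⟨M', φ, H, p', u⟩ := hP M p (r + b) d
    (by rwa [map_add, sr.1, O_bv ob (by norm_num), add_zero])
  obtain ⟨v, hv⟩ := u.exists_right_inv
  have dv : M'.δ v = 0 := inv_of_δ hv (by rw [← H.δ, d, map_zero])
  have e' : φ σ * M'.r1 = M'.y ^ j * φ (r + b) := by
    rw [← H.r1, ← H.y, ← map_pow, ← map_mul, ← map_mul]
    congr 1
    linear_combination -e
  refine ⟨M', p', hS M' (H.f ▸ H.Fl fl) ⟨φ σ * v, j, ?_, ?_⟩⟩
  · rw [M'.δ_mul, dv, ← H.δ, dσ]; simp
  · linear_combination v * e' + M'.y ^ j * hv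

end Pool.Agent.MP_ed9623_an.R10
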