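import Pool.Agent.MP_ed9623_an.R10.Spec
import Pool.Agent.MP_ed9623_an.R10.Base4

/-! The levels are stable under the derivation along the characteristics. -/

namespace Pool.Agent.MP_ed9623_an.R10

open FA

namespace XLvX

variable {F : FA} {n : ℕ}

theorem lvX (h : F.Lv n F.la) : ∀ j ≤ n + 1, ∀ a, F.Lv j a → F.Lv j (F.X a)
  | 0, _, _, _ => trivial
  | j + 1, e, _, ⟨a', d, k⟩ =>
    ⟨_, d.X, (lvX h j (by omega) a' k).add ((h.le (by omega)).mul k)⟩

theorem olX (h : F.Lv n F.la) {M : ℝ} : ∀ j ≤ n + 1, ∀ a, F.OL j M a → F.OL j M (F.X a)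
  | 0, _, _, k => OL.zero.2 (O_X (OL.zero.1 k))
  | j + 1, e, _, k => by
    obtain ⟨a', rfl, g⟩ := OL.succ.1 k
    exact OL.succ.2 ⟨_, F.X_I a', (olX h j (by omega) a' g).add (OL.mul (h.le (by omega)) g)⟩

theorem olI (h : F.Lv n F.la) {M : ℝ} {j : ℕ} (e : j ≤ n) {a : F.R} (k : F.OL j M a) :
    F.OL (j + 1) M (F.T a + F.el * a) :=
  OL.succ.2 ⟨_, by rw [T_eq, sub_add_cancel], (olX h j (by omega) a k).add (OL.mul (h.le e) k)⟩

end XLvX

open XLvX in
theorem rowLvX : OfLvX := by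
  intro F n h j e a
  have l := h.of_dy Dy.el
  refine ⟨fun k => ⟨lvX l j e a k, ?_⟩, fun k => ⟨fun M => olX l j e a (k M), fun M => ?_⟩,
    fun e k M => olI l e (k M)⟩
  · cases j with
    | zero => trivial
    | succ j =>
      rw [T_eq]
      exact ((lvX l j (by omega) a k.pred).add ((l.le (by omega)).mul k.pred)).I.sub
        ((h.le e).mul k)
  · cases j with
    | zero => exact OL.zero.2 (O_T' (OL.zero.1 (k M)) (by linarith))
    | succ j =>
      have := (olI l (by omega) (k M).pred).add (OL.mul (h.le e).neg (k M))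
      rwa [neg_mul, add_neg_cancel_right] at this

end Pool.Agent.MP_ed9623_an.R10
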