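import Pool.Agent.MP_ed9623_an.R10.Van

/-! Models exist on all boxes. -/

open Filter Topology Set
open scoped ComplexConjugate

namespace Pool.Agent.MP_ed9623_an.R10

open H77 (P Q mem_Q isOpen_Q)
open R46 (Ix C1 CC Lv d1 Hq pk)
open R1 (cz ex hz)

namespace XMk

variable {F : FA} {b : Box} {nn la : P → ℝ} {v : F.R → P → ℂ}

/-- The element `a` has the real time series `G`. -/
def Sr (F : FA) (b : Box) (v : F.R → P → ℂ) (a : F.R) (G : ℕ → P → ℝ) : Prop :=
  ∀ j, ∀ p ∈ b.B, v (F.δ^[j] a) p = G j p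

variable {a a' g : F.R} {G G' : ℕ → P → ℝ} {p : P}

theorem mem0 (hp : p ∈ b.B) : ((p.1, 0) : P) ∈ b.B := ⟨hp.1, b.h0, b.h1⟩

theorem v0 (R : Rep F b nn la v) (hp : p ∈ b.B) : v 0 p = 0 := by
  simpa using R.alg 0 p hp

theorem v1 (R : Rep F b nn la v) (hp : p ∈ b.B) : v 1 p = 1 := by
  simpa using R.alg 1 p hp

theorem vsmul (R : Rep F b nn la v) (s : ℂ) (a : F.R) (hp : p ∈ b.B) :
    v (s • a) p = s * v a p := by
  rw [Algebra.smul_def, R.mul _ _ p hp, R.alg s p hp]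

theorem vsub (R : Rep F b nn la v) (a a' : F.R) (hp : p ∈ b.B) :
    v (a - a') p = v a p - v a' p := by
  rw [eq_sub_iff_add_eq, ← R.add _ _ p hp, sub_add_cancel]

theorem vsum (R : Rep F b nn la v) (s : Finset ℕ) (f : ℕ → F.R) (hp : p ∈ b.B) :
    v (∑ i ∈ s, f i) p = ∑ i ∈ s, v (f i) p := by
  induction s using Finset.induction_on with
  | empty => simpa using v0 R hp
  | insert i s hi ih => rw [Finset.sum_insert hi, Finset.sum_insert hi, R.add _ _ p hp, ih]

theorem com {T : F.R → F.R} (h : ∀ a, F.δ (T a) = T (F.δ a)) (j : ℕ) (a : F.R) :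
    F.δ^[j] (T a) = T (F.δ^[j] a) := by
  induction j generalizing a with
  | zero => rfl
  | succ j ih => rw [Function.iterate_succ_apply, Function.iterate_succ_apply, h, ih]

theorem it0 (h : F.δ a = 0) (j : ℕ) : F.δ^[j + 1] a = 0 := by
  rw [Function.iterate_succ_apply, h, iterate_map_zero]

theorem leib (j : ℕ) (a a' : F.R) : F.δ^[j] (a * a') =
    ∑ i ∈ Finset.range (j + 1), j.choose i • (F.δ^[i] a * F.δ^[j - i] a') := by
  induction j with
  | zero => simp
  | succ j ih =>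
    rw [Function.iterate_succ_apply', ih, map_sum,
      Finset.sum_choose_succ_nsmul (fun i k => F.δ^[i] a * F.δ^[k] a'), ← Finset.sum_add_distrib]
    refine Finset.sum_congr rfl fun i hi => ?_
    rw [map_nsmul, F.δ_mul, show j + 1 - i = j - i + 1 by have := Finset.mem_range.1 hi; omega,
      Function.iterate_succ_apply', Function.iterate_succ_apply', smul_add, add_comm]

theorem eq_of (R : Rep F b nn la v)
    (h : ∀ j, ∀ p ∈ b.B, v (F.δ^[j] a) p = v (F.δ^[j] a') p) : a = a' :=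
  sub_eq_zero.1 (R.ext _ fun j p hp => by rw [iterate_map_sub, vsub R _ _ hp, h j p hp, sub_self])

theorem Sr.eq (h : Sr F b v a G) (R : Rep F b nn la v) (h' : Sr F b v a' G')
    (e : ∀ j, ∀ p ∈ b.B, G j p = G' j p) : a = a' :=
  eq_of R fun j p hp => by rw [h j p hp, h' j p hp, e j p hp]

theorem Sr.zero (h : Sr F b v a G) (R : Rep F b nn la v) (e : ∀ j, ∀ p ∈ b.B, G j p = 0) :
    a = 0 := R.ext _ fun j p hp => by rw [h j p hp, e j p hp, Complex.ofReal_zero]

theorem Sr.add (h : Sr F b v a G) (R : Rep F b nn la v) (h' : Sr F b v a' G') :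
    Sr F b v (a + a') fun j p => G j p + G' j p := fun j p hp => by
  rw [iterate_map_add, R.add _ _ p hp, h j p hp, h' j p hp, Complex.ofReal_add]

theorem Sr.sub (h : Sr F b v a G) (R : Rep F b nn la v) (h' : Sr F b v a' G') :
    Sr F b v (a - a') fun j p => G j p - G' j p := fun j p hp => by
  rw [iterate_map_sub, vsub R _ _ hp, h j p hp, h' j p hp, Complex.ofReal_sub]

theorem Sr.mul (h : Sr F b v a G) (R : Rep F b nn la v) (h' : Sr F b v a' G') :
    Sr F b v (a * a') fun j p =>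
      ∑ i ∈ Finset.range (j + 1), (j.choose i : ℝ) * (G i p * G' (j - i) p) := fun j p hp => by
  rw [leib, vsum R _ _ hp]
  push_cast
  refine Finset.sum_congr rfl fun i _ => ?_
  rw [← Nat.cast_smul_eq_nsmul ℂ, vsmul R _ _ hp, R.mul _ _ p hp, h i p hp, h' _ p hp]

theorem Sr.smul (h : Sr F b v a G) (R : Rep F b nn la v) (s : ℝ) :
    Sr F b v ((s : ℂ) • a) fun j p => s * G j p := fun j p hp => by
  rw [com (T := fun a => (s : ℂ) • a) (fun a => map_smul _ _ a), vsmul R _ _ hp, h j p hp,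
    Complex.ofReal_mul]

theorem Sr.tmul (h : Sr F b v a G) (R : Rep F b nn la v) (hg : F.δ g = 0) {l : P → ℝ}
    (hl : ∀ p ∈ b.B, v g p = l p) : Sr F b v (g * a) fun j p => l p * G j p := fun j p hp => by
  rw [com (T := fun a => g * a) (fun a => by rw [F.δ_mul, hg, zero_mul, zero_add]),
    R.mul _ _ p hp, hl p hp, h j p hp, Complex.ofReal_mul]

theorem Sr.δ (h : Sr F b v a G) : Sr F b v (F.δ a) fun j => G (j + 1) := fun j => h (j + 1)

theorem Sr.bv (h : Sr F b v a G) (R : Rep F b nn la v) :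
    Sr F b v (F.bv a) fun j p => G j (p.1, 0) := fun j p hp => by
  rw [com F.δ_bv, R.bv _ p hp, h j _ (mem0 hp)]

theorem Sr.cj (h : Sr F b v a G) (R : Rep F b nn la v) : F.cj a = a :=
  eq_of R fun j p hp => by
    rw [com (fun a => (F.cj_δ a).symm), R.cj _ p hp, h j p hp, Complex.conj_ofReal]

theorem X_eq (R : Rep F b nn la v) {f f' : P → ℝ} (h : ∀ p ∈ b.B, v a p = f p)
    (hp : p ∈ b.B) (d : HasDerivAt (fun s => f (s, p.2)) (f' p) p.1) : v (F.X a) p = f' p :=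
  (R.X a p hp).unique (d.ofReal_comp.congr_of_eventuallyEq (by
    filter_upwards [isOpen_Ioo.mem_nhds hp.1] with s hs using h (s, p.2) ⟨hs, hp.2⟩))

theorem Sr.X (h : Sr F b v a G) (R : Rep F b nn la v)
    (d : ∀ j, ∀ p ∈ b.B, HasDerivAt (fun s => G j (s, p.2)) (G' j p) p.1) :
    Sr F b v (F.X a) G' := fun j p hp => by
  rw [com F.δ_X]
  exact X_eq R (h j) hp (d j p hp)

theorem Sr.dy (h : Sr F b v a G) (R : Rep F b nn la v) (h' : Sr F b v a' G')
    (c : ∀ j, ContinuousOn (fun p => G' j p * nn p) b.B)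
    (d : ∀ j, ∀ p ∈ b.B, HasDerivAt (fun t => G j (p.1, t)) (G' j p * nn p) p.2) :
    F.Dy a a' := by
  refine eq_of R fun j p hp => ?_
  have m : ∀ t ∈ uIcc 0 p.2, ((p.1, t) : P) ∈ b.B := fun t ht =>
    ⟨hp.1, uIcc_subset_Icc ⟨b.h0, b.h1⟩ hp.2 ht⟩
  have e := intervalIntegral.integral_eq_sub_of_hasDerivAt (f := fun t => G j (p.1, t))
    (f' := fun t => G' j (p.1, t) * nn (p.1, t)) (fun t ht => d j _ (m t ht))
    (((c j).comp (Continuous.continuousOn (by fun_prop)) m).intervalIntegrable)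
  rw [iterate_map_add, R.add _ _ p hp, h.bv R j p hp, com F.δ_I, R.I _ p hp, h j p hp, Iv,
    intervalIntegral.integral_congr (g := fun t => ((G' j (p.1, t) * nn (p.1, t) : ℝ) : ℂ))
      fun t ht => by simp only [h' j _ (m t ht), Complex.ofReal_mul],
    intervalIntegral.integral_ofReal, e]
  simp

/-- The series of a time independent function. -/
def c0 (f : P → ℝ) : ℕ → P → ℝ
  | 0 => f
  | _ + 1 => fun _ => 0

theorem sr_c0 (R : Rep F b nn la v) (h : F.δ a = 0) {f : P → ℝ} (e : ∀ p ∈ b.B, v a p = f p) :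
    Sr F b v a (c0 f)
  | 0, p, hp => e p hp
  | j + 1, p, hp => by rw [it0 h, v0 R hp]; simp [c0]

theorem sur (R : Rep F b nn la v) {r : ℝ} (hb : b.B ⊆ Q r) (h : ∀ j, CC r (G j)) :
    ∃ a, Sr F b v a G := R.sur (fun j p => G j p) fun j => XVan.gd_cc (h j) hb

theorem sur0 (R : Rep F b nn la v) {r : ℝ} (hb : b.B ⊆ Q r) {f : P → ℝ} (h : CC r f) :
    ∃ a, F.δ a = 0 ∧ ∀ p ∈ b.B, v a p = f p := by
  obtain ⟨a, ha⟩ := sur R hb (G := c0 f) fun j => by
    cases j
    exacts [h, fun k => Lv.const _ k 0]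
  exact ⟨a, ha.δ.zero R fun _ _ _ => rfl, ha 0⟩

theorem unit (R : Rep F b nn la v) {r c : ℝ} (hb : b.B ⊆ Q r) {f : P → ℝ} (h : CC r f)
    (hc : 0 < c) (hf : ∀ p ∈ Q r, c ≤ |f p|) (d : F.δ a = 0) (e : ∀ p ∈ b.B, v a p = f p) :
    IsUnit a := by
  obtain ⟨a', d', e'⟩ := sur0 R hb fun k => (h k).inv (isOpen_Q r) hc hf
  have d1 : F.δ 1 = 0 := by simpa using F.δ_mul 1 1
  refine IsUnit.of_mul_eq_one a' (((sr_c0 R d' e').tmul R d e).eq R
    (sr_c0 R d1 (f := fun _ => 1) fun p hp => v1 R hp) fun j p hp => ?_)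
  cases j
  · exact mul_inv_cancel₀ (abs_pos.1 (hc.trans_le (hf p (hb hp))))
  · exact mul_zero _

theorem ev0 (R : Rep F b nn la v) (e : ∀ p ∈ b.B, v a p = 0) : F.ev a = 0 :=
  (sr_c0 R (F.δ_ev a) (f := fun _ => 0) fun p hp => by rw [R.ev a p hp, e p hp]; simp).zero R
    fun j _ _ => by cases j <;> rfl

theorem mem_O (R : Rep F b nn la v) {r : ℝ} (hb : b.B ⊆ Q r) (h : Sr F b v a G)
    (c : ∀ j, CC r (G j)) (z : ∀ j s, |s| < r → G j (s, 0) = 0) : a ∈ F.O (1 / 2) := by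
  intro k
  have s : Sr F b v (F.X^[k] a) fun j => d1^[k] (G j) := by
    clear z
    induction k with
    | zero => exact h
    | succ k ih =>
      simp only [Function.iterate_succ_apply']
      refine ih.X R fun j p hp => ?_
      have := (c j (k + 1)).it_d1 p (hb hp)
      rwa [← Function.iterate_succ_apply, Function.iterate_succ_apply'] at this
  refine (R.Z _ _).2 fun j => ?_
  obtain ⟨M, -, hM⟩ := (c j k).it_hq
  refine ⟨M, fun p hp => ?_⟩
  have z0 : d1^[k] (G j) (p.1, 0) = 0 := by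
    rw [R46.it_line (g := fun _ => 0) k (z j) _ (mem_Q.1 (hb hp)).1,
      Function.iterate_fixed (R46.d1_const 0)]
  have := hM.2 p (hb hp) _ (hb (mem0 hp))
  rw [z0, sub_zero, Prod.dist_eq, dist_self, Real.dist_eq, sub_zero, max_eq_right (abs_nonneg _),
    Real.sqrt_eq_rpow] at this
  rwa [s j p hp, Complex.norm_real, Real.norm_eq_abs, max_eq_left (by norm_num)]

variable {D : Dat}

theorem jet (R : Rep F b D.nn D.la v) (hb : b.B ⊆ Q D.r) (hg : F.δ (g + F.el) = 0)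
    (hl : ∀ p ∈ b.B, v (g + F.el) p = D.l (D.Ψ p)) (i : ℕ → Ix) (k : ℕ)
    (hk : ∀ j, k ≤ (i j).ord) : ∃ f : ℕ → ℕ → F.R, F.Cj g k f ∧ ∀ x y, x + y ≤ k →
      Sr F b v (f x y) fun j p => pk D.ps' D.al' D.pr' (i j) x y (D.Ψ p) := by
  have : ∀ x y, ∃ a, x + y ≤ k →
      Sr F b v a fun j p => pk D.ps' D.al' D.pr' (i j) x y (D.Ψ p) := fun x y => by
    by_cases e : x + y ≤ k
    · obtain ⟨a, ha⟩ := sur R hb fun j => D.h.out.cJ (i j) x y (e.trans (hk j))
      exact ⟨a, fun _ => ha⟩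
    · exact ⟨0, fun h => absurd h e⟩
  choose f hf using this
  refine ⟨f, fun x y e => ?_, hf⟩
  have c := fun j => (XVan.ch D (D.h.cj.c1 (i j) x y (e.trans_le (hk j)))).mono hb
  exact ⟨(hf x y e.le).dy R (hf x (y + 1) e) (fun j => (c j).c2) fun j => (c j).d2,
    ((hf x y e.le).X R fun j => (c j).d1).eq R
      ((hf (x + 1) y (by omega)).add R ((hf x (y + 1) e).tmul R hg hl)) fun _ _ _ => rfl⟩

theorem arc (hc : R1.CzS) {s : ℝ} (hs : |s| < D.r) (j : ℕ) {x y : ℕ} (h1 : 1 ≤ x + y)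
    (h2 : x + y ≤ 2) :
    D.ps' j x y (D.Ψ (s, 0)) = (ex D.n D.t j * cz D.n D.ps x y (D.Ψ (s, 0))).re := by
  have r0 := D.h.out.r0
  have m : ((s, 0) : P) ∈ Q D.r := mem_Q.2 ⟨hs, by simpa using r0⟩
  have e : D.ps' j x y = D.ps D.t j x y := (D.h.sa (.ps j) x y).1 (by simp only [Ix.ord]; omega)
  rw [e]
  refine hc _ _ _ _ _ _ D.h.lx.toLz.l0 _ _ _ _ (by omega) _ ⟨D.h.sub (D.h.out.mp _ m), ?_⟩
  have t : Tendsto (fun η : ℝ => D.Ψ (s, η)) (𝓝[<] 0) (𝓝 (D.Ψ (s, 0))) :=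
    (continuousAt_const.prodMk (D.h.out.cY.d2 _ m).continuousAt).tendsto.mono_left
      nhdsWithin_le_nhds
  refine mem_closure_of_tendsto t ?_
  filter_upwards [Ioo_mem_nhdsLT (show -D.r < 0 by linarith)] with η hη
  exact D.h.low (s, η) ⟨abs_lt.1 hs, hη.1, hη.2.trans r0⟩ hη.2

end XMk

open XMk

theorem rowMk : OfMk := by
  intro hc hR hJ hV D b hb
  have n0 := D.h.lx.n0
  have o := isOpen_Q D.r
  have c2 : (Complex.I * √D.n) ^ 2 = ((-D.n : ℝ) : ℂ) := by
    rw [mul_pow, Complex.I_sq, ← Complex.ofReal_pow, Real.sq_sqrt n0.le]; simp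
  obtain ⟨V1, V2, V3⟩ := hV D
  obtain ⟨F, v, R, hF⟩ := hR b D.nn D.la (Complex.I * √D.n) (V3 b hb)
    (mul_ne_zero Complex.I_ne_zero (Complex.ofReal_ne_zero.2 (Real.sqrt_pos.2 n0).ne')) (by simp)
  obtain ⟨L, dL, vL⟩ := sur0 R hb D.h.out.cl
  have sL := sr_c0 R dL vL
  have eL : F.bv L + F.el = L := Eq.symm <| sL.dy R (sr_c0 R F.δ_la R.la) (fun j => by
    cases j
    exacts [((XVan.cc_la D 0).hq.cont.mul D.h.out.cY.c2).mono hb, by
      simpa [c0] using continuousOn_const]) fun j p hp => by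
    cases j
    exacts [V2 p (hb hp), by simpa [c0] using hasDerivAt_const _ _]
  have dg : F.δ (F.bv L) = 0 := by rw [F.δ_bv, dL, map_zero]
  have vg : ∀ p ∈ b.B, v (F.bv L) p = D.l (D.Ψ (p.1, 0)) := sL.bv R 0
  have J := jet R hb (g := F.bv L) (eL.symm ▸ dL) (eL.symm ▸ vL)
  obtain ⟨ps, jp, sp⟩ := J .ps 3 fun _ => le_rfl
  obtain ⟨aa, ja, sa⟩ := J .al 2 fun j => by cases j <;> simp [Ix.ord]
  obtain ⟨be, jb, sb⟩ := J (fun j => .al (j + 1)) 3 fun _ => le_rfl
  obtain ⟨pr, jr, sr⟩ := J .pr 1 fun _ => le_rfl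
  simp only [pk] at sp sa sb sr
  have o2 : ∀ j, 2 ≤ (Ix.al j).ord := fun j => by cases j <;> simp [Ix.ord]
  have ma : ∀ p ∈ b.B, D.Ψ p ∈ Q D.a := fun p hp => D.h.out.mp p (hb hp)
  have r1 : ∀ p ∈ b.B, |p.1| < D.r := fun p hp => (mem_Q.1 (hb hp)).1
  have jt : F.Jt (F.bv L) ps aa be pr := by
    refine ⟨⟨F.bv_bv L, dg⟩, (sL.bv R).cj R, jp, ja, jb, jr,
      fun x y e => (sp x y (by omega)).cj R, (sa 0 2 le_rfl).cj R,
      fun x y _ e => (sa x y e).δ.eq R (sb x y (by omega)) fun _ _ _ => rfl,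
      fun x y e e' => ((sa x y e').bv R).zero R fun j p hp =>
        V1 j x y e (e'.trans (o2 j)) _ (hb (mem0 hp)) le_rfl,
      fun x y e => ((sb x y e.le).bv R).zero R fun j p hp =>
        V1 (j + 1) x y (by omega) e.le _ (hb (mem0 hp)) le_rfl,
      (R.U _).2 fun j p hp h => ?_,
      mem_O R hb (sa 0 2 le_rfl) (fun j => D.h.out.cJ (.al j) 0 2 (o2 j)) fun j s hs =>
        V1 j 0 2 one_le_two (o2 j) _ (mem_Q.2 ⟨hs, by simpa using D.h.out.r0⟩) le_rfl,
      fun x y e e' => ?_, ?_, fun x y e => ?_, ?_, ?_, ?_, ?_, ?_, ?_⟩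
    · exact (sa 0 2 le_rfl j p hp).trans
        (Complex.ofReal_eq_zero.2 (V1 j 0 2 one_le_two (o2 j) p (hb hp) h))
    · rw [hF, c2]
      refine ((sp x y (by omega)).δ.δ.bv R).eq R (((sp x y (by omega)).bv R).smul R _)
        fun j p hp => ?_
      rw [arc hc (r1 p hp) _ e e', arc hc (r1 p hp) _ e e', ← Complex.re_ofReal_mul, ← c2]
      simp only [ex]
      congr 1
      ring
    · rw [show ps 2 0 + 2 * F.bv L * ps 1 1 + F.bv L ^ 2 * ps 0 2 = ps 2 0 + F.bv L *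
        (ps 1 1 + ps 1 1 + F.bv L * ps 0 2) by ring]
      refine (((sp 2 0 (by omega)).add R ((((sp 1 1 (by omega)).add R (sp 1 1 (by omega))).add R
        ((sp 0 2 (by omega)).tmul R dg vg)).tmul R dg vg)).bv R).zero R fun j p hp => ?_
      have := congrArg (fun w => (ex D.n D.t j * w).re) (D.h.ch p.1 (r1 p hp))
      simp only [arc hc (r1 p hp) j (x := 2) (y := 0) one_le_two le_rfl,
        arc hc (r1 p hp) j (x := 1) (y := 1) one_le_two le_rfl,
        arc hc (r1 p hp) j (x := 0) (y := 2) one_le_two le_rfl]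
      simp [hz] at this
      simp only [Dat.Ψ, Complex.mul_re]
      linear_combination this
    · rw [FA.br, FA.br, mul_comm (ps 1 0), mul_comm (ps 0 1)]
      refine ((sp _ _ (by omega)).add R (sp _ _ (by omega))).eq R
        (((sp x y (by omega)).δ.add R (((sa 1 0 one_le_two).mul R (sp _ _ (by omega))).sub R
          ((sa 0 1 one_le_two).mul R (sp _ _ (by omega))))).add R
          (((sa _ _ (by omega)).mul R (sp _ _ (by omega))).sub R
            ((sa _ _ (by omega)).mul R (sp _ _ (by omega))))) fun j p hp => ?_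
      refine (D.h.cj.e1 j x y e _ (ma p hp)).trans ?_
      rw [add_assoc, ← Finset.sum_sub_distrib, ← Finset.sum_sub_distrib, ← Finset.sum_add_distrib]
      exact congrArg _ (Finset.sum_congr rfl fun i _ => by simp only [R77.br]; ring)
    · refine ((sb _ _ le_rfl).add R (sb _ _ le_rfl)).eq R
        (((sb 1 0 (by omega)).δ.add R ((((sa 1 0 one_le_two).mul R (sa 1 1 le_rfl)).sub R
          ((sa 0 1 one_le_two).mul R (sa 2 0 le_rfl))).add R
          (((sp 1 0 (by omega)).mul R (sp 1 1 (by omega))).sub R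
            ((sp 0 1 (by omega)).mul R (sp 2 0 (by omega))))).δ).add R (sr 0 1 le_rfl))
        fun j p hp => (D.h.cj.e2 j _ (ma p hp)).1.trans ?_
      rw [← Finset.sum_sub_distrib, ← Finset.sum_sub_distrib, ← Finset.sum_add_distrib, R77.nl]
      congr 2
      exact Finset.sum_congr rfl fun i _ => by simp only [R77.br]; ring
    · refine ((sb _ _ le_rfl).add R (sb _ _ le_rfl)).eq R
        (((sb 0 1 (by omega)).δ.add R ((((sa 1 0 one_le_two).mul R (sa 0 2 le_rfl)).sub R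
          ((sa 0 1 one_le_two).mul R (sa 1 1 le_rfl))).add R
          (((sp 1 0 (by omega)).mul R (sp 0 2 (by omega))).sub R
            ((sp 0 1 (by omega)).mul R (sp 1 1 (by omega))))).δ).sub R (sr 1 0 le_rfl))
        fun j p hp => (D.h.cj.e2 j _ (ma p hp)).2.trans ?_
      rw [← Finset.sum_sub_distrib, ← Finset.sum_sub_distrib, ← Finset.sum_add_distrib, R77.nl]
      congr 2
      exact Finset.sum_congr rfl fun i _ => by simp only [R77.br]; ring
    · rw [show ps 0 2 * aa 2 0 - 2 * ps 1 1 * aa 1 1 + ps 2 0 * aa 0 2 = aa 2 0 * ps 0 2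
        - aa 1 1 * (ps 1 1 + ps 1 1) + aa 0 2 * ps 2 0 by ring]
      refine ((((sa 2 0 le_rfl).mul R (sp 0 2 (by omega))).sub R ((sa 1 1 le_rfl).mul R
        ((sp 1 1 (by omega)).add R (sp 1 1 (by omega))))).add R
        ((sa 0 2 le_rfl).mul R (sp 2 0 (by omega)))).zero R
        fun j p hp => Eq.trans ?_ (D.h.cj.l j _ (ma p hp))
      rw [← Finset.sum_sub_distrib, ← Finset.sum_add_distrib]
      exact Finset.sum_congr rfl fun i _ => by simp only [R77.cf]; ring
    · rw [eL, show ps 2 0 + 2 * L * ps 1 1 + L ^ 2 * ps 0 2 = ps 2 0 + L *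
        (ps 1 1 + ps 1 1 + L * ps 0 2) by ring]
      refine ev0 R fun p hp => (((sp 2 0 (by omega)).add R ((((sp 1 1 (by omega)).add R
        (sp 1 1 (by omega))).add R ((sp 0 2 (by omega)).tmul R dL vL)).tmul R dL vL))
          0 p hp).trans (Complex.ofReal_eq_zero.2 ?_)
      have := (D.h.nu.alg (ma p hp)).2.2.2.1
      simp only [R46.h11, Dat.Ψ] at this ⊢
      linear_combination this
    · rw [eL]
      refine unit R hb D.h.out.cs (Real.sqrt_pos.2 D.h.nu.c0) (fun p hp => ?_) (F.δ_ev _)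
        fun p hp => (R.ev _ p hp).trans ((((sp 1 1 (by omega)).add R
          ((sp 0 2 (by omega)).tmul R dL vL)) 0 p hp).trans
            (congrArg _ (D.h.nu.alg (ma p hp)).2.2.2.2.2.1))
      rw [← Real.sqrt_sq_eq_abs]
      exact Real.sqrt_le_sqrt (D.h.nu.alg (D.h.out.mp p hp)).2.1
    · rw [eL]
      refine unit R hb (fun k => (Lv.const _ k 1).add o ((D.h.out.cl k).sq o)) one_pos
        (fun p _ => (le_add_of_nonneg_right (sq_nonneg _)).trans (le_abs_self _)) ?_ fun p hp => ?_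
      · have d1 : F.δ 1 = 0 := by simpa using F.δ_mul 1 1
        rw [map_add, d1, sq, F.δ_mul, dL, zero_mul, mul_zero, add_zero, add_zero]
      · rw [R.add _ _ p hp, v1 R hp, sq, R.mul _ _ p hp, vL p hp]
        push_cast
        ring
  exact ⟨⟨F, _, _, _, _, _, hJ F _ ps aa be pr jt⟩, v, ps, aa, hb, R, hF, ⟨be, pr, jt⟩,
    fun j x y e => sp x y e j, fun j x y e => sa x y e j, eL.symm ▸ vL, rfl, rfl, rfl, rfl⟩

end Pool.Agent.MP_ed9623_an.R10
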