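import Pool.Agent.MP_ed9623_an.R10.Spec
import Pool.Agent.MP_ed9623_an.R10.Base4

/-! The commutator of the two Fuchsian relations at the next order. -/

namespace Pool.Agent.MP_ed9623_an.R10

open FA Mdl

namespace XMu1

theorem key (F : FA) (a μ₁ γ γ₁ n : F.R) (m : ℝ) (sn : F.S n) (xn : F.X n = 0) (s₁ : F.S μ₁)
    (s₂ : F.S γ) (s₃ : F.S γ₁) (u : IsUnit (γ₁ - F.X μ₁)) (hf : F.I a ∈ F.O m)
    (h₁ : F.y * a - (n + μ₁ * F.y) * F.I a ∈ F.O (m + 3 / 2))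
    (h₂ : F.T a - (γ + γ₁ * F.y) * F.I a ∈ F.O (m + 3 / 2)) : F.I a ∈ F.O (m + 1 / 2) := by
  have e₁ : F.y * a - (n + μ₁ * F.y) * F.I a = F.y * a - n * F.I a - μ₁ * (F.y * F.I a) := by ring
  have e₂ : F.T a - (γ + γ₁ * F.y) * F.I a = F.T a - γ * F.I a - γ₁ * (F.y * F.I a) := by ring
  rw [e₁] at h₁
  rw [e₂] at h₂
  have yf : F.y * F.I a ∈ F.O (m + 1) := O_ymul hf
  -- the primitive of the first relation
  have p₁ := O_I h₁
  rw [map_sub, map_sub, sn.I, s₁.I, I_ymul a] at p₁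
  -- the primitive of `y` times the first relation
  have p₂ : F.y ^ 2 * F.I a - (n + 2) * F.I (F.y * F.I a) ∈ F.O (m + 3) := by
    have k := O_I (O_ymul h₁)
    rw [show F.y * (F.y * a - n * F.I a - μ₁ * (F.y * F.I a)) =
      F.y * (F.y * a) - n * (F.y * F.I a) - μ₁ * (F.y * (F.y * F.I a)) by ring,
      map_sub, map_sub, sn.I, s₁.I, I_ymul (F.y * a), I_ymul a, map_sub] at k
    have k' : μ₁ * F.I (F.y * (F.y * F.I a)) ∈ F.O (m + 3) :=
      Ideal.mul_mem_left _ _ (O_I' (O_ymul yf) (by linarith))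
    have := add_mem (O_le k (show m + 3 ≤ _ by linarith)) k'
    convert this using 1
    rw [I_ymul (F.I a)]; ring
  -- the tangential derivative of the first relation
  have p₃ := O_T h₁
  rw [map_sub, map_sub, sn.T, s₁.T, xn, T_ymul a, T_ymul (F.I a), T_I] at p₃
  have q₁ := O_I h₂
  rw [map_sub, map_sub, s₂.I, s₃.I] at q₁
  have q₂ := O_I q₁
  rw [map_sub, map_sub, s₂.I, s₃.I] at q₂
  have r₁ : F.I (F.y * F.I a) ∈ F.O (m + 2) := O_I' yf (by linarith)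
  have r₂ : F.y * F.I (F.y * F.I a) ∈ F.O (m + 5 / 2) := O_le (O_ymul r₁) (by linarith)
  have r₃ : F.I (F.I (F.y * F.I a)) ∈ F.O (m + 5 / 2) := O_I' r₁ (by linarith)
  have p₁' := O_le p₁ (show m + 5 / 2 ≤ _ by linarith)
  have p₂' := O_le p₂ (show m + 5 / 2 ≤ _ by linarith)
  have p₃' := O_le p₃ (show m + 5 / 2 ≤ _ by linarith)
  have q₀' := O_le (O_ymul h₂) (show m + 5 / 2 ≤ _ by linarith)
  have q₁' := O_le q₁ (show m + 5 / 2 ≤ _ by linarith)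
  have q₂' := O_le q₂ (show m + 5 / 2 ≤ _ by linarith)
  have c : (γ₁ - F.X μ₁) * F.I (F.y * F.I a) ∈ F.O (m + 5 / 2) := by
    have := add_mem (sub_mem (sub_mem (add_mem (sub_mem p₃' q₀')
      (Ideal.mul_mem_left _ (n + 1 + μ₁ * F.y) q₁')) (Ideal.mul_mem_left _ μ₁ q₂'))
      (add_mem (Ideal.mul_mem_left _ γ p₁') (Ideal.mul_mem_left _ γ₁ p₂')))
      (Ideal.mul_mem_left _ (μ₁ * γ₁) (sub_mem r₂ r₃))
    convert this using 1
    rw [I_ymul (F.I a)]; ring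
  have c' := add_mem p₂' (Ideal.mul_mem_left _ (n + 2) (O_unit u c))
  rw [sub_add_cancel] at c'
  exact O_divp 2 (O_le c' (by push_cast; linarith))

end XMu1

theorem rowMu1 : OfMu1 := fun G M N μ₁ γ γ₁ _ s₁ s₂ s₃ h u =>
  G M (3 / 2) (1 / 2) _ μ₁ γ γ₁ (by norm_num) (by norm_num) h fun m hm o =>
    XMu1.key M.toFA M.A0 μ₁ γ γ₁ _ m (S.alg _) (X_alg _) s₁ s₂ s₃ u (M.f_of o) (h m hm o).1
      (h m hm o).2

end Pool.Agent.MP_ed9623_an.R10
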