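import Pool.Agent.MP_ed9623_an.R10.Base4

/-! The leading term of the pencil. -/

namespace Pool.Agent.MP_ed9623_an.R10

open FA Mdl

namespace XNd

variable (M : Mdl)

/-- The Hessian of the amplitude on the characteristic field. -/
noncomputable def H : M.R := M.Ua + 2 * M.el * M.Uq + M.el ^ 2 * M.V

theorem ev_Ph : M.ev M.Ph = 0 ∧ M.ev (M.δ M.Ph) = 0 := by
  have a := M.am_Ph
  rw [am_eq] at a
  have b := congrArg M.cj a
  rw [map_add, M.cj_smul, M.cj_ev, M.cj_ev, M.cj_δ, M.cj_Ph, map_inv₀, M.c_im, map_zero, inv_neg,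
    neg_smul] at b
  have e : M.ev M.Ph = 0 := by
    rw [← half_two (M.ev M.Ph), show 2 * M.ev M.Ph = 0 by linear_combination a + b, smul_zero]
  rw [e, zero_add] at a
  exact ⟨e, of_smul (inv_ne_zero M.c_ne) a⟩

theorem δ_H : M.δ (H M) = 0 := by simp [H, M.δ_mul, δ_sq, M.δ_Ua, M.δ_Uq, M.δ_V]

theorem rho_eq : M.rho M.g M.h M.W = M.re (M.z * H M) +
    (M.T (M.T M.Ph) - M.k * M.I M.Ph + 2 * M.el * M.T M.Ph + M.el ^ 2 * M.Ph) := by
  have r1 : M.cj (2 * M.el) = 2 * M.el := by rw [map_mul, map_ofNat, cj_el]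
  have r2 : M.cj (M.el ^ 2) = M.el ^ 2 := by rw [map_pow, cj_el]
  rw [rho, M.pa_eq, M.pq_eq, H, mul_add M.z, mul_add M.z, re_add, re_add,
    mul_left_comm M.z (2 * M.el), re_mul r1, mul_left_comm M.z (M.el ^ 2), re_mul r2]
  linear_combination M.el ^ 2 * M.W_eq

theorem cj_H : M.cj (H M) = -H M := by
  have a := M.sys.nul
  rw [rho_eq, map_add, ev_rez (δ_H M)] at a
  simp only [map_add, map_sub, map_mul, map_pow, ev_T, M.ev_I, (ev_Ph M).1, map_zero, mul_zero,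
    add_zero, sub_zero] at a
  have b := of_smul (by norm_num) a
  linear_combination b

theorem r1_eq : M.r1 = M.c • H M := by
  rw [r1, rho_eq, map_add, map_add, δ_rez (δ_H M), ev_rez (by rw [map_smul, δ_H, smul_zero])]
  simp only [map_add, map_sub, map_mul, map_pow, M.δ_mul, δ_sq, δ_T, M.δ_I, M.Sk.2, δ_el, δ_ofNat,
    ev_T, M.ev_I, (ev_Ph M).2, map_zero, mul_zero, zero_mul, add_zero, sub_zero]
  rw [re, cj_c, cj_H]
  module

/-- The pairing with `q` is a multiple of the pencil. -/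
theorem lead {j : ℕ} {r : M.R} {s : ℂ} (h : s • M.wd (H M) M.q - r * M.y ^ j ∈ M.O (j + 1 / 2)) :
    Lead M j r := by
  refine ⟨(s * M.c⁻¹) • (M.q + M.cj M.q), by rw [map_smul, (M.Sq.add M.Sq.cj).2, smul_zero], ?_⟩
  have := M.c_ne
  convert h using 2
  rw [r1_eq, wd, cj_H, smul_mul_smul_comm, mul_assoc, inv_mul_cancel₀ this, mul_one]
  congr 1
  ring

theorem t2 : 2 * algebraMap ℂ M.R 2⁻¹ = 1 := by
  rw [← map_ofNat (algebraMap ℂ M.R) 2, ← map_mul, mul_inv_cancel₀ two_ne_zero, map_one]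

theorem t4 : algebraMap ℂ M.R 4⁻¹ = algebraMap ℂ M.R 2⁻¹ * algebraMap ℂ M.R 2⁻¹ := by
  rw [← map_mul]; norm_num

theorem t6 : algebraMap ℂ M.R 6⁻¹ = algebraMap ℂ M.R 2⁻¹ * algebraMap ℂ M.R 3⁻¹ := by
  rw [← map_mul]; norm_num

variable {M}

theorem O_wd {a : M.R} {m : ℝ} (h : a ∈ M.O m) (b : M.R) : M.wd a b ∈ M.O m :=
  sub_mem (Ideal.mul_mem_right _ _ h) (Ideal.mul_mem_right _ _ (O_cj h))

theorem T_y : M.T M.y = 0 := by simpa using T_ypow (F := M.toFA) 1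

theorem I_y : M.I M.y = (2⁻¹ : ℂ) • M.y ^ 2 := by
  have := I_ypow (F := M.toFA) 1
  rw [pow_one] at this
  rw [this]; norm_num

theorem I_y2 : M.I (M.y ^ 2) = (3⁻¹ : ℂ) • M.y ^ 3 := by
  rw [I_ypow]; norm_num

/-- The expansion on a straight arc. -/
theorem exp (hT : TayS) (s : M.St) : H M - (M.y * (M.r0 * M.q)
    + (6⁻¹ : ℂ) • (M.X (M.X M.f3) * M.y ^ 3)
    + 2 * M.el * (M.q + M.X M.e * M.y + (2⁻¹ : ℂ) • (M.X M.f3 * M.y ^ 2))
    + M.el ^ 2 * (M.e + M.f3 * M.y)) ∈ M.O (7 / 2) := by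
  have t0 := hT M
  have t1 := O_T t0
  have t2 := O_T t1
  have xe : M.X (M.X M.e) = 0 := by have := s.m2; rwa [m2, s.k, zero_mul, sub_zero] at this
  have e1 : M.T (M.e + M.f3 * M.y) = M.X M.e * M.y + (2⁻¹ : ℂ) • (M.X M.f3 * M.y ^ 2) := by
    rw [map_add, T_of_S M.Se.1, M.Sf3.T, T_y, I_y, mul_zero, add_zero, mul_smul_comm]
  have e2 : M.T (M.X M.e * M.y + (2⁻¹ : ℂ) • (M.X M.f3 * M.y ^ 2))
      = (6⁻¹ : ℂ) • (M.X (M.X M.f3) * M.y ^ 3) := by
    rw [map_add, map_smul, M.Se.X.T, M.Sf3.X.T, T_y, T_ypow, xe, I_y2]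
    simp only [zero_mul, mul_zero, add_zero, zero_add, mul_smul_comm, smul_smul]
    norm_num
  rw [map_sub, e1] at t1
  rw [map_sub, map_sub, e1, e2] at t2
  have := add_mem (add_mem (O_le t2 (show (7 / 2 : ℝ) ≤ _ by norm_num))
    (Ideal.mul_mem_left _ 2 (O_mul' (k := 7 / 2) O_el t1 (by norm_num))))
    (O_mul' (k := 7 / 2) (O_mul O_el O_el) t0 (by norm_num))
  convert this using 1
  rw [H, Ua, Uq, s.k, s.X_q]
  ring

/-- The slope of the characteristics on a straight arc. -/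
theorem slope (hT : TayS) (s : M.St) : 2 * M.el + M.r0 * M.y ∈ M.O 2 := by
  have o : H M - (2 * M.el + M.r0 * M.y) * M.q ∈ M.O 2 := by
    have y2 := O_ypow (F := M.toFA) 2
    have ey := O_mul' (k := 2) (O_el (F := M.toFA)) O_y (by norm_num)
    have ee := O_mul' (k := 2) (O_el (F := M.toFA)) O_el (by norm_num)
    have := add_mem (add_mem (add_mem (O_le (exp hT s) (show (2 : ℝ) ≤ _ by norm_num))
      (O_smul 6⁻¹ (Ideal.mul_mem_left _ (M.X (M.X M.f3) * M.y) y2)))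
      (Ideal.mul_mem_left _ (2 * (M.X M.e + (2⁻¹ : ℂ) • (M.X M.f3 * M.y))) ey))
      (Ideal.mul_mem_left _ (M.e + M.f3 * M.y) ee)
    convert this using 1
    simp only [Algebra.smul_def]
    ring
  have o' := O_cj o
  rw [map_sub, cj_H, map_mul, map_add, map_mul, map_mul, map_ofNat, cj_el, cj_y, s.cj_r0] at o'
  refine O_unit M.re_q_unit ?_
  have := O_smul (-2⁻¹) (add_mem o o')
  convert this using 1
  simp only [re, Algebra.smul_def, map_neg]
  ring

/-- The pairing of the expansion with `q`. -/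
theorem pair (hT : TayS) (s : M.St) : M.wd (H M) M.q - ((6⁻¹ : ℂ) • (M.wd (M.X (M.X M.f3)) M.q
    * M.y ^ 3) + 2 * M.el * (M.wd (M.X M.e) M.q * M.y + (2⁻¹ : ℂ) • (M.wd (M.X M.f3) M.q * M.y ^ 2))
    + M.el ^ 2 * (M.wd M.e M.q + M.wd M.f3 M.q * M.y)) ∈ M.O (7 / 2) := by
  convert O_wd (exp hT s) M.q using 1
  simp only [wd, map_sub, map_add, map_mul, map_pow, map_ofNat, M.cj_smul, map_inv₀, cj_y, cj_el,
    s.cj_r0]
  simp only [Algebra.smul_def]
  ring

end XNd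

open XNd in
theorem rowNd : OfNd := by
  intro _ hT
  refine ⟨fun M => lead M (s := 1) ?_, fun M s => lead M (s := 1) ?_,
    fun M s u => lead M (s := M.c⁻¹) ?_⟩
  · have o : H M - (M.l * M.y + 2 * M.el * M.q) ∈ M.O 2 := by
      have v : M.V - M.e ∈ M.O 1 := by
        convert add_mem (O_le (hT M) (show (1 : ℝ) ≤ _ by norm_num))
          (Ideal.mul_mem_left _ M.f3 O_y) using 1
        ring
      have v1 := O_I' v (show (2 : ℝ) ≤ _ by norm_num)
      rw [map_sub, I_of_S M.Se.1] at v1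
      have := add_mem (add_mem (sub_mem (O_T' (O_T1 M.V) (show (2 : ℝ) ≤ _ by norm_num))
        (Ideal.mul_mem_left _ M.k v1))
        (Ideal.mul_mem_left _ 2 (O_mul' (k := 2) O_el (O_T1 M.V) (by norm_num))))
        (Ideal.mul_mem_right M.V _ (O_mul' (k := 2) (O_el (F := M.toFA)) O_el (by norm_num)))
      convert this using 1
      rw [H, Ua, Uq, l]
      ring
    convert O_le (O_wd o M.q) (show ((1 : ℕ) + 1 / 2 : ℝ) ≤ 2 by norm_num) using 1
    simp only [wd, map_sub, map_add, map_mul, map_ofNat, cj_y, cj_el, one_smul]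
    ring
  · have d := slope hT s
    have y3 := O_ypow (F := M.toFA) 3
    have ey := O_mul' (k := 3) (O_el (F := M.toFA)) (O_ypow 2) (by norm_num)
    have ee := O_mul' (k := 3) (O_mul (O_el (F := M.toFA)) O_el) O_y (by norm_num)
    have dy := O_mul' (k := 3) d O_y (by norm_num)
    have de := O_mul' (k := 3) d O_el (by norm_num)
    have := add_mem (add_mem (add_mem (add_mem (add_mem (O_le (pair hT s)
      (show (3 : ℝ) ≤ _ by norm_num))
      (O_smul 6⁻¹ (Ideal.mul_mem_left _ (M.wd (M.X (M.X M.f3)) M.q) y3)))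
      (Ideal.mul_mem_left _ (M.wd (M.X M.f3) M.q) ey)) (Ideal.mul_mem_left _ (M.wd M.f3 M.q) ee))
      (Ideal.mul_mem_left _ (M.wd (M.X M.e) M.q - (4⁻¹ : ℂ) • (M.wd M.e M.q * M.r0)) dy))
      (O_smul 2⁻¹ (Ideal.mul_mem_left _ (M.wd M.e M.q) de))
    convert O_le this (show ((2 : ℕ) + 1 / 2 : ℝ) ≤ 3 by norm_num) using 1
    simp only [rh2, rh, Algebra.smul_def, t4, map_one, one_mul]
    linear_combination (M.wd (M.X M.f3) M.q * M.el * M.y ^ 2 - M.wd M.e M.q * M.el ^ 2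
      + M.wd (M.X M.e) M.q * M.r0 * M.y ^ 2
      + algebraMap ℂ M.R 2⁻¹ * M.wd M.e M.q * M.r0 * M.el * M.y) * t2 M
  · have d := slope hT s
    have nq : M.cj (M.X M.r0) = M.X M.r0 := by rw [M.cj_X, s.cj_r0]
    have nq2 : M.cj (M.X (M.X M.r0)) = M.X (M.X M.r0) := by rw [M.cj_X, nq]
    have a0 : M.wd M.e M.q = 0 := by rw [s.e, wd_c, u, smul_zero]
    have a1 : M.wd (M.X M.e) M.q = 0 := by
      have := congrArg M.X a0
      rw [X_wd, s.X_q, map_zero] at this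
      simp only [wd, map_mul, s.cj_r0] at this a0 ⊢
      linear_combination this - M.r0 * a0
    have x1 : M.X M.f3 = M.c • M.q - (M.X M.r0 + M.r0 ^ 2) * M.q := by
      rw [s.f3, s.X_q, map_sub, map_smul, M.X_mul, s.X_q, ← q]; ring
    have x2 : M.X (M.X M.f3) = M.c • (M.r0 * M.q)
        - (M.X (M.X M.r0) + 3 * M.r0 * M.X M.r0 + M.r0 ^ 3) * M.q := by
      rw [x1, map_sub, map_smul, M.X_mul, map_add, X_sq, s.X_q]; ring
    have b0 : M.wd M.f3 M.q = M.c • M.sy M.h M.q := by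
      rw [s.f3, s.X_q, ← wd_c]
      simp only [wd, map_sub, map_mul, s.cj_r0]; ring
    have b1 : M.wd (M.X M.f3) M.q = M.c • (2 * (M.q * M.cj M.q)) := by
      rw [x1]
      simp only [wd, map_sub, map_add, map_mul, map_pow, s.cj_r0, nq, cj_c]
      simp only [Algebra.smul_def]; ring
    have b2 : M.wd (M.X (M.X M.f3)) M.q = M.c • (2 * (M.r0 * (M.q * M.cj M.q))) := by
      rw [x2]
      simp only [wd, map_sub, map_add, map_mul, map_pow, map_ofNat, s.cj_r0, nq, nq2, cj_c]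
      simp only [Algebra.smul_def]; ring
    have p := O_smul M.c⁻¹ (pair hT s)
    rw [a0, a1, b0, b1, b2] at p
    have dy := O_mul' (k := 7 / 2) d (O_ypow 2) (by norm_num)
    have de := O_mul' (k := 7 / 2) d (O_mul O_el O_y) (by norm_num)
    have := add_mem (add_mem p
      (Ideal.mul_mem_left _ (M.q * M.cj M.q - (4⁻¹ : ℂ) • (M.sy M.h M.q * M.r0)) dy))
      (O_smul 2⁻¹ (Ideal.mul_mem_left _ (M.sy M.h M.q) de))
    have ci : algebraMap ℂ M.R M.c⁻¹ * algebraMap ℂ M.R M.c = 1 := by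
      rw [← map_mul, inv_mul_cancel₀ M.c_ne, map_one]
    convert O_le this (show ((3 : ℕ) + 1 / 2 : ℝ) ≤ 7 / 2 by norm_num) using 1
    simp only [rh3, rh, Algebra.smul_def, t4, t6]
    linear_combination (2 * algebraMap ℂ M.R 2⁻¹ * algebraMap ℂ M.R 3⁻¹ * M.r0 * (M.q * M.cj M.q)
      * M.y ^ 3 + 4 * algebraMap ℂ M.R 2⁻¹ * (M.q * M.cj M.q) * M.el * M.y ^ 2
      + M.sy M.h M.q * M.el ^ 2 * M.y) * ci
      + (algebraMap ℂ M.R 3⁻¹ * M.r0 * (M.q * M.cj M.q) * M.y ^ 3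
      + 2 * (M.q * M.cj M.q) * M.el * M.y ^ 2 + M.r0 * (M.q * M.cj M.q) * M.y ^ 3
      - M.sy M.h M.q * M.el ^ 2 * M.y
      + algebraMap ℂ M.R 2⁻¹ * M.sy M.h M.q * M.r0 * M.el * M.y ^ 2) * t2 M

end Pool.Agent.MP_ed9623_an.R10
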