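import Pool.Agent.MP_ed9623_an.R10.Nd

/-! The leading term of the resultant. -/

namespace Pool.Agent.MP_ed9623_an.R10

open FA Mdl

namespace XNdR

variable {F : FA} {a b p q : F.R} {n : ℝ}

theorem gen (h : F.bv b = b) (i : ℕ) : b * F.y ^ i ∈ F.Pol := Submodule.subset_span ⟨b, i, h, rfl⟩

theorem of_bv (h : F.bv b = b) : b ∈ F.Pol := by simpa using gen h 0

theorem pol_y : F.y ∈ F.Pol := by simpa using gen (F := F) (map_one F.bv) 1

theorem pol_lin (φ : F.R →ₗ[ℂ] F.R) (h : ∀ b i, F.bv b = b → φ (b * F.y ^ i) ∈ F.Pol)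
    (hp : p ∈ F.Pol) : φ p ∈ F.Pol := by
  induction hp using Submodule.span_induction with
  | mem x hx => obtain ⟨b, i, e, rfl⟩ := hx; exact h b i e
  | zero => simp
  | add x y _ _ u v => rw [map_add]; exact add_mem u v
  | smul s x _ u => rw [map_smul]; exact Submodule.smul_mem _ _ u

theorem pol_mul (hp : p ∈ F.Pol) (hq : q ∈ F.Pol) : p * q ∈ F.Pol := by
  refine pol_lin (LinearMap.mulRight ℂ q) (fun b i e => ?_) hp
  refine pol_lin (LinearMap.mulLeft ℂ (b * F.y ^ i)) (fun c j e' => ?_) hq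
  rw [LinearMap.mulLeft_apply, mul_mul_mul_comm, ← pow_add]
  exact gen (by rw [map_mul, e, e']) _

theorem pol_I (hp : p ∈ F.Pol) : F.I p ∈ F.Pol :=
  pol_lin F.I (fun b i e => by
    rw [I_S e, I_ypow, mul_smul_comm]; exact Submodule.smul_mem _ _ (gen e _)) hp

theorem pol_T (hp : p ∈ F.Pol) : F.T p ∈ F.Pol :=
  pol_lin F.T (fun b i e => by
    rw [T_S e, T_ypow, mul_zero, add_zero, I_ypow, mul_smul_comm]
    exact Submodule.smul_mem _ _ (gen (by rw [← F.X_bv, e]) _)) hp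

theorem pol_cj (hp : p ∈ F.Pol) : F.cj p ∈ F.Pol := by
  induction hp using Submodule.span_induction with
  | mem x hx =>
    obtain ⟨b, i, e, rfl⟩ := hx
    rw [map_mul, map_pow, cj_y]
    exact gen (by rw [← F.cj_bv, e]) _
  | zero => simp
  | add x y _ _ u v => rw [map_add]; exact add_mem u v
  | smul s x _ u => rw [F.cj_smul]; exact Submodule.smul_mem _ _ u

theorem split (hp : p ∈ F.Pol) : ∃ p' ∈ F.Pol, p = F.bv p + F.y * p' := by
  induction hp using Submodule.span_induction with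
  | mem x hx =>
    obtain ⟨b, i, e, rfl⟩ := hx
    cases i with
    | zero => exact ⟨0, zero_mem _, by simp [e]⟩
    | succ i => exact ⟨_, gen e i, by simp [pow_succ]; ring⟩
  | zero => exact ⟨0, zero_mem _, by simp⟩
  | add x y _ _ u v =>
    obtain ⟨x', hx, u⟩ := u
    obtain ⟨y', hy, v⟩ := v
    exact ⟨x' + y', add_mem hx hy, by rw [map_add]; linear_combination u + v⟩
  | smul s x _ u =>
    obtain ⟨x', hx, u⟩ := u
    exact ⟨s • x', Submodule.smul_mem _ _ hx, by rw [map_smul, mul_smul_comm, ← smul_add, ← u]⟩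

/-- The leading coefficient of a polynomial. -/
theorem top (j : ℕ) (hp : p ∈ F.Pol) (o : p ∈ F.O j) :
    ∃ r, F.bv r = r ∧ p - r * F.y ^ j ∈ F.O (j + 1) := by
  induction j generalizing p with
  | zero =>
    obtain ⟨p', -, e⟩ := split hp
    refine ⟨F.bv p, F.bv_bv p, ?_⟩
    rw [pow_zero, mul_one, sub_eq_iff_eq_add'.2 e]
    simpa using O_ymul (O_0 p')
  | succ j ih =>
    obtain ⟨p', h', e⟩ := split hp
    rw [O_bv o (by positivity), zero_add] at e
    obtain ⟨r, br, hr⟩ := ih h' (O_div' (e ▸ o) (by push_cast; linarith))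
    refine ⟨r, br, ?_⟩
    convert O_le (O_ymul hr) (show ((j + 1 : ℕ) + 1 : ℝ) ≤ _ by push_cast; linarith) using 1
    rw [e]; ring

/-- Polynomial up to order `n`. -/
def PO (F : FA) (n : ℝ) (a : F.R) : Prop := ∃ p ∈ F.Pol, a - p ∈ F.O n

theorem PO.pol (h : p ∈ F.Pol) : PO F n p := ⟨p, h, by simp⟩

theorem PO.ord (h : a ∈ F.O n) : PO F n a := ⟨0, zero_mem _, by simpa using h⟩

theorem PO.le {m : ℝ} (h : PO F n a) (e : m ≤ n) : PO F m a :=
  let ⟨p, u, v⟩ := h; ⟨p, u, O_le v e⟩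

theorem PO.add (h : PO F n a) (h' : PO F n b) : PO F n (a + b) :=
  let ⟨p, u, v⟩ := h; let ⟨q, u', v'⟩ := h'
  ⟨p + q, add_mem u u', add_sub_add_comm a b p q ▸ add_mem v v'⟩

theorem PO.sub (h : PO F n a) (h' : PO F n b) : PO F n (a - b) :=
  let ⟨p, u, v⟩ := h; let ⟨q, u', v'⟩ := h'
  ⟨p - q, sub_mem u u', sub_sub_sub_comm a b p q ▸ sub_mem v v'⟩

theorem PO.mul (h : PO F n a) (h' : PO F n b) : PO F n (a * b) := by
  obtain ⟨p, u, v⟩ := h
  obtain ⟨q, u', v'⟩ := h'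
  refine ⟨p * q, pol_mul u u', ?_⟩
  convert add_mem (Ideal.mul_mem_right b _ v) (Ideal.mul_mem_left _ p v') using 1
  ring

theorem PO.arc (h : F.bv b = b) : PO F n b := PO.pol (of_bv h)

theorem PO.smul (s : ℂ) (h : PO F n a) : PO F n (s • a) := by
  rw [Algebra.smul_def]; exact (PO.arc (S.alg s).1).mul h

theorem PO.I (h : PO F n a) : PO F (n + 1) (F.I a) :=
  let ⟨p, u, v⟩ := h; ⟨F.I p, pol_I u, map_sub F.I a p ▸ O_I v⟩

theorem PO.T (h : PO F n a) : PO F (n + 1) (F.T a) :=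
  let ⟨p, u, v⟩ := h; ⟨F.T p, pol_T u, map_sub F.T a p ▸ O_T v⟩

theorem PO.cj (h : PO F n a) : PO F n (F.cj a) :=
  let ⟨p, u, v⟩ := h; ⟨F.cj p, pol_cj u, map_sub F.cj a p ▸ O_cj v⟩

theorem po_V (hE : EstS) {M : Mdl} (hf : M.Fl M.f) (j : ℕ) : PO M.toFA j M.V := by
  induction j with
  | zero => exact PO.ord (by simpa using O_0 _)
  | succ j ih =>
    push_cast
    have e := (hE M (j + 1) (by positivity) (hf _)).2.2.2
    have l : (j + 1 : ℝ) ≤ j + 1 + 1 := by linarith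
    have g2 := S.two.mul M.Sg
    have := (PO.arc M.Swi.1).mul ((((((PO.ord e).add ((ih.I.I.le l).smul M.c)).add
      ((PO.arc ((g2.mul M.Sq).add (M.Su.smul M.c)).1).add ((PO.pol pol_y).mul
        (PO.arc ((M.Sh.smul M.c).sub M.Sq.X).1)))).add ((PO.arc g2.1).mul ih.T)).add
      ((PO.arc M.Sk.1).mul ih.I)).sub (ih.T.T.le l))
    convert this using 1
    have w := M.w_wi
    rw [Mdl.w] at w
    rw [lap, k]
    linear_combination -M.V * w

theorem po_rs (hE : EstS) {M : Mdl} (hf : M.Fl M.f) (j : ℕ) : PO M.toFA j M.rs := by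
  have v := po_V hE hf j
  have l : (j : ℝ) ≤ j + 1 := by linarith
  have b : PO M.toFA j M.Uq := (PO.arc M.Sq.1).add (v.T.le l)
  have a : PO M.toFA j M.Ua := (((PO.pol pol_y).mul (PO.arc M.Sq.X.1)).add
    ((v.T.le l).T.le l)).sub ((PO.arc M.Sk.1).mul (v.I.le l))
  have d := (a.mul v.cj).sub (a.cj.mul v)
  have := (d.mul d).sub (((PO.arc (S.nat 4).1).mul ((a.mul b.cj).sub (a.cj.mul b))).mul
    ((b.mul v.cj).sub (b.cj.mul v)))
  rwa [← sq, Nat.cast_ofNat] at this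

/-- The resultant is a multiple of the pencil. -/
theorem rs_eq (M : Mdl) : ∃ σ : M.R, M.δ σ = 0 ∧ σ * M.r1 = M.rs := by
  refine ⟨M.c⁻¹ • (XNd.H M * (M.V + M.cj M.V) ^ 2
    - 4 * (M.el * (M.V + M.cj M.V) + (M.Uq + M.cj M.Uq)) * (M.Uq * M.cj M.V - M.cj M.Uq * M.V)),
    ?_, ?_⟩
  · simp [M.δ_mul, δ_sq, XNd.δ_H, M.δ_V, M.δ_Uq, ← M.cj_δ]
  · have e := XNd.cj_H M
    have e' : M.Ua = XNd.H M - 2 * M.el * M.Uq - M.el ^ 2 * M.V := by rw [XNd.H]; ring
    have e'' : M.cj M.Ua = -XNd.H M - 2 * M.el * M.cj M.Uq - M.el ^ 2 * M.cj M.V := by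
      rw [e', map_sub, map_sub, e, map_mul, map_mul, map_mul, map_pow, map_ofNat, cj_el]
    rw [XNd.r1_eq, smul_mul_smul_comm, inv_mul_cancel₀ M.c_ne, one_smul, rs, res, e'', e']
    ring

end XNdR

open XNdR in
theorem rowNdR : OfNdR := by
  intro hE M hf
  refine or_iff_not_imp_right.2 fun h => ?_
  obtain ⟨σ, dσ, eσ⟩ := rs_eq M
  have d : M.ev M.rs = M.rs := M.ev_of _ (by rw [← eσ, M.δ_mul, dσ, M.δ_r1]; simp)
  have k : ∀ j : ℕ, M.rs ∈ M.O j := fun j => by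
    induction j with
    | zero => simpa using O_0 _
    | succ j ih =>
      obtain ⟨p, hp, o⟩ := po_rs hE hf (j + 1)
      push_cast at o ⊢
      obtain ⟨r, br, hr⟩ := top j hp (by simpa using sub_mem ih (O_le o (by linarith)))
      have t := O_ev (add_mem o hr)
      rw [sub_add_sub_cancel, map_sub, d, map_mul, map_pow, ev_y] at t
      by_cases z : M.ev r = 0
      · simpa [z] using t
      · exact absurd ⟨j, M.ev r, ⟨by rw [← M.ev_bv, br], M.δ_ev r⟩, z, σ, dσ,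
          eσ ▸ O_le t (by linarith)⟩ h
  intro m
  obtain ⟨j, hj⟩ := exists_nat_ge m
  exact O_le (k j) hj

end Pool.Agent.MP_ed9623_an.R10
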