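import Pool.Agent.MP_ed9623_an.R10.Spec

/-! A reduced algebra with a derivation maps to a field with a derivation. -/

namespace Pool.Agent.MP_ed9623_an.R10

namespace XPf

/-- A derivation extends to a localisation. -/
theorem ext {R K : Type} [CommRing R] [Algebra ℂ R] [CommRing K] [Algebra ℂ K] [Algebra R K]
    [IsScalarTower ℂ R K] (S : Submonoid R) [IsLocalization S K] (X : R →ₗ[ℂ] R)
    (h : ∀ a b, X (a * b) = X a * b + a * X b) : ∃ D : K →ₗ[ℂ] K,
    (∀ a b, D (a * b) = D a * b + a * D b) ∧ ∀ a, algebraMap R K (X a) = D (algebraMap R K a) := by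
  have x1 : X 1 = 0 := by simpa using h 1 1
  let f : R →ₐ[ℂ] TrivSqZeroExt K K :=
    { toFun := fun a => (algebraMap R K a, algebraMap R K (X a))
      map_one' := TrivSqZeroExt.ext (map_one _) (by
        rw [x1]; exact map_zero _)
      map_mul' := fun a b => TrivSqZeroExt.ext (map_mul _ _ _) (by
        change algebraMap R K (X (a * b)) = algebraMap R K a * algebraMap R K (X b)
          + algebraMap R K (X a) * algebraMap R K b
        rw [h, map_add, map_mul, map_mul, add_comm])
      map_zero' := TrivSqZeroExt.ext (map_zero _) (by rw [map_zero X]; exact map_zero _)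
      map_add' := fun a b => TrivSqZeroExt.ext (map_add _ _ _) (by
        rw [map_add X]; exact map_add _ _ _)
      commutes' := fun s => TrivSqZeroExt.ext (IsScalarTower.algebraMap_apply ℂ R K s).symm (by
        change algebraMap R K (X (algebraMap ℂ R s)) = 0
        rw [Algebra.algebraMap_eq_smul_one s, map_smul X, x1, smul_zero, map_zero]) }
  have u : ∀ y : S, IsUnit (f y) := fun y => TrivSqZeroExt.isUnit_iff_isUnit_fst.2
    (IsLocalization.map_units K y)
  let ψ : K →ₐ[ℂ] TrivSqZeroExt K K := IsLocalization.liftAlgHom u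
  have e : ∀ a, ψ (algebraMap R K a) = f a := fun a => IsLocalization.lift_eq u a
  have k : ∀ a, (ψ a).fst = a := fun a => RingHom.congr_fun (IsLocalization.ringHom_ext S
    (j := ((TrivSqZeroExt.fstHom ℂ K K).comp ψ).toRingHom) (k := RingHom.id K)
    (RingHom.ext fun a => congrArg TrivSqZeroExt.fst (e a))) a
  refine ⟨((TrivSqZeroExt.sndHom K K).restrictScalars ℂ).comp ψ.toLinearMap, fun a b => ?_,
    fun a => ?_⟩
  · change (ψ (a * b)).snd = (ψ a).snd * b + a * (ψ b).snd
    rw [map_mul, TrivSqZeroExt.snd_mul, k, k, add_comm]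
    rfl
  · exact (congrArg TrivSqZeroExt.snd (e a)).symm

end XPf

theorem rowPf : OfPf := by
  intro R _ _ X nt red h
  have : Nontrivial R := ⟨1, 0, nt⟩
  have : IsReduced R := (isReduced_iff_pow_one_lt 2 one_lt_two).2 fun x e => red x (by rwa [← sq])
  obtain ⟨p, hp⟩ := Ideal.nonempty_minimalPrimes (R := R) (I := ⊥) bot_ne_top
  have := hp.1.1
  have F : IsField (Localization.AtPrime p) := by
    rw [IsLocalRing.isField_iff_maximalIdeal_eq, ← Localization.AtPrime.map_eq_maximalIdeal,
      ← IsLocalization.AtPrime.radical_map_of_mem_minimalPrimes _ p ⊥ hp, Ideal.map_bot]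
    exact nilradical_eq_zero _
  obtain ⟨D, a, b⟩ := XPf.ext (K := Localization.AtPrime p) p.primeCompl X h
  exact ⟨Localization.AtPrime p, F.toField, inferInstanceAs (Algebra ℂ (Localization.AtPrime p)), D,
    IsScalarTower.toAlgHom ℂ R _, a, b⟩

end Pool.Agent.MP_ed9623_an.R10
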