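import Pool.Agent.MP_ed9623_an.R10.Spec
import Pool.Agent.MP_ed9623_an.R10.Base4

/-! No resonant arc: passage to a field. -/

namespace Pool.Agent.MP_ed9623_an.R10

open FA Mdl

namespace XRa

variable {S K : Type} [CommRing S] [Algebra ℂ S] [CommRing K] [Algebra ℂ K]

/-- The image of the jets. -/
def im (J : DJ S) (φ : S →ₐ[ℂ] K) (D : K → K) : DJ K :=
  ⟨D, φ J.g, φ J.k, φ J.w, φ J.wi, φ J.u1, φ J.h, φ J.q, φ J.e, φ J.l, φ J.f3, φ J.m2, φ J.γ⟩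

variable {J : DJ S} {φ : S →ₐ[ℂ] K} {D : K → K} (h : ∀ a, φ (J.D a) = D (φ a))
include h

theorem d (a : S) : φ (J.d a) = (im J φ D).d (φ a) := by simp [DJ.d, im, h]

theorem La (a : S) : φ (J.La a) = (im J φ D).La (φ a) := by
  simp only [DJ.La, map_add, map_mul, d h, map_ofNat]
  rfl

theorem E0 (n : ℂ) (p : S × S) : φ (J.E0 n p) = (im J φ D).E0 n (φ p.1, φ p.2) := by
  simp only [DJ.E0, map_sub, map_mul, map_smul, d h, map_ofNat]
  rfl

theorem E1 (n : ℂ) (p : S × S) : φ (J.E1 n p) = (im J φ D).E1 n (φ p.1, φ p.2) := by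
  simp only [DJ.E1, map_sub, map_add, map_mul, map_smul, d h, h, map_ofNat]
  rfl

theorem st (n : ℂ) (p : S × S) :
    (φ (J.st n p).1, φ (J.st n p).2) = (im J φ D).st n (φ p.1, φ p.2) := by
  simp only [DJ.st, DJ.x1, DJ.x0, DJ.n1, DJ.n0, DJ.o1, DJ.o0, map_sub, map_add, map_mul, map_smul,
    map_pow, d h, La h]
  rfl

end XRa

open XRa

theorem rowRa : OfRa := by
  intro hP hA hB M N μ₁ γ uk uu uq hN H
  obtain ⟨K, _, _, D, φ, hD, hX⟩ := hP M.R M.X M.nt M.red M.X_mul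
  have h : ∀ a, φ ((M.dj γ).D a) = D (φ a) := hX
  have arc : Arc D (im (M.dj γ) φ D) M.c (φ M.u) :=
    { mul := hD
      D_eq := rfl
      c0 := M.c_ne
      k0 := (uk.map φ).ne_zero
      u0 := (uu.map φ).ne_zero
      q0 := (uq.map φ).ne_zero
      dg := (hX M.g).symm
      hw := by simp [im, dj, Mdl.w]
      wi := by simpa [im, dj] using congrArg φ M.w_wi
      du := (hX M.u).symm
      du1 := by simpa [im, dj, hX] using congrArg φ M.X_u1
      dh := (hX M.h).symm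
      he := by simp [im, dj, Mdl.e, map_ofNat]
      hl := by simp [im, dj, Mdl.l, hX]
      hf := by simp [im, dj, Mdl.f3, hX, map_ofNat]
      hm := by simp [im, dj, Mdl.m2, hX] }
  refine hB K D _ _ _ arc (hA K D _ _ _ (φ μ₁) N arc hN fun n p hp => ?_)
  have key : ∀ (n : ℂ) (p : M.R × M.R), (M.dj γ).E0 n p = 0 ∧ (M.dj γ).E1 n p = 0 →
      (im (M.dj γ) φ D).E0 n (φ p.1, φ p.2) = 0 ∧ (im (M.dj γ) φ D).E1 n (φ p.1, φ p.2) = 0 :=
    fun n p e => ⟨by rw [← E0 h, e.1, map_zero], by rw [← E1 h, e.2, map_zero]⟩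
  have one : ((1 : K), φ μ₁) = (φ ((1 : M.R), μ₁).1, φ ((1 : M.R), μ₁).2) := by simp
  rcases hp with ⟨rfl, rfl⟩ | ⟨rfl, rfl⟩ | ⟨rfl, rfl⟩
  · rw [one]
    exact key _ _ (H _ _ (Or.inl ⟨rfl, rfl⟩))
  · rw [one, ← st h]
    exact key _ _ (H _ _ (Or.inr (Or.inl ⟨rfl, rfl⟩)))
  · rw [one, ← st h, ← st h]
    exact key _ _ (H _ _ (Or.inr (Or.inr ⟨rfl, rfl⟩)))

end Pool.Agent.MP_ed9623_an.R10
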