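import Pool.Agent.MP_ed9623_an.R10.Spec

/-! The three relations on a resonant arc. -/

namespace Pool.Agent.MP_ed9623_an.R10

namespace XRaA

/-- The difference of two consecutive equations. -/
theorem alg {K : Type} [Field K] [CharZero K] (g k k1 y h q u c n β β1 w wi e δ δ1 q1 q2 e1 e2 f3 m2 : K)
    (hw : w = 1 + g ^ 2) (w0 : w ≠ 0) (hwi : wi = w⁻¹) (y0 : y ≠ 0) (q0 : q ≠ 0) (k0 : k ≠ 0)
    (he : e = wi * (c * u + 2 * g * q)) (hδ : δ = 2 * k * (h * y⁻¹ - 2 * g * wi))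
    (hq1 : q1 = q * δ + k * e)
    (he1 : e1 = -2 * g * k * wi * e + wi * (c * y + 2 * k * q + 2 * g * q1))
    (hδ1 : δ1 = 2 * k1 * (h * y⁻¹ - 2 * g * wi)
      + 2 * k * (q * y⁻¹ - k * (h * y⁻¹) ^ 2 - 2 * k * wi + 4 * g ^ 2 * k * wi ^ 2))
    (hq2 : q2 = q1 * δ + q * δ1 + k1 * e + k * e1)
    (he2 : e2 = -2 * k * k * wi * e - 2 * g * k1 * wi * e + 4 * g ^ 2 * k ^ 2 * wi ^ 2 * e
      - 2 * g * k * wi * e1 - 2 * g * k * wi ^ 2 * (c * y + 2 * k * q + 2 * g * q1)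
      + wi * (c * k * h + 2 * k1 * q + 4 * k * q1 + 2 * g * q2))
    (hf : f3 = wi * (c * h + 2 * g * e1 - q * δ)) (hm : m2 = e2 - k * f3)
    (hβ : β = n * δ / 2 - k * e / (2 * q))
    (hβ1 : β1 = (n * (q1 * δ + q * δ1) - k1 * e - k * e1 - 2 * q1 * β) / (2 * q)) :
    q * δ * ((2 * n - 1) * (q * y⁻¹) - 2 * (h * y⁻¹) * β - k * (h * y⁻¹) ^ 2
        + wi * (4 * g * (β + δ) + 2 * k) + 4 * g ^ 2 * k * wi ^ 2)
      - 2 * q * ((2 * n - 1) * (q1 * y⁻¹ - q * k * h * y⁻¹ ^ 2)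
        - 2 * (q * y⁻¹ - k * (h * y⁻¹) ^ 2) * β - 2 * (h * y⁻¹) * β1 - k1 * (h * y⁻¹) ^ 2
        - 2 * k * (h * y⁻¹) * (q * y⁻¹ - k * (h * y⁻¹) ^ 2)
        - 2 * g * k * wi ^ 2 * (4 * g * (β + δ) + 2 * k)
        + wi * (4 * k * (β + δ) + 4 * g * (β1 + δ1) + 2 * k1)
        + 8 * g * k ^ 2 * wi ^ 2 + 4 * g ^ 2 * k1 * wi ^ 2 - 16 * g ^ 3 * k ^ 2 * wi ^ 3)
      + (e * (δ1 + (β + δ) ^ 2 - β ^ 2) - 2 * k * f3 - 2 * (n + 3) * e1 * (β + δ)
        + 2 * (n + 1) * e1 * β + (2 * n + 3) * m2)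
    = 2 * k * q ^ 2 / (y * w) * ((2 * n + 1) *
      (k * y / (w ^ 2 * q) * (1 + ((w * h - g * y) / y) ^ 2)
        * ((k1 * w - 3 * g * k ^ 2) / k ^ 2 + c * u / q - 3 * ((w * h - g * y) / y))
        + 2 * ((w * h - g * y) / y) - 2 * (c * y ^ 2 / (w * q ^ 2)) * ((w * h - g * y) / y) - c * u / q)
      + (c * u / q * (2 + 4 * (k * y / (w ^ 2 * q) * (1 + ((w * h - g * y) / y) ^ 2))
        + c * y ^ 2 / (w * q ^ 2)) - 6 * (c * y ^ 2 / (w * q ^ 2)) * ((w * h - g * y) / y))) := by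
  subst hβ1 hβ hm hf he2 hq2 hδ1 he1 hq1 hδ he hwi
  field_simp
  subst hw
  ring

variable {K : Type} [Field K] [Algebra ℂ K] {D : K →ₗ[ℂ] K} {J : DJ K} {c : ℂ} {u : K}

theorem dc (h : Arc D J c u) (s : ℂ) : D (algebraMap ℂ K s) = 0 := by
  have := h.mul 1 1
  rw [mul_one, mul_one, one_mul, left_eq_add] at this
  rw [Algebra.algebraMap_eq_smul_one, map_smul, this, smul_zero]

theorem d1 (h : Arc D J c u) : D 1 = 0 := by simpa using dc h 1
theorem d2 (h : Arc D J c u) : D 2 = 0 := by simpa only [map_ofNat] using dc h 2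
theorem d4 (h : Arc D J c u) : D 4 = 0 := by simpa only [map_ofNat] using dc h 4

theorem dsq (h : Arc D J c u) (a : K) : D (a ^ 2) = 2 * a * D a := by rw [sq, h.mul]; ring

theorem dinv (h : Arc D J c u) {a : K} (ha : a ≠ 0) : D a⁻¹ = -a⁻¹ ^ 2 * D a := by
  have := h.mul a a⁻¹
  rw [mul_inv_cancel₀ ha, d1 h] at this
  apply mul_left_cancel₀ ha
  have e : a * a⁻¹ = 1 := mul_inv_cancel₀ ha
  linear_combination -this + a⁻¹ * D a * e

theorem w0 (h : Arc D J c u) : J.w ≠ 0 := left_ne_zero_of_mul_eq_one h.wi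

theorem wi (h : Arc D J c u) : J.wi = J.w⁻¹ := eq_inv_of_mul_eq_one_right h.wi

theorem dw (h : Arc D J c u) : D J.w = 2 * J.g * J.k := by
  rw [h.hw, map_add, d1 h, dsq h, h.dg, zero_add]

theorem dwi (h : Arc D J c u) : D J.wi = -2 * J.g * J.k * J.wi ^ 2 := by
  rw [wi h, dinv h (w0 h), dw h]; ring

theorem dyi (h : Arc D J c u) : D J.u1⁻¹ = -J.u1⁻¹ ^ 2 * (J.k * J.h) := by
  rw [dinv h h.u0, h.du1]

theorem d_mul (h : Arc D J c u) (a b : K) : J.d (a * b) = D a * b + a * J.d b := by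
  simp only [DJ.d, h.D_eq, h.mul]; ring

/-- The increment of the logarithmic derivative. -/
def de (J : DJ K) : K := 2 * J.k * (J.h * J.u1⁻¹ - 2 * J.g * J.wi)

/-- The increment of the ratio. -/
def dl (J : DJ K) (n β : K) : K := (2 * n - 1) * (J.q * J.u1⁻¹) - 2 * (J.h * J.u1⁻¹) * β
  - J.k * (J.h * J.u1⁻¹) ^ 2 + J.wi * (4 * J.g * (β + de J) + 2 * J.k) + 4 * J.g ^ 2 * J.k * J.wi ^ 2

/-- A normalised symbol. -/
def Sy (J : DJ K) (n : ℂ) (p : K × K) (β s : K) : Prop :=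
  p.1 ≠ 0 ∧ J.d p.1 = β * p.1 ∧ (algebraMap ℂ K n + 1) * p.2 = s * p.1

theorem ne_of {n : ℂ} (a : ℂ) (hn : n + a ≠ 0) : algebraMap ℂ K n + algebraMap ℂ K a ≠ 0 := by
  rw [← map_add]; exact (map_ne_zero _).2 hn

theorem eqs (h : Arc D J c u) {n : ℂ} {p : K × K} {β s : K} (hn : n + 1 ≠ 0) (hs : Sy J n p β s)
    (e : J.E0 n p = 0 ∧ J.E1 n p = 0) :
    algebraMap ℂ K n * J.l - J.k * J.e - 2 * J.q * β = 0 ∧
    2 * (J.l * s - 2 * J.q * D s + J.e * (D β + β ^ 2) - (algebraMap ℂ K n + 1) * J.k * J.f3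
      - 2 * (algebraMap ℂ K n + 1) * D J.e * β)
      + algebraMap ℂ K n * (algebraMap ℂ K n + 1) * J.m2 = 0 := by
  have : CharZero K := charZero_of_injective_algebraMap (algebraMap ℂ K).injective
  obtain ⟨p0, a, b⟩ := hs
  obtain ⟨e0, e1⟩ := e
  have n1 := ne_of (K := K) 1 hn
  rw [map_one] at n1
  have f0 : algebraMap ℂ K n * J.l - J.k * J.e - 2 * J.q * β = 0 := by
    apply mul_right_cancel₀ p0
    rw [DJ.E0, a, Algebra.smul_def] at e0
    linear_combination e0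
  refine ⟨f0, mul_right_cancel₀ p0 ?_⟩
  have b' := congrArg J.d b
  rw [d_mul h, d_mul h, map_add, dc h, d1 h, a] at b'
  simp only [DJ.E1, a, d_mul h, Algebra.smul_def, map_inv₀, map_add, map_one, map_div₀,
    map_ofNat, h.D_eq] at e1
  set m := algebraMap ℂ K n
  have i : (m + 1) * (m + 1)⁻¹ = 1 := mul_inv_cancel₀ n1
  linear_combination 2 * (m + 1) * e1 - 2 * J.e * (D β * p.1 + β * (β * p.1)) * i
    + 4 * J.q * b' + 2 * (J.k * J.e - (m + 1) * J.l) * b - 2 * s * p.1 * f0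

theorem step (h : Arc D J c u) {n : ℂ} {p : K × K} {β s : K} (h1 : n + 1 ≠ 0) (h2 : n + 2 ≠ 0)
    (h3 : n + 3 ≠ 0) (hs : Sy J n p β s) :
    Sy J (n + 2) (J.st n p) (β + de J) (s + dl J (algebraMap ℂ K n) β) := by
  obtain ⟨p0, a, b⟩ := hs
  have n1 := ne_of (K := K) 1 h1
  have n2 := ne_of (K := K) 2 h2
  have n3 := ne_of (K := K) 3 h3
  rw [map_one] at n1
  rw [map_ofNat] at n2 n3
  have y0 := h.u0
  have w0' := w0 h
  have x0 : J.x0 n p = (algebraMap ℂ K n + 1)⁻¹ * (J.wi ^ 2 * (J.u1 * (J.u1 * p.1))) := by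
    simp only [DJ.x0, DJ.n0, DJ.o0, Algebra.smul_def, map_inv₀, map_add, map_one]
  have i1 : D (algebraMap ℂ K n + 1)⁻¹ = 0 := by
    rw [dinv h n1, map_add, dc h, d1 h, add_zero, mul_zero]
  have i2 : D (algebraMap ℂ K n + 2)⁻¹ = 0 := by
    rw [dinv h n2, map_add, dc h, d2 h, add_zero, mul_zero]
  have dx : J.d (J.x0 n p) = (β + de J) * J.x0 n p := by
    simp only [x0, d_mul h, i1, dsq h, dwi h, h.du1, a, de]
    field_simp
    ring
  have p2 : p.2 = s * p.1 / (algebraMap ℂ K n + 1) := by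
    rw [← b]; field_simp
  refine ⟨?_, ?_, ?_⟩
  · simp only [DJ.st, Algebra.smul_def, map_inv₀, map_add, map_ofNat, x0, wi h]
    positivity
  · simp only [DJ.st, Algebra.smul_def, map_inv₀, map_add, map_ofNat, d_mul h, i2, dx]
    ring
  · simp only [DJ.st, DJ.x1, DJ.La, DJ.n1, DJ.o1, DJ.o0, Algebra.smul_def, map_inv₀, map_add,
      map_ofNat, map_one, d_mul h, dx, dw h, h.dh, h.du1, a]
    rw [x0, p2, dl, show algebraMap ℂ K n + 2 + 1 = algebraMap ℂ K n + 3 by ring, wi h]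
    field_simp
    ring

theorem dif (h : Arc D J c u) (r : J.l = J.q * de J) {n β : K} (hn : D n = 0)
    (e : n * J.l - J.k * J.e - 2 * J.q * β = 0) :
    J.l * dl J n β - 2 * J.q * D (dl J n β) + (J.e * (D (de J) + (β + de J) ^ 2 - β ^ 2)
      - 2 * J.k * J.f3 - 2 * (n + 3) * D J.e * (β + de J) + 2 * (n + 1) * D J.e * β
      + (2 * n + 3) * J.m2)
    = 2 * J.k * J.q ^ 2 / (J.u1 * J.w) * ((2 * n + 1) *
      (J.k * J.u1 / (J.w ^ 2 * J.q) * (1 + ((J.w * J.h - J.g * J.u1) / J.u1) ^ 2)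
        * ((D J.k * J.w - 3 * J.g * J.k ^ 2) / J.k ^ 2 + algebraMap ℂ K c * u / J.q
          - 3 * ((J.w * J.h - J.g * J.u1) / J.u1))
        + 2 * ((J.w * J.h - J.g * J.u1) / J.u1) - 2 * (algebraMap ℂ K c * J.u1 ^ 2 / (J.w * J.q ^ 2))
          * ((J.w * J.h - J.g * J.u1) / J.u1) - algebraMap ℂ K c * u / J.q)
      + (algebraMap ℂ K c * u / J.q * (2 + 4 * (J.k * J.u1 / (J.w ^ 2 * J.q)
          * (1 + ((J.w * J.h - J.g * J.u1) / J.u1) ^ 2))
        + algebraMap ℂ K c * J.u1 ^ 2 / (J.w * J.q ^ 2))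
        - 6 * (algebraMap ℂ K c * J.u1 ^ 2 / (J.w * J.q ^ 2)) * ((J.w * J.h - J.g * J.u1) / J.u1))) := by
  have : CharZero K := charZero_of_injective_algebraMap (algebraMap ℂ K).injective
  have q0 := h.q0
  have he := h.he
  have hf := h.hf
  rw [Algebra.smul_def] at he hf
  have q1 : D J.q = J.q * de J + J.k * J.e := by rw [← r, h.hl]; ring
  have e1 : D J.e = -2 * J.g * J.k * J.wi * J.e
      + J.wi * (algebraMap ℂ K c * J.u1 + 2 * J.k * J.q + 2 * J.g * D J.q) := by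
    conv_lhs => rw [he]
    simp only [h.mul, map_add, dc h, d2 h, dwi h, h.du, h.dg]
    rw [he]; ring
  have e' := congrArg D e
  rw [r] at e' e hf
  simp only [h.mul, map_sub, map_zero, hn, d2 h] at e'
  rw [r, ← alg J.g J.k (D J.k) J.u1 J.h J.q u (algebraMap ℂ K c) n β (D β) J.w J.wi J.e (de J)
    (D (de J)) (D J.q) (D (D J.q)) (D J.e) (D (D J.e)) J.f3 J.m2 h.hw (w0 h) (wi h) h.u0 q0 h.k0 he
    rfl q1 e1 ?_ ?_ ?_ hf h.hm ?_ ?_]
  · simp only [dl, h.mul, map_add, map_sub, hn, d1 h, d2 h, d4 h, dsq h, dwi h, dyi h, h.dg, h.dh]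
    ring
  · simp only [de, h.mul, map_sub, d2 h, dwi h, dyi h, h.dg, h.dh]
    ring
  · conv_lhs => rw [q1]
    simp only [h.mul, map_add]
    ring
  · conv_lhs => rw [e1]
    simp only [h.mul, map_add, map_neg, dc h, d2 h, dwi h, h.du1, h.dg]
    ring
  · field_simp
    linear_combination -e
  · field_simp
    linear_combination -e'

end XRaA

open XRaA in
theorem rowRaA : OfRaA := by
  intro K _ _ D J c u μ₁ N h hN H η E C hη hE hC
  have : CharZero K := charZero_of_injective_algebraMap (algebraMap ℂ K).injective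
  have ne : ∀ a : ℝ, 0 ≤ a → (N : ℂ) + a ≠ 0 := fun a ha => by
    rw [← Complex.ofReal_add]; exact Complex.ofReal_ne_zero.2 (by linarith)
  have s0 : Sy J N (1, μ₁) J.γ ((algebraMap ℂ K N + 1) * μ₁) :=
    ⟨one_ne_zero, by simp [DJ.d, h.D_eq, d1 h], by simp⟩
  have s1 := step h (by simpa using ne 1 (by norm_num)) (by simpa using ne 2 (by norm_num))
    (by simpa using ne 3 (by norm_num)) s0
  have a3 : (N : ℂ) + 2 + 1 ≠ 0 := by
    rw [add_assoc]; norm_num; simpa using ne 3 (by norm_num)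
  have s2 := step h a3 (by rw [add_assoc]; norm_num; simpa using ne 4 (by norm_num))
    (by rw [add_assoc]; norm_num; simpa using ne 5 (by norm_num)) s1
  obtain ⟨a0, b0⟩ := eqs h (by simpa using ne 1 (by norm_num)) s0 (H _ _ (Or.inl ⟨rfl, rfl⟩))
  obtain ⟨a1, b1⟩ := eqs h a3 s1 (H _ _ (Or.inr (Or.inl ⟨rfl, rfl⟩)))
  obtain ⟨-, b2⟩ := eqs h (by rw [add_assoc, add_assoc]; norm_num; simpa using ne 5 (by norm_num))
    s2 (H _ _ (Or.inr (Or.inr ⟨by ring, rfl⟩)))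
  have dn := dc h N
  have dn2 := dc h (N + 2)
  simp only [map_add, map_ofNat] at a1 b1 b2 dn2
  set n := algebraMap ℂ K N
  have r : J.l = J.q * de J := by linear_combination (a1 - a0) / 2
  have f0 := dif h r dn a0
  have f1 := dif h r (n := n + 2) (by rw [map_add, dn2]) a1
  have y0 := h.u0
  have w0' := w0 h
  have k : 2 * J.k * J.q ^ 2 / (J.u1 * J.w) ≠ 0 :=
    div_ne_zero (mul_ne_zero (mul_ne_zero two_ne_zero h.k0) (pow_ne_zero 2 h.q0))
      (mul_ne_zero y0 w0')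
  rw [Algebra.smul_def] at hE
  rw [← hη, ← hE, ← hC] at f0 f1
  have g0 := (mul_eq_zero.1 (f0.symm.trans (by linear_combination (b1 - b0) / 2))).resolve_left k
  have g1 := (mul_eq_zero.1 (f1.symm.trans (by linear_combination (b2 - b1) / 2))).resolve_left k
  refine ⟨?_, by linear_combination (g1 - g0) / 4,
    by linear_combination g0 - (2 * n + 1) * (g1 - g0) / 4⟩
  rw [r, de, wi h]
  field_simp

end Pool.Agent.MP_ed9623_an.R10
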