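import Pool.Agent.MP_ed9623_an.R10.Spec

/-! The three relations on a resonant arc give the closed system. -/

namespace Pool.Agent.MP_ed9623_an.R10

namespace XRaB

/-- The reduced system. -/
theorem red (hC : RaCS) {K : Type} [Field K] [CharZero K] (D : K →+ K)
    (hD : ∀ a b, D (a * b) = D a * b + a * D b) {t a η E C κ : K} (t0 : t ≠ 0) (a0 : a ≠ 0)
    (C0 : C ≠ 0) (dη : a * D η = t * (1 - a * (1 + η ^ 2)))
    (dE : a * D E = t * (C - a * E * (2 * η + E))) (dC : D C = -2 * t * C * (η + E))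
    (da : D a = a * t * (κ - η - E))
    (R2 : a * (1 + η ^ 2) * (κ + E - 3 * η) + 2 * η - 2 * C * η - E = 0)
    (R3 : E * (2 + 4 * (a * (1 + η ^ 2)) + C) = 6 * C * η) : False := by
  have d1 : D 1 = 0 := by simpa using hD 1 1
  have d2 : D (1 + η ^ 2) = 2 * η * D η := by rw [map_add, d1, sq, hD]; ring
  by_cases η0 : η = 0
  · subst η0
    rw [map_zero] at dη
    have a1 : a = 1 := by
      have := (mul_eq_zero.1 (dη.symm.trans (mul_zero a))).resolve_left t0
      linear_combination -this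
    subst a1
    rw [d1] at da
    have e0 : E = 0 := mul_left_cancel₀ t0 (by linear_combination da + t * R2)
    subst e0
    rw [map_zero] at dE
    exact C0 (mul_left_cancel₀ t0 (by linear_combination -dE))
  by_cases n0 : 1 + η ^ 2 = 0
  · rw [n0, map_zero] at d2
    have : D η = 0 := mul_left_cancel₀ (mul_ne_zero two_ne_zero η0) (by linear_combination -d2)
    rw [this, n0] at dη
    exact t0 (by linear_combination -dη)
  obtain ⟨v, hv⟩ : ∃ v, η * v = 1 := ⟨η⁻¹, mul_inv_cancel₀ η0⟩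
  obtain ⟨s, hs⟩ : ∃ s, t * s = 1 := ⟨t⁻¹, mul_inv_cancel₀ t0⟩
  have dv : D v = -(v ^ 2 * D η) := by
    have := hD η v
    rw [hv, d1] at this
    linear_combination -v * this - D v * hv
  have dη' : s * (a * D η) = 1 - a * (1 + η ^ 2) := by
    rw [dη]; linear_combination (1 - a * (1 + η ^ 2)) * hs
  have dE' : s * (a * D E) = C - a * E * (2 * η + E) := by
    rw [dE]; linear_combination (C - a * E * (2 * η + E)) * hs
  refine hC K ((AddMonoidHom.mulLeft (s * v)).comp D) (a * (1 + η ^ 2)) C (E * v) (1 + v * v)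
    (fun x y => ?_) (mul_ne_zero a0 n0) C0 ?_ ?_ ?_ ?_ ?_
  · simp only [AddMonoidHom.comp_apply, AddMonoidHom.coe_mulLeft, hD]; ring
  · simp only [AddMonoidHom.comp_apply, AddMonoidHom.coe_mulLeft, map_add, hD, d1, dv]
    linear_combination (-2 * v ^ 4 * (1 + η ^ 2)) * dη'
      - 2 * v ^ 2 * (1 - a * (1 + η ^ 2)) * (η * v + 1) * hv
  · simp only [AddMonoidHom.comp_apply, AddMonoidHom.coe_mulLeft, hD, dv]
    linear_combination (v ^ 2 * (1 + η ^ 2)) * dE' - E * v ^ 3 * (1 + η ^ 2) * dη'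
      + ((C - E * v * (1 - a * (1 + η ^ 2))) * (η * v + 1) - 2 * a * (1 + η ^ 2) * E * v) * hv
  · simp only [AddMonoidHom.comp_apply, AddMonoidHom.coe_mulLeft, hD, d2, da]
    linear_combination (2 * η * v) * dη' + v * R2
      + (v * a * (κ - η - E) * (1 + η ^ 2)) * hs + 2 * C * hv
  · simp only [AddMonoidHom.comp_apply, AddMonoidHom.coe_mulLeft, dC]
    linear_combination (-2 * C * v * (η + E)) * hs - 2 * C * hv
  · linear_combination v * R3 + 6 * C * hv

end XRaB

theorem rowRaB : OfRaB := by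
  intro hC K _ _ D J c u A R
  have : CharZero K := charZero_of_injective_algebraMap (algebraMap ℂ K).injective
  obtain ⟨R1, R2, R3⟩ := R _ _ _ rfl rfl rfl
  have hD := A.mul
  have d1 : D 1 = 0 := by simpa using hD 1 1
  have dc : D (algebraMap ℂ K c) = 0 := by rw [Algebra.algebraMap_eq_smul_one, map_smul, d1, smul_zero]
  have c0 : algebraMap ℂ K c ≠ 0 := (map_ne_zero _).2 A.c0
  have he := A.he
  have wi := A.wi
  have w0 : J.w ≠ 0 := left_ne_zero_of_mul_eq_one wi
  have k0 := A.k0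
  have u0 := A.u0
  have q0 := A.q0
  rw [Algebra.smul_def] at R2 R3 he
  generalize algebraMap ℂ K c = cc at *
  obtain ⟨η, hη⟩ : ∃ η, η = (J.w * J.h - J.g * J.u1) / J.u1 := ⟨_, rfl⟩
  obtain ⟨E, hE⟩ : ∃ E, E = cc * u / J.q := ⟨_, rfl⟩
  obtain ⟨C, hc⟩ : ∃ C, C = cc * J.u1 ^ 2 / (J.w * J.q ^ 2) := ⟨_, rfl⟩
  obtain ⟨a, ha⟩ : ∃ a, a = J.k * J.u1 / (J.w ^ 2 * J.q) := ⟨_, rfl⟩
  obtain ⟨κ, hκ⟩ : ∃ κ, κ = (D J.k * J.w - 3 * J.g * J.k ^ 2) / J.k ^ 2 := ⟨_, rfl⟩
  obtain ⟨t, ht⟩ : ∃ t, J.k = t * J.w := ⟨J.k / J.w, (div_mul_cancel₀ _ w0).symm⟩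
  rw [← hη, ← hE, ← hc, ← ha] at R2 R3
  rw [← hκ] at R2
  have t0 : t ≠ 0 := left_ne_zero_of_mul (ht ▸ k0)
  have a0 : a ≠ 0 := ha ▸ div_ne_zero (mul_ne_zero k0 u0) (mul_ne_zero (pow_ne_zero 2 w0) q0)
  have C0 : C ≠ 0 :=
    hc ▸ div_ne_zero (mul_ne_zero c0 (pow_ne_zero 2 u0)) (mul_ne_zero w0 (pow_ne_zero 2 q0))
  rw [eq_div_iff u0] at hη
  rw [eq_div_iff q0] at hE
  rw [eq_div_iff (mul_ne_zero w0 (pow_ne_zero 2 q0))] at hc
  rw [eq_div_iff (mul_ne_zero (pow_ne_zero 2 w0) q0)] at ha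
  rw [eq_div_iff (pow_ne_zero 2 k0)] at hκ
  have ha' : a * (J.w * J.q) = t * J.u1 :=
    mul_left_cancel₀ w0 (by linear_combination ha + J.u1 * ht)
  have dw : D J.w = 2 * J.g * t * J.w := by
    rw [A.hw, map_add, d1, sq, hD, A.dg, ← sq, ← A.hw]; linear_combination 2 * J.g * ht
  have du : D J.u1 = J.u1 * t * (η + J.g) := by
    rw [A.du1]; linear_combination J.h * ht - t * hη
  have hl : J.l = 2 * J.q * t * (η - J.g) := mul_left_cancel₀ (mul_ne_zero u0 w0) (by
    linear_combination R1 + 2 * J.q * (J.w * J.h - 2 * J.g * J.u1) * ht - 2 * J.q * t * J.w * hη)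
  have dq : D J.q = J.q * t * (2 * η + E) := by
    have := A.hl
    rw [hl, he] at this
    linear_combination -this + J.wi * (cc * u + 2 * J.g * J.q) * ht
      + t * (cc * u + 2 * J.g * J.q) * wi - t * hE
  have dk : D J.k = J.k * t * (κ + 3 * J.g) := mul_left_cancel₀ w0 (by
    linear_combination -hκ + J.k * (κ + 3 * J.g) * ht)
  refine XRaB.red hC D.toAddMonoidHom hD (κ := κ) t0 a0 C0 ?_ ?_ ?_ ?_ R2 R3
  · have := congrArg D hη
    simp only [map_sub, hD, dw, du, A.dh, A.dg] at this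
    refine mul_left_cancel₀ u0 ?_
    change _ * (a * D η) = _
    linear_combination a * this + ha' - a * J.u1 * ht - 2 * a * J.g * t * hη
      - a * J.u1 * t * A.hw
  · have := congrArg D hE
    simp only [hD, dq, dc, A.du] at this
    refine mul_left_cancel₀ (mul_ne_zero q0 u0) ?_
    change _ * (a * D E) = _
    linear_combination a * J.u1 * this - a * hc + C * J.q * ha'
  · have := congrArg D hc
    simp only [sq, hD, dq, dw, du, dc] at this
    refine mul_left_cancel₀ (mul_ne_zero w0 (pow_ne_zero 2 q0)) ?_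
    change _ * D C = _
    linear_combination this - 2 * t * (η + J.g) * hc
  · have := congrArg D ha
    simp only [sq, hD, dq, dw, du, dk] at this
    refine mul_left_cancel₀ (mul_ne_zero (pow_ne_zero 2 w0) q0) ?_
    change _ * D a = _
    linear_combination this - t * (κ + 4 * J.g + η) * ha

end Pool.Agent.MP_ed9623_an.R10
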