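import Pool.Agent.MP_ed9623_an.R10.Spec

/-! The closed system of a resonant arc has no solution. -/

namespace Pool.Agent.MP_ed9623_an.R10

namespace XRaC

open Polynomial

/-- A root of a nonzero integer polynomial is a constant. -/
theorem const {K : Type} [Field K] [CharZero K] (d : Derivation ℤ K K) (x : K) (hx : d x ≠ 0) :
    ∀ (n : ℕ) (p : ℤ[X]), p.natDegree ≤ n → aeval x p = 0 → p = 0 := by
  have h0 : ∀ p : ℤ[X], p.natDegree = 0 → aeval x p = 0 → p = 0 := fun p hp h => by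
    rw [eq_C_of_natDegree_eq_zero hp] at h ⊢
    rw [aeval_C, eq_intCast, Int.cast_eq_zero] at h
    rw [h, map_zero]
  intro n
  induction n with
  | zero => exact fun p hp h => h0 p (Nat.le_zero.1 hp) h
  | succ n ih =>
    intro p hp h
    have h1 := d.map_aeval p x
    rw [h, map_zero, smul_eq_mul] at h1
    have h2 : aeval x (derivative p) = 0 := (mul_eq_zero.1 h1.symm).resolve_right hx
    have h3 : (derivative p).natDegree ≤ n := by
      have := natDegree_derivative_le p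
      omega
    exact h0 p (derivative_eq_zero.1 (ih _ h3 h2)) h

/-- The eliminant. -/
noncomputable def pp : ℤ[X] :=
  (-4 * X - 33) * (3504 * X ^ 4 + 68712 * X ^ 3 + 147312 * X ^ 2 + 79740 * X - 52632) ^ 2
    - (-20 * X ^ 2 - 424 * X - 426)
      * (3504 * X ^ 4 + 68712 * X ^ 3 + 147312 * X ^ 2 + 79740 * X - 52632)
      * (3756 * X ^ 3 + 98316 * X ^ 2 + 220914 * X + 166626)
    + (-16 * X ^ 3 - 280 * X ^ 2 - 280 * X + 144)
      * (3756 * X ^ 3 + 98316 * X ^ 2 + 220914 * X + 166626) ^ 2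

theorem pp_ne : pp ≠ 0 := fun h => by
  have := congrArg (eval 0) h
  simp [pp] at this

theorem elim {K : Type} [Field K] (x y : K)
    (h2 : 4 * x ^ 2 * y - 40 * x ^ 2 + 5 * x * y ^ 2 - 52 * x * y - 4 * x + y ^ 3 - 18 * y + 8 = 0)
    (h3 : -16 * x ^ 3 - 84 * x ^ 2 * y + 360 * x ^ 2 - 84 * x * y ^ 2 + 408 * x * y - 216 * x
      - 16 * y ^ 3 - 33 * y ^ 2 - 138 * y + 16 = 0) : aeval x pp = 0 := by
  have hG : (-4 * x - 33) * y ^ 2 + (-20 * x ^ 2 - 424 * x - 426) * y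
      + (-16 * x ^ 3 - 280 * x ^ 2 - 280 * x + 144) = 0 := by linear_combination h3 + 16 * h2
  have hH : (3756 * x ^ 3 + 98316 * x ^ 2 + 220914 * x + 166626) * y
      + (3504 * x ^ 4 + 68712 * x ^ 3 + 147312 * x ^ 2 + 79740 * x - 52632) = 0 := by
    linear_combination (-4 * x - 33) ^ 2 * h2 - ((-4 * x - 33) * y + (259 * x + 426)) * hG
  have key : ∀ g₂ g₁ g₀ k₁ k₀ : K, g₂ * y ^ 2 + g₁ * y + g₀ = 0 → k₁ * y + k₀ = 0 →
      g₂ * k₀ ^ 2 - g₁ * k₀ * k₁ + g₀ * k₁ ^ 2 = 0 := fun g₂ g₁ g₀ k₁ k₀ hg hk => by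
    linear_combination k₁ ^ 2 * hg - (g₂ * (k₁ * y - k₀) + g₁ * k₁) * hk
  have := key _ _ _ _ _ hG hH
  simp only [pp, map_add, map_sub, map_mul, map_pow, map_neg, aeval_X, map_ofNat]
  exact this

end XRaC

open XRaC in
theorem rowRaC : OfRaC := by
  intro K _ _ D X Y r N hD hX hY hN hr hDX hDY h0
  have hn : ∀ n : ℕ, D (n : K) = 0 := by
    have h1 : D 1 = 0 := by
      have := hD 1 1
      simp only [mul_one, one_mul] at this
      linear_combination -this
    intro n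
    rw [← nsmul_one, map_nsmul, h1, nsmul_zero]
  have ho : ∀ (n : ℕ) [n.AtLeastTwo], D (no_index (OfNat.ofNat n : K)) = 0 := fun n _ => hn _
  have hp2 : ∀ a, D (a ^ 2) = 2 * a * D a := fun a => by rw [sq, hD]; ring
  have hp3 : ∀ a, D (a ^ 3) = 3 * a ^ 2 * D a := fun a => by rw [pow_succ, hD, hp2]; ring
  have hM : 2 + 4 * X + Y ≠ 0 := fun h => by
    rw [h, mul_zero] at h0
    exact hY ((mul_eq_zero.1 h0.symm).resolve_left (by norm_num))
  have e1 := congrArg D h0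
  simp only [hD, map_add, ho] at e1
  have ha : (2 + 4 * X + Y) * D X = 6 * Y * (1 - 2 * X) + 2 * Y * (2 + 4 * X + Y) := by
    rw [hDX]; linear_combination (1 - 2 * X) * h0
  have hb : (2 + 4 * X + Y) * D Y = -2 * Y * ((2 + 4 * X + Y) + 6 * Y) := by
    rw [hDY]; linear_combination (-2 * Y) * h0
  have E1 : N * Y * (10 * X + Y - 4) + 8 * X * r ^ 2 = 0 := by
    rw [hDX, hDY] at e1
    linear_combination X * e1 - (2 + 4 * X + Y) * hr + (N * (1 - X) + X * (2 + 3 * r)) * h0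
  have E2 : N * ((10 * X + Y - 4) * (2 + 4 * X + Y) ^ 2) + 288 * X * Y = 0 := by
    refine mul_left_cancel₀ hY ?_
    linear_combination (2 + 4 * X + Y) ^ 2 * E1 - 8 * X * (r * (2 + 4 * X + Y) + 6 * Y) * h0
  have e2 := congrArg D E2
  simp only [hD, map_add, map_sub, map_zero, ho, hp2] at e2
  have F2 : 4 * X ^ 2 * Y - 40 * X ^ 2 + 5 * X * Y ^ 2 - 52 * X * Y - 4 * X + Y ^ 3 - 18 * Y + 8
      = 0 := by
    obtain ⟨M, hM'⟩ : ∃ M, M = 2 + 4 * X + Y := ⟨_, rfl⟩
    obtain ⟨A, hA⟩ : ∃ A, A = (10 * X + Y - 4) * M ^ 2 := ⟨_, rfl⟩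
    obtain ⟨a, ha'⟩ : ∃ a, a = 6 * Y * (1 - 2 * X) + 2 * Y * M := ⟨_, rfl⟩
    obtain ⟨b, hb'⟩ : ∃ b, b = -2 * Y * (M + 6 * Y) := ⟨_, rfl⟩
    obtain ⟨A', hA'⟩ : ∃ A', A' = (10 * a + b) * M ^ 2 + (10 * X + Y - 4) * (2 * M * (4 * a + b)) :=
      ⟨_, rfl⟩
    rw [← hM'] at ha hb e2 E2
    rw [← ha'] at ha
    rw [← hb'] at hb
    rw [← hA] at E2
    have e3 : M * D N * A + N * A' + 288 * (a * Y + X * b) = 0 := by
      rw [hA, hA', ← ha, ← hb]
      linear_combination M * e2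
    have e4 : M * (-2) * (-288 * X * Y - A) * (-288 * X * Y) * (1 - X) + X * (-288 * X * Y) * A'
        + X * A * (288 * (a * Y + X * b)) = 0 := by
      linear_combination X * A * e3 - M * A ^ 2 * hN
        - (M * (-2) * (1 - X) * (N * A - 288 * X * Y - A) + X * A') * E2
    have hne : 576 * X * Y * M ^ 2 ≠ 0 :=
      mul_ne_zero (mul_ne_zero (mul_ne_zero (by norm_num) hX) hY) (pow_ne_zero _ (hM' ▸ hM))
    refine mul_left_cancel₀ hne ?_
    rw [hA', hA, ha', hb', hM'] at e4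
    rw [hM']
    linear_combination e4
  have e5 := congrArg D F2
  simp only [hD, map_add, map_sub, map_zero, ho, hp2, hp3] at e5
  have F3 : -16 * X ^ 3 - 84 * X ^ 2 * Y + 360 * X ^ 2 - 84 * X * Y ^ 2 + 408 * X * Y - 216 * X
      - 16 * Y ^ 3 - 33 * Y ^ 2 - 138 * Y + 16 = 0 := by
    refine mul_left_cancel₀ (mul_ne_zero (two_ne_zero) hY) ?_
    linear_combination (2 + 4 * X + Y) * e5
      - (8 * X * Y - 80 * X + 5 * Y ^ 2 - 52 * Y - 4) * ha
      - (4 * X ^ 2 + 10 * X * Y - 52 * X + 3 * Y ^ 2 - 18) * hb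
  let d : Derivation ℤ K K := Derivation.mk' D.toIntLinearMap fun a b => by
    simp only [AddMonoidHom.coe_toIntLinearMap, hD, smul_eq_mul]; ring
  have hX0 : D X = 0 := by
    by_contra h
    exact pp_ne (const d X h _ pp le_rfl (elim X Y F2 F3))
  have hYX : Y = 2 * X - 5 := by
    rw [hX0] at ha
    refine mul_left_cancel₀ (mul_ne_zero (two_ne_zero) hY) ?_
    linear_combination -ha
  have hY0 : D Y = 0 := by
    rw [hYX]; simp only [hD, map_sub, ho, hX0]; ring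
  have hr1 : r = -1 := by
    rw [hY0] at hDY
    refine mul_left_cancel₀ (mul_ne_zero (two_ne_zero) hY) ?_
    linear_combination hDY
  rw [hr1, hYX] at h0
  have hX1 : X = 11 / 6 := by linear_combination (-1 / 18 : K) * h0
  rw [hYX, hX1] at F2
  norm_num at F2

end Pool.Agent.MP_ed9623_an.R10
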