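import Pool.Agent.MP_ed9623_an.R10.Base4

/-! Flat and nondegenerate implies smooth. -/

namespace Pool.Agent.MP_ed9623_an.R10

open FA Mdl

namespace XSm

variable {F : FA}

theorem lvX {n : ℕ} (h : F.Lv (n + 1) F.el) :
    ∀ {j : ℕ} {a : F.R}, j ≤ n + 1 → F.Lv j a → F.Lv j (F.X a)
  | 0, _, _, _ => trivial
  | _ + 1, _, e, ⟨_, d, l⟩ => ⟨_, d.X, (lvX h (by omega) l).add
      (((h.of_dy Dy.el).le (by omega)).mul l)⟩

theorem lvT {n : ℕ} {a : F.R} (h : F.Lv (n + 1) F.el) (l : F.Lv (n + 1) a) :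
    F.Lv (n + 1) (F.T a) := (lvX h le_rfl l.I').sub (h.mul l)

theorem lv_r1 {M : Mdl} {n : ℕ} (h : M.Lv (n + 1) M.el) (l : M.Lv (n + 1) M.W) :
    M.Lv (n + 1) M.r1 :=
  ((((((Lv.y _).mul (Lv.of_bv M.Sh.X.X.1 _).rez).add (lvT h (lvT h l))).sub
    ((Lv.of_bv M.Sg.X.1 _).mul l.I')).add (((Lv.two _).mul h).mul
      ((Lv.of_bv M.Sh.X.1 _).rez.add (lvT h l)))).add (h.sq.mul l)).δ.ev

end XSm

open XSm in
theorem rowSm : OfSm := by
  intro hE hD hV hW hB hA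
  have b : ∀ M : Mdl, M.Lv 1 M.el ∧ M.Lv 1 M.W := fun M =>
    ⟨⟨_, Dy.el, trivial⟩, let ⟨W', d, _⟩ := hD M; ⟨W', d, trivial⟩⟩
  refine ⟨fun M fl ⟨σ, j, dσ, e⟩ => ?_, fun M z => ?_⟩
  · have a₁ : M.Fl (M.A - M.A0) := fun m =>
      O_le (hE M (max m 0) (le_max_right _ _) (fl _)).2.2.1 (by linarith [le_max_left m 0])
    have a₂ : M.Fl M.A0 := fun m => O_divp j (by
      rw [← e, mul_assoc]
      exact Ideal.mul_mem_left _ _ (FL.zero.1 (hA M 0 0 (by omega) (b M).1 (b M).2 (FL.zero.2 fl)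
        (FL.zero.2 a₁)) _))
    have k : ∀ n, M.Lv (n + 1) M.el ∧ M.Lv (n + 1) M.W ∧ FL M.toFA n M.A := by
      intro n
      induction n with
      | zero => exact ⟨(b M).1, (b M).2, FL.zero.2 fun m => by simpa using add_mem (a₁ m) (a₂ m)⟩
      | succ n ih =>
        obtain ⟨l₁, l₂, l₃⟩ := ih
        have c₁ := hB M n fl l₁ l₂ l₃
        have c₂ := hV M.toFA (n + 1) j σ M.r1 M.A0 dσ M.δ_r1 M.δ_A0 e (lv_r1 l₁ l₂) a₂
          (hA M n (n + 1) le_rfl l₁ l₂ l₃.ev.I c₁)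
        have c₃ : FL M.toFA (n + 1) M.A := by simpa using c₁.add c₂
        exact ⟨(hW M n l₁ l₂ c₃.lv).2, (hW M n l₁ l₂ c₃.lv).1, c₃⟩
    exact fun n => ⟨(k n).2.2.lv, (k n).2.1.pred, (k n).1.pred⟩
  · have k : ∀ n, M.Lv (n + 1) M.el ∧ M.Lv (n + 1) M.W := by
      intro n
      induction n with
      | zero => exact b M
      | succ n ih => exact (hW M n ih.1 ih.2 (z ▸ Lv.zero _)).symm
    exact fun n => ⟨z ▸ Lv.zero _, (k n).2.pred, (k n).1.pred⟩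

end Pool.Agent.MP_ed9623_an.R10
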