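import Pool.Agent.MP_ed9623_an.R10.Spec
import Pool.Agent.MP_ed9623_an.R10.Base4

/-! The pencil times the value at the base time is flat. -/

namespace Pool.Agent.MP_ed9623_an.R10

open FA

theorem rowSmA : OfSmA := by
  intro lx M n j hj hel hW hf hA
  have L := lx M.toFA n hel j hj
  have lT : ∀ {a}, M.Lv j a → M.Lv j (M.T a) := fun h => ((L _).1 h).2
  have fX : ∀ {a}, FL M.toFA j a → FL M.toFA j (M.X a) := fun h => ((L _).2.1 h).1
  have fT : ∀ {a}, FL M.toFA j a → FL M.toFA j (M.T a) := fun h => ((L _).2.1 h).2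
  have s := M.sys
  have w := hW.le hj
  have e := hel.le hj
  have k : M.Lv j (M.X M.g) := Lv.of_bv s.sg.X.1 j
  have pq : M.Lv j (M.pq M.h M.W) := (Lv.of_bv s.sh.X.1 j).rez.add (lT w)
  have pa : M.Lv j (M.pa M.g M.h M.W) :=
    (((Lv.y j).mul (Lv.of_bv s.sh.X.X.1 j).rez).add (lT (lT w))).sub (k.mul w.I')
  have rho : M.Lv j (M.rho M.g M.h M.W) := (pa.add (((Lv.two j).mul e).mul pq)).add (e.sq.mul w)
  have iA : FL M.toFA j (M.I M.A) := by
    have := hf.add hA.I'
    rwa [Mdl.f, ← map_add, add_sub_cancel] at this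
  have la : FL M.toFA j (M.I (M.la * M.I M.A)) := by
    cases j with
    | zero => exact (FL.mul (k := 0) (b := M.la) trivial iA).I'
    | succ j => exact (FL.mul ((hel.of_dy Dy.el).le (by omega)) iA.pred).I
  have q : M.I (M.el * M.A) = M.el * M.I M.A - M.I (M.la * M.I M.A) := by
    rw [el, M.I_mul, ← map_sub]
    congr 1
    ring
  have r : M.rho M.g M.h M.W * M.A = (2 * M.pq M.h M.W) * M.X (M.I M.A) - M.W *
      (M.T (M.X (M.I M.A)) - M.X (M.el * M.I M.A - M.I (M.la * M.I M.A)) - M.X M.g * M.I M.A) := by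
    have := s.eL
    rw [T_apply M.A, map_sub, T_apply (M.el * M.A), q] at this
    rw [FA.rho]
    linear_combination this
  have f1 : FL M.toFA j (M.rho M.g M.h M.W * M.A) := r ▸
    (FL.mul ((Lv.two j).mul pq) (fX iA)).sub
      (FL.mul w (((fT (fX iA)).sub (fX ((FL.mul e iA).sub la))).sub (FL.mul k iA)))
  have f2 := (f1.sub (FL.mul rho hA)).δ.ev
  rwa [← mul_sub, sub_sub_cancel, M.δ_mul, Mdl.A0, M.δ_ev, mul_zero, add_zero, map_mul,
    ev_ev] at f2

end Pool.Agent.MP_ed9623_an.R10
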