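import Pool.Agent.MP_ed9623_an.R10.Spec
import Pool.Agent.MP_ed9623_an.R10.Base4

/-! The time dependent part of the second derivative gains one flat level. -/

namespace Pool.Agent.MP_ed9623_an.R10

open FA Mdl

theorem rowSmB : OfSmB := by
  intro hE hX hL hI M n hf hel hW hA
  have lT : ∀ {a}, M.Lv (n + 1) a → M.Lv (n + 1) (M.T a) := fun {a} h =>
    ((hX M.toFA n hel (n + 1) le_rfl a).1 h).2
  have fT : ∀ {j a}, j ≤ n + 1 → FL M.toFA j a → FL M.toFA j (M.T a) := fun {j a} e h =>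
    ((hX M.toFA n hel j e a).2.1 h).2
  have s : ∀ {a} (j : ℕ), M.S a → M.Lv j a := fun j h => Lv.of_bv h.1 _
  have lap : ∀ {a}, FL M.toFA n a → FL M.toFA n (M.lap M.g a) := fun {a} h =>
    (((FL.mul (s n M.Sw) h).sub (FL.mul (s n (S.two.mul M.Sg)) (fT n.le_succ h))).sub
      (FL.mul (s n M.Sk) h.I')).add (fT n.le_succ (fT n.le_succ h))
  have inv := hL M.toFA M.g n M.Sg M.sys.ul hel
  have py : M.Lv (n + 1) (M.py M.h M.W) := (s _ M.Sh).rez.add hW.I'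
  have pq : M.Lv (n + 1) (M.pq M.h M.W) := (s _ M.Sh.X).rez.add (lT hW)
  have pt : M.Lv (n + 1) (M.pt M.u M.h M.W) :=
    ((s _ M.Su.X).rez.add ((Lv.y _).mul (s _ M.Sh.X).rez)).add (lT hW).I'
  have rp : FL M.toFA (n + 1) (M.rp M.u M.h M.A M.W) :=
    (((FL.mul pt hA.I).sub (FL.mul pq hA.I).I').sub (fT le_rfl (FL.mul py hA.I))).add
      (FL.mul hW (fT le_rfl hA.I)).I'
  obtain ⟨D, hD⟩ : ∃ D, D = M.δ (M.δ M.W) - M.c ^ 2 • M.W := ⟨_, rfl⟩
  have eD : M.lap M.g D = M.δ (M.I (M.I D)) +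
      (M.δ (M.δ (M.rp M.u M.h M.A M.W)) - M.c ^ 2 • M.rp M.u M.h M.A M.W) := by
    have e := M.eP
    have e2 := congrArg (fun a => M.δ (M.δ a)) e
    have z : M.δ (2 * M.g * M.q + M.c • M.u + M.y * (M.c • M.h - M.X M.q)) = 0 := by
      simp [M.δ_mul, M.Sg.2, M.Sq.2, M.Su.2, M.Sh.2, M.Sq.X.2]
    simp only [map_sub, map_add M.δ, δδ_rez z, δ_lap M.Sg, M.δ_I] at e2
    have e3 := congrArg (fun a => M.c ^ 2 • a) e
    simp only [smul_sub, smul_add _ (M.re _), M.δ_I] at e3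
    rw [hD, lap_sub, lap_smul]
    simp only [map_sub, map_smul, M.δ_I]
    linear_combination e2 - e3
  have fD : ∀ j, j ≤ n → FL M.toFA j D := by
    intro j
    induction j with
    | zero =>
      intro _
      refine FL.zero.2 fun m => ?_
      have p := (hE M (max m 0) (le_max_right _ _) (hf _)).2.1
      have e : D = M.δ (M.δ M.Ph) - M.c ^ 2 • M.Ph := by
        rw [hD, Mdl.Ph, map_sub, map_sub, δδ_rez M.δ_V, smul_sub]
        ring
      exact e ▸ O_le (sub_mem (O_δ (O_δ p)) (O_smul _ p)) (le_max_left _ _)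
    | succ j ih =>
      intro e
      have d := ih (by omega)
      refine inv j (by omega) D d ?_
      rw [eD]
      exact d.I'.I.δ.add ((rp.δ.δ.sub (rp.smul _)).le (by omega))
  obtain ⟨E, hEq⟩ : ∃ E, E = M.pt M.u M.h M.W * M.δ (M.py M.h M.W)
    - M.py M.h M.W * M.δ (M.pt M.u M.h M.W) := ⟨_, rfl⟩
  have lE : M.Lv (n + 1) E := hEq ▸ (pt.mul py.δ).sub (py.mul pt.δ)
  have e1 : M.δ (M.δ (M.py M.h M.W)) = M.c ^ 2 • M.py M.h M.W + M.I D := by
    rw [hD, FA.py, map_add, map_add, δδ_rez M.Sh.2, M.δ_I, M.δ_I, map_sub, map_smul, smul_add]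
    ring
  have e2 : M.δ (M.δ (M.pt M.u M.h M.W)) = M.c ^ 2 • M.pt M.u M.h M.W + M.I (M.T D) := by
    rw [hD, FA.pt]
    simp only [map_add, M.δ_mul M.y, δ_y, zero_mul, zero_add, δδ_rez M.Su.X.2, δδ_rez M.Sh.X.2,
      M.δ_I, δ_T, map_sub, map_smul, smul_add, mul_smul_comm]
    ring
  have dE : M.δ E = M.pt M.u M.h M.W * M.I D - M.py M.h M.W * M.I (M.T D) := by
    rw [hEq, map_sub, M.δ_mul, M.δ_mul, e1, e2, Algebra.smul_def, Algebra.smul_def]
    ring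
  have fE : FL M.toFA n (M.δ E) := dE ▸ (FL.mul pt.pred (fD n le_rfl).I').sub
    (FL.mul py.pred (fT n.le_succ (fD n le_rfl)).I')
  have q1 := hI M.toFA (n + 1) (M.I (M.I E)) lE.I'.I'
    (by rw [M.δ_I, M.δ_I]; exact fE.I'.I)
  have x1 := ((((lap hA).mul' (fT n.le_succ hA.I').lv).sub
    (fT n.le_succ ((lap hA).mul' hA.I'.lv))).add (rp.pred.mul' pt.pred)).sub
    (fT n.le_succ (rp.pred.mul' py.pred))
  have q2 := (x1.I.sub x1.I.ev).add q1
  have hB : FL M.toFA n (M.A - M.ev M.A) := hA.sub hA.ev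
  have hC := (hA.δ.sub hA.δ.ev).I'.I
  have q3 : FL M.toFA (n + 1) (M.lap M.g (M.lap M.g (M.A - M.ev M.A)
      - M.I (M.I (M.δ M.A - M.ev (M.δ M.A))))) := by
    rw [M.sys.eB, xi, ← hEq, map_add M.I, map_add M.ev, add_sub_add_comm]
    exact q2
  have q4 := (inv n le_rfl _ ((lap hB).sub hC.pred) q3).add hC
  rw [sub_add_cancel] at q4
  exact inv n le_rfl _ hB q4

end Pool.Agent.MP_ed9623_an.R10
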