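import Pool.Agent.MP_ed9623_an.R10.Spec
import Pool.Agent.MP_ed9623_an.R10.Base4

/-! One more transversal derivative of the second derivative and of the slope. -/

namespace Pool.Agent.MP_ed9623_an.R10

open FA Mdl

theorem rowSmW : OfSmW := by
  intro hX hD M n hel hW hA
  have X : ∀ {a}, M.Lv (n + 1) a → M.Lv (n + 1) (M.X a) := fun {a} h =>
    ((hX M.toFA n hel (n + 1) le_rfl a).1 h).1
  have T : ∀ {a}, M.Lv (n + 1) a → M.Lv (n + 1) (M.T a) := fun {a} h =>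
    ((hX M.toFA n hel (n + 1) le_rfl a).1 h).2
  have s : ∀ {a}, M.S a → M.Lv (n + 1) a := fun h => Lv.of_bv h.1 _
  obtain ⟨W', dW, e1, e2⟩ := hD M
  obtain ⟨Li, hL⟩ := M.sys.ul.exists_right_inv
  obtain ⟨Qi, hQ⟩ := M.sys.uq.exists_right_inv
  have lL : M.Lv (n + 1) Li :=
    ((Lv.one _).add ((s M.Sg).add hel).sq).inv hL (by simp [δ_sq, M.Sg.2])
  have py : M.Lv (n + 1) (M.py M.h M.W) := (s M.Sh).rez.add hW.I'
  have pq : M.Lv (n + 1) (M.pq M.h M.W) := (s M.Sh.X).rez.add (T hW)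
  have pt : M.Lv (n + 1) (M.pt M.u M.h M.W) :=
    ((s M.Su.X).rez.add ((Lv.y _).mul (s M.Sh.X).rez)).add (T hW).I'
  have lQ : M.Lv (n + 1) Qi := (pq.add (hel.mul hW)).ev.inv hQ (M.δ_ev _)
  have r1 := lL.mul (((((((((Lv.two _).mul (s M.Sg)).add hel).mul (X hW)).sub
    (s M.Sq.X).rez).sub (X (T hW))).add ((s M.Sk).mul hW)).add py.δ).add
    ((((pt.mul hA).sub (py.mul (T hA))).sub (pq.mul hA.I')).add (hW.mul (T hA.I'))))
  have r2 := (lQ.mul ((((s M.Sq.X).rez.add (X (T hW))).add (hel.mul (X hW))).sub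
    ((s M.Sk).mul hW)).ev.neg).smul (2⁻¹ : ℂ)
  rw [← e1, ← mul_assoc, mul_comm Li, hL, one_mul] at r1
  rw [← e2, show Qi * (2 * M.ev (M.pq M.h M.W + M.el * M.W) * M.la) = 2 * M.la by
    linear_combination 2 * M.la * hQ, half_two] at r2
  exact ⟨⟨W', dW, r1⟩, r2.I⟩

end Pool.Agent.MP_ed9623_an.R10
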