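import Pool.Agent.MP_ed9623_an.R10.Base

/-! Functions on the arc, real parts, amplitudes, transversal derivatives, levels. -/

namespace Pool.Agent.MP_ed9623_an.R10

namespace FA

variable {F : FA} {m n : ℝ} {a b a' b' g : F.R}

/-! ### Functions on the arc -/

theorem S.add (h : F.S a) (h' : F.S b) : F.S (a + b) :=
  ⟨by rw [map_add, h.1, h'.1], by rw [map_add, h.2, h'.2, add_zero]⟩
theorem S.mul (h : F.S a) (h' : F.S b) : F.S (a * b) :=
  ⟨by rw [map_mul, h.1, h'.1], by rw [F.δ_mul, h.2, h'.2]; simp⟩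
theorem S.neg (h : F.S a) : F.S (-a) := ⟨by rw [map_neg, h.1], by rw [map_neg, h.2, neg_zero]⟩
theorem S.sub (h : F.S a) (h' : F.S b) : F.S (a - b) := sub_eq_add_neg a b ▸ h.add h'.neg
theorem S.smul (s : ℂ) (h : F.S a) : F.S (s • a) :=
  ⟨by rw [map_smul, h.1], by rw [map_smul, h.2, smul_zero]⟩
theorem S.alg (s : ℂ) : F.S (algebraMap ℂ F.R s) := ⟨F.bv.commutes s, δ_alg s⟩
theorem S.one : F.S 1 := ⟨map_one _, δ_one⟩
theorem S.zero : F.S 0 := ⟨map_zero _, map_zero _⟩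
theorem S.two : F.S 2 := one_add_one_eq_two (R := F.R) ▸ S.one.add S.one
theorem S.nat (k : ℕ) : F.S k := ⟨map_natCast _ k, δ_nat k⟩
theorem S.pow (h : F.S a) (k : ℕ) : F.S (a ^ k) := ⟨by rw [map_pow, h.1], δ_pow0 h.2 k⟩
theorem S.X (h : F.S a) : F.S (F.X a) := ⟨by rw [← F.X_bv, h.1], by rw [F.δ_X, h.2, map_zero]⟩
theorem S.cj (h : F.S a) : F.S (F.cj a) := ⟨by rw [← F.cj_bv, h.1], by rw [← F.cj_δ, h.2, map_zero]⟩
theorem S.ev (h : F.S a) : F.ev a = a := F.ev_of _ h.2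
theorem S.of_inv (h : F.S a) (e : a * b = 1) : F.S b := by
  refine ⟨?_, inv_of_δ e h.2⟩
  have k := congrArg F.bv e
  rw [map_mul, h.1, map_one] at k
  linear_combination b * k - F.bv b * e
theorem S.inv (h : F.S a) : F.S (Ring.inverse a) := by
  by_cases u : IsUnit a
  · exact h.of_inv (Ring.mul_inverse_cancel a u)
  · rw [Ring.inverse_non_unit a u]; exact S.zero
theorem S.wd (h : F.S a) (h' : F.S b) : F.S (F.wd a b) := (h.mul h'.cj).sub (h.cj.mul h')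
theorem S.sy (h : F.S a) (h' : F.S b) : F.S (F.sy a b) := (h.mul h'.cj).add (h.cj.mul h')
theorem S.I (h : F.S b) (a : F.R) : F.I (b * a) = b * F.I a := I_S h.1 a
theorem S.T (h : F.S b) (a : F.R) : F.T (b * a) = F.X b * F.I a + b * F.T a := T_S h.1 a
theorem S.eq_zero (h : F.S a) (o : a ∈ F.O m) (e : 0 < m) : a = 0 := h.1 ▸ O_bv o e
theorem cj_inv (a : F.R) : F.cj (Ring.inverse a) = Ring.inverse (F.cj a) := by
  by_cases u : IsUnit a
  · refine (Ring.eq_mul_inverse_iff_mul_eq _ 1 _ (u.map F.cj)).2 ?_ |>.trans (one_mul _)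
    rw [← map_mul, Ring.inverse_mul_cancel a u, map_one]
  · rw [Ring.inverse_non_unit a u, map_zero, Ring.inverse_non_unit]
    exact fun k => u (F.cj_cj a ▸ k.map F.cj)
theorem cj_wd (a b : F.R) : F.cj (F.wd a b) = -F.wd a b := by simp [wd, F.cj_cj]
theorem cj_sy (a b : F.R) : F.cj (F.sy a b) = F.sy a b := by simp [sy, F.cj_cj, add_comm]
theorem X_wd (a b : F.R) : F.X (F.wd a b) = F.wd (F.X a) b + F.wd a (F.X b) := by
  simp only [wd, map_sub, F.X_mul, F.cj_X]; ring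
theorem X_sy (a b : F.R) : F.X (F.sy a b) = F.sy (F.X a) b + F.sy a (F.X b) := by
  simp only [sy, map_add, F.X_mul, F.cj_X]; ring
theorem cj_c (a : F.R) : F.cj (F.c • a) = -(F.c • F.cj a) := by rw [F.cj_smul, F.c_im, neg_smul]
theorem cj_real (s : ℝ) (a : F.R) : F.cj ((s : ℂ) • a) = (s : ℂ) • F.cj a := by
  rw [F.cj_smul, Complex.conj_ofReal]
theorem cj_half (a : F.R) : F.cj ((2⁻¹ : ℂ) • a) = (2⁻¹ : ℂ) • F.cj a := by
  rw [F.cj_smul, map_inv₀, map_ofNat]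
theorem wd_c (a b : F.R) : F.wd (F.c • a) b = F.c • F.sy a b := by
  simp only [wd, sy, cj_c, smul_add, smul_mul_assoc, neg_mul, sub_neg_eq_add]
/-- A real constant. -/
theorem S.real (h : F.S a) (r : F.cj a = a) (x : F.X a = 0) : ∃ N : ℝ, a = algebraMap ℂ F.R N := by
  obtain ⟨s, rfl⟩ := F.cst a h.1 h.2 x
  rw [cj_alg, ← sub_eq_zero, ← map_sub, Algebra.algebraMap_eq_smul_one] at r
  have : (starRingEnd ℂ) s = s := sub_eq_zero.1 (by_contra fun k => F.nt (of_smul k r))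
  exact ⟨s.re, by rw [Complex.conj_eq_iff_re.1 this]⟩

/-! ### Real parts and amplitudes -/

theorem re_add (a b : F.R) : F.re (a + b) = F.re a + F.re b := by
  simp only [re, map_add, smul_add]; abel
theorem re_sub (a b : F.R) : F.re (a - b) = F.re a - F.re b := by
  simp only [re, map_sub, smul_add, smul_sub]; abel
@[simp] theorem re_zero : F.re 0 = 0 := by simp [re]
theorem re_mul (h : F.cj a = a) (b : F.R) : F.re (a * b) = a * F.re b := by
  simp only [re, map_mul, h, mul_smul_comm, mul_add, smul_add]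
theorem re_of (h : F.cj a = a) : F.re a = a := by rw [re, h, ← two_mul, half_two]
theorem cj_re (a : F.R) : F.cj (F.re a) = F.re a := by rw [re, cj_half, map_add, F.cj_cj, add_comm]
theorem re_z (a : F.R) : F.re (F.z * a) = (2⁻¹ : ℂ) • (F.z * a + F.zi * F.cj a) := by
  rw [re, map_mul, F.cj_z]
theorem I_re (a : F.R) : F.I (F.re a) = F.re (F.I a) := by simp [re, F.cj_I]
theorem T_re (a : F.R) : F.T (F.re a) = F.re (F.T a) := by simp [re, cj_T]
theorem X_re (a : F.R) : F.X (F.re a) = F.re (F.X a) := by simp [re, F.cj_X]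
theorem δ_re (a : F.R) : F.δ (F.re a) = F.re (F.δ a) := by simp [re, F.cj_δ]
theorem ev_re (a : F.R) : F.ev (F.re a) = F.re (F.ev a) := by simp [re, F.cj_ev]
theorem bv_re (a : F.R) : F.bv (F.re a) = F.re (F.bv a) := by simp [re, F.cj_bv]
theorem O_re (h : a ∈ F.O m) : F.re a ∈ F.O m := O_smul _ (add_mem h (O_cj h))
theorem O_rez (h : a ∈ F.O m) : F.re (F.z * a) ∈ F.O m := O_re (Ideal.mul_mem_left _ _ h)
theorem δ_zmul (h : F.δ a = 0) : F.δ (F.z * a) = F.z * (F.c • a) := by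
  rw [F.δ_mul, F.δ_z, h]; simp
theorem δ_rez (h : F.δ a = 0) : F.δ (F.re (F.z * a)) = F.re (F.z * (F.c • a)) := by
  rw [δ_re, δ_zmul h]
theorem X_rez (a : F.R) : F.X (F.re (F.z * a)) = F.re (F.z * F.X a) := by
  rw [X_re, F.X_mul, F.X_z, zero_mul, zero_add]
theorem I_rez (a : F.R) : F.I (F.re (F.z * a)) = F.re (F.z * F.I a) := by rw [I_re, I_z]
theorem T_rez (a : F.R) : F.T (F.re (F.z * a)) = F.re (F.z * F.T a) := by rw [T_re, T_z]
theorem bv_rez (h : F.bv a = a) : F.bv (F.re (F.z * a)) = F.re (F.z * a) := by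
  rw [bv_re, map_mul, F.bv_z, h]
theorem ev_rez (h : F.δ a = 0) : F.ev (F.re (F.z * a)) = F.re a := by
  rw [ev_re, map_mul, F.ev_z, one_mul, F.ev_of _ h]
theorem δδ_rez (h : F.δ a = 0) : F.δ (F.δ (F.re (F.z * a))) = F.c ^ 2 • F.re (F.z * a) := by
  simp only [re_z, map_smul, map_add, F.δ_mul, F.δ_z, δ_zi, h, ← F.cj_δ, F.cj_δ, map_zero,
    mul_zero, add_zero, smul_mul_assoc]
  module
theorem am_eq (a : F.R) : F.am a = F.ev a + F.c⁻¹ • F.ev (F.δ a) := by simp [am, ev_zi]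
theorem am_add (a b : F.R) : F.am (a + b) = F.am a + F.am b := by
  simp only [am_eq, map_add, smul_add]; abel
theorem am_sub (a b : F.R) : F.am (a - b) = F.am a - F.am b := by
  simp only [am_eq, map_sub, smul_sub]; abel
theorem am_smul (s : ℂ) (a : F.R) : F.am (s • a) = s • F.am a := by
  simp only [am_eq, map_smul, smul_add, smul_comm s]
theorem am_mul (h : F.δ a = 0) (b : F.R) : F.am (a * b) = a * F.am b := by
  simp [am_eq, F.δ_mul, h, F.ev_of _ h, mul_add]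
theorem am_I (a : F.R) : F.am (F.I a) = F.I (F.am a) := by simp [am_eq, F.ev_I, F.δ_I]
theorem am_T (a : F.R) : F.am (F.T a) = F.T (F.am a) := by simp [am_eq, ev_T, δ_T]
theorem am_X (a : F.R) : F.am (F.X a) = F.X (F.am a) := by simp [am_eq, F.ev_X, F.δ_X]
theorem am_bv (a : F.R) : F.am (F.bv a) = F.bv (F.am a) := by simp [am_eq, F.ev_bv, F.δ_bv]
@[simp] theorem δ_am (a : F.R) : F.δ (F.am a) = 0 := F.δ_ev _
theorem O_am (h : a ∈ F.O m) : F.am a ∈ F.O m := by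
  rw [am_eq]; exact add_mem (O_ev h) (O_smul _ (O_ev (O_δ h)))
theorem am_δ (a : F.R) :
    F.am (F.δ a) = F.c • F.am a + F.c⁻¹ • F.ev (F.δ (F.δ a) - F.c ^ 2 • a) := by
  have := F.c_ne
  simp only [am_eq, map_sub, map_smul]
  match_scalars <;> field_simp <;> ring
theorem am_rez (h : F.δ a = 0) : F.am (F.re (F.z * a)) = a := by
  have := F.c_ne
  rw [am_eq, δ_rez h, ev_rez h, ev_rez (by rw [map_smul, h, smul_zero]), re, re, cj_c]
  match_scalars <;> field_simp <;> ring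
theorem sin_aux (r : F.cj a = a) : ∃ p, a - F.re (F.z * F.am a) = F.re (F.z * (p - F.ev p)) ∧
    F.δ p = F.c⁻¹ • (F.zi * (F.δ (F.δ a) - F.c ^ 2 • a)) := by
  have := F.c_ne
  refine ⟨F.zi * (a + F.c⁻¹ • F.δ a), ?_, ?_⟩
  · rw [mul_sub, re_sub, ← mul_assoc, F.z_zi, one_mul, am]
    congr 1
    rw [re, map_add, F.cj_smul, F.cj_δ, r, map_inv₀, F.c_im]
    match_scalars <;> field_simp <;> ring
  · simp only [F.δ_mul, δ_zi, map_add, map_smul, mul_add, mul_sub, smul_mul_assoc, mul_smul_comm]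
    match_scalars <;> field_simp <;> ring
/-- A real element is determined by its amplitude and its defect. -/
theorem O_sin (r : F.cj a = a) (h : F.δ (F.δ a) - F.c ^ 2 • a ∈ F.O m) :
    a - F.re (F.z * F.am a) ∈ F.O m := by
  obtain ⟨p, e, d⟩ := sin_aux r
  rw [e]
  exact O_rez (O_int (d ▸ O_smul _ (Ideal.mul_mem_left _ _ h)))
theorem sin_eq (r : F.cj a = a) (h : F.δ (F.δ a) = F.c ^ 2 • a) : a = F.re (F.z * F.am a) := by
  obtain ⟨p, e, d⟩ := sin_aux r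
  rw [h, sub_self, mul_zero, smul_zero] at d
  rwa [F.ev_of p d, sub_self, mul_zero, re_zero, sub_eq_zero] at e

/-! ### Transversal derivatives -/

theorem Dy.add (h : F.Dy a a') (h' : F.Dy b b') : F.Dy (a + b) (a' + b') := by
  unfold Dy at *; rw [map_add, map_add]; linear_combination h + h'
theorem Dy.smul (s : ℂ) (h : F.Dy a a') : F.Dy (s • a) (s • a') := by
  unfold Dy at *; rw [map_smul, map_smul, ← smul_add, ← h]
theorem Dy.neg (h : F.Dy a a') : F.Dy (-a) (-a') := by simpa using h.smul (-1)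
theorem Dy.sub (h : F.Dy a a') (h' : F.Dy b b') : F.Dy (a - b) (a' - b') := by
  simpa only [sub_eq_add_neg] using h.add h'.neg
theorem Dy.of_bv (h : F.bv a = a) : F.Dy a 0 := by unfold Dy; simp [h]
theorem Dy.I (a : F.R) : F.Dy (F.I a) a := by unfold Dy; simp [F.bv_I]
theorem Dy.y : F.Dy F.y 1 := Dy.I 1
theorem Dy.el : F.Dy F.el F.la := Dy.I _
theorem Dy.I_eq (h : F.Dy a a') : F.I a' = a - F.bv a := by unfold Dy at h; linear_combination -h
theorem Dy.mul (h : F.Dy a a') (h' : F.Dy b b') : F.Dy (a * b) (a' * b + a * b') := by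
  have e := F.I_mul a' b'
  have k : a' * b + a * b' = F.bv b * a' + F.bv a * b' + (a' * F.I b' + b' * F.I a') := by
    rw [h.I_eq, h'.I_eq]; ring
  unfold Dy
  rw [k, map_add F.I, ← e, map_add, F.I_bv, F.I_bv, h.I_eq, h'.I_eq, map_mul]; ring
theorem Dy.congr (h : F.Dy a a') (e : a' = b') : F.Dy a b' := e ▸ h
theorem Dy.unique (h : F.Dy a a') (h' : F.Dy a b') : a' = b' :=
  sub_eq_zero.1 (F.I_inj _ (by rw [map_sub, h.I_eq, h'.I_eq, sub_self]))
theorem Dy.δ (h : F.Dy a a') : F.Dy (F.δ a) (F.δ a') := by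
  unfold Dy at *; rw [← F.δ_bv, ← F.δ_I, ← map_add, ← h]
theorem Dy.ev (h : F.Dy a a') : F.Dy (F.ev a) (F.ev a') := by
  unfold Dy at *; rw [← F.ev_bv, ← F.ev_I, ← map_add, ← h]
theorem Dy.cj (h : F.Dy a a') : F.Dy (F.cj a) (F.cj a') := by
  unfold Dy at *; rw [← F.cj_bv, ← F.cj_I, ← map_add, ← h]
theorem Dy.X (h : F.Dy a a') : F.Dy (F.X a) (F.X a' + F.la * a') := by
  unfold Dy at *; rw [← F.X_bv, ← F.X_I, ← map_add, ← h]
theorem Dy.re (h : F.Dy a a') : F.Dy (F.re a) (F.re a') := (h.add h.cj).smul _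
theorem Dy.T (h : F.Dy a a') : F.Dy (F.T a) (F.X a - F.el * a') := by
  rw [T_eq]; exact ((Dy.I _).sub (Dy.el.mul h)).congr (by ring)
/-- `T a'` is the tangential derivative of `a`, normalised on the arc. -/
theorem Dy.T_eq (h : F.Dy a a') : F.T a' = F.X a - F.el * a' - F.bv (F.X a) := by
  rw [T_apply, h.I_eq, map_sub, F.X_bv]; ring
theorem Dy.δ0 (h : F.Dy a a') (e : F.δ a = 0) : F.δ a' = 0 := by
  have := h.δ; rw [e] at this; exact this.unique (Dy.of_bv (map_zero _))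
theorem Dy.inv (h : F.Dy a a') (e : a * b = 1) (ha : F.δ a = 0) : F.Dy b (-(b ^ 2 * a')) := by
  have hb := inv_of_δ e ha
  have ha' := h.δ0 ha
  have k : F.Dy (F.bv b + F.I (-(b ^ 2 * a'))) (-(b ^ 2 * a')) :=
    ((Dy.of_bv (F.bv_bv b)).add (Dy.I _)).congr (zero_add _)
  have e' : F.bv a * F.bv b = 1 := by rw [← map_mul, e, map_one]
  have v := F.vq 0 b a a' (b - (F.bv b + F.I (-(b ^ 2 * a')))) hb ha ha'
    (by simp [F.δ_bv, F.δ_I, F.δ_mul, δ_sq, hb, ha']) (by rw [pow_zero, mul_comm, e]) h ?_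
    (by simp [F.bv_bv, F.bv_I])
  · exact sub_eq_zero.1 v
  · have := (h.mul k).I_eq
    rw [map_mul, map_add F.bv, F.bv_bv, F.bv_I, add_zero, e'] at this
    rw [mul_sub a, e, show a' * (b - (F.bv b + F.I (-(b ^ 2 * a')))) =
      -(a' * (F.bv b + F.I (-(b ^ 2 * a'))) + a * -(b ^ 2 * a')) by linear_combination -b * a' * e,
      map_neg F.I (_ + _), this]
    ring

/-! ### Levels -/

variable {k : ℕ}

theorem Lv.pred : ∀ {k : ℕ} {a : F.R}, F.Lv (k + 1) a → F.Lv k a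
  | 0, _, _ => trivial
  | _ + 1, _, ⟨a', h, h'⟩ => ⟨a', h, h'.pred⟩
theorem Lv.le {j : ℕ} (h : F.Lv k a) (e : j ≤ k) : F.Lv j a := by
  induction e with
  | refl => exact h
  | step _ ih => exact ih h.pred
theorem Lv.add : ∀ {k : ℕ} {a b : F.R}, F.Lv k a → F.Lv k b → F.Lv k (a + b)
  | 0, _, _, _, _ => trivial
  | _ + 1, _, _, ⟨_, h, h'⟩, ⟨_, g, g'⟩ => ⟨_, h.add g, h'.add g'⟩
theorem Lv.smul (s : ℂ) : ∀ {k : ℕ} {a : F.R}, F.Lv k a → F.Lv k (s • a)
  | 0, _, _ => trivial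
  | _ + 1, _, ⟨_, h, h'⟩ => ⟨_, h.smul s, h'.smul s⟩
theorem Lv.zero : ∀ k : ℕ, F.Lv k 0
  | 0 => trivial
  | k + 1 => ⟨0, Dy.of_bv (map_zero _), Lv.zero k⟩
theorem Lv.of_bv (h : F.bv a = a) : ∀ k : ℕ, F.Lv k a
  | 0 => trivial
  | k + 1 => ⟨0, Dy.of_bv h, Lv.zero k⟩
theorem Lv.one (k : ℕ) : F.Lv k 1 := Lv.of_bv (map_one _) k
theorem Lv.two (k : ℕ) : F.Lv k 2 := Lv.of_bv S.two.1 k
theorem Lv.neg (h : F.Lv k a) : F.Lv k (-a) := by simpa using h.smul (-1)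
theorem Lv.sub (h : F.Lv k a) (h' : F.Lv k b) : F.Lv k (a - b) := sub_eq_add_neg a b ▸ h.add h'.neg
theorem Lv.mul : ∀ {k : ℕ} {a b : F.R}, F.Lv k a → F.Lv k b → F.Lv k (a * b)
  | 0, _, _, _, _ => trivial
  | _ + 1, _, _, ⟨a', h, h'⟩, ⟨b', g, g'⟩ =>
    ⟨_, h.mul g, (h'.mul (Lv.pred ⟨b', g, g'⟩)).add ((Lv.pred ⟨a', h, h'⟩).mul g')⟩
theorem Lv.sq (h : F.Lv k a) : F.Lv k (a ^ 2) := pow_two a ▸ h.mul h
theorem Lv.I (h : F.Lv k a) : F.Lv (k + 1) (F.I a) := ⟨a, Dy.I a, h⟩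
theorem Lv.I' (h : F.Lv k a) : F.Lv k (F.I a) := h.I.pred
theorem Lv.y (k : ℕ) : F.Lv k F.y := (Lv.one k).I'
theorem Lv.of_dy (h : F.Lv (k + 1) a) (d : F.Dy a a') : F.Lv k a' :=
  let ⟨_, e, e'⟩ := h; e.unique d ▸ e'
theorem Lv.δ : ∀ {k : ℕ} {a : F.R}, F.Lv k a → F.Lv k (F.δ a)
  | 0, _, _ => trivial
  | _ + 1, _, ⟨_, h, h'⟩ => ⟨_, h.δ, h'.δ⟩
theorem Lv.ev : ∀ {k : ℕ} {a : F.R}, F.Lv k a → F.Lv k (F.ev a)
  | 0, _, _ => trivial
  | _ + 1, _, ⟨_, h, h'⟩ => ⟨_, h.ev, h'.ev⟩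
theorem Lv.cj : ∀ {k : ℕ} {a : F.R}, F.Lv k a → F.Lv k (F.cj a)
  | 0, _, _ => trivial
  | _ + 1, _, ⟨_, h, h'⟩ => ⟨_, h.cj, h'.cj⟩
theorem Lv.re (h : F.Lv k a) : F.Lv k (F.re a) := (h.add h.cj).smul _
theorem Lv.rez (h : F.Lv k a) : F.Lv k (F.re (F.z * a)) := ((Lv.of_bv F.bv_z k).mul h).re
theorem Lv.inv (h : F.Lv k a) (e : a * b = 1) (ha : F.δ a = 0) : F.Lv k b := by
  induction k with
  | zero => trivial
  | succ k ih =>
    obtain ⟨a', d, h'⟩ := id h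
    exact ⟨_, d.inv e ha, ((ih h.pred).sq.mul h').neg⟩

theorem OL.succ {M : ℝ} : F.OL (k + 1) M a ↔ ∃ a', a = F.I a' ∧ F.OL k M a' :=
  ⟨fun ⟨b, h, e⟩ => ⟨_, e.trans (Function.iterate_succ_apply' _ _ _), b, h, rfl⟩,
    fun ⟨_, e, b, h, e'⟩ => ⟨b, h, by rw [Function.iterate_succ_apply', ← e', e]⟩⟩
theorem OL.zero {M : ℝ} : F.OL 0 M a ↔ a ∈ F.O M := ⟨fun ⟨_, h, e⟩ => e ▸ h, fun h => ⟨a, h, rfl⟩⟩
theorem OL.pred {M : ℝ} (h : F.OL (k + 1) M a) : F.OL k M a :=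
  let ⟨b, h, e⟩ := h; ⟨F.I b, O_I' h (by linarith), e⟩
theorem OL.add {M : ℝ} (h : F.OL k M a) (h' : F.OL k M b) : F.OL k M (a + b) := by
  obtain ⟨u, hu, rfl⟩ := h
  obtain ⟨v, hv, rfl⟩ := h'
  exact ⟨u + v, add_mem hu hv, by simp only [← Module.End.pow_apply, map_add]⟩
theorem OL.lv {M : ℝ} (h : F.OL k M a) : F.Lv k a := by
  induction k generalizing a with
  | zero => trivial
  | succ k ih => obtain ⟨a', rfl, h'⟩ := OL.succ.1 h; exact (ih h').I
theorem OL.mul {M : ℝ} (h : F.Lv k b) (h' : F.OL k M a) : F.OL k M (b * a) := by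
  induction k generalizing a b with
  | zero => exact OL.zero.2 (Ideal.mul_mem_left _ _ (OL.zero.1 h'))
  | succ k ih =>
    obtain ⟨a', rfl, g⟩ := OL.succ.1 h'
    obtain ⟨b', d, g'⟩ := id h
    refine OL.succ.2 ⟨_, ?_, (ih g' h'.pred).add (ih h.pred g)⟩
    rw [(d.mul (Dy.I a')).I_eq, map_mul, F.bv_I, mul_zero, sub_zero]
theorem OL.map {M : ℝ} {φ : F.R → F.R} (hI : ∀ a, φ (F.I a) = F.I (φ a))
    (hO : ∀ a, a ∈ F.O M → φ a ∈ F.O M) (h : F.OL k M a) : F.OL k M (φ a) :=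
  let ⟨b, h, e⟩ := h; ⟨φ b, hO b h, e ▸ (Function.Commute.iterate_right hI k).eq b⟩

/-! ### The Laplacian -/

theorem lap_add (g a b : F.R) : F.lap g (a + b) = F.lap g a + F.lap g b := by
  simp only [lap, map_add]; ring
theorem lap_sub (g a b : F.R) : F.lap g (a - b) = F.lap g a - F.lap g b := by
  simp only [lap, map_sub]; ring
theorem lap_smul (g : F.R) (s : ℂ) (a : F.R) : F.lap g (s • a) = s • F.lap g a := by
  simp only [lap, map_smul, mul_smul_comm, smul_add, smul_sub]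
theorem δ_lap (h : F.S g) (a : F.R) : F.δ (F.lap g a) = F.lap g (F.δ a) := by
  simp [lap, F.δ_mul, δ_sq, h.2, h.X.2, δ_T, F.δ_I]
theorem ev_lap (h : F.S g) (a : F.R) : F.ev (F.lap g a) = F.lap g (F.ev a) := by
  simp [lap, h.ev, h.X.ev, ev_T, F.ev_I, map_ofNat]
theorem am_lap (h : F.S g) (a : F.R) : F.am (F.lap g a) = F.lap g (F.am a) := by
  rw [am_eq, am_eq, δ_lap h, ev_lap h, ev_lap h, lap_add, lap_smul]
theorem lap_rez (r : F.cj g = g) (a : F.R) :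
    F.lap g (F.re (F.z * a)) = F.re (F.z * F.lap g a) := by
  rw [lap, T_rez, I_rez, T_rez]
  simp only [lap, re_z, map_add, map_sub, map_mul, map_pow, map_one, map_ofNat, r,
    F.cj_X, cj_T, F.cj_I, Algebra.smul_def]
  ring
theorem O_lap (g : F.R) (h : a ∈ F.O m) : F.lap g a ∈ F.O m :=
  add_mem (sub_mem (sub_mem (Ideal.mul_mem_left _ _ h) (Ideal.mul_mem_left _ _
    (O_T' h (by linarith)))) (Ideal.mul_mem_left _ _ (O_I' h (by linarith))))
    (O_T' (O_T h) (by linarith))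
theorem O_lap_sub (g : F.R) (h : a ∈ F.O m) : F.lap g a - (1 + g ^ 2) * a ∈ F.O (m + 1) := by
  have := add_mem (neg_mem (add_mem (Ideal.mul_mem_left _ (2 * g) (O_T h))
    (Ideal.mul_mem_left _ (F.X g) (O_I h)))) (O_T' (O_T h) (show m + 1 ≤ _ by linarith))
  rw [lap]; convert this using 1; ring
/-- One step of the inversion of the Laplacian. -/
theorem O_lap_step (u : IsUnit (1 + g ^ 2)) (h : a ∈ F.O m) (h' : F.lap g a ∈ F.O n) :
    a ∈ F.O (min n (m + 1)) := by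
  refine O_unit u ?_
  have := sub_mem (O_le h' (min_le_left n (m + 1))) (O_le (O_lap_sub g h) (min_le_right n _))
  rwa [sub_sub_cancel] at this
theorem O_of_lap (u : IsUnit (1 + g ^ 2)) (h : F.lap g a ∈ F.O n) : a ∈ F.O n :=
  gain (p := fun s => a ∈ F.O s) one_pos (fun _ _ e h => O_le h e) (O_0 a)
    fun _ _ _ k => O_lap_step u k h

end FA

namespace FL

open FA

variable {F : FA} {k : ℕ} {a b a' : F.R}

theorem zero : FL F 0 a ↔ F.Fl a := forall_congr' fun _ => OL.zero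
theorem succ : FL F (k + 1) a ↔ ∃ a', a = F.I a' ∧ FL F k a' := by
  refine ⟨fun h => ?_, fun ⟨a', e, h⟩ M => OL.succ.2 ⟨a', e, h M⟩⟩
  obtain ⟨a', e, -⟩ := OL.succ.1 (h 0)
  refine ⟨a', e, fun M => ?_⟩
  obtain ⟨b', e', g⟩ := OL.succ.1 (h M)
  rwa [show a' = b' from (e ▸ Dy.I a').unique (e' ▸ Dy.I b')]
theorem pred (h : FL F (k + 1) a) : FL F k a := fun M => (h M).pred
theorem le {j : ℕ} (h : FL F k a) (e : j ≤ k) : FL F j a := by
  induction e with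
  | refl => exact h
  | step _ ih => exact ih h.pred
theorem fl (h : FL F k a) : F.Fl a := zero.1 (h.le k.zero_le)
theorem lv (h : FL F k a) : F.Lv k a := (h 0).lv
theorem add (h : FL F k a) (h' : FL F k b) : FL F k (a + b) := fun M => (h M).add (h' M)
theorem mul (h : F.Lv k b) (h' : FL F k a) : FL F k (b * a) := fun M => OL.mul h (h' M)
theorem mul' (h' : FL F k a) (h : F.Lv k b) : FL F k (a * b) := mul_comm b a ▸ mul h h'
theorem smul (s : ℂ) (h : FL F k a) : FL F k (s • a) := by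
  rw [Algebra.smul_def]; exact mul (Lv.of_bv (S.alg s).1 k) h
theorem neg (h : FL F k a) : FL F k (-a) := by simpa using h.smul (-1)
theorem sub (h : FL F k a) (h' : FL F k b) : FL F k (a - b) := sub_eq_add_neg a b ▸ h.add h'.neg
theorem I (h : FL F k a) : FL F (k + 1) (F.I a) := succ.2 ⟨a, rfl, h⟩
theorem I' (h : FL F k a) : FL F k (F.I a) := h.I.pred
theorem δ (h : FL F k a) : FL F k (F.δ a) := fun M => (h M).map F.δ_I fun _ => O_δ
theorem ev (h : FL F k a) : FL F k (F.ev a) := fun M => (h M).map F.ev_I fun _ => O_ev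

end FL

end Pool.Agent.MP_ed9623_an.R10
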