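import Pool.Agent.MP_ed9623_an.R10.CDefs
import Pool.Agent.MP_ed9623_an.R10.Base2

/-! The smooth alternative: elements with all transversal derivatives are smooth functions. -/

open Filter Topology Set
open scoped ContDiff

namespace Pool.Agent.MP_ed9623_an.R10

open H77 (P Q)
open R77 (J2)
open R46 (Ix)
open R1 (lc Smo)
open FA

namespace XSmo

/-- All transversal derivatives exist. -/
def Cl (F : FA) (a : F.R) : Prop := ∀ n, F.Lv n a

section alg

variable {F : FA} {a a' g : F.R}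

theorem Cl.of_dy (d : F.Dy a a') (h : Cl F a') : Cl F a
  | 0 => trivial
  | n + 1 => ⟨a', d, h n⟩

theorem Cl.dy (h : Cl F a) : ∃ a', F.Dy a a' ∧ Cl F a' :=
  let ⟨a', d, _⟩ := h 1
  ⟨a', d, fun n => (h (n + 1)).of_dy d⟩

theorem Cl.tan (hx : LvXS) (he : Cl F F.el) (hg : F.bv g = g) (h : Cl F a) (h' : Cl F a') :
    Cl F (F.X a - (g + F.el) * a') := fun n =>
  ((hx F n (he _) n n.le_succ a).1 (h n)).1.sub (((Lv.of_bv hg n).add (he n)).mul (h' n))

/-- The first order jets are in the class as soon as the second transversal derivative is. -/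
theorem Cl.jet (hx : LvXS) (he : Cl F F.el) (hg : F.bv g = g) {k : ℕ} {f : ℕ → ℕ → F.R}
    (j : F.Cj g k f) (hk : 2 ≤ k) (h : Cl F (f 0 2)) {x y : ℕ} (e : x + y = 1) :
    Cl F (f x y) := by
  have h01 : Cl F (f 0 1) := Cl.of_dy (j 0 1 (by omega)).1 h
  have h11 : Cl F (f 1 1) := by
    have := Cl.tan hx he hg h01 h
    rwa [(j 0 1 (by omega)).2, add_sub_cancel_right] at this
  rcases (by omega : x = 1 ∧ y = 0 ∨ x = 0 ∧ y = 1) with ⟨rfl, rfl⟩ | ⟨rfl, rfl⟩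
  · exact Cl.of_dy (j 1 0 (by omega)).1 h11
  · exact h01

end alg

/-- The open box. -/
def N (b : Box) : Set P := Ioo b.s₀ b.s₁ ×ˢ Ioo b.e₀ b.e₁

theorem N_open (b : Box) : IsOpen (N b) := isOpen_Ioo.prod isOpen_Ioo

theorem N_sub (b : Box) : N b ⊆ b.B := prod_mono_right Ioo_subset_Icc_self

theorem gd_ct {B : Set P} {f : P → ℂ} (h : Gd B f) : ContinuousOn f B :=
  let ⟨_, m, k⟩ := h
  (k f m).1.1

theorem rep_dy {F : FA} {b : Box} {nn la : P → ℝ} {v : F.R → P → ℂ} (R : Rep F b nn la v)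
    {a a' : F.R} (d : F.Dy a a') {p : P} (hp : p ∈ N b) :
    HasDerivAt (fun t => v a (p.1, t)) (v a' p * nn p) p.2 := by
  have c : ContinuousOn (fun t => v a' (p.1, t) * (nn (p.1, t) : ℂ)) (Icc b.e₀ b.e₁) :=
    ((gd_ct (R.gd a')).mul (gd_ct R.ch.gn)).comp (Continuous.prodMk_right p.1).continuousOn
      fun t ht => ⟨hp.1, ht⟩
  have o : Ioo b.e₀ b.e₁ ∈ 𝓝 p.2 := isOpen_Ioo.mem_nhds hp.2
  have k := intervalIntegral.integral_hasDerivAt_right (a := 0)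
    ((c.mono (uIcc_subset_Icc ⟨b.h0, b.h1⟩ (Ioo_subset_Icc_self hp.2))).intervalIntegrable)
    ((c.mono Ioo_subset_Icc_self).stronglyMeasurableAtFilter isOpen_Ioo _ hp.2)
    (c.continuousAt (mem_of_superset o Ioo_subset_Icc_self))
  refine (k.const_add (v a (p.1, 0))).congr_of_eventuallyEq ?_
  filter_upwards [o] with t ht
  have m : ((p.1, t) : P) ∈ b.B := ⟨hp.1, Ioo_subset_Icc_self ht⟩
  have e : v a (p.1, t) = v (F.bv a + F.I a') (p.1, t) := congrArg (fun x => v x (p.1, t)) d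
  rw [e, R.add _ _ _ m, R.bv _ _ m, R.I _ _ m]
  rfl

variable {D : Dat} {b : Box} {M : Mdl} {v : M.R → P → ℂ} {ps aa : ℕ → ℕ → M.R}

theorem hasF (hc : CartS) (C : Cm D b M v ps aa) {a a' : M.R} (d : M.Dy a a') {p : P}
    (hp : p ∈ N b) : ∀ᶠ x in 𝓝 (D.Ψ p), HasFDerivAt (fun x => v a (D.Ξ x))
      (lc (v (M.X a - (M.g + M.el) * a') (D.Ξ x)) (v a' (D.Ξ x))) x := by
  obtain ⟨h1, h2, h3⟩ := hc D
  have s : N b ⊆ Q D.r := (N_sub b).trans C.sub
  have k := h3 (N b) (v a) (v (M.X a - (M.g + M.el) * a')) (v a') (N_open b) s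
    ((gd_ct (C.rep.gd _)).mono (N_sub b)) ((gd_ct (C.rep.gd _)).mono (N_sub b))
    (fun q hq => (C.rep.X a q (N_sub b hq)).congr_deriv (by
      beta_reduce
      rw [← C.lam q (N_sub b hq), ← C.rep.mul _ _ q (N_sub b hq), ← C.rep.add _ _ q (N_sub b hq),
        sub_add_cancel]))
    fun q hq => rep_dy C.rep d hq
  rw [← (h2 p (s hp)).1, eventually_map]
  filter_upwards [(N_open b).mem_nhds hp] with q hq
  rw [h1 q (s hq)]
  exact k q hq

theorem smooth (hx : LvXS) (hc : CartS) (C : Cm D b M v ps aa) (he : Cl M.toFA M.el) {p : P}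
    (hp : p ∈ N b) (k : ℕ) : ∀ a, Cl M.toFA a → ContDiffAt ℝ k (fun x => v a (D.Ξ x)) (D.Ψ p) := by
  induction k with
  | zero =>
    intro a h
    obtain ⟨a', d, -⟩ := h.dy
    exact contDiffAt_zero.2 ⟨_, hasF hc C d hp, fun x hx => hx.continuousAt.continuousWithinAt⟩
  | succ k ih =>
    intro a h
    obtain ⟨a', d, h'⟩ := h.dy
    rw [Nat.cast_succ]
    refine contDiffAt_succ_iff_hasFDerivAt.2 ⟨_, ⟨_, hasF hc C d hp, fun x hx => hx⟩, ?_⟩
    exact (contDiffAt_const.smulRight (ih _ (Cl.tan hx he M.sys.sg.1 h h'))).add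
      (contDiffAt_const.smulRight (ih _ h'))

theorem smooth_re (hx : LvXS) (hc : CartS) (C : Cm D b M v ps aa) (he : Cl M.toFA M.el) {p : P}
    (hp : p ∈ N b) {a : M.R} (h : Cl M.toFA a) {f : P → ℝ} (e : ∀ q ∈ b.B, v a q = f (D.Ψ q)) :
    ContDiffAt ℝ ∞ f (D.Ψ p) := by
  obtain ⟨h1, h2, -⟩ := hc D
  have s : N b ⊆ Q D.r := (N_sub b).trans C.sub
  have k : ContDiffAt ℝ ∞ (fun x => v a (D.Ξ x)) (D.Ψ p) :=
    contDiffAt_infty.2 fun k => smooth hx hc C he hp k a h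
  refine (Complex.reCLM.contDiff.contDiffAt.comp _ k).congr_of_eventuallyEq ?_
  rw [EventuallyEq, ← (h2 p (s hp)).1, eventually_map]
  filter_upwards [(N_open b).mem_nhds hp] with q hq
  simp [h1 q (s hq), e q (N_sub b hq)]

end XSmo

open XSmo in
theorem rowSmo : OfSmo := by
  intro hx hc D b M v ps aa C h0 h1 sm s hs
  obtain ⟨be, pr, J⟩ := C.jt
  have he : Cl M.toFA M.el := fun n => (sm n).2.2
  have hW : Cl M.toFA (ps 0 2) := fun n => C.hW ▸ (sm n).2.1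
  have hA : Cl M.toFA (aa 0 2) := fun n => C.hA ▸ (sm n).1
  have p0 : ((s, 0) : P) ∈ N b := ⟨hs, h0, h1⟩
  refine ⟨D.t, fun x y e => ?_⟩
  have cp := Cl.jet hx he J.sg.1 J.jp (by omega) hW e
  have ca := Cl.jet hx he J.sg.1 J.ja le_rfl hA e
  have e1 : D.ps' 0 x y = D.ps D.t 0 x y := (D.h.sa (Ix.ps 0) x y).1 (by simp [Ix.ord, e])
  have e2 : D.al' 0 x y = D.al D.t 0 x y := (D.h.sa (Ix.al 0) x y).1 (by simp [Ix.ord, e])
  have e3 : D.al' 1 x y = D.al D.t 1 x y := (D.h.sa (Ix.al 1) x y).1 (by simp [Ix.ord, e])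
  change ∀ᶠ z in 𝓝 (D.Ψ (s, 0)), _
  rw [← ((hc D).2.1 _ (C.sub (N_sub b p0))).1, eventually_map, ← e1, ← e2, ← e3]
  filter_upwards [(N_open b).mem_nhds p0] with q hq
  exact ⟨smooth_re hx hc C he hq cp (C.vp 0 x y (by omega)),
    smooth_re hx hc C he hq ca (C.va 0 x y (by omega)),
    smooth_re hx hc C he hq (fun n => (ca n).δ) (C.va 1 x y (by omega))⟩

end Pool.Agent.MP_ed9623_an.R10
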