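import Pool.Agent.MP_ed9623_an.R10.Spec
import Pool.Agent.MP_ed9623_an.R10.Base4

/-! The first coercive case. -/

namespace Pool.Agent.MP_ed9623_an.R10

open FA Mdl

namespace XT2

theorem mem_of {F : FA} {m : ℝ} {a b : F.R} (h : a ∈ F.O m) (e : b = a) : b ∈ F.O m := e ▸ h

/-- The value and the time derivative at the base time. -/
theorem two {F : FA} {m : ℝ} {x a a₀ o : F.R} (e : x = F.re (F.z * a) + o) (ha : F.δ a = 0)
    (h : a - a₀ ∈ F.O m) (ho : o ∈ F.O m) :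
    F.ev x - F.re a₀ ∈ F.O m ∧ F.ev (F.δ x) - F.re (F.c • a₀) ∈ F.O m := by
  have hc : F.δ (F.c • a) = 0 := by rw [map_smul, ha, smul_zero]
  constructor
  · refine mem_of (add_mem (O_re h) (O_ev ho)) ?_
    rw [e, map_add, ev_rez ha, re_sub]; ring
  · refine mem_of (add_mem (O_re (O_smul F.c h)) (O_ev (O_δ ho))) ?_
    rw [e, map_add, map_add, δ_rez ha, ev_rez hc, smul_sub, re_sub]; ring

theorem cross {F : FA} (a b : F.R) :
    F.re b * F.re (F.c • a) - F.re (F.c • b) * F.re a = ((2⁻¹ : ℂ) * F.c) • F.wd a b := by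
  simp only [re, cj_c, wd]
  simp only [Algebra.smul_def, map_mul]
  have h : algebraMap ℂ F.R 2⁻¹ * 2 = 1 := by
    rw [← map_ofNat (algebraMap ℂ F.R) 2, ← map_mul]; simp
  linear_combination (algebraMap ℂ F.R 2⁻¹ * algebraMap ℂ F.R F.c *
    (a * F.cj b - F.cj a * b)) * h

end XT2

open XT2 in
theorem rowT2 : OfT2 := by
  intro hE hT _ M hl uk ue
  have oP := (hE M (3 / 2) (by norm_num) M.f_O).2.1
  have oV : M.V - M.e ∈ M.O 1 :=
    mem_of (add_mem (O_le (hT M) (by norm_num)) (Ideal.mul_mem_left _ M.f3 O_y)) (by ring)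
  obtain ⟨w0, w1⟩ := two M.W_eq M.δ_V oV (O_le oP (by norm_num))
  obtain ⟨p0, p1⟩ := two (a₀ := M.q) (m := 1) M.pq_eq M.δ_Uq
    (mem_of (O_T1 M.V) (by rw [Uq]; ring)) (O_T1 _)
  obtain ⟨q0, q1⟩ := two (a₀ := M.y * M.l) (m := 2) M.pa_eq M.δ_Ua
    (mem_of (sub_mem (O_T' (O_T1 M.V) (by norm_num))
      (Ideal.mul_mem_left _ M.k (O_I' oV (by norm_num))))
      (by rw [Ua, map_sub, I_of_S M.Se.1, Mdl.l]; ring))
    (sub_mem (O_T' (O_T1 _) (by norm_num)) (Ideal.mul_mem_left _ _ (O_I' oP (by norm_num))))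
  rw [re_mul cj_y] at q0
  rw [← mul_smul_comm, re_mul cj_y] at q1
  have nul := M.sys.nul
  have uq := M.sys.uq
  have e0 := congrArg M.ev M.sys.eL
  have e1 := congrArg (fun a => M.ev (M.δ a)) M.sys.eL
  have ek : M.ev (M.X M.g) = M.k := M.Sk.ev
  have dk : M.δ (M.X M.g) = 0 := M.Sk.2
  have opa : M.ev (M.pa M.g M.h M.W) ∈ M.O 1 :=
    mem_of (add_mem (O_le q0 (by norm_num)) (Ideal.mul_mem_right (M.re M.l) _ O_y)) (by ring)
  have r1e : M.r1 = M.ev (M.δ (M.pa M.g M.h M.W)) + 2 * M.el * M.ev (M.δ (M.pq M.h M.W)) +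
      M.el ^ 2 * M.ev (M.δ M.W) := by
    simp only [r1, rho, map_add, M.δ_mul, map_mul, map_pow, δ_el, δ_pow0 δ_el, δ_ofNat, ev_el,
      map_ofNat, zero_mul, mul_zero, add_zero, zero_add]
  have rpq : M.cj (M.pq M.h M.W) = M.pq M.h M.W := by
    rw [pq, map_add, cj_re, cj_T, M.sys.rW]
  have rpa : M.cj (M.pa M.g M.h M.W) = M.pa M.g M.h M.W := by
    rw [pa, map_sub, map_add, map_mul, map_mul, cj_y, cj_re, cj_T, cj_T, M.cj_I, M.cj_X, M.sys.rW,
      M.cj_g]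
  simp only [rho, map_add, map_mul, map_pow, ev_el, map_ofNat] at nul uq
  simp only [map_add, map_sub, map_mul, map_ofNat, ev_T, M.ev_I, ek, map_zero] at e0
  simp only [map_add, map_sub, map_mul, M.δ_mul, map_ofNat, δ_ofNat, δ_T, M.δ_I, ev_T, M.ev_I, ek,
    dk, map_zero, zero_mul, zero_add] at e1
  have c0 := fun a : M.R => M.cj_ev a
  have cW0 : M.cj (M.ev M.W) = M.ev M.W := by rw [c0, M.sys.rW]
  have cW1 : M.cj (M.ev (M.δ M.W)) = M.ev (M.δ M.W) := by rw [c0, M.cj_δ, M.sys.rW]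
  have cP0 : M.cj (M.ev (M.pq M.h M.W)) = M.ev (M.pq M.h M.W) := by rw [c0, rpq]
  have cP1 : M.cj (M.ev (M.δ (M.pq M.h M.W))) = M.ev (M.δ (M.pq M.h M.W)) := by
    rw [c0, M.cj_δ, rpq]
  have cQ1 : M.cj (M.ev (M.δ (M.pa M.g M.h M.W))) = M.ev (M.δ (M.pa M.g M.h M.W)) := by
    rw [c0, M.cj_δ, rpa]
  have dW0 := M.δ_ev M.W
  have dW1 := M.δ_ev (M.δ M.W)
  have dP0 := M.δ_ev (M.pq M.h M.W)
  have dP1 := M.δ_ev (M.δ (M.pq M.h M.W))
  have eA : M.ev M.A = M.A0 := rfl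
  have ef : M.I M.A0 = M.f := rfl
  rw [eA, ef] at e0 e1
  generalize M.ev M.W = W0 at *
  generalize M.ev (M.δ M.W) = W1 at *
  generalize M.ev (M.pq M.h M.W) = P0 at *
  generalize M.ev (M.δ (M.pq M.h M.W)) = P1 at *
  generalize M.ev (M.pa M.g M.h M.W) = Q0 at *
  generalize M.ev (M.δ (M.pa M.g M.h M.W)) = Q1 at *
  have tA : M.T M.A0 = M.X M.f - M.el * M.A0 := rfl
  have ttA : M.T (M.T M.A0) = M.X (M.T M.f) - M.el * M.X M.f + M.el ^ 2 * M.A0 := by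
    rw [T_apply (M.T M.A0), ← T_I, ef, tA]; ring
  rw [ttA, tA] at e0 e1
  have oel2 : M.el ^ 2 ∈ M.O 2 := mem_of (O_mul' O_el O_el (by norm_num)) (sq _)
  have oQ1 : Q1 ∈ M.O 1 :=
    mem_of (add_mem (O_le q1 (by norm_num)) (Ideal.mul_mem_right (M.re (M.c • M.l)) _ O_y))
      (by ring)
  have or1 : M.r1 ∈ M.O 1 := mem_of (add_mem (add_mem oQ1 (Ideal.mul_mem_left _ (2 * P1) O_el))
    (Ideal.mul_mem_left _ (M.el * W1) O_el)) (by rw [r1e]; ring)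
  have cl := cross M.l M.q
  rw [hl, smul_zero] at cl
  have oρ : (P0 + M.el * W0) * M.r1 ∈ M.O (1 + 1) := by
    have a1 : M.y * (P0 - M.re M.q) ∈ M.O (1 + 1) := O_ymul p0
    have a2 : M.y * (P1 - M.re (M.c • M.q)) ∈ M.O (1 + 1) := O_ymul p1
    have a3 : M.el * M.r1 ∈ M.O (1 + 1) := O_mul O_el or1
    rw [← one_add_one_eq_two] at q0 q1 oel2
    refine mem_of (add_mem (add_mem (add_mem (sub_mem (Ideal.mul_mem_left _ P0 q1)
      (Ideal.mul_mem_left _ P1 q0)) (sub_mem (Ideal.mul_mem_left _ (M.re (M.c • M.l)) a1)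
      (Ideal.mul_mem_left _ (M.re M.l) a2))) (Ideal.mul_mem_left _ (W1 * P0 - W0 * P1) oel2))
      (Ideal.mul_mem_left _ W0 a3)) ?_
    linear_combination P0 * r1e + P1 * nul + M.y * cl
  have ob : M.k * ((P0 + M.el * W0) * W1 - P1 * W0) -
      M.k * (((2⁻¹ : ℂ) * M.c) • M.wd M.e M.q) ∈ M.O 1 := by
    rw [← cross]
    refine mem_of (Ideal.mul_mem_left _ M.k (add_mem (sub_mem (add_mem
      (Ideal.mul_mem_left _ W1 p0) (Ideal.mul_mem_left _ (M.re M.q) w1)) (add_mem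
      (Ideal.mul_mem_left _ W0 p1) (Ideal.mul_mem_left _ (M.re (M.c • M.q)) w0)))
      (Ideal.mul_mem_left _ (W0 * W1) O_el))) (by ring)
  have ub : IsUnit (M.k * (((2⁻¹ : ℂ) * M.c) • M.wd M.e M.q)) :=
    uk.mul (unit_smul (mul_ne_zero (by norm_num) M.c_ne) ue)
  obtain ⟨v, hv⟩ := uq.exists_left_inv
  have st : ∀ n : ℝ, 0 ≤ n → M.f ∈ M.O n → M.f ∈ M.O (n + 1) := fun n hn h => by
    have oA : M.ev (M.δ M.A) ∈ M.O (n + 1) :=
      mem_of (O_ev (O_δ (hE M n hn h).2.2.1)) (by rw [map_sub, M.δ_A0, sub_zero])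
    have b1 : M.X (M.T M.f) ∈ M.O (n + 1) := O_X (O_T h)
    have b2 : M.el * M.X M.f ∈ M.O (n + 1) := O_mul' O_el (O_X h) (by linarith)
    have b3 : 2 * (P0 + M.el * W0) * M.X M.f + M.k * W0 * M.f ∈ M.O (n + 1) :=
      mem_of (Ideal.mul_mem_left _ W0 (add_mem b1 b2))
        (by linear_combination (-1 : M.R) * e0 + M.A0 * nul)
    have b4 : M.r1 * M.A0 - M.k * W1 * M.f - 2 * P1 * M.X M.f ∈ M.O (n + 1) := by
      have t1 : M.T (M.ev (M.δ M.A)) ∈ M.O (n + 1) := O_T' oA (by linarith)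
      refine mem_of (sub_mem (sub_mem (sub_mem (Ideal.mul_mem_left _ (2 * P0) t1)
        (Ideal.mul_mem_left _ Q0 oA)) (Ideal.mul_mem_left _ W0 (sub_mem (O_T' t1 (by linarith))
          (Ideal.mul_mem_left _ M.k (O_I' oA (by linarith))))))
        (Ideal.mul_mem_left _ W1 (sub_mem b1 b2))) ?_
      linear_combination e1 + M.A0 * r1e
    refine coO (a := M.A0) (γ := (2⁻¹ : ℂ) • (-(v * M.k * W0))) one_pos M.δ_A0 ?_ ?_ ?_ ?_ ub oρ ob
      M.f_U ?_ ?_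
    · simp [M.δ_mul, dP0, dW0, M.δ_r1]
    · simp [M.δ_mul, dP0, dW0, dW1, dP1, M.Sk.2]
    · simp [r1e, cP0, cW0, cQ1, cP1, cW1, map_ofNat]
    · simp [cP0, cW0, cP1, cW1, M.cj_k]
    · refine mem_of (add_mem (Ideal.mul_mem_left _ (P0 + M.el * W0) b4)
        (Ideal.mul_mem_left _ P1 b3)) ?_
      rw [ef]; ring
    · refine mem_of (O_smul (2⁻¹ : ℂ) (Ideal.mul_mem_left _ v b3)) ?_
      rw [ef, smul_mul_assoc, ← half_two (M.X M.f), ← smul_sub]
      congr 1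
      rw [half_two]
      linear_combination (-2 * M.X M.f) * hv
  have k : ∀ j : ℕ, M.f ∈ M.O j := fun j => by
    induction j with
    | zero => exact O_np (by simp) _
    | succ j ih => exact mem_of (O_le (st j j.cast_nonneg ih) (by push_cast; rfl)) rfl
  intro n
  obtain ⟨j, hj⟩ := exists_nat_ge n
  exact O_le (k j) hj

end Pool.Agent.MP_ed9623_an.R10
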