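import Pool.Agent.MP_ed9623_an.R10.Spec
import Pool.Agent.MP_ed9623_an.R10.Base4

/-! The first Taylor coefficients of the amplitude. -/

namespace Pool.Agent.MP_ed9623_an.R10

open FA Mdl

theorem rowTay : OfTay := fun hE M => by
  have h := (hE M (3 / 2) (by norm_num) M.f_O).2.2.2
  refine O_of_lap (g := M.g) M.w_unit ?_
  have a1 : M.c • M.I (M.I M.V) ∈ M.O (3 / 2) := O_smul _ (O_I' (O_I1 _) (by norm_num))
  have a2 : M.I M.y ∈ M.O (3 / 2) := O_I' O_y (by norm_num)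
  have a3 : M.T (M.T (M.e + M.f3 * M.y)) ∈ M.O (3 / 2) := O_T' (O_T1 _) (by norm_num)
  have ty : M.T M.y = 0 := by simpa using T_ypow (F := M.toFA) 1
  have e1 : M.T (M.e + M.f3 * M.y) = M.X M.e * M.y + M.X M.f3 * M.I M.y := by
    rw [map_add, T_of_S M.Se.1, T_S M.Sf3.1, ty, mul_zero, add_zero]
  have e2 : M.I (M.e + M.f3 * M.y) = M.e * M.y + M.f3 * M.I M.y := by
    rw [map_add, I_of_S M.Se.1, I_S M.Sf3.1]
  have we := M.w_e
  have wf := M.w_f3
  rw [lap_sub]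
  convert sub_mem (add_mem (add_mem h a1)
    (Ideal.mul_mem_left _ (2 * M.g * M.X M.f3 + M.k * M.f3) a2)) a3 using 1
  rw [show M.lap M.g (M.e + M.f3 * M.y) = (1 + M.g ^ 2) * (M.e + M.f3 * M.y)
    - 2 * M.g * (M.X M.e * M.y + M.X M.f3 * M.I M.y) - M.X M.g * (M.e * M.y + M.f3 * M.I M.y)
    + M.T (M.T (M.e + M.f3 * M.y)) by rw [← e1, ← e2]; rfl]
  simp only [Mdl.w, Mdl.l, Mdl.k] at we wf ⊢
  linear_combination -we - M.y * wf

end Pool.Agent.MP_ed9623_an.R10
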