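import Pool.Agent.MP_ed9623_an.R10.B12

/-! The coercive case on a straight arc. -/

namespace Pool.Agent.MP_ed9623_an.R10

open FA Mdl

namespace XTc

variable {M : Mdl} {n : ℝ}

theorem ct_unit (h : M.St) (u : IsUnit (M.wd M.e M.q)) (r : M.rh2 = 0) : IsUnit M.ct := by
  have w : ∀ a, M.wd a (M.X M.q) = M.r0 * M.wd a M.q := fun a => by
    simp only [h.X_q, wd, map_mul, h.cj_r0]; ring
  have e2 : M.X (M.X M.e) = 0 := by simpa [Mdl.m2, h.k] using h.m2
  have a : M.wd M.e M.q * M.r0 = 4 * M.wd (M.X M.e) M.q := by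
    have := congrArg ((4 : ℂ) • ·) r
    simp only [rh2, rh, smul_add, smul_smul, smul_zero, add_zero] at this
    norm_num at this
    rw [← two_smul'] at this
    exact h.r0_unit.mul_right_cancel (by linear_combination this)
  have b := congrArg M.X a
  rw [M.X_mul, M.X_mul, X_wd, X_wd, w, w, e2, X_ofNat] at b
  have c : 4 * M.X M.r0 = -M.r0 ^ 2 := u.mul_left_cancel (by
    have z : M.wd 0 M.q = 0 := by simp [wd]
    linear_combination 4 * b - 3 * M.r0 * a + 16 * z)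
  have d : M.ct = (-3 / 8 : ℂ) • M.r0 ^ 2 := by
    have : M.X M.r0 = (-1 / 4 : ℂ) • M.r0 ^ 2 := by
      have k := congrArg ((4⁻¹ : ℂ) • ·) c
      simp only [show (4 : M.R) * M.X M.r0 = (4 : ℂ) • M.X M.r0 by
        rw [Algebra.smul_def, map_ofNat], smul_smul] at k
      norm_num at k
      rw [k]; module
    rw [ct, this]; module
  rw [d]
  exact unit_smul (by norm_num) (h.r0_unit.pow 2)

theorem cj_ct (h : M.St) : M.cj M.ct = M.ct := by
  simp only [ct, map_sub, M.cj_smul, map_inv₀, map_ofNat, M.cj_X, map_pow, h.cj_r0]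

/-- The slope of the characteristics. -/
theorem la_exp (hD : DwS) (h : M.St) : M.la + (2⁻¹ : ℂ) • M.r0 ∈ M.O 1 := by
  obtain ⟨_, -, -, e⟩ := hD M
  have hq : M.re (M.X M.q) = M.r0 * M.re M.q := by rw [h.X_q, re_mul h.cj_r0]
  rw [pq, h.k, zero_mul, sub_zero] at e
  simp only [map_add, map_mul, ev_el, ev_rez M.Sh.X.2, ev_rez M.Sq.X.2, hq] at e
  rw [← q] at e
  refine O_unit M.re_q_unit (O_of_smul two_ne_zero ?_)
  have := neg_mem (add_mem (add_mem (O_ev (O_X (O_T1 M.W)))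
    (Ideal.mul_mem_right (M.ev (M.X M.W)) _ O_el)) (Ideal.mul_mem_right (2 * M.la) _
      (add_mem (O_ev (O_T1 M.W)) (Ideal.mul_mem_right (M.ev M.W) _ O_el))))
  convert this using 1
  rw [mul_add, smul_add, mul_smul_comm, smul_smul, mul_inv_cancel₀ two_ne_zero, one_smul,
    ← two_smul']
  linear_combination e

theorem el_exp (hD : DwS) (h : M.St) : M.el + (2⁻¹ : ℂ) • M.r0 * M.y ∈ M.O 2 := by
  have := O_I' (la_exp hD h) (show 2 ≤ _ by norm_num)
  rwa [map_add, I_of_S (M.Sr0.smul _).1] at this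

theorem rho_eq (h : M.St) : M.rho M.g M.h M.W
    = M.re (M.z * (M.Ua + 2 * M.el * M.Uq + M.el ^ 2 * M.V))
      + (M.T (M.T M.Ph) + 2 * M.el * M.T M.Ph + M.el ^ 2 * M.Ph) := by
  have r2 : M.cj (2 * M.el) = 2 * M.el := by rw [map_mul, map_ofNat, cj_el]
  have r3 : M.cj (M.el ^ 2) = M.el ^ 2 := by rw [map_pow, cj_el]
  rw [rho, pa_eq, pq_eq, h.k, mul_add M.z, mul_add M.z, re_add, re_add, mul_left_comm M.z,
    re_mul r2, mul_left_comm M.z, re_mul r3, Ph]
  ring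

theorem V_one (hT : TayS) (M : Mdl) : M.V - M.e ∈ M.O 1 := by
  convert add_mem (O_le (hT M) (show 1 ≤ _ by norm_num)) (Ideal.mul_mem_left _ M.f3 O_y) using 1
  ring

/-- The pencil vanishes to a higher order. -/
theorem r1_O (hE : EstS) (hT : TayS) (hD : DwS) (h : M.St) (r : M.rh2 = 0) :
    M.r1 ∈ M.O (5 / 2) := by
  have p := (hE M _ (by norm_num) M.f_O).2.1
  have el2 : M.el ^ 2 ∈ M.O 2 := by rw [sq]; exact O_mul' O_el O_el (by norm_num)
  have hp : M.T (M.T M.Ph) + 2 * M.el * M.T M.Ph + M.el ^ 2 * M.Ph ∈ M.O (5 / 2) :=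
    add_mem (add_mem (O_T' (O_T p) (by norm_num)) (Ideal.mul_mem_left _ _ (O_T' p (by norm_num))))
      (O_mul' el2 p (by norm_num))
  obtain ⟨ρ, hρ⟩ : ∃ ρ, ρ = M.Ua + 2 * M.el * M.Uq + M.el ^ 2 * M.V := ⟨_, rfl⟩
  have dρ : M.δ ρ = 0 := by simp [hρ, M.δ_mul, δ_sq, δ_Ua, δ_Uq, δ_V]
  have a : M.re ρ ∈ M.O (5 / 2) := by
    have := neg_mem (O_ev hp)
    have e := M.sys.nul
    rw [rho_eq h, ← hρ, map_add, ev_rez dρ] at e
    rwa [← eq_neg_of_add_eq_zero_left e] at this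
  obtain ⟨s, hs⟩ : ∃ s, s = (2⁻¹ : ℂ) • M.r0 := ⟨_, rfl⟩
  have s2 : M.r0 = 2 * s := by rw [hs, mul_smul_comm, half_two]
  have cs : M.cj s = s := by rw [hs, cj_half, h.cj_r0]
  have l := el_exp hD h
  rw [← hs] at l
  have V1 := V_one hT M
  have b : ρ - (2 * (M.el + s * M.y) * M.q + (s ^ 2 * M.e - 2 * s * M.X M.e) * M.y ^ 2)
      ∈ M.O (5 / 2) := by
    have := add_mem (add_mem (add_mem (add_mem (XB12.Ua_exp hT M)
      (Ideal.mul_mem_left _ 2 (O_mul' O_el (XB12.Uq_exp hT M) (by norm_num))))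
      (O_mul' el2 V1 (by norm_num)))
      (Ideal.mul_mem_left _ (2 * M.X M.e) (O_mul' l O_y (by norm_num))))
      (Ideal.mul_mem_left _ M.e (O_mul' l (sub_mem O_el (Ideal.mul_mem_left _ s O_y))
        (by norm_num)))
    convert this using 1
    rw [hρ, h.m2, h.l, h.X_q, s2]; ring
  have r' : s ^ 2 * M.wd M.e M.q - 2 * s * M.wd (M.X M.e) M.q = 0 := by
    rw [← r, rh2, rh, hs, smul_pow]
    simp only [smul_mul_assoc, mul_smul_comm, add_zero, neg_mul, smul_neg, mul_assoc, half_two]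
    rw [sub_eq_add_neg, mul_comm (M.r0 ^ 2), mul_comm M.r0]
    norm_num
  have c : ρ ∈ M.O (5 / 2) := by
    refine O_unit M.re_q_unit (O_of_smul two_ne_zero ?_)
    have b' := O_cj b
    simp only [map_sub, map_add, map_mul, map_pow, map_ofNat, cj_el, cj_y, cs] at b'
    have := add_mem (sub_mem (Ideal.mul_mem_left _ (M.cj M.q) b) (Ideal.mul_mem_left _ M.q b'))
      (Ideal.mul_mem_left _ M.q (O_smul 2 a))
    convert this using 1
    rw [re, re, smul_mul_assoc, smul_smul, smul_smul, mul_inv_cancel₀ two_ne_zero, one_smul,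
      one_smul]
    simp only [wd] at r'
    linear_combination M.y ^ 2 * r'
  rw [r1, rho_eq h, ← hρ, map_add, map_add]
  exact add_mem (O_ev (O_δ (O_rez c))) (O_ev (O_δ hp))

theorem eL (h : M.St) : M.rho M.g M.h M.W * M.A + M.W * M.X (M.T (M.I M.A))
    - (M.el * M.W + 2 * M.pq M.h M.W) * M.X (M.I M.A) = 0 := by
  have e := M.sys.eL
  rw [show M.X M.g = 0 from h.k, T_apply (M.T M.A), ← T_I, T_apply M.A] at e
  rw [← e, rho]; ring

theorem cj_pq (M : Mdl) : M.cj (M.pq M.h M.W) = M.pq M.h M.W := by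
  rw [pq, map_add, cj_re, cj_T, M.sys.rW]

theorem cj_r1 (M : Mdl) : M.cj M.r1 = M.r1 := by
  simp only [r1, M.cj_ev, M.cj_δ, rho, pa, map_add, map_sub, map_mul, map_pow, map_ofNat, cj_el,
    cj_y, cj_re, cj_T, M.cj_I, M.cj_X, M.cj_g, M.sys.rW, cj_pq]

/-- One step of the gain. -/
theorem step (hE : EstS) (hT : TayS) (hD : DwS) (h : M.St) (u : IsUnit (M.wd M.e M.q))
    (r : M.rh2 = 0) (hn : 0 ≤ n) (hf : M.f ∈ M.O n) : M.f ∈ M.O (n + 1) := by
  obtain ⟨a, ha⟩ : ∃ a, a = M.el * M.W + 2 * M.pq M.h M.W := ⟨_, rfl⟩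
  have e := eL h
  rw [← ha] at e
  have e0 := congrArg M.ev e
  simp only [map_sub, map_add, map_mul, map_zero, M.sys.nul, M.ev_X, ev_T, ev_IA] at e0
  have e1 := congrArg (fun x => M.ev (M.δ x)) e
  simp only [map_sub, map_add, map_mul, M.δ_mul, map_zero, M.sys.nul, M.ev_X, ev_T, ev_IA] at e1
  have dA : M.δ (M.I M.A) ∈ M.O (n + 2) := by
    have := O_I' (O_δ (hE M n hn hf).2.2.1) (show n + 2 ≤ _ by linarith)
    rwa [map_sub, δ_A0, sub_zero, ← M.δ_I] at this
  have tf : M.X (M.T M.f) ∈ M.O (n + 1) := O_X (O_T hf)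
  have xf : M.X M.f ∈ M.O (n + 1) := by
    refine O_unit M.sys.uq (O_of_smul two_ne_zero ?_)
    have := add_mem (Ideal.mul_mem_left _ (M.ev M.W) tf)
      (Ideal.mul_mem_left _ (M.ev M.W) (O_mul' O_el (O_X hf) (by linarith)))
    convert this using 1
    simp only [ha, map_add, map_mul, map_ofNat, ev_el] at e0
    rw [← two_smul', map_add, map_mul, ev_el]
    linear_combination -e0
  obtain ⟨s, hs⟩ : ∃ s, s = (2⁻¹ : ℂ) • M.r0 := ⟨_, rfl⟩
  have Ss : M.S s := hs ▸ M.Sr0.smul _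
  have l := la_exp hD h
  have l' := el_exp hD h
  rw [← hs] at l l'
  have β : M.X M.la + M.la * M.la + M.ct ∈ M.O 1 := by
    convert add_mem (O_X l) (Ideal.mul_mem_right (M.la - s) _ l) using 1
    have : M.ct = M.X s - s ^ 2 := by rw [ct, hs, map_smul, smul_pow]; norm_num
    rw [this, map_add]; ring
  have G : M.I (M.y * M.A0) = M.y * M.f - M.I M.f := I_ymul _
  have t : M.X (M.T M.f) - M.ct * M.I (M.y * M.A0) ∈ M.O (n + 2) := by
    have := sub_mem (sub_mem (O_I' (add_mem (add_mem (O_X xf) (Ideal.mul_mem_left _ (2 * M.la) xf))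
      (O_mul' β hf (by linarith))) (show n + 2 ≤ _ by linarith))
      (O_mul' (O_I β) hf (by linarith))) (O_mul' O_el xf (by linarith))
    convert this using 1
    have k : M.X (M.X M.f) + 2 * M.la * M.X M.f + (M.X M.la + M.la * M.la + M.ct) * M.f
        = (M.X (M.X M.f + M.la * M.f) + M.la * (M.X M.f + M.la * M.f)) + M.ct * M.f := by
      rw [map_add, M.X_mul]; ring
    rw [k, map_add M.I, ← M.X_I, ← M.X_I, M.Sct.I, map_add M.I, ← M.X_I, I_of_S M.Sct.1, G,
      T_apply, map_sub, M.X_mul, ← el]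
    ring
  have x : M.X (M.I (M.y * M.A0)) - -s * M.I (M.y * M.A0) ∈ M.O (n + 2) := by
    have := sub_mem (add_mem (O_mul' l' hf (show n + 2 ≤ _ by linarith))
      (O_le (O_ymul xf) (by linarith)))
      (O_I' (add_mem xf (O_mul' l hf (by linarith))) (by linarith))
    convert this using 1
    rw [G, map_sub, M.X_mul, X_y, M.X_I, add_mul M.la, ← add_assoc, map_add M.I _ (s * _), Ss.I]
    ring
  obtain ⟨ρ, oρ, eρ⟩ := O_dv (m := 3 / 2) (by norm_num) (O_le (r1_O hE hT hD h r) (by norm_num))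
  have dρ : M.δ ρ = 0 :=
    M.y_reg _ (by rw [← y]; simpa [M.δ_mul, δ_r1] using congrArg M.δ eρ)
  have cρ : M.cj ρ = ρ := sub_eq_zero.1 (M.y_reg _ (by
    have := congrArg M.cj eρ
    rw [map_mul, cj_y, cj_r1, ← eρ] at this
    rw [mul_sub, ← y, this, sub_self]))
  have ca : M.cj a = a := by rw [ha, map_add, map_mul, map_mul, map_ofNat, cj_el, cj_pq, M.sys.rW]
  obtain ⟨κ, hκ⟩ : ∃ κ, κ = M.ev a * M.ev (M.δ M.W) - M.ev (M.δ a) * M.ev M.W := ⟨_, rfl⟩
  have p := O_le (hE M _ (by norm_num) M.f_O).2.1 (show 1 ≤ _ by norm_num)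
  have V1 := V_one hT M
  have W1 : M.W - M.re (M.z * M.e) ∈ M.O 1 := by
    convert add_mem (O_rez V1) p using 1
    rw [mul_sub, re_sub, Ph]; ring
  have a1 : a - M.re (M.z * (2 * M.q)) ∈ M.O 1 := by
    convert add_mem (Ideal.mul_mem_right M.W _ O_el) (Ideal.mul_mem_left _ 2 (O_T1 M.W)) using 1
    rw [ha, pq, mul_left_comm M.z, re_mul (map_ofNat _ 2), q]; ring
  have q2 := (S.two.mul M.Sq).2
  have W2 := O_ev W1
  have W3 := O_ev (O_δ W1)
  have a2 := O_ev a1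
  have a3 := O_ev (O_δ a1)
  rw [map_sub, ev_rez M.Se.2] at W2
  rw [map_sub, map_sub, δ_rez M.Se.2, ev_rez (M.Se.smul _).2] at W3
  rw [map_sub, ev_rez q2] at a2
  rw [map_sub, map_sub, δ_rez q2, ev_rez ((S.two.mul M.Sq).smul _).2] at a3
  have k1 : κ - M.c • M.wd M.e M.q ∈ M.O 1 := by
    have := sub_mem (add_mem (Ideal.mul_mem_right (M.ev (M.δ M.W)) _ a2)
      (Ideal.mul_mem_left _ (M.re (2 * M.q)) W3)) (add_mem (Ideal.mul_mem_right (M.ev M.W) _ a3)
      (Ideal.mul_mem_left _ (M.re (M.c • (2 * M.q))) W2))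
    convert this using 1
    have : M.c • M.wd M.e M.q = M.re (2 * M.q) * M.re (M.c • M.e)
        - M.re (M.c • (2 * M.q)) * M.re M.e := by
      simp only [re, wd, map_ofNat, two_smul', M.cj_smul, M.c_im, smul_mul_assoc,
        mul_smul_comm, add_mul, mul_add, smul_add, smul_sub, mul_comm M.q, mul_comm (M.cj M.q)]
      module
    rw [this, hκ]; ring
  have g : M.I (M.y * M.A0) ∈ M.O (n + 2) := by
    refine coO (θ := 1 / 2) (ρ := M.ev a * ρ) (b := -(κ * M.ct))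
      (b₀ := -(M.c • M.wd M.e M.q * M.ct)) (by norm_num) (by simp [M.δ_mul, δ_A0])
      (by simp [M.δ_mul, M.δ_ev, dρ]) (by simp [hκ, M.δ_mul, M.δ_ev, M.Sct.2])
      (by rw [map_mul, M.cj_ev, ca, cρ])
      (by simp only [hκ, map_neg, map_mul, map_sub, M.cj_ev, M.cj_δ, ca, M.sys.rW, cj_ct h])
      ((unit_smul M.c_ne u).mul (ct_unit h u r)).neg
      (Ideal.mul_mem_left _ _ (O_le oρ (by norm_num))) ?_
      (M.U_I _ (Ideal.mul_mem_left _ _ M.A0_U)) ?_ x
    · convert neg_mem (Ideal.mul_mem_right M.ct _ (O_le k1 (show 1 / 2 ≤ _ by norm_num))) using 1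
      ring
    · have d1 : M.ev (M.δ (M.X (M.T (M.I M.A)))) ∈ M.O (n + 2) := by
        rw [M.δ_X, δ_T]; exact O_ev (O_X (O_T' dA (by linarith)))
      have d2 : M.ev (M.δ (M.X (M.I M.A))) ∈ M.O (n + 2) := by rw [M.δ_X]; exact O_ev (O_X dA)
      have := sub_mem (Ideal.mul_mem_left _ (M.ev a) (sub_mem (Ideal.mul_mem_left _ (M.ev a) d2)
        (Ideal.mul_mem_left _ (M.ev M.W) d1))) (Ideal.mul_mem_left _ κ t)
      convert this using 1
      rw [← r1, ← eρ, ← A0] at e1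
      rw [hκ]
      linear_combination M.ev a * e1 - M.ev (M.δ a) * e0
  have i := fuO (a := M.f) (μ := 1) (m := 5 / 2) (by norm_num) (M.U_I _ M.f_U)
    (O_I' M.f_O (by norm_num)) (by rwa [Complex.ofReal_one, one_smul, ← G])
  refine O_div' (n := n + 2) ?_ (by linarith)
  simpa [G] using add_mem g i

end XTc

theorem rowTc : OfTc := by
  intro hE hT hD _ M h u r m
  have k : ∀ j : ℕ, M.f ∈ M.O j := fun j => by
    induction j with
    | zero => simpa using O_0 _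
    | succ j ih => exact_mod_cast XTc.step hE hT hD h u r j.cast_nonneg ih
  obtain ⟨j, hj⟩ := exists_nat_ge m
  exact O_le (k j) hj

end Pool.Agent.MP_ed9623_an.R10
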