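import Pool.Agent.MP_ed9623_an.R10.Base4

/-! The Fuchsian case of the first order. -/

namespace Pool.Agent.MP_ed9623_an.R10

open FA Mdl

namespace XTr1

variable {M M' : Mdl} {φ : M.R →ₐ[ℂ] M'.R} {N : ℝ}

theorem sol (u : IsUnit (M.wd M.l M.q)) (r : M.R) : M.l * M.sx r - 2 * M.q * M.sx' r = r := by
  have e := Ring.mul_inverse_cancel _ u
  have w : ∀ a b, M.wd a b = a * M.cj b - M.cj a * b := fun _ _ => rfl
  rw [sx, sx', mul_smul_comm, mul_assoc 2, half_two, w r, w r]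
  linear_combination r * e - r * Ring.inverse (M.wd M.l M.q) * w M.l M.q

theorem cj_mu (u : IsUnit (M.wd M.l M.q)) : M.cj M.mu = M.mu := by
  have e : M.mu * M.wd M.l M.q = M.wd (M.k * M.e) M.q := by
    rw [mu, sx, mul_assoc, Ring.inverse_mul_cancel _ u, mul_one]
  have e' := congrArg M.cj e
  rw [map_mul, cj_wd, cj_wd] at e'
  exact u.mul_right_cancel (by linear_combination -e - e')

theorem hom_dj (H : Hom M M' φ) (u : IsUnit (M.wd M.l M.q)) (n : ℂ) {p : M.R × M.R}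
    {p' : M'.R × M'.R} (e : (φ p.1, φ p.2) = p') :
    φ ((M.dj M.ga).E0 n p) = (M'.dj M'.ga).E0 n p' ∧ φ ((M.dj M.ga).E1 n p) = (M'.dj M'.ga).E1 n p' ∧
      (φ ((M.dj M.ga).st n p).1, φ ((M.dj M.ga).st n p).2) = (M'.dj M'.ga).st n p' :=
  e ▸ DJ.map_st φ H.X H.g H.k H.w H.wi H.u1 H.h H.q H.e H.l H.f3 H.m2 (H.ga u) n p

theorem S_dj (n : ℂ) {p : M.R × M.R} (h : M.S p.1 ∧ M.S p.2) :
    M.S ((M.dj M.ga).E0 n p) ∧ M.S ((M.dj M.ga).E1 n p) ∧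
      M.S ((M.dj M.ga).st n p).1 ∧ M.S ((M.dj M.ga).st n p).2 := by
  obtain ⟨a₁, a₂, a₃⟩ := DJ.map_st M.bv (J := M.dj M.ga) (J' := M.dj M.ga)
    (fun a => (M.X_bv a).symm) M.Sg.1 M.Sk.1 M.Sw.1 M.Swi.1 M.Su1.1 M.Sh.1 M.Sq.1 M.Se.1 M.Sl.1
    M.Sf3.1 M.Sm2.1 M.Sga.1 n p
  obtain ⟨b₁, b₂, b₃⟩ := DJ.map_st M.ev (J := M.dj M.ga) (J' := M.dj M.ga)
    M.ev_X M.Sg.ev M.Sk.ev M.Sw.ev M.Swi.ev M.Su1.ev M.Sh.ev M.Sq.ev M.Se.ev M.Sl.ev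
    M.Sf3.ev M.Sm2.ev M.Sga.ev n p
  rw [h.1.1, h.2.1] at a₁ a₂ a₃
  rw [h.1.ev, h.2.ev] at b₁ b₂ b₃
  have d : ∀ a, M.ev a = a → M.δ a = 0 := fun a e => e ▸ M.δ_ev a
  exact ⟨⟨a₁, d _ b₁⟩, ⟨a₂, d _ b₂⟩, ⟨congrArg Prod.fst a₃, d _ (congrArg Prod.fst b₃)⟩,
    congrArg Prod.snd a₃, d _ (congrArg Prod.snd b₃)⟩

/-- The resonant branch of the tree. -/
def Rs (N : ℝ) (M : Mdl) : Prop := IsUnit (M.wd M.l M.q) ∧ M.mu = algebraMap ℂ _ N ∧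
  M.sx' (M.rr N) = M.X (M.sx (M.rr N))

theorem Rs.hom (H : Hom M M' φ) (h : Rs N M) : Rs N M' :=
  ⟨by simpa only [H.wd, H.l, H.q] using h.1.map φ, by rw [← H.mu h.1, h.2.1, AlgHom.commutes],
    by rw [← H.rr h.1, ← H.sx' h.1, ← H.sx h.1, ← H.X, h.2.2]⟩

/-- The first harmonic solves the symbol equations. -/
theorem Rs.first (h : Rs N M) : (M.dj M.ga).E0 N (1, M.sx (M.rr N)) = 0 ∧
    (M.dj M.ga).E1 N (1, M.sx (M.rr N)) = 0 := by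
  have a := sol h.1 (M.k * M.e)
  have b := sol h.1 (M.rr N)
  rw [← mu, ← ga, h.2.1] at a
  rw [h.2.2] at b
  have r : M.rr N = M.k * M.f3 + 2 * M.X M.e * M.ga - (N / 2 : ℂ) • M.m2
    - (N + 1 : ℂ)⁻¹ • (M.e * (M.X M.ga + M.ga ^ 2)) := rfl
  generalize M.sx (M.rr N) = s at *
  simp only [DJ.E0, DJ.E1, DJ.d, dj, X_one, mul_one, zero_add, Algebra.smul_def, map_add,
    map_one] at r ⊢
  exact ⟨by linear_combination a, by linear_combination s * a + b + r⟩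

end XTr1

open XTr1 in
theorem rowTr1 : OfTr1 := by
  intro hG h0 h1 hC hB1 hB2 hR hN hL P hP M p q u hk
  have fin : ∀ M, P M → IsUnit (M.wd M.l M.q) → M.Fl M.f → ∃ M', P M' ∧ M'.Sm :=
    fun M p u f => hL P hP M p 1 _ (M.Sl.wd M.Sq) (unit_ne u) (hN M) f
  have m0 : ∀ M, P M → IsUnit (M.wd M.l M.q) →
      (IsUnit (M.X M.mu) ∨ ∃ N : ℝ, N < 3 / 2 ∧ M.mu = algebraMap ℂ _ N) → ∃ M', P M' ∧ M'.Sm :=
    fun M p u c => fin M p u (h0 M 1 _ _ one_pos le_rfl M.Smu M.Sga (hB1 M u) c)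
  rcases hP.dich p M.Smu.X with e | ⟨M₁, φ, H, p₁, u₁⟩
  swap
  · exact m0 M₁ p₁ (by simpa only [H.wd, H.l, H.q] using u.map φ) (Or.inl (by
      rwa [H.X, H.mu u] at u₁))
  obtain ⟨N, eN⟩ := M.Smu.real (cj_mu u) e
  rcases lt_or_ge N (3 / 2) with c | c
  · exact m0 M p u (Or.inr ⟨N, c, eN⟩)
  obtain k | ⟨k, v⟩ := hk
  · exact m0 M p u (Or.inr ⟨0, by norm_num, by simp [mu, sx, wd, k]⟩)
  have s₁ : ∀ M : Mdl, M.S (M.sx (M.rr N)) := fun M => M.Ssx (M.Srr N)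
  rcases hP.dich p ((M.Ssx' (M.Srr N)).sub (s₁ M).X) with e₁ | ⟨M₁, φ, H, p₁, u₁⟩
  swap
  · have w : IsUnit (M₁.wd M₁.l M₁.q) := by simpa only [H.wd, H.l, H.q] using u.map φ
    have e₂ : M₁.mu = algebraMap ℂ _ N := by rw [← H.mu u, eN, AlgHom.commutes]
    rw [map_sub, H.X, H.sx' u, H.sx u, H.rr u] at u₁
    exact fin M₁ p₁ w (h1 M₁ N _ _ _ c (s₁ M₁) M₁.Sga (M₁.Ssx' (M₁.Srr N))
      (e₂ ▸ hB2 M₁ N w c e₂) u₁)
  have r : Rs N M := ⟨u, eN, sub_eq_zero.1 e₁⟩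
  by_contra no
  have van : ∀ (n : ℂ) (f : ∀ M : Mdl, M.R × M.R), (M.S (f M).1 ∧ M.S (f M).2) →
      (∀ M' φ, Hom M M' φ → (φ (f M).1, φ (f M).2) = f M') →
      (∀ M, n = N + 2 ∧ f M = (M.dj M.ga).st N (1, M.sx (M.rr N)) ∨ n = N + 4 ∧
        f M = (M.dj M.ga).st (N + 2) ((M.dj M.ga).st N (1, M.sx (M.rr N)))) →
      (M.dj M.ga).E0 n (f M) = 0 ∧ (M.dj M.ga).E1 n (f M) = 0 := by
    intro n f s nat hf
    have g : ∀ M' φ, Hom M M' φ → P M' → (∀ (m : ℝ) (a b : M'.R), a = φ ((M.dj M.ga).E0 n (f M)) →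
        b = φ ((M.dj M.ga).E1 n (f M)) → M'.f ∈ M'.O m →
        (a + (b - M'.sx (M'.rr N) * a) * M'.y) * M'.f ∈ M'.O (m + 3 / 2) →
        M'.f ∈ M'.O (m + 1 / 2)) → False := by
      intro M' φ H p' t
      have r' := r.hom H
      have F := hB2 M' N r'.1 c r'.2.1
      rw [r'.2.1, r'.2.2] at F
      refine no (fin M' p' r'.1 (hG M' _ (1 / 2) _ _ _ _ (by norm_num) (by norm_num) F
        fun m hm h => t m _ _ (hom_dj H u n (nat M' φ H)).1.symm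
          (hom_dj H u n (nat M' φ H)).2.1.symm (M'.f_of h) ?_))
      exact hC M' _ N _ _ (by norm_num) le_rfl c (s₁ M') M'.Sga F m hm h n _ (hf M')
    have e₀ := (hP.dich p (S_dj n s).1).resolve_right fun ⟨M', φ, H, p', w⟩ =>
      g M' φ H p' fun m a b ea _ o t => O_unit (ea ▸ w : IsUnit a) (by
        have := sub_mem (O_le t (show m + 1 / 2 ≤ _ by linarith)) (Ideal.mul_mem_left _
          (b - M'.sx (M'.rr N) * a) (O_le (O_ymul o) (by linarith)))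
        convert this using 1
        ring)
    refine ⟨e₀, (hP.dich p (S_dj n s).2.1).resolve_right fun ⟨M', φ, H, p', w⟩ =>
      g M' φ H p' fun m a b ea eb _ t => ?_⟩
    rw [ea, e₀, map_zero, mul_zero, sub_zero, zero_add, mul_assoc] at t
    exact O_div' (O_unit (eb ▸ w : IsUnit b) t) (by linarith)
  have n₀ : ∀ M' (φ : M.R →ₐ[ℂ] M'.R), Hom M M' φ →
      (φ 1, φ (M.sx (M.rr N))) = (1, M'.sx (M'.rr N)) := fun M' φ H => by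
    rw [map_one, H.sx u, H.rr u]
  have s₂ := (S_dj (N : ℂ) (p := (1, M.sx (M.rr N))) ⟨S.one, s₁ M⟩).2.2
  refine hR M N (M.sx (M.rr N)) M.ga k v q c ?_
  rintro n _ (⟨rfl, rfl⟩ | ⟨rfl, rfl⟩ | ⟨rfl, rfl⟩)
  · exact r.first
  · exact van _ (fun M => (M.dj M.ga).st N (1, M.sx (M.rr N))) s₂
      (fun M' φ H => (hom_dj H u _ (n₀ M' φ H)).2.2) fun _ => Or.inl ⟨rfl, rfl⟩
  · exact van _ (fun M => (M.dj M.ga).st (N + 2) ((M.dj M.ga).st N (1, M.sx (M.rr N))))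
      (S_dj _ s₂).2.2 (fun M' φ H => (hom_dj H u _ (hom_dj H u _ (n₀ M' φ H)).2.2).2.2)
      fun _ => Or.inr ⟨rfl, rfl⟩

end Pool.Agent.MP_ed9623_an.R10
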