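import Pool.Agent.MP_ed9623_an.R10.Base4

/-! The Fuchsian cases on a straight arc. -/

namespace Pool.Agent.MP_ed9623_an.R10

open FA Mdl

namespace XTr3

/-- The coefficient of the third harmonic. -/
noncomputable def pp (M : Mdl) (N : ℝ) (γ : M.R) : M.R :=
  M.h ^ 2 * (M.X γ + γ ^ 2) - ((2 * N ^ 2 + N - 2) / 2 : ℂ) • (M.r0 * M.h * M.q)
    + (N ^ 2 - 1 : ℂ) • M.q ^ 2

theorem Spp (M : Mdl) (N : ℝ) {γ : M.R} (h : M.S γ) : M.S (pp M N γ) :=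
  (((M.Sh.pow 2).mul (h.X.add (h.pow 2))).sub (((M.Sr0.mul M.Sh).mul M.Sq).smul _)).add
    ((M.Sq.pow 2).smul _)

theorem E0_eq {M : Mdl} (s : M.St) (N : ℝ) :
    (M.dj ((N / 2 : ℂ) • M.r0)).E0 (N + 2) ((M.dj ((N / 2 : ℂ) • M.r0)).st N (1, 0))
      = (2 * ((N + 2 : ℂ)⁻¹ * (N + 1 : ℂ)⁻¹)) • (M.r0 * M.q * (M.u1 * M.u1)) := by
  simp only [DJ.E0, DJ.st, DJ.x0, DJ.n0, DJ.o0, DJ.d, dj, s.k, s.wi, s.l, s.X_q, map_smul, one_pow,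
    one_mul, mul_one, M.X_mul, s.X_u1]
  algebra

end XTr3

open XTr3 in
theorem rowTr3 : OfTr3 := by
  intro hG h0 hC h2 hL P n hP nat hy M p
  have fin : ∀ M, P M → M.Fl M.f → ∃ M', P M' ∧ (M'.Sm ∨ M'.u1 = 0 ∧
      ∃ N : ℝ, 3 / 2 ≤ N ∧ n M' = algebraMap ℂ _ N ∧ M'.H3 N) := fun M p fl =>
    let ⟨_, _, _, _, j, r, s, r0, o⟩ := hy M p
    let ⟨M', p', o⟩ := hL P hP M p j r s r0 o fl
    ⟨M', p', Or.inl o⟩
  have mu : ∀ M, P M → (IsUnit (M.X (n M)) ∨ ∃ N : ℝ, N < 3 / 2 ∧ n M = algebraMap ℂ _ N) →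
      M.Fl M.f := fun M p =>
    let ⟨_, s, _, f, _⟩ := hy M p
    h0 M _ _ _ (by norm_num) (by norm_num) s ((s.mul M.Sr0).smul _) f
  have fu : ∀ M, P M → ∀ N : ℝ, n M = algebraMap ℂ _ N →
      M.Fu (1 / 2) (algebraMap ℂ _ N) 0 ((N / 2 : ℂ) • M.r0) 0 := fun M p N e => by
    have := (hy M p).2.2.2.1
    rwa [e, show (2⁻¹ : ℂ) • (algebraMap ℂ M.R N * M.r0) = (N / 2 : ℂ) • M.r0 by algebra] at this
  obtain ⟨s, sn, cn, -⟩ := hy M p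
  rcases hP.dich p sn.X with e | ⟨M₁, φ, H, p₁, u₁⟩
  swap
  · rw [H.X, nat M M₁ φ p p₁ H] at u₁
    exact fin M₁ p₁ (mu M₁ p₁ (Or.inl u₁))
  obtain ⟨N, hN⟩ := sn.real cn e
  rcases lt_or_ge N (3 / 2) with c | c
  · exact fin M p (mu M p (Or.inr ⟨N, c, hN⟩))
  rcases hP.dich p M.Su1 with z | ⟨M₁, φ, H, p₁, u₁⟩
  · have sp := Spp M N (M.Sr0.smul (N / 2 : ℂ))
    rcases hP.dich p (sp.X.sub ((S.two.mul M.Sr0).mul sp)) with e₁ | ⟨M₁, φ, H, p₁, u₁⟩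
    · refine ⟨M, p, Or.inr ⟨z, N, c, hN, ?_⟩⟩
      rintro _ _ rfl rfl
      exact sub_eq_zero.1 e₁
    have n₁ : n M₁ = algebraMap ℂ _ N := by rw [← nat M M₁ φ p p₁ H, hN, AlgHom.commutes]
    have e₂ : φ (pp M N ((N / 2 : ℂ) • M.r0)) = pp M₁ N ((N / 2 : ℂ) • M₁.r0) := by
      simp [pp, H.h, H.X, H.q, H.r0 s.2.1]
    rw [map_sub, H.X, map_mul, map_mul, e₂, H.r0 s.2.1, map_ofNat] at u₁
    exact fin M₁ p₁ (hG M₁ _ (1 / 2) _ _ _ _ (by norm_num) le_rfl (fu M₁ p₁ N n₁) fun m hm a =>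
      O_unit u₁ (h2 M₁ N _ _ (H.St s) (by rw [← H.u1, z, map_zero]) c rfl (fu M₁ p₁ N n₁) rfl
        m hm a))
  have n₁ : n M₁ = algebraMap ℂ _ N := by rw [← nat M M₁ φ p p₁ H, hN, AlgHom.commutes]
  have s₁ := H.St s
  rw [H.u1] at u₁
  refine fin M₁ p₁ (hG M₁ _ (1 / 2) _ _ _ _ (by norm_num) le_rfl (fu M₁ p₁ N n₁) fun m hm a => ?_)
  have k := hC M₁ (1 / 2) N 0 _ (by norm_num) (by norm_num) c S.zero (M₁.Sr0.smul (N / 2 : ℂ))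
    (by simpa only [map_zero] using fu M₁ p₁ N n₁) m hm a _ _ (Or.inl ⟨rfl, rfl⟩)
  rw [add_mul, mul_assoc, E0_eq s₁] at k
  have a₂ : (N + 2 : ℂ) ≠ 0 := by exact_mod_cast (show N + 2 ≠ 0 by linarith)
  have a₁ : (N + 1 : ℂ) ≠ 0 := by exact_mod_cast (show N + 1 ≠ 0 by linarith)
  refine O_unit (unit_smul (mul_ne_zero two_ne_zero (mul_ne_zero (inv_ne_zero a₂) (inv_ne_zero a₁)))
    ((s₁.r0_unit.mul s₁.2.1).mul (u₁.mul u₁))) ?_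
  have o : M₁.y * M₁.f ∈ M₁.O (m + 1 / 2) := O_le (O_ymul (M₁.f_of a)) (by linarith)
  exact (Submodule.add_mem_iff_left _ (Ideal.mul_mem_left _ _ o)).1 k

end Pool.Agent.MP_ed9623_an.R10
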