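import Pool.Agent.MP_ed9623_an.R10.Base4

/-! The case tree on curved arcs. -/

namespace Pool.Agent.MP_ed9623_an.R10

open FA Mdl

namespace XTrK

theorem sy_mul {F : FA} {r : F.R} (h : F.cj r = r) (a b : F.R) :
    F.sy a (r * b) = r * F.sy a b ∧ F.sy (r * a) b = r * F.sy a b := by
  simp only [sy, map_mul, h]
  constructor <;> ring

theorem no {M : Mdl} (q : IsUnit M.q) (k : IsUnit M.k) (e₁ : M.wd M.l M.q = 0)
    (e₂ : M.wd M.e M.q = 0) : False := by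
  have n := q.mul (q.map M.cj)
  have r : M.cj M.r0 = M.r0 := by
    rw [Mdl.l, X_q q, wd, map_sub, map_mul, map_mul, M.cj_k] at e₁
    rw [wd] at e₂
    exact n.mul_right_cancel (by linear_combination -e₁ - M.k * e₂)
  have a₀ : M.sy M.u M.q = 0 := by
    refine of_smul M.c_ne ?_
    have w := M.w_e
    have w' := congrArg M.cj w
    rw [map_mul, map_add, map_mul, map_mul, M.cj_w, M.cj_g, map_ofNat] at w'
    rw [← wd_c, wd]
    rw [wd] at e₂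
    linear_combination M.w * e₂ - M.cj M.q * w + M.q * w'
  have st : ∀ a, M.sy a M.q = 0 → M.sy (M.X a) M.q = 0 := fun a h => by
    have := X_sy a M.q
    rwa [h, map_zero, X_q q, (sy_mul r _ _).1, h, mul_zero, add_zero, eq_comm] at this
  have a₁ := st _ (st _ a₀)
  rw [← Mdl.u1, M.X_u1, (sy_mul M.cj_k _ _).2] at a₁
  have a₂ := st _ (k.mul_right_eq_zero.1 a₁)
  rw [← Mdl.q, sy] at a₂
  exact unit_ne n (of_smul two_ne_zero (by rw [two_smul]; linear_combination a₂))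

end XTrK

theorem rowTrK : OfTrK := by
  intro h2 hN hL h1 P hP M p q k
  rcases hP.dich p (M.Sl.wd M.Sq) with e | ⟨M₁, φ, H, p₁, u₁⟩
  · obtain ⟨M₁, φ, H, p₁, u₁⟩ := (hP.dich p (M.Se.wd M.Sq)).resolve_left (XTrK.no q k e)
    rw [H.wd, H.e, H.q] at u₁
    have e₁ : M₁.wd M₁.l M₁.q = 0 := by rw [← H.l, ← H.q, ← H.wd, e, map_zero]
    have k₁ : IsUnit M₁.k := H.k ▸ k.map φ
    have fl := h2 M₁ e₁ k₁ u₁
    rcases hN M₁ fl with o | ⟨j, r, s, r0, o⟩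
    · exact ⟨M₁, p₁, Or.inr ⟨H.q ▸ q.map φ, e₁, u₁, Or.inl k₁, o⟩⟩
    · obtain ⟨M', p', o⟩ := hL P hP M₁ p₁ j r s r0 o fl
      exact ⟨M', p', Or.inl o⟩
  · rw [H.wd, H.l, H.q] at u₁
    have k₁ : IsUnit M₁.k := H.k ▸ k.map φ
    obtain ⟨M₂, φ₂, H₂, p₂, u₂⟩ := (hP.dich p₁ M₁.Su1).resolve_left fun e => M₁.q_ne (by
      have := M₁.X_u1
      rw [e, map_zero, eq_comm, k₁.mul_right_eq_zero] at this
      rw [Mdl.q, this, map_zero])
    obtain ⟨M', p', o⟩ := h1 P hP M₂ p₂ (H₂.q ▸ (H.q ▸ q.map φ : IsUnit M₁.q).map φ₂)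
      (by simpa only [H₂.wd, H₂.l, H₂.q] using u₁.map φ₂) (Or.inr ⟨H₂.k ▸ k₁.map φ₂, H₂.u1 ▸ u₂⟩)
    exact ⟨M', p', Or.inl o⟩

end Pool.Agent.MP_ed9623_an.R10
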