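import Pool.Agent.MP_ed9623_an.R10.Base4

/-! The case tree on straight arcs. -/

namespace Pool.Agent.MP_ed9623_an.R10

open FA Mdl

namespace XTrS

variable {M : Mdl}

theorem cj_ct (h : M.St) : M.cj M.ct = M.ct := by
  simp [Mdl.ct, M.cj_smul, M.cj_X, h.cj_r0, map_ofNat]

theorem cj_rh2 (h : M.St) : M.cj M.rh2 = -M.rh2 := by
  simp only [Mdl.rh2, rh, map_add, M.cj_smul, map_mul, map_pow, cj_wd, h.cj_r0, map_neg, map_ofNat,
    map_inv₀, map_zero]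
  algebra

theorem cj_rh3 (h : M.St) : M.cj M.rh3 = M.rh3 := by
  simp only [Mdl.rh3, rh, map_add, M.cj_smul, map_mul, map_pow, cj_sy, h.cj_r0, map_neg, map_ofNat,
    map_inv₀, M.cj_cj]
  algebra

theorem rh3_eq (M : Mdl) :
    M.rh3 = (12⁻¹ : ℂ) • (M.r0 * (3 * M.r0 * M.sy M.h M.q - 8 * (M.q * M.cj M.q))) := by
  rw [Mdl.rh3, rh]
  algebra

theorem Srh2 (M : Mdl) : M.S M.rh2 :=
  M.Srh (M.Se.wd M.Sq) (S.two.neg.mul (M.Se.X.wd M.Sq)) S.zero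

theorem Srh3 (M : Mdl) : M.S M.rh3 :=
  M.Srh (M.Sh.sy M.Sq) (S.two.neg.mul (M.Sq.mul M.Sq.cj)) ((M.Sr0.mul (M.Sq.mul M.Sq.cj)).smul _)

theorem n2_eq (u : IsUnit M.rh2) : (M.n2 + 1) * M.rh2 = -(M.wd M.e M.q * M.ct) := by
  rw [Mdl.n2]
  linear_combination -(M.wd M.e M.q * M.ct) * Ring.inverse_mul_cancel _ u

theorem n3_eq (u : IsUnit M.rh3) : (M.n3 + 1) * M.rh3 = -(M.sy M.h M.q * M.ct) := by
  rw [Mdl.n3]
  linear_combination -(M.sy M.h M.q * M.ct) * Ring.inverse_mul_cancel _ u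

theorem cj_n2 (h : M.St) (u : IsUnit M.rh2) : M.cj M.n2 = M.n2 := by
  have e := n2_eq u
  have e' := congrArg M.cj e
  rw [map_mul, map_add, map_one, map_neg, map_mul, cj_wd, cj_ct h, cj_rh2 h] at e'
  exact u.mul_right_cancel (by linear_combination -e - e')

theorem cj_n3 (h : M.St) (u : IsUnit M.rh3) : M.cj M.n3 = M.n3 := by
  have e := n3_eq u
  have e' := congrArg M.cj e
  rw [map_mul, map_add, map_one, map_neg, map_mul, cj_sy, cj_ct h, cj_rh3 h] at e'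
  exact u.mul_right_cancel (by linear_combination e' - e)

theorem wd_unit (h : M.St) (u : IsUnit (M.sy M.u M.q)) : IsUnit (M.wd M.e M.q) := by
  rw [h.e, wd_c]
  exact unit_smul M.c_ne u

end XTrS

open XTrS in
theorem rowTrS : OfTrS := by
  intro ha hb hc hT h2 h3 hN hL hF P hP M p s
  rcases hP.dich p (M.Su.sy M.Sq) with e | ⟨M₁, φ, H, p₁, u₁⟩
  · rcases hP.dich p (Srh3 M) with e₁ | ⟨M₁, φ, H, p₁, u₁⟩
    · refine ⟨M, p, Or.inr (Or.inl ⟨s, e, sub_eq_zero.1 (s.r0_unit.mul_right_eq_zero.1 ?_)⟩)⟩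
      exact of_smul (by norm_num) ((rh3_eq M).symm.trans e₁)
    obtain ⟨M', ⟨p', s', e', u'⟩, o⟩ := hF
      (fun M => P M ∧ M.St ∧ M.sy M.u M.q = 0 ∧ IsUnit M.rh3) Mdl.n3
      (hP.and fun M M' φ _ _ H q => ⟨H.St q.1, by rw [← H.u, ← H.q, ← H.sy, q.2.1, map_zero],
        H.rh3 q.1.2.1 ▸ q.2.2.map φ⟩)
      (fun M M' φ q _ H => H.n3 q.2.1.2.1 q.2.2.2)
      (fun M ⟨_, s, e, u⟩ => ⟨s, (((M.Sh.sy M.Sq).mul M.Sct).mul (Srh3 M).inv).neg.sub S.one,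
        cj_n3 s u, hc M _ _ _ _ s (M.Sh.sy M.Sq) (S.two.neg.mul (M.Sq.mul M.Sq.cj))
          ((M.Sr0.mul (M.Sq.mul M.Sq.cj)).smul _) (hb M s e) u rfl,
        3, _, Srh3 M, unit_ne u, h3 M s e⟩) M₁
      ⟨p₁, H.St s, by rw [← H.u, ← H.q, ← H.sy, e, map_zero], H.rh3 s.2.1 ▸ u₁⟩
    refine ⟨M', p', o.imp_right fun ⟨z, N, hN, n, t⟩ =>
      Or.inr (Or.inr (Or.inl ⟨s', z, e', N, hN, t, ?_, ?_⟩))⟩
    · rw [rh3_eq, Algebra.smul_def] at u'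
      exact isUnit_of_mul_isUnit_right (isUnit_of_mul_isUnit_right u')
    · have := n3_eq u'
      rw [n, rh3_eq, Mdl.ct] at this
      linear_combination (norm := algebra) 12 * this
  · rw [H.sy, H.u, H.q] at u₁
    have s₁ := H.St s
    have v₁ := wd_unit s₁ u₁
    rcases hP.dich p₁ (Srh2 M₁) with e₁ | ⟨M₂, φ₂, H₂, p₂, u₂⟩
    · have fl := hT M₁ s₁ v₁ e₁
      rcases hN M₁ fl with o | ⟨j, r, s, r0, o⟩
      · refine ⟨M₁, p₁, Or.inr (Or.inr (Or.inr (Or.inr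
          ⟨s₁.2.1, s₁.l ▸ s₁.2.2.2, v₁, Or.inr ?_, o⟩)))⟩
        have e₂ : 2 * M₁.q * M₁.wd (M₁.X M₁.e) M₁.q - M₁.l * M₁.wd M₁.e M₁.q
            = (-2⁻¹ : ℂ) • (M₁.r0 * M₁.q * M₁.wd M₁.e M₁.q) := by
          rw [Mdl.rh2, rh] at e₁
          rw [s₁.l, s₁.X_q]
          exact s₁.r0_unit.mul_right_cancel (by
            linear_combination (norm := algebra) -(2 * M₁.q) * e₁)
        rw [e₂]
        exact unit_smul (by norm_num) ((s₁.r0_unit.mul s₁.2.1).mul v₁)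
      · obtain ⟨M', p', o⟩ := hL P hP M₁ p₁ j r s r0 o fl
        exact ⟨M', p', Or.inl o⟩
    obtain ⟨M', ⟨p', s', e', u'⟩, o⟩ := hF
      (fun M => P M ∧ M.St ∧ IsUnit (M.sy M.u M.q) ∧ IsUnit M.rh2) Mdl.n2
      (hP.and fun M M' φ _ _ H q => ⟨H.St q.1, by simpa only [H.sy, H.u, H.q] using q.2.1.map φ,
        H.rh2 q.1.2.1 ▸ q.2.2.map φ⟩)
      (fun M M' φ q _ H => H.n2 q.2.1.2.1 q.2.2.2)
      (fun M ⟨_, s, _, u⟩ => ⟨s, (((M.Se.wd M.Sq).mul M.Sct).mul (Srh2 M).inv).neg.sub S.one,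
        cj_n2 s u, hc M _ _ _ _ s (M.Se.wd M.Sq) (S.two.neg.mul (M.Se.X.wd M.Sq)) S.zero (ha M s)
          u rfl, 2, _, Srh2 M, unit_ne u, h2 M s⟩) M₂
      ⟨p₂, H₂.St s₁, by simpa only [H₂.sy, H₂.u, H₂.q] using u₁.map φ₂, H₂.rh2 s₁.2.1 ▸ u₂⟩
    refine ⟨M', p', o.imp_right fun ⟨z, N, hN, n, t⟩ =>
      Or.inr (Or.inl ⟨s', z, e', N, hN, t, ?_⟩)⟩
    have x : M'.wd (M'.X M'.e) M'.q = 0 := by
      rw [s'.e, map_smul, ← Mdl.u1, z]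
      simp [wd]
    have := n2_eq u'
    rw [n, Mdl.rh2, rh, x, Mdl.ct] at this
    exact (wd_unit s' e').mul_right_cancel (by linear_combination (norm := algebra) 4 * this)

end Pool.Agent.MP_ed9623_an.R10
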