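import Pool.Agent.MP_ed9623_an.R10.Base4

/-! The case tree. -/

namespace Pool.Agent.MP_ed9623_an.R10

open FA Mdl

theorem rowTree : OfTree := by
  intro h1 hK hS P hP M p hk
  rcases hP.dich p M.Sk with e | ⟨M₁, φ, H, p₁, u₁⟩
  · obtain ⟨M₁, φ, H, p₁, u₁⟩ := (hP.dich p M.Sq).resolve_left M.q_ne
    have g₁ : M₁.g = 0 := by rw [← H.g, hk e, map_zero]
    rw [H.q] at u₁
    rcases hP.dich p₁ M₁.Sq.X with e₁ | ⟨M₂, φ₂, H₂, p₂, u₂⟩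
    · exact ⟨M₁, p₁, Or.inr (Or.inl ⟨g₁, e₁⟩)⟩
    have g₂ : M₂.g = 0 := by rw [← H₂.g, g₁, map_zero]
    have v₂ : IsUnit M₂.q := H₂.q ▸ u₁.map φ₂
    rw [H₂.X, H₂.q] at u₂
    have k₂ : M₂.k = 0 := by rw [Mdl.k, g₂, map_zero]
    rcases hP.dich p₂ (M₂.Sl.wd M₂.Sq) with e₂ | ⟨M₃, φ₃, H₃, p₃, u₃⟩
    · obtain ⟨M', p', o⟩ := hS P hP M₂ p₂ ⟨g₂, v₂, u₂, by simpa [Mdl.l, k₂] using e₂⟩
      exact ⟨M', p', o.imp_right Or.inr⟩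
    rw [H₃.wd, H₃.l, H₃.q] at u₃
    obtain ⟨M', p', o⟩ := h1 P hP M₃ p₃ (H₃.q ▸ v₂.map φ₃) u₃
      (Or.inl (by rw [← H₃.k, k₂, map_zero]))
    exact ⟨M', p', Or.inl o⟩
  · obtain ⟨M₂, φ₂, H₂, p₂, u₂⟩ := (hP.dich p₁ M₁.Sq).resolve_left M₁.q_ne
    obtain ⟨M', p', o⟩ := hK P hP M₂ p₂ (H₂.q ▸ u₂) (H₂.k ▸ (H.k ▸ u₁ : IsUnit M₁.k).map φ₂)
    exact ⟨M', p', o.imp_right fun o => Or.inr (Or.inr (Or.inr (Or.inr o)))⟩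

end Pool.Agent.MP_ed9623_an.R10
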