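import Pool.Agent.MP_ed9623_an.R10.CDefs
import Pool.Agent.MP_ed9623_an.R46.In

/-! The jets of the half sum below the arc, the data of the chart, Cartesian derivatives. -/

open Filter Topology Set

namespace Pool.Agent.MP_ed9623_an.R10

open H77 (P Q Bx mem_Q isOpen_Q isOpen_Bx)
open R77 (lf)
open R46 (Ix lx ly C1 CC Lv d1 Hq)
open R1 (lc)

namespace XVan

variable {r : ℝ} {B : Set P} {f : P → ℝ}

theorem gd_cc (h : CC r f) (hB : B ⊆ Q r) : Gd B fun p => (f p : ℂ) := by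
  refine ⟨{g | ∃ f, CC r f ∧ g = fun p => (f p : ℂ)}, ⟨f, h, rfl⟩, ?_⟩
  rintro _ ⟨f, h, rfl⟩
  obtain ⟨M, -, hM⟩ := (h 0).hq
  exact ⟨⟨Complex.continuous_ofReal.comp_continuousOn (hM.cont.mono hB), M, fun p hp => by
    simpa using hM.1 p (hB hp)⟩, _, ⟨d1 f, fun k => (h (k + 1)).2.2, rfl⟩,
    fun p hp => ((h 1).2.1 p (hB hp)).ofReal_comp⟩

variable (D : Dat)

theorem ch {F F₁ F₂ : P → ℝ} (h : C1 (Q D.a) F F₁ F₂) : C1 (Q D.r) (fun p => F (D.Ψ p))
    (fun p => F₁ (D.Ψ p) + D.l (D.Ψ p) * F₂ (D.Ψ p)) fun p => F₂ (D.Ψ p) * D.nn p :=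
  (h.comp (G := D.Ψ) (C1.fst _) D.h.out.cY D.h.out.mp).congr_d
    (fun p _ => by simp only [Dat.Ψ]; ring) fun p _ => by simp

theorem nn_pos {p : P} (hp : p ∈ Q D.r) : 0 < D.nn p :=
  let ⟨_, c0, hc⟩ := D.h.out.n0; c0.trans_le (hc p hp)

theorem cc_la : CC D.r D.la := fun k => by
  have o := isOpen_Q D.r
  have j := fun u v e => D.h.out.cJ (.ps 0) u v e k
  have l := D.h.out.cl k
  refine ((((j 2 1 le_rfl).add o ((l.cmul o 2).mul o (j 1 2 le_rfl))).add o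
    ((l.sq o).mul o (j 0 3 le_rfl))).neg o).div o ((D.h.out.cs k).cmul o 2)
    (Real.sqrt_pos.2 D.h.nu.c0) fun p hp => ?_
  have := Real.sqrt_le_sqrt (D.h.nu.alg (D.h.out.mp p hp)).2.1
  rw [Real.sqrt_sq_eq_abs] at this
  rw [abs_mul, abs_two]
  exact this.trans (le_mul_of_one_le_left (abs_nonneg _) one_le_two)

theorem low {F : P → ℝ} (c : ContinuousOn F (Q D.r)) (h : ∀ p ∈ Bx (-D.r) D.r (-D.r) 0, F p = 0)
    {p : P} (hp : p ∈ Q D.r) (h2 : p.2 ≤ 0) : F p = 0 := by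
  rcases h2.lt_or_eq with h2 | h2
  · exact h p ⟨hp.1, hp.2.1, h2⟩
  have t : Tendsto (fun η : ℝ => ((p.1, η) : P)) (𝓝[<] 0) (𝓝 p) :=
    (Continuous.tendsto' (by fun_prop) _ _ (by rw [← h2])).mono_left nhdsWithin_le_nhds
  refine tendsto_nhds_unique ((c.continuousAt ((isOpen_Q _).mem_nhds hp)).tendsto.comp t)
    (tendsto_const_nhds.congr' ?_)
  filter_upwards [Ioo_mem_nhdsLT (show -D.r < 0 by linarith [D.h.out.r0])] with η hη
  exact (h (p.1, η) ⟨hp.1, hη⟩).symm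

theorem inj : InjOn D.Ψ (Q D.r) := fun p hp q hq e => by
  obtain ⟨e1, e2⟩ := Prod.ext_iff.1 e
  have m : StrictMonoOn (fun e => D.Y (p.1, e)) (Ioo (-D.r) D.r) :=
    strictMonoOn_of_deriv_pos (convex_Ioo _ _)
      (fun e he => (D.h.out.cY.d2 (p.1, e) ⟨hp.1, he⟩).continuousAt.continuousWithinAt) fun e he => by
        rw [interior_Ioo] at he
        rw [(D.h.out.cY.d2 (p.1, e) ⟨hp.1, he⟩).deriv]
        exact nn_pos D ⟨hp.1, he⟩
  exact Prod.ext e1 (m.injOn hp.2 hq.2 (e2.trans (congrArg D.Y (Prod.ext e1.symm rfl))))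

theorem of_d {N : Set P} {f g₁ g₂ : P → ℂ} (o : IsOpen N) (h1 : Dx N f g₁)
    (h2 : ∀ p ∈ N, HasDerivAt (fun t => f (p.1, t)) (g₂ p) p.2) (c1 : ContinuousOn g₁ N)
    (c2 : ContinuousOn g₂ N) {p : P} (hp : p ∈ N) : HasFDerivAt f (lc (g₁ p) (g₂ p)) p := by
  have n := o.mem_nhds hp
  have := hasStrictFDerivAt_uncurry_coprod (𝕜 := ℝ) (u := p) (f := fun x y => f (x, y))
    (f₁ := fun x y => ContinuousLinearMap.toSpanSingleton ℝ (g₁ (x, y)))
    (f₂ := fun x y => ContinuousLinearMap.toSpanSingleton ℝ (g₂ (x, y)))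
    (mem_of_superset n fun q hq => (h1 q hq).hasFDerivAt)
    (mem_of_superset n fun q hq => (h2 q hq).hasFDerivAt)
    ((ContinuousLinearMap.toSpanSingletonCLE (𝕜 := ℝ) (E := ℂ)).continuous.continuousAt.comp
      (c1.continuousAt n))
    ((ContinuousLinearMap.toSpanSingletonCLE (𝕜 := ℝ) (E := ℂ)).continuous.continuousAt.comp
      (c2.continuousAt n))
  exact this.hasFDerivAt.congr_fderiv (ContinuousLinearMap.ext fun v => by
    simp [Function.HasUncurry.uncurry])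

end XVan

open XVan

theorem rowVan : OfVan := by
  intro D
  have r0 := D.h.out.r0
  have s : Bx (-D.r) D.r (-D.r) 0 ⊆ Q D.r := fun p hp => ⟨hp.1, hp.2.1, hp.2.2.trans r0⟩
  refine ⟨fun j x y h1 h2 p hp h3 => low D (D.h.out.cJ (.al j) x y h2 0).hq.cont ?_ hp h3,
    fun p hp => ?_, fun b hb => ⟨gd_cc D.h.out.cn hb, gd_cc (cc_la D) hb, ?_, fun p hp => ?_⟩⟩
  · clear hp h3 p
    obtain ⟨k, hk⟩ : ∃ k, x + y = k + 1 := ⟨x + y - 1, by omega⟩
    induction k generalizing x y with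
    | zero =>
      obtain ⟨rfl, rfl⟩ | ⟨rfl, rfl⟩ := R77.one_cases hk
      exacts [fun p hp => (D.h.out.zs p (s hp) hp.2.2.le j).1,
        fun p hp => (D.h.out.zs p (s hp) hp.2.2.le j).2]
    | succ k ih =>
      have key : ∀ u v, u + v = k + 1 → ∀ p ∈ Bx (-D.r) D.r (-D.r) 0,
          D.al' j (u + 1) v (D.Ψ p) = 0 ∧ D.al' j u (v + 1) (D.Ψ p) = 0 := fun u v e p hp => by
        have := ((ch D (D.h.cj.c1 (.al j) u v (by omega))).mono s).zero (isOpen_Bx _ _ _ _)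
          (ih u v (by omega) (by omega) e) hp
        have a := (mul_eq_zero.1 this.2).resolve_right (nn_pos D (s hp)).ne'
        exact ⟨by have b := this.1; rwa [a, mul_zero, add_zero] at b, a⟩
      rcases x with _ | x
      · obtain ⟨y, rfl⟩ : ∃ z, y = z + 1 := ⟨y - 1, by omega⟩
        exact fun p hp => (key 0 y (by omega) p hp).2
      · exact fun p hp => (key x y (by omega) p hp).1
  · exact (ch D (R46.rowNc _ _ _ _ _ _ _ D.h.nu fun u v e =>
      ⟨D.h.cj.c1 (.ps 0) u v (by simp [Ix.ord, e]),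
        D.h.cj.ho (.ps 0) u v (by simp [Ix.ord, e])⟩).1).d2 p hp
  · exact let ⟨c, c0, hc⟩ := D.h.out.n0; ⟨c, c0, fun p hp => hc p (hb hp)⟩
  · exact (D.h.out.dn p (hb hp)).ofReal_comp.congr_deriv (Complex.ofReal_mul _ _)

theorem rowCart : OfCart := by
  intro D
  have o := isOpen_Q D.r
  have li : ∀ p ∈ Q D.r, D.Ξ (D.Ψ p) = p := fun p hp => (inj D).leftInvOn_invFunOn hp
  have mp : ∀ p ∈ Q D.r, map D.Ψ (𝓝 p) = 𝓝 (D.Ψ p) := fun p hp =>
    D.h.out.cY.map_graph o hp (nn_pos D hp).ne'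
  have ct : ∀ p ∈ Q D.r, ContinuousAt D.Ξ (D.Ψ p) := fun p hp => by
    rw [ContinuousAt, li p hp, ← mp p hp, tendsto_map'_iff]
    exact tendsto_id.congr' (mem_of_superset (o.mem_nhds hp) fun q hq => (li q hq).symm)
  refine ⟨li, fun p hp => ⟨mp p hp, ct p hp⟩, fun N f f₁ f₂ oN sN c1 c2 h1 h2 p hp => ?_⟩
  have n0 := (nn_pos D (sN hp)).ne'
  have a := of_d oN h1 h2 (c1.add ((Complex.continuous_ofReal.comp_continuousOn
    ((D.h.out.cl 0).hq.cont.mono sN)).mul c2)) (c2.mul (Complex.continuous_ofReal.comp_continuousOn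
    (D.h.out.cY.c2.mono sN))) hp
  let E : P ≃L[ℝ] P := ContinuousLinearEquiv.equivOfInverse
    ((ContinuousLinearMap.fst ℝ ℝ ℝ).prod (lf (D.l (D.Ψ p)) (D.nn p)))
    ((ContinuousLinearMap.fst ℝ ℝ ℝ).prod (lf (-D.l (D.Ψ p) / D.nn p) (1 / D.nn p)))
    (fun v => Prod.ext rfl (by simp; field_simp; ring))
    fun v => Prod.ext rfl (by simp; field_simp; ring)
  have b : HasFDerivAt D.Ξ (E.symm : P →L[ℝ] P) (D.Ψ p) :=
    HasFDerivAt.of_local_left_inverse (f := D.Ψ) (ct p (sN hp))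
      (by rw [li p (sN hp)]; exact hasFDerivAt_fst.prodMk (D.h.out.cY.fd p (sN hp))) (by
        rw [← mp p (sN hp), eventually_map]
        exact mem_of_superset (o.mem_nhds (sN hp)) fun q hq => congrArg D.Ψ (li q hq))
  rw [← li p (sN hp)] at a
  refine (a.comp _ b).congr_fderiv (ContinuousLinearMap.ext fun v => ?_)
  have n1 : (D.nn p : ℂ) ≠ 0 := Complex.ofReal_ne_zero.2 n0
  simp [E, li p (sN hp)]
  field_simp
  ring

end Pool.Agent.MP_ed9623_an.R10
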