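import Pool.Agent.MP_ed9623_an.R10.Est
import Pool.Agent.MP_ed9623_an.R10.Tay
import Pool.Agent.MP_ed9623_an.R10.Exp
import Pool.Agent.MP_ed9623_an.R10.Har
import Pool.Agent.MP_ed9623_an.R10.Gain
import Pool.Agent.MP_ed9623_an.R10.Mu1
import Pool.Agent.MP_ed9623_an.R10.Ch
import Pool.Agent.MP_ed9623_an.R10.Ch2
import Pool.Agent.MP_ed9623_an.R10.B12
import Pool.Agent.MP_ed9623_an.R10.B3a
import Pool.Agent.MP_ed9623_an.R10.B3b
import Pool.Agent.MP_ed9623_an.R10.B3c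
import Pool.Agent.MP_ed9623_an.R10.T2
import Pool.Agent.MP_ed9623_an.R10.Tc
import Pool.Agent.MP_ed9623_an.R10.Nd
import Pool.Agent.MP_ed9623_an.R10.NdR
import Pool.Agent.MP_ed9623_an.R10.Pf
import Pool.Agent.MP_ed9623_an.R10.RaA
import Pool.Agent.MP_ed9623_an.R10.RaC
import Pool.Agent.MP_ed9623_an.R10.RaB
import Pool.Agent.MP_ed9623_an.R10.Ra
import Pool.Agent.MP_ed9623_an.R10.LvX
import Pool.Agent.MP_ed9623_an.R10.LapF
import Pool.Agent.MP_ed9623_an.R10.Dw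
import Pool.Agent.MP_ed9623_an.R10.SmW
import Pool.Agent.MP_ed9623_an.R10.SmB
import Pool.Agent.MP_ed9623_an.R10.SmA
import Pool.Agent.MP_ed9623_an.R10.Sm
import Pool.Agent.MP_ed9623_an.R10.Loc
import Pool.Agent.MP_ed9623_an.R10.Tr1
import Pool.Agent.MP_ed9623_an.R10.TrK
import Pool.Agent.MP_ed9623_an.R10.Tr3
import Pool.Agent.MP_ed9623_an.R10.TrS
import Pool.Agent.MP_ed9623_an.R10.Tree
import Pool.Agent.MP_ed9623_an.R10.Hb
import Pool.Agent.MP_ed9623_an.R10.RcA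
import Pool.Agent.MP_ed9623_an.R10.Jet
import Pool.Agent.MP_ed9623_an.R10.CFu
import Pool.Agent.MP_ed9623_an.R10.CCo
import Pool.Agent.MP_ed9623_an.R10.CVq
import Pool.Agent.MP_ed9623_an.R10.CRep
import Pool.Agent.MP_ed9623_an.R10.CJet2
import Pool.Agent.MP_ed9623_an.R10.Van
import Pool.Agent.MP_ed9623_an.R10.Mk
import Pool.Agent.MP_ed9623_an.R10.CHom
import Pool.Agent.MP_ed9623_an.R10.Smo
import Pool.Agent.MP_ed9623_an.R10.CVal
import Pool.Agent.MP_ed9623_an.R10.CTz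
import Pool.Agent.MP_ed9623_an.R10.CRs0
import Pool.Agent.MP_ed9623_an.R10.CRcU
import Pool.Agent.MP_ed9623_an.R10.CRc
import Pool.Agent.MP_ed9623_an.R10.CAt

/-! The alternatives along the arc. -/

namespace Pool.Agent.MP_ed9623_an.R10

theorem aAt (cz : R1.CzS) : AtS :=
  ats_of cz (abs_of rowEst rowTay rowExp rowHar rowGain rowMu1 rowCh rowCh2 rowB12 rowB3a rowB3b rowB3c
    rowT2 rowTc rowNd rowNdR rowPf rowRaA rowRaC rowRaB rowRa rowLvX rowLapF rowDw rowSmW rowSmB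
    rowSmA rowSm rowLoc rowTr1 rowTrK rowTr3 rowTrS rowTree rowHb rowRcA)
    rowJet rowFu rowCo rowVq rowRep rowJet2 rowVan rowMk rowHom rowCart rowSmo rowVal rowTz rowRs0
    rowRcU rowRc rowAt

end Pool.Agent.MP_ed9623_an.R10
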