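import Pool.Agent.MP_ed9623_an.R10.Spec
import Pool.Agent.MP_ed9623_an.R10.Base4

/-! The Fuchsian relations on a straight arc, from the two imaginary parts. -/

namespace Pool.Agent.MP_ed9623_an.R10

open FA Mdl

theorem XB3c.eqm {R : Type} [CommRing R] {J : Ideal R} {a b : R} (h : a ∈ J) (e : b = a) :
    b ∈ J := e ▸ h

theorem rowB3c : OfB3c := by
  intro M k₁ k₂ k₃ n _ s₁ s₂ s₃ hI u hn m hm hA
  obtain ⟨o₁, o₂⟩ := hI m hm hA
  have sn : M.S n := hn ▸ ((s₁.mul M.Sct).mul (M.Srh s₁ s₂ s₃).inv).neg.sub S.one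
  have of := M.f_of hA
  obtain ⟨ε, hε⟩ : ∃ ε, ε = 2 * M.T M.A0 - M.r0 * M.y * M.A0 := ⟨_, rfl⟩
  rw [← hε] at o₁
  have two : ∀ (φ : M.R →ₗ[ℂ] M.R) a, φ (2 * a) = 2 * φ a := fun φ a => by
    rw [two_smul', map_smul, ← two_smul']
  have g : M.I (M.y * M.A0) = M.y * M.f - M.I M.f := I_ymul _
  have e₁ : M.T ε = 2 * M.T (M.T M.A0) - (M.X M.r0 * (M.y * M.f - M.I M.f)
      + M.r0 * (M.y * M.T M.A0 - M.I (M.T M.A0))) := by
    rw [hε, map_sub, two, mul_assoc, M.Sr0.T, g, T_ymul]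
  have e₂ : M.I ε = 2 * M.I (M.T M.A0) - M.r0 * (M.y * M.f - M.I M.f) := by
    rw [hε, map_sub, two, mul_assoc, M.Sr0.I, g]
  have t2 : 2 * algebraMap ℂ M.R 2⁻¹ = 1 := by
    rw [← map_ofNat (algebraMap ℂ M.R) 2, ← map_mul]; simp
  have t4 : 4 * algebraMap ℂ M.R 4⁻¹ = 1 := by
    rw [← map_ofNat (algebraMap ℂ M.R) 4, ← map_mul]; simp
  have c4 : 4 * M.ct = 2 * M.X M.r0 - M.r0 ^ 2 := by
    simp only [ct, Algebra.smul_def]
    linear_combination 2 * M.X M.r0 * t2 - M.r0 ^ 2 * t4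
  have r4 : 4 * M.rh k₁ k₂ k₃ = k₁ * M.r0 ^ 2 + 2 * (k₂ * M.r0) + 4 * k₃ := by
    simp only [rh, Algebra.smul_def]
    linear_combination 2 * (k₂ * M.r0) * t2 + k₁ * M.r0 ^ 2 * t4
  have hk : k₁ * M.ct = -(n + 1) * M.rh k₁ k₂ k₃ := by
    rw [hn]
    linear_combination -(k₁ * M.ct) * Ring.inverse_mul_cancel _ u
  have a₁ : M.y * ε ∈ M.O (m + 3 / 2) := O_mul' O_y o₁ (by linarith)
  have a₂ : M.I ε ∈ M.O (m + 3 / 2) := O_I' o₁ (by linarith)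
  have a₃ : M.T ε ∈ M.O (m + 3 / 2) := O_T' o₁ (by linarith)
  obtain ⟨d, hd⟩ : ∃ d, d = M.y * M.A0 - n * M.f := ⟨_, rfl⟩
  have Id : M.I d = M.y * M.f - (n + 1) * M.I M.f := by rw [hd, map_sub, g, sn.I]; ring
  have k : M.y * d - M.I d ∈ M.O (m + 3 / 2) := by
    refine O_unit u (O_of_smul (s := 4) (by norm_num) ?_)
    have := sub_mem (add_mem (sub_mem (Ideal.mul_mem_left _ 4 o₂)
      (Ideal.mul_mem_left _ (k₁ * M.r0 + 2 * k₂) a₁)) (Ideal.mul_mem_left _ (k₁ * M.r0) a₂))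
      (Ideal.mul_mem_left _ (2 * k₁) a₃)
    refine XB3c.eqm this ?_
    rw [Id, e₁, e₂, hε, hd, Algebra.smul_def, map_ofNat]
    linear_combination M.y ^ 2 * M.A0 * r4 + k₁ * (M.y * M.f - M.I M.f) * c4
      - 4 * (M.y * M.f - M.I M.f) * hk
  have od : d ∈ M.O m := hd ▸ sub_mem (O_mul' O_y hA (by linarith)) (Ideal.mul_mem_left _ _ of)
  have dU : d ∈ M.U := hd ▸ sub_mem (Ideal.mul_mem_left _ _ M.A0_U) (Ideal.mul_mem_left _ _ M.f_U)
  have i := fuO (μ := 1) (by linarith : (1 : ℝ) < m + 1) (M.U_I _ dU) (O_I od)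
    (by simpa using k)
  have od' : d ∈ M.O (m + 1 / 2) := O_div' (by simpa using add_mem k i) (by linarith)
  refine ⟨by simpa [hd] using od', O_of_smul (s := 2) (by norm_num) ?_⟩
  have := add_mem (O_le o₁ (by linarith : m + 1 / 2 ≤ m + 1)) (Ideal.mul_mem_left _ M.r0 od')
  refine XB3c.eqm this ?_
  rw [hε, hd]
  simp only [Algebra.smul_def, map_ofNat]
  linear_combination -(n * M.r0 * M.f) * t2

end Pool.Agent.MP_ed9623_an.R10
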