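import Pool.Agent.MP_ed9623_an.R10.Spec

/-! Basic rules of the abstract calculus. -/

namespace Pool.Agent.MP_ed9623_an.R10

namespace FA

variable {F : FA} {m n : ℝ} {a b a' b' g : F.R}

/-! ### Derivations and constants -/

@[simp] theorem X_one : F.X 1 = 0 := by simpa using F.X_mul 1 1
@[simp] theorem δ_one : F.δ 1 = 0 := by simpa using F.δ_mul 1 1
@[simp] theorem X_alg (s : ℂ) : F.X (algebraMap ℂ F.R s) = 0 := by
  rw [Algebra.algebraMap_eq_smul_one, map_smul, X_one, smul_zero]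
@[simp] theorem δ_alg (s : ℂ) : F.δ (algebraMap ℂ F.R s) = 0 := by
  rw [Algebra.algebraMap_eq_smul_one, map_smul, δ_one, smul_zero]
@[simp] theorem X_nat (k : ℕ) : F.X (k : F.R) = 0 := by rw [← map_natCast (algebraMap ℂ F.R), X_alg]
@[simp] theorem δ_nat (k : ℕ) : F.δ (k : F.R) = 0 := by rw [← map_natCast (algebraMap ℂ F.R), δ_alg]
@[simp] theorem X_ofNat (k : ℕ) [k.AtLeastTwo] : F.X (no_index (OfNat.ofNat k : F.R)) = 0 := X_nat k
@[simp] theorem δ_ofNat (k : ℕ) [k.AtLeastTwo] : F.δ (no_index (OfNat.ofNat k : F.R)) = 0 := δ_nat k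
theorem X_sq (a : F.R) : F.X (a ^ 2) = 2 * a * F.X a := by rw [sq, F.X_mul]; ring
theorem δ_sq (a : F.R) : F.δ (a ^ 2) = 2 * a * F.δ a := by rw [sq, F.δ_mul]; ring
theorem δ_pow0 (h : F.δ a = 0) (k : ℕ) : F.δ (a ^ k) = 0 := by
  induction k with
  | zero => simp
  | succ k ih => rw [pow_succ, F.δ_mul, ih, h]; simp
theorem cj_alg (s : ℂ) : F.cj (algebraMap ℂ F.R s) = algebraMap ℂ F.R ((starRingEnd ℂ) s) := by
  rw [Algebra.algebraMap_eq_smul_one, F.cj_smul, map_one, Algebra.algebraMap_eq_smul_one]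
theorem two_smul' (a : F.R) : 2 * a = (2 : ℂ) • a := by rw [two_mul, two_smul]
theorem half_two (a : F.R) : (2⁻¹ : ℂ) • (2 * a) = a := by rw [two_smul', smul_smul]; simp
theorem of_smul {s : ℂ} (hs : s ≠ 0) (h : s • a = 0) : a = 0 := by
  simpa [smul_smul, hs] using congrArg (s⁻¹ • ·) h
theorem unit_ne (h : IsUnit a) : a ≠ 0 := fun e => F.nt (isUnit_zero_iff.1 (e ▸ h)).symm
theorem unit_smul {s : ℂ} (hs : s ≠ 0) (h : IsUnit a) : IsUnit (s • a) := by
  rw [Algebra.smul_def]; exact ((isUnit_iff_ne_zero.2 hs).map _).mul h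
theorem inv_of_δ (h : a * b = 1) (ha : F.δ a = 0) : F.δ b = 0 := by
  have e := F.δ_mul a b
  rw [h, δ_one, ha] at e
  linear_combination -b * e - F.δ b * h
theorem zi_z : F.zi * F.z = 1 := by rw [mul_comm, F.z_zi]
theorem X_zi : F.X F.zi = 0 := by
  have e := F.X_mul F.z F.zi
  rw [F.z_zi, X_one, F.X_z] at e
  linear_combination -F.zi * e - F.X F.zi * F.z_zi
theorem δ_zi : F.δ F.zi = -F.c • F.zi := by
  have e := F.δ_mul F.z F.zi
  rw [F.z_zi, δ_one, F.δ_z, smul_mul_assoc, F.z_zi] at e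
  rw [neg_smul, ← mul_one F.zi, ← mul_smul_comm, mul_one]
  linear_combination -F.zi * e - F.δ F.zi * F.z_zi
theorem bv_zi : F.bv F.zi = F.zi := by
  have e := congrArg F.bv F.z_zi
  rw [map_mul, F.bv_z, map_one] at e
  linear_combination F.zi * e - F.bv F.zi * F.z_zi
theorem ev_zi : F.ev F.zi = 1 := by simpa [F.ev_z] using congrArg F.ev F.z_zi
theorem cj_zi : F.cj F.zi = F.z := by rw [← F.cj_z, F.cj_cj]
theorem ev_ev (a : F.R) : F.ev (F.ev a) = F.ev a := F.ev_of _ (F.δ_ev a)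
theorem eq_of_δ (h : F.δ a = F.δ b) (h' : F.ev a = F.ev b) : a = b := by
  have := F.ev_of (a - b) (by rw [map_sub, h, sub_self])
  rwa [map_sub, h', sub_self, eq_comm, sub_eq_zero] at this

/-! ### The primitive and the tangential derivative -/

theorem I_S (h : F.bv b = b) (a : F.R) : F.I (b * a) = b * F.I a := by
  have := F.I_bv b a; rwa [h] at this
@[simp] theorem bv_y : F.bv F.y = 0 := F.bv_I 1
@[simp] theorem bv_el : F.bv F.el = 0 := F.bv_I _
@[simp] theorem δ_y : F.δ F.y = 0 := by rw [y, F.δ_I, δ_one, map_zero]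
@[simp] theorem δ_el : F.δ F.el = 0 := by rw [el, F.δ_I, F.δ_la, map_zero]
@[simp] theorem ev_y : F.ev F.y = F.y := F.ev_of _ δ_y
@[simp] theorem ev_el : F.ev F.el = F.el := F.ev_of _ δ_el
@[simp] theorem cj_y : F.cj F.y = F.y := by rw [y, F.cj_I, map_one]
@[simp] theorem cj_el : F.cj F.el = F.el := by rw [el, F.cj_I, F.cj_la]
@[simp] theorem X_y : F.X F.y = F.el := by rw [y, F.X_I]; simp [el]
theorem T_apply (a : F.R) : F.T a = F.X (F.I a) - F.el * a := rfl
theorem T_eq (a : F.R) : F.T a = F.I (F.X a + F.la * a) - F.el * a := by rw [T_apply, F.X_I]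
theorem T_I (a : F.R) : F.T (F.I a) = F.I (F.T a) := by
  rw [T_eq, T_apply, el, F.I_mul, ← map_sub]; congr 1; ring
theorem T_rb (a b : F.R) : F.T (a * F.I b + b * F.I a) = F.T a * F.I b + F.I a * F.T b := by
  rw [T_apply, ← F.I_mul, F.X_mul, T_apply, T_apply]; ring
theorem T_S (h : F.bv b = b) (a : F.R) : F.T (b * a) = F.X b * F.I a + b * F.T a := by
  rw [T_apply, I_S h, F.X_mul, T_apply]; ring
@[simp] theorem T_one : F.T 1 = 0 := by rw [T_apply, mul_one]; exact sub_eq_zero.2 X_y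
theorem I_of_S (h : F.bv b = b) : F.I b = b * F.y := by rw [y, ← I_S h, mul_one]
theorem T_of_S (h : F.bv b = b) : F.T b = F.X b * F.y := by
  have := T_S h 1; rwa [mul_one, T_one, mul_zero, add_zero] at this
theorem I_ymul (a : F.R) : F.I (F.y * a) = F.y * F.I a - F.I (F.I a) := by
  rw [y, F.I_mul, ← map_sub]; congr 1; ring
theorem T_ymul (a : F.R) : F.T (F.y * a) = F.y * F.T a - F.I (F.T a) := by
  have := T_rb 1 a
  rw [T_one, one_mul, map_add, T_I] at this
  rw [mul_comm, y]; linear_combination this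
theorem I_ypow (k : ℕ) : F.I (F.y ^ k) = ((k : ℂ) + 1)⁻¹ • F.y ^ (k + 1) := by
  have h : ∀ k : ℕ, ((k : ℂ) + 1) • F.I (F.y ^ k) = F.y ^ (k + 1) := by
    intro k
    induction k with
    | zero => simp [y]
    | succ k ih =>
      have e := F.I_mul 1 (((k : ℂ) + 1) • F.y ^ k)
      rw [map_smul, ih, one_mul, ← y, smul_mul_assoc, ← pow_succ, map_add, map_smul] at e
      rw [pow_succ' _ (k + 1), e]; push_cast; module
  rw [← h, smul_smul, inv_mul_cancel₀ (Nat.cast_add_one_ne_zero k), one_smul]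
theorem T_ypow (k : ℕ) : F.T (F.y ^ k) = 0 := by
  have h : ∀ k : ℕ, F.X (F.y ^ (k + 1)) = ((k : ℂ) + 1) • (F.el * F.y ^ k) := by
    intro k
    induction k with
    | zero => simp
    | succ k ih =>
      rw [pow_succ, F.X_mul, ih, X_y, smul_mul_assoc, mul_assoc, ← pow_succ, mul_comm _ F.el]
      push_cast; module
  rw [T_apply, I_ypow, map_smul, h, smul_smul, inv_mul_cancel₀ (Nat.cast_add_one_ne_zero k),
    one_smul, sub_self]
theorem δ_T (a : F.R) : F.δ (F.T a) = F.T (F.δ a) := by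
  simp [T_apply, F.δ_X, F.δ_I, F.δ_mul]
theorem ev_T (a : F.R) : F.ev (F.T a) = F.T (F.ev a) := by simp [T_apply, F.ev_X, F.ev_I]
theorem cj_T (a : F.R) : F.cj (F.T a) = F.T (F.cj a) := by simp [T_apply, F.cj_X, F.cj_I]
@[simp] theorem bv_T (a : F.R) : F.bv (F.T a) = 0 := by simp [T_eq, F.bv_I]
theorem I_z (a : F.R) : F.I (F.z * a) = F.z * F.I a := I_S F.bv_z a
theorem I_zi (a : F.R) : F.I (F.zi * a) = F.zi * F.I a := I_S bv_zi a
theorem T_z (a : F.R) : F.T (F.z * a) = F.z * F.T a := by rw [T_S F.bv_z, F.X_z]; ring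
theorem T_zi (a : F.R) : F.T (F.zi * a) = F.zi * F.T a := by rw [T_S bv_zi, X_zi]; ring
theorem ypow_reg {k : ℕ} (h : F.y ^ k * a = 0) : a = 0 := by
  induction k with
  | zero => simpa using h
  | succ k ih => exact ih (F.y_reg _ (by rw [← h, ← y]; ring))

/-! ### Orders -/

theorem it_eq (k : ℕ) (a : F.R) : F.X^[k] a = (F.X ^ k) a := (Module.End.pow_apply _ _ _).symm
theorem O_Z (h : a ∈ F.O m) : a ∈ F.Z m := h 0
theorem O_X (h : a ∈ F.O m) : F.X a ∈ F.O m := fun k => h (k + 1)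
theorem O_le (h : a ∈ F.O n) (e : m ≤ n) : a ∈ F.O m := fun k => F.Z_anti m n e (h k)
theorem O_np (e : m ≤ 0) (a : F.R) : a ∈ F.O m := fun _ =>
  F.Z_anti m 0 e (F.Z_zero ▸ Submodule.mem_top)
theorem O_0 (a : F.R) : a ∈ F.O 0 := O_np le_rfl a
theorem O_smul (s : ℂ) (h : a ∈ F.O m) : s • a ∈ F.O m := by
  rw [Algebra.smul_def]; exact Ideal.mul_mem_left _ _ h
/-- A class which is stable under `X` and contained in `Z m` is contained in `O m`. -/
theorem O_of (p : F.R → Prop) (h₁ : ∀ a, p a → a ∈ F.Z m)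
    (h₂ : ∀ a, p a → F.X a ∈ AddSubgroup.closure {a | p a}) (h : p a) : a ∈ F.O m := by
  have k : ∀ j, F.X^[j] a ∈ AddSubgroup.closure {a | p a} := by
    intro j
    induction j with
    | zero => exact AddSubgroup.subset_closure h
    | succ j ih =>
      rw [Function.iterate_succ_apply']
      refine AddSubgroup.closure_induction (p := fun x _ => F.X x ∈ AddSubgroup.closure {a | p a})
        h₂ (by simp) (fun x y _ _ u v => ?_) (fun x _ u => ?_) ih
      · rw [map_add]; exact add_mem u v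
      · rw [map_neg]; exact neg_mem u
  exact fun j => AddSubgroup.closure_induction (p := fun x _ => x ∈ F.Z m) h₁ (zero_mem _)
    (fun _ _ _ _ => add_mem) (fun _ _ => neg_mem) (k j)
theorem O_mul (h : a ∈ F.O m) (h' : b ∈ F.O n) : a * b ∈ F.O (m + n) := by
  refine O_of (fun x => ∃ a ∈ F.O m, ∃ b ∈ F.O n, x = a * b) ?_ ?_ ⟨a, h, b, h', rfl⟩
  · rintro _ ⟨a, h, b, h', rfl⟩; exact F.Z_mul _ _ _ _ (O_Z h) (O_Z h')
  · rintro _ ⟨a, h, b, h', rfl⟩
    rw [F.X_mul]
    exact add_mem (AddSubgroup.subset_closure ⟨_, O_X h, _, h', rfl⟩)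
      (AddSubgroup.subset_closure ⟨_, h, _, O_X h', rfl⟩)
theorem O_mul' {k : ℝ} (h : a ∈ F.O m) (h' : b ∈ F.O n) (e : k ≤ m + n) : a * b ∈ F.O k :=
  O_le (O_mul h h') e
theorem O_I (h : a ∈ F.O m) : F.I a ∈ F.O (m + 1) := by
  refine O_of (fun x => ∃ a ∈ F.O m, x = F.I a) ?_ ?_ ⟨a, h, rfl⟩
  · rintro _ ⟨a, h, rfl⟩; exact F.Z_I _ _ (O_Z h)
  · rintro _ ⟨a, h, rfl⟩
    exact AddSubgroup.subset_closure ⟨_, add_mem (O_X h) (Ideal.mul_mem_left _ _ h), F.X_I a⟩
theorem O_I' (h : a ∈ F.O m) (e : n ≤ m + 1) : F.I a ∈ F.O n := O_le (O_I h) e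
theorem O_I1 (a : F.R) : F.I a ∈ F.O 1 := O_I' (O_0 a) (by norm_num)
theorem O_y : F.y ∈ F.O 1 := O_I1 _
theorem O_el : F.el ∈ F.O 1 := O_I1 _
theorem O_ypow (k : ℕ) : F.y ^ k ∈ F.O k := by
  induction k with
  | zero => simpa using O_0 _
  | succ k ih => rw [pow_succ]; exact O_mul' ih O_y (by simp)
theorem O_ymul (h : a ∈ F.O m) : F.y * a ∈ F.O (m + 1) := O_mul' O_y h (by linarith)
theorem O_T (h : a ∈ F.O m) : F.T a ∈ F.O (m + 1) :=
  sub_mem (O_X (O_I h)) (O_mul' O_el h (by linarith))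
theorem O_T' (h : a ∈ F.O m) (e : n ≤ m + 1) : F.T a ∈ F.O n := O_le (O_T h) e
theorem O_T1 (a : F.R) : F.T a ∈ F.O 1 := O_T' (O_0 a) (by norm_num)
theorem O_map {φ : F.R → F.R} (hX : ∀ a, φ (F.X a) = F.X (φ a))
    (hZ : ∀ a, a ∈ F.Z m → φ a ∈ F.Z m) (h : a ∈ F.O m) : φ a ∈ F.O m := fun k => by
  rw [← (Function.Commute.iterate_right hX k).eq]; exact hZ _ (h k)
theorem O_δ (h : a ∈ F.O m) : F.δ a ∈ F.O m := O_map F.δ_X (F.Z_δ m) h
theorem O_ev (h : a ∈ F.O m) : F.ev a ∈ F.O m := O_map F.ev_X (F.Z_ev m) h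
theorem O_cj (h : a ∈ F.O m) : F.cj a ∈ F.O m := O_map F.cj_X (F.Z_cj m) h
theorem O_bv (h : a ∈ F.O m) (e : 0 < m) : F.bv a = 0 := F.Z_bv m a e (O_Z h)
theorem O_int (h : F.δ a ∈ F.O m) : a - F.ev a ∈ F.O m := fun k => by
  have e : F.X^[k] (a - F.ev a) = F.X^[k] a - F.ev (F.X^[k] a) := by
    rw [(Function.Commute.iterate_right F.ev_X k).eq, it_eq, map_sub, it_eq, it_eq]
  rw [e]
  exact F.Z_int _ _ (by rw [(Function.Commute.iterate_right F.δ_X k).eq]; exact h k)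
/-- An element of order one acts like the height. -/
theorem Z_one (h : b ∈ F.O 1) (h' : F.y * a ∈ F.Z m) : b * a ∈ F.Z m :=
  F.Z_div _ _ (by
    rw [mul_left_comm]; exact F.Z_anti _ _ (by linarith) (F.Z_mul _ _ _ _ (O_Z h) h'))
/-- Strong induction on the number of derivatives. -/
theorem it_mul (k : ℕ) (h : b ∈ F.O 1) (a : F.R) : F.X^[k] (b * a) - b * F.X^[k] a ∈
    AddSubgroup.closure {x | ∃ b' ∈ F.O 1, ∃ j < k, x = b' * F.X^[j] a} := by
  induction k with
  | zero => simp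
  | succ k ih =>
    have e : F.X^[k + 1] (b * a) - b * F.X^[k + 1] a
        = F.X (F.X^[k] (b * a) - b * F.X^[k] a) + F.X b * F.X^[k] a := by
      simp only [Function.iterate_succ_apply', map_sub, F.X_mul]; ring
    rw [e]
    refine add_mem ?_ (AddSubgroup.subset_closure ⟨_, O_X h, k, by omega, rfl⟩)
    refine AddSubgroup.closure_induction (p := fun x _ => F.X x ∈ AddSubgroup.closure
      {x | ∃ b' ∈ F.O 1, ∃ j < k + 1, x = b' * F.X^[j] a}) ?_ (by simp)
      (fun x y _ _ u v => ?_) (fun x _ u => ?_) ih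
    · rintro _ ⟨b', hb, j, hj, rfl⟩
      rw [F.X_mul]
      exact add_mem (AddSubgroup.subset_closure ⟨_, O_X hb, j, by omega, rfl⟩)
        (AddSubgroup.subset_closure ⟨_, hb, j + 1, by omega, by rw [Function.iterate_succ_apply']⟩)
    · rw [map_add]; exact add_mem u v
    · rw [map_neg]; exact neg_mem u
theorem y_it (h : F.y * a ∈ F.O m) (k : ℕ) : F.y * F.X^[k] a ∈ F.Z m := by
  induction k using Nat.strong_induction_on with
  | _ k ih =>
    have : F.X^[k] (F.y * a) - F.y * F.X^[k] a ∈ F.Z m :=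
      AddSubgroup.closure_induction (p := fun x _ => x ∈ F.Z m)
        (by rintro _ ⟨b', hb, j, hj, rfl⟩; exact Z_one hb (ih j hj)) (zero_mem _)
        (fun _ _ _ _ => add_mem) (fun _ _ => neg_mem) (it_mul k O_y a)
    simpa using sub_mem (h k) this
theorem O_div (h : F.y * a ∈ F.O (m + 1)) : a ∈ F.O m := fun k => F.Z_div _ _ (y_it h k)
theorem O_div' (h : F.y * a ∈ F.O n) (e : m + 1 ≤ n) : a ∈ F.O m := O_div (O_le h e)
theorem O_divp (k : ℕ) (h : F.y ^ k * a ∈ F.O (m + k)) : a ∈ F.O m := by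
  induction k with
  | zero => simpa using h
  | succ k ih =>
    refine ih (O_div' (n := m + (k + 1 : ℕ)) ?_ (by push_cast; linarith))
    rwa [← mul_assoc, ← pow_succ']
theorem O_unit (u : IsUnit b) (h : b * a ∈ F.O m) : a ∈ F.O m := by
  obtain ⟨c, e⟩ := u.exists_left_inv
  have := Ideal.mul_mem_left _ c h
  rwa [← mul_assoc, e, one_mul] at this
theorem O_of_smul {s : ℂ} (hs : s ≠ 0) (h : s • a ∈ F.O m) : a ∈ F.O m := by
  simpa [smul_smul, hs] using O_smul s⁻¹ h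
theorem O_dv (e : 0 < m) (h : a ∈ F.O (m + 1)) : ∃ b ∈ F.O m, F.y * b = a := by
  obtain ⟨b, rfl⟩ := F.dv m a e h
  exact ⟨b, O_div h, rfl⟩
theorem O_dvp (k : ℕ) (e : 0 < m) (h : a ∈ F.O (m + k)) : ∃ b ∈ F.O m, F.y ^ k * b = a := by
  induction k generalizing a with
  | zero => exact ⟨a, by simpa using h, by simp⟩
  | succ k ih =>
    obtain ⟨b, hb, rfl⟩ := O_dv (m := m + k) (by positivity) (O_le h (by push_cast; linarith))
    obtain ⟨c, hc, rfl⟩ := ih hb
    exact ⟨c, hc, by ring⟩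
/-- Iteration of a gain. -/
theorem gain {p : ℝ → Prop} {θ m₀ : ℝ} (hθ : 0 < θ) (mono : ∀ s t, s ≤ t → p t → p s) (h₀ : p m₀)
    (h : ∀ s, m₀ ≤ s → s ≤ n → p s → p (min n (s + θ))) : p n := by
  have k : ∀ j : ℕ, p (min n (m₀ + j * θ)) := by
    intro j
    induction j with
    | zero => exact mono _ _ (by simp) h₀
    | succ j ih =>
      rcases le_total n (m₀ + j * θ) with c | c
      · rw [min_eq_left c] at ih; exact mono _ _ (min_le_left _ _) ih
      · rw [min_eq_right c] at ih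
        have := h _ (le_add_of_nonneg_right (by positivity)) c ih
        rwa [Nat.cast_succ, add_mul, one_mul, ← add_assoc]
  obtain ⟨j, hj⟩ := exists_nat_ge ((n - m₀) / θ)
  have := k j
  rwa [min_eq_left (by rw [div_le_iff₀ hθ] at hj; linarith)] at this

/-- The Fuchsian gain. -/
theorem fuO {μ M : ℝ} (e : μ < m) (hU : F.I a ∈ F.U) (h : F.I a ∈ F.O m)
    (h' : F.y * a - (μ : ℂ) • F.I a ∈ F.O M) : F.I a ∈ F.O M := by
  have A : ∀ k, ∃ p, F.X^[k] (F.I a) = F.I p ∧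
      p - F.X^[k] a ∈ AddSubgroup.closure {x | ∃ c, ∃ j < k, x = c * F.X^[j] a} := by
    intro k
    induction k with
    | zero => exact ⟨a, rfl, by simp⟩
    | succ k ih =>
      obtain ⟨p, e₁, e₂⟩ := ih
      refine ⟨F.X p + F.la * p, by rw [Function.iterate_succ_apply', e₁, F.X_I], ?_⟩
      have e₃ : F.X p + F.la * p - F.X^[k + 1] a = (F.X (p - F.X^[k] a) + F.la * (p - F.X^[k] a))
          + F.la * F.X^[k] a := by rw [Function.iterate_succ_apply', map_sub]; ring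
      rw [e₃]
      refine add_mem ?_ (AddSubgroup.subset_closure ⟨_, k, by omega, rfl⟩)
      refine AddSubgroup.closure_induction (p := fun x _ => F.X x + F.la * x ∈ AddSubgroup.closure
        {x | ∃ c, ∃ j < k + 1, x = c * F.X^[j] a}) ?_ (by simp)
        (fun x y _ _ u v => ?_) (fun x _ u => ?_) e₂
      · rintro _ ⟨c, j, hj, rfl⟩
        rw [F.X_mul, ← mul_assoc]
        exact add_mem (add_mem (AddSubgroup.subset_closure ⟨_, j, by omega, rfl⟩)
          (AddSubgroup.subset_closure ⟨_, j + 1, by omega, by rw [Function.iterate_succ_apply']⟩))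
          (AddSubgroup.subset_closure ⟨_, j, by omega, rfl⟩)
      · rw [map_add, mul_add, add_add_add_comm]; exact add_mem u v
      · rw [map_neg, mul_neg, ← neg_add]; exact neg_mem u
  have U : ∀ k, F.X^[k] (F.I a) ∈ F.U := fun k => by
    induction k with
    | zero => exact hU
    | succ k ih => rw [Function.iterate_succ_apply']; exact F.U_X _ ih
  have B : ∀ k, F.X^[k] (F.I a) ∈ F.Z M ∧ F.y * F.X^[k] a ∈ F.Z M := by
    intro k
    induction k using Nat.strong_induction_on with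
    | _ k ih =>
      obtain ⟨p, e₁, e₂⟩ := A k
      have a₁ : F.X^[k] (F.y * a) - F.y * F.X^[k] a ∈ F.Z M :=
        AddSubgroup.closure_induction (p := fun x _ => x ∈ F.Z M)
          (by rintro _ ⟨b', hb, j, hj, rfl⟩; exact Z_one hb (ih j hj).2) (zero_mem _)
          (fun _ _ _ _ => add_mem) (fun _ _ => neg_mem) (it_mul k O_y a)
      have a₂ : F.y * (p - F.X^[k] a) ∈ F.Z M :=
        AddSubgroup.closure_induction (p := fun x _ => F.y * x ∈ F.Z M)
          (by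
            rintro _ ⟨c, j, hj, rfl⟩
            rw [mul_left_comm]; exact Ideal.mul_mem_left _ _ (ih j hj).2) (by simp)
          (fun _ _ _ _ u v => by rw [mul_add]; exact add_mem u v)
          (fun _ _ u => by rw [mul_neg]; exact neg_mem u) e₂
      have a₃ := h' k
      rw [it_eq, map_sub, map_smul, ← it_eq, ← it_eq, e₁] at a₃
      have a₄ : F.y * p - (μ : ℂ) • F.I p ∈ F.Z M := by
        have := add_mem (sub_mem a₃ a₁) a₂
        rwa [show ∀ u v w : F.R, u - v - (u - F.y * w) + F.y * (p - w) = F.y * p - v from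
          fun _ _ _ => by ring] at this
      have a₅ := F.fu μ m M p e (e₁ ▸ U k) (e₁ ▸ h k) a₄
      refine ⟨e₁ ▸ a₅, ?_⟩
      have := sub_mem (add_mem a₄ (Ideal.mul_mem_left _ (algebraMap ℂ F.R μ) a₅)) a₂
      rwa [← Algebra.smul_def, sub_add_cancel, ← mul_sub, sub_sub_cancel] at this
  exact fun k => (B k).1

/-- The coercive gain. -/
theorem coO {θ M : ℝ} {ρ b₀ γ : F.R} (e : 0 < θ) (ha : F.δ a = 0) (hρ : F.δ ρ = 0) (hb : F.δ b = 0)
    (rρ : F.cj ρ = ρ) (rb : F.cj b = b) (u : IsUnit b₀) (oρ : ρ ∈ F.O (1 + θ))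
    (ob : b - b₀ ∈ F.O θ) (hU : F.I a ∈ F.U) (h : ρ * a - b * F.I a ∈ F.O M)
    (h' : F.X (F.I a) - γ * F.I a ∈ F.O M) : F.I a ∈ F.O M := by
  have z := F.co θ M a ρ b b₀ e ha hρ hb rρ rb u (O_Z oρ) (O_Z ob) hU (O_Z h)
  refine O_of (fun x => ∃ c, ∃ o ∈ F.O M, x = c * F.I a + o) ?_ ?_ ⟨1, 0, zero_mem _, by simp⟩
  · rintro _ ⟨c, o, ho, rfl⟩; exact add_mem (Ideal.mul_mem_left _ _ z) (O_Z ho)
  · rintro _ ⟨c, o, ho, rfl⟩
    refine AddSubgroup.subset_closure ⟨F.X c + c * γ, _,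
      add_mem (Ideal.mul_mem_left _ c h') (O_X ho), ?_⟩
    rw [map_add, F.X_mul]; ring

end FA

end Pool.Agent.MP_ed9623_an.R10
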