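import Pool.Agent.MP_ed9623_an.R10.Base2

/-! Harmonics, and the elementary facts on models and on restrictions. -/

namespace Pool.Agent.MP_ed9623_an.R10

namespace FA

variable {F : FA} {d m n M m' M' : ℝ} {a b x x' : F.R} {j k : ℤ}

/-! ### Powers of the oscillation -/

theorem zp_add (j k : ℤ) : F.zp (j + k) = F.zp j * F.zp k := by simp [zp, zpow_add]
@[simp] theorem zp_zero : F.zp 0 = 1 := by simp [zp]
theorem zp_one : F.zp 1 = F.z := by simp [zp]
theorem zp_neg_one : F.zp (-1) = F.zi := by simp [zp]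
theorem zp_ind {p : ℤ → F.R → Prop} (h₀ : p 0 1) (h₁ : ∀ k a, p k a → p (k + 1) (a * F.z))
    (h₂ : ∀ k a, p k a → p (k - 1) (a * F.zi)) (k : ℤ) : p k (F.zp k) := by
  induction k with
  | zero => simpa using h₀
  | succ k ih => rw [zp_add, zp_one]; exact h₁ _ _ ih
  | pred k ih => rw [sub_eq_add_neg, zp_add, zp_neg_one, ← sub_eq_add_neg]; exact h₂ _ _ ih
theorem bv_zp (k : ℤ) : F.bv (F.zp k) = F.zp k := zp_ind (p := fun _ a => F.bv a = a) (map_one _)
  (fun _ _ h => by rw [map_mul, h, F.bv_z]) (fun _ _ h => by rw [map_mul, h, bv_zi]) k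
theorem X_zp (k : ℤ) : F.X (F.zp k) = 0 := zp_ind (p := fun _ a => F.X a = 0) X_one
  (fun _ _ h => by simp [F.X_mul, h, F.X_z]) (fun _ _ h => by simp [F.X_mul, h, X_zi]) k
theorem δ_zp (k : ℤ) : F.δ (F.zp k) = (k * F.c) • F.zp k :=
  zp_ind (p := fun k a => F.δ a = (k * F.c) • a) (by simp)
    (fun _ _ h => by
      rw [F.δ_mul, h, F.δ_z, smul_mul_assoc, mul_smul_comm]; push_cast; module)
    (fun _ _ h => by
      rw [F.δ_mul, h, δ_zi, smul_mul_assoc, mul_smul_comm]; push_cast; module) k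
theorem cj_zp (k : ℤ) : F.cj (F.zp k) = F.zp (-k) :=
  zp_ind (p := fun k a => F.cj a = F.zp (-k)) (by simp)
    (fun _ _ h => by rw [map_mul, h, F.cj_z, ← zp_neg_one, ← zp_add]; congr 1; ring)
    (fun _ _ h => by rw [map_mul, h, cj_zi, ← zp_one, ← zp_add]; congr 1; ring) k
theorem I_zp (k : ℤ) (a : F.R) : F.I (F.zp k * a) = F.zp k * F.I a := I_S (bv_zp k) a
theorem T_zp (k : ℤ) (a : F.R) : F.T (F.zp k * a) = F.zp k * F.T a := by
  rw [T_S (bv_zp k), X_zp]; ring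
theorem δ_zpmul (k : ℤ) (h : F.δ a = 0) : F.δ (F.zp k * a) = F.zp k * ((k * F.c) • a) := by
  rw [F.δ_mul, δ_zp, h]; simp

/-! ### The classes `G` -/

theorem G_O (h : x ∈ F.O M) : x ∈ F.G d m M := Submodule.subset_span (Or.inl h)
theorem G_zp (k : ℤ) (ha : F.δ a = 0) (h : a ∈ F.O (m + d * |(k : ℝ)|)) :
    F.zp k * a ∈ F.G d m M := Submodule.subset_span (Or.inr ⟨k, a, ha, h, rfl⟩)
theorem G_K (ha : F.δ a = 0) (h : a ∈ F.O m) : a ∈ F.G d m M := by
  simpa using G_zp (d := d) (m := m) (M := M) 0 ha (by simpa using h)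
/-- The image of a class under an additive homogeneous map. -/
theorem G_ind {N : Submodule ℂ F.R} (φ : F.R →ₗ[ℂ] F.R) (h₁ : ∀ x ∈ F.O M, φ x ∈ N)
    (h₂ : ∀ (k : ℤ) a, F.δ a = 0 → a ∈ F.O (m + d * |(k : ℝ)|) → φ (F.zp k * a) ∈ N)
    (h : x ∈ F.G d m M) : φ x ∈ N := by
  refine (Submodule.span_le (p := N.comap φ)).2 ?_ h
  rintro _ (h | ⟨k, a, ha, h, rfl⟩)
  exacts [h₁ _ h, h₂ k a ha h]
theorem G_le (h : x ∈ F.G d m M) (e : m' ≤ m) (e' : M' ≤ M) : x ∈ F.G d m' M' :=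
  G_ind LinearMap.id (fun _ h => G_O (O_le h e'))
    (fun k _ ha h => G_zp k ha (O_le h (by linarith))) h
theorem G_toO (hd : 0 ≤ d) (h : x ∈ F.G d m M) (e : n ≤ m) (e' : n ≤ M) : x ∈ F.O n :=
  G_ind (N := (F.O n).restrictScalars ℂ) LinearMap.id (fun _ h => O_le h e')
    (fun k _ _ h => Ideal.mul_mem_left _ _ (O_le h (by
      have : 0 ≤ d * |(k : ℝ)| := by positivity
      linarith))) h
theorem G_I (h : x ∈ F.G d m M) : F.I x ∈ F.G d (m + 1) (M + 1) :=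
  G_ind F.I (fun _ h => G_O (O_I h)) (fun k _ ha h => by
    rw [I_zp]; exact G_zp k (by rw [F.δ_I, ha, map_zero]) (O_I' h (by linarith))) h
theorem G_T (h : x ∈ F.G d m M) : F.T x ∈ F.G d (m + 1) (M + 1) :=
  G_ind F.T (fun _ h => G_O (O_T h)) (fun k _ ha h => by
    rw [T_zp]; exact G_zp k (by rw [δ_T, ha, map_zero]) (O_T' h (by linarith))) h
theorem G_δ (h : x ∈ F.G d m M) : F.δ x ∈ F.G d m M :=
  G_ind F.δ (fun _ h => G_O (O_δ h)) (fun k _ ha h => by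
    rw [δ_zpmul k ha]; exact G_zp k (by rw [map_smul, ha, smul_zero]) (O_smul _ h)) h
theorem G_Kmul (hb : F.δ b = 0) (o : b ∈ F.O n) (h : x ∈ F.G d m M) :
    b * x ∈ F.G d (m + n) (M + n) :=
  G_ind (LinearMap.mulLeft ℂ b) (fun _ h => G_O (O_mul' o h (by linarith))) (fun k a ha h => by
    rw [LinearMap.mulLeft_apply, mul_left_comm]
    exact G_zp k (by rw [F.δ_mul, ha, hb]; simp) (O_mul' o h (by linarith))) h
theorem G_K0 (hb : F.δ b = 0) (h : x ∈ F.G d m M) : b * x ∈ F.G d m M := by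
  simpa using G_Kmul hb (O_0 b) h
theorem G_zpmul (hd : 0 ≤ d) (j : ℤ) (h : x ∈ F.G d m M) :
    F.zp j * x ∈ F.G d (m - d * |(j : ℝ)|) M :=
  G_ind (LinearMap.mulLeft ℂ (F.zp j)) (fun _ h => G_O (Ideal.mul_mem_left _ _ h))
    (fun k a ha h => by
      rw [LinearMap.mulLeft_apply, ← mul_assoc, ← zp_add]
      refine G_zp _ ha (O_le h ?_)
      have := mul_le_mul_of_nonneg_left (abs_add_le (j : ℝ) k) hd
      push_cast; linarith) h
theorem G_cj (h : x ∈ F.G d m M) : F.cj x ∈ F.G d m M := by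
  induction h using Submodule.span_induction with
  | mem x h =>
    rcases h with h | ⟨k, a, ha, h, rfl⟩
    · exact G_O (O_cj h)
    · rw [map_mul, cj_zp]
      exact G_zp _ (by rw [← F.cj_δ, ha, map_zero]) (by simpa using O_cj h)
  | zero => simp
  | add x y _ _ u v => rw [map_add]; exact add_mem u v
  | smul s x _ u => rw [F.cj_smul]; exact Submodule.smul_mem _ _ u
/-- The product with a first harmonic. -/
theorem G_rez (hd : 0 ≤ d) (hb : F.δ b = 0) (o : b ∈ F.O n) (h : x ∈ F.G d m M) :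
    F.re (F.z * b) * x ∈ F.G d (m + n - d) (M + n) := by
  rw [re_z, smul_mul_assoc, add_mul, mul_assoc, mul_assoc, ← zp_one, ← zp_neg_one]
  refine Submodule.smul_mem _ _ (add_mem ?_ ?_)
  · simpa using G_zpmul hd 1 (G_Kmul hb o h)
  · simpa using G_zpmul hd (-1) (G_Kmul (by rw [← F.cj_δ, hb, map_zero]) (O_cj o) h)
theorem G_rez1 (hd : 0 ≤ d) (hb : F.δ b = 0) (o : b ∈ F.O n) : F.re (F.z * b) ∈ F.G d (n - d) M := by
  rw [re_z, ← zp_one, ← zp_neg_one]
  exact Submodule.smul_mem _ _ (add_mem (G_zp 1 hb (by simpa using o))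
    (G_zp (-1) (by rw [← F.cj_δ, hb, map_zero]) (by simpa using O_cj o)))
theorem G_mul (hd : 0 ≤ d) (h : x ∈ F.G d m M) (h' : x' ∈ F.G d m' M') (e : n ≤ M + min m' M')
    (e' : n ≤ M' + m) : x * x' ∈ F.G d (m + m') n :=
  G_ind (LinearMap.mulRight ℂ x') (fun _ h => G_O (O_mul' h
    (G_toO hd h' (min_le_left _ _) (min_le_right _ _)) e)) (fun k a ha h => by
      rw [LinearMap.mulRight_apply, mul_assoc]
      have : 0 ≤ d * |(k : ℝ)| := by positivity
      exact G_le (G_zpmul hd k (G_Kmul ha h h')) (by linarith) (by linarith)) h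
theorem G_lap {g : F.R} (hg : F.S g) (h : x ∈ F.G d m M) :
    F.lap g x - (1 + g ^ 2) * x ∈ F.G d m (M + 1) := by
  have := add_mem (neg_mem (add_mem (G_K0 (S.two.mul hg).2 (G_T h)) (G_K0 hg.X.2 (G_I h))))
    (G_le (G_T (G_T h)) (show m + 1 ≤ _ by linarith) (show M + 1 ≤ _ by linarith))
  refine G_le ?_ (show m ≤ m + 1 by linarith) le_rfl
  rw [lap]; convert this using 1; ring

/-! ### Coefficients -/

theorem Sk_O (h : x ∈ F.O n) : x ∈ F.Sk k n := Submodule.subset_span (Or.inl h)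
theorem Sk_zp (e : j ≠ k) (ha : F.δ a = 0) : F.zp j * a ∈ F.Sk k n :=
  Submodule.subset_span (Or.inr ⟨j, a, e, ha, rfl⟩)
theorem Sk_ind {N : Submodule ℂ F.R} (φ : F.R →ₗ[ℂ] F.R) (h₁ : ∀ x ∈ F.O n, φ x ∈ N)
    (h₂ : ∀ (j : ℤ) a, j ≠ k → F.δ a = 0 → φ (F.zp j * a) ∈ N) (h : x ∈ F.Sk k n) : φ x ∈ N := by
  refine (Submodule.span_le (p := N.comap φ)).2 ?_ h
  rintro _ (h | ⟨j, a, e, ha, rfl⟩)
  exacts [h₁ _ h, h₂ j a e ha]
theorem Sk_le (h : x ∈ F.Sk k n) (e : m ≤ n) : x ∈ F.Sk k m :=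
  Sk_ind LinearMap.id (fun _ h => Sk_O (O_le h e)) (fun _ _ e ha => Sk_zp e ha) h
/-- The harmonics are independent. -/
theorem Sk_van (ha : F.δ a = 0) (h : F.zp k * a ∈ F.Sk k n) : a ∈ F.O n := by
  have E : ∀ (p : Polynomial ℂ) (j : ℤ) (b : F.R), F.δ b = 0 →
      Polynomial.aeval F.δ p (F.zp j * b) = p.eval (j * F.c) • (F.zp j * b) := fun p j b hb =>
    Module.End.aeval_apply_of_mem_apply_eq_smul (by rw [δ_zpmul j hb, mul_smul_comm])
  have I : ∀ (p : Polynomial ℂ) (x : F.R), x ∈ F.O n → Polynomial.aeval F.δ p x ∈ F.O n :=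
    fun p x hx => Polynomial.aeval_apply_smul_mem_of_le_comap
      (q := (F.O n).restrictScalars ℂ) hx p F.δ fun _ h => O_δ h
  have P : ∀ w ∈ F.Sk k n, ∃ p : Polynomial ℂ, p.eval (k * F.c) ≠ 0 ∧
      Polynomial.aeval F.δ p w ∈ F.O n := by
    intro w hw
    induction hw using Submodule.span_induction with
    | mem x h =>
      rcases h with h | ⟨j, b, e, hb, rfl⟩
      · exact ⟨1, by simp, by simpa using h⟩
      · refine ⟨Polynomial.X - Polynomial.C (j * F.c), ?_, by rw [E _ j b hb]; simp⟩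
        simpa [← sub_mul, F.c_ne, sub_eq_zero] using e.symm
    | zero => exact ⟨1, by simp, by simp⟩
    | add x y _ _ u v =>
      obtain ⟨p, hp, u⟩ := u
      obtain ⟨q, hq, v⟩ := v
      refine ⟨p * q, by simp [hp, hq], ?_⟩
      rw [map_add]
      refine add_mem ?_ ?_
      · rw [mul_comm, map_mul]; exact I q _ u
      · rw [map_mul]; exact I p _ v
    | smul s x _ u => obtain ⟨p, hp, u⟩ := u; exact ⟨p, hp, by rw [map_smul]; exact O_smul s u⟩
  obtain ⟨p, hp, o⟩ := P _ h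
  rw [E p k a ha] at o
  have := Ideal.mul_mem_left _ (F.zp (-k)) (O_of_smul hp o)
  rwa [← mul_assoc, ← zp_add, neg_add_cancel, zp_zero, one_mul] at this
theorem Co.le (h : F.Co k n x a) (e : m ≤ n) : F.Co k m x a := ⟨h.1, Sk_le h.2 e⟩
theorem Co.add (h : F.Co k n x a) (h' : F.Co k n x' b) : F.Co k n (x + x') (a + b) :=
  ⟨by rw [map_add, h.1, h'.1, add_zero], by convert add_mem h.2 h'.2 using 1; ring⟩
theorem Co.smul (s : ℂ) (h : F.Co k n x a) : F.Co k n (s • x) (s • a) :=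
  ⟨by rw [map_smul, h.1, smul_zero], by
    rw [mul_smul_comm, ← smul_sub]; exact Submodule.smul_mem _ _ h.2⟩
theorem Co.neg (h : F.Co k n x a) : F.Co k n (-x) (-a) := by simpa using h.smul (-1)
theorem Co.sub (h : F.Co k n x a) (h' : F.Co k n x' b) : F.Co k n (x - x') (a - b) := by
  simpa only [sub_eq_add_neg] using h.add h'.neg
theorem Co.of_O (h : x ∈ F.O n) : F.Co k n x 0 := ⟨map_zero _, by simpa using Sk_O h⟩
theorem Co.self (ha : F.δ a = 0) : F.Co 0 n a a := ⟨ha, by simp⟩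
theorem Co.of_K (e : k ≠ 0) (ha : F.δ a = 0) : F.Co k n a 0 :=
  ⟨map_zero _, by simpa using Sk_zp (n := n) e.symm ha⟩
theorem Co.O (h : F.Co k n x a) (o : x ∈ F.O n) : a ∈ F.O n :=
  Sk_van h.1 (by simpa using sub_mem (Sk_O (k := k) o) h.2)
theorem Co.unique (h : F.Co k n x a) (h' : F.Co k n x b) : a - b ∈ F.O n :=
  (h.sub h').O (by simp)
theorem Co.zero (h : F.Co k n x a) (o : a ∈ F.O n) : F.Co k n x 0 :=
  ⟨map_zero _, by simpa using add_mem h.2 (Sk_O (Ideal.mul_mem_left _ (F.zp k) o))⟩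
theorem Co.map {n' : ℝ} {k' : ℤ} (φ ψ : F.R →ₗ[ℂ] F.R) (h₁ : ∀ x ∈ F.O n, φ x ∈ F.O n')
    (h₂ : ∀ (j : ℤ) a, F.δ a = 0 → ∃ b, F.δ b = 0 ∧ φ (F.zp j * a) = F.zp (j - k + k') * b ∧
      (j = k → b = ψ a)) (h : F.Co k n x a) : F.Co k' n' (φ x) (ψ a) := by
  obtain ⟨b, hb, e, e'⟩ := h₂ k a h.1
  rw [sub_self, zero_add, e' rfl] at e
  refine ⟨e' rfl ▸ hb, ?_⟩
  rw [← e, ← map_sub]
  refine Sk_ind φ (fun x h => Sk_O (h₁ x h)) (fun j a e ha => ?_) h.2
  obtain ⟨b, hb, e₁, -⟩ := h₂ j a ha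
  exact e₁ ▸ Sk_zp (by omega) hb
theorem Co.I (h : F.Co k n x a) : F.Co k (n + 1) (F.I x) (F.I a) :=
  h.map F.I F.I (fun _ => O_I) fun j a ha =>
    ⟨F.I a, by rw [F.δ_I, ha, map_zero], by rw [I_zp, sub_add_cancel], fun _ => rfl⟩
theorem Co.T (h : F.Co k n x a) : F.Co k (n + 1) (F.T x) (F.T a) :=
  h.map F.T F.T (fun _ => O_T) fun j a ha =>
    ⟨F.T a, by rw [δ_T, ha, map_zero], by rw [T_zp, sub_add_cancel], fun _ => rfl⟩
theorem Co.δ (h : F.Co k n x a) : F.Co k n (F.δ x) ((k * F.c) • a) :=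
  h.map F.δ ((k * F.c) • LinearMap.id) (fun _ => O_δ) fun j a ha =>
    ⟨(j * F.c) • a, by rw [map_smul, ha, smul_zero], by rw [δ_zpmul j ha, sub_add_cancel],
      fun e => by rw [e]; rfl⟩
theorem Co.Kmul (hb : F.δ b = 0) (h : F.Co k n x a) : F.Co k n (b * x) (b * a) :=
  h.map (LinearMap.mulLeft ℂ b) (LinearMap.mulLeft ℂ b) (fun _ h => Ideal.mul_mem_left _ _ h)
    fun j a ha => ⟨b * a, by rw [F.δ_mul, ha, hb]; simp,
      by rw [sub_add_cancel]; exact mul_left_comm _ _ _, fun _ => rfl⟩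
theorem Co.zp (i : ℤ) (h : F.Co k n x a) : F.Co (k + i) n (F.zp i * x) a :=
  h.map (LinearMap.mulLeft ℂ (F.zp i)) LinearMap.id (fun _ h => Ideal.mul_mem_left _ _ h)
    fun j a ha => ⟨a, ha, by
      rw [LinearMap.mulLeft_apply, ← mul_assoc, ← zp_add]; congr 2; ring, fun _ => rfl⟩
/-- The product with a first harmonic. -/
theorem Co.rez {a' : F.R} (hb : F.δ b = 0) (h : F.Co (k - 1) n x a) (h' : F.Co (k + 1) n x a') :
    F.Co k n (F.re (F.z * b) * x) ((2⁻¹ : ℂ) • (b * a + F.cj b * a')) := by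
  rw [re_z, smul_mul_assoc, add_mul, mul_assoc, mul_assoc, ← zp_one, ← zp_neg_one]
  refine Co.smul _ (Co.add ?_ ?_)
  · simpa using (h.Kmul hb).zp 1
  · simpa using (h'.Kmul (by rw [← F.cj_δ, hb, map_zero])).zp (-1)
theorem Co.cj (h : F.Co k n x a) : F.Co (-k) n (F.cj x) (F.cj a) := by
  refine ⟨by rw [← F.cj_δ, h.1, map_zero], ?_⟩
  rw [← cj_zp, ← map_mul, ← map_sub]
  have := h.2
  generalize x - F.zp k * a = w at this
  induction this using Submodule.span_induction with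
  | mem x h =>
    rcases h with h | ⟨j, a, e, ha, rfl⟩
    · exact Sk_O (O_cj h)
    · rw [map_mul, cj_zp]; exact Sk_zp (by omega) (by rw [← F.cj_δ, ha, map_zero])
  | zero => simp
  | add x y _ _ u v => rw [map_add]; exact add_mem u v
  | smul s x _ u => rw [F.cj_smul]; exact Submodule.smul_mem _ _ u
theorem Co.lap {g : F.R} (hg : F.S g) (h : F.Co k n x a) : F.Co k n (F.lap g x) (F.lap g a) :=
  (((h.Kmul (S.one.add (hg.pow 2)).2).sub ((h.T.le (by linarith)).Kmul (S.two.mul hg).2)).sub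
    ((h.I.le (by linarith)).Kmul hg.X.2)).add (h.T.T.le (by linarith))
/-- Existence of the coefficients. -/
theorem G_co (k : ℤ) (h : x ∈ F.G d m M) : ∃ a ∈ F.O (m + d * |(k : ℝ)|), F.Co k M x a := by
  induction h using Submodule.span_induction with
  | mem x h =>
    rcases h with h | ⟨j, a, ha, h, rfl⟩
    · exact ⟨0, zero_mem _, Co.of_O h⟩
    · by_cases e : j = k
      · exact ⟨a, e ▸ h, ha, by simp [e]⟩
      · exact ⟨0, zero_mem _, map_zero _, by simpa using Sk_zp e ha⟩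
  | zero => exact ⟨0, zero_mem _, Co.of_O (zero_mem _)⟩
  | add x y _ _ u v =>
    obtain ⟨a, ha, u⟩ := u
    obtain ⟨b, hb, v⟩ := v
    exact ⟨a + b, add_mem ha hb, u.add v⟩
  | smul s x _ u => obtain ⟨a, ha, u⟩ := u; exact ⟨s • a, O_smul s ha, u.smul s⟩
theorem G_co0 (k : ℤ) (h : x ∈ F.G d m M) (e : n ≤ M) (e' : n ≤ m + d * |(k : ℝ)|) :
    F.Co k n x 0 :=
  let ⟨_, ha, c⟩ := G_co k h; (c.le e).zero (O_le ha e')

end FA

end Pool.Agent.MP_ed9623_an.R10
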