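import Pool.Agent.MP_ed9623_an.R10.CDefs

/-! Calculus on a box: good functions, the primitive in the height, orders. -/

open Filter Topology Set MeasureTheory
open scoped ComplexConjugate

namespace Pool.Agent.MP_ed9623_an.R10

open H77 (P Q)

variable {b : Box} {B B' : Set P} {f g f' g' : P → ℂ} {nn la : P → ℝ} {p : P} {m n : ℝ}

theorem Box.mem0 (hp : p ∈ b.B) : ((p.1, 0) : P) ∈ b.B := ⟨hp.1, b.h0, b.h1⟩
theorem Box.mem2 (hp : p ∈ b.B) {t : ℝ} (ht : t ∈ Icc b.e₀ b.e₁) : ((p.1, t) : P) ∈ b.B :=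
  ⟨hp.1, ht⟩
theorem Box.usub (hp : p ∈ b.B) : uIcc 0 p.2 ⊆ Icc b.e₀ b.e₁ := uIcc_subset_Icc ⟨b.h0, b.h1⟩ hp.2
theorem Box.seg (hp : p ∈ b.B) {t : ℝ} (ht : t ∈ uIcc 0 p.2) : ((p.1, t) : P) ∈ b.B :=
  ⟨hp.1, Box.usub hp ht⟩
theorem Box.ev1 (hp : p ∈ b.B) : ∀ᶠ s in 𝓝 p.1, ((s, p.2) : P) ∈ b.B :=
  mem_of_superset (Ioo_mem_nhds hp.1.1 hp.1.2) fun _ h => ⟨h, hp.2⟩
theorem Box.ne (b : Box) : b.B.Nonempty := (nonempty_Ioo.2 b.hs).prod (nonempty_Icc.2 b.he.le)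
theorem Box.bd (b : Box) : ∃ K, 1 ≤ K ∧ ∀ p ∈ b.B, |p.2| ≤ K :=
  ⟨1 + (b.e₁ - b.e₀), by linarith [b.he], fun p hp =>
    abs_le.2 ⟨by linarith [hp.2.1, b.h1], by linarith [hp.2.2, b.h0]⟩⟩
theorem Box.nhds (hp : p ∈ b.B) (h : p.2 ∈ Ioo b.e₀ b.e₁) : b.B ∈ 𝓝 p :=
  prod_mem_nhds (Ioo_mem_nhds hp.1.1 hp.1.2) (Icc_mem_nhds h.1 h.2)
/-- The arc is in the closure of its complement. -/
theorem Box.cl (hp : p ∈ b.B) : (0 : ℝ) ∈ closure (Ioo b.e₀ b.e₁ \ {0}) := by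
  rcases b.h1.eq_or_lt with e | e
  · refine closure_mono (s := Ioo b.e₀ 0) (fun t h => mem_diff_of_mem (e ▸ h) h.2.ne) ?_
    rw [closure_Ioo (e ▸ b.he.ne)]; exact ⟨b.h0, le_rfl⟩
  · refine closure_mono (s := Ioo 0 b.e₁) 
      (fun t h => mem_diff_of_mem (Ioo_subset_Ioo_left b.h0 h) h.1.ne') ?_
    rw [closure_Ioo e.ne]; exact ⟨le_rfl, e.le⟩

theorem Cc.mono (h : Cc B f) (s : B' ⊆ B) : Cc B' f :=
  ⟨h.1.mono s, h.2.imp fun _ k p hp => k p (s hp)⟩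
theorem Cc.congr (h : Cc B f) (e : ∀ p ∈ B, g p = f p) : Cc B g :=
  ⟨h.1.congr e, h.2.imp fun _ k p hp => e p hp ▸ k p hp⟩
theorem Cc.bd (h : Cc B f) : ∃ M, 0 ≤ M ∧ ∀ p ∈ B, ‖f p‖ ≤ M :=
  let ⟨M, k⟩ := h.2; ⟨|M|, abs_nonneg M, fun p hp => (k p hp).trans (le_abs_self M)⟩
theorem Cc.const (s : ℂ) : Cc B fun _ => s := ⟨continuousOn_const, ‖s‖, fun _ _ => le_rfl⟩
theorem Cc.add (h : Cc B f) (h' : Cc B g) : Cc B fun p => f p + g p :=
  let ⟨_, k⟩ := h.2; let ⟨_, k'⟩ := h'.2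
  ⟨h.1.add h'.1, _, fun p hp => norm_add_le_of_le (k p hp) (k' p hp)⟩
theorem Cc.mul (h : Cc B f) (h' : Cc B g) : Cc B fun p => f p * g p :=
  let ⟨_, k⟩ := h.2; let ⟨_, k'⟩ := h'.2
  ⟨h.1.mul h'.1, _, fun p hp => norm_mul_le_of_le (k p hp) (k' p hp)⟩
theorem Cc.neg (h : Cc B f) : Cc B fun p => -f p := by simpa using (Cc.const (-1)).mul h
theorem Cc.sub (h : Cc B f) (h' : Cc B g) : Cc B fun p => f p - g p := by
  simpa only [sub_eq_add_neg] using h.add h'.neg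
theorem Cc.conj (h : Cc B f) : Cc B fun p => conj (f p) :=
  ⟨Complex.continuous_conj.comp_continuousOn h.1, h.2.imp fun _ k p hp => by simpa using k p hp⟩
theorem Cc.inv (h : Cc B f) {c : ℝ} (hc : 0 < c) (k : ∀ p ∈ B, c ≤ ‖f p‖) :
    Cc B fun p => (f p)⁻¹ :=
  ⟨h.1.inv₀ fun p hp => norm_pos_iff.1 (hc.trans_le (k p hp)), c⁻¹, fun p hp => by
    rw [norm_inv]; exact inv_anti₀ hc (k p hp)⟩
theorem Cc.bv (h : Cc b.B f) : Cc b.B fun p => f (p.1, 0) :=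
  ⟨h.1.comp (by fun_prop) fun _ => Box.mem0, h.2.imp fun _ k _ hp => k _ (Box.mem0 hp)⟩
/-- Continuity on a vertical slice. -/
theorem Cc.sl (h : Cc b.B f) (hp : p ∈ b.B) : ContinuousOn (fun t => f (p.1, t)) (Icc b.e₀ b.e₁) :=
  h.1.comp (by fun_prop) fun _ => Box.mem2 hp
/-- A bound off the arc holds on the arc. -/
theorem Cc.lim (h : Cc b.B f) (hp : p ∈ b.B) {C : Set (ℝ × ℂ)} (hC : IsClosed C)
    (k : ∀ t ∈ Ioo b.e₀ b.e₁, t ≠ 0 → (t, f (p.1, t)) ∈ C) : (0, f (p.1, 0)) ∈ C :=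
  hC.closure_subset_iff.2 (mapsTo_iff_image_subset.1 fun t ht => k t ht.1 ht.2)
    ((((continuousOn_id.prodMk (h.sl hp)) 0 ⟨b.h0, b.h1⟩).mono fun _ ht =>
      Ioo_subset_Icc_self ht.1).mem_closure_image (Box.cl hp))

theorem Dx.mono (h : Dx B f f') (s : B' ⊆ B) : Dx B' f f' := fun p hp => h p (s hp)
theorem Dx.congr (h : Dx b.B f f') (e : ∀ p ∈ b.B, g p = f p) (e' : ∀ p ∈ b.B, g' p = f' p) :
    Dx b.B g g' := fun p hp => e' p hp ▸ (h p hp).congr_of_eventuallyEq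
      ((Box.ev1 hp).mono fun _ hs => e _ hs)
theorem Dx.unique (h : Dx B f f') (h' : Dx B f g') (hp : p ∈ B) : f' p = g' p :=
  (h p hp).unique (h' p hp)
theorem Dx.const (s : ℂ) : Dx B (fun _ => s) fun _ => 0 := fun _ _ => hasDerivAt_const _ _
theorem Dx.add (h : Dx B f f') (h' : Dx B g g') :
    Dx B (fun p => f p + g p) fun p => f' p + g' p := fun p hp => (h p hp).add (h' p hp)
theorem Dx.sub (h : Dx B f f') (h' : Dx B g g') :
    Dx B (fun p => f p - g p) fun p => f' p - g' p := fun p hp => (h p hp).sub (h' p hp)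
theorem Dx.mul (h : Dx B f f') (h' : Dx B g g') :
    Dx B (fun p => f p * g p) fun p => f' p * g p + f p * g' p := fun p hp => (h p hp).mul (h' p hp)
theorem Dx.conj (h : Dx B f f') : Dx B (fun p => conj (f p)) fun p => conj (f' p) :=
  fun p hp => (h p hp).star
theorem Dx.inv (h : Dx B f f') (k : ∀ p ∈ B, f p ≠ 0) :
    Dx B (fun p => (f p)⁻¹) fun p => -f' p * ((f p)⁻¹ * (f p)⁻¹) := fun p hp =>
  ((h p hp).inv (k p hp)).congr_deriv (by rw [div_eq_mul_inv, sq, mul_inv])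
theorem Dx.bv (h : Dx b.B f f') : Dx b.B (fun p => f (p.1, 0)) fun p => f' (p.1, 0) :=
  fun _ hp => h _ (Box.mem0 hp)

theorem Gd.cc (h : Gd B f) : Cc B f := let ⟨_, a, k⟩ := h; (k f a).1
theorem Gd.der (h : Gd B f) : ∃ f', Gd B f' ∧ Dx B f f' :=
  let ⟨S, a, k⟩ := h; let ⟨f', a', d⟩ := (k f a).2; ⟨f', ⟨S, a', k⟩, d⟩
theorem Gd.mono (h : Gd B f) (s : B' ⊆ B) : Gd B' f :=
  let ⟨S, a, k⟩ := h; ⟨S, a, fun g hg => ⟨(k g hg).1.mono s, (k g hg).2.imp fun _ e => ⟨e.1, e.2.mono s⟩⟩⟩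
/-- Coinduction up to the algebra operations. -/
theorem Gd.coind (S : Set (P → ℂ))
    (h : ∀ g ∈ S, Cc B g ∧ ∃ g' ∈ Algebra.adjoin ℂ (S ∪ {g | Gd B g}), Dx B g g')
    (hf : f ∈ Algebra.adjoin ℂ (S ∪ {g | Gd B g})) : Gd B f := by
  refine ⟨_, hf, fun g hg => ?_⟩
  induction hg using Algebra.adjoin_induction with
  | mem x hx =>
    rcases hx with hx | hx
    · exact h x hx
    · obtain ⟨x', a, d⟩ := Gd.der hx
      exact ⟨Gd.cc hx, x', Algebra.subset_adjoin (Or.inr a), d⟩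
  | algebraMap r => exact ⟨Cc.const r, _, zero_mem _, Dx.const r⟩
  | add x y _ _ a c =>
    obtain ⟨a, x', a', d⟩ := a
    obtain ⟨c, y', c', d'⟩ := c
    exact ⟨a.add c, _, add_mem a' c', d.add d'⟩
  | mul x y hx hy a c =>
    obtain ⟨a, x', a', d⟩ := a
    obtain ⟨c, y', c', d'⟩ := c
    exact ⟨a.mul c, _, add_mem (mul_mem a' hy) (mul_mem hx c'), d.mul d'⟩
theorem Gd.inA {S : Set (P → ℂ)} (h : Gd B f) : f ∈ Algebra.adjoin ℂ (S ∪ {g | Gd B g}) :=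
  Algebra.subset_adjoin (Or.inr h)
theorem Gd.inS {S : Set (P → ℂ)} (h : f ∈ S) : f ∈ Algebra.adjoin ℂ (S ∪ {g | Gd B g}) :=
  Algebra.subset_adjoin (Or.inl h)
theorem Gd.const (s : ℂ) : Gd B fun _ => s :=
  Gd.coind ∅ (fun _ h => h.elim) (Subalgebra.algebraMap_mem _ s)
theorem Gd.add (h : Gd B f) (h' : Gd B g) : Gd B fun p => f p + g p :=
  Gd.coind ∅ (fun _ h => h.elim) (add_mem h.inA h'.inA)
theorem Gd.sub (h : Gd B f) (h' : Gd B g) : Gd B fun p => f p - g p :=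
  Gd.coind ∅ (fun _ h => h.elim) (sub_mem h.inA h'.inA)
theorem Gd.mul (h : Gd B f) (h' : Gd B g) : Gd B fun p => f p * g p :=
  Gd.coind ∅ (fun _ h => h.elim) (mul_mem h.inA h'.inA)
theorem Gd.of_dx (h : Cc B f) (d : Dx B f f') (h' : Gd B f') : Gd B f :=
  Gd.coind {f} (by rintro _ rfl; exact ⟨h, f', h'.inA, d⟩) (Gd.inS rfl)
theorem Gd.congr (h : Gd b.B f) (e : ∀ p ∈ b.B, g p = f p) : Gd b.B g :=
  let ⟨_, a, d⟩ := h.der; Gd.of_dx (h.cc.congr e) (d.congr e fun _ _ => rfl) a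
theorem Gd.of_der (h : Gd b.B f) (d : Dx b.B f f') : Gd b.B f' :=
  let ⟨_, a, d'⟩ := h.der; a.congr fun _ => d.unique d'
theorem Gd.inv (h : Gd B f) {c : ℝ} (hc : 0 < c) (k : ∀ p ∈ B, c ≤ ‖f p‖) :
    Gd B fun p => (f p)⁻¹ :=
  let ⟨_, a, d⟩ := h.der
  Gd.coind {fun p => (f p)⁻¹} (by rintro _ rfl; exact ⟨h.cc.inv hc k, _,
    mul_mem (neg_mem a.inA) (mul_mem (Gd.inS rfl) (Gd.inS rfl)),
    d.inv fun p hp => norm_pos_iff.1 (hc.trans_le (k p hp))⟩) (Gd.inS rfl)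
theorem Gd.conj (h : Gd B f) : Gd B fun p => conj (f p) :=
  ⟨{g | ∃ f, Gd B f ∧ g = fun p => conj (f p)}, ⟨f, h, rfl⟩, fun _ ⟨_, a, e⟩ =>
    let ⟨f', a', d⟩ := a.der; e ▸ ⟨a.cc.conj, _, ⟨f', a', rfl⟩, d.conj⟩⟩
theorem Gd.bv (h : Gd b.B f) : Gd b.B fun p => f (p.1, 0) :=
  ⟨{g | ∃ f, Gd b.B f ∧ g = fun p => f (p.1, 0)}, ⟨f, h, rfl⟩, fun _ ⟨_, a, e⟩ =>
    let ⟨f', a', d⟩ := a.der; e ▸ ⟨a.cc.bv, _, ⟨f', a', rfl⟩, d.bv⟩⟩
/-- A chain of derivatives. -/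
theorem Gd.of_seq {F : ℕ → P → ℂ} (h : ∀ k, Cc B (F k) ∧ Dx B (F k) (F (k + 1))) (k : ℕ) :
    Gd B (F k) := ⟨range F, ⟨k, rfl⟩, fun _ ⟨j, e⟩ => e ▸ ⟨(h j).1, _, ⟨j + 1, rfl⟩, (h j).2⟩⟩

theorem Ch.mono (h : Ch B nn la) (s : B' ⊆ B) : Ch B' nn la :=
  ⟨h.gn.mono s, h.gl.mono s, h.n0.imp fun _ k => ⟨k.1, fun p hp => k.2 p (s hp)⟩, h.dn.mono s⟩
theorem Ch.ne (h : Ch B nn la) (hp : p ∈ B) : (nn p : ℂ) ≠ 0 :=
  let ⟨_, c, k⟩ := h.n0; Complex.ofReal_ne_zero.2 (c.trans_le (k p hp)).ne'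

theorem Iv_zero (f : P → ℂ) (s : ℝ) : Iv nn f (s, 0) = 0 := intervalIntegral.integral_same
theorem Iv_congr (e : ∀ p ∈ b.B, f p = g p) (hp : p ∈ b.B) : Iv nn f p = Iv nn g p :=
  intervalIntegral.integral_congr fun _ ht => congrArg (· * _) (e _ (Box.seg hp ht))
theorem Cc.ii (h : Cc b.B f) (hp : p ∈ b.B) : IntervalIntegrable (fun t => f (p.1, t)) volume 0 p.2 :=
  ((h.sl hp).mono (Box.usub hp)).intervalIntegrable
theorem Iv_add (c : Ch b.B nn la) (h : Cc b.B f) (h' : Cc b.B g) (hp : p ∈ b.B) :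
    Iv nn (fun p => f p + g p) p = Iv nn f p + Iv nn g p := by
  simp only [Iv, add_mul]
  exact intervalIntegral.integral_add ((h.mul c.gn.cc).ii hp) ((h'.mul c.gn.cc).ii hp)
theorem Iv_bv (k : ℝ → ℂ) (f : P → ℂ) (p : P) :
    Iv nn (fun p => k p.1 * f p) p = k p.1 * Iv nn f p := by
  simp only [Iv, mul_assoc, intervalIntegral.integral_const_mul]
theorem Iv_cmul (s : ℂ) (f : P → ℂ) (p : P) : Iv nn (fun p => s * f p) p = s * Iv nn f p :=
  Iv_bv (fun _ => s) f p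
theorem Iv_conj (f : P → ℂ) (p : P) : Iv nn (fun p => conj (f p)) p = conj (Iv nn f p) := by
  simp only [Iv, intervalIntegral, map_sub, ← integral_conj, map_mul, Complex.conj_ofReal]
theorem Iv_de (c : Ch b.B nn la) (h : Cc b.B f) : De b (Iv nn f) fun p => f p * nn p := fun p hp e =>
  have k := (h.mul c.gn.cc).sl hp
  intervalIntegral.integral_hasDerivAt_right ((h.mul c.gn.cc).ii hp)
    ((k.mono Ioo_subset_Icc_self).stronglyMeasurableAtFilter isOpen_Ioo _ e)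
    (k.continuousAt (Icc_mem_nhds e.1 e.2))
theorem Iv_le {C : ℝ} (hp : p ∈ b.B) (h : ∀ t ∈ uIcc 0 p.2, ‖f (p.1, t) * nn (p.1, t)‖ ≤ C) :
    ‖Iv nn f p‖ ≤ C * |p.2| := by
  simpa [Iv] using intervalIntegral.norm_integral_le_of_norm_le_const
    (f := fun t => f (p.1, t) * nn (p.1, t)) fun t ht => h t (uIoc_subset_uIcc ht)
theorem Cc.Iv (c : Ch b.B nn la) (h : Cc b.B f) : Cc b.B (Iv nn f) := by
  obtain ⟨M, m0, hM⟩ := (h.mul c.gn.cc).bd
  obtain ⟨K, -, hK⟩ := b.bd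
  refine ⟨continuousOn_iff_continuous_restrict.2 ?_, M * K, fun p hp =>
    (Iv_le hp fun t ht => hM _ (Box.seg hp ht)).trans (mul_le_mul_of_nonneg_left (hK p hp) m0)⟩
  have k : Continuous (Function.uncurry fun (p : b.B) (t : ℝ) =>
      (fun q : P => f q * nn q) (p.1.1, (projIcc _ _ b.he.le t : ℝ))) :=
    (h.mul c.gn.cc).1.comp_continuous (by fun_prop) fun x => Box.mem2 x.1.2 (projIcc _ _ _ _).2
  refine (intervalIntegral.continuous_parametric_intervalIntegral_of_continuous (μ := volume)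
    (a₀ := 0) k (s := fun p : b.B => p.1.2) (by fun_prop)).congr fun p =>
      intervalIntegral.integral_congr fun t ht => ?_
  simp only [projIcc_of_mem _ (Box.usub p.2 ht)]
theorem Dx.Iv (c : Ch b.B nn la) (h : Cc b.B f) (h' : Cc b.B f') (d : Dx b.B f f') :
    Dx b.B (Iv nn f) (Iv nn fun p => f' p + la p * f p) := fun p hp => by
  have k := (h'.add (c.gl.cc.mul h)).mul c.gn.cc
  obtain ⟨M, -, hM⟩ := k.bd
  have ms : ∀ {g : P → ℂ} {q : P}, Cc b.B g → q ∈ b.B →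
      AEStronglyMeasurable (fun t => g (q.1, t)) (volume.restrict (uIoc 0 q.2)) := fun hg hq =>
    ((hg.sl hq).mono (uIoc_subset_uIcc.trans (Box.usub hq))).aestronglyMeasurable measurableSet_uIoc
  exact (intervalIntegral.hasDerivAt_integral_of_dominated_loc_of_deriv_le (μ := volume)
    (F := fun s t => f (s, t) * nn (s, t))
    (F' := fun s t => (f' (s, t) + la (s, t) * f (s, t)) * nn (s, t)) (bound := fun _ => M)
    (Box.ev1 hp) ((Box.ev1 hp).mono fun s hs => ms (h.mul c.gn.cc) hs) ((h.mul c.gn.cc).ii hp)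
    (ms k hp) (Eventually.of_forall fun t ht s hs => hM _ (Box.seg hs (uIoc_subset_uIcc ht)))
    intervalIntegrable_const (Eventually.of_forall fun t ht s hs =>
      ((d.mul c.dn) _ (Box.seg hs (uIoc_subset_uIcc ht))).congr_deriv (by ring))).2
theorem Gd.Iv (c : Ch b.B nn la) (h : Gd b.B f) : Gd b.B (Iv nn f) :=
  ⟨{g | ∃ f, Gd b.B f ∧ g = R10.Iv nn f}, ⟨f, h, rfl⟩, fun _ ⟨_, a, e⟩ =>
    let ⟨_, a', d⟩ := a.der
    e ▸ ⟨a.cc.Iv c, _, ⟨_, a'.add (c.gl.mul a), rfl⟩, d.Iv c a.cc a'.cc⟩⟩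
/-- The fundamental theorem of calculus. -/
theorem De.ftc (c : Ch b.B nn la) (h : Cc b.B f) (h' : Cc b.B g) (d : De b g fun p => f p * nn p)
    (hp : p ∈ b.B) : g p = g (p.1, 0) + Iv nn f p := by
  have := intervalIntegral.integral_eq_sub_of_hasDeriv_right (f := fun t => g (p.1, t))
    ((h'.sl hp).mono (Box.usub hp)) (fun t ht => ?_) ((h.mul c.gn.cc).ii hp)
  · rw [Iv, this]; ring
  · have e : t ∈ Ioo b.e₀ b.e₁ := ⟨(le_min b.h0 hp.2.1).trans_lt ht.1,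
      ht.2.trans_le (max_le b.h1 hp.2.2)⟩
    exact (d _ (Box.mem2 hp (Ioo_subset_Icc_self e)) e).hasDerivWithinAt
theorem De.congr (h : De b f f') (e : ∀ p ∈ b.B, g p = f p) (e' : ∀ p ∈ b.B, g' p = f' p) :
    De b g g' := fun p hp k => e' p hp ▸ (h p hp k).congr_of_eventuallyEq
      (mem_of_superset (Icc_mem_nhds k.1 k.2) fun _ ht => e _ (Box.mem2 hp ht))
theorem De.of_eq (c : Ch b.B nn la) (h : Cc b.B f) (e : ∀ p ∈ b.B, g p = g (p.1, 0) + Iv nn f p) :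
    De b g fun p => f p * nn p := fun p hp k =>
  ((Iv_de c h p hp k).const_add (g (p.1, 0))).congr_of_eventuallyEq
    (mem_of_superset (Icc_mem_nhds k.1 k.2) fun _ ht => e _ (Box.mem2 hp ht))
/-- A continuous function which vanishes inside and off the arc vanishes. -/
theorem Cc.zero (h : Cc b.B f) (k : ∀ p ∈ b.B, p.2 ∈ Ioo b.e₀ b.e₁ → p.2 ≠ 0 → f p = 0) :
    ∀ p ∈ b.B, f p = 0 := fun p hp => by
  have a : ∀ t ∈ Ioo b.e₀ b.e₁, f (p.1, t) = 0 := fun t ht => by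
    by_cases e : t = 0
    · exact e ▸ h.lim hp (C := {x | x.2 = 0}) (isClosed_eq continuous_snd continuous_const)
        fun t ht => k _ (Box.mem2 hp (Ioo_subset_Icc_self ht)) ht
    · exact k _ (Box.mem2 hp (Ioo_subset_Icc_self ht)) ht e
  exact EqOn.of_subset_closure (g := fun _ => 0) a (h.sl hp) continuousOn_const Ioo_subset_Icc_self
    (closure_Ioo b.he.ne).ge hp.2
theorem Iv_inj (c : Ch b.B nn la) (h : Cc b.B f) (e : ∀ p ∈ b.B, Iv nn f p = 0) :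
    ∀ p ∈ b.B, f p = 0 := h.zero fun p hp k _ => (mul_eq_zero.1
      ((Iv_de c h p hp k).unique (De.congr (f := fun _ => 0) (f' := fun _ => 0)
        (fun _ _ _ => hasDerivAt_const _ _) e (fun _ _ => rfl) p hp k))).resolve_right (c.ne hp)
theorem Iv_mul (c : Ch b.B nn la) (h : Cc b.B f) (h' : Cc b.B g) (hp : p ∈ b.B) :
    Iv nn f p * Iv nn g p = Iv nn (fun p => f p * Iv nn g p + g p * Iv nn f p) p := by
  have := De.ftc c ((h.mul (h'.Iv c)).add (h'.mul (h.Iv c))) ((h.Iv c).mul (h'.Iv c))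
    (fun p hp k => ((Iv_de c h p hp k).mul (Iv_de c h' p hp k)).congr_deriv (by ring)) hp
  simpa [Iv_zero] using this
/-- The height is real and comparable to the second variable. -/
theorem Iv_one (c : Ch b.B nn la) : ∃ c₀ C : ℝ, 0 < c₀ ∧ ∃ y : P → ℝ, ∀ p ∈ b.B, Iv nn 1 p = y p ∧
    c₀ * |p.2| ≤ |y p| ∧ |y p| ≤ C * |p.2| ∧ (0 ≤ p.2 → 0 ≤ y p) := by
  obtain ⟨c₀, c0, k⟩ := c.n0
  obtain ⟨M, -, hM⟩ := c.gn.cc.bd
  refine ⟨c₀, M, c0, fun p => ∫ t in (0 : ℝ)..p.2, nn (p.1, t), fun p hp => ?_⟩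
  have e : Iv nn 1 p = (∫ t in (0 : ℝ)..p.2, nn (p.1, t) : ℝ) := by
    simp [Iv, intervalIntegral.integral_ofReal]
  have i : IntervalIntegrable (fun t => nn (p.1, t)) volume 0 p.2 :=
    ((Complex.continuous_re.comp_continuousOn (c.gn.cc.sl hp)).mono (Box.usub hp)).intervalIntegrable
  have u : |∫ t in (0 : ℝ)..p.2, nn (p.1, t)| ≤ M * |p.2| := by
    simpa [e] using Iv_le (nn := nn) (f := 1) hp fun t ht => by simpa using hM _ (Box.seg hp ht)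
  rcases le_total 0 p.2 with a | a
  · have := intervalIntegral.integral_mono_on a (intervalIntegrable_const (c := c₀)) i
      fun t ht => k _ (Box.seg hp (Icc_subset_uIcc ht))
    rw [intervalIntegral.integral_const, sub_zero, smul_eq_mul, mul_comm] at this
    exact ⟨e, by rw [abs_of_nonneg a]; exact this.trans (le_abs_self _), u,
      fun _ => (mul_nonneg c0.le a).trans this⟩
  · have := intervalIntegral.integral_mono_on a (intervalIntegrable_const (c := c₀)) i.symm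
      fun t ht => k _ (Box.seg hp (Icc_subset_uIcc' ht))
    rw [intervalIntegral.integral_const, zero_sub, smul_eq_mul, mul_comm,
      intervalIntegral.integral_symm] at this
    exact ⟨e, by rw [abs_of_nonpos a]; exact this.trans (neg_le_abs _), u,
      fun h => by simp [le_antisymm a h]⟩

theorem Zc.pos (h : Zc B m f) : ∃ C, 0 ≤ C ∧ ∀ p ∈ B, ‖f p‖ ≤ C * |p.2| ^ max m 0 :=
  let ⟨C, k⟩ := h; ⟨|C|, abs_nonneg C, fun p hp => (k p hp).trans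
    (mul_le_mul_of_nonneg_right (le_abs_self C) (by positivity))⟩
theorem Zc.mono (h : Zc B m f) (s : B' ⊆ B) : Zc B' m f := h.imp fun _ k p hp => k p (s hp)
theorem Zc.congr (h : Zc B m f) (e : ∀ p ∈ B, g p = f p) : Zc B m g :=
  h.imp fun _ k p hp => e p hp ▸ k p hp
theorem Cc.zc (h : Cc B f) (e : m ≤ 0) : Zc B m f := h.2.imp fun _ k p hp => by
  simpa [max_eq_right e] using k p hp
theorem Zc.zero : Zc B m fun _ => 0 := ⟨0, fun _ _ => by simp⟩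
theorem Zc.add (h : Zc B m f) (h' : Zc B m g) : Zc B m fun p => f p + g p :=
  let ⟨_, k⟩ := h; let ⟨_, k'⟩ := h'
  ⟨_, fun p hp => (norm_add_le_of_le (k p hp) (k' p hp)).trans_eq (add_mul _ _ _).symm⟩
theorem Zc.le' (h : Zc b.B n f) (e : max m 0 ≤ max n 0) : Zc b.B m f := by
  obtain ⟨C, c0, k⟩ := h.pos
  obtain ⟨K, -, hK⟩ := b.bd
  refine ⟨C * K ^ (max n 0 - max m 0), fun p hp => (k p hp).trans ?_⟩
  rw [mul_assoc, ← sub_add_cancel (max n 0) (max m 0), add_sub_cancel_right,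
    Real.rpow_add_of_nonneg (abs_nonneg _) (sub_nonneg.2 e) (le_max_right _ _)]
  gcongr
  exact hK p hp
theorem Zc.le (h : Zc b.B n f) (e : m ≤ n) : Zc b.B m f := h.le' (max_le_max_right _ e)
theorem Zc.mul (h : Zc b.B m f) (h' : Zc b.B n g) : Zc b.B (m + n) fun p => f p * g p := by
  obtain ⟨C, k⟩ := h
  obtain ⟨C', k'⟩ := h'
  have a := le_max_right m 0
  have a' := le_max_right n 0
  refine Zc.le (n := max m 0 + max n 0) ⟨C * C', fun p hp =>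
    (norm_mul_le_of_le (k p hp) (k' p hp)).trans_eq ?_⟩ (add_le_add (le_max_left _ _) (le_max_left _ _))
  rw [max_eq_left (add_nonneg a a'), Real.rpow_add_of_nonneg (abs_nonneg _) a a']; ring
theorem Zc.bmul (h : Cc b.B f) (h' : Zc b.B n g) : Zc b.B n fun p => f p * g p := by
  simpa using (h.zc le_rfl).mul h'
theorem Zc.neg (h : Zc b.B m f) : Zc b.B m fun p => -f p := by
  simpa using Zc.bmul (Cc.const (-1)) h
theorem Zc.sub (h : Zc b.B m f) (h' : Zc b.B m g) : Zc b.B m fun p => f p - g p := by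
  simpa only [sub_eq_add_neg] using h.add h'.neg
theorem Zc.conj (h : Zc B m f) : Zc B m fun p => conj (f p) := h.imp fun _ k p hp => by
  simpa using k p hp
theorem Zc.bv (h : Zc b.B m f) (e : 0 < m) (hp : p ∈ b.B) : f (p.1, 0) = 0 := by
  obtain ⟨C, k⟩ := h
  simpa [max_eq_left e.le, e.ne'] using k _ (Box.mem0 hp)
theorem Zc.Iv (c : Ch b.B nn la) (h : Zc b.B m f) : Zc b.B (m + 1) (Iv nn f) := by
  obtain ⟨C, c0, k⟩ := (Zc.bmul c.gn.cc h).pos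
  have a := le_max_right m 0
  refine Zc.le (n := max m 0 + 1) ⟨C, fun p hp => (Iv_le (C := C * |p.2| ^ max m 0) hp
    fun t ht => ?_).trans_eq ?_⟩ (by linarith [le_max_left m 0])
  · rw [mul_comm]
    refine (k _ (Box.seg hp ht)).trans ?_
    exact mul_le_mul_of_nonneg_left (Real.rpow_le_rpow (abs_nonneg _)
      (by simpa using abs_sub_left_of_mem_uIcc ht) a) c0
  · rw [max_eq_left (a := max m 0 + 1) (by linarith), Real.rpow_add_of_nonneg (abs_nonneg _) a zero_le_one,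
      Real.rpow_one, mul_assoc]
theorem Zc.div (c : Ch b.B nn la) (h : Cc b.B f)
    (h' : Zc b.B (m + 1) fun p => R10.Iv nn 1 p * f p) : Zc b.B m f := by
  rcases le_or_gt m 0 with e | e
  · exact h.zc e
  obtain ⟨c₀, C', c0, y, hy⟩ := Iv_one c
  obtain ⟨C, k⟩ := h'
  have a : ∀ p ∈ b.B, p.2 ≠ 0 → ‖f p‖ ≤ C / c₀ * |p.2| ^ max m 0 := fun p hp z => by
    have z' := abs_pos.2 z
    have : ‖R10.Iv nn 1 p * f p‖ ≤ _ := k p hp
    rw [norm_mul, (hy p hp).1, Complex.norm_real, Real.norm_eq_abs, max_eq_left (by linarith),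
      Real.rpow_add z', Real.rpow_one] at this
    rw [max_eq_left e.le, div_mul_eq_mul_div, le_div_iff₀ c0]
    refine le_of_mul_le_mul_right ?_ z'
    nlinarith [mul_le_mul_of_nonneg_right (hy p hp).2.1 (norm_nonneg (f p))]
  refine ⟨C / c₀, fun p hp => (eq_or_ne p.2 0).elim (fun z => ?_) (a p hp)⟩
  have := h.lim hp (C := {x | ‖x.2‖ ≤ C / c₀ * |x.1| ^ max m 0}) (isClosed_le (by fun_prop)
    (continuous_const.mul (continuous_fst.abs.rpow_const fun _ => Or.inr (le_max_right _ _))))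
    fun t ht => a _ (Box.mem2 hp (Ioo_subset_Icc_self ht))
  rwa [show p = (p.1, 0) from Prod.ext rfl z]

end Pool.Agent.MP_ed9623_an.R10
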