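import Pool.Agent.MP_ed9623_an.R10.Defs

/-! Statements of the abstract calculus. -/

namespace Pool.Agent.MP_ed9623_an.R10

open Mdl

/-- From Cartesian jets to the system. -/
def JetS : Prop := ∀ (F : FA) (g : F.R) (ps aa be pr : ℕ → ℕ → F.R), F.Jt g ps aa be pr →
  F.Sys g (F.c⁻¹ • F.am (F.bv (ps 2 0 + ps 0 2))) (F.am (F.bv (ps 0 1))) (aa 0 2) (ps 0 2)

/-- Orders at the level of the first derivative. -/
def EstS : Prop := ∀ (M : Mdl) (n : ℝ), 0 ≤ n → M.f ∈ M.O n →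
  M.I M.A ∈ M.O n ∧ M.Ph ∈ M.O n ∧ M.A - M.A0 ∈ M.O (n + 1) ∧
    M.lap M.g M.V - M.c • M.I (M.I M.V)
      - (2 * M.g * M.q + M.c • M.u + M.y * (M.c • M.h - M.X M.q)) ∈ M.O n

/-- The first Taylor coefficients of the amplitude. -/
def TayS : Prop := ∀ M : Mdl, M.V - (M.e + M.f3 * M.y) ∈ M.O (3 / 2)

/-- Expansion in harmonics. -/
def ExpS : Prop := ∀ (M : Mdl) (d m : ℝ), (d = 1 ∨ d = 2) → M.Ut ∈ M.O (d - 1) → 3 / 2 ≤ m →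
  M.A0 ∈ M.O (m - 1) → ∀ n, M.A ∈ M.G d (m - 1) n ∧ M.Ph ∈ M.G d (m - 1) n

/-- The chain of the leading harmonics. -/
def HarS : Prop := ∀ (M : Mdl) (d m : ℝ), (d = 1 ∨ d = 2) → M.Ut ∈ M.O (d - 1) → 3 / 2 ≤ m →
  M.A0 ∈ M.O (m - 1) → ∃ a : ℕ → M.R, a 0 - M.A0 ∈ M.O (m + 1) ∧ M.cj (a 0) = a 0 ∧
    (M.k = 0 → M.LU (a 0) + M.cj (M.LU (M.cj (a 2))) ∈ M.O (m + 5 / 2)) ∧ ∀ j : ℕ, j ≤ 4 →
      a j ∈ M.O (m - 1 + d * j) ∧ M.LU (a j) ∈ M.O (m + d * j + 3 / 2) ∧ (j ≤ 2 →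
      M.lap M.g (M.lap M.g (4 * a (j + 2))) - M.NU (M.PU (M.I (a j)))
        ∈ M.O (m - 1 + d * (j + 2) + 3 / 2))

/-- Fuchsian relations and a gain give flatness. -/
def GainS : Prop := ∀ (M : Mdl) (r θ : ℝ) (μ μ₁ γ γ₁ : M.R), 0 < θ → θ ≤ r → M.Fu r μ μ₁ γ γ₁ →
  (∀ m : ℝ, 3 / 2 ≤ m → M.A0 ∈ M.O (m - 1) → M.f ∈ M.O (m + θ)) → M.Fl M.f

/-- The exponent is constant and large. -/
def Mu0S : Prop := ∀ (M : Mdl) (r : ℝ) (μ γ : M.R), 0 < r → r ≤ 1 → M.S μ → M.S γ → M.Fu r μ 0 γ 0 →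
  (IsUnit (M.X μ) ∨ ∃ N : ℝ, N < 3 / 2 ∧ μ = algebraMap ℂ _ N) → M.Fl M.f

/-- The commutator at the next order. -/
def Mu1S : Prop := ∀ (M : Mdl) (N : ℝ) (μ₁ γ γ₁ : M.R), 3 / 2 ≤ N → M.S μ₁ → M.S γ → M.S γ₁ →
  M.Fu (3 / 2) (algebraMap ℂ _ N) μ₁ γ γ₁ → IsUnit (γ₁ - M.X μ₁) → M.Fl M.f

/-- The third and the fifth harmonic on symbols. -/
def ChS : Prop := ∀ (M : Mdl) (r N : ℝ) (μ₁ γ : M.R), 0 < r → r ≤ 3 / 2 → 3 / 2 ≤ N → M.S μ₁ →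
  M.S γ → M.Fu r (algebraMap ℂ _ N) μ₁ γ (M.X μ₁) → ∀ m : ℝ, 3 / 2 ≤ m → M.A0 ∈ M.O (m - 1) →
  ∀ (n : ℂ) (p : M.R × M.R), (n = N + 2 ∧ p = (M.dj γ).st N (1, μ₁) ∨
    n = N + 4 ∧ p = (M.dj γ).st (N + 2) ((M.dj γ).st N (1, μ₁))) →
    ((M.dj γ).E0 n p + ((M.dj γ).E1 n p - μ₁ * (M.dj γ).E0 n p) * M.y) * M.f ∈ M.O (m + r)

/-- The third harmonic on a straight arc with constant amplitude. -/
def Ch2S : Prop := ∀ (M : Mdl) (N : ℝ) (γ P : M.R), M.St → M.u1 = 0 → 3 / 2 ≤ N →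
  γ = (N / 2 : ℂ) • M.r0 → M.Fu (1 / 2) (algebraMap ℂ _ N) 0 γ 0 →
  P = M.h ^ 2 * (M.X γ + γ ^ 2) - ((2 * N ^ 2 + N - 2) / 2 : ℂ) • (M.r0 * M.h * M.q)
    + (N ^ 2 - 1 : ℂ) • M.q ^ 2 → ∀ m : ℝ, 3 / 2 ≤ m → M.A0 ∈ M.O (m - 1) →
  (M.X P - 2 * M.r0 * P) * M.f ∈ M.O (m + 1 / 2)

/-- The first harmonic, leading order and next order. -/
def B1S : Prop := ∀ M : Mdl, IsUnit (M.wd M.l M.q) → M.Fu 1 M.mu 0 M.ga 0
def B2S : Prop := ∀ (M : Mdl) (N : ℝ), IsUnit (M.wd M.l M.q) → 3 / 2 ≤ N →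
  M.mu = algebraMap ℂ _ N → M.Fu (3 / 2) M.mu (M.sx (M.rr N)) M.ga (M.sx' (M.rr N))

/-- The first harmonic on a straight arc: real part, and the two imaginary parts. -/
def Im3 (M : Mdl) (k₁ k₂ k₃ : M.R) : Prop := ∀ m : ℝ, 3 / 2 ≤ m → M.A0 ∈ M.O (m - 1) →
  2 * M.T M.A0 - M.r0 * M.y * M.A0 ∈ M.O (m + 1) ∧
  k₁ * M.T (M.T M.A0) + k₂ * M.y * M.T M.A0 + k₃ * M.y ^ 2 * M.A0 ∈ M.O (m + 3 / 2)
def B3aS : Prop := ∀ M : Mdl, M.St → Im3 M (M.wd M.e M.q) (-2 * M.wd (M.X M.e) M.q) 0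
def B3bS : Prop := ∀ M : Mdl, M.St → M.sy M.u M.q = 0 →
  Im3 M (M.sy M.h M.q) (-2 * (M.q * M.cj M.q)) ((3⁻¹ : ℂ) • (M.r0 * (M.q * M.cj M.q)))
def B3cS : Prop := ∀ (M : Mdl) (k₁ k₂ k₃ n : M.R), M.St → M.S k₁ → M.S k₂ → M.S k₃ →
  Im3 M k₁ k₂ k₃ → IsUnit (M.rh k₁ k₂ k₃) →
  n = -(k₁ * M.ct * Ring.inverse (M.rh k₁ k₂ k₃)) - 1 →
  M.Fu (1 / 2) n 0 ((2⁻¹ : ℂ) • (n * M.r0)) 0

/-- The two coercive cases. -/
def T2S : Prop := ∀ M : Mdl, M.wd M.l M.q = 0 → IsUnit M.k → IsUnit (M.wd M.e M.q) → M.Fl M.f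
def TcS : Prop := ∀ M : Mdl, M.St → IsUnit (M.wd M.e M.q) → M.rh2 = 0 → M.Fl M.f

/-- The leading term of the pencil. -/
def Lead (M : Mdl) (j : ℕ) (r : M.R) : Prop := ∃ σ : M.R, M.δ σ = 0 ∧
  σ * M.r1 - r * M.y ^ j ∈ M.O (j + 1 / 2)
def Nd1S : Prop := ∀ M : Mdl, Lead M 1 (M.wd M.l M.q)
def Nd2S : Prop := ∀ M : Mdl, M.St → Lead M 2 M.rh2
def Nd3S : Prop := ∀ M : Mdl, M.St → M.sy M.u M.q = 0 → Lead M 3 M.rh3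
def NdRS : Prop := ∀ M : Mdl, M.Fl M.f → M.Fl M.rs ∨ ∃ j r, M.S r ∧ r ≠ 0 ∧ Lead M j r

/-- A reduced algebra with a derivation maps to a field with a derivation. -/
def PfS : Prop := ∀ (R : Type) [CommRing R] [Algebra ℂ R] (X : R →ₗ[ℂ] R), (1 : R) ≠ 0 →
  (∀ a : R, a * a = 0 → a = 0) → (∀ a b, X (a * b) = X a * b + a * X b) →
  ∃ (K : Type) (_ : Field K) (_ : Algebra ℂ K) (D : K →ₗ[ℂ] K) (φ : R →ₐ[ℂ] K),
    (∀ a b, D (a * b) = D a * b + a * D b) ∧ ∀ a, φ (X a) = D (φ a)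

/-- The jets of a resonant arc in a field. -/
structure Arc {K : Type} [Field K] [Algebra ℂ K] (D : K →ₗ[ℂ] K) (J : DJ K) (c : ℂ) (u : K) :
    Prop where
  mul : ∀ a b, D (a * b) = D a * b + a * D b
  D_eq : J.D = D
  c0 : c ≠ 0
  k0 : J.k ≠ 0
  u0 : J.u1 ≠ 0
  q0 : J.q ≠ 0
  dg : D J.g = J.k
  hw : J.w = 1 + J.g ^ 2
  wi : J.w * J.wi = 1
  du : D u = J.u1
  du1 : D J.u1 = J.k * J.h
  dh : D J.h = J.q
  he : J.e = J.wi * (c • u + 2 * J.g * J.q)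
  hl : J.l = D J.q - J.k * J.e
  hf : J.f3 = J.wi * (c • J.h + 2 * J.g * D J.e - J.l)
  hm : J.m2 = D (D J.e) - J.k * J.f3

/-- The three relations on the arc: resonance, curvature equation, algebraic relation. -/
def Rel {K : Type} [Field K] [Algebra ℂ K] (D : K →ₗ[ℂ] K) (J : DJ K) (c : ℂ) (u : K) : Prop :=
  ∀ η E C : K, η = (J.w * J.h - J.g * J.u1) / J.u1 → E = c • u / J.q →
    C = algebraMap ℂ K c * J.u1 ^ 2 / (J.w * J.q ^ 2) →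
    J.l * J.u1 * J.w = 2 * J.q * J.k * (J.w * J.h - 2 * J.g * J.u1) ∧
    J.k * J.u1 / (J.w ^ 2 * J.q) * (1 + η ^ 2)
      * ((D J.k * J.w - 3 * J.g * J.k ^ 2) / J.k ^ 2 + E - 3 * η) + 2 * η - 2 * C * η - E = 0 ∧
    E * (2 + 4 * (J.k * J.u1 / (J.w ^ 2 * J.q) * (1 + η ^ 2)) + C) = 6 * C * η

def RaAS : Prop := ∀ (K : Type) [Field K] [Algebra ℂ K] (D : K →ₗ[ℂ] K) (J : DJ K) (c : ℂ)
  (u μ₁ : K) (N : ℝ), Arc D J c u → 3 / 2 ≤ N →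
  (∀ (n : ℂ) (p : K × K), (n = N ∧ p = (1, μ₁) ∨ n = N + 2 ∧ p = J.st N (1, μ₁) ∨
    n = N + 4 ∧ p = J.st (N + 2) (J.st N (1, μ₁))) → J.E0 n p = 0 ∧ J.E1 n p = 0) → Rel D J c u

/-- The closed system has no solution. -/
def RaCS : Prop := ∀ (K : Type) [Field K] [CharZero K] (D : K →+ K) (X Y r N : K),
  (∀ a b, D (a * b) = D a * b + a * D b) → X ≠ 0 → Y ≠ 0 →
  X * D N = -2 * (N - 1) * N * (1 - X) → X * D r = Y * N - X * r * (2 + r) - r * N * (1 - X) →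
  D X = r * (1 - 2 * X) + 2 * Y → D Y = -2 * Y * (1 + r) → r * (2 + 4 * X + Y) = 6 * Y → False

def RaBS : Prop := ∀ (K : Type) [Field K] [Algebra ℂ K] (D : K →ₗ[ℂ] K) (J : DJ K) (c : ℂ) (u : K),
  Arc D J c u → Rel D J c u → False

/-- No resonant arc. -/
def RaS : Prop := ∀ (M : Mdl) (N : ℝ) (μ₁ γ : M.R), IsUnit M.k → IsUnit M.u1 → IsUnit M.q →
  3 / 2 ≤ N → (∀ (n : ℂ) (p : M.R × M.R), (n = N ∧ p = (1, μ₁) ∨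
    n = N + 2 ∧ p = (M.dj γ).st N (1, μ₁) ∨
    n = N + 4 ∧ p = (M.dj γ).st (N + 2) ((M.dj γ).st N (1, μ₁))) →
      (M.dj γ).E0 n p = 0 ∧ (M.dj γ).E1 n p = 0) → False

/-! ### Smoothness across the arc -/

/-- Flat at level `n`. -/
def FL (F : FA) (n : ℕ) (a : F.R) : Prop := ∀ M, F.OL n M a

/-- The levels are stable under the derivation along the characteristics. -/
def LvXS : Prop := ∀ (F : FA) (n : ℕ), F.Lv (n + 1) F.el → ∀ j ≤ n + 1, ∀ a,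
  (F.Lv j a → F.Lv j (F.X a) ∧ F.Lv j (F.T a)) ∧ (FL F j a → FL F j (F.X a) ∧ FL F j (F.T a)) ∧
  (j ≤ n → FL F j a → FL F (j + 1) (F.T a + F.el * a))

/-- Inversion of the Laplacian on flat levels. -/
def LapFS : Prop := ∀ (F : FA) (g : F.R) (n : ℕ), F.S g → IsUnit (1 + (g + F.el) ^ 2) →
  F.Lv (n + 1) F.el → ∀ j ≤ n, ∀ a, FL F j a → FL F (j + 1) (F.lap g a) → FL F (j + 1) a

/-- Integration in time on flat levels. -/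
def IntLS : Prop := ∀ (F : FA) (n : ℕ) (a : F.R), F.Lv n a → FL F n (F.δ a) → FL F n (a - F.ev a)

/-- Division on flat levels. -/
def DivFS : Prop := ∀ (F : FA) (n j : ℕ) (σ ρ a : F.R), F.δ σ = 0 → F.δ ρ = 0 → F.δ a = 0 →
  σ * ρ = F.y ^ j → F.Lv n ρ → F.Fl a → FL F n (ρ * a) → FL F n a

/-- The third derivative and the derivative of the slope. -/
def DwS : Prop := ∀ M : Mdl, ∃ W', M.Dy M.W W' ∧
  (1 + (M.g + M.el) ^ 2) * W' = (2 * M.g + M.el) * M.X M.W - M.re (M.z * M.X M.q) - M.X (M.T M.W)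
    + M.k * M.W + M.δ (M.py M.h M.W) + (M.pt M.u M.h M.W * M.A - M.py M.h M.W * M.T M.A
      - M.pq M.h M.W * M.I M.A + M.W * M.T (M.I M.A)) ∧
  2 * M.ev (M.pq M.h M.W + M.el * M.W) * M.la = -M.ev (M.re (M.z * M.X M.q) + M.X (M.T M.W)
    + M.el * M.X M.W - M.k * M.W)

def SmWS : Prop := ∀ (M : Mdl) (n : ℕ), M.Lv (n + 1) M.el → M.Lv (n + 1) M.W →
  M.Lv (n + 1) M.A → M.Lv (n + 2) M.W ∧ M.Lv (n + 2) M.el
def SmBS : Prop := ∀ (M : Mdl) (n : ℕ), M.Fl M.f → M.Lv (n + 1) M.el → M.Lv (n + 1) M.W →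
  FL M.toFA n M.A → FL M.toFA (n + 1) (M.A - M.A0)
def SmAS : Prop := ∀ (M : Mdl) (n j : ℕ), j ≤ n + 1 → M.Lv (n + 1) M.el → M.Lv (n + 1) M.W →
  FL M.toFA j M.f → FL M.toFA j (M.A - M.A0) → FL M.toFA j (M.r1 * M.A0)

/-- Flat and nondegenerate implies smooth. -/
def SmS : Prop := ∀ M : Mdl, M.Fl M.f → M.Nd → M.Sm
/-- On the side of the zone. -/
def Sm0S : Prop := ∀ M : Mdl, M.A = 0 → M.Sm

/-! ### The tree -/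

/-- After localisation a leading term gives the division property. -/
def LocS : Prop := ∀ P : Mdl → Prop, Site P → ∀ M, P M → ∀ (j : ℕ) (r : M.R), M.S r → r ≠ 0 →
  Lead M j r → M.Fl M.f → ∃ M', P M' ∧ M'.Sm

/-- The Fuchsian case of the first order. -/
def Tr1S : Prop := ∀ P : Mdl → Prop, Site P → ∀ M, P M → IsUnit M.q → IsUnit (M.wd M.l M.q) →
  (M.k = 0 ∨ IsUnit M.k ∧ IsUnit M.u1) → ∃ M', P M' ∧ M'.Sm
/-- Curved arcs. -/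
def TrKS : Prop := ∀ P : Mdl → Prop, Site P → ∀ M, P M → IsUnit M.q → IsUnit M.k →
  ∃ M', P M' ∧ (M'.Sm ∨ M'.OutF)
/-- The Fuchsian cases on a straight arc. -/
def Tr3S : Prop := ∀ (P : Mdl → Prop) (n : ∀ M : Mdl, M.R), Site P →
  (∀ M M' φ, P M → P M' → Hom M M' φ → φ (n M) = n M') →
  (∀ M, P M → M.St ∧ M.S (n M) ∧ M.cj (n M) = n M ∧
    M.Fu (1 / 2) (n M) 0 ((2⁻¹ : ℂ) • (n M * M.r0)) 0 ∧ ∃ j r, M.S r ∧ r ≠ 0 ∧ Lead M j r) →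
  ∀ M, P M → ∃ M', P M' ∧ (M'.Sm ∨ M'.u1 = 0 ∧ ∃ N : ℝ, 3 / 2 ≤ N ∧ n M' = algebraMap ℂ _ N ∧ M'.H3 N)
/-- Straight arcs. -/
def TrSS : Prop := ∀ P : Mdl → Prop, Site P → ∀ M, P M → M.St →
  ∃ M', P M' ∧ (M'.Sm ∨ M'.OutR ∨ M'.OutA ∨ M'.OutB ∨ M'.OutF)

/-- The alternatives on a smaller box. -/
def TreeS : Prop := ∀ P : Mdl → Prop, Site P → ∀ M, P M → (M.k = 0 → M.g = 0) →
  ∃ M', P M' ∧ (M'.Sm ∨ M'.OutQ ∨ M'.OutR ∨ M'.OutA ∨ M'.OutB ∨ M'.OutF)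

/-! ### The flat resultant -/

section
variable {C : Type} [CommRing C] [Algebra ℂ C] (D₁ D₂ : C →ₗ[ℂ] C) (U V : C)

/-- The complex derivatives. -/
def dz (a : C) : C := D₁ a - Complex.I • D₂ a
def db (a : C) : C := D₁ a + Complex.I • D₂ a
def lq (a : C) : C := D₁ (D₁ a) + D₂ (D₂ a)
def rC : C := (D₁ (D₁ U) * D₂ (D₂ V) - D₁ (D₁ V) * D₂ (D₂ U)) ^ 2
  - 4 * (D₁ (D₁ U) * D₁ (D₂ V) - D₁ (D₁ V) * D₁ (D₂ U))
    * (D₁ (D₂ U) * D₂ (D₂ V) - D₁ (D₂ V) * D₂ (D₂ U))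
/-- The derivatives of the resultant of `(a, t, b)` and `(b', t', a')` in `a` and in `b'`. -/
def ra (a t b a' t' b' : C) : C := 2 * (a * a' - b * b') * a' - 4 * t' * (t * a' - t' * b)
def rb (a t b a' t' b' : C) : C := -2 * (a * a' - b * b') * b + 4 * t * (t * a' - t' * b)
/-- The determinant for the derivation `p` and the conjugate derivation `p'`. -/
def dd (p p' : C → C) : C :=
  ra (p (p U)) (lq D₁ D₂ U) (p' (p' U)) (p' (p' V)) (lq D₁ D₂ V) (p (p V)) *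
    p' (rb (p (p U)) (lq D₁ D₂ U) (p' (p' U)) (p' (p' V)) (lq D₁ D₂ V) (p (p V)))
  - rb (p (p U)) (lq D₁ D₂ U) (p' (p' U)) (p' (p' V)) (lq D₁ D₂ V) (p (p V)) *
    p' (ra (p (p U)) (lq D₁ D₂ U) (p' (p' U)) (p' (p' V)) (lq D₁ D₂ V) (p (p V)))
end

/-- A finite closed system of flat functions. -/
def HbS : Prop := ∀ (C : Type) [CommRing C] [Algebra ℂ C] (D₁ D₂ : C →ₗ[ℂ] C) (U V : C) (c : ℂ)
  (J : Ideal C), (∀ a b, D₁ (a * b) = D₁ a * b + a * D₁ b) →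
  (∀ a b, D₂ (a * b) = D₂ a * b + a * D₂ b) → (∀ a, D₁ (D₂ a) = D₂ (D₁ a)) →
  lq D₁ D₂ U = c • U → lq D₁ D₂ V = -c • V → (∀ a ∈ J, D₁ a ∈ J ∧ D₂ a ∈ J) → rC D₁ D₂ U V ∈ J →
  IsUnit (dd D₁ D₂ U V (dz D₁ D₂) (db D₁ D₂)) → IsUnit (dd D₁ D₂ V U (db D₁ D₂) (dz D₁ D₂)) →
  ∃ (n : ℕ) (f : Fin n → C), (∀ i, f i ∈ J) ∧ rC D₁ D₂ U V ∈ Ideal.span (Set.range f) ∧
    ∀ i, lq D₁ D₂ (f i) ∈ Ideal.span (Set.range f ∪ Set.range (fun j => D₁ (f j))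
      ∪ Set.range fun j => D₂ (f j))

/-- Cartesian derivatives of first and second order. -/
def C2 (M : Mdl) (a a₁ a₂ a₁₁ a₁₂ a₂₂ : M.R) : Prop :=
  M.Dy a a₂ ∧ M.Dy a₂ a₂₂ ∧ M.Dy a₁ a₁₂ ∧ M.X a = a₁ + (M.g + M.el) * a₂ ∧
    M.X a₂ = a₁₂ + (M.g + M.el) * a₂₂ ∧ M.X a₁ = a₁₁ + (M.g + M.el) * a₁₂

/-- The closed system in a model on the side of the zone. -/
def RcAS : Prop := ∀ P : Mdl → Prop, Site P → (∀ M, P M → M.A = 0 ∧ M.Ph = 0) → ∀ M, P M →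
  M.OutF → ∃ M', P M' ∧ ∃ (n : ℕ) (f f₁ f₂ f₁₁ f₁₂ f₂₂ : Fin n → M'.R),
    (∀ i, C2 M' (f i) (f₁ i) (f₂ i) (f₁₁ i) (f₁₂ i) (f₂₂ i) ∧
      ∀ a ∈ [f i, f₁ i, f₂ i, f₁₁ i, f₁₂ i, f₂₂ i], M'.δ a = 0 ∧ M'.bv a = 0) ∧
    M'.rs ∈ Ideal.span (Set.range f) ∧
    ∀ i, f₁₁ i + f₂₂ i ∈ Ideal.span (Set.range f ∪ Set.range f₁ ∪ Set.range f₂)

/-! ### Rows -/

def OfJet : Prop := JetS
def OfEst : Prop := EstS
def OfTay : Prop := EstS → TayS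
def OfExp : Prop := EstS → ExpS
def OfHar : Prop := EstS → ExpS → HarS
def OfGain : Prop := GainS ∧ Mu0S
def OfMu1 : Prop := GainS → Mu1S
def OfCh : Prop := TayS → HarS → ChS
def OfCh2 : Prop := TayS → HarS → Ch2S
def OfB12 : Prop := TayS → HarS → B1S ∧ B2S
def OfB3a : Prop := TayS → HarS → B3aS
def OfB3b : Prop := TayS → HarS → B3aS → B3bS
def OfB3c : Prop := B3cS
def OfT2 : Prop := EstS → TayS → Nd1S → T2S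
def OfTc : Prop := EstS → TayS → DwS → Nd2S → TcS
def OfNd : Prop := EstS → TayS → Nd1S ∧ Nd2S ∧ Nd3S
def OfNdR : Prop := EstS → NdRS
def OfPf : Prop := PfS
def OfRaA : Prop := RaAS
def OfRaC : Prop := RaCS
def OfRaB : Prop := RaCS → RaBS
def OfRa : Prop := PfS → RaAS → RaBS → RaS
def OfLvX : Prop := LvXS
def OfLapF : Prop := LvXS → LapFS ∧ IntLS ∧ DivFS
def OfDw : Prop := DwS
def OfSmW : Prop := LvXS → DwS → SmWS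
def OfSmB : Prop := EstS → LvXS → LapFS → IntLS → SmBS
def OfSmA : Prop := LvXS → SmAS
def OfSm : Prop := EstS → DwS → DivFS → SmWS → SmBS → SmAS → SmS ∧ Sm0S
def OfLoc : Prop := SmS → LocS
def OfTr1 : Prop := GainS → Mu0S → Mu1S → ChS → B1S → B2S → RaS → Nd1S → LocS → Tr1S
def OfTrK : Prop := T2S → NdRS → LocS → Tr1S → TrKS
def OfTr3 : Prop := GainS → Mu0S → ChS → Ch2S → LocS → Tr3S
def OfTrS : Prop := B3aS → B3bS → B3cS → TcS → Nd2S → Nd3S → NdRS → LocS → Tr3S → TrSS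
def OfTree : Prop := Tr1S → TrKS → TrSS → TreeS
def OfHb : Prop := HbS
def OfRcA : Prop := HbS → LvXS → Sm0S → RcAS

end Pool.Agent.MP_ed9623_an.R10
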