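import Pool.Agent.MP_ed9623_an.R1.Base
import Pool.Agent.MP_ed9623_an.R10.In
import Pool.Agent.MP_ed9623_an.R10.Spec

/-! The concrete models: functions on a box in the chart, and the statements about them. -/

open Filter Topology Set
open scoped ComplexConjugate

namespace Pool.Agent.MP_ed9623_an.R10

open H77 (P Q)
open R77 (J2)
open R46 (Ix ly C1)
open R1 (cz ex lc Smo Tz CzS)
open Mdl

/-- A box around a piece of the arc `e = 0`. -/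
structure Box where
  s₀ : ℝ
  s₁ : ℝ
  e₀ : ℝ
  e₁ : ℝ
  hs : s₀ < s₁
  h0 : e₀ ≤ 0
  h1 : 0 ≤ e₁
  he : e₀ < e₁

def Box.B (b : Box) : Set P := Ioo b.s₀ b.s₁ ×ˢ Icc b.e₀ b.e₁

/-- Continuous and bounded. -/
def Cc (B : Set P) (f : P → ℂ) : Prop := ContinuousOn f B ∧ ∃ M, ∀ p ∈ B, ‖f p‖ ≤ M
/-- The derivative in the first variable. -/
def Dx (B : Set P) (f g : P → ℂ) : Prop := ∀ p ∈ B, HasDerivAt (fun s => f (s, p.2)) (g p) p.1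
/-- The derivative in the second variable, inside the box. -/
def De (b : Box) (f g : P → ℂ) : Prop :=
  ∀ p ∈ b.B, p.2 ∈ Ioo b.e₀ b.e₁ → HasDerivAt (fun t => f (p.1, t)) (g p) p.2
/-- All derivatives in the first variable are continuous and bounded. -/
def Gd (B : Set P) (f : P → ℂ) : Prop :=
  ∃ S : Set (P → ℂ), f ∈ S ∧ ∀ g ∈ S, Cc B g ∧ ∃ g' ∈ S, Dx B g g'
/-- The primitive in the height; `nn` is the derivative of the height in the second variable. -/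
noncomputable def Iv (nn : P → ℝ) (f : P → ℂ) : P → ℂ :=
  fun p => ∫ t in (0 : ℝ)..p.2, f (p.1, t) * nn (p.1, t)
/-- The pointwise order. -/
def Zc (B : Set P) (m : ℝ) (f : P → ℂ) : Prop := ∃ C, ∀ p ∈ B, ‖f p‖ ≤ C * |p.2| ^ max m 0
/-- Vanishing below the arc. -/
def Uc (B : Set P) (f : P → ℂ) : Prop := ∀ p ∈ B, p.2 ≤ 0 → f p = 0

/-- The data of the chart. -/
structure Ch (B : Set P) (nn la : P → ℝ) : Prop where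
  gn : Gd B fun p => nn p
  gl : Gd B fun p => la p
  n0 : ∃ c > 0, ∀ p ∈ B, c ≤ nn p
  dn : Dx B (fun p => nn p) fun p => la p * nn p

/-- `F` is the algebra of time series of good functions on the box; `v` is the value at the base
time. -/
structure Rep (F : FA) (b : Box) (nn la : P → ℝ) (v : F.R → P → ℂ) : Prop where
  ch : Ch b.B nn la
  gd : ∀ a, Gd b.B (v a)
  ext : ∀ a, (∀ j, ∀ p ∈ b.B, v (F.δ^[j] a) p = 0) → a = 0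
  sur : ∀ G : ℕ → P → ℂ, (∀ j, Gd b.B (G j)) → ∃ a, ∀ j, ∀ p ∈ b.B, v (F.δ^[j] a) p = G j p
  add : ∀ a a', ∀ p ∈ b.B, v (a + a') p = v a p + v a' p
  mul : ∀ a a', ∀ p ∈ b.B, v (a * a') p = v a p * v a' p
  alg : ∀ s : ℂ, ∀ p ∈ b.B, v (algebraMap ℂ F.R s) p = s
  I : ∀ a, ∀ p ∈ b.B, v (F.I a) p = Iv nn (v a) p
  X : ∀ a, Dx b.B (v a) (v (F.X a))
  ev : ∀ a, ∀ p ∈ b.B, v (F.ev a) p = v a p
  bv : ∀ a, ∀ p ∈ b.B, v (F.bv a) p = v a (p.1, 0)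
  cj : ∀ a, ∀ p ∈ b.B, v (F.cj a) p = conj (v a p)
  la : ∀ p ∈ b.B, v F.la p = la p
  Z : ∀ m a, a ∈ F.Z m ↔ ∀ j, Zc b.B m (v (F.δ^[j] a))
  U : ∀ a, a ∈ F.U ↔ ∀ j, Uc b.B (v (F.δ^[j] a))

/-- The input as one object. -/
structure Dat where
  n : ℝ
  O : Set P
  Z : Set P
  ps : ℝ → ℕ → J2
  al : ℝ → ℕ → J2
  pr : ℝ → ℕ → J2
  t : ℝ
  a : ℝ
  r : ℝ
  ps' : ℕ → J2
  al' : ℕ → J2
  pr' : ℕ → J2
  c : ℝ
  ε : ℝ
  l : P → ℝ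
  m : P → ℝ
  s : P → ℝ
  Y : P → ℝ
  nn : P → ℝ
  h : In n O Z ps al pr t a r ps' al' pr' c ε l m s Y nn

namespace Dat

variable (D : Dat)

/-- The chart, its inverse, the transversal derivative of the slope, the phase. -/
def Ψ (p : P) : P := (p.1, D.Y p)
noncomputable def Ξ : P → P := Function.invFunOn D.Ψ (Q D.r)
noncomputable def la (p : P) : ℝ := ly (D.ps' 0) D.l D.s (D.Ψ p)
noncomputable def E : ℂ := ex D.n D.t 0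

end Dat

/-- A concrete model. -/
structure Cm (D : Dat) (b : Box) (M : Mdl) (v : M.R → P → ℂ) (ps aa : ℕ → ℕ → M.R) : Prop where
  sub : b.B ⊆ Q D.r
  rep : Rep M.toFA b D.nn D.la v
  c : M.c = Complex.I * √D.n
  jt : ∃ be pr, M.Jt M.g ps aa be pr
  vp : ∀ j x y, x + y ≤ 3 → ∀ p ∈ b.B, v (M.δ^[j] (ps x y)) p = D.ps' j x y (D.Ψ p)
  va : ∀ j x y, x + y ≤ 2 → ∀ p ∈ b.B, v (M.δ^[j] (aa x y)) p = D.al' j x y (D.Ψ p)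
  lam : ∀ p ∈ b.B, v (M.g + M.el) p = D.l (D.Ψ p)
  hW : M.W = ps 0 2
  hA : M.A = aa 0 2
  hh : M.h = M.am (M.bv (ps 0 1))
  hu : M.u = M.c⁻¹ • M.am (M.bv (ps 2 0 + ps 0 2))

/-- The concrete models on the boxes of a class. -/
def Pc (D : Dat) (R : Box → Prop) (M : Mdl) : Prop := ∃ b v ps aa, R b ∧ Cm D b M v ps aa

/-- A class of boxes which contains small boxes around every point of the arc. -/
def Shr (R : Box → Prop) : Prop := ∀ b, R b → ∀ s ∈ Ioo b.s₀ b.s₁, ∀ N ∈ 𝓝 ((s, 0) : P),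
  ∃ b', R b' ∧ b'.B ⊆ b.B ∩ N

/-! ### One dimensional analysis -/

/-- The regular singular equation. -/
def FuC : Prop := ∀ (b : Box) (nn la : P → ℝ) (μ m M : ℝ) (f : P → ℂ), Ch b.B nn la → Cc b.B f →
  μ < m → Uc b.B (Iv nn f) → Zc b.B m (Iv nn f) →
  Zc b.B M (fun p => Iv nn 1 p * f p - μ * Iv nn f p) → Zc b.B M (Iv nn f)

/-- The coercive equation. -/
def CoC : Prop := ∀ (b : Box) (nn la : P → ℝ) (θ M c : ℝ) (f ρ β β₀ : P → ℂ), Ch b.B nn la →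
  Cc b.B f → Cc b.B ρ → Cc b.B β → 0 < θ → 0 < c → (∀ p ∈ b.B, conj (ρ p) = ρ p) →
  (∀ p ∈ b.B, conj (β p) = β p) → (∀ p ∈ b.B, c ≤ ‖β₀ p‖) → Zc b.B (1 + θ) ρ →
  Zc b.B θ (fun p => β p - β₀ p) → Uc b.B (Iv nn f) →
  Zc b.B M (fun p => ρ p * f p - β p * Iv nn f p) → Zc b.B M (Iv nn f)

/-- The quotient rule. -/
def VqC : Prop := ∀ (b : Box) (nn la : P → ℝ) (ρ ρ' d : P → ℂ), Ch b.B nn la → Cc b.B ρ' →
  Cc b.B d → (∀ p ∈ b.B, p.2 ≠ 0 → ρ p ≠ 0) → (∀ p ∈ b.B, ρ p = ρ (p.1, 0) + Iv nn ρ' p) →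
  (∀ p ∈ b.B, ρ p * d p = Iv nn (fun p => ρ' p * d p) p) → (∀ p ∈ b.B, d (p.1, 0) = 0) →
  ∀ p ∈ b.B, d p = 0

/-- Division by the height. -/
def DvC : Prop := ∀ (b : Box) (nn la : P → ℝ) (m : ℝ) (f : ℕ → P → ℂ), Ch b.B nn la → 0 < m →
  (∀ k, Cc b.B (f k) ∧ Dx b.B (f k) (f (k + 1)) ∧ Zc b.B (m + 1) (f k)) →
  Gd b.B fun p => f 0 p / Iv nn 1 p

/-! ### The models -/

/-- The algebra of a box. -/
def RepS : Prop := ∀ (b : Box) (nn la : P → ℝ) (c : ℂ), Ch b.B nn la → c ≠ 0 → conj c = -c →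
  ∃ (F : FA) (v : F.R → P → ℂ), Rep F b nn la v ∧ F.c = c

/-- The Hessian in the frame of the arc, and the tangential derivative on the arc. -/
def Jet2S : Prop := ∀ (F : FA) (g h : F.R) (ps aa be pr : ℕ → ℕ → F.R), F.Jt g ps aa be pr →
  h = F.am (F.bv (ps 0 1)) → F.pq h (ps 0 2) = ps 1 1 + g * ps 0 2 ∧
    F.pa g h (ps 0 2) = ps 2 0 + 2 * g * ps 1 1 + g ^ 2 * ps 0 2 ∧
    F.X (F.c⁻¹ • F.am (F.bv (ps 2 0 + ps 0 2))) = F.am (F.bv (ps 1 0 + g * ps 0 1))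

/-- The jets of the half sum vanish below the arc; the slope is differentiable. -/
def VanS : Prop := ∀ D : Dat,
  (∀ j x y, 1 ≤ x + y → x + y ≤ (Ix.al j).ord → ∀ p ∈ Q D.r, p.2 ≤ 0 → D.al' j x y (D.Ψ p) = 0) ∧
  (∀ p ∈ Q D.r, HasDerivAt (fun t => D.l (D.Ψ (p.1, t))) (D.la p * D.nn p) p.2) ∧
  ∀ b : Box, b.B ⊆ Q D.r → Ch b.B D.nn D.la

/-- Models exist on all boxes. -/
def MkS : Prop := ∀ (D : Dat) (b : Box), b.B ⊆ Q D.r → ∃ M v ps aa, Cm D b M v ps aa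

/-- Restriction. -/
def HomS : Prop := ∀ (D : Dat) (b b' : Box) (M M' : Mdl) v v' ps aa ps' aa', Cm D b M v ps aa →
  Cm D b' M' v' ps' aa' → b'.B ⊆ b.B →
  ∃ φ : M.R →ₐ[ℂ] M'.R, Hom M M' φ ∧ ∀ a, ∀ p ∈ b'.B, v' (φ a) p = v a p

def SiteS : Prop := ∀ (D : Dat) (R : Box → Prop), Shr R → Site (Pc D R)

/-- Cartesian derivatives. -/
def CartS : Prop := ∀ D : Dat, (∀ p ∈ Q D.r, D.Ξ (D.Ψ p) = p) ∧
  (∀ p ∈ Q D.r, map D.Ψ (𝓝 p) = 𝓝 (D.Ψ p) ∧ ContinuousAt D.Ξ (D.Ψ p)) ∧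
  ∀ (N : Set P) (f f₁ f₂ : P → ℂ), IsOpen N → N ⊆ Q D.r → ContinuousOn f₁ N → ContinuousOn f₂ N →
    Dx N f (fun p => f₁ p + D.l (D.Ψ p) * f₂ p) →
    (∀ p ∈ N, HasDerivAt (fun t => f (p.1, t)) (f₂ p * D.nn p) p.2) →
    ∀ p ∈ N, HasFDerivAt (fun x => f (D.Ξ x)) (lc (f₁ p) (f₂ p)) (D.Ψ p)

/-- The smooth alternative. -/
def SmoS : Prop := ∀ (D : Dat) (b : Box) (M : Mdl) v ps aa, Cm D b M v ps aa → b.e₀ < 0 →
  0 < b.e₁ → M.Sm → ∀ s ∈ Ioo b.s₀ b.s₁, Smo D.ps D.al (s, D.Y (s, 0))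

/-- The values of the Cauchy data, and the half box below the arc. -/
def ValS : Prop := ∀ (D : Dat) (b : Box) (M : Mdl) v ps aa, Cm D b M v ps aa →
  (∀ p ∈ b.B, v M.g p = D.l (D.Ψ (p.1, 0)) ∧ v M.h p = D.E * cz D.n D.ps 0 1 (D.Ψ (p.1, 0)) ∧
    M.c * v M.u p = D.E * (cz D.n D.ps 2 0 (D.Ψ (p.1, 0)) + cz D.n D.ps 0 2 (D.Ψ (p.1, 0))) ∧
    v M.u1 p = D.E * (cz D.n D.ps 1 0 (D.Ψ (p.1, 0))
      + D.l (D.Ψ (p.1, 0)) * cz D.n D.ps 0 1 (D.Ψ (p.1, 0)))) ∧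
  (b.e₁ = 0 → M.A = 0 ∧ M.Ph = 0 ∧ ∀ p ∈ b.B, v M.V p = D.E * cz D.n D.ps 0 2 (D.Ψ p) ∧
    v M.Uq p = D.E * (cz D.n D.ps 1 1 (D.Ψ p) + v M.g p * cz D.n D.ps 0 2 (D.Ψ p)) ∧
    v M.Ua p = D.E * (cz D.n D.ps 2 0 (D.Ψ p) + 2 * v M.g p * cz D.n D.ps 1 1 (D.Ψ p)
      + v M.g p ^ 2 * cz D.n D.ps 0 2 (D.Ψ p)))

/-- The alternatives on a straight arc. -/
def TzS : Prop := ∀ (D : Dat) (b : Box) (M : Mdl) v ps aa, Cm D b M v ps aa →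
  (∀ s ∈ Ioo b.s₀ b.s₁, D.Y (s, 0) = 0) → M.OutQ ∨ M.OutR ∨ M.OutA ∨ M.OutB →
  ∀ s ∈ Ioo b.s₀ b.s₁, Tz D.n D.ps 0 s

/-- The resultant does not vanish identically below the arc. -/
def Rs0S : Prop := ∀ (D : Dat) (b : Box) (M : Mdl) v ps aa, Cm D b M v ps aa → b.e₁ = 0 →
  ∀ p ∈ b.B, p.2 ∈ Ioo b.e₀ 0 → ¬ ∀ᶠ p' in 𝓝 p, v M.rs p' = 0

/-- Unique continuation for the closed system below the arc. -/
def RcUS : Prop := ∀ (D : Dat) (b : Box) (M : Mdl) v ps aa, Cm D b M v ps aa → b.e₁ = 0 →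
  ∀ (n : ℕ) (f f₁ f₂ f₁₁ f₁₂ f₂₂ : Fin n → M.R),
    (∀ i, C2 M (f i) (f₁ i) (f₂ i) (f₁₁ i) (f₁₂ i) (f₂₂ i) ∧
      ∀ a ∈ [f i, f₁ i, f₂ i, f₁₁ i, f₁₂ i, f₂₂ i], M.δ a = 0 ∧ M.bv a = 0) →
    (∀ i, f₁₁ i + f₂₂ i ∈ Ideal.span (Set.range f ∪ Set.range f₁ ∪ Set.range f₂)) →
    ∃ p ∈ b.B, p.2 ∈ Ioo b.e₀ 0 ∧ ∀ᶠ p' in 𝓝 p, ∀ i, v (f i) p' = 0

/-- The resultant is not flat. -/
def RcS : Prop := ∀ (D : Dat) (b : Box) (M : Mdl) v ps aa, Cm D b M v ps aa → b.e₀ < 0 → ¬ M.OutF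

/-! ### Rows -/

def OfFu : Prop := FuC
def OfCo : Prop := CoC
def OfVq : Prop := VqC ∧ DvC
def OfRep : Prop := FuC → CoC → VqC → DvC → RepS
def OfJet2 : Prop := Jet2S
def OfVan : Prop := VanS
def OfMk : Prop := CzS → RepS → JetS → VanS → MkS
def OfHom : Prop := HomS ∧ (MkS → SiteS)
def OfCart : Prop := CartS
def OfSmo : Prop := LvXS → CartS → SmoS
def OfVal : Prop := CzS → Jet2S → VanS → ValS
def OfTz : Prop := ValS → TzS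
def OfRs0 : Prop := CzS → CartS → ValS → Rs0S
def OfRcU : Prop := CartS → RcUS
def OfRc : Prop := MkS → HomS → SiteS → ValS → RcAS → Rs0S → RcUS → RcS
def OfAt : Prop := MkS → SiteS → ValS → TreeS → SmoS → TzS → RcS → AtS

/-- The abstract rows give the tree and the closed system. -/
theorem abs_of (h1 : OfEst) (h2 : OfTay) (h3 : OfExp) (h4 : OfHar) (h5 : OfGain) (h6 : OfMu1)
    (h7 : OfCh) (h8 : OfCh2) (h9 : OfB12) (h10 : OfB3a) (h11 : OfB3b) (h12 : OfB3c) (h13 : OfT2)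
    (h14 : OfTc) (h15 : OfNd) (h16 : OfNdR) (h17 : OfPf) (h18 : OfRaA) (h19 : OfRaC) (h20 : OfRaB)
    (h21 : OfRa) (h22 : OfLvX) (h23 : OfLapF) (h24 : OfDw) (h25 : OfSmW) (h26 : OfSmB)
    (h27 : OfSmA) (h28 : OfSm) (h29 : OfLoc) (h30 : OfTr1) (h31 : OfTrK) (h32 : OfTr3)
    (h33 : OfTrS) (h34 : OfTree) (h35 : OfHb) (h36 : OfRcA) : TreeS ∧ RcAS ∧ LvXS := by
  have tay := h2 h1
  have har := h4 h1 (h3 h1)
  have nd := h15 h1 tay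
  have lf := h23 h22
  have sm := h28 h1 h24 lf.2.2 (h25 h22 h24) (h26 h1 h22 lf.1 lf.2.1) (h27 h22)
  have loc := h29 sm.1
  have b := h9 tay har
  have t1 := h30 h5.1 h5.2 (h6 h5.1) (h7 tay har) b.1 b.2 (h21 h17 h18 (h20 h19)) nd.1 loc
  exact ⟨h34 t1 (h31 (h13 h1 tay nd.1) (h16 h1) loc t1)
    (h33 (h10 tay har) (h11 tay har (h10 tay har)) h12 (h14 h1 tay h24 nd.2.1) nd.2.1 nd.2.2 (h16 h1)
      loc (h32 h5.1 h5.2 (h7 tay har) (h8 tay har) loc)), h36 h35 h22 sm.2, h22⟩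

/-- The concrete rows give the alternatives along the arc. -/
theorem ats_of (cz : CzS) (a : TreeS ∧ RcAS ∧ LvXS) (h0 : OfJet) (h1 : OfFu) (h2 : OfCo) (h3 : OfVq)
    (h4 : OfRep) (h5 : OfJet2) (h6 : OfVan) (h7 : OfMk) (h8 : OfHom) (h9 : OfCart) (h10 : OfSmo)
    (h11 : OfVal) (h12 : OfTz) (h13 : OfRs0) (h14 : OfRcU) (h15 : OfRc) (h16 : OfAt) : AtS :=
  have mk := h7 cz (h4 h1 h2 h3.1 h3.2) h0 h6
  have val := h11 cz h5 h6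
  h16 mk (h8.2 mk) val a.1 (h10 a.2.2 h9) (h12 val)
    (h15 mk h8.1 (h8.2 mk) val a.2.1 (h13 cz h9 val) (h14 h9))

end Pool.Agent.MP_ed9623_an.R10
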