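import Pool.Agent.MP_ed9623_an.R10.CDefs
import Pool.Agent.MP_ed9623_an.R10.Base4

/-! The alternatives on a straight arc, in terms of the amplitude. -/

open Filter Topology Set
open scoped ComplexConjugate

namespace Pool.Agent.MP_ed9623_an.R10

open H77 (P Q)
open R1 (cz ex Tz Ty Pb Mf)
open FA Mdl

namespace XCTz

/-- The values along the arc, as a family of algebra homomorphisms. -/
structure Ev (M : Mdl) (J : Set ℝ) (Φ : ℝ → M.R →ₐ[ℂ] ℂ) (E : ℂ) (H : ℝ → ℂ) : Prop where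
  o : IsOpen J
  X : ∀ a, ∀ s ∈ J, HasDerivAt (fun r => Φ r a) (Φ s (M.X a)) s
  cj : ∀ a, ∀ s ∈ J, Φ s (M.cj a) = conj (Φ s a)
  e : E * conj E = 1
  h : ∀ s ∈ J, Φ s M.h = E * H s

variable {M : Mdl} {J : Set ℝ} {Φ : ℝ → M.R →ₐ[ℂ] ℂ} {E : ℂ} {H : ℝ → ℂ} {s : ℝ}

theorem Ev.ne (h : Ev M J Φ E H) : E ≠ 0 := left_ne_zero_of_mul_eq_one h.e

theorem Ev.hd (h : Ev M J Φ E H) {a : M.R} {k : ℂ} {f : ℝ → ℂ} (hk : k ≠ 0)
    (e : ∀ s ∈ J, Φ s a = k * f s) (hs : s ∈ J) : HasDerivAt f (k⁻¹ * Φ s (M.X a)) s :=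
  ((h.X a s hs).const_mul k⁻¹).congr_of_eventuallyEq <| by
    filter_upwards [h.o.mem_nhds hs] with r hr
    rw [e r hr, inv_mul_cancel_left₀ hk]

theorem Ev.dv (h : Ev M J Φ E H) {a : M.R} {k : ℂ} {f : ℝ → ℂ} (hk : k ≠ 0)
    (e : ∀ s ∈ J, Φ s a = k * f s) : ∀ s ∈ J, Φ s (M.X a) = k * deriv f s := fun s hs => by
  rw [(h.hd hk e hs).deriv, mul_inv_cancel_left₀ hk]

theorem Ev.q (h : Ev M J Φ E H) : ∀ s ∈ J, Φ s M.q = E * deriv H s := h.dv h.ne h.h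

theorem Ev.q' (h : Ev M J Φ E H) : ∀ s ∈ J, Φ s (M.X M.q) = E * deriv (deriv H) s :=
  h.dv h.ne h.q

theorem Ev.sy (h : Ev M J Φ E H) (hs : s ∈ J) {a b : M.R} {x y : ℂ} (ha : Φ s a = E * x)
    (hb : Φ s b = E * y) : Φ s (M.sy a b) = 2 * ((x * conj y).re : ℂ) := by
  have := Complex.add_conj (x * conj y)
  rw [map_mul, Complex.conj_conj] at this
  push_cast at this
  rw [FA.sy, map_add, map_mul, map_mul, h.cj _ s hs, h.cj _ s hs, ha, hb, map_mul, map_mul, ← this]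
  linear_combination (x * conj y + conj x * y) * h.e

theorem Ev.nq (h : Ev M J Φ E H) (hs : s ∈ J) :
    Φ s M.q * Φ s (M.cj M.q) = (Complex.normSq (deriv H s) : ℂ) := by
  rw [h.cj _ s hs, h.q s hs, map_mul, ← Complex.mul_conj]
  linear_combination (deriv H s * conj (deriv H s)) * h.e

theorem Ev.dd (h : Ev M J Φ E H) (t : M.St) (hs : s ∈ J) :
    deriv (deriv H) s = Φ s M.r0 * deriv H s := by
  have e := h.q' s hs
  rw [t.X_q, map_mul, h.q s hs] at e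
  exact mul_left_cancel₀ h.ne (by linear_combination -e)

theorem Ev.r (h : Ev M J Φ E H) (t : M.St) (hs : s ∈ J) : Φ s M.r0 = (R1.r0 H s : ℂ) := by
  have n : deriv H s ≠ 0 := right_ne_zero_of_mul (h.q s hs ▸ (t.2.1.map (Φ s)).ne_zero)
  have c := h.cj M.r0 s hs
  rw [t.cj_r0] at c
  rw [R1.r0, h.dd t hs, mul_div_cancel_right₀ _ n, Complex.conj_eq_iff_re.1 c.symm]

theorem Ev.r' (h : Ev M J Φ E H) (t : M.St) (hs : s ∈ J) :
    Φ s (M.X M.r0) = (deriv (R1.r0 H) s : ℝ) := by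
  have d := h.hd (f := fun s => (R1.r0 H s : ℂ)) one_ne_zero
    (fun s hs => (h.r t hs).trans (one_mul _).symm) hs
  rw [inv_one, one_mul] at d
  have d' : HasDerivAt (R1.r0 H) (Φ s (M.X M.r0)).re s :=
    Complex.reCLM.hasFDerivAt.comp_hasDerivAt s d
  have c := h.cj (M.X M.r0) s hs
  rw [M.cj_X, t.cj_r0] at c
  rw [d'.deriv, Complex.conj_eq_iff_re.1 c.symm]

theorem Ev.h3 (h : Ev M J Φ E H) (t : M.St) {N : ℝ} (k : M.H3 N) (hs : s ∈ J) :
    HasDerivAt (Mf N H) (2 * R1.r0 H s * Mf N H s) s := by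
  obtain ⟨p, hp⟩ : ∃ p, p = M.h ^ 2 * (M.X ((N / 2 : ℂ) • M.r0) + ((N / 2 : ℂ) • M.r0) ^ 2)
      - ((2 * N ^ 2 + N - 2) / 2 : ℂ) • (M.r0 * M.h * M.q) + (N ^ 2 - 1 : ℂ) • M.q ^ 2 := ⟨_, rfl⟩
  have e : ∀ s ∈ J, Φ s p = E ^ 2 * Mf N H s := fun s hs => by
    simp only [hp, map_add, map_sub, map_mul, map_pow, map_smul, smul_eq_mul, h.h s hs, h.q s hs,
      h.r t hs, h.r' t hs, Mf, Pb]
    push_cast
    ring
  refine (h.hd (pow_ne_zero 2 h.ne) e hs).congr_deriv ?_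
  rw [k _ p rfl hp, map_mul, map_mul, map_ofNat, h.r t hs, e s hs]
  have := h.ne
  field_simp

theorem Ev.ty1 (h : Ev M J Φ E H) (t : M.St) (hs : s ∈ J) :
    ∀ᶠ r in 𝓝 s, deriv (deriv H) r = R1.r0 H r * deriv H r := by
  filter_upwards [h.o.mem_nhds hs] with r hr
  rw [h.dd t hr, h.r t hr]

theorem Ev.r_ne (h : Ev M J Φ E H) (t : M.St) (hs : s ∈ J) : R1.r0 H s ≠ 0 := fun e =>
  (t.r0_unit.map (Φ s)).ne_zero (by rw [h.r t hs, e, Complex.ofReal_zero])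

theorem sy1 (t : M.St) (hs : M.sy M.u M.q = 0) : M.sy M.u1 M.q = 0 := by
  have := congrArg M.X hs
  rw [X_sy, t.X_q, map_zero] at this
  simp only [FA.sy, map_mul, t.cj_r0] at this hs ⊢
  rw [u1]
  linear_combination this - M.r0 * hs

theorem hom {F : FA} {b : Box} {nn la : P → ℝ} {v : F.R → P → ℂ} (h : Rep F b nn la v) {p : P}
    (hp : p ∈ b.B) : ∃ φ : F.R →ₐ[ℂ] ℂ, ∀ a, φ a = v a p :=
  ⟨{ toFun := fun a => v a p
     map_one' := by simpa using h.alg 1 p hp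
     map_mul' := fun a a' => h.mul a a' p hp
     map_zero' := by simpa using h.alg 0 p hp
     map_add' := fun a a' => h.add a a' p hp
     commutes' := fun s => h.alg s p hp }, fun _ => rfl⟩

end XCTz

open XCTz in
theorem rowTz : OfTz := by
  intro hV D b M v ps aa c y0 out s₀ hs₀
  have mem : ∀ s ∈ Ioo b.s₀ b.s₁, ((s, 0) : P) ∈ b.B := fun s hs => ⟨hs, b.h0, b.h1⟩
  obtain ⟨Φ, hΦ⟩ : ∃ Φ : ℝ → M.R →ₐ[ℂ] ℂ, ∀ s ∈ Ioo b.s₀ b.s₁, ∀ a, Φ s a = v a (s, 0) := by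
    refine ⟨fun s => if k : s ∈ Ioo b.s₀ b.s₁ then (hom c.rep (mem s k)).choose
      else (hom c.rep (mem s₀ hs₀)).choose, fun s k a => ?_⟩
    simp only [dif_pos k]
    exact (hom c.rep (mem s k)).choose_spec a
  have ψ : ∀ s ∈ Ioo b.s₀ b.s₁, D.Ψ (s, 0) = (s, 0) := fun s hs => by rw [Dat.Ψ, y0 s hs]
  have val := fun s hs => (hV D b M v ps aa c).1 (s, 0) (mem s hs)
  have g0 : M.g = 0 := by
    rcases out with o | o | o | o
    exacts [o.1, o.1.1, o.1.1, o.1.1]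
  have l0 : ∀ s ∈ Ioo b.s₀ b.s₁, D.l (s, 0) = 0 := fun s hs => by
    have := (val s hs).1
    rw [← hΦ s hs, g0, map_zero, ψ s hs] at this
    exact_mod_cast this.symm
  have c20 : ∀ s ∈ Ioo b.s₀ b.s₁, cz D.n D.ps 2 0 (s, 0) = 0 := fun s hs => by
    have := D.h.ch s (abs_lt.2 (c.sub (mem s hs)).1)
    simpa [y0 s hs, l0 s hs, R1.hz] using this
  have E : Ev M (Ioo b.s₀ b.s₁) Φ D.E fun r => cz D.n D.ps 0 1 (r, 0) := by
    refine ⟨isOpen_Ioo, fun a s hs => ?_, fun a s hs => ?_, ?_, fun s hs => ?_⟩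
    · rw [hΦ s hs]
      refine (c.rep.X a _ (mem s hs)).congr_of_eventuallyEq ?_
      filter_upwards [isOpen_Ioo.mem_nhds hs] with r hr using hΦ r hr a
    · rw [hΦ s hs, hΦ s hs, c.rep.cj _ _ (mem s hs)]
    · rw [Dat.E, ex, pow_zero, one_mul, ← Complex.exp_conj, ← Complex.exp_add]
      simp
    · rw [hΦ s hs, (val s hs).2.1, ψ s hs]
  have d1 : ∀ s, deriv (fun r => cz D.n D.ps 0 1 (r, 0)) s = cz D.n D.ps 1 1 (s, 0) := fun s =>
    (R1.hd0_of (R1.cz_hasF D.h.lx.j4 (by norm_num) _)).deriv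
  have u1 : ∀ s ∈ Ioo b.s₀ b.s₁, Φ s M.u1 = D.E * cz D.n D.ps 1 0 (s, 0) := fun s hs => by
    rw [hΦ s hs, (val s hs).2.2.2, ψ s hs, l0 s hs]; simp
  have u : ∀ s ∈ Ioo b.s₀ b.s₁, Φ s M.u = D.E * (M.c⁻¹ * cz D.n D.ps 0 2 (s, 0)) := fun s hs => by
    have := (val s hs).2.2.1
    rw [ψ s hs, c20 s hs, zero_add] at this
    rw [hΦ s hs, mul_left_comm, ← this, inv_mul_cancel_left₀ M.c_ne]
  have nb := isOpen_Ioo.mem_nhds hs₀
  have rr : M.sy M.u1 M.q = 0 → ∀ᶠ s in 𝓝 s₀,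
      (cz D.n D.ps 1 0 (s, 0) * conj (cz D.n D.ps 1 1 (s, 0))).re = 0 := fun k => by
    filter_upwards [nb] with s hs
    have := E.sy hs (u1 s hs) (E.q s hs)
    rw [k, map_zero, d1] at this
    exact_mod_cast (mul_eq_zero.1 this.symm).resolve_left two_ne_zero
  rcases out with o | ⟨t, o, k⟩ | ⟨t, o, k, N, hN, h3, k'⟩ | ⟨t, o, -, N, hN, h3, -, k⟩
  · refine Or.inl ?_
    filter_upwards [nb] with s hs
    refine (E.hd (a := M.q) (f := fun r => cz D.n D.ps 1 1 (r, 0)) E.ne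
      (fun s hs => by rw [E.q s hs, d1]) hs).congr_deriv ?_
    rw [o.2, map_zero, mul_zero]
  · refine Or.inr ⟨rr (sy1 t o), E.ty1 t hs₀, Or.inl ?_⟩
    filter_upwards [nb] with s hs
    have := congrArg (Φ s) k
    simp only [map_mul, map_ofNat, E.r t hs, E.nq hs, E.sy hs (E.h s hs) (E.q s hs)] at this
    have e : ((3 * R1.r0 (fun r => cz D.n D.ps 0 1 (r, 0)) s * (cz D.n D.ps 0 1 (s, 0) *
        conj (deriv (fun r => cz D.n D.ps 0 1 (r, 0)) s)).re : ℝ) : ℂ) =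
        (4 * Complex.normSq (deriv (fun r => cz D.n D.ps 0 1 (r, 0)) s) : ℝ) := by
      push_cast
      linear_combination this / 2
    exact_mod_cast e
  · refine Or.inr ⟨rr (by simp [o, FA.sy]), E.ty1 t hs₀, Or.inr ⟨N, hN, E.r_ne t hs₀, ?_,
      Or.inl ?_⟩⟩
    · filter_upwards [nb] with s hs using E.h3 t h3 hs
    filter_upwards [nb] with s hs
    refine ⟨?_, ?_, fun z => ?_⟩
    · have := congrArg (Φ s) k'
      simp only [map_mul, map_ofNat, map_smul, map_pow, smul_eq_mul, E.r t hs, E.r' t hs] at this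
      have e : ((Pb N (fun r => cz D.n D.ps 0 1 (r, 0)) s : ℝ) : ℂ) = 0 := by
        rw [Pb]
        push_cast
        linear_combination (N / 4 : ℂ) * this
      exact_mod_cast e
    · have n := mul_ne_zero E.ne (inv_ne_zero M.c_ne)
      have := E.dv (f := fun r => cz D.n D.ps 0 2 (r, 0)) n
        (fun s hs => by rw [u s hs, mul_assoc]) s hs
      rw [← Mdl.u1, o, map_zero] at this
      exact (mul_eq_zero.1 this.symm).resolve_left n
    · refine (k.map (Φ s)).ne_zero ?_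
      rw [E.sy hs (u s hs) (E.q s hs), mul_assoc, c.c, mul_inv, Complex.inv_I,
        ← Complex.ofReal_inv, mul_assoc, neg_mul, Complex.neg_re, Complex.I_mul_re,
        Complex.im_ofReal_mul, z]
      simp
  · refine Or.inr ⟨rr (by simp [o, FA.sy]), E.ty1 t hs₀, Or.inr ⟨N, hN, E.r_ne t hs₀, ?_,
      Or.inr ?_⟩⟩
    · filter_upwards [nb] with s hs using E.h3 t h3 hs
    filter_upwards [nb] with s hs
    have := congrArg (Φ s) k
    simp only [map_mul, map_sub, map_ofNat, map_smul, map_pow, smul_eq_mul, E.r t hs, E.r' t hs,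
      E.nq hs, E.sy hs (E.h s hs) (E.q s hs)] at this
    have e : (((cz D.n D.ps 0 1 (s, 0) * conj (deriv (fun r => cz D.n D.ps 0 1 (r, 0)) s)).re *
        Pb N (fun r => cz D.n D.ps 0 1 (r, 0)) s : ℝ) : ℂ) =
        (N * (N + 1) / 3 * R1.r0 (fun r => cz D.n D.ps 0 1 (r, 0)) s *
          Complex.normSq (deriv (fun r => cz D.n D.ps 0 1 (r, 0)) s) : ℝ) := by
      rw [Pb]
      push_cast
      linear_combination (N / 24 : ℂ) * this
    exact_mod_cast e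

end Pool.Agent.MP_ed9623_an.R10
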