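import Mathlib

/-! An abstract calculus near a characteristic arc: a filtered algebra with a primitive `I` in the
transversal variable, the derivation `X` along the characteristics and the time derivative `δ`. -/

namespace Pool.Agent.MP_ed9623_an.R10

/-- The algebra.  `Z m` is the pointwise order, `U` the functions which vanish on the zone side,
`ev` the value at the base time, `bv` the value on the arc, `cj` the conjugation. -/
structure FA where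
  R : Type
  [cr : CommRing R]
  [al : Algebra ℂ R]
  Z : ℝ → Ideal R
  U : Ideal R
  I : R →ₗ[ℂ] R
  X : R →ₗ[ℂ] R
  δ : R →ₗ[ℂ] R
  ev : R →ₐ[ℂ] R
  bv : R →ₐ[ℂ] R
  cj : R →+* R
  la : R
  z : R
  zi : R
  c : ℂ
  nt : (1 : R) ≠ 0
  red : ∀ a : R, a * a = 0 → a = 0
  Z_anti : ∀ m n : ℝ, m ≤ n → Z n ≤ Z m
  Z_zero : Z 0 = ⊤
  Z_mul : ∀ (m n : ℝ) a b, a ∈ Z m → b ∈ Z n → a * b ∈ Z (m + n)
  Z_I : ∀ (m : ℝ) a, a ∈ Z m → I a ∈ Z (m + 1)
  Z_δ : ∀ (m : ℝ) a, a ∈ Z m → δ a ∈ Z m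
  Z_ev : ∀ (m : ℝ) a, a ∈ Z m → ev a ∈ Z m
  Z_cj : ∀ (m : ℝ) a, a ∈ Z m → cj a ∈ Z m
  Z_bv : ∀ (m : ℝ) a, 0 < m → a ∈ Z m → bv a = 0
  Z_div : ∀ (m : ℝ) a, I 1 * a ∈ Z (m + 1) → a ∈ Z m
  y_reg : ∀ a, I 1 * a = 0 → a = 0
  Z_int : ∀ (m : ℝ) a, δ a ∈ Z m → a - ev a ∈ Z m
  I_mul : ∀ a b, I a * I b = I (a * I b + b * I a)
  I_bv : ∀ a b, I (bv a * b) = bv a * I b
  I_inj : ∀ a, I a = 0 → a = 0
  bv_I : ∀ a, bv (I a) = 0
  bv_bv : ∀ a, bv (bv a) = bv a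
  X_mul : ∀ a b, X (a * b) = X a * b + a * X b
  X_I : ∀ a, X (I a) = I (X a + la * a)
  X_bv : ∀ a, X (bv a) = bv (X a)
  δ_mul : ∀ a b, δ (a * b) = δ a * b + a * δ b
  δ_I : ∀ a, δ (I a) = I (δ a)
  δ_X : ∀ a, δ (X a) = X (δ a)
  δ_bv : ∀ a, δ (bv a) = bv (δ a)
  δ_la : δ la = 0
  δ_ev : ∀ a, δ (ev a) = 0
  ev_of : ∀ a, δ a = 0 → ev a = a
  ev_I : ∀ a, ev (I a) = I (ev a)
  ev_X : ∀ a, ev (X a) = X (ev a)
  ev_bv : ∀ a, ev (bv a) = bv (ev a)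
  cj_cj : ∀ a, cj (cj a) = a
  cj_smul : ∀ (s : ℂ) a, cj (s • a) = (starRingEnd ℂ) s • cj a
  cj_I : ∀ a, cj (I a) = I (cj a)
  cj_X : ∀ a, cj (X a) = X (cj a)
  cj_δ : ∀ a, cj (δ a) = δ (cj a)
  cj_ev : ∀ a, cj (ev a) = ev (cj a)
  cj_bv : ∀ a, cj (bv a) = bv (cj a)
  cj_la : cj la = la
  z_zi : z * zi = 1
  δ_z : δ z = c • z
  X_z : X z = 0
  bv_z : bv z = z
  ev_z : ev z = 1
  cj_z : cj z = zi
  c_ne : c ≠ 0
  c_im : (starRingEnd ℂ) c = -c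
  U_I : ∀ a, a ∈ U → I a ∈ U
  U_X : ∀ a, a ∈ U → X a ∈ U
  U_ev : ∀ a, a ∈ U → ev a ∈ U
  cst : ∀ a, bv a = a → δ a = 0 → X a = 0 → ∃ s : ℂ, a = algebraMap ℂ R s
  dv : ∀ (m : ℝ) a, 0 < m → (∀ k, X^[k] a ∈ Z (m + 1)) → ∃ b, I 1 * b = a
  vq : ∀ (j : ℕ) σ ρ ρ' d, δ σ = 0 → δ ρ = 0 → δ ρ' = 0 → δ d = 0 → σ * ρ = I 1 ^ j →
    ρ = bv ρ + I ρ' → ρ * d = I (ρ' * d) → bv d = 0 → d = 0
  fu : ∀ (μ m M : ℝ) a, μ < m → I a ∈ U → I a ∈ Z m → I 1 * a - (μ : ℂ) • I a ∈ Z M → I a ∈ Z M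
  co : ∀ (θ M : ℝ) a ρ b b₀, 0 < θ → δ a = 0 → δ ρ = 0 → δ b = 0 → cj ρ = ρ → cj b = b →
    IsUnit b₀ → ρ ∈ Z (1 + θ) → b - b₀ ∈ Z θ → I a ∈ U → ρ * a - b * I a ∈ Z M → I a ∈ Z M

attribute [instance] FA.cr FA.al

namespace FA

variable (F : FA)

/-- The height above the arc. -/
def y : F.R := F.I 1
/-- The slope of `X` minus the slope of the arc. -/
def el : F.R := F.I F.la
/-- The tangential derivative of the primitive. -/
def T : F.R →ₗ[ℂ] F.R := F.X ∘ₗ F.I - LinearMap.mulLeft ℂ F.el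
/-- The order, with all derivatives along `X`. -/
def O (m : ℝ) : Ideal F.R where
  carrier := {a | ∀ k, F.X^[k] a ∈ F.Z m}
  add_mem' a b k := by
    rw [← Module.End.pow_apply, map_add, Module.End.pow_apply, Module.End.pow_apply]
    exact add_mem (a k) (b k)
  zero_mem' k := by rw [← Module.End.pow_apply, map_zero]; exact zero_mem _
  smul_mem' b a h k := by
    rw [smul_eq_mul]
    induction k generalizing a b with
    | zero => exact Ideal.mul_mem_left _ _ (h 0)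
    | succ k ih =>
      rw [Function.iterate_succ_apply, F.X_mul, ← Module.End.pow_apply, map_add,
        Module.End.pow_apply, Module.End.pow_apply]
      exact add_mem (ih _ _ h) (ih _ _ fun j => h (j + 1))
/-- Time independent functions on the arc. -/
def S (a : F.R) : Prop := F.bv a = a ∧ F.δ a = 0
/-- The real part. -/
noncomputable def re (a : F.R) : F.R := (2⁻¹ : ℂ) • (a + F.cj a)
/-- The antisymmetric and the symmetric pairing. -/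
def wd (a b : F.R) : F.R := a * F.cj b - F.cj a * b
def sy (a b : F.R) : F.R := a * F.cj b + F.cj a * b
/-- The amplitude of the first harmonic. -/
noncomputable def am (a : F.R) : F.R := F.ev (F.zi * (a + F.c⁻¹ • F.δ a))
/-- `a'` is the transversal derivative of `a`. -/
def Dy (a a' : F.R) : Prop := a = F.bv a + F.I a'
/-- `n` transversal derivatives. -/
def Lv : ℕ → F.R → Prop
  | 0, _ => True
  | n + 1, a => ∃ a', F.Dy a a' ∧ Lv n a'
/-- Flat elements. -/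
def Fl (a : F.R) : Prop := ∀ M, a ∈ F.O M
/-- The Laplacian of the second primitive, for an arc of slope `g`. -/
def lap (g a : F.R) : F.R :=
  (1 + g ^ 2) * a - 2 * g * F.T a - F.X g * F.I a + F.T (F.T a)
/-- Powers of the oscillation. -/
def zp (k : ℤ) : F.R := ↑((⟨F.z, F.zi, F.z_zi, by rw [mul_comm, F.z_zi]⟩ : F.Rˣ) ^ k)
/-- Trigonometric sums whose harmonic `k` has order `m + d |k|`, up to order `M`. -/
def G (d m M : ℝ) : Submodule ℂ F.R := Submodule.span ℂ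
  {x | x ∈ F.O M ∨ ∃ (k : ℤ) (a : F.R), F.δ a = 0 ∧ a ∈ F.O (m + d * |(k : ℝ)|) ∧ x = F.zp k * a}
/-- Trigonometric sums without the harmonic `k`, up to order `n`. -/
def Sk (k : ℤ) (n : ℝ) : Submodule ℂ F.R := Submodule.span ℂ
  {x | x ∈ F.O n ∨ ∃ (j : ℤ) (a : F.R), j ≠ k ∧ F.δ a = 0 ∧ x = F.zp j * a}
/-- `a` is the harmonic `k` of `x`, up to order `n`. -/
def Co (k : ℤ) (n : ℝ) (x a : F.R) : Prop := F.δ a = 0 ∧ x - F.zp k * a ∈ F.Sk k n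
/-- Polynomials in the height with coefficients on the arc. -/
def Pol : Submodule ℂ F.R := Submodule.span ℂ {x | ∃ (b : F.R) (i : ℕ), F.bv b = b ∧ x = b * F.y ^ i}
/-- `n` transversal derivatives, the last one of order `M`. -/
def OL (n : ℕ) (M : ℝ) (a : F.R) : Prop := ∃ b ∈ F.O M, a = F.I^[n] b
/-- The resultant of two quadratic forms. -/
def res (a b e a' b' e' : F.R) : F.R :=
  (a * e' - a' * e) ^ 2 - 4 * (a * b' - a' * b) * (b * e' - b' * e)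

section
variable (g u h A W : F.R)
/-- Derivatives of the stream function of the half difference: `y`, `T y`, `T`, `T T`. -/
noncomputable def py : F.R := F.re (F.z * h) + F.I W
noncomputable def pq : F.R := F.re (F.z * F.X h) + F.T W
noncomputable def pt : F.R := F.re (F.z * F.X u) + F.y * F.re (F.z * F.X h) + F.I (F.T W)
noncomputable def pa : F.R := F.y * F.re (F.z * F.X (F.X h)) + F.T (F.T W) - F.X g * F.I W
noncomputable def p0 : F.R := F.re (F.z * u) + F.y * F.re (F.z * h) + F.I (F.I W)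
/-- The right side of the first equation. -/
noncomputable def rp : F.R := F.pt u h W * F.I A - F.I (F.pq h W * F.I A)
  - F.T (F.py h W * F.I A) + F.I (W * F.T (F.I A))
/-- The source of the second equation. -/
noncomputable def xi : F.R := F.lap g A * F.T (F.I A) - F.T (F.lap g A * F.I A)
  + F.rp u h A W * F.pt u h W - F.T (F.rp u h A W * F.py h W)
  + F.I (F.pt u h W * F.δ (F.py h W) - F.py h W * F.δ (F.pt u h W))
/-- The Hessian on the characteristic field. -/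
noncomputable def rho : F.R := F.pa g h W + 2 * F.el * F.pq h W + F.el ^ 2 * W

/-- The system: `A`, `W` are the second transversal derivatives of the two stream functions,
`g` is the slope of the arc, `u`, `h` the Cauchy data of the amplitude. -/
structure Sys : Prop where
  sg : F.S g
  su : F.S u
  sh : F.S h
  rg : F.cj g = g
  rA : F.cj A = A
  rW : F.cj W = W
  ch : F.X (F.X u) = F.X g * h
  uA : A ∈ F.U
  oA : A ∈ F.O (1 / 2)
  eP : (1 + g ^ 2) * W - 2 * g * F.pq h W + F.pa g h W - F.δ (F.p0 u h W) = F.rp u h A W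
  eB : F.lap g (F.lap g (A - F.ev A) - F.I (F.I (F.δ A - F.ev (F.δ A))))
    = F.I (F.xi g u h A W) - F.ev (F.I (F.xi g u h A W))
  eL : W * (F.T (F.T A) - F.X g * F.I A) - 2 * F.pq h W * F.T A + F.pa g h W * A = 0
  nul : F.ev (F.rho g h W) = 0
  uq : IsUnit (F.ev (F.pq h W + F.el * W))
  ul : IsUnit (1 + (g + F.el) ^ 2)
end

end FA

namespace FA

variable (F : FA)

/-- `f a b` is a Cartesian jet of order `k`; the arc has slope `g`. -/
def Cj (g : F.R) (k : ℕ) (f : ℕ → ℕ → F.R) : Prop := ∀ a b, a + b < k →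
  F.Dy (f a b) (f a (b + 1)) ∧ F.X (f a b) = f (a + 1) b + (g + F.el) * f a (b + 1)
/-- The derivative of `f' a b` along the field `(-f₂, f₁)`. -/
def br (f f' : ℕ → ℕ → F.R) (a b : ℕ) : F.R := f 1 0 * f' a (b + 1) - f 0 1 * f' (a + 1) b

/-- Cartesian jets: `ps`, `aa` the two stream functions, `be` the time derivative of `aa`,
`pr` the time derivative of the pressure. -/
structure Jt (g : F.R) (ps aa be pr : ℕ → ℕ → F.R) : Prop where
  sg : F.S g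
  rg : F.cj g = g
  jp : F.Cj g 3 ps
  ja : F.Cj g 2 aa
  jb : F.Cj g 3 be
  jr : F.Cj g 1 pr
  rp : ∀ a b, a + b ≤ 2 → F.cj (ps a b) = ps a b
  ra : F.cj (aa 0 2) = aa 0 2
  ab : ∀ a b, 1 ≤ a + b → a + b ≤ 2 → F.δ (aa a b) = be a b
  za : ∀ a b, 1 ≤ a + b → a + b ≤ 2 → F.bv (aa a b) = 0
  zb : ∀ a b, a + b = 3 → F.bv (be a b) = 0
  uA : aa 0 2 ∈ F.U
  oA : aa 0 2 ∈ F.O (1 / 2)
  sn : ∀ a b, 1 ≤ a + b → a + b ≤ 2 → F.bv (F.δ (F.δ (ps a b))) = F.c ^ 2 • F.bv (ps a b)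
  ch : F.bv (ps 2 0 + 2 * g * ps 1 1 + g ^ 2 * ps 0 2) = 0
  e1 : ∀ a b, a + b = 1 →
    ps (a + 2) b + ps a (b + 2) = F.δ (ps a b) + F.br aa ps a b + F.br ps aa a b
  e2 : be 3 0 + be 1 2 = F.δ (be 1 0) + F.δ (F.br aa aa 1 0 + F.br ps ps 1 0) + pr 0 1
  e3 : be 2 1 + be 0 3 = F.δ (be 0 1) + F.δ (F.br aa aa 0 1 + F.br ps ps 0 1) - pr 1 0
  eL : ps 0 2 * aa 2 0 - 2 * ps 1 1 * aa 1 1 + ps 2 0 * aa 0 2 = 0
  nul : F.ev (ps 2 0 + 2 * (g + F.el) * ps 1 1 + (g + F.el) ^ 2 * ps 0 2) = 0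
  uq : IsUnit (F.ev (ps 1 1 + (g + F.el) * ps 0 2))
  ul : IsUnit (1 + (g + F.el) ^ 2)

end FA

/-- Jets of the amplitude on the arc, in a ring with a derivation. -/
structure DJ (S : Type) where
  D : S → S
  g : S
  k : S
  w : S
  wi : S
  u1 : S
  h : S
  q : S
  e : S
  l : S
  f3 : S
  m2 : S
  γ : S

namespace DJ

variable {S : Type} [CommRing S] [Algebra ℂ S] (J : DJ S) (N : ℂ) (p : S × S)

noncomputable section

def d (a : S) : S := J.D a + J.γ * a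
def La (a : S) : S := 2 * J.g * J.d a + J.k * a
/-- The two leading coefficients of the third equation on a symbol `p` of exponent `N`. -/
def E0 : S := N • (J.l * p.1) - J.k * J.e * p.1 - 2 * J.q * J.d p.1
def E1 : S := (N + 1)⁻¹ • (J.e * J.d (J.d p.1)) - J.k * J.f3 * p.1 - J.k * J.e * p.2
  - 2 * J.D J.e * J.d p.1 - 2 * J.q * J.d p.2 + (N + 1) • (J.l * p.2) + (N / 2) • (J.m2 * p.1)
def o0 : S := J.u1 * p.1
def o1 : S := J.u1 * p.2 + J.q * p.1 - (N + 1)⁻¹ • (J.q * p.1 + J.d (J.h * p.1))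
def n0 : S := J.u1 * J.o0 p
def n1 : S := J.u1 * J.o1 N p + J.q * J.o0 p - (N + 1)⁻¹ • J.d (J.h * J.o0 p)
def x0 : S := (N + 1)⁻¹ • (J.wi ^ 2 * J.n0 p)
def x1 : S := (N + 2)⁻¹ • (J.wi ^ 2 * (J.n1 N p + J.w * J.La (J.x0 N p) + J.La (J.w * J.x0 N p)))
/-- The symbol of the next harmonic, up to the factor `1 / 4`. -/
def st : S × S := ((N + 2)⁻¹ • J.x0 N p, (N + 3)⁻¹ • J.x1 N p)

end

end DJ

/-- A model: an algebra with a solution of the system. -/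
structure Mdl extends FA where
  g : R
  u : R
  h : R
  A : R
  W : R
  sys : toFA.Sys g u h A W

namespace Mdl

variable (M : Mdl)

noncomputable section

def k : M.R := M.X M.g
def w : M.R := 1 + M.g ^ 2
def wi : M.R := Ring.inverse M.w
def u1 : M.R := M.X M.u
def q : M.R := M.X M.h
def e : M.R := M.wi * (M.c • M.u + 2 * M.g * M.q)
def l : M.R := M.X M.q - M.k * M.e
def f3 : M.R := M.wi * (M.c • M.h + 2 * M.g * M.X M.e - M.l)
def m2 : M.R := M.X (M.X M.e) - M.k * M.f3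
/-- The value at the base time of the second derivative, and its primitive. -/
def A0 : M.R := M.ev M.A
def f : M.R := M.I M.A0
/-- The amplitude and its Hessian. -/
def V : M.R := M.am M.W
def Ph : M.R := M.W - M.re (M.z * M.V)
def Uy : M.R := M.h + M.I M.V
def Uq : M.R := M.q + M.T M.V
def Ut : M.R := M.u1 + M.y * M.q + M.I (M.T M.V)
def Ua : M.R := M.y * M.X M.q + M.T (M.T M.V) - M.k * M.I M.V
def LU (a : M.R) : M.R := M.V * (M.T (M.T a) - M.k * M.I a) - 2 * M.Uq * M.T a + M.Ua * a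
def PU (p : M.R) : M.R := M.Ut * p - M.I (M.Uq * p) - M.T (M.Uy * p) + M.I (M.V * M.T p)
def NU (r : M.R) : M.R := M.I (M.Ut * r - M.T (M.Uy * r))
/-- The pencil at the base time. -/
def r1 : M.R := M.ev (M.δ (M.rho M.g M.h M.W))
/-- The resultant of the Hessian of the amplitude and of its conjugate. -/
def rs : M.R := M.res M.Ua M.Uq M.V (M.cj M.Ua) (M.cj M.Uq) (M.cj M.V)
def r0 : M.R := M.X M.q * Ring.inverse M.q

def dj (γ : M.R) : DJ M.R := ⟨M.X, M.g, M.k, M.w, M.wi, M.u1, M.h, M.q, M.e, M.l, M.f3, M.m2, γ⟩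
/-- The real solution of `l x - 2 q x' = r`. -/
def sx (r : M.R) : M.R := M.wd r M.q * Ring.inverse (M.wd M.l M.q)
def sx' (r : M.R) : M.R := (2⁻¹ : ℂ) • (M.wd r M.l * Ring.inverse (M.wd M.l M.q))
def mu : M.R := M.sx (M.k * M.e)
def ga : M.R := M.sx' (M.k * M.e)
def rr (N : ℝ) : M.R := M.k * M.f3 + 2 * M.X M.e * M.ga - (N / 2 : ℂ) • M.m2
  - (N + 1 : ℂ)⁻¹ • (M.e * (M.X M.ga + M.ga ^ 2))
/-- The coefficients of the imaginary part on a straight arc. -/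
def ct : M.R := (2⁻¹ : ℂ) • M.X M.r0 - (4⁻¹ : ℂ) • M.r0 ^ 2
def rh (k₁ k₂ k₃ : M.R) : M.R := (4⁻¹ : ℂ) • (k₁ * M.r0 ^ 2) + (2⁻¹ : ℂ) • (k₂ * M.r0) + k₃
def rh2 : M.R := M.rh (M.wd M.e M.q) (-2 * M.wd (M.X M.e) M.q) 0
def rh3 : M.R := M.rh (M.sy M.h M.q) (-2 * (M.q * M.cj M.q)) ((3⁻¹ : ℂ) • (M.r0 * (M.q * M.cj M.q)))
def n2 : M.R := -(M.wd M.e M.q * M.ct * Ring.inverse M.rh2) - 1
def n3 : M.R := -(M.sy M.h M.q * M.ct * Ring.inverse M.rh3) - 1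

/-- The Fuchsian relations. -/
def Fu (r : ℝ) (μ μ₁ γ γ₁ : M.R) : Prop := ∀ m : ℝ, 3 / 2 ≤ m → M.A0 ∈ M.O (m - 1) →
  M.y * M.A0 - (μ + μ₁ * M.y) * M.f ∈ M.O (m + r) ∧
    M.T M.A0 - (γ + γ₁ * M.y) * M.f ∈ M.O (m + r)
/-- The pencil divides a power of the height. -/
def Nd : Prop := ∃ (σ : M.R) (j : ℕ), M.δ σ = 0 ∧ σ * M.r1 = M.y ^ j
/-- Everything is smooth across the arc. -/
def Sm : Prop := ∀ n, M.Lv n M.A ∧ M.Lv n M.W ∧ M.Lv n M.el

/-- A straight arc on which the argument of `q` is constant. -/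
def St : Prop := M.g = 0 ∧ IsUnit M.q ∧ IsUnit (M.X M.q) ∧ M.wd (M.X M.q) M.q = 0
def OutQ : Prop := M.g = 0 ∧ M.X M.q = 0
def OutR : Prop := M.St ∧ M.sy M.u M.q = 0 ∧ 3 * M.r0 * M.sy M.h M.q = 8 * (M.q * M.cj M.q)
/-- The relation of the third harmonic on a straight arc. -/
def H3 (N : ℝ) : Prop := ∀ γ P : M.R, γ = (N / 2 : ℂ) • M.r0 →
  P = M.h ^ 2 * (M.X γ + γ ^ 2) - ((2 * N ^ 2 + N - 2) / 2 : ℂ) • (M.r0 * M.h * M.q)
    + (N ^ 2 - 1 : ℂ) • M.q ^ 2 → M.X P = 2 * M.r0 * P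
def OutA : Prop := M.St ∧ M.u1 = 0 ∧ IsUnit (M.sy M.u M.q) ∧ ∃ N : ℝ, 3 / 2 ≤ N ∧ M.H3 N ∧
  2 * M.X M.r0 = -(N : ℂ) • M.r0 ^ 2
def OutB : Prop := M.St ∧ M.u1 = 0 ∧ M.sy M.u M.q = 0 ∧ ∃ N : ℝ, 3 / 2 ≤ N ∧ M.H3 N ∧
  IsUnit (3 * M.r0 * M.sy M.h M.q - 8 * (M.q * M.cj M.q)) ∧
  (N + 1 : ℂ) • (M.r0 * (3 * M.r0 * M.sy M.h M.q - 8 * (M.q * M.cj M.q)))
    = 3 * M.sy M.h M.q * (M.r0 ^ 2 - 2 * M.X M.r0)
/-- The resultant is flat. -/
def OutF : Prop := IsUnit M.q ∧ M.wd M.l M.q = 0 ∧ IsUnit (M.wd M.e M.q) ∧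
  (IsUnit M.k ∨ IsUnit (2 * M.q * M.wd (M.X M.e) M.q - M.l * M.wd M.e M.q)) ∧ M.Fl M.rs

end

/-- Restriction to a smaller box. -/
structure Hom (M M' : Mdl) (φ : M.R →ₐ[ℂ] M'.R) : Prop where
  I : ∀ a, φ (M.I a) = M'.I (φ a)
  X : ∀ a, φ (M.X a) = M'.X (φ a)
  δ : ∀ a, φ (M.δ a) = M'.δ (φ a)
  ev : ∀ a, φ (M.ev a) = M'.ev (φ a)
  bv : ∀ a, φ (M.bv a) = M'.bv (φ a)
  cj : ∀ a, φ (M.cj a) = M'.cj (φ a)
  Z : ∀ m a, a ∈ M.Z m → φ a ∈ M'.Z m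
  c : M'.c = M.c
  la : φ M.la = M'.la
  z : φ M.z = M'.z
  zi : φ M.zi = M'.zi
  g : φ M.g = M'.g
  u : φ M.u = M'.u
  h : φ M.h = M'.h
  A : φ M.A = M'.A
  W : φ M.W = M'.W

/-- A class of models which is stable under localisation. -/
def Site (P : Mdl → Prop) : Prop := ∀ M, P M → ∀ a : M.R, M.δ a = 0 → M.bv a ≠ 0 →
  ∃ (M' : Mdl) (φ : M.R →ₐ[ℂ] M'.R), Hom M M' φ ∧ P M' ∧ IsUnit (φ a)

end Mdl

end Pool.Agent.MP_ed9623_an.R10
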