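import Pool.Agent.MP_ed9623_an.R10.Spec
import Pool.Agent.MP_ed9623_an.R10.Base4

/-! The third transversal derivative and the derivative of the slope. -/

namespace Pool.Agent.MP_ed9623_an.R10

open FA Mdl

namespace XDw

variable (M : Mdl)

theorem dy_rez {a : M.R} (h : M.S a) : M.Dy (M.re (M.z * a)) 0 := Dy.of_bv (bv_rez h.1)

theorem dy_py : M.Dy (M.py M.h M.W) M.W := ((dy_rez M M.Sh).add (Dy.I _)).congr (zero_add _)

theorem dy_p0 : M.Dy (M.p0 M.u M.h M.W) (M.py M.h M.W) :=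
  (((dy_rez M M.Su).add (Dy.y.mul (dy_rez M M.Sh))).add (Dy.I _)).congr (by rw [py]; ring)

theorem dy_pt : M.Dy (M.pt M.u M.h M.W) (M.pq M.h M.W) :=
  (((dy_rez M M.Su.X).add (Dy.y.mul (dy_rez M M.Sh.X))).add (Dy.I _)).congr (by rw [pq]; ring)

theorem X_py : M.X (M.py M.h M.W) = M.pq M.h M.W + M.el * M.W := by
  rw [py, pq, map_add, X_rez, T_apply]; ring

theorem dy_rp : M.Dy (M.rp M.u M.h M.A M.W) (M.pt M.u M.h M.W * M.A - M.py M.h M.W * M.T M.A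
    - M.pq M.h M.W * M.I M.A + M.W * M.T (M.I M.A)) := by
  refine (((((dy_pt M).mul (Dy.I M.A)).sub (Dy.I _)).sub ((dy_py M).mul (Dy.I M.A)).T).add
    (Dy.I _)).congr ?_
  rw [M.X_mul, X_py, T_apply M.A]
  ring

end XDw
open XDw

theorem rowDw : OfDw := by
  intro M
  obtain ⟨Li, hL⟩ := M.sys.ul.exists_right_inv
  have dL : M.Dy (1 + (M.g + M.el) ^ 2) (2 * (M.g + M.el) * M.la) := by
    have a := (Dy.of_bv M.Sg.1).add Dy.el
    rw [pow_two]
    exact ((Dy.of_bv S.one.1).add (a.mul a)).congr (by ring)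
  have δL : M.δ (1 + (M.g + M.el) ^ 2) = 0 := by simp [δ_sq, M.Sg.2]
  have dLi := dL.inv hL δL
  have dR := ((((((((Dy.of_bv (S.two.mul M.Sg).1).mul (dy_rez M M.Sq)).add
    ((Dy.of_bv (S.two.mul M.Sg).1).mul (Dy.I (M.X M.W + M.la * M.W)))).sub
    (Dy.y.mul (dy_rez M M.Sq.X))).sub (Dy.I (M.X (M.T M.W) + M.la * M.T M.W))).add
    (Dy.el.mul (Dy.I (M.X M.W + M.la * M.W)))).add
    ((Dy.of_bv M.Sk.1).mul (Dy.I M.W))).add (dy_p0 M).δ).add (dy_rp M)
  have eP := M.sys.eP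
  have eT : M.T M.W = M.I (M.X M.W + M.la * M.W) - M.el * M.W := T_eq _
  have eTT : M.T (M.T M.W) = M.I (M.X (M.T M.W) + M.la * M.T M.W) - M.el * M.T M.W := T_eq _
  have eW : (1 + (M.g + M.el) ^ 2) * M.W = 2 * M.g * M.re (M.z * M.q)
      + 2 * M.g * M.I (M.X M.W + M.la * M.W) - M.y * M.re (M.z * M.X M.q)
      - M.I (M.X (M.T M.W) + M.la * M.T M.W) + M.el * M.I (M.X M.W + M.la * M.W)
      + M.k * M.I M.W + M.δ (M.p0 M.u M.h M.W) + M.rp M.u M.h M.A M.W := by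
    rw [pq, pa] at eP
    rw [Mdl.q, Mdl.k]
    linear_combination eP + (2 * M.g + M.el) * eT - eTT
  rw [← eW] at dR
  have dW := dLi.mul dR
  rw [← mul_assoc, mul_comm Li, hL, one_mul] at dW
  refine ⟨_, dW, ?_, ?_⟩
  · linear_combination (-(2 * (M.g + M.el) * M.la * M.W) * (1 + (1 + (M.g + M.el) ^ 2) * Li)
      + (2 * M.g * (M.X M.W + M.la * M.W) - M.re (M.z * M.X M.q)
        - (M.X (M.T M.W) + M.la * M.T M.W) + M.la * M.I (M.X M.W + M.la * M.W)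
        + M.el * (M.X M.W + M.la * M.W) + M.k * M.W + M.δ (M.py M.h M.W)
        + (M.pt M.u M.h M.W * M.A - M.py M.h M.W * M.T M.A
          - M.pq M.h M.W * M.I M.A + M.W * M.T (M.I M.A)))) * hL - M.la * eT
  · obtain ⟨W', dW⟩ : ∃ W', M.Dy M.W W' := ⟨_, dW⟩
    have dq : M.Dy (M.pq M.h M.W) (M.X M.W - M.el * W') :=
      ((dy_rez M M.Sh.X).add dW.T).congr (zero_add _)
    have da := ((Dy.y.mul (dy_rez M M.Sh.X.X)).add dW.T.T).sub ((Dy.of_bv M.Sg.X.1).mul (Dy.I M.W))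
    have dr : M.Dy (M.rho M.g M.h M.W) (M.re (M.z * M.X M.q) + M.X (M.T M.W)
        + M.el * M.X M.W - M.k * M.W + 2 * (M.pq M.h M.W + M.el * M.W) * M.la) := by
      rw [rho, pow_two]
      refine ((da.add ((((Dy.of_bv S.two.1).mul Dy.el)).mul dq)).add
        ((Dy.el.mul Dy.el).mul dW)).congr ?_
      rw [Mdl.q, Mdl.k]
      ring
    have e := dr.ev
    rw [M.sys.nul] at e
    have e0 := e.unique (Dy.of_bv (map_zero _))
    rw [map_add, map_mul, map_mul, map_ofNat, M.ev_of _ M.δ_la] at e0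
    linear_combination e0

end Pool.Agent.MP_ed9623_an.R10
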