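import Pool.Agent.MP_ed9623_an.R10.Base4

/-! Orders at the level of the first derivative. -/

namespace Pool.Agent.MP_ed9623_an.R10

open FA

namespace XEst

/-- The defect of periodicity. -/
noncomputable def df (F : FA) (a : F.R) : F.R := F.δ (F.δ a) - F.c ^ 2 • a

section
variable {F : FA} {a g : F.R} {m : ℝ}

theorem df_add (a b : F.R) : df F (a + b) = df F a + df F b := by
  simp only [df, map_add, smul_add]; ring
theorem df_sub (a b : F.R) : df F (a - b) = df F a - df F b := by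
  simp only [df, map_sub, smul_sub]; ring
theorem df_rez (h : F.δ a = 0) : df F (F.re (F.z * a)) = 0 := by rw [df, δδ_rez h, sub_self]
theorem df_I (a : F.R) : df F (F.I a) = F.I (df F a) := by simp only [df, F.δ_I, map_sub, map_smul]
theorem df_T (a : F.R) : df F (F.T a) = F.T (df F a) := by simp only [df, δ_T, map_sub, map_smul]
theorem df_δ (a : F.R) : df F (F.δ a) = F.δ (df F a) := by simp only [df, map_sub, map_smul]
theorem df_lap (h : F.S g) (a : F.R) : df F (F.lap g a) = F.lap g (df F a) := by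
  rw [df, df, δ_lap h, δ_lap h, lap_sub, lap_smul]
theorem O_df (h : a ∈ F.O m) : df F a ∈ F.O m := sub_mem (O_δ (O_δ h)) (O_smul _ h)

/-- Inversion of the heat operator. -/
theorem heat {φ : F.R → F.R} (hφ : ∀ t, a ∈ F.O t → φ a ∈ F.O t) (u : IsUnit (1 + g ^ 2))
    (h : F.lap g a - F.I (F.I (φ a)) ∈ F.O m) : a ∈ F.O m :=
  gain (p := fun s => a ∈ F.O s) one_pos (fun _ _ e h => O_le h e) (O_0 a) fun s _ _ k => by
    refine O_of_lap u ?_
    have := add_mem (O_le h (min_le_left m (s + 1)))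
      (O_I' (O_I (hφ s k)) (show min m (s + 1) ≤ _ by linarith [min_le_right m (s + 1)]))
    rwa [sub_add_cancel] at this

end

variable (M : Mdl) {s : ℝ}

theorem δK : M.δ (2 * M.g * M.q + M.c • M.u + M.y * (M.c • M.h - M.X M.q)) = 0 := by
  rw [map_add, (((S.two.mul M.Sg).mul M.Sq).add (M.Su.smul _)).2, M.δ_mul, δ_y,
    ((M.Sh.smul _).sub M.Sq.X).2]
  simp

theorem rp_O (h : M.I M.A ∈ M.O s) : M.rp M.u M.h M.A M.W ∈ M.O s :=
  add_mem (sub_mem (sub_mem (Ideal.mul_mem_left _ _ h)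
    (O_I' (Ideal.mul_mem_left _ _ h) (by linarith)))
    (O_T' (Ideal.mul_mem_left _ _ h) (by linarith)))
    (O_I' (Ideal.mul_mem_left _ _ (O_T h)) (by linarith))

theorem dW_O (h : M.I M.A ∈ M.O s) : df M.toFA M.W ∈ M.O s := by
  refine heat (φ := M.δ) (fun _ => O_δ) M.w_unit ?_
  have e := congrArg (df M.toFA) M.eP
  rw [df_add, df_rez (δK M), zero_add, df_sub, df_lap M.Sg, df_δ, df_I, df_I, M.δ_I, M.δ_I] at e
  rw [e]
  exact O_df (rp_O M h)

theorem Ph_O (h : M.I M.A ∈ M.O s) : M.Ph ∈ M.O s := O_sin M.sys.rW (dW_O M h)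

theorem V_O (h : M.I M.A ∈ M.O s) : M.lap M.g M.V - M.c • M.I (M.I M.V)
    - (2 * M.g * M.q + M.c • M.u + M.y * (M.c • M.h - M.X M.q)) ∈ M.O s := by
  have e := congrArg M.am M.eP
  rw [am_add, am_rez (δK M), am_sub, am_lap M.Sg, am_δ, am_I, am_I] at e
  have a := add_mem (O_am (rp_O M h)) (O_smul M.c⁻¹ (O_ev (O_I' (O_I (dW_O M h))
    (show s ≤ _ by linarith))))
  rw [← df_I, ← df_I, df] at a
  have k : M.lap M.g M.V - M.c • M.I (M.I M.V)
      - (2 * M.g * M.q + M.c • M.u + M.y * (M.c • M.h - M.X M.q))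
      = M.am (M.rp M.u M.h M.A M.W)
        + M.c⁻¹ • M.ev (M.δ (M.δ (M.I (M.I M.W))) - M.c ^ 2 • M.I (M.I M.W)) := by
    rw [Mdl.V]; linear_combination e
  rwa [k]

theorem wr (F : FA) (a b : F.R) :
    F.δ (a * F.δ b - b * F.δ a) = a * df F b - b * df F a := by
  simp only [df, map_sub, F.δ_mul, Algebra.smul_def]; ring

theorem xi_O (h : M.I M.A ∈ M.O s) : M.δ (M.xi M.g M.u M.h M.A M.W) ∈ M.O s := by
  have r := rp_O M h
  have d := dW_O M h
  have e1 : df M.toFA (M.py M.h M.W) = M.I (df M.toFA M.W) := by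
    rw [M.py_eq, df_add, df_rez M.δ_Uy, zero_add, df_I, M.W_eq, df_add, df_rez M.δ_V, zero_add]
  have e2 : df M.toFA (M.pt M.u M.h M.W) = M.I (M.T (df M.toFA M.W)) := by
    rw [M.pt_eq, df_add, df_rez M.δ_Ut, zero_add, df_I, df_T, M.W_eq, df_add, df_rez M.δ_V,
      zero_add]
  rw [xi, map_add, M.δ_I, wr, e1, e2]
  refine add_mem (O_δ (sub_mem (add_mem (sub_mem
    (Ideal.mul_mem_left _ _ (O_T' h (by linarith)))
    (O_T' (Ideal.mul_mem_left _ _ h) (by linarith))) (Ideal.mul_mem_right _ _ r))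
    (O_T' (Ideal.mul_mem_right _ _ r) (by linarith)))) (O_I' (m := s) (sub_mem
      (Ideal.mul_mem_left _ _ (O_I' d (by linarith)))
      (Ideal.mul_mem_left _ _ (O_I' (O_T d) (by linarith)))) (by linarith))

theorem B_O (h : M.I M.A ∈ M.O s) : M.A - M.A0 ∈ M.O (s + 1) := by
  refine heat (φ := fun a => M.δ a - M.ev (M.δ a)) (g := M.g)
    (fun _ k => sub_mem (O_δ k) (O_ev (O_δ k))) M.w_unit (O_of_lap M.w_unit ?_)
  rw [map_sub M.δ, M.δ_A0, sub_zero, Mdl.A0, M.sys.eB]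
  exact O_int (by rw [M.δ_I]; exact O_I (xi_O M h))

end XEst

theorem rowEst : OfEst := by
  intro M n _ hf
  have h : M.I M.A ∈ M.O n :=
    gain (p := fun s => M.I M.A ∈ M.O s) one_pos (fun _ _ e h => O_le h e) (O_0 _) fun s _ _ k => by
      have := add_mem (O_le hf (min_le_left n (s + 1))) (O_I' (XEst.B_O M k)
        (show min n (s + 1) ≤ _ by linarith [min_le_right n (s + 1)]))
      rwa [Mdl.f, ← map_add, add_sub_cancel] at this
  exact ⟨h, XEst.Ph_O M h, XEst.B_O M h, XEst.V_O M h⟩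

end Pool.Agent.MP_ed9623_an.R10
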