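import Pool.Agent.MP_ed9623_an.R10.CBase
import Pool.Agent.MP_ed9623_an.R10.Base4

/-! Values of the elements of a represented algebra. -/

open Filter Topology Set
open scoped ComplexConjugate

namespace Pool.Agent.MP_ed9623_an.R10

open H77 (P Q)
open FA

namespace FA

variable {F : FA} {a a' : F.R}

theorem dit_eq (j : ℕ) (a : F.R) : F.δ^[j] a = (F.δ ^ j) a := (Module.End.pow_apply _ _ _).symm
theorem dit_add (j : ℕ) (a a' : F.R) : F.δ^[j] (a + a') = F.δ^[j] a + F.δ^[j] a' := by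
  simp only [dit_eq, map_add]
theorem dit_sub (j : ℕ) (a a' : F.R) : F.δ^[j] (a - a') = F.δ^[j] a - F.δ^[j] a' := by
  simp only [dit_eq, map_sub]
theorem dit_smul (j : ℕ) (s : ℂ) (a : F.R) : F.δ^[j] (s • a) = s • F.δ^[j] a := by
  simp only [dit_eq, map_smul]
theorem dit_zero (j : ℕ) : F.δ^[j] (0 : F.R) = 0 := by rw [dit_eq, map_zero]
theorem dit_K (h : F.δ a = 0) (j : ℕ) : F.δ^[j + 1] a = 0 := by
  rw [Function.iterate_succ_apply, h, dit_zero]
theorem dit_map {φ : F.R → F.R} (h : ∀ a, F.δ (φ a) = φ (F.δ a)) (j : ℕ) (a : F.R) :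
    F.δ^[j] (φ a) = φ (F.δ^[j] a) := (Function.Commute.iterate_left h j) a
theorem dit_I (j : ℕ) (a : F.R) : F.δ^[j] (F.I a) = F.I (F.δ^[j] a) := dit_map F.δ_I j a
theorem dit_X (j : ℕ) (a : F.R) : F.δ^[j] (F.X a) = F.X (F.δ^[j] a) := dit_map F.δ_X j a
theorem dit_bv (j : ℕ) (a : F.R) : F.δ^[j] (F.bv a) = F.bv (F.δ^[j] a) := dit_map F.δ_bv j a
theorem dit_cj (j : ℕ) (a : F.R) : F.δ^[j] (F.cj a) = F.cj (F.δ^[j] a) :=
  dit_map (fun a => (F.cj_δ a).symm) j a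
theorem dit_re (j : ℕ) (a : F.R) : F.δ^[j] (F.re a) = F.re (F.δ^[j] a) := dit_map δ_re j a
theorem dit_Kmul (h : F.δ a = 0) (j : ℕ) (a' : F.R) : F.δ^[j] (a * a') = a * F.δ^[j] a' :=
  dit_map (φ := fun x => a * x) (fun x => by rw [F.δ_mul, h, zero_mul, zero_add]) j a'
theorem dit_z (j : ℕ) : F.δ^[j] F.z = F.c ^ j • F.z := by
  induction j with
  | zero => simp
  | succ j ih => rw [Function.iterate_succ_apply', ih, map_smul, F.δ_z, smul_smul, pow_succ]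
theorem dit_rez (h : F.δ a = 0) (j : ℕ) : F.δ^[j] (F.re (F.z * a)) = F.re (F.z * (F.c ^ j • a)) := by
  rw [dit_re, mul_comm, dit_Kmul h, dit_z, mul_smul_comm, mul_smul_comm, mul_comm]
/-- The product rule. -/
theorem dit_mul (j : ℕ) (a a' : F.R) : F.δ^[j] (a * a') = ∑ i ∈ Finset.range (j + 1),
    (j.choose i : F.R) * (F.δ^[i] a * F.δ^[j - i] a') := by
  induction j with
  | zero => simp
  | succ j ih =>
    rw [Finset.sum_choose_succ_mul (fun i k => F.δ^[i] a * F.δ^[k] a'), Function.iterate_succ_apply',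
      ih, map_sum, ← Finset.sum_add_distrib]
    refine Finset.sum_congr rfl fun i hi => ?_
    rw [Nat.succ_sub (Finset.mem_range_succ_iff.1 hi), F.δ_mul, δ_nat, F.δ_mul,
      Function.iterate_succ_apply', Function.iterate_succ_apply']
    ring

end FA

namespace Rep

variable {F : FA} {b : Box} {nn la : P → ℝ} {v : F.R → P → ℂ} (h : Rep F b nn la v) {p : P}
  {a a' : F.R}
include h

theorem cc (a : F.R) : Cc b.B (v a) := (h.gd a).cc
theorem one (hp : p ∈ b.B) : v 1 p = 1 := by simpa using h.alg 1 p hp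
theorem zero (hp : p ∈ b.B) : v 0 p = 0 := by simpa using h.alg 0 p hp
/-- The value at a point as a homomorphism: rewrite with `← at_eq`, then use `map_add` etc. -/
def val (hp : p ∈ b.B) : F.R →ₐ[ℂ] ℂ where
  toFun a := v a p
  map_one' := h.one hp
  map_zero' := h.zero hp
  map_mul' a a' := h.mul a a' p hp
  map_add' a a' := h.add a a' p hp
  commutes' s := h.alg s p hp
theorem at_eq (hp : p ∈ b.B) (a : F.R) : h.val hp a = v a p := rfl
theorem sub (a a' : F.R) (hp : p ∈ b.B) : v (a - a') p = v a p - v a' p := map_sub (h.val hp) a a'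
theorem neg (a : F.R) (hp : p ∈ b.B) : v (-a) p = -v a p := map_neg (h.val hp) a
theorem smul (s : ℂ) (a : F.R) (hp : p ∈ b.B) : v (s • a) p = s * v a p := map_smul (h.val hp) s a
theorem pow (a : F.R) (k : ℕ) (hp : p ∈ b.B) : v (a ^ k) p = v a p ^ k := map_pow (h.val hp) a k
theorem nat (k : ℕ) (hp : p ∈ b.B) : v k p = k := map_natCast (h.val hp) k
theorem two (hp : p ∈ b.B) : v 2 p = 2 := map_ofNat (h.val hp) 2
theorem ne (u : IsUnit a) (hp : p ∈ b.B) : v a p ≠ 0 := (u.map (h.val hp)).ne_zero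
theorem inv (u : IsUnit a) (hp : p ∈ b.B) : v (Ring.inverse a) p = (v a p)⁻¹ :=
  eq_inv_of_mul_eq_one_right (by rw [← h.mul _ _ p hp, Ring.mul_inverse_cancel _ u, h.one hp])
theorem z (hp : p ∈ b.B) : v F.z p = 1 := by rw [← h.ev _ p hp, F.ev_z, h.one hp]
theorem zi (hp : p ∈ b.B) : v F.zi p = 1 := by rw [← h.ev _ p hp, ev_zi, h.one hp]
theorem I' (a : F.R) (hp : p ∈ b.B) {f : P → ℂ} (e : ∀ p ∈ b.B, v a p = f p) :
    v (F.I a) p = Iv nn f p := (h.I a p hp).trans (Iv_congr e hp)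
theorem y (hp : p ∈ b.B) : v F.y p = Iv nn 1 p := h.I' 1 hp fun _ => h.one
theorem el (hp : p ∈ b.B) : v F.el p = Iv nn (fun p => la p) p := h.I' _ hp h.la
theorem re (a : F.R) (hp : p ∈ b.B) : v (F.re a) p = (v a p).re := by
  rw [FA.re, h.smul _ _ hp, h.add _ _ p hp, h.cj _ p hp, Complex.re_eq_add_conj]; ring
theorem wd (a a' : F.R) (hp : p ∈ b.B) :
    v (F.wd a a') p = v a p * conj (v a' p) - conj (v a p) * v a' p := by
  rw [FA.wd, h.sub _ _ hp, h.mul _ _ p hp, h.mul _ _ p hp, h.cj _ p hp, h.cj _ p hp]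
theorem sy (a a' : F.R) (hp : p ∈ b.B) : v (F.sy a a') p = 2 * (v a p * conj (v a' p)).re := by
  rw [FA.sy, h.add _ _ p hp, h.mul _ _ p hp, h.mul _ _ p hp, h.cj _ p hp, h.cj _ p hp,
    Complex.re_eq_add_conj, map_mul, Complex.conj_conj]; ring
theorem am (a : F.R) (hp : p ∈ b.B) : v (F.am a) p = v a p + F.c⁻¹ * v (F.δ a) p := by
  rw [am_eq, h.add _ _ p hp, h.smul _ _ hp, h.ev _ p hp, h.ev _ p hp]
theorem rez (k : F.δ a = 0) (j : ℕ) (hp : p ∈ b.B) :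
    v (F.δ^[j] (F.re (F.z * a))) p = (F.c ^ j * v a p).re := by
  rw [dit_rez k, h.re _ hp, h.mul _ _ p hp, h.z hp, one_mul, h.smul _ _ hp]
theorem leibniz (j : ℕ) (a a' : F.R) (hp : p ∈ b.B) : v (F.δ^[j] (a * a')) p =
    ∑ i ∈ Finset.range (j + 1), (j.choose i : ℂ) * (v (F.δ^[i] a) p * v (F.δ^[j - i] a') p) := by
  simp only [dit_mul, ← h.at_eq hp, map_sum, map_mul, map_natCast]
theorem ext' (e : ∀ j, ∀ p ∈ b.B, v (F.δ^[j] a) p = v (F.δ^[j] a') p) : a = a' :=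
  sub_eq_zero.1 (h.ext _ fun j p hp => by rw [dit_sub, h.sub _ _ hp, e j p hp, sub_self])
theorem extK (k : F.δ a = 0) (k' : F.δ a' = 0) (e : ∀ p ∈ b.B, v a p = v a' p) : a = a' :=
  h.ext' fun j => match j with
    | 0 => e
    | j + 1 => fun _ _ => by rw [dit_K k, dit_K k']
theorem surK {f : P → ℂ} (hf : Gd b.B f) : ∃ a, F.δ a = 0 ∧ ∀ p ∈ b.B, v a p = f p :=
  let ⟨a, e⟩ := h.sur (fun _ => f) fun _ => hf
  ⟨F.ev a, F.δ_ev a, fun p hp => (h.ev a p hp).trans (e 0 p hp)⟩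
theorem unit_of (k : F.δ a = 0) {c : ℝ} (hc : 0 < c) (e : ∀ p ∈ b.B, c ≤ ‖v a p‖) : IsUnit a := by
  obtain ⟨a', k', e'⟩ := h.surK ((h.gd a).inv hc e)
  refine IsUnit.of_mul_eq_one a' (h.extK (by simp [F.δ_mul, k, k']) δ_one fun p hp => ?_)
  rw [h.mul _ _ p hp, e' p hp, h.one hp, mul_inv_cancel₀ (norm_pos_iff.1 (hc.trans_le (e p hp)))]
theorem lb (u : IsUnit a) : ∃ c > 0, ∀ p ∈ b.B, c ≤ ‖v a p‖ := by
  obtain ⟨M, m0, hM⟩ := (h.cc (Ring.inverse a)).bd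
  refine ⟨(M + 1)⁻¹, by positivity, fun p hp => inv_le_of_inv_le₀ (norm_pos_iff.2 (h.ne u hp)) ?_⟩
  rw [← norm_inv, ← h.inv u hp]; linarith [hM p hp]
theorem X_eq {f f' : P → ℂ} (e : ∀ p ∈ b.B, v a p = f p) (d : Dx b.B f f') (hp : p ∈ b.B) :
    v (F.X a) p = f' p := (h.X a).unique (d.congr e fun _ _ => rfl) hp
theorem S_val (k : F.bv a = a) (hp : p ∈ b.B) : v a p = v a (p.1, 0) := by rw [← h.bv a p hp, k]
theorem dy_val (d : F.Dy a a') (hp : p ∈ b.B) : v a p = v a (p.1, 0) + Iv nn (v a') p := by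
  rw [← h.bv a p hp, ← h.I a' p hp, ← h.add _ _ p hp]; exact congrArg (v · p) d
theorem de (d : F.Dy a a') : De b (v a) fun p => v a' p * nn p :=
  De.of_eq h.ch (h.cc a') fun _ => h.dy_val d
theorem dy_of (d : ∀ j, De b (v (F.δ^[j] a)) fun p => v (F.δ^[j] a') p * nn p) : F.Dy a a' :=
  h.ext' fun j p hp => by
    rw [dit_add, dit_bv, dit_I, h.add _ _ p hp, h.bv _ p hp, h.I _ p hp]
    exact (d j).ftc h.ch (h.cc _) (h.cc _) hp
theorem bv_zero (e : ∀ j, ∀ p ∈ b.B, v (F.δ^[j] a) (p.1, 0) = 0) : F.bv a = 0 :=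
  h.ext _ fun j p hp => by rw [dit_bv, h.bv _ p hp, e j p hp]
theorem ex_ne (k : F.δ a = 0) (e : F.bv a ≠ 0) : ∃ s ∈ Ioo b.s₀ b.s₁, v a (s, 0) ≠ 0 := by
  by_contra! c
  exact e (h.extK (by rw [F.δ_bv, k, map_zero]) (map_zero _) fun p hp => by
    rw [h.bv _ p hp, h.zero hp, c _ hp.1])
theorem ZK {m : ℝ} (k : F.δ a = 0) : a ∈ F.Z m ↔ Zc b.B m (v a) :=
  (h.Z m a).trans ⟨fun e => e 0, fun e j => match j with
    | 0 => e
    | j + 1 => Zc.zero.congr fun _ hp => by rw [dit_K k, h.zero hp]⟩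
/-- Members of a finitely generated ideal are dominated by the generators. -/
theorem span_le {ι : Type} [Fintype ι] {f : ι → F.R} (e : a ∈ Ideal.span (range f)) :
    ∃ C, 0 ≤ C ∧ ∀ p ∈ b.B, ‖v a p‖ ≤ C * ∑ i, ‖v (f i) p‖ := by
  obtain ⟨c, rfl⟩ := (Submodule.mem_span_range_iff_exists_fun _).1 e
  choose M m0 hM using fun i => (h.cc (c i)).bd
  refine ⟨∑ i, M i, Finset.sum_nonneg fun i _ => m0 i, fun p hp => ?_⟩
  rw [← h.at_eq hp, map_sum, Finset.mul_sum]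
  refine norm_sum_le_of_le _ fun i _ => ?_
  rw [smul_eq_mul, map_mul, norm_mul]
  exact mul_le_mul_of_nonneg_right ((hM i p hp).trans
    (Finset.single_le_sum (fun i _ => m0 i) (Finset.mem_univ i))) (norm_nonneg _)

end Rep

theorem Dat.cl (D : Dat) {p : P} (hp : p ∈ Q D.r) (e : p.2 ≤ 0) : D.Ψ p ∈ D.O ∩ closure D.Z := by
  refine ⟨D.h.sub (D.h.out.mp p hp), ?_⟩
  have c : ContinuousAt (fun t : ℝ => D.Ψ (p.1, t)) p.2 := continuousAt_const.prodMk
    (D.h.out.cY.d2 p hp).continuousAt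
  refine mem_closure_of_tendsto (c.tendsto.mono_left (nhdsWithin_le_nhds (s := Iio p.2))) ?_
  filter_upwards [self_mem_nhdsWithin, nhdsWithin_le_nhds
    ((Continuous.tendsto' (f := fun s : ℝ => ((p.1, s) : P)) (by fun_prop) _ p rfl).eventually
      ((H77.isOpen_Q D.r).mem_nhds hp))] with t ht k
  exact D.h.low _ k (ht.trans_le e)

theorem Dat.same (D : Dat) (j x y : ℕ) (e : x + y ≤ 2) : D.ps' j x y = D.ps D.t j x y :=
  (D.h.sa (.ps j) x y).1 (Nat.lt_succ_of_le e)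

end Pool.Agent.MP_ed9623_an.R10
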