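import Pool.Agent.MP_ed9623_an.R10.Spec
import Pool.Agent.MP_ed9623_an.R10.Base4

/-! The closed system of flat functions in a model on the side of the zone. -/

namespace Pool.Agent.MP_ed9623_an.R10

open FA

namespace XRcA

section alg

variable {C C' : Type} [CommRing C] [Algebra ℂ C] [CommRing C'] [Algebra ℂ C']

theorem map_dd (φ : C →+* C') {D₁ D₂ : C →ₗ[ℂ] C} {E₁ E₂ : C' →ₗ[ℂ] C'}
    (h₁ : ∀ a, φ (D₁ a) = E₁ (φ a)) (h₂ : ∀ a, φ (D₂ a) = E₂ (φ a)) {p p' : C → C}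
    {r r' : C' → C'} (hp : ∀ a, φ (p a) = r (φ a)) (hp' : ∀ a, φ (p' a) = r' (φ a)) (U V : C) :
    φ (dd D₁ D₂ U V p p') = dd E₁ E₂ (φ U) (φ V) r r' := by
  simp only [dd, ra, rb, lq, map_sub, map_mul, map_add, map_neg, map_ofNat, h₁, h₂, hp, hp']

/-- The polar form on the vectors `(1, -m)` and `(1, -n)`. -/
def po (A Q E m n : C) : C := A - (m + n) * Q + m * n * E

theorem key {R : Type} [CommRing R] (β : C →+* R) (p : C →ₗ[ℂ] C)
    (hp : ∀ a b, p (a * b) = p a * b + a * p b) (A Q E A' Q' E' m n : C) (hA : β A = 0)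
    (hA' : β A' = 0) :
    β (ra (po A Q E m m) (po A Q E m n) (po A Q E n n) (po A' Q' E' n n) (po A' Q' E' m n)
          (po A' Q' E' m m) *
        p (rb (po A Q E m m) (po A Q E m n) (po A Q E n n) (po A' Q' E' n n) (po A' Q' E' m n)
          (po A' Q' E' m m)) -
      rb (po A Q E m m) (po A Q E m n) (po A Q E n n) (po A' Q' E' n n) (po A' Q' E' m n)
          (po A' Q' E' m m) *
        p (ra (po A Q E m m) (po A Q E m n) (po A Q E n n) (po A' Q' E' n n) (po A' Q' E' m n)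
          (po A' Q' E' m m))) =
      -8 * (β m - β n) ^ 4 * β n ^ 3 * (β Q * β E' - β Q' * β E) ^ 2 *
        (2 * β n * (β Q' * β (p Q) - β Q * β (p Q')) + β n * (β (p A) * β E' - β (p A') * β E)
          - 4 * (β (p A) * β Q' - β (p A') * β Q)) := by
  have p1 : p 1 = 0 := by simpa using hp 1 1
  have p2 : p 2 = 0 := by rw [← one_add_one_eq_two, map_add, p1, add_zero]
  have p4 : p 4 = 0 := by rw [show (4 : C) = 2 + 2 by norm_num, map_add, p2, add_zero]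
  obtain ⟨x, hx⟩ : ∃ x, x = A * E' - A' * E := ⟨_, rfl⟩
  obtain ⟨y, hy⟩ : ∃ y, y = A * Q' - A' * Q := ⟨_, rfl⟩
  obtain ⟨w, hw⟩ : ∃ w, w = Q * E' - Q' * E := ⟨_, rfl⟩
  obtain ⟨d, hd⟩ : ∃ d, d = (m - n) * (m - n) := ⟨_, rfl⟩
  have e1 : ra (po A Q E m m) (po A Q E m n) (po A Q E n n) (po A' Q' E' n n) (po A' Q' E' m n)
      (po A' Q' E' m m) = d * (n * n * (2 * x * E' - 4 * Q' * w) + n * (4 * A' * w - 4 * y * E')
        + (4 * y * Q' - 2 * x * A')) := by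
    rw [hx, hy, hw, hd, ra, po, po, po, po, po, po]; ring
  have e2 : rb (po A Q E m m) (po A Q E m n) (po A Q E n n) (po A' Q' E' n n) (po A' Q' E' m n)
      (po A' Q' E' m m) = d * (n * n * (4 * Q * w - 2 * x * E) + n * (4 * y * E - 4 * A * w)
        + (2 * x * A - 4 * y * Q)) := by
    rw [hx, hy, hw, hd, rb, po, po, po, po, po, po]; ring
  have x0 : β x = 0 := by simp [hx, hA, hA']
  have y0 : β y = 0 := by simp [hy, hA, hA']
  have x1 : β (p x) = β (p A) * β E' - β (p A') * β E := by simp [hx, hp, hA, hA']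
  have y1 : β (p y) = β (p A) * β Q' - β (p A') * β Q := by simp [hy, hp, hA, hA']
  have w0 : β w = β Q * β E' - β Q' * β E := by simp [hw]
  have d0 : β d = (β m - β n) ^ 2 := by simp [hd, sq]
  rw [e1, e2]
  simp only [map_sub, map_add, hp, p2, p4, map_mul, map_ofNat, map_zero, hA, hA', x0, y0, x1, y1,
    w0, d0]
  ring


variable {D₁ D₂ : C →ₗ[ℂ] C}

theorem hess (hc : ∀ a, D₁ (D₂ a) = D₂ (D₁ a)) {U A Q E g : C}
    (h₁ : D₁ (D₁ U) = po A Q E g g) (h₂ : D₁ (D₂ U) = Q - g * E) (h₃ : D₂ (D₂ U) = E) :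
    dz D₁ D₂ (dz D₁ D₂ U) = po A Q E (g + Complex.I • 1) (g + Complex.I • 1) ∧
      lq D₁ D₂ U = po A Q E (g + Complex.I • 1) (g - Complex.I • 1) ∧
      db D₁ D₂ (db D₁ D₂ U) = po A Q E (g - Complex.I • 1) (g - Complex.I • 1) := by
  have i : algebraMap ℂ C Complex.I * algebraMap ℂ C Complex.I = -1 := by
    rw [← map_mul, Complex.I_mul_I, map_neg, map_one]
  simp only [dz, db, lq, map_sub, map_add, map_smul, ← hc U, h₁, h₂, h₃, po]
  simp only [Algebra.smul_def]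
  refine ⟨?_, ?_, ?_⟩
  · ring
  · linear_combination E * i
  · ring

/-- The ideal of the elements all of whose transversal derivatives vanish on the arc. -/
def JJ {R : Type} [CommRing R] (β : C →+* R) (D : C →ₗ[ℂ] C)
    (hD : ∀ a b, D (a * b) = D a * b + a * D b) : Ideal C where
  carrier := {a | ∀ j, β (D^[j] a) = 0}
  add_mem' {a b} ha hb j := by
    rw [← Module.End.pow_apply, map_add, map_add, Module.End.pow_apply, Module.End.pow_apply,
      ha j, hb j, add_zero]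
  zero_mem' j := by rw [← Module.End.pow_apply, map_zero, map_zero]
  smul_mem' b a h j := by
    rw [smul_eq_mul]
    induction j generalizing a b with
    | zero => simp [show β a = 0 from h 0]
    | succ k ih =>
      rw [Function.iterate_succ_apply, hD, ← Module.End.pow_apply, map_add, map_add,
        Module.End.pow_apply, Module.End.pow_apply, ih _ _ h, ih _ _ fun j => h (j + 1), add_zero]

end alg

variable {F : FA}

/-- Time independent elements with all transversal derivatives. -/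
def Cs (F : FA) : Subalgebra ℂ F.R where
  carrier := {a | F.δ a = 0 ∧ ∀ n, F.Lv n a}
  mul_mem' ha hb := ⟨by rw [F.δ_mul, ha.1, hb.1]; simp, fun n => (ha.2 n).mul (hb.2 n)⟩
  add_mem' ha hb := ⟨by rw [map_add, ha.1, hb.1, add_zero], fun n => (ha.2 n).add (hb.2 n)⟩
  algebraMap_mem' s := ⟨δ_alg s, Lv.of_bv (S.alg s).1⟩

theorem memS {a : F.R} (h : F.S a) : a ∈ Cs F := ⟨h.2, Lv.of_bv h.1⟩

theorem memI {a : F.R} (h : a ∈ Cs F) : F.I a ∈ Cs F :=
  ⟨by rw [F.δ_I, h.1, map_zero], fun n => (h.2 n).I'⟩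

noncomputable def d2 (a : Cs F) : Cs F :=
  ⟨(a.2.2 1).choose, (a.2.2 1).choose_spec.1.δ0 a.2.1,
    fun n => (a.2.2 (n + 1)).of_dy (a.2.2 1).choose_spec.1⟩

theorem dy0 (a : Cs F) : F.Dy a.1 (d2 a).1 := (a.2.2 1).choose_spec.1

/-- The transversal derivative. -/
noncomputable def D2 (F : FA) : Cs F →ₗ[ℂ] Cs F where
  toFun := d2
  map_add' a b := Subtype.ext ((dy0 (a + b)).unique ((dy0 a).add (dy0 b)))
  map_smul' s a := Subtype.ext ((dy0 (s • a)).unique ((dy0 a).smul s))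

theorem dy (a : Cs F) : F.Dy a.1 (D2 F a).1 := dy0 a

theorem D2_val {a : Cs F} {b : F.R} (h : F.Dy a.1 b) : (D2 F a).1 = b := (dy a).unique h

theorem D2_mul (a b : Cs F) : D2 F (a * b) = D2 F a * b + a * D2 F b :=
  Subtype.ext (D2_val ((dy a).mul (dy b)))

theorem lvX (hel : ∀ n, F.Lv n F.el) : ∀ (n : ℕ) (a : F.R), F.Lv n a → F.Lv n (F.X a)
  | 0, _, _ => trivial
  | n + 1, _, ⟨a', h, h'⟩ => ⟨_, h.X, (lvX hel n a' h').add (((hel (n + 1)).of_dy Dy.el).mul h')⟩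

/-- Flat elements have vanishing Taylor coefficients. -/
theorem taylor {a : Cs F} (h : F.Fl a.1) (j : ℕ) : F.bv ((D2 F)^[j] a).1 = 0 := by
  induction j using Nat.strong_induction_on with
  | _ j ih =>
    have e : ∀ i ≤ j, a.1 = F.I^[i] ((D2 F)^[i] a).1 := fun i hi => by
      induction i with
      | zero => rfl
      | succ i ih' =>
        have d := dy ((D2 F)^[i] a)
        unfold FA.Dy at d
        rw [ih i (by omega), zero_add] at d
        rw [ih' (by omega), d, Function.iterate_succ_apply, Function.iterate_succ_apply']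
    obtain ⟨b, hb⟩ : ∃ b, b = (D2 F)^[j] a := ⟨_, rfl⟩
    have d := dy b
    unfold FA.Dy at d
    have oI : ∀ (i : ℕ) (x : F.R), F.I^[i] x ∈ F.O i := fun i x => by
      induction i with
      | zero => simpa using O_0 x
      | succ i ih' => rw [Function.iterate_succ_apply']; exact O_I' ih' (by push_cast; rfl)
    have iS : ∀ i : ℕ, ∃ s : ℂ, s ≠ 0 ∧ F.I^[i] (F.bv b.1) = s • (F.y ^ i * F.bv b.1) := fun i => by
      induction i with
      | zero => exact ⟨1, one_ne_zero, by simp⟩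
      | succ i ih' =>
        obtain ⟨s, s0, hs⟩ := ih'
        refine ⟨s * ((i : ℂ) + 1)⁻¹, mul_ne_zero s0 (inv_ne_zero (Nat.cast_add_one_ne_zero i)), ?_⟩
        rw [Function.iterate_succ_apply', hs, map_smul, mul_comm (F.y ^ i), I_S (F.bv_bv _),
          I_ypow, mul_smul_comm, smul_smul, mul_comm (F.bv _)]
    obtain ⟨s, s0, hs⟩ := iS j
    have k := e j le_rfl
    rw [← hb, d, ← Module.End.pow_apply, map_add, Module.End.pow_apply, Module.End.pow_apply, hs,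
      ← Function.iterate_succ_apply] at k
    have o : s • (F.y ^ j * F.bv b.1) ∈ F.O (1 + j) := by
      rw [← sub_eq_iff_eq_add.2 k]
      exact sub_mem (h _) (O_le (oI _ _) (by push_cast; linarith))
    rw [← hb, ← F.bv_bv]
    exact O_bv (O_divp j (O_of_smul s0 o)) one_pos

variable {M : Mdl}

theorem memX (h : M.Sm) {a : M.R} (ha : a ∈ Cs M.toFA) : M.X a ∈ Cs M.toFA :=
  ⟨by rw [M.δ_X, ha.1, map_zero], fun n => lvX (fun n => (h n).2.2) n a (ha.2 n)⟩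

theorem mems (h : M.Sm) : M.g + M.el ∈ Cs M.toFA :=
  add_mem (memS M.Sg) ⟨δ_el, fun n => (h n).2.2⟩

/-- The first Cartesian derivative. -/
noncomputable def D1 (h : M.Sm) : Cs M.toFA →ₗ[ℂ] Cs M.toFA where
  toFun a := ⟨M.X a.1 - (M.g + M.el) * (D2 _ a).1,
    sub_mem (memX h a.2) (mul_mem (mems h) (D2 _ a).2)⟩
  map_add' a b := Subtype.ext (by
    simp only [map_add, Subalgebra.coe_add]; ring)
  map_smul' s a := Subtype.ext (by
    simp only [map_smul, Subalgebra.coe_smul, RingHom.id_apply, smul_sub, mul_smul_comm])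

theorem D1_val (h : M.Sm) (a : Cs M.toFA) :
    (D1 h a).1 = M.X a.1 - (M.g + M.el) * (D2 _ a).1 := rfl

theorem D1_mul (h : M.Sm) (a b : Cs M.toFA) : D1 h (a * b) = D1 h a * b + a * D1 h b :=
  Subtype.ext (by
    simp only [D1_val, D2_mul, Subalgebra.coe_add, Subalgebra.coe_mul, M.X_mul]; ring)

theorem D_comm (h : M.Sm) (a : Cs M.toFA) : D1 h (D2 _ a) = D2 _ (D1 h a) :=
  Subtype.ext (D2_val (((dy a).X.sub (((Dy.of_bv M.Sg.1).add Dy.el).mul (dy (D2 _ a)))).congr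
    (by rw [D1_val]; ring))).symm

/-- The value on the arc. -/
def bt (M : Mdl) : Cs M.toFA →+* M.R := M.bv.toRingHom.comp (Cs M.toFA).val.toRingHom

theorem bt_val (a : Cs M.toFA) : bt M a = M.bv a.1 := rfl

theorem bt_D1 (h : M.Sm) (a : Cs M.toFA) :
    bt M (D1 h a) = M.X (bt M a) - M.g * bt M (D2 _ a) := by
  simp [bt_val, D1_val, M.X_bv, M.Sg.1]

theorem J_st (h : M.Sm) (a : Cs M.toFA) (ha : a ∈ JJ (bt M) (D2 _) D2_mul) :
    D1 h a ∈ JJ (bt M) (D2 _) D2_mul ∧ D2 _ a ∈ JJ (bt M) (D2 _) D2_mul := by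
  refine ⟨fun j => ?_, fun j => ha (j + 1)⟩
  have c : Function.Commute (D2 M.toFA) (D1 h) := fun a => (D_comm h a).symm
  rw [(c.iterate_left j).eq, bt_D1, ha j, ← Function.iterate_succ_apply' (D2 M.toFA), ha (j + 1)]
  simp

/-- The conjugation. -/
def cc (M : Mdl) : Cs M.toFA →+* Cs M.toFA :=
  (M.cj.comp (Cs M.toFA).val.toRingHom).codRestrict (Cs M.toFA).toSubring fun a =>
    ⟨by change M.δ (M.cj a.1) = 0; rw [← M.cj_δ, a.2.1, map_zero], fun n => (a.2.2 n).cj⟩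

theorem cc_val (a : Cs M.toFA) : (cc M a).1 = M.cj a.1 := rfl

theorem cc_D2 (a : Cs M.toFA) : cc M (D2 _ a) = D2 _ (cc M a) :=
  Subtype.ext (D2_val (a := cc M a) (dy a).cj).symm

theorem cc_D1 (h : M.Sm) (a : Cs M.toFA) : cc M (D1 h a) = D1 h (cc M a) :=
  Subtype.ext (by simp [cc_val, D1_val, ← cc_D2, M.cj_X, M.cj_g])

theorem cc_smul (s : ℂ) (a : Cs M.toFA) : cc M (s • a) = (starRingEnd ℂ) s • cc M a :=
  Subtype.ext (M.cj_smul s a.1)

theorem cc_cc (a : Cs M.toFA) : cc M (cc M a) = a := Subtype.ext (M.cj_cj a.1)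

theorem memV (h : M.Sm) : M.V ∈ Cs M.toFA := ⟨M.δ_V, fun n => by
  rw [Mdl.V, am_eq]; exact (h n).2.1.ev.add ((h n).2.1.δ.ev.smul _)⟩

/-- The amplitude. -/
noncomputable def UU (h : M.Sm) : Cs M.toFA := ⟨M.u + M.y * M.h + M.I (M.I M.V),
  add_mem (add_mem (memS M.Su) (mul_mem (memI (one_mem _)) (memS M.Sh))) (memI (memI (memV h)))⟩

/-- The slope of the arc. -/
def gg (M : Mdl) : Cs M.toFA := ⟨M.g, memS M.Sg⟩

theorem U2 (h : M.Sm) : (D2 _ (UU h)).1 = M.Uy :=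
  D2_val ((((Dy.of_bv M.Su.1).add (Dy.y.mul (Dy.of_bv M.Sh.1))).add (Dy.I _)).congr
    (by rw [Mdl.Uy]; ring))

theorem U22 (h : M.Sm) : (D2 _ (D2 _ (UU h))).1 = M.V :=
  D2_val (by rw [U2]; exact ((Dy.of_bv M.Sh.1).add (Dy.I _)).congr (zero_add _))

theorem XI (a : F.R) : F.X (F.I a) = F.T a + F.el * a := by rw [T_apply]; ring

theorem U12 (h : M.Sm) : (D1 h (D2 _ (UU h))).1 = M.Uq - M.g * M.V := by
  rw [D1_val, U22, U2, Mdl.Uy, map_add, XI, Mdl.Uq, Mdl.q]; ring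

theorem U1 (h : M.Sm) : (D1 h (UU h)).1 = M.Ut - M.g * M.Uy := by
  rw [D1_val, U2, UU, map_add, map_add, XI, M.X_mul, X_y, T_I, Mdl.Ut, Mdl.Uy, Mdl.q, Mdl.u1]
  ring

theorem U11 (h : M.Sm) :
    (D1 h (D1 h (UU h))).1 = M.Ua - (M.g + M.g) * M.Uq + M.g * M.g * M.V := by
  rw [D1_val, ← D_comm, U12, U1, map_sub, M.X_mul, Mdl.Ut, Mdl.Uy, Mdl.Ua, Mdl.Uq]
  simp only [map_add, XI, M.X_mul, X_y, M.X_u1, ← Mdl.k.eq_1, ← Mdl.q.eq_1]
  ring

/-- The Hessian in the frame of the arc. -/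
noncomputable def EE (h : M.Sm) : Cs M.toFA := D2 _ (D2 _ (UU h))
noncomputable def QQ (h : M.Sm) : Cs M.toFA := D1 h (D2 _ (UU h)) + gg M * EE h
noncomputable def AA (h : M.Sm) : Cs M.toFA :=
  D1 h (D1 h (UU h)) + (gg M + gg M) * QQ h - gg M * gg M * EE h

theorem E_val (h : M.Sm) : (EE h).1 = M.V := U22 h

theorem Q_val (h : M.Sm) : (QQ h).1 = M.Uq := by
  change (D1 h (D2 _ (UU h))).1 + M.g * (EE h).1 = _
  rw [U12, E_val]; ring

theorem A_val (h : M.Sm) : (AA h).1 = M.Ua := by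
  change (D1 h (D1 h (UU h))).1 + (M.g + M.g) * (QQ h).1 - M.g * M.g * (EE h).1 = _
  rw [U11, Q_val, E_val]; ring

theorem cc_g : cc M (gg M) = gg M := Subtype.ext M.cj_g

theorem hU (h : M.Sm) : D1 h (D1 h (UU h)) = po (AA h) (QQ h) (EE h) (gg M) (gg M) ∧
    D1 h (D2 _ (UU h)) = QQ h - gg M * EE h ∧ D2 _ (D2 _ (UU h)) = EE h :=
  ⟨by rw [po, AA]; ring, by rw [QQ]; ring, rfl⟩

theorem hV (h : M.Sm) : D1 h (D1 h (cc M (UU h)))
      = po (cc M (AA h)) (cc M (QQ h)) (cc M (EE h)) (gg M) (gg M) ∧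
    D1 h (D2 _ (cc M (UU h))) = cc M (QQ h) - gg M * cc M (EE h) ∧
    D2 _ (D2 _ (cc M (UU h))) = cc M (EE h) := by
  simp only [← cc_D1, ← cc_D2, (hU h).1, (hU h).2.1, (hU h).2.2, po, map_add, map_sub, map_mul,
    cc_g, and_self]

theorem eqn (hA : M.A = 0) (hP : M.Ph = 0) : M.Ua - 2 * M.g * M.Uq + (1 + M.g ^ 2) * M.V
    = M.c • (M.u + M.y * M.h + M.I (M.I M.V)) := by
  have e := M.eP
  have r : M.rp M.u M.h M.A M.W = 0 := by simp [rp, hA]
  have d : M.δ (M.I (M.I M.V)) = 0 := by rw [M.δ_I, M.δ_I, M.δ_V, map_zero, map_zero]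
  rw [r, add_zero, M.W_eq, hP, add_zero, lap_rez M.cj_g, I_rez, I_rez, δ_rez d, ← re_sub,
    ← mul_sub] at e
  have k := congrArg M.am e
  rw [am_rez (by rw [map_sub, δ_lap M.Sg, M.δ_V, map_smul, d]; simp [lap]),
    am_rez (by simp [M.δ_mul, M.Sg.2, M.Sq.2, M.Su.2, M.Sh.2, M.Sq.X.2]), lap] at k
  simp only [Mdl.Ua, Mdl.Uq, Mdl.k, Algebra.smul_def] at k ⊢
  linear_combination k

theorem lqU (h : M.Sm) (hA : M.A = 0) (hP : M.Ph = 0) :
    lq (D1 h) (D2 _) (UU h) = M.c • UU h := Subtype.ext (by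
  change (D1 h (D1 h (UU h))).1 + (D2 _ (D2 _ (UU h))).1 = M.c • (M.u + M.y * M.h + M.I (M.I M.V))
  rw [U11, U22, ← eqn hA hP]; ring)

theorem lqV (h : M.Sm) (hA : M.A = 0) (hP : M.Ph = 0) :
    lq (D1 h) (D2 _) (cc M (UU h)) = -M.c • cc M (UU h) := by
  rw [← M.c_im, ← cc_smul, ← lqU h hA hP]
  simp only [lq, map_add, cc_D1, cc_D2]

theorem rC_val (h : M.Sm) : (rC (D1 h) (D2 _) (UU h) (cc M (UU h))).1 = M.rs := by
  have : rC (D1 h) (D2 _) (UU h) (cc M (UU h)) = (AA h * cc M (EE h) - cc M (AA h) * EE h) ^ 2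
      - 4 * (AA h * cc M (QQ h) - cc M (AA h) * QQ h)
        * (QQ h * cc M (EE h) - cc M (QQ h) * EE h) := by
    rw [rC, (hU h).1, (hU h).2.1, (hU h).2.2, (hV h).1, (hV h).2.1, (hV h).2.2, po, po]; ring
  rw [this, Mdl.rs, res, ← A_val h, ← Q_val h, ← E_val h]
  rfl

theorem bv_V (hA : M.A = 0) (hP : M.Ph = 0) : M.bv M.V = M.e := by
  have e := congrArg M.bv (eqn hA hP)
  simp only [Mdl.Ua, Mdl.Uq, map_add, map_sub, map_mul, map_smul, map_pow, map_one, map_ofNat,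
    bv_y, bv_T, M.bv_I, M.Sg.1, M.Sq.1, M.Su.1, zero_mul, mul_zero, add_zero, sub_zero] at e
  refine M.w_unit.mul_left_cancel ?_
  rw [M.w_e, Mdl.w]
  linear_combination e

/-- The determinant. -/
noncomputable def DD (h : M.Sm) : Cs M.toFA :=
  dd (D1 h) (D2 _) (UU h) (cc M (UU h)) (dz (D1 h) (D2 _)) (db (D1 h) (D2 _))

theorem bt_cc (a : Cs M.toFA) : bt M (cc M a) = M.cj (bt M a) := (M.cj_bv a.1).symm

theorem DD_ne (h : M.Sm) (hA : M.A = 0) (hP : M.Ph = 0) (o : M.OutF) : M.bv (DD h).1 ≠ 0 := by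
  intro h0
  obtain ⟨uq, hl, uw, hk, -⟩ := o
  obtain ⟨p, hp⟩ : ∃ p : Cs M.toFA →ₗ[ℂ] Cs M.toFA, p = D1 h + Complex.I • D2 _ := ⟨_, rfl⟩
  have pe : db (D1 h) (D2 _) = p := by rw [hp]; rfl
  have pm : ∀ a b, p (a * b) = p a * b + a * p b := fun a b => by
    simp only [hp, LinearMap.add_apply, LinearMap.smul_apply, D1_mul, D2_mul]
    simp only [Algebra.smul_def]
    ring
  obtain ⟨ι, hι⟩ : ∃ ι, ι = algebraMap ℂ M.R Complex.I := ⟨_, rfl⟩
  have i2 : ι * ι = -1 := by rw [hι, ← map_mul, Complex.I_mul_I, map_neg, map_one]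
  have ic : M.cj ι = -ι := by rw [hι, cj_alg, Complex.conj_I, map_neg]
  have bs : ∀ a, bt M (Complex.I • a) = ι * bt M a := fun a => by
    rw [bt_val, bt_val, hι, ← Algebra.smul_def, ← map_smul]; rfl
  have bp : ∀ a, bt M (p a) = M.X (bt M a) - (M.g - ι) * bt M (D2 _ a) := fun a => by
    rw [hp, LinearMap.add_apply, LinearMap.smul_apply, map_add, bt_D1, bs]; ring
  have bV := bv_V hA hP
  obtain ⟨V', dV⟩ : ∃ V', M.Dy M.V V' := ⟨_, E_val h ▸ dy (EE h)⟩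
  have a0 : bt M (AA h) = 0 := by simp [bt_val, A_val, Mdl.Ua, M.bv_I]
  have q0 : bt M (QQ h) = M.q := by simp [bt_val, Q_val, Mdl.Uq, M.Sq.1]
  have e0 : bt M (EE h) = M.e := by rw [bt_val, E_val, bV]
  have a1 : bt M (D2 _ (AA h)) = M.l := by
    rw [bt_val, D2_val (a := AA h) (by
      rw [A_val]
      exact ((Dy.y.mul (Dy.of_bv M.Sq.X.1)).add dV.T.T).sub ((Dy.of_bv M.Sk.1).mul (Dy.I _)))]
    simp [← M.X_bv, M.Sq.1, M.Sk.1, bV, Mdl.l]
  have q1 : bt M (D2 _ (QQ h)) = M.X M.e := by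
    rw [bt_val, D2_val (a := QQ h) (by rw [Q_val]; exact (Dy.of_bv M.Sq.1).add dV.T)]
    simp [← M.X_bv, bV]
  have g0 : bt M (gg M) = M.g := M.Sg.1
  have k := key (bt M) p pm (AA h) (QQ h) (EE h) (cc M (AA h)) (cc M (QQ h)) (cc M (EE h))
    (gg M + Complex.I • 1) (gg M - Complex.I • 1) a0 (by rw [bt_cc, a0, map_zero])
  obtain ⟨u1, u2, u3⟩ := hess (D_comm h) (hU h).1 (hU h).2.1 (hU h).2.2
  obtain ⟨v1, v2, v3⟩ := hess (D_comm h) (hV h).1 (hV h).2.1 (hV h).2.2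
  rw [← bt_val, DD, dd, u1, u2, u3, v1, v2, v3, pe, k] at h0
  simp only [bp, ← cc_D2, bt_cc, a0, q0, e0, a1, q1, g0, bs, map_add, map_sub, map_one, map_zero,
    mul_one, ← M.cj_X] at h0
  have xq : M.X M.q = M.l + M.k * M.e := by rw [Mdl.l]; ring
  rw [xq, map_add, map_mul, M.cj_k] at h0
  obtain ⟨W, hW⟩ : ∃ W, W = M.wd M.e M.q := ⟨_, rfl⟩
  obtain ⟨Y, hY⟩ : ∃ Y, Y = 2 * M.q * M.wd (M.X M.e) M.q - M.l * W := ⟨_, rfl⟩
  rw [← hW] at uw
  rw [← hW, ← hY] at hk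
  have un : IsUnit (M.g - ι) := isUnit_of_mul_isUnit_left (y := M.g + ι) (by
    rw [show (M.g - ι) * (M.g + ι) = M.w by rw [Mdl.w]; linear_combination -i2]; exact M.w_unit)
  have ui : IsUnit ι := isUnit_of_mul_isUnit_left (y := ι) (by rw [i2]; exact isUnit_one.neg)
  have u2 : IsUnit (2 : M.R) := by
    simpa [two_smul, one_add_one_eq_two] using unit_smul (F := M.toFA) (s := 2) two_ne_zero isUnit_one
  rw [wd] at hl hW hY
  have k1 : 2 * M.k * W * M.q - (M.g - ι) * Y = 0 := by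
    refine ((((u2.pow 7).mul (ui.pow 4)).mul (un.pow 4)).mul (uw.pow 2)).mul_right_eq_zero.1 ?_
    rw [hY, hW]
    linear_combination (-M.q) * h0 - 2 ^ 7 * ι ^ 4 * (M.g - ι) ^ 4
      * (M.e * M.cj M.q - M.cj M.e * M.q) ^ 2 * (6 * M.q + (M.g - ι) * M.e * (-1)) * hl
  have cW : M.cj W = -W := by rw [hW]; simp [M.cj_cj]
  have cY : M.q * M.cj Y = -(M.cj M.q * Y) := by
    rw [hY]
    simp only [map_sub, map_mul, map_ofNat, M.cj_cj, cW]
    linear_combination (-W) * hl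
  have k2 := congrArg M.cj k1
  simp only [map_sub, map_mul, map_ofNat, map_zero, M.cj_k, M.cj_g, cW, ic] at k2
  have y0 : Y = 0 := by
    refine ((u2.mul ui).mul (uq.map M.cj)).mul_right_eq_zero.1 ?_
    linear_combination M.cj M.q * k1 + M.q * k2 + (M.g + ι) * cY
  rcases hk with hk | hk
  · refine unit_ne (((u2.mul hk).mul uw).mul uq) ?_
    rw [← k1, y0]; ring
  · exact unit_ne hk y0

section hom

variable {M' : Mdl} {φ : M.R →ₐ[ℂ] M'.R}

theorem lv_map (H : Mdl.Hom M M' φ) : ∀ (n : ℕ) (a : M.R), M.Lv n a → M'.Lv n (φ a)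
  | 0, _, _ => trivial
  | n + 1, _, ⟨a', h, h'⟩ => ⟨_, H.Dy h, lv_map H n a' h'⟩

/-- The restriction. -/
def rr (H : Mdl.Hom M M' φ) : Cs M.toFA →+* Cs M'.toFA :=
  (φ.toRingHom.comp (Cs M.toFA).val.toRingHom).codRestrict (Cs M'.toFA).toSubring fun a =>
    ⟨by change M'.δ (φ a.1) = 0; rw [← H.δ, a.2.1, map_zero], fun n => lv_map H n _ (a.2.2 n)⟩

theorem rr_val (H : Mdl.Hom M M' φ) (a : Cs M.toFA) : (rr H a).1 = φ a.1 := rfl

theorem rr_D2 (H : Mdl.Hom M M' φ) (a : Cs M.toFA) : rr H (D2 _ a) = D2 _ (rr H a) :=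
  Subtype.ext (D2_val (a := rr H a) (H.Dy (dy a))).symm

theorem rr_D1 (H : Mdl.Hom M M' φ) (h : M.Sm) (h' : M'.Sm) (a : Cs M.toFA) :
    rr H (D1 h a) = D1 h' (rr H a) :=
  Subtype.ext (by simp [rr_val, D1_val, ← rr_D2, H.X, H.g, H.el])

theorem rr_smul (H : Mdl.Hom M M' φ) (s : ℂ) (a : Cs M.toFA) : rr H (s • a) = s • rr H a :=
  Subtype.ext (map_smul φ s a.1)

theorem rr_DD (H : Mdl.Hom M M' φ) (h : M.Sm) (h' : M'.Sm) : rr H (DD h) = DD h' := by
  have u : rr H (UU h) = UU h' := Subtype.ext (by simp [rr_val, UU, H.u, H.y, H.h, H.I, H.V])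
  have v : rr H (cc M (UU h)) = cc M' (UU h') := Subtype.ext (by
    rw [← u]; exact H.cj _)
  rw [DD, DD, map_dd (rr H) (rr_D1 H h h') (rr_D2 H) (r := dz (D1 h') (D2 _))
    (r' := db (D1 h') (D2 _)) (fun a => by simp only [dz, map_sub, rr_smul, rr_D1 H h h', rr_D2])
    (fun a => by simp only [db, map_add, rr_smul, rr_D1 H h h', rr_D2]), u, v]

end hom

theorem unit_C {a : Cs F} (u : IsUnit a.1) : IsUnit a := by
  obtain ⟨b, e⟩ := u.exists_right_inv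
  exact IsUnit.of_mul_eq_one (⟨b, inv_of_δ e a.2.1, fun n => (a.2.2 n).inv e a.2.1⟩ : Cs F)
    (Subtype.ext e)

theorem cc_DD (h : M.Sm) : cc M (DD h) =
    dd (D1 h) (D2 _) (cc M (UU h)) (UU h) (db (D1 h) (D2 _)) (dz (D1 h) (D2 _)) := by
  rw [DD, map_dd (cc M) (cc_D1 h) cc_D2 (r := db (D1 h) (D2 _)) (r' := dz (D1 h) (D2 _))
    (fun a => by simp only [dz, db, map_sub, cc_smul, cc_D1, cc_D2, Complex.conj_I, neg_smul,
      sub_neg_eq_add])
    (fun a => by simp only [dz, db, map_add, cc_smul, cc_D1, cc_D2, Complex.conj_I, neg_smul,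
      sub_eq_add_neg]), cc_cc]

theorem span_val {S : Set (Cs F)} {T : Set F.R} (h : ∀ y ∈ S, y.1 ∈ T) {x : Cs F}
    (hx : x ∈ Ideal.span S) : x.1 ∈ Ideal.span T :=
  (Ideal.span_le (I := (Ideal.span T).comap (Cs F).val)).2
    (fun y hy => Ideal.subset_span (h y hy)) hx

end XRcA

open XRcA in
theorem rowRcA : OfRcA := by
  intro hH _ hS P site hP M pM o
  have h := hS M (hP M pM).1
  obtain ⟨M', φ, H, pM', u⟩ := site M pM (DD h).1 (DD h).2.1
    (DD_ne h (hP M pM).1 (hP M pM).2 o)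
  have h' := hS M' (hP M' pM').1
  have u1 : IsUnit (DD h') := unit_C (by rw [← rr_DD H h h']; exact u)
  have u2 := u1.map (cc M')
  rw [cc_DD] at u2
  obtain ⟨n, f, hf, hr, hl⟩ := hH (Cs M'.toFA) (D1 h') (D2 _) (UU h') (cc M' (UU h')) M'.c
    (JJ (bt M') (D2 _) D2_mul) (D1_mul h') D2_mul (D_comm h') (lqU h' (hP M' pM').1 (hP M' pM').2)
    (lqV h' (hP M' pM').1 (hP M' pM').2) (J_st h')
    (taylor (by rw [rC_val, ← H.rs]; exact H.Fl o.2.2.2.2)) u1 u2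
  refine ⟨M', pM', n, fun i => (f i).1, fun i => (D1 h' (f i)).1, fun i => (D2 _ (f i)).1,
    fun i => (D1 h' (D1 h' (f i))).1, fun i => (D2 _ (D1 h' (f i))).1,
    fun i => (D2 _ (D2 _ (f i))).1, fun i => ⟨⟨dy _, dy _, dy _, ?_, ?_, ?_⟩, ?_⟩, ?_, fun i => ?_⟩
  · exact (sub_add_cancel _ _).symm
  · beta_reduce; rw [← D_comm]; exact (sub_add_cancel _ _).symm
  · exact (sub_add_cancel _ _).symm
  · have j := J_st h' _ (hf i)
    have k : ∀ a ∈ JJ (bt M') (D2 _) D2_mul, M'.δ a.1 = 0 ∧ M'.bv a.1 = 0 :=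
      fun a ha => ⟨a.2.1, ha 0⟩
    simp only [List.mem_cons, List.not_mem_nil, or_false, forall_eq_or_imp, forall_eq]
    exact ⟨k _ (hf i), k _ j.1, k _ j.2, k _ (J_st h' _ j.1).1, k _ (J_st h' _ j.1).2,
      k _ (J_st h' _ j.2).2⟩
  · rw [← rC_val h']
    exact span_val (by rintro _ ⟨i, rfl⟩; exact ⟨i, rfl⟩) hr
  · refine span_val (x := lq (D1 h') (D2 _) (f i)) ?_ (hl i)
    rintro _ ((⟨i, rfl⟩ | ⟨i, rfl⟩) | ⟨i, rfl⟩)
    exacts [Or.inl (Or.inl ⟨i, rfl⟩), Or.inl (Or.inr ⟨i, rfl⟩), Or.inr ⟨i, rfl⟩]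

end Pool.Agent.MP_ed9623_an.R10
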